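import Mathlib
import Pool.Agent.LGO.PA.Tate
import Pool.Agent.LGO.PA.QCard
import Pool.Agent.LGO.AXG.FamR
import Pool.Agent.LGO.H.BdC
import Pool.Agent.Hhelper14.ZPL.KClosed
import Pool.Agent.LGO.AXG.NoMod

/-!
# LGO/RU: the pair theorem for two coordinates with a common pole, any genus (Runge's method on level covers): definitions

Note 3151 on MP_d83ecd_ag.

`Ser`: power series with coefficients in the ring `OO` of algebraic integers.  `InK`, `Gr`: the coefficients lie in a number field and grow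
geometrically, for all conjugates.  `evc s S z`: the value at `z` of the series with the coefficients moved by the automorphism `s` of `ℂ`;
`PA.ev (sO φ) S z` is the same for an embedding `φ` of `ℂ` into `ℂ_[p]`.

`sp c d i Q`: if `A ^ d = Q` then `c(A) = ∑_{i < d} A ^ i (sp c d i Q)`.  `PE R k = E₄ ^ (3 k) Δ ^ (R - k)`; `Arr`: the coefficient of `A ^ i B ^ j` in the
expansion of `(∑_{k, k' < R} G k k' Y_a ^ k Y_b ^ k') Δ(A) ^ R Δ(B) ^ R`, where `Y_a = j(A)`, `Y_b = j(B)`, `A ^ d = q_a ^ a`, `B ^ d' = q_b ^ a'`.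

`vE`: the value of the function `∑ c i j k k' η ^ i ξ ^ j Y_a ^ k Y_b ^ k'` (`i < e`, `j < J`, `k, k' < R`).  `Gar`: the array `G` of its expansion at the
pole, after multiplication with `t ^ (e J + h e)`: `ξ = t ^ (-e)`, `η = W t ^ (-h)`.  `VC`: the expansion at the type `(a, a')` vanishes up to the order `T`.

`Loc V a b`: the local data at a common pole of the coordinates `a`, `b` of `V`.  `Mdl`: the complex model.  `QD`: the `q`-series.  `MonP`: the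
result on the monodromy.
-/

namespace Pool.Agent.LGO.RU

open PowerSeries Pool.Agent.Hhelper14.ZP Pool.Agent.Hhelper14.ZPL Pool.Agent.LGO
  Pool.Agent.LGO.PA UpperHalfPlane
open scoped MatrixGroups

/-- power series with algebraic integer coefficients -/
abbrev Ser := PowerSeries OO

/-- the coefficients lie in `K` -/
def InK (K : IntermediateField ℚ ℂ) (S : Ser) : Prop := ∀ n, ((coeff n S : OO) : ℂ) ∈ K

/-- the sums `∑ ‖s (coeff n S)‖ r ^ n` are at most `B`, for all automorphisms `s` of `ℂ` -/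
def Gr (r B : ℝ) (S : Ser) : Prop := ∀ (s : ℂ ≃+* ℂ) (k : ℕ),
  ∑ n ∈ Finset.range k, ‖s ((coeff n S : OO) : ℂ)‖ * r ^ n ≤ B

/-- an automorphism restricted to the algebraic integers -/
noncomputable def sC (s : ℂ ≃+* ℂ) : OO →+* ℂ := (s : ℂ →+* ℂ).comp OO.subtype

/-- the value at `z` of the series with the coefficients moved by `s` -/
noncomputable def evc (s : ℂ ≃+* ℂ) (S : Ser) (z : ℂ) : ℂ := ∑' n, sC s (coeff n S) * z ^ n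

/-- an integral series as a series with algebraic integer coefficients -/
noncomputable def toS (c : PowerSeries ℤ) : Ser := PowerSeries.map (Int.castRingHom OO) c

/-- the `i`-th part `∑ₙ c_{d n + i} Qⁿ` of `c(A)`, `A ^ d = Q` (`Q` without constant term) -/
noncomputable def sp (c : PowerSeries ℤ) (d i : ℕ) (Q : Ser) : Ser :=
  PowerSeries.mk fun N => ∑ n ∈ Finset.range (N + 1), ((coeff (d * n + i) c : ℤ) : OO) * coeff N (Q ^ n)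

/-- `E₄ ^ (3 k) Δ ^ (R - k)` -/
noncomputable def PE (R k : ℕ) : PowerSeries ℤ := E4s ^ (3 * k) * Ds ^ (R - k)

/-- the coefficient of `A ^ i B ^ j` in the expansion of `(∑ G k k' Y_a ^ k Y_b ^ k') (Δ(A) Δ(B)) ^ R` -/
noncomputable def Arr (R : ℕ) (G : ℕ → ℕ → Ser) (qa qb : Ser) (a d a' d' i j : ℕ) : Ser :=
  ∑ k ∈ Finset.range R, ∑ k' ∈ Finset.range R,
    G k k' * sp (PE R k) d i (qa ^ a) * sp (PE R k') d' j (qb ^ a')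

/-- the expansion at the type `(a, a')` vanishes up to the order `T` -/
def VC (R : ℕ) (G : ℕ → ℕ → Ser) (qa qb : Ser) (a d a' d' T : ℕ) : Prop :=
  ∀ i < d, ∀ j < d', ∀ n < T, coeff n (Arr R G qa qb a d a' d' i j) = 0

/-- the value of the function with the coefficients `c` -/
noncomputable def vE {F : Type} [Field F] (f : OO →+* F) (c : ℕ → ℕ → ℕ → ℕ → OO) (e J R : ℕ)
    (ξ η y y' : F) : F :=
  ∑ i ∈ Finset.range e, ∑ j ∈ Finset.range J, ∑ k ∈ Finset.range R, ∑ k' ∈ Finset.range R,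
    f (c i j k k') * η ^ i * ξ ^ j * y ^ k * y' ^ k'

/-- the array of the expansion of the function with the coefficients `c`, times `t ^ (e J + h e)` -/
noncomputable def Gar (e h J : ℕ) (W : Ser) (c : ℕ → ℕ → ℕ → ℕ → OO) (k k' : ℕ) : Ser :=
  ∑ i ∈ Finset.range e, ∑ j ∈ Finset.range J,
    C (c i j k k') * W ^ i * X ^ (e * (J - j) + h * (e - i))

/-- the local data at a common pole of the coordinates `a`, `b`: the polynomials `ξ`, `η` in the coordinates have their only pole there, of the coprime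
orders `e`, `h`; the local parameter is `t`, `t ^ e = 1 / ξ` -/
structure Loc {n : ℕ} (V : Set (Fin n → ℂ)) (a b : Fin n) where
  e : ℕ
  h : ℕ
  m : ℕ
  l : ℕ
  n₀ : ℕ
  C : ℕ
  K₀ : IntermediateField ℚ ℂ
  E : Set (Fin n → ℂ)
  Xi : MvPolynomial (Fin n) Qb
  Et : MvPolynomial (Fin n) Qb
  W : Ser
  Wa : Ser
  Wb : Ser
  r : ℝ
  fd : FiniteDimensional ℚ K₀
  fin : E.Finite
  pos : 0 < e ∧ 0 < m ∧ 0 < l ∧ 0 < n₀ ∧ 0 < C ∧ 0 < r ∧ r ≤ 1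
  inK : InK K₀ W ∧ InK K₀ Wa ∧ InK K₀ Wb
  gr : Gr r C W ∧ Gr r C Wa ∧ Gr r C Wb
  /-- near the pole, `p`-adically -/
  near_p : ∀ (p : ℕ) [Fact p.Prime] (φ : ℂ →+* ℂ_[p]), ∀ x ∈ V, x ∉ E →
    1 < ‖φ (MvPolynomial.aeval x Xi : ℂ)‖ → ∃ t : ℂ_[p], 0 < ‖t‖ ∧ ‖t‖ < 1 ∧
      t ^ e * φ (MvPolynomial.aeval x Xi : ℂ) = 1 ∧
      t ^ h * φ (MvPolynomial.aeval x Et : ℂ) = ev (sO φ) W t ∧
      φ (x a) * (t ^ m * ev (sO φ) Wa t) = 1 ∧ φ (x b) * (t ^ l * ev (sO φ) Wb t) = 1 ∧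
      ‖(n₀ : ℂ_[p])‖ ≤ ‖ev (sO φ) Wa t‖ ∧ ‖(n₀ : ℂ_[p])‖ ≤ ‖ev (sO φ) Wb t‖
  /-- near the pole, at the complex places -/
  near_c : ∀ (s : ℂ ≃+* ℂ), ∀ x ∈ V, x ∉ E → (C : ℝ) ≤ ‖s (MvPolynomial.aeval x Xi : ℂ)‖ →
    ∃ t : ℂ, 0 < ‖t‖ ∧ ‖t‖ ≤ r ∧
      t ^ e * s (MvPolynomial.aeval x Xi : ℂ) = 1 ∧
      t ^ h * s (MvPolynomial.aeval x Et : ℂ) = evc s W t ∧
      s (x a) * (t ^ m * evc s Wa t) = 1 ∧ s (x b) * (t ^ l * evc s Wb t) = 1 ∧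
      1 ≤ C * ‖evc s Wa t‖ ∧ 1 ≤ C * ‖evc s Wb t‖
  /-- upper bounds in terms of `ξ` -/
  up_p : ∀ (p : ℕ) [Fact p.Prime] (φ : ℂ →+* ℂ_[p]), ∀ x ∈ V, x ∉ E →
    ‖(n₀ : ℂ_[p])‖ * ‖φ (MvPolynomial.aeval x Et : ℂ)‖ ≤
      max 1 ‖φ (MvPolynomial.aeval x Xi : ℂ)‖ ^ C ∧
    ‖(n₀ : ℂ_[p])‖ * (‖φ (MvPolynomial.aeval x Xi : ℂ)‖ * ‖φ (x a)‖) ≤
      max 1 ‖φ (MvPolynomial.aeval x Xi : ℂ)‖ ^ C ∧
    ‖(n₀ : ℂ_[p])‖ * (‖φ (MvPolynomial.aeval x Xi : ℂ)‖ * ‖φ (x b)‖) ≤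
      max 1 ‖φ (MvPolynomial.aeval x Xi : ℂ)‖ ^ C
  up_c : ∀ (s : ℂ ≃+* ℂ), ∀ x ∈ V, x ∉ E →
    ‖s (MvPolynomial.aeval x Et : ℂ)‖ ≤ C * max 1 ‖s (MvPolynomial.aeval x Xi : ℂ)‖ ^ C ∧
    ‖s (MvPolynomial.aeval x Xi : ℂ)‖ * ‖s (x a)‖ ≤
      C * max 1 ‖s (MvPolynomial.aeval x Xi : ℂ)‖ ^ C ∧
    ‖s (MvPolynomial.aeval x Xi : ℂ)‖ * ‖s (x b)‖ ≤
      C * max 1 ‖s (MvPolynomial.aeval x Xi : ℂ)‖ ^ C
  /-- linear independence of the `η ^ i ξ ^ j`, `i < e` -/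
  indep : ∀ (N : ℕ) (c : ℕ → ℕ → ℂ), (∀ i j, IsAlgebraic ℚ (c i j)) →
    {x ∈ V | x ∉ E ∧ ∑ i ∈ Finset.range e, ∑ j ∈ Finset.range N, c i j *
      (MvPolynomial.aeval x Et : ℂ) ^ i * (MvPolynomial.aeval x Xi : ℂ) ^ j = 0}.Infinite →
    ∀ i < e, ∀ j < N, c i j = 0
  /-- `ξ` is not constant -/
  nc : ∀ c : ℂ, ∃ x ∈ V, (MvPolynomial.aeval x Xi : ℂ) ≠ c

variable {n : ℕ} {V : Set (Fin n → ℂ)} {a b : Fin n}

/-- the function `ξ` -/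
noncomputable def Loc.ξ (D : Loc V a b) (x : Fin n → ℂ) : ℂ := MvPolynomial.aeval x D.Xi

/-- the function `η` -/
noncomputable def Loc.η (D : Loc V a b) (x : Fin n → ℂ) : ℂ := MvPolynomial.aeval x D.Et

/-- the complex model: the points of `V` are the points `(ξ, η)` of a plane curve -/
structure Mdl (D : Loc V a b) where
  S : AXG.Cur 2
  A : AXG.Atl S
  ET : Finset ℂ
  nco : S.NCo
  nomod : S.NoMod
  to_ : ∀ x ∈ V, x ∉ D.E → (D.ξ x, D.η x) ∈ S.pt ∧ S.x 0 (D.ξ x, D.η x) = x a ∧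
    S.x 1 (D.ξ x, D.η x) = x b
  from_ : ∀ q ∈ S.pt, q.1 ∉ ET → ∃ x ∈ V, x ∉ D.E ∧ D.ξ x = q.1 ∧ D.η x = q.2
  cusp : ∃ β₀ : AXG.Br S, 0 < β₀.e 0 ∧ 0 < β₀.e 1

/-- the `q`-series of the coordinates `a`, `b` at the pole -/
structure QD (D : Loc V a b) where
  qa : Ser
  qb : Ser
  ρ : ℝ
  C : ℕ
  pos : 0 < ρ ∧ ρ ≤ 1 ∧ 0 < C
  c0 : coeff 0 qa = 0 ∧ coeff 0 qb = 0
  inK : InK D.K₀ qa ∧ InK D.K₀ qb
  gr : Gr ρ (1 / 2) qa ∧ Gr ρ (1 / 2) qb ∧ Gr ρ C D.W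
  near_p : ∀ (p : ℕ) [Fact p.Prime] (φ : ℂ →+* ℂ_[p]), ∀ x ∈ V, x ∉ D.E → 1 < ‖φ (D.ξ x)‖ →
    ∃ t : ℂ_[p], 0 < ‖t‖ ∧ ‖t‖ < 1 ∧ t ^ D.e * φ (D.ξ x) = 1 ∧
      t ^ D.h * φ (D.η x) = ev (sO φ) D.W t ∧
      ‖(D.n₀ : ℂ_[p])‖ * ‖t‖ ^ D.m ≤ ‖ev (sO φ) qa t‖ ∧ ‖ev (sO φ) qa t‖ < 1 ∧
      jP (ev (sO φ) qa t) = φ (x a) ∧
      ‖(D.n₀ : ℂ_[p])‖ * ‖t‖ ^ D.l ≤ ‖ev (sO φ) qb t‖ ∧ ‖ev (sO φ) qb t‖ < 1 ∧
      jP (ev (sO φ) qb t) = φ (x b)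
  near_c : ∀ (s : ℂ ≃+* ℂ), ∀ x ∈ V, x ∉ D.E → (C : ℝ) ≤ ‖s (D.ξ x)‖ →
    ∃ t : ℂ, 0 < ‖t‖ ∧ ‖t‖ ≤ ρ ∧ t ^ D.e * s (D.ξ x) = 1 ∧ t ^ D.h * s (D.η x) = evc s D.W t ∧
      ‖t‖ ^ D.m ≤ C * ‖evc s qa t‖ ∧ ‖t‖ ^ D.l ≤ C * ‖evc s qb t‖ ∧
      ∃ τ τ' : ℍ, 1 < τ.im ∧ 1 < τ'.im ∧ jInv τ = s (x a) ∧ jInv τ' = s (x b) ∧
        Complex.exp (2 * Real.pi * Complex.I * τ) = evc s qa t ∧
        Complex.exp (2 * Real.pi * Complex.I * τ') = evc s qb t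

/-- the expansions at all types `(a, a')` of level `L` vanish up to the order `T`, except at the type `(L, M)` (`M = 0`: no exception) -/
def VAll (L M R : ℕ) (G : ℕ → ℕ → Ser) (qa qb : Ser) (T : ℕ) : Prop :=
  ∀ a d a' d' : ℕ, a * d = L → a' * d' = L → ¬ (a = L ∧ a' = M) → VC R G qa qb a d a' d' T

/-- the type of `ya`, `yb` at a `p`-adic place is not `(L, M)` -/
def TyP {p : ℕ} [Fact p.Prime] (φ : ℂ →+* ℂ_[p]) (L M : ℕ) (qa qb : ℂ_[p]) (ya yb : ℂ) : Prop :=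
  ∃ (a d a' d' : ℕ) (A B : ℂ_[p]), a * d = L ∧ a' * d' = L ∧ ¬ (a = L ∧ a' = M) ∧
    0 < ‖A‖ ∧ ‖A‖ < 1 ∧ 0 < ‖B‖ ∧ ‖B‖ < 1 ∧ A ^ d = qa ^ a ∧ B ^ d' = qb ^ a' ∧
    jP A = φ ya ∧ jP B = φ yb

/-- the type of `ya`, `yb` at a complex place is not `(L, M)` -/
def TyC (s : ℂ ≃+* ℂ) (L M : ℕ) (qa qb : ℂ) (ya yb : ℂ) : Prop :=
  ∃ (a d a' d' : ℕ) (τ τ' : ℍ), a * d = L ∧ a' * d' = L ∧ ¬ (a = L ∧ a' = M) ∧
    Complex.exp (2 * Real.pi * Complex.I * τ) ^ d = qa ^ a ∧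
    Complex.exp (2 * Real.pi * Complex.I * τ') ^ d' = qb ^ a' ∧ jInv τ = s ya ∧ jInv τ' = s yb

/-- the coefficients `c` are algebraic integers in `K` with conjugates at most `exp B`, they vanish for `i ≥ e`, `j < n₁`, `j ≥ J`, `k ≥ R`, `k' ≥ R` -/
structure CB (K : IntermediateField ℚ ℂ) (c : ℕ → ℕ → ℕ → ℕ → OO) (e n₁ J R : ℕ) (B : ℝ) : Prop where
  supp : ∀ i j k k', c i j k k' ≠ 0 → i < e ∧ n₁ ≤ j ∧ j < J ∧ k < R ∧ k' < R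
  mem : ∀ i j k k', ((c i j k k' : OO) : ℂ) ∈ K
  bd : ∀ i j k k' (s : ℂ ≃+* ℂ), ‖s ((c i j k k' : OO) : ℂ)‖ ≤ Real.exp B

/-- the function with the coefficients `c` on the lifts, for two classes of matrices of determinant `L` -/
noncomputable def Fl {L : ℕ} (hL : 0 < L) (c : ℕ → ℕ → ℕ → ℕ → OO) (e J R : ℕ) (κa κb : QQ L)
    (ζ : Fin 2 → ℂ) (q : ℂ × ℂ) : ℂ :=
  vE OO.subtype c e J R q.1 q.2 (jQ hL κa (ofComplex (ζ 0))) (jQ hL κb (ofComplex (ζ 1)))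

/-- the result on the monodromy -/
def MonP (S : AXG.Cur 2) (β₀ : AXG.Br S) (c₀ : ℕ) : Prop :=
  ∀ L : ℕ, L.Coprime c₀ → ∀ g₁ g₂ : SL(2, ℤ), ∃ g : Fin 2 → SL(2, ℤ),
    (∀ i j, (((g 0).1 i j : ℤ) : ZMod L) = ((g₁.1 i j : ℤ) : ZMod L)) ∧
    (∀ i j, (((g 1).1 i j : ℤ) : ZMod L) = ((g₂.1 i j : ℤ) : ZMod L)) ∧
    ∀ Φ : (Fin 2 → ℂ) → ℂ × ℂ → ℂ, AXG.AnR S Φ → (AXG.RR Φ β₀ 1 ↔ AXG.RR Φ β₀ g)

end Pool.Agent.LGO.RU
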