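import Mathlib

/-!
# LGO/RU, geometric input: irreducibility of `Y ^ e + .. - c X ^ h`

All weights `e k + h l ≤ e h`, `e`, `h` coprime, `P` monic in `Y` of degree `e`, `deg p_0 = h`.  Then `P` is irreducible, over every field.
PROOF.  `Monic.irreducible_iff_natDegree'`: let `P = A B`, `A`, `B` monic of degrees `a`, `b > 0`, `a + b = e`.  The ring homomorphism
`θ : k[X][Y] → k[y][s]`, `X ↦ s ^ e`, `Y ↦ y s ^ h`, sends `X ^ k Y ^ l` to `y ^ l s ^ (e k + h l)`.  `deg_s θ(A) ≥ h a`, `deg_s θ(B) ≥ h b` (the
coefficient of `y ^ a s ^ (h a)` is `1`), and the sum is `deg_s θ(P) = e h`, so both are equalities.  The leading coefficient of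
`θ(A)` (a polynomial in `y`) is the sum of the `a_(l, k) y ^ l`, `e k + h l = h a`, so `l ≡ a` modulo `e`, `l ≤ a < e`: it is `y ^ a`.  The
leading coefficient of `θ(P)` would be `y ^ a y ^ b = y ^ e`, but it is `y ^ e + (coefficient of X ^ h in p_0)`.
-/

namespace Pool.Agent.LGO.RU

open Polynomial

/-- the substitution `X ↦ s ^ e`, `Y ↦ y s ^ h` -/
private noncomputable def GeoIrr_th (k : Type) [Field k] (e h : ℕ) : k[X][X] →+* k[X][X] :=
  eval₂RingHom (eval₂RingHom ((C : k[X] →+* k[X][X]).comp (C : k →+* k[X])) (X ^ e)) (C X * X ^ h)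

private theorem GeoIrr_mono {k : Type} [Field k] (e h l i : ℕ) (c : k) :
    GeoIrr_th k e h (monomial l (monomial i c)) = monomial (e * i + h * l) (monomial l c) := by
  unfold GeoIrr_th
  rw [coe_eval₂RingHom, eval₂_monomial, coe_eval₂RingHom, eval₂_monomial, mul_pow, ← pow_mul, ← pow_mul,
    RingHom.comp_apply]
  have h1 : (C (C c) * X ^ (e * i) * (C X ^ l * X ^ (h * l)) : k[X][X]) =
      C (C c * X ^ l) * X ^ (e * i + h * l) := by
    rw [C_mul, C_pow, pow_add]; ring
  rw [h1, C_mul_X_pow_eq_monomial, C_mul_X_pow_eq_monomial]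

/-- the coefficients of the image -/
private theorem GeoIrr_coeff {k : Type} [Field k] {e h : ℕ} (he : 0 < e) (A : k[X][X]) (n l : ℕ) :
    ((GeoIrr_th k e h A).coeff n).coeff l =
      if h * l ≤ n ∧ e ∣ n - h * l then (A.coeff l).coeff ((n - h * l) / e) else 0 := by
  induction A using Polynomial.induction_on' with
  | add p q hp hq =>
    rw [map_add, coeff_add, coeff_add, hp, hq, coeff_add, coeff_add]
    split_ifs <;> simp
  | monomial l₀ p =>
    induction p using Polynomial.induction_on' with
    | add p q hp hq =>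
      rw [map_add, map_add, coeff_add, coeff_add, hp, hq, coeff_add, coeff_add]
      split_ifs <;> simp
    | monomial i₀ c =>
      rw [GeoIrr_mono, coeff_monomial, coeff_monomial]
      by_cases hl : l₀ = l
      · subst hl
        rw [if_pos rfl, coeff_monomial]
        by_cases hn : e * i₀ + h * l₀ = n
        · subst hn
          rw [if_pos rfl, coeff_monomial, if_pos rfl, Nat.add_sub_cancel, if_pos ⟨Nat.le_add_left _ _, Dvd.intro _ rfl⟩,
            Nat.mul_div_cancel_left _ he, if_pos rfl]
        · rw [if_neg hn, coeff_zero]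
          split_ifs with h1 h2
          · exfalso
            obtain ⟨h3, h4⟩ := h1
            apply hn
            have h5 := Nat.mul_div_cancel' h4
            rw [← h2] at h5
            omega
          · rfl
          · rfl
      · rw [if_neg hl, coeff_zero]
        have : (if e * i₀ + h * l₀ = n then (monomial l₀ c : k[X]) else 0).coeff l = 0 := by
          split_ifs
          · rw [coeff_monomial, if_neg hl]
          · exact coeff_zero _
        rw [this]
        split_ifs <;> rfl

/-- the leading part of a monic polynomial of small degree -/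
private theorem GeoIrr_lead {k : Type} [Field k] {e h : ℕ} (he : 0 < e) (hh : 0 < h) (hc : Nat.Coprime e h)
    {A : k[X][X]} (hm : A.Monic) (ha : A.natDegree < e) :
    (GeoIrr_th k e h A).coeff (h * A.natDegree) = X ^ A.natDegree := by
  ext l
  rw [GeoIrr_coeff he, coeff_X_pow]
  by_cases hl : l = A.natDegree
  · subst hl
    rw [if_pos rfl, if_pos ⟨le_rfl, by rw [Nat.sub_self]; exact dvd_zero _⟩, Nat.sub_self, Nat.zero_div,
      hm.coeff_natDegree, coeff_one_zero]
  · rw [if_neg hl]
    split_ifs with h1
    · exfalso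
      obtain ⟨h2, h3⟩ := h1
      have h4 : l ≤ A.natDegree := Nat.le_of_mul_le_mul_left h2 hh
      rw [← Nat.mul_sub] at h3
      have h5 := hc.dvd_of_dvd_mul_left h3
      have h6 := Nat.le_of_dvd (by omega) h5
      omega
    · rfl

theorem irr_wt {k : Type} [Field k] {e h : ℕ} (he : 0 < e) (hh : 0 < h) (hc : Nat.Coprime e h)
    {P : k[X][X]} (hm : P.Monic) (hd : P.natDegree = e)
    (hw : ∀ l i, (P.coeff l).coeff i ≠ 0 → e * i + h * l ≤ e * h) (ht : (P.coeff 0).coeff h ≠ 0) :
    Irreducible P := by
  have key : ∀ A B : k[X][X], A.Monic → B.Monic → A * B = P → A.natDegree ≠ 0 → B.natDegree ≠ 0 → False := by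
    intro A B hA hB hAB ha0 hb0
    have hsum : A.natDegree + B.natDegree = e := by rw [← hA.natDegree_mul hB, hAB, hd]
    have hlA := GeoIrr_lead he hh hc hA (by omega)
    have hlB := GeoIrr_lead he hh hc hB (by omega)
    have hXa : (X ^ A.natDegree : k[X]) ≠ 0 := pow_ne_zero _ X_ne_zero
    have hXb : (X ^ B.natDegree : k[X]) ≠ 0 := pow_ne_zero _ X_ne_zero
    have hdA : h * A.natDegree ≤ (GeoIrr_th k e h A).natDegree := le_natDegree_of_ne_zero (by rwa [hlA])
    have hdB : h * B.natDegree ≤ (GeoIrr_th k e h B).natDegree := le_natDegree_of_ne_zero (by rwa [hlB])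
    have hA0 : GeoIrr_th k e h A ≠ 0 := by
      intro h0
      rw [h0, coeff_zero] at hlA
      exact hXa hlA.symm
    have hB0 : GeoIrr_th k e h B ≠ 0 := by
      intro h0
      rw [h0, coeff_zero] at hlB
      exact hXb hlB.symm
    have hmul : GeoIrr_th k e h P = GeoIrr_th k e h A * GeoIrr_th k e h B := by rw [← hAB, map_mul]
    have hdP : (GeoIrr_th k e h P).natDegree ≤ e * h := by
      rw [natDegree_le_iff_coeff_eq_zero]
      intro n hn
      ext l
      rw [GeoIrr_coeff he, coeff_zero]
      split_ifs with h1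
      · by_contra h2
        have h3 := hw l _ h2
        have h4 := Nat.mul_div_cancel' h1.2
        omega
      · rfl
    have hdm : (GeoIrr_th k e h P).natDegree = (GeoIrr_th k e h A).natDegree + (GeoIrr_th k e h B).natDegree := by
      rw [hmul, natDegree_mul hA0 hB0]
    have hehs : e * h = h * A.natDegree + h * B.natDegree := by rw [← hsum]; ring
    have eA : (GeoIrr_th k e h A).natDegree = h * A.natDegree := by omega
    have eB : (GeoIrr_th k e h B).natDegree = h * B.natDegree := by omega
    have h1 : (GeoIrr_th k e h P).coeff (e * h) = X ^ A.natDegree * X ^ B.natDegree := by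
      rw [hmul, hehs]
      have h2 := coeff_mul_degree_add_degree (GeoIrr_th k e h A) (GeoIrr_th k e h B)
      rw [leadingCoeff, leadingCoeff, eA, eB, hlA, hlB] at h2
      exact h2
    have h2 : ((GeoIrr_th k e h P).coeff (e * h)).coeff 0 =
        (X ^ A.natDegree * X ^ B.natDegree : k[X]).coeff 0 := by rw [h1]
    have h3 : ((GeoIrr_th k e h P).coeff (e * h)).coeff 0 = (P.coeff 0).coeff h := by
      rw [GeoIrr_coeff he, mul_zero, Nat.sub_zero, if_pos ⟨Nat.zero_le _, Dvd.intro _ rfl⟩,
        Nat.mul_div_cancel_left _ he]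
    have h4 : (X ^ A.natDegree * X ^ B.natDegree : k[X]).coeff 0 = 0 := by
      rw [← pow_add, hsum, coeff_X_pow, if_neg (by omega)]
    rw [h3, h4] at h2
    exact ht h2
  rw [Monic.irreducible_iff_natDegree hm]
  refine ⟨?_, ?_⟩
  · rintro rfl
    rw [natDegree_one] at hd
    omega
  · intro f g hf hg hfg
    by_contra hcon
    rw [not_or] at hcon
    exact key f g hf hg hfg hcon.1 hcon.2

end Pool.Agent.LGO.RU
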