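import Mathlib
import Pool.Agent.LGO.G.Rank
import Pool.Agent.LGO.G.Res
import Pool.Agent.LGO.G.CertEx
import Pool.Agent.LGO.G.Pole

/-!
# LGO/RU (Theorem RU, note 3151), geometric input: definitions

`k` algebraically closed, `L` a function field of one variable over `k` (`Dep k L`), `O` a place.

`IntO k x y`: `y` is a root of a monic polynomial with coefficients in `k[x]`.
`Bas k x b`: the `b_i` are a basis of `L` over `k(x)`, integral over `k[x]`.
`Gam O x g e`: the value group of `O` is generated by `v(g) > 1`, and `v(x) = v(g) ^ e` (`x` has a pole of order `e` at `O`).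
`wtG e h N`: the pole order of `N(x, y)` if `x`, `y` have poles of coprime orders `e`, `h` and `deg_Y N < e`.
`PlaneF`: the plane model with one point at infinity: `x`, `y` polynomials in the `ψ_a`, `P(x, y) = 0`, `P = Y ^ e + ..`.
-/

namespace Pool.Agent.LGO.RU

open Polynomial Pool.Agent.LGO

variable (k : Type) {L : Type} [Field k] [Field L] [Algebra k L]

/-- `y` is integral over `k[x]` -/
def IntO (x y : L) : Prop :=
  ∃ (r : ℕ) (c : ℕ → k[X]), 0 < r ∧ y ^ r + ∑ j ∈ Finset.range r, aeval x (c j) * y ^ j = 0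

/-- a basis of `L` over `k(x)` of elements which are integral over `k[x]` -/
structure Bas (x : L) {δ : ℕ} (b : Fin δ → L) : Prop where
  int : ∀ i, IntO k x (b i)
  ind : ∀ p : Fin δ → k[X], ∑ i, aeval x (p i) * b i = 0 → p = 0
  span : ∀ y : L, ∃ (q : k[X]) (p : Fin δ → k[X]), q ≠ 0 ∧
    aeval x q * y = ∑ i, aeval x (p i) * b i

variable {k}

/-- the value group is generated by `v(g)`, and `x` has a pole of order `e` -/
structure Gam (O : ValuationSubring L) (x g : L) (e : ℕ) : Prop where
  e0 : 0 < e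
  one : 1 < O.valuation g
  vx : O.valuation x = O.valuation g ^ e
  gen : ∀ y : L, y ≠ 0 → ∃ n : ℤ, O.valuation y = O.valuation g ^ n

/-- the pole order of `N(x, y)` -/
noncomputable def wtG (e h : ℕ) (N : k[X][X]) : ℕ :=
  N.support.sup fun i => e * (N.coeff i).natDegree + h * i

/-- the plane model with one point at infinity -/
structure PlaneF {m : ℕ} (ψ : Fin m → L) (O : ValuationSubring L) (Fx Fy : MvPolynomial (Fin m) k)
    (e h : ℕ) (P : k[X][X]) (M : k[X]) (N : Fin m → k[X][X]) : Prop where
  e0 : 0 < e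
  h0 : 0 < h
  cop : Nat.Coprime e h
  monic : P.Monic
  deg : P.natDegree = e
  wt : ∀ l < e, e * (P.coeff l).natDegree + h * l ≤ e * h
  top : (P.coeff 0).natDegree = h
  rel : ev2 (MvPolynomial.aeval ψ Fx) (MvPolynomial.aeval ψ Fy) P = 0
  ker : ∀ Q : k[X][X], ev2 (MvPolynomial.aeval ψ Fx) (MvPolynomial.aeval ψ Fy) Q = 0 → P ∣ Q
  M0 : M ≠ 0
  Nd : ∀ a, (N a).natDegree < e
  rep : ∀ a, aeval (MvPolynomial.aeval ψ Fx) M * ψ a =
    ev2 (MvPolynomial.aeval ψ Fx) (MvPolynomial.aeval ψ Fy) (N a)
  pole : ∀ a, ψ a ∉ O → e * M.natDegree < wtG e h (N a)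
  int : ∀ a, IntO k (MvPolynomial.aeval ψ Fx : L) (MvPolynomial.aeval ψ Fx * ψ a)

/-- integral elements lie in the valuation rings -/
theorem IntO.mem {x y : L} (h : IntO k x y) {O : ValuationSubring L} (hO : Over k O) (hx : x ∈ O) :
    y ∈ O := by
  obtain ⟨r, c, hr, hy⟩ := h
  have hc : ∀ j, aeval x (c j) ∈ O := by
    intro j
    induction c j using Polynomial.induction_on' with
    | add p q hp hq => rw [map_add]; exact O.add_mem _ _ hp hq
    | monomial n a =>
      rw [aeval_monomial]
      exact O.mul_mem _ _ (hO a) (O.toSubring.pow_mem hx n)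
  rw [← O.valuation_le_one_iff]
  by_contra hcon
  rw [not_le] at hcon
  have h1 : O.valuation (∑ j ∈ Finset.range r, aeval x (c j) * y ^ j) < O.valuation y ^ r := by
    apply Valuation.map_sum_lt
    · exact pow_ne_zero _ (zero_lt_one.trans hcon).ne'
    · intro j hj
      rw [map_mul, map_pow]
      calc O.valuation (aeval x (c j)) * O.valuation y ^ j ≤ 1 * O.valuation y ^ j :=
            mul_le_mul_left ((O.valuation_le_one_iff _).2 (hc j)) _
        _ = O.valuation y ^ j := one_mul _
        _ < O.valuation y ^ r := pow_lt_pow_right₀ hcon (Finset.mem_range.1 hj)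
  have h2 : y ^ r = -∑ j ∈ Finset.range r, aeval x (c j) * y ^ j := by linear_combination hy
  rw [← map_pow, h2, Valuation.map_neg] at h1
  exact lt_irrefl _ h1

end Pool.Agent.LGO.RU
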