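import Mathlib
import Pool.Agent.LGO.RU.GeoDefs
import Pool.Agent.LGO.PA.Defs

/-!
# LGO/RU, geometric input: power series (definitions)

`Gd K S`: the coefficients of `S` lie in the number field `K`, `A ^ (n + 1) c_n` is an algebraic integer, and `|σ(c_n)| ≤ C ^ (n + 1)` for
ALL `σ : ℂ →+* ℂ`.
`evE φ S τ`: the value at `τ ∈ E`, `φ : ℂ →+* E`, `E` a complete normed field (`ℂ` or `ℂ_[p]`); `Cv φ S τ`: absolute convergence.
`Tw e h w P W = ∑ p_(l,k) X ^ (w - e k - h l) W ^ l`: this is `t ^ w P(t ^ (-e), t ^ (-h) W(t))` if all `e k + h l ≤ w`.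
`Wt e h w P`: all `e k + h l ≤ w`.
-/

namespace Pool.Agent.LGO.RU

open Polynomial Pool.Agent.LGO Pool.Agent.Hhelper14.ZPL

/-- coefficients in a number field, denominators and conjugates grow geometrically -/
structure Gd (K : IntermediateField ℚ ℂ) (S : PowerSeries ℂ) : Prop where
  fld : ∀ n, PowerSeries.coeff n S ∈ K
  eis : ∃ A : ℕ, 0 < A ∧ ∀ n, IsIntegral ℤ ((A : ℂ) ^ (n + 1) * PowerSeries.coeff n S)
  gro : ∃ C : ℝ, 0 < C ∧ ∀ (σ : ℂ →+* ℂ) (n : ℕ), ‖σ (PowerSeries.coeff n S)‖ ≤ C ^ (n + 1)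

/-- the value of a power series -/
noncomputable def evE {E : Type} [NormedField E] (φ : ℂ →+* E) (S : PowerSeries ℂ) (τ : E) : E :=
  ∑' n, φ (PowerSeries.coeff n S) * τ ^ n

/-- absolute convergence -/
def Cv {E : Type} [NormedField E] (φ : ℂ →+* E) (S : PowerSeries ℂ) (τ : E) : Prop :=
  Summable fun n => ‖φ (PowerSeries.coeff n S) * τ ^ n‖

/-- `t ^ w P(t ^ (-e), t ^ (-h) W(t))` -/
noncomputable def Tw (e h w : ℕ) (P : ℂ[X][X]) (W : PowerSeries ℂ) : PowerSeries ℂ :=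
  ∑ l ∈ P.support, ∑ k ∈ (P.coeff l).support,
    PowerSeries.C ((P.coeff l).coeff k) * PowerSeries.X ^ (w - (e * k + h * l)) * W ^ l

/-- the weights of the terms are at most `w` -/
def Wt (e h w : ℕ) (P : ℂ[X][X]) : Prop := ∀ l k, (P.coeff l).coeff k ≠ 0 → e * k + h * l ≤ w

/-- the coefficients of the polynomial lie in `K` -/
def FldP (K : IntermediateField ℚ ℂ) (P : ℂ[X][X]) : Prop := ∀ l k, (P.coeff l).coeff k ∈ K

end Pool.Agent.LGO.RU
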