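import Mathlib
import Pool.Agent.LGO.RU.GeoSer
import Pool.Agent.LGO.PA.Crit

/-!
# LGO/RU, geometric input: evaluation of power series

`Cv` is stable under the ring operations, `evE` is a ring homomorphism on the absolutely convergent series (Cauchy product:
`tsum_mul_tsum_eq_tsum_sum_antidiagonal_of_summable_norm`, as in `LGO/PA/Ev.lean`).
`cv_p`: `‖φ(c_n) τ ^ n‖ ≤ ‖φ A‖ ^ (-(n + 1)) ‖τ‖ ^ n` because `φ` of an algebraic integer has norm at most `1`
(in `LGO/PA/Ev.lean` or `Hhelper14`: search `sO`, `OO`, `norm_le_one`).  `cv_c`: geometric series.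
`ev_Tw`: `τ ^ e φ(X) = 1`, `φ(Y) τ ^ h = W(τ)`.
-/

namespace Pool.Agent.LGO.RU

open Polynomial Pool.Agent.LGO

variable {E : Type} [NormedField E] [CompleteSpace E] {φ : ℂ →+* E} {S T : PowerSeries ℂ} {τ : E}


private theorem GeoEv_mul_term (n : ℕ) :
    φ (PowerSeries.coeff n (S * T)) * τ ^ n =
      ∑ kl ∈ Finset.HasAntidiagonal.antidiagonal n, (φ (PowerSeries.coeff kl.1 S) * τ ^ kl.1) *
        (φ (PowerSeries.coeff kl.2 T) * τ ^ kl.2) := by
  rw [PowerSeries.coeff_mul, map_sum, Finset.sum_mul]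
  refine Finset.sum_congr rfl fun kl hkl => ?_
  rw [← Finset.HasAntidiagonal.mem_antidiagonal.mp hkl, pow_add, map_mul]
  ring

theorem Cv.add (hS : Cv φ S τ) (hT : Cv φ T τ) : Cv φ (S + T) τ := by
  have h : Summable fun n => ‖φ (PowerSeries.coeff n S) * τ ^ n‖ + ‖φ (PowerSeries.coeff n T) * τ ^ n‖ :=
    Summable.add hS hT
  refine Summable.of_nonneg_of_le (fun _ => norm_nonneg _) (fun n => ?_) h
  rw [map_add, map_add, add_mul]
  exact norm_add_le _ _

theorem Cv.mul (hS : Cv φ S τ) (hT : Cv φ T τ) : Cv φ (S * T) τ := by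
  have h := summable_norm_sum_mul_antidiagonal_of_summable_norm hS hT
  refine h.congr fun n => ?_
  rw [GeoEv_mul_term]

theorem cv_C (c : ℂ) : Cv φ (PowerSeries.C c) τ := by
  refine summable_of_ne_finset_zero (s := {0}) fun n hn => ?_
  rw [Finset.mem_singleton] at hn
  rw [PowerSeries.coeff_C, if_neg hn, map_zero, zero_mul, norm_zero]

theorem cv_X : Cv φ PowerSeries.X τ := by
  refine summable_of_ne_finset_zero (s := {1}) fun n hn => ?_
  rw [Finset.mem_singleton] at hn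
  rw [PowerSeries.coeff_X, if_neg hn, map_zero, zero_mul, norm_zero]

private theorem GeoEv_one : (1 : PowerSeries ℂ) = PowerSeries.C 1 := (map_one _).symm

theorem Cv.pow (hS : Cv φ S τ) (n : ℕ) : Cv φ (S ^ n) τ := by
  induction n with
  | zero => rw [pow_zero, GeoEv_one]; exact cv_C 1
  | succ n ih => rw [pow_succ]; exact ih.mul hS

theorem Cv.sum {ι : Type} (s : Finset ι) {F : ι → PowerSeries ℂ} (h : ∀ i ∈ s, Cv φ (F i) τ) :
    Cv φ (∑ i ∈ s, F i) τ := by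
  classical
  induction s using Finset.induction_on with
  | empty =>
    rw [Finset.sum_empty, ← map_zero PowerSeries.C]
    exact cv_C 0
  | insert a s ha ih =>
    rw [Finset.sum_insert ha]
    exact (h a (Finset.mem_insert_self a s)).add (ih fun i hi => h i (Finset.mem_insert_of_mem hi))

private theorem GeoEv_hasSum (hS : Cv φ S τ) :
    HasSum (fun n => φ (PowerSeries.coeff n S) * τ ^ n) (evE φ S τ) :=
  (Summable.of_norm hS).hasSum

theorem evE_add (hS : Cv φ S τ) (hT : Cv φ T τ) : evE φ (S + T) τ = evE φ S τ + evE φ T τ := by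
  have h := (GeoEv_hasSum hS).add (GeoEv_hasSum hT)
  refine Eq.trans (tsum_congr fun n => ?_) h.tsum_eq
  rw [map_add, map_add, add_mul]

theorem evE_mul (hS : Cv φ S τ) (hT : Cv φ T τ) : evE φ (S * T) τ = evE φ S τ * evE φ T τ := by
  have h := tsum_mul_tsum_eq_tsum_sum_antidiagonal_of_summable_norm hS hT
  unfold evE
  rw [h]
  simp only [GeoEv_mul_term]

theorem evE_C (c : ℂ) : evE φ (PowerSeries.C c) τ = φ c := by
  unfold evE
  rw [tsum_eq_single 0]
  · simp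
  · intro n hn
    rw [PowerSeries.coeff_C, if_neg hn, map_zero, zero_mul]

theorem evE_X : evE φ PowerSeries.X τ = τ := by
  unfold evE
  rw [tsum_eq_single 1]
  · simp
  · intro n hn
    rw [PowerSeries.coeff_X, if_neg hn, map_zero, zero_mul]

theorem evE_pow (hS : Cv φ S τ) (n : ℕ) : evE φ (S ^ n) τ = evE φ S τ ^ n := by
  induction n with
  | zero =>
    rw [pow_zero, pow_zero, GeoEv_one, evE_C, map_one]
  | succ n ih => rw [pow_succ, pow_succ, evE_mul (hS.pow n) hS, ih]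

theorem evE_sum {ι : Type} (s : Finset ι) {F : ι → PowerSeries ℂ} (h : ∀ i ∈ s, Cv φ (F i) τ) :
    evE φ (∑ i ∈ s, F i) τ = ∑ i ∈ s, evE φ (F i) τ := by
  classical
  induction s using Finset.induction_on with
  | empty =>
    rw [Finset.sum_empty, Finset.sum_empty, ← map_zero PowerSeries.C, evE_C, map_zero]
  | insert a s ha ih =>
    have h' : ∀ i ∈ s, Cv φ (F i) τ := fun i hi => h i (Finset.mem_insert_of_mem hi)
    rw [Finset.sum_insert ha, Finset.sum_insert ha,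
      evE_add (h a (Finset.mem_insert_self a s)) (Cv.sum s h'), ih h']

/-- convergence at the nonarchimedean places -/
theorem cv_p {p : ℕ} [Fact p.Prime] {φ : ℂ →+* ℂ_[p]} {S : PowerSeries ℂ} {A : ℕ}
    (hA : ∀ n, IsIntegral ℤ ((A : ℂ) ^ (n + 1) * PowerSeries.coeff n S)) {τ : ℂ_[p]}
    (hτ : ‖τ‖ < ‖φ (A : ℂ)‖) : Cv φ S τ := by
  have h0 : 0 < ‖φ (A : ℂ)‖ := lt_of_le_of_lt (norm_nonneg _) hτ
  have h1 : ‖τ‖ / ‖φ (A : ℂ)‖ < 1 := (div_lt_one h0).2 hτ
  have h2 : 0 ≤ ‖τ‖ / ‖φ (A : ℂ)‖ := div_nonneg (norm_nonneg _) h0.le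
  refine Summable.of_nonneg_of_le (fun _ => norm_nonneg _) (fun n => ?_)
    ((summable_geometric_of_lt_one h2 h1).mul_left (‖φ (A : ℂ)‖⁻¹))
  have h3 : ‖φ ((A : ℂ) ^ (n + 1) * PowerSeries.coeff n S)‖ ≤ 1 := PA.norm_le_one_of_integral φ (hA n)
  rw [map_mul, map_pow, norm_mul, norm_pow] at h3
  rw [norm_mul, norm_pow, div_pow]
  have h4 : ‖φ (PowerSeries.coeff n S)‖ ≤ (‖φ (A : ℂ)‖ ^ (n + 1))⁻¹ := by
    rw [← one_div, le_div_iff₀ (pow_pos h0 _), mul_comm]
    exact h3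
  calc ‖φ (PowerSeries.coeff n S)‖ * ‖τ‖ ^ n ≤ (‖φ (A : ℂ)‖ ^ (n + 1))⁻¹ * ‖τ‖ ^ n :=
        mul_le_mul_of_nonneg_right h4 (pow_nonneg (norm_nonneg _) _)
    _ = ‖φ (A : ℂ)‖⁻¹ * (‖τ‖ ^ n / ‖φ (A : ℂ)‖ ^ n) := by
        rw [pow_succ]
        field_simp

/-- convergence at the archimedean places -/
theorem cv_c {σ : ℂ →+* ℂ} {S : PowerSeries ℂ} {C : ℝ} (hC : 0 < C)
    (h : ∀ n : ℕ, ‖σ (PowerSeries.coeff n S)‖ ≤ C ^ (n + 1)) {τ : ℂ} (hτ : ‖τ‖ * C < 1) : Cv σ S τ := by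
  have h2 : 0 ≤ ‖τ‖ * C := mul_nonneg (norm_nonneg _) hC.le
  refine Summable.of_nonneg_of_le (fun _ => norm_nonneg _) (fun n => ?_)
    ((summable_geometric_of_lt_one h2 hτ).mul_left C)
  rw [norm_mul, norm_pow, mul_pow]
  calc ‖σ (PowerSeries.coeff n S)‖ * ‖τ‖ ^ n ≤ C ^ (n + 1) * ‖τ‖ ^ n :=
        mul_le_mul_of_nonneg_right (h n) (pow_nonneg (norm_nonneg _) _)
    _ = C * (‖τ‖ ^ n * C ^ n) := by rw [pow_succ]; ring

private theorem GeoEv_cvt {e h w : ℕ} (c : ℂ) (l k : ℕ) {W : PowerSeries ℂ} (hW : Cv φ W τ) :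
    Cv φ (PowerSeries.C c * PowerSeries.X ^ (w - (e * k + h * l)) * W ^ l) τ :=
  ((cv_C c).mul (cv_X.pow _)).mul (hW.pow l)

theorem cv_Tw {e h w : ℕ} (P : ℂ[X][X]) {W : PowerSeries ℂ} (hW : Cv φ W τ) :
    Cv φ (Tw e h w P W) τ := by
  refine Cv.sum _ fun l _ => Cv.sum _ fun k _ => ?_
  exact GeoEv_cvt _ l k hW

theorem ev_Tw {e h w : ℕ} {P : ℂ[X][X]} (hP : Wt e h w P) {W : PowerSeries ℂ} (hW : Cv φ W τ)
    {x y : ℂ} (hx : τ ^ e * φ x = 1) (hy : φ y * τ ^ h = evE φ W τ) :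
    evE φ (Tw e h w P W) τ = φ (P.evalEval x y) * τ ^ w := by
  unfold Tw
  rw [evE_sum _ fun l _ => Cv.sum _ fun k _ => GeoEv_cvt _ l k hW]
  have h1 : P.evalEval x y = ∑ l ∈ P.support, ∑ k ∈ (P.coeff l).support,
      (P.coeff l).coeff k * x ^ k * y ^ l := by
    unfold Polynomial.evalEval
    rw [Polynomial.eval_eq_sum (p := P), Polynomial.sum_def, Polynomial.eval_finsetSum]
    refine Finset.sum_congr rfl fun l _ => ?_
    rw [Polynomial.eval_mul, Polynomial.eval_pow, Polynomial.eval_C,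
      Polynomial.eval_eq_sum (p := P.coeff l), Polynomial.sum_def, Finset.sum_mul]
  rw [h1, map_sum, Finset.sum_mul]
  refine Finset.sum_congr rfl fun l _ => ?_
  rw [evE_sum _ fun k _ => GeoEv_cvt _ l k hW, map_sum, Finset.sum_mul]
  refine Finset.sum_congr rfl fun k hk => ?_
  have hw : e * k + h * l ≤ w := hP l k (Polynomial.mem_support_iff.1 hk)
  rw [evE_mul ((cv_C _).mul (cv_X.pow _)) (hW.pow l), evE_mul (cv_C _) (cv_X.pow _), evE_C,
    evE_pow cv_X, evE_X, evE_pow hW, ← hy, map_mul, map_mul, map_pow, map_pow]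
  have h2 : τ ^ w = τ ^ (w - (e * k + h * l)) * (τ ^ e) ^ k * (τ ^ h) ^ l := by
    rw [← pow_mul, ← pow_mul, ← pow_add, ← pow_add]
    congr 1
    omega
  have h3 : (τ ^ e) ^ k * φ x ^ k = 1 := by rw [← mul_pow, hx, one_pow]
  rw [h2, mul_pow]
  linear_combination (-(φ ((P.coeff l).coeff k)) * τ ^ (w - (e * k + h * l)) * φ y ^ l * (τ ^ h) ^ l) * h3

end Pool.Agent.LGO.RU
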