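import Mathlib
import Pool.Agent.LGO.RU.GeoEv

/-!
# LGO/RU, geometric input: every point near infinity is on the branch

PROOF of `loc_W`.  `μ` = the `e` roots of unity of order dividing `e` in `ℂ`.  For `ζ ∈ μ` let `W_ζ = ζ ^ (-h) W(ζ t)` (`PowerSeries.rescale`).  Then
`Tw e h (e h) P W_ζ = 0` (substitute `ζ t`; `(ζ t) ^ (e h - e k - h l) ζ ^ (h l) = t ^ (..)`).  The constant coefficients `ζ ^ (-h) w₀` are
pairwise different (`e`, `h` coprime), so in `ℂ⟦t⟧[Y]`: `∑ .. Y ^ l = ∏_(ζ ∈ μ) (Y - W_ζ)` (both monic of degree `e`,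
the difference has degree `< e` and `e` different zeros in a domain).  Choose `τ₀ : ℂ`, `τ₀ ^ e x = 1`.  Evaluate the identity at
`φ(τ₀)` and `Y = φ(y τ₀ ^ h)` (`evE` is a homomorphism on the convergent series): `0 = ∏ (φ(y τ₀ ^ h) - ζ ^ (-h) W(φ(ζ τ₀)))`
(the left side is `φ(P(x, y)) φ(τ₀) ^ (e h) = 0`).  So some factor is `0`: `τ = φ(ζ τ₀)`.
-/

namespace Pool.Agent.LGO.RU

open Polynomial Pool.Agent.LGO

/-- the polynomial `∑ p_(l,k) t ^ (e h - e k - h l) Y ^ l` -/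
private noncomputable def GeoLocG (e h : ℕ) (P : ℂ[X][X]) : (PowerSeries ℂ)[X] :=
  ∑ l ∈ P.support, ∑ k ∈ (P.coeff l).support,
    Polynomial.C (PowerSeries.C ((P.coeff l).coeff k) *
      PowerSeries.X ^ (e * h - (e * k + h * l))) * Polynomial.X ^ l

private theorem GeoLoc_eval (e h : ℕ) (P : ℂ[X][X]) (Z : PowerSeries ℂ) :
    (GeoLocG e h P).eval Z = Tw e h (e * h) P Z := by
  unfold GeoLocG Tw
  rw [Polynomial.eval_finsetSum]
  refine Finset.sum_congr rfl fun l _ => ?_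
  rw [Polynomial.eval_finsetSum]
  refine Finset.sum_congr rfl fun k _ => ?_
  rw [Polynomial.eval_mul, Polynomial.eval_C, Polynomial.eval_pow, Polynomial.eval_X]

private theorem GeoLoc_deg {e h : ℕ} {P : ℂ[X][X]} (hd : P.natDegree = e) :
    (GeoLocG e h P).natDegree ≤ e := by
  unfold GeoLocG
  refine Polynomial.natDegree_sum_le_of_forall_le _ _ fun l hl => ?_
  refine Polynomial.natDegree_sum_le_of_forall_le _ _ fun k _ => ?_
  refine (Polynomial.natDegree_C_mul_X_pow_le _ _).trans ?_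
  rw [← hd]
  exact Polynomial.le_natDegree_of_mem_supp l hl

private theorem GeoLoc_coeff {e h : ℕ} {P : ℂ[X][X]} (hm : P.Monic) (hd : P.natDegree = e) :
    (GeoLocG e h P).coeff e = 1 := by
  have h1 : P.coeff e = 1 := by
    rw [← hd]
    exact hm
  unfold GeoLocG
  rw [Polynomial.finsetSum_coeff, Finset.sum_eq_single e]
  · rw [Polynomial.finsetSum_coeff, Finset.sum_eq_single 0]
    · rw [Polynomial.coeff_C_mul_X_pow, if_pos rfl, h1, Polynomial.coeff_one_zero, map_one, one_mul,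
        mul_zero, zero_add, mul_comm h e, Nat.sub_self, pow_zero]
    · intro k _ hk
      rw [Polynomial.coeff_C_mul_X_pow, if_pos rfl, h1, Polynomial.coeff_one, if_neg hk,
        map_zero, zero_mul]
    · intro hk
      rw [Polynomial.notMem_support_iff] at hk
      rw [hk, map_zero, zero_mul, Polynomial.C_0, zero_mul, Polynomial.coeff_zero]
  · intro l _ hl
    rw [Polynomial.finsetSum_coeff]
    refine Finset.sum_eq_zero fun k _ => ?_
    rw [Polynomial.coeff_C_mul_X_pow, if_neg (Ne.symm hl)]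
  · intro hl
    rw [Polynomial.notMem_support_iff, h1] at hl
    exact absurd hl one_ne_zero

private theorem GeoLoc_rescale_C (ζ c : ℂ) :
    PowerSeries.rescale ζ (PowerSeries.C c) = PowerSeries.C c := by
  ext n
  rw [PowerSeries.coeff_rescale, PowerSeries.coeff_C]
  split_ifs with hn
  · rw [hn, pow_zero, one_mul]
  · rw [mul_zero]

/-- the conjugate factor -/
private noncomputable def GeoLocW (h : ℕ) (W : PowerSeries ℂ) (ζ : ℂ) : PowerSeries ℂ :=
  PowerSeries.C ((ζ ^ h)⁻¹) * PowerSeries.rescale ζ W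

private theorem GeoLoc_root {e h : ℕ} (he : 0 < e) {P : ℂ[X][X]} (hw : Wt e h (e * h) P)
    {W : PowerSeries ℂ} (hW : Tw e h (e * h) P W = 0) {ζ : ℂ} (hζ : ζ ^ e = 1) :
    Tw e h (e * h) P (GeoLocW h W ζ) = 0 := by
  have hζ0 : ζ ≠ 0 := by
    rintro rfl
    rw [zero_pow he.ne'] at hζ
    exact zero_ne_one hζ
  have h1 : PowerSeries.rescale ζ (Tw e h (e * h) P W) = Tw e h (e * h) P (GeoLocW h W ζ) := by
    unfold Tw
    rw [map_sum]
    refine Finset.sum_congr rfl fun l _ => ?_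
    rw [map_sum]
    refine Finset.sum_congr rfl fun k hk => ?_
    have hwk : e * k + h * l ≤ e * h := hw l k (Polynomial.mem_support_iff.1 hk)
    rw [map_mul, map_mul, map_pow, map_pow, GeoLoc_rescale_C, PowerSeries.rescale_X, mul_pow,
      ← map_pow, GeoLocW, mul_pow, ← map_pow PowerSeries.C]
    have h2 : ζ ^ (e * h - (e * k + h * l)) = ((ζ ^ h)⁻¹) ^ l := by
      rw [inv_pow, ← pow_mul]
      refine eq_inv_of_mul_eq_one_left ?_
      have h3 : ζ ^ (e * h - (e * k + h * l)) * ζ ^ (h * l) * (ζ ^ e) ^ k = 1 := by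
        rw [← pow_mul, ← pow_add, ← pow_add]
        have h4 : e * h - (e * k + h * l) + h * l + e * k = e * h := by omega
        rw [h4, pow_mul, hζ, one_pow]
      rwa [hζ, one_pow, mul_one] at h3
    rw [h2]
    ring
  rw [← h1, hW, map_zero]

private theorem GeoLoc_inj {e h : ℕ} (he : 0 < e) (hc : Nat.Coprime e h) {W : PowerSeries ℂ}
    (h0 : PowerSeries.coeff 0 W ≠ 0) {ζ ξ : ℂ} (hζ : ζ ^ e = 1) (hξ : ξ ^ e = 1)
    (hf : GeoLocW h W ζ = GeoLocW h W ξ) : ζ = ξ := by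
  have hζ0 : ζ ≠ 0 := by
    rintro rfl
    rw [zero_pow he.ne'] at hζ
    exact zero_ne_one hζ
  have hξ0 : ξ ≠ 0 := by
    rintro rfl
    rw [zero_pow he.ne'] at hξ
    exact zero_ne_one hξ
  have h1 := congrArg (PowerSeries.coeff 0) hf
  rw [GeoLocW, GeoLocW, PowerSeries.coeff_C_mul, PowerSeries.coeff_C_mul,
    PowerSeries.coeff_rescale, PowerSeries.coeff_rescale, pow_zero, pow_zero, one_mul] at h1
  have h2 : ζ ^ h = ξ ^ h := inv_injective (mul_right_cancel₀ h0 h1)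
  have h3 : (ζ / ξ) ^ e = 1 ∧ (ζ / ξ) ^ h = 1 := by
    refine ⟨?_, ?_⟩
    · rw [div_pow, hζ, hξ, div_one]
    · rw [div_pow, h2, div_self (pow_ne_zero _ hξ0)]
  have h4 : ζ / ξ = 1 := (pow_eq_one_iff_of_coprime hc).1 h3
  rwa [div_eq_one_iff_eq hξ0] at h4

private theorem GeoLoc_cvW {E : Type} [NormedField E] [CompleteSpace E] {φ : ℂ →+* E}
    {W : PowerSeries ℂ} {ζ τ₀ : ℂ} (hcv : Cv φ W (φ (ζ * τ₀))) :
    Cv φ (PowerSeries.rescale ζ W) (φ τ₀) ∧
      evE φ (PowerSeries.rescale ζ W) (φ τ₀) = evE φ W (φ (ζ * τ₀)) := by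
  have h1 : ∀ n, φ (PowerSeries.coeff n (PowerSeries.rescale ζ W)) * φ τ₀ ^ n =
      φ (PowerSeries.coeff n W) * φ (ζ * τ₀) ^ n := by
    intro n
    rw [PowerSeries.coeff_rescale, map_mul, map_mul, map_pow, mul_pow]
    ring
  refine ⟨?_, ?_⟩
  · unfold Cv
    simp only [h1]
    exact hcv
  · unfold evE
    simp only [h1]

private theorem GeoLoc_prod {E : Type} [NormedField E] [CompleteSpace E] {φ : ℂ →+* E} {τ : E}
    {ι : Type} (s : Finset ι) {F : ι → PowerSeries ℂ} (hF : ∀ i ∈ s, Cv φ (F i) τ) :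
    Cv φ (∏ i ∈ s, F i) τ ∧ evE φ (∏ i ∈ s, F i) τ = ∏ i ∈ s, evE φ (F i) τ := by
  classical
  induction s using Finset.induction_on with
  | empty =>
    rw [Finset.prod_empty, Finset.prod_empty, ← map_one PowerSeries.C]
    exact ⟨cv_C 1, by rw [evE_C, map_one]⟩
  | insert a s ha ih =>
    have h' := ih fun i hi => hF i (Finset.mem_insert_of_mem hi)
    have ha' := hF a (Finset.mem_insert_self a s)
    rw [Finset.prod_insert ha, Finset.prod_insert ha]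
    exact ⟨ha'.mul h'.1, by rw [evE_mul ha' h'.1, h'.2]⟩

/-- a monic polynomial with as many different zeros as its degree -/
private theorem GeoLoc_nodal {R : Type} [CommRing R] [IsDomain R] {ι : Type} {G : R[X]}
    (hG : G.Monic) {s : Finset ι} {v : ι → R} (hd : G.natDegree = s.card)
    (hv : Set.InjOn v s) (hr : ∀ i ∈ s, G.eval (v i) = 0) : G = Lagrange.nodal s v := by
  refine eq_of_degree_sub_lt_of_eval_index_eq (v := v) s hv ?_ ?_
  · have h0 : G.degree = s.card := by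
      rw [degree_eq_natDegree hG.ne_zero, hd]
    have h1 : G.degree = (Lagrange.nodal s v).degree := by
      rw [Lagrange.degree_nodal, h0]
    have h2 := degree_sub_lt_left h1 hG.ne_zero (by
      rw [hG.leadingCoeff, Lagrange.nodal_monic.leadingCoeff])
    exact lt_of_lt_of_le h2 h0.le
  · intro i hi
    rw [hr i hi, Lagrange.eval_nodal_at_node hi]

private theorem GeoLoc_fac {e h : ℕ} (he : 0 < e) (hc : Nat.Coprime e h) {P : ℂ[X][X]}
    (hm : P.Monic) (hd : P.natDegree = e) (hw : Wt e h (e * h) P) {W : PowerSeries ℂ}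
    (h0 : PowerSeries.coeff 0 W ≠ 0) (hW : Tw e h (e * h) P W = 0) {s : Finset ℂ}
    (hs : s.card = e) (hμ : ∀ ζ ∈ s, ζ ^ e = 1) (Z : PowerSeries ℂ) :
    Tw e h (e * h) P Z = ∏ ζ ∈ s, (Z - GeoLocW h W ζ) := by
  have hG : (GeoLocG e h P).Monic :=
    monic_of_natDegree_le_of_coeff_eq_one e (GeoLoc_deg hd) (GeoLoc_coeff hm hd)
  have hGd : (GeoLocG e h P).natDegree = s.card := by
    rw [hs]
    refine le_antisymm (GeoLoc_deg hd) (le_natDegree_of_ne_zero ?_)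
    rw [GeoLoc_coeff hm hd]
    exact one_ne_zero
  have hfac : GeoLocG e h P = Lagrange.nodal s (GeoLocW h W) := by
    refine GeoLoc_nodal hG hGd ?_ ?_
    · intro ζ hζ ξ hξ hf
      exact GeoLoc_inj he hc h0 (hμ ζ hζ) (hμ ξ hξ) hf
    · intro ζ hζ
      rw [GeoLoc_eval, GeoLoc_root he hw hW (hμ ζ hζ)]
  rw [← GeoLoc_eval, hfac, Lagrange.eval_nodal]

theorem loc_W {E : Type} [NormedField E] [CompleteSpace E] (φ : ℂ →+* E) {e h : ℕ} (he : 0 < e)
    (hh : 0 < h) (hc : Nat.Coprime e h) {P : ℂ[X][X]} (hm : P.Monic) (hd : P.natDegree = e)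
    (hw : Wt e h (e * h) P) {W : PowerSeries ℂ} (h0 : PowerSeries.coeff 0 W ≠ 0)
    (hW : Tw e h (e * h) P W = 0) {x y : ℂ} (hx : x ≠ 0) (hxy : P.evalEval x y = 0)
    (hcv : ∀ τ : ℂ, τ ^ e * x = 1 → Cv φ W (φ τ)) :
    ∃ τ : ℂ, τ ^ e * x = 1 ∧ φ (y * τ ^ h) = evE φ W (φ τ) := by
  obtain ⟨τ₀, hτ₀⟩ := IsAlgClosed.exists_pow_nat_eq x⁻¹ he
  have hτx : τ₀ ^ e * x = 1 := by rw [hτ₀, inv_mul_cancel₀ hx]
  have hprim := Complex.isPrimitiveRoot_exp e he.ne'
  have hcard : (nthRootsFinset e (1 : ℂ)).card = e := hprim.card_nthRootsFinset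
  have hμ : ∀ ζ ∈ nthRootsFinset e (1 : ℂ), ζ ^ e = 1 := fun ζ hζ =>
    (mem_nthRootsFinset he 1).1 hζ
  -- evaluation at the constant series
  obtain ⟨Z, hZ⟩ : ∃ Z : PowerSeries ℂ, Z = PowerSeries.C (y * τ₀ ^ h) := ⟨_, rfl⟩
  have hprod := GeoLoc_fac he hc hm hd hw h0 hW hcard hμ Z
  have hcvZ : Cv φ Z (φ τ₀) := by
    rw [hZ]
    exact cv_C _
  have hevZ : evE φ Z (φ τ₀) = φ (y * τ₀ ^ h) := by rw [hZ, evE_C]
  have hev : evE φ (Tw e h (e * h) P Z) (φ τ₀) = 0 := by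
    rw [ev_Tw hw hcvZ (x := x) (y := y), hxy, map_zero, zero_mul]
    · rw [← map_pow, ← map_mul, hτx, map_one]
    · rw [hevZ, map_mul, map_pow]
  have hτζ : ∀ ζ ∈ nthRootsFinset e (1 : ℂ), (ζ * τ₀) ^ e * x = 1 := by
    intro ζ hζ
    rw [mul_pow, hμ ζ hζ, one_mul, hτx]
  have hneg : ∀ ζ, Z - GeoLocW h W ζ =
      Z + PowerSeries.C (-(ζ ^ h)⁻¹) * PowerSeries.rescale ζ W := by
    intro ζ
    rw [GeoLocW, map_neg, neg_mul, sub_eq_add_neg]
  have hcvf : ∀ ζ ∈ nthRootsFinset e (1 : ℂ), Cv φ (Z - GeoLocW h W ζ) (φ τ₀) := by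
    intro ζ hζ
    have h1 := (GeoLoc_cvW (hcv _ (hτζ ζ hζ))).1
    rw [hneg]
    exact hcvZ.add ((cv_C _).mul h1)
  rw [hprod, (GeoLoc_prod _ hcvf).2, Finset.prod_eq_zero_iff] at hev
  obtain ⟨ζ, hζ, hz⟩ := hev
  have h1 := GeoLoc_cvW (hcv _ (hτζ ζ hζ))
  refine ⟨ζ * τ₀, hτζ ζ hζ, ?_⟩
  rw [hneg, evE_add hcvZ ((cv_C _).mul h1.1), evE_mul (cv_C _) h1.1, hevZ, evE_C, h1.2] at hz
  have hζ0 : ζ ≠ 0 := by
    rintro rfl
    have := hμ 0 hζ
    rw [zero_pow he.ne'] at this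
    exact zero_ne_one this
  have hζh : φ (ζ ^ h) ≠ 0 := (map_ne_zero φ).2 (pow_ne_zero _ hζ0)
  have h2 : φ (-(ζ ^ h)⁻¹) * φ (ζ ^ h) = -1 := by
    rw [← map_mul, neg_mul, inv_mul_cancel₀ (pow_ne_zero _ hζ0), map_neg, map_one]
  have h3 : φ (y * (ζ * τ₀) ^ h) = φ (y * τ₀ ^ h) * φ (ζ ^ h) := by
    rw [← map_mul, mul_pow]
    ring_nf
  rw [h3]
  linear_combination φ (ζ ^ h) * hz - evE φ W (φ (ζ * τ₀)) * h2

end Pool.Agent.LGO.RU
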