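import Mathlib
import Pool.Agent.LGO.RU.GeoSer

/-!
# LGO/RU, geometric input: the ring of the series with `Gd`

`alg_bd`: an algebraic number `c` has an integral multiple which is an algebraic integer, and `|σ(c)|` is bounded for all
`σ : ℂ →+* ℂ` (`σ(c)` is a root of the minimal polynomial over `ℚ`).
`Gd.mul`: `A = A₁ A₂`, `C = 2 (1 + C₁) (1 + C₂)` or similar: `∑_(i + j = n) C₁^(i+1) C₂^(j+1) ≤ (n + 1) (..)^(n + 2)`.
`Gd.inv`: `T S = 1`, `T_n = - s₀⁻¹ ∑_(i = 1..n) s_i T_(n - i)`; `T_n ∈ K`; with `b` an integer such that `b s₀⁻¹` is integral (and `A` for `S`):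
`(A² b)^(n + 1) T_n` or a similar power is integral (induction); `|σ(T_n)| ≤ B D^n` with `B ≥ |σ(s₀⁻¹)|`, `D = C + B C²` (induction).
-/

namespace Pool.Agent.LGO.RU

open Polynomial Pool.Agent.LGO

variable {K : IntermediateField ℚ ℂ} [FiniteDimensional ℚ K] {S T : PowerSeries ℂ}

theorem alg_bd {c : ℂ} (hc : c ∈ K) : (∃ A : ℕ, 0 < A ∧ IsIntegral ℤ ((A : ℂ) * c)) ∧
    ∃ B : ℝ, 0 < B ∧ ∀ σ : ℂ →+* ℂ, ‖σ c‖ ≤ B := by
  have hQ : IsAlgebraic ℚ c :=
    (Algebra.IsAlgebraic.isAlgebraic (R := ℚ) (⟨c, hc⟩ : K)).algebraMap (A := ℂ)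
  constructor
  · have hZ : IsAlgebraic ℤ c := (IsFractionRing.isAlgebraic_iff ℤ ℚ ℂ).mpr hQ
    obtain ⟨y, hy, hi⟩ := hZ.exists_integral_multiple
    refine ⟨y.natAbs, Int.natAbs_pos.mpr hy, ?_⟩
    rw [zsmul_eq_mul] at hi
    rcases Int.natAbs_eq y with h | h
    · rw [h] at hi
      simpa using hi
    · rw [h] at hi
      have h2 := hi.neg
      simpa using h2
  · have hne : minpoly ℚ c ≠ 0 := minpoly.ne_zero hQ.isIntegral
    have hfin : ((minpoly ℚ c).rootSet ℂ).Finite := Polynomial.rootSet_finite _ _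
    obtain ⟨B, hB⟩ := (hfin.image fun z => ‖z‖).bddAbove
    refine ⟨max B 1, lt_max_of_lt_right one_pos, fun σ => le_max_of_le_left (hB ?_)⟩
    refine ⟨σ c, ?_, rfl⟩
    rw [Polynomial.mem_rootSet]
    refine ⟨hne, ?_⟩
    have h1 := Polynomial.map_aeval_eq_aeval_map (φ := RingHom.id ℚ) (ψ := σ)
      (Subsingleton.elim _ _) (minpoly ℚ c) c
    rw [minpoly.aeval, map_zero, Polynomial.map_id] at h1
    exact h1.symm

theorem gd_C {c : ℂ} (hc : c ∈ K) : Gd K (PowerSeries.C c) := by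
  obtain ⟨⟨A, hA, hAi⟩, B, hB, hBσ⟩ := alg_bd hc
  refine ⟨fun n => ?_, ⟨A, hA, fun n => ?_⟩, ⟨B, hB, fun σ n => ?_⟩⟩
  · rw [PowerSeries.coeff_C]
    split_ifs
    · exact hc
    · exact zero_mem _
  · rw [PowerSeries.coeff_C]
    split_ifs with h
    · rw [h, zero_add, pow_one]
      exact hAi
    · rw [mul_zero]
      exact isIntegral_zero
  · rw [PowerSeries.coeff_C]
    split_ifs with h
    · rw [h, zero_add, pow_one]
      exact hBσ σ
    · rw [map_zero, norm_zero]
      positivity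

theorem gd_X : Gd K PowerSeries.X := by
  refine ⟨fun n => ?_, ⟨1, one_pos, fun n => ?_⟩, ⟨1, one_pos, fun σ n => ?_⟩⟩
  · rw [PowerSeries.coeff_X]
    split_ifs
    · exact one_mem _
    · exact zero_mem _
  · rw [PowerSeries.coeff_X, Nat.cast_one, one_pow, one_mul]
    split_ifs
    · exact isIntegral_one
    · exact isIntegral_zero
  · rw [PowerSeries.coeff_X, one_pow]
    split_ifs
    · rw [map_one, norm_one]
    · rw [map_zero, norm_zero]
      exact zero_le_one

private theorem GeoCls_nat (A : ℕ) : IsIntegral ℤ (A : ℂ) := by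
  have := isIntegral_algebraMap (R := ℤ) (A := ℂ) (x := (A : ℤ))
  simpa using this

theorem Gd.add (hS : Gd K S) (hT : Gd K T) : Gd K (S + T) := by
  obtain ⟨fS, ⟨A, hA, iS⟩, C, hC, gS⟩ := hS
  obtain ⟨fT, ⟨A', hA', iT⟩, C', hC', gT⟩ := hT
  refine ⟨fun n => ?_, ⟨A * A', mul_pos hA hA', fun n => ?_⟩, ⟨C + C', add_pos hC hC', fun σ n => ?_⟩⟩
  · rw [map_add]
    exact add_mem (fS n) (fT n)
  · have h1 : ((A * A' : ℕ) : ℂ) ^ (n + 1) * PowerSeries.coeff n (S + T) =
        (A' : ℂ) ^ (n + 1) * ((A : ℂ) ^ (n + 1) * PowerSeries.coeff n S) +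
          (A : ℂ) ^ (n + 1) * ((A' : ℂ) ^ (n + 1) * PowerSeries.coeff n T) := by
      rw [map_add]
      push_cast
      ring
    rw [h1]
    exact (((GeoCls_nat A').pow _).mul (iS n)).add (((GeoCls_nat A).pow _).mul (iT n))
  · rw [map_add, map_add]
    refine (norm_add_le _ _).trans ((add_le_add (gS σ n) (gT σ n)).trans ?_)
    exact pow_add_pow_le hC.le hC'.le (Nat.succ_ne_zero n)

theorem Gd.mul (hS : Gd K S) (hT : Gd K T) : Gd K (S * T) := by
  obtain ⟨fS, ⟨A, hA, iS⟩, C, hC, gS⟩ := hS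
  obtain ⟨fT, ⟨A', hA', iT⟩, C', hC', gT⟩ := hT
  set M : ℝ := 1 + C + C' with hM
  have hM1 : 1 ≤ M := by linarith
  have hM0 : 0 < M := by linarith
  refine ⟨fun n => ?_, ⟨A * A', mul_pos hA hA', fun n => ?_⟩, ⟨2 * M ^ 2, by positivity, fun σ n => ?_⟩⟩
  · rw [PowerSeries.coeff_mul]
    exact sum_mem fun p _ => mul_mem (fS _) (fT _)
  · rw [PowerSeries.coeff_mul, Finset.mul_sum]
    refine IsIntegral.sum _ fun p hp => ?_
    rw [Finset.HasAntidiagonal.mem_antidiagonal] at hp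
    have h1 : ((A * A' : ℕ) : ℂ) ^ (n + 1) * (PowerSeries.coeff p.1 S * PowerSeries.coeff p.2 T) =
        ((A : ℂ) ^ p.2 * (A' : ℂ) ^ p.1) * (((A : ℂ) ^ (p.1 + 1) * PowerSeries.coeff p.1 S) *
          ((A' : ℂ) ^ (p.2 + 1) * PowerSeries.coeff p.2 T)) := by
      rw [← hp]
      push_cast
      ring
    rw [h1]
    exact (((GeoCls_nat A).pow _).mul ((GeoCls_nat A').pow _)).mul ((iS _).mul (iT _))
  · rw [PowerSeries.coeff_mul, map_sum]
    refine (norm_sum_le _ _).trans ?_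
    have h1 : ∀ p ∈ Finset.HasAntidiagonal.antidiagonal n,
        ‖σ (PowerSeries.coeff p.1 S * PowerSeries.coeff p.2 T)‖ ≤ M ^ (n + 2) := by
      intro p hp
      rw [Finset.HasAntidiagonal.mem_antidiagonal] at hp
      rw [map_mul, norm_mul]
      calc ‖σ (PowerSeries.coeff p.1 S)‖ * ‖σ (PowerSeries.coeff p.2 T)‖
          ≤ M ^ (p.1 + 1) * M ^ (p.2 + 1) := by
            refine mul_le_mul ((gS σ _).trans ?_) ((gT σ _).trans ?_) (norm_nonneg _) (by positivity)
            · exact pow_le_pow_left₀ hC.le (by linarith) _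
            · exact pow_le_pow_left₀ hC'.le (by linarith) _
        _ = M ^ (n + 2) := by rw [← pow_add]; congr 1; omega
    refine (Finset.sum_le_card_nsmul _ _ _ h1).trans ?_
    rw [Finset.Nat.card_antidiagonal, nsmul_eq_mul, mul_pow, ← pow_mul]
    have h2 : ((n + 1 : ℕ) : ℝ) ≤ 2 ^ (n + 1) := by
      exact_mod_cast (Nat.lt_two_pow_self (n := n + 1)).le
    exact mul_le_mul h2 (pow_le_pow_right₀ hM1 (by omega)) (by positivity) (by positivity)

private theorem GeoCls_one : Gd K (1 : PowerSeries ℂ) := by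
  have h := gd_C (K := K) (c := 1) (one_mem K)
  rwa [map_one] at h

private theorem GeoCls_zero : Gd K (0 : PowerSeries ℂ) := by
  have h := gd_C (K := K) (c := 0) (zero_mem K)
  rwa [map_zero] at h

theorem Gd.pow (hS : Gd K S) (n : ℕ) : Gd K (S ^ n) := by
  induction n with
  | zero =>
    rw [pow_zero]
    exact GeoCls_one
  | succ n ih =>
    rw [pow_succ]
    exact ih.mul hS

theorem Gd.sum {ι : Type} (s : Finset ι) {F : ι → PowerSeries ℂ} (h : ∀ i ∈ s, Gd K (F i)) :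
    Gd K (∑ i ∈ s, F i) := by
  classical
  induction s using Finset.induction_on with
  | empty =>
    rw [Finset.sum_empty]
    exact GeoCls_zero
  | insert a s ha ih =>
    rw [Finset.sum_insert ha]
    exact (h a (Finset.mem_insert_self a s)).add (ih fun i hi => h i (Finset.mem_insert_of_mem hi))

/-- the recursion for the inverse -/
private theorem GeoCls_rec (h0 : PowerSeries.coeff 0 S ≠ 0) :
    PowerSeries.coeff 0 S⁻¹ = (PowerSeries.coeff 0 S)⁻¹ ∧
    ∀ n, PowerSeries.coeff (n + 1) S⁻¹ = -(PowerSeries.coeff 0 S)⁻¹ *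
      ∑ p ∈ Finset.HasAntidiagonal.antidiagonal n, PowerSeries.coeff (p.1 + 1) S * PowerSeries.coeff p.2 S⁻¹ := by
  have hc : PowerSeries.constantCoeff S ≠ 0 := by
    rwa [← PowerSeries.coeff_zero_eq_constantCoeff_apply]
  have h1 : S * S⁻¹ = 1 := PowerSeries.mul_inv_cancel S hc
  have h2 : PowerSeries.coeff 0 S * PowerSeries.coeff 0 S⁻¹ = 1 := by
    have h3 := congrArg (PowerSeries.coeff 0) h1
    rw [PowerSeries.coeff_mul] at h3
    simpa using h3
  refine ⟨eq_inv_of_mul_eq_one_right h2, fun n => ?_⟩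
  have h3 := congrArg (PowerSeries.coeff (n + 1)) h1
  rw [PowerSeries.coeff_mul, Finset.Nat.sum_antidiagonal_succ, PowerSeries.coeff_one,
    if_neg (Nat.succ_ne_zero n)] at h3
  have h4 : PowerSeries.coeff 0 S * PowerSeries.coeff (n + 1) S⁻¹ =
      -∑ p ∈ Finset.HasAntidiagonal.antidiagonal n, PowerSeries.coeff (p.1 + 1) S * PowerSeries.coeff p.2 S⁻¹ := by
    linear_combination h3
  rw [neg_mul, ← mul_neg, ← h4, ← mul_assoc, inv_mul_cancel₀ h0, one_mul]

private theorem GeoCls_geo (B C : ℝ) (n : ℕ) :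
    ∑ p ∈ Finset.HasAntidiagonal.antidiagonal n, B * C ^ (p.1 + 2) * (C + B * C ^ 2) ^ p.2 =
      (C + B * C ^ 2) ^ (n + 1) - C ^ (n + 1) := by
  induction n with
  | zero =>
    simp
  | succ n ih =>
    rw [Finset.Nat.sum_antidiagonal_succ']
    have h1 : ∑ p ∈ Finset.HasAntidiagonal.antidiagonal n, B * C ^ (p.1 + 2) * (C + B * C ^ 2) ^ (p.2 + 1) =
        (C + B * C ^ 2) * ∑ p ∈ Finset.HasAntidiagonal.antidiagonal n, B * C ^ (p.1 + 2) * (C + B * C ^ 2) ^ p.2 := by
      rw [Finset.mul_sum]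
      refine Finset.sum_congr rfl fun p _ => ?_
      ring
    rw [h1, ih]
    ring

theorem Gd.inv (hS : Gd K S) (h0 : PowerSeries.coeff 0 S ≠ 0) : Gd K S⁻¹ := by
  obtain ⟨fS, ⟨A, hA, iS⟩, C, hC, gS⟩ := hS
  obtain ⟨hr0, hr⟩ := GeoCls_rec h0
  have hinv : (PowerSeries.coeff 0 S)⁻¹ ∈ K := inv_mem (fS 0)
  obtain ⟨⟨b, hb, ib⟩, B, hB, gB⟩ := alg_bd hinv
  refine ⟨?_, ⟨A ^ 2 * b, by positivity, ?_⟩, ⟨B + (C + B * C ^ 2), by positivity, ?_⟩⟩
  · intro n
    induction n using Nat.strong_induction_on with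
    | _ n ih =>
      rcases n with _ | n
      · rw [hr0]
        exact hinv
      · rw [hr]
        refine mul_mem (neg_mem hinv) (sum_mem fun p hp => mul_mem (fS _) (ih _ ?_))
        rw [Finset.HasAntidiagonal.mem_antidiagonal] at hp
        omega
  · intro n
    induction n using Nat.strong_induction_on with
    | _ n ih =>
      rcases n with _ | n
      · rw [hr0]
        have h1 : ((A ^ 2 * b : ℕ) : ℂ) ^ (0 + 1) * (PowerSeries.coeff 0 S)⁻¹ =
            (A : ℂ) ^ 2 * ((b : ℂ) * (PowerSeries.coeff 0 S)⁻¹) := by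
          push_cast
          ring
        rw [h1]
        exact ((GeoCls_nat A).pow _).mul ib
      · rw [hr, Finset.mul_sum, Finset.mul_sum]
        refine IsIntegral.sum _ fun p hp => ?_
        rw [Finset.HasAntidiagonal.mem_antidiagonal] at hp
        have h1 : ((A ^ 2 * b : ℕ) : ℂ) ^ (n + 1 + 1) * (-(PowerSeries.coeff 0 S)⁻¹ *
            (PowerSeries.coeff (p.1 + 1) S * PowerSeries.coeff p.2 S⁻¹)) =
            -((((A : ℂ) ^ p.1 * (b : ℂ) ^ p.1) * ((b : ℂ) * (PowerSeries.coeff 0 S)⁻¹)) *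
              (((A : ℂ) ^ (p.1 + 1 + 1) * PowerSeries.coeff (p.1 + 1) S) *
              (((A ^ 2 * b : ℕ) : ℂ) ^ (p.2 + 1) * PowerSeries.coeff p.2 S⁻¹))) := by
          rw [← hp]
          push_cast
          ring
        rw [h1]
        exact ((((((GeoCls_nat A).pow _).mul ((GeoCls_nat b).pow _)).mul ib).mul
          ((iS _).mul (ih _ (by omega))))).neg
  · have hD : 0 < C + B * C ^ 2 := by positivity
    have key : ∀ (σ : ℂ →+* ℂ) (n : ℕ), ‖σ (PowerSeries.coeff n S⁻¹)‖ ≤ B * (C + B * C ^ 2) ^ n := by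
      intro σ n
      induction n using Nat.strong_induction_on with
      | _ n ih =>
        rcases n with _ | n
        · rw [hr0, pow_zero, mul_one]
          exact gB σ
        · rw [hr, map_mul, map_neg, norm_mul, norm_neg, map_sum]
          refine mul_le_mul (gB σ) ?_ (norm_nonneg _) hB.le
          refine (norm_sum_le _ _).trans ?_
          have h1 : ∑ p ∈ Finset.HasAntidiagonal.antidiagonal n,
              ‖σ (PowerSeries.coeff (p.1 + 1) S * PowerSeries.coeff p.2 S⁻¹)‖ ≤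
              ∑ p ∈ Finset.HasAntidiagonal.antidiagonal n, B * C ^ (p.1 + 2) * (C + B * C ^ 2) ^ p.2 := by
            refine Finset.sum_le_sum fun p hp => ?_
            rw [Finset.HasAntidiagonal.mem_antidiagonal] at hp
            rw [map_mul, norm_mul]
            calc ‖σ (PowerSeries.coeff (p.1 + 1) S)‖ * ‖σ (PowerSeries.coeff p.2 S⁻¹)‖
                ≤ C ^ (p.1 + 1 + 1) * (B * (C + B * C ^ 2) ^ p.2) :=
                  mul_le_mul (gS σ _) (ih _ (by omega)) (norm_nonneg _) (by positivity)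
              _ = B * C ^ (p.1 + 2) * (C + B * C ^ 2) ^ p.2 := by ring
          rw [GeoCls_geo] at h1
          have h2 : 0 ≤ C ^ (n + 1) := by positivity
          linarith
    intro σ n
    refine (key σ n).trans ?_
    rw [pow_succ' (B + (C + B * C ^ 2)) n]
    refine mul_le_mul (by linarith) (pow_le_pow_left₀ hD.le (by linarith) _) (by positivity)
      (by positivity)

theorem Gd.tw {P : ℂ[X][X]} (hP : FldP K P) (hS : Gd K S) (e h w : ℕ) : Gd K (Tw e h w P S) := by
  unfold Tw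
  refine Gd.sum _ fun l _ => Gd.sum _ fun k _ => ?_
  exact ((gd_C (hP l k)).mul (gd_X.pow _)).mul (hS.pow l)

end Pool.Agent.LGO.RU
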