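import Mathlib
import Pool.Agent.LGO.RU.GeoEv
import Pool.Agent.LGO.RU.GeoCls

/-!
# LGO/RU, geometric input: the expansion of `1 / x_a`

`wt_wtG`: clear.  `coeff_Tw0`: in `Tw e h w N W`, `w = wtG e h N`, exactly one pair `(l, k)` in the support has `e k + h l = w` (`l < e`, coprime;
it is `k = deg (N.coeff l)` for the maximal `l`), its contribution to the constant coefficient is `n_(l,k) W(0) ^ l ≠ 0`.
`om = Tw e h (e deg M) (C M) W * (Tw e h w N W)⁻¹`, `m = w - e deg M`.
`exists_om`: `Gd` by `Gd.tw`, `Gd.inv`, `Gd.mul`; evaluation by `ev_Tw`, `evE_mul`; `N(x, y) ≠ 0` because `Nt * Nt⁻¹ = 1`.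
-/

namespace Pool.Agent.LGO.RU

open Polynomial Pool.Agent.LGO

theorem wt_wtG (e h : ℕ) (N : ℂ[X][X]) : Wt e h (wtG e h N) N := by
  intro l k hk
  have hl : l ∈ N.support := by
    rw [Polynomial.mem_support_iff]
    intro h0
    rw [h0, Polynomial.coeff_zero] at hk
    exact hk rfl
  have h1 : k ≤ (N.coeff l).natDegree := Polynomial.le_natDegree_of_ne_zero hk
  have h2 : e * (N.coeff l).natDegree + h * l ≤ wtG e h N :=
    Finset.le_sup (f := fun i => e * (N.coeff i).natDegree + h * i) hl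
  have h3 : e * k ≤ e * (N.coeff l).natDegree := Nat.mul_le_mul_left _ h1
  omega

private theorem GeoOm_coeff (a : ℂ) (n l : ℕ) (W : PowerSeries ℂ) :
    PowerSeries.coeff 0 (PowerSeries.C a * PowerSeries.X ^ n * W ^ l) =
      a * 0 ^ n * (PowerSeries.coeff 0 W) ^ l := by
  simp only [PowerSeries.coeff_zero_eq_constantCoeff_apply, map_mul, map_pow,
    PowerSeries.constantCoeff_C, PowerSeries.constantCoeff_X]

private theorem GeoOm_uniq {e h l l' k k' : ℕ} (hc : Nat.Coprime e h) (hl : l < e) (hl' : l' < e)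
    (heq : e * k + h * l = e * k' + h * l') : l = l' ∧ k = k' := by
  have h0 : (e : ℤ) ∣ (h : ℤ) * ((l : ℤ) - l') := by
    refine ⟨(k' : ℤ) - k, ?_⟩
    have h1 : (e : ℤ) * k + h * l = e * k' + h * l' := by exact_mod_cast heq
    linear_combination h1
  have hcop : IsCoprime (e : ℤ) (h : ℤ) := Nat.isCoprime_iff_coprime.2 hc
  have h2 : (e : ℤ) ∣ (l : ℤ) - l' := hcop.dvd_of_dvd_mul_left h0
  have h3 : (l : ℤ) - l' = 0 := by
    apply Int.eq_zero_of_abs_lt_dvd h2
    rw [abs_lt]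
    constructor <;> omega
  have h4 : l = l' := by omega
  refine ⟨h4, ?_⟩
  subst h4
  have h5 : e * k = e * k' := by omega
  exact Nat.eq_of_mul_eq_mul_left (by omega) h5

theorem coeff_Tw0 {e h : ℕ} (hc : Nat.Coprime e h) {N : ℂ[X][X]} (hN : N ≠ 0)
    (hd : N.natDegree < e) {W : PowerSeries ℂ} (hW : PowerSeries.coeff 0 W ≠ 0) :
    PowerSeries.coeff 0 (Tw e h (wtG e h N) N W) ≠ 0 := by
  have hne : N.support.Nonempty := Polynomial.support_nonempty.2 hN
  obtain ⟨l₀, hl₀, hsup⟩ := Finset.exists_mem_eq_sup N.support hne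
    (fun i => e * (N.coeff i).natDegree + h * i)
  have hw : wtG e h N = e * (N.coeff l₀).natDegree + h * l₀ := hsup
  have hlt : ∀ l ∈ N.support, l < e := fun l hl =>
    lt_of_le_of_lt (Polynomial.le_natDegree_of_mem_supp l hl) hd
  have hc0 : N.coeff l₀ ≠ 0 := Polynomial.mem_support_iff.1 hl₀
  have hz : ∀ l ∈ N.support, ∀ k ∈ (N.coeff l).support, (l, k) ≠ (l₀, (N.coeff l₀).natDegree) →
      PowerSeries.coeff 0 (PowerSeries.C ((N.coeff l).coeff k) *
        PowerSeries.X ^ (wtG e h N - (e * k + h * l)) * W ^ l) = 0 := by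
    intro l hl k hk hne'
    have h1 : e * k + h * l ≤ wtG e h N := wt_wtG e h N l k (Polynomial.mem_support_iff.1 hk)
    have h2 : e * k + h * l ≠ wtG e h N := by
      intro h2
      rw [hw] at h2
      obtain ⟨h3, h4⟩ := GeoOm_uniq hc (hlt l hl) (hlt l₀ hl₀) h2
      exact hne' (by rw [h3, h4])
    rw [GeoOm_coeff, zero_pow (by omega), mul_zero, zero_mul]
  have key : PowerSeries.coeff 0 (Tw e h (wtG e h N) N W) =
      (N.coeff l₀).leadingCoeff * (PowerSeries.coeff 0 W) ^ l₀ := by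
    unfold Tw
    rw [map_sum, Finset.sum_eq_single l₀]
    · rw [map_sum, Finset.sum_eq_single (N.coeff l₀).natDegree]
      · rw [GeoOm_coeff, hw, Nat.sub_self, pow_zero, mul_one]
        rfl
      · intro k hk hkne
        exact hz l₀ hl₀ k hk (fun h5 => hkne (Prod.mk.inj h5).2)
      · intro hnm
        exact absurd (Polynomial.natDegree_mem_support_of_nonzero hc0) hnm
    · intro l hl hlne
      rw [map_sum]
      apply Finset.sum_eq_zero
      intro k hk
      exact hz l hl k hk (fun h5 => hlne (Prod.mk.inj h5).1)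
    · intro hnm
      exact absurd hl₀ hnm
  rw [key]
  exact mul_ne_zero (Polynomial.leadingCoeff_ne_zero.2 hc0) (pow_ne_zero _ hW)

/-- the three series which have to converge -/
noncomputable def Nt (e h : ℕ) (N : ℂ[X][X]) (W : PowerSeries ℂ) : PowerSeries ℂ :=
  Tw e h (wtG e h N) N W

private theorem GeoOm_wtC (e h : ℕ) (M : ℂ[X]) :
    Wt e h (e * M.natDegree) (C M : ℂ[X][X]) := by
  intro l k hk
  rw [Polynomial.coeff_C] at hk
  by_cases hl : l = 0
  · subst hl
    rw [if_pos rfl] at hk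
    have h1 : k ≤ M.natDegree := Polynomial.le_natDegree_of_ne_zero hk
    have h2 : e * k ≤ e * M.natDegree := Nat.mul_le_mul_left _ h1
    omega
  · rw [if_neg hl, Polynomial.coeff_zero] at hk
    exact absurd rfl hk

private theorem GeoOm_coeffM {e h : ℕ} (he : 0 < e) {M : ℂ[X]} (hM : M ≠ 0) (W : PowerSeries ℂ) :
    PowerSeries.coeff 0 (Tw e h (e * M.natDegree) (C M : ℂ[X][X]) W) ≠ 0 := by
  have hsup : (C M : ℂ[X][X]).support = {0} := Polynomial.support_C hM
  have key : PowerSeries.coeff 0 (Tw e h (e * M.natDegree) (C M : ℂ[X][X]) W) =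
      M.leadingCoeff := by
    unfold Tw
    rw [hsup, Finset.sum_singleton, Polynomial.coeff_C_zero, map_sum,
      Finset.sum_eq_single M.natDegree]
    · rw [GeoOm_coeff, pow_zero, mul_one, mul_zero, add_zero, Nat.sub_self, pow_zero, mul_one]
      rfl
    · intro k hk hkne
      have h1 : k ≤ M.natDegree := Polynomial.le_natDegree_of_mem_supp k hk
      have h2 : k < M.natDegree := lt_of_le_of_ne h1 hkne
      have h3 : e * k < e * M.natDegree := Nat.mul_lt_mul_of_pos_left h2 he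
      rw [GeoOm_coeff, zero_pow (by omega), mul_zero, zero_mul]
    · intro hnm
      exact absurd (Polynomial.natDegree_mem_support_of_nonzero hM) hnm
  rw [key]
  exact Polynomial.leadingCoeff_ne_zero.2 hM

theorem exists_om {K : IntermediateField ℚ ℂ} [FiniteDimensional ℚ K] {e h : ℕ} (he : 0 < e)
    (hc : Nat.Coprime e h) {M : ℂ[X]} {N : ℂ[X][X]} (hM : M ≠ 0) (hMK : ∀ k, M.coeff k ∈ K)
    (hNK : FldP K N) (hd : N.natDegree < e) {W : PowerSeries ℂ} (hW : Gd K W)
    (hW0 : PowerSeries.coeff 0 W ≠ 0) (hlt : e * M.natDegree < wtG e h N) :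
    ∃ (m : ℕ) (om : PowerSeries ℂ), 0 < m ∧ Gd K om ∧ PowerSeries.coeff 0 om ≠ 0 ∧
      Gd K (Nt e h N W)⁻¹ ∧ ∀ {E : Type} [NormedField E] [CompleteSpace E] (φ : ℂ →+* E)
        (τ x y z : ℂ), Cv φ W (φ τ) → Cv φ (Nt e h N W)⁻¹ (φ τ) → τ ^ e * x = 1 →
        φ (y * τ ^ h) = evE φ W (φ τ) → M.eval x * z = N.evalEval x y →
        z ≠ 0 ∧ φ ((z * τ ^ m)⁻¹) = evE φ om (φ τ) ∧ Cv φ om (φ τ) := by
  have hN : N ≠ 0 := by
    rintro rfl
    simp [wtG] at hlt
  have hNt0 : PowerSeries.coeff 0 (Nt e h N W) ≠ 0 := coeff_Tw0 hc hN hd hW0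
  have hM0 := GeoOm_coeffM (h := h) he hM W
  have hMF : FldP K (C M : ℂ[X][X]) := by
    intro l k
    rw [Polynomial.coeff_C]
    by_cases hl : l = 0
    · rw [if_pos hl]
      exact hMK k
    · rw [if_neg hl, Polynomial.coeff_zero]
      exact K.zero_mem
  have hGN : Gd K (Nt e h N W) := Gd.tw hNK hW e h _
  have hGi : Gd K (Nt e h N W)⁻¹ := hGN.inv hNt0
  refine ⟨wtG e h N - e * M.natDegree,
    Tw e h (e * M.natDegree) (C M : ℂ[X][X]) W * (Nt e h N W)⁻¹, by omega,
    (Gd.tw hMF hW e h _).mul hGi, ?_, hGi, ?_⟩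
  · rw [PowerSeries.coeff_zero_eq_constantCoeff_apply, map_mul, PowerSeries.constantCoeff_inv,
      ← PowerSeries.coeff_zero_eq_constantCoeff_apply,
      ← PowerSeries.coeff_zero_eq_constantCoeff_apply]
    exact mul_ne_zero hM0 (inv_ne_zero hNt0)
  · intro E _ _ φ τ x y z hcW hcI hx hy hz
    have hx' : (φ τ) ^ e * φ x = 1 := by
      rw [← map_pow, ← map_mul, hx, map_one]
    have hy' : φ y * (φ τ) ^ h = evE φ W (φ τ) := by
      rw [← hy, map_mul, map_pow]
    have hcN : Cv φ (Nt e h N W) (φ τ) := cv_Tw N hcW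
    have hcM : Cv φ (Tw e h (e * M.natDegree) (C M : ℂ[X][X]) W) (φ τ) := cv_Tw _ hcW
    have hevN : evE φ (Nt e h N W) (φ τ) = φ (N.evalEval x y) * (φ τ) ^ (wtG e h N) :=
      ev_Tw (wt_wtG e h N) hcW hx' hy'
    have hevM : evE φ (Tw e h (e * M.natDegree) (C M : ℂ[X][X]) W) (φ τ) =
        φ (M.eval x) * (φ τ) ^ (e * M.natDegree) := by
      rw [ev_Tw (GeoOm_wtC e h M) hcW hx' hy', Polynomial.evalEval_C]
    have hone : Nt e h N W * (Nt e h N W)⁻¹ = 1 := by
      apply PowerSeries.mul_inv_cancel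
      rwa [← PowerSeries.coeff_zero_eq_constantCoeff_apply]
    have h1 : φ (N.evalEval x y) * (φ τ) ^ (wtG e h N) * evE φ (Nt e h N W)⁻¹ (φ τ) = 1 := by
      rw [← hevN, ← evE_mul hcN hcI, hone, ← map_one (PowerSeries.C (R := ℂ)), evE_C, map_one]
    have hNne : φ (N.evalEval x y) ≠ 0 := by
      intro h0
      rw [h0, zero_mul, zero_mul] at h1
      exact zero_ne_one h1
    have hIne : evE φ (Nt e h N W)⁻¹ (φ τ) ≠ 0 := by
      intro h0
      rw [h0, mul_zero] at h1
      exact zero_ne_one h1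
    have hz' : φ (M.eval x) * φ z = φ (N.evalEval x y) := by rw [← map_mul, hz]
    have hMne : φ (M.eval x) ≠ 0 := by
      intro h0
      rw [h0, zero_mul] at hz'
      exact hNne hz'.symm
    have hzne : φ z ≠ 0 := by
      intro h0
      rw [h0, mul_zero] at hz'
      exact hNne hz'.symm
    have hτ : φ τ ≠ 0 := by
      intro h0
      rw [h0, zero_pow he.ne', zero_mul] at hx'
      exact zero_ne_one hx'
    refine ⟨fun h0 => hzne (by rw [h0, map_zero]), ?_, hcM.mul hcI⟩
    rw [evE_mul hcM hcI, hevM, map_inv₀, map_mul, map_pow]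
    apply inv_eq_of_mul_eq_one_right
    have hsplit : (φ τ) ^ (wtG e h N) =
        (φ τ) ^ (wtG e h N - e * M.natDegree) * (φ τ) ^ (e * M.natDegree) := by
      rw [← pow_add]
      congr 1
      omega
    rw [← hz', hsplit] at h1
    linear_combination h1

end Pool.Agent.LGO.RU
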