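import Mathlib
import Pool.Agent.LGO.RU.GeoSer
import Pool.Agent.LGO.GM.RelF

/-!
# LGO/RU, geometric input: definitions for a curve `V ⊆ ℂⁿ`

`ξ(x) = aeval x Fx`, `η(x) = aeval x Fy`.
`PlaneV`: the plane model of `V` with one point at infinity, over `Qb`.
`Geo`: the final form: integral coefficients; near infinity (`1 < ‖φ (ξ x)‖`, resp. `C < ‖σ (ξ x)‖`) there is an `e`-th root `τ` of
`1 / ξ(x)` such that `η(x) τ ^ h`, `1 / (x_a τ ^ ma)`, `1 / (x_b τ ^ mb)` are the values at `τ` of power series with coefficients in the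
algebraic integers of a number field `K`, nonzero constant terms, and `|σ(c_n)| ≤ C ^ (n + 1)` for all `σ`.
-/

namespace Pool.Agent.LGO.RU

open Polynomial Pool.Agent.LGO Pool.Agent.Hhelper14.ZPL Pool.Agent.Hhelper14.ZP

/-- complex coefficients -/
noncomputable def toC (P : Polynomial (Polynomial Qb)) : ℂ[X][X] := P.map (mapRingHom (algebraMap Qb ℂ))

/-- complex coefficients -/
noncomputable def toC1 (M : Polynomial Qb) : ℂ[X] := M.map (algebraMap Qb ℂ)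

/-- the value of a polynomial in the coordinates -/
noncomputable def vl {n : ℕ} (F : MvPolynomial (Fin n) Qb) (x : Fin n → ℂ) : ℂ := MvPolynomial.aeval x F

/-- the plane model of `V` with one point at infinity -/
structure PlaneV {n : ℕ} (V : Set (Fin n → ℂ)) (Fx Fy : MvPolynomial (Fin n) Qb) (e h : ℕ)
    (P : Polynomial (Polynomial Qb)) (M : Polynomial Qb) (N : Fin n → Polynomial (Polynomial Qb)) :
    Prop where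
  e0 : 0 < e
  h0 : 0 < h
  cop : Nat.Coprime e h
  monic : P.Monic
  deg : P.natDegree = e
  wt : ∀ l < e, e * (P.coeff l).natDegree + h * l ≤ e * h
  top : (P.coeff 0).natDegree = h
  M0 : M ≠ 0
  Nd : ∀ a, (N a).natDegree < e
  ncx : ∀ c : ℂ, ∃ x ∈ V, vl Fx x ≠ c
  onV : ∀ x ∈ V, (toC P).evalEval (vl Fx x) (vl Fy x) = 0
  rep : ∀ x ∈ V, ∀ a, (toC1 M).eval (vl Fx x) * x a = (toC (N a)).evalEval (vl Fx x) (vl Fy x)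
  back : ∀ X Y : ℂ, (toC P).evalEval X Y = 0 → (toC1 M).eval X ≠ 0 → ∃ x ∈ V, vl Fx x = X ∧
    vl Fy x = Y ∧ ∀ a, (toC1 M).eval X * x a = (toC (N a)).evalEval X Y
  int : ∀ a, ∃ (r : ℕ) (q : ℕ → Polynomial Qb), 0 < r ∧ ∀ x ∈ V, (vl Fx x * x a) ^ r +
    ∑ j ∈ Finset.range r, (toC1 (q j)).eval (vl Fx x) * (vl Fx x * x a) ^ j = 0

/-- the power series `S` with integral coefficients in `K`, nonzero constant term and bounded growth -/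
structure SrK (K : IntermediateField ℚ ℂ) (C : ℝ) (S : PowerSeries OO) : Prop where
  ne : PowerSeries.coeff 0 S ≠ 0
  fld : ∀ n, ((PowerSeries.coeff n S : OO) : ℂ) ∈ K
  gro : ∀ (σ : ℂ →+* ℂ) (n : ℕ), ‖σ ((PowerSeries.coeff n S : OO) : ℂ)‖ ≤ C ^ (n + 1)

/-- the value of `S` at `τ` is `y`, in `ℂ_[p]` -/
def ValP {p : ℕ} [Fact p.Prime] (φ : ℂ →+* ℂ_[p]) (S : PowerSeries OO) (τ y : ℂ) : Prop :=
  φ y = PA.ev (PA.sO φ) S (φ τ)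

/-- the value of `S` at `τ` is `y`, for the embedding `σ` -/
def ValC (σ : ℂ →+* ℂ) (S : PowerSeries OO) (τ y : ℂ) : Prop :=
  HasSum (fun n => σ ((PowerSeries.coeff n S : OO) : ℂ) * σ τ ^ n) (σ y)

/-- **the geometric input of Theorem RU** -/
structure Geo {n : ℕ} (V : Set (Fin n → ℂ)) (a b : Fin n) where
  Fx : MvPolynomial (Fin n) Qb
  Fy : MvPolynomial (Fin n) Qb
  e : ℕ
  h : ℕ
  P : ℂ[X][X]
  M : ℂ[X]
  N : Fin n → ℂ[X][X]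
  K : IntermediateField ℚ ℂ
  W : PowerSeries OO
  ma : ℕ
  mb : ℕ
  oa : PowerSeries OO
  ob : PowerSeries OO
  n0 : ℕ
  C : ℝ
  e0 : 0 < e
  h0 : 0 < h
  cop : Nat.Coprime e h
  fin : FiniteDimensional ℚ K
  monic : P.Monic
  deg : P.natDegree = e
  wt : Wt e h (e * h) P
  top : (P.coeff 0).coeff h ≠ 0
  irr : Irreducible P
  Pint : ∀ l k, IsIntegral ℤ ((P.coeff l).coeff k)
  PK : FldP K P
  M0 : M ≠ 0
  Malg : ∀ k, IsAlgebraic ℚ (M.coeff k)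
  Nd : ∀ c, (N c).natDegree < e
  Nalg : ∀ c l k, IsAlgebraic ℚ (((N c).coeff l).coeff k)
  ncx : ∀ c : ℂ, ∃ x ∈ V, vl Fx x ≠ c
  onV : ∀ x ∈ V, P.evalEval (vl Fx x) (vl Fy x) = 0
  rep : ∀ x ∈ V, ∀ c, M.eval (vl Fx x) * x c = (N c).evalEval (vl Fx x) (vl Fy x)
  back : ∀ X Y : ℂ, P.evalEval X Y = 0 → M.eval X ≠ 0 → ∃ x ∈ V, vl Fx x = X ∧ vl Fy x = Y ∧
    ∀ c, M.eval X * x c = (N c).evalEval X Y
  int : ∀ c, ∃ (r : ℕ) (q : ℕ → Polynomial Qb), 0 < r ∧ ∀ x ∈ V, (vl Fx x * x c) ^ r +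
    ∑ j ∈ Finset.range r, (toC1 (q j)).eval (vl Fx x) * (vl Fx x * x c) ^ j = 0
  C1 : 1 ≤ C
  SW : SrK K C W
  Sa : SrK K C oa
  Sb : SrK K C ob
  ma0 : 0 < ma
  mb0 : 0 < mb
  n00 : 0 < n0
  locp : ∀ (p : ℕ) [Fact p.Prime] (φ : ℂ →+* ℂ_[p]), ∀ x ∈ V, 1 < ‖φ (vl Fx x)‖ →
    ∃ τ : ℂ, τ ^ e * vl Fx x = 1 ∧ ValP φ W τ (vl Fy x * τ ^ h) ∧
      (x a ≠ 0 ∧ ValP φ oa τ ((x a * τ ^ ma)⁻¹) ∧ ‖φ (n0 : ℂ)‖ * ‖φ (x a * τ ^ ma)‖ ≤ 1) ∧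
      (x b ≠ 0 ∧ ValP φ ob τ ((x b * τ ^ mb)⁻¹) ∧ ‖φ (n0 : ℂ)‖ * ‖φ (x b * τ ^ mb)‖ ≤ 1)
  locc : ∀ σ : ℂ →+* ℂ, ∀ x ∈ V, C < ‖σ (vl Fx x)‖ →
    ∃ τ : ℂ, τ ^ e * vl Fx x = 1 ∧ ValC σ W τ (vl Fy x * τ ^ h) ∧
      (x a ≠ 0 ∧ ValC σ oa τ ((x a * τ ^ ma)⁻¹) ∧ ‖σ (x a * τ ^ ma)‖ ≤ C) ∧
      (x b ≠ 0 ∧ ValC σ ob τ ((x b * τ ^ mb)⁻¹) ∧ ‖σ (x b * τ ^ mb)‖ ≤ C)

end Pool.Agent.LGO.RU
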