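import Mathlib
import Pool.Agent.LGO.RU.GeoSer

/-!
# LGO/RU, geometric input: Hensel's lemma for power series over a ring, with growth

`H ∈ R[X][Y]`, `H(0, 0) = 0`, `∂_Y H(0, 0) = 1`: there is `U ∈ X R⟦X⟧` with `H(X, U) = 0`.
PROOF of `exists_U`: `Φ(U) = U - H(X, U)`; `X ^ (n + 1) ∣ U - U'` (`X ∣ U`, `X ∣ U'`) gives `X ^ (n + 2) ∣ Φ(U) - Φ(U')`; iterate from `0`, the
coefficients become stationary.
PROOF of `grow`: `s_n = ∑_(k ≤ n) ‖f(u_k)‖ r ^ k` (`u_0 = 0`).  The truncated norms are submultiplicative.  From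
`U = - (∑_(i, j), (i, j) ≠ (0, 1)) h_(j, i) X ^ i U ^ j` (`j` the exponent of `Y`, `h_(0,0) = 0`, so `i ≥ 1` or `j ≥ 2`; in `U ^ j`, `j ≥ 2`, the
coefficient of `X ^ n` contains only `u_k`, `k < n`): `s_n ≤ (J + 1)² B (r + s_(n-1) ^ 2) (1 + s_(n-1)) ^ J` for `r ≤ 1`.  Choose
`s ≤ 1` with `(J + 1)² B 2 ^ J s ≤ 1 / 2`, then `r` with `(J + 1)² B 2 ^ J r ≤ s / 2`: `s_n ≤ s` for all `n`, so `‖f(u_n)‖ ≤ s r ^ (-n)`.
-/

namespace Pool.Agent.LGO.RU

open Polynomial Pool.Agent.LGO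

/-- the difference of two values near `0` -/
private theorem GeoHen_key {A : Type*} [CommRing A] (x : A) (G : A[X]) (h1 : x ∣ G.coeff 1) {u u' : A}
    (hu : x ∣ u) (hu' : x ∣ u') : x * (u - u') ∣ G.eval u - G.eval u' := by
  obtain ⟨G1, hG1⟩ : ∃ G1 : A[X], G1 = G.divX := ⟨_, rfl⟩
  obtain ⟨G2, hG2⟩ : ∃ G2 : A[X], G2 = G1.divX := ⟨_, rfl⟩
  have e1 : G = G1 * X + C (G.coeff 0) := by rw [hG1, divX_mul_X_add]
  have e2 : G1 = G2 * X + C (G.coeff 1) := by
    have h0 : G1.coeff 0 = G.coeff 1 := by rw [hG1, coeff_divX]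
    rw [← h0, hG2, divX_mul_X_add]
  have ev : ∀ w : A, G.eval w = (G2.eval w * w + G.coeff 1) * w + G.coeff 0 := by
    intro w
    have e3 : G.eval w = G1.eval w * w + G.coeff 0 := by
      conv_lhs => rw [e1]
      simp
    have e4 : G1.eval w = G2.eval w * w + G.coeff 1 := by
      conv_lhs => rw [e2]
      simp
    rw [e3, e4]
  obtain ⟨s, hs⟩ := sub_dvd_eval_sub u u' G2
  obtain ⟨a, ha⟩ := h1
  obtain ⟨b, hb⟩ := hu
  obtain ⟨b', hb'⟩ := hu'
  refine ⟨a + b * u * s + (b + b') * G2.eval u', ?_⟩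
  rw [ev u, ev u']
  have e3 : G2.eval u = G2.eval u' + (u - u') * s := by rw [← hs]; ring
  rw [e3, ha]
  linear_combination ((u - u') * (u * s + G2.eval u')) * hb + ((u - u') * G2.eval u') * hb'

private theorem GeoHen_sum {R : Type*} [CommRing R] (H : R[X][X]) (U : PowerSeries R) :
    ∑ j ∈ Finset.range (H.natDegree + 1), ((H.coeff j : R[X]) : PowerSeries R) * U ^ j =
      (H.map (Polynomial.coeToPowerSeries.ringHom (R := R))).eval U := by
  rw [eval_map, eval₂_eq_sum_range]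
  rfl

theorem exists_U {R : Type} [CommRing R] (H : R[X][X]) (h0 : (H.coeff 0).coeff 0 = 0)
    (h1 : (H.coeff 1).coeff 0 = 1) : ∃ U : PowerSeries R, PowerSeries.coeff 0 U = 0 ∧
      ∑ j ∈ Finset.range (H.natDegree + 1), ((H.coeff j : R[X]) : PowerSeries R) * U ^ j = 0 := by
  obtain ⟨P, hP⟩ : ∃ P : (PowerSeries R)[X], P = H.map (Polynomial.coeToPowerSeries.ringHom (R := R)) :=
    ⟨_, rfl⟩
  have hPc : ∀ j, P.coeff j = ((H.coeff j : R[X]) : PowerSeries R) := by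
    intro j
    rw [hP, coeff_map]
    rfl
  obtain ⟨G, hG⟩ : ∃ G : (PowerSeries R)[X], G = X - P := ⟨_, rfl⟩
  have hev : ∀ u, G.eval u = u - P.eval u := fun u => by rw [hG]; simp
  have hG1 : (PowerSeries.X : PowerSeries R) ∣ G.coeff 1 := by
    rw [PowerSeries.X_dvd_iff, hG, coeff_sub, coeff_X_one, hPc, map_sub, map_one,
      ← PowerSeries.coeff_zero_eq_constantCoeff_apply, Polynomial.coeff_coe, h1, sub_self]
  have hG0 : (PowerSeries.X : PowerSeries R) ∣ G.eval 0 := by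
    rw [PowerSeries.X_dvd_iff, hev, ← coeff_zero_eq_eval_zero, hPc, zero_sub, map_neg,
      ← PowerSeries.coeff_zero_eq_constantCoeff_apply, Polynomial.coeff_coe, h0, neg_zero]
  obtain ⟨u, hu⟩ : ∃ u : ℕ → PowerSeries R, u = fun n => (fun v => G.eval v)^[n] 0 := ⟨_, rfl⟩
  have u0 : u 0 = 0 := by rw [hu]; rfl
  have us : ∀ n, u (n + 1) = G.eval (u n) := by
    intro n
    rw [hu]
    exact Function.iterate_succ_apply' _ _ _
  have hX : ∀ n, (PowerSeries.X : PowerSeries R) ∣ u n := by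
    intro n
    induction n with
    | zero => rw [u0]; exact dvd_zero _
    | succ n ih =>
      have h2 := dvd_trans (dvd_mul_right _ _) (GeoHen_key PowerSeries.X G hG1 ih (dvd_zero _))
      have h3 := dvd_add h2 hG0
      rw [sub_add_cancel] at h3
      rw [us]
      exact h3
  have hst : ∀ n, (PowerSeries.X : PowerSeries R) ^ (n + 1) ∣ u (n + 1) - u n := by
    intro n
    induction n with
    | zero => rw [us, u0, zero_add, pow_one, sub_zero]; exact hG0
    | succ n ih =>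
      have h2 := GeoHen_key PowerSeries.X G hG1 (hX (n + 1)) (hX n)
      rw [← us (n + 1), ← us n] at h2
      refine dvd_trans ?_ h2
      rw [pow_succ' _ (n + 1)]
      exact mul_dvd_mul_left _ ih
  have hco : ∀ m d, PowerSeries.coeff m (u (m + d)) = PowerSeries.coeff m (u m) := by
    intro m d
    induction d with
    | zero => rfl
    | succ d ih =>
      have h2 := (PowerSeries.X_pow_dvd_iff.1 (hst (m + d))) m (by omega)
      rw [map_sub, sub_eq_zero] at h2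
      rw [← add_assoc, h2, ih]
  obtain ⟨U, hU⟩ : ∃ U : PowerSeries R, U = PowerSeries.mk fun k => PowerSeries.coeff k (u k) := ⟨_, rfl⟩
  have hUn : ∀ n, (PowerSeries.X : PowerSeries R) ^ (n + 1) ∣ U - u n := by
    intro n
    rw [PowerSeries.X_pow_dvd_iff]
    intro m hm
    obtain ⟨d, rfl⟩ := Nat.exists_eq_add_of_le (Nat.lt_succ_iff.1 hm)
    rw [map_sub, hco m d, hU, PowerSeries.coeff_mk, sub_self]
  have hU0 : PowerSeries.coeff 0 U = 0 := by
    rw [hU, PowerSeries.coeff_mk, u0]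
    simp
  refine ⟨U, hU0, ?_⟩
  rw [GeoHen_sum, ← hP]
  have hXU : (PowerSeries.X : PowerSeries R) ∣ U := by
    rw [PowerSeries.X_dvd_iff, ← PowerSeries.coeff_zero_eq_constantCoeff_apply]
    exact hU0
  ext m
  have h2 : (PowerSeries.X : PowerSeries R) ^ (m + 1) ∣ P.eval U := by
    have h3 : P.eval U = (U - u (m + 1)) - (G.eval U - G.eval (u m)) := by
      rw [us m, hev U]; ring
    rw [h3]
    refine dvd_sub ?_ ?_
    · exact dvd_trans (pow_dvd_pow _ (Nat.le_succ _)) (hUn (m + 1))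
    · exact dvd_trans (hUn m) (dvd_trans (dvd_mul_left _ _) (GeoHen_key PowerSeries.X G hG1 hXU (hX m)))
  rw [(PowerSeries.X_pow_dvd_iff.1 h2) m (Nat.lt_succ_self m)]
  simp

/-- truncated norm -/
private noncomputable def GeoHen_T (r : ℝ) (n : ℕ) (W : PowerSeries ℂ) : ℝ :=
  ∑ k ∈ Finset.range (n + 1), ‖PowerSeries.coeff k W‖ * r ^ k

private theorem GeoHen_T_nonneg {r : ℝ} (hr : 0 ≤ r) (n : ℕ) (W : PowerSeries ℂ) :
    0 ≤ GeoHen_T r n W :=
  Finset.sum_nonneg fun _ _ => mul_nonneg (norm_nonneg _) (pow_nonneg hr _)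

private theorem GeoHen_T_add {r : ℝ} (hr : 0 ≤ r) (n : ℕ) (W W' : PowerSeries ℂ) :
    GeoHen_T r n (W + W') ≤ GeoHen_T r n W + GeoHen_T r n W' := by
  unfold GeoHen_T
  rw [← Finset.sum_add_distrib]
  refine Finset.sum_le_sum fun k _ => ?_
  rw [← add_mul, map_add]
  exact mul_le_mul_of_nonneg_right (norm_add_le _ _) (pow_nonneg hr _)

private theorem GeoHen_T_sum {r : ℝ} (hr : 0 ≤ r) (n : ℕ) (s : Finset ℕ) (W : ℕ → PowerSeries ℂ) :
    GeoHen_T r n (∑ j ∈ s, W j) ≤ ∑ j ∈ s, GeoHen_T r n (W j) := by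
  classical
  induction s using Finset.induction_on with
  | empty => simp [GeoHen_T]
  | insert a s ha ih =>
    rw [Finset.sum_insert ha, Finset.sum_insert ha]
    exact (GeoHen_T_add hr n _ _).trans (add_le_add le_rfl ih)

private theorem GeoHen_T_neg (r : ℝ) (n : ℕ) (W : PowerSeries ℂ) :
    GeoHen_T r n (-W) = GeoHen_T r n W := by
  unfold GeoHen_T
  refine Finset.sum_congr rfl fun k _ => ?_
  rw [map_neg, norm_neg]

private theorem GeoHen_T_mul {r : ℝ} (hr : 0 ≤ r) (n : ℕ) (W W' : PowerSeries ℂ) :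
    GeoHen_T r n (W * W') ≤ GeoHen_T r n W * GeoHen_T r n W' := by
  unfold GeoHen_T
  obtain ⟨F, hF⟩ : ∃ F : ℕ → ℕ → ℝ, F = fun i j =>
    (‖PowerSeries.coeff i W‖ * r ^ i) * (‖PowerSeries.coeff j W'‖ * r ^ j) := ⟨_, rfl⟩
  have hF0 : ∀ i j, 0 ≤ F i j := fun i j => by rw [hF]; positivity
  have h1 : ∀ k ∈ Finset.range (n + 1), ‖PowerSeries.coeff k (W * W')‖ * r ^ k ≤
      ∑ i ∈ Finset.range (n + 1), ∑ j ∈ Finset.range (n + 1), if i + j = k then F i j else 0 := by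
    intro k hk
    have h2 : ‖PowerSeries.coeff k (W * W')‖ * r ^ k ≤ ∑ p ∈ Finset.HasAntidiagonal.antidiagonal k, F p.1 p.2 := by
      rw [PowerSeries.coeff_mul]
      refine (mul_le_mul_of_nonneg_right (norm_sum_le _ _) (pow_nonneg hr _)).trans ?_
      rw [Finset.sum_mul]
      refine Finset.sum_le_sum fun p hp => ?_
      rw [hF, norm_mul, ← Finset.HasAntidiagonal.mem_antidiagonal.1 hp, pow_add]
      apply le_of_eq
      ring
    refine h2.trans (le_of_eq ?_)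
    rw [← Finset.sum_product', ← Finset.sum_filter]
    refine Finset.sum_congr ?_ fun _ _ => rfl
    ext ⟨i, j⟩
    rw [Finset.HasAntidiagonal.mem_antidiagonal, Finset.mem_filter, Finset.mem_product, Finset.mem_range,
      Finset.mem_range]
    rw [Finset.mem_range] at hk
    constructor
    · intro h; exact ⟨⟨by simp only at h ⊢; omega, by simp only at h ⊢; omega⟩, h⟩
    · intro h; exact h.2
  refine (Finset.sum_le_sum h1).trans ?_
  rw [Finset.sum_comm, Finset.sum_mul]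
  refine Finset.sum_le_sum fun i _ => ?_
  rw [Finset.sum_comm, Finset.mul_sum]
  refine Finset.sum_le_sum fun j _ => ?_
  rw [Finset.sum_ite_eq]
  split_ifs
  · rw [hF]
  · have := hF0 i j
    rw [hF] at this
    exact this

private theorem GeoHen_T_pow {r : ℝ} (hr : 0 ≤ r) (n : ℕ) (W : PowerSeries ℂ) (j : ℕ) :
    GeoHen_T r n (W ^ j) ≤ GeoHen_T r n W ^ j := by
  induction j with
  | zero =>
    rw [pow_zero, pow_zero]
    unfold GeoHen_T
    rw [Finset.sum_eq_single 0]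
    · simp
    · intro k _ hk
      rw [PowerSeries.coeff_one, if_neg hk]
      simp
    · intro h
      exact absurd (Finset.mem_range.2 (Nat.succ_pos n)) h
  | succ j ih =>
    rw [pow_succ, pow_succ]
    exact (GeoHen_T_mul hr n _ _).trans (mul_le_mul_of_nonneg_right ih (GeoHen_T_nonneg hr n W))

private theorem GeoHen_T_X (r : ℝ) (n : ℕ) (W : PowerSeries ℂ) :
    GeoHen_T r (n + 1) (PowerSeries.X * W) = r * GeoHen_T r n W := by
  unfold GeoHen_T
  rw [Finset.sum_range_succ', Finset.mul_sum]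
  have h0 : PowerSeries.coeff 0 (PowerSeries.X * W) = 0 := by simp
  rw [h0, norm_zero, zero_mul, add_zero]
  refine Finset.sum_congr rfl fun k _ => ?_
  rw [PowerSeries.coeff_succ_X_mul, pow_succ]
  ring

private theorem GeoHen_T_tr {r : ℝ} (hr : 0 ≤ r) (n : ℕ) {W : PowerSeries ℂ}
    (h0 : PowerSeries.coeff 0 W = 0) {j : ℕ} (hj : 2 ≤ j) :
    GeoHen_T r (n + 1) (W ^ j) ≤ GeoHen_T r n W ^ j := by
  obtain ⟨W', hW'⟩ : ∃ W' : PowerSeries ℂ, W' = ((PowerSeries.trunc (n + 1) W : ℂ[X]) : PowerSeries ℂ) :=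
    ⟨_, rfl⟩
  have hco : ∀ k, PowerSeries.coeff k W' = if k < n + 1 then PowerSeries.coeff k W else 0 := by
    intro k
    rw [hW', Polynomial.coeff_coe, PowerSeries.coeff_trunc]
  have hX : (PowerSeries.X : PowerSeries ℂ) ∣ W := by
    rw [PowerSeries.X_dvd_iff, ← PowerSeries.coeff_zero_eq_constantCoeff_apply]
    exact h0
  have hX' : (PowerSeries.X : PowerSeries ℂ) ∣ W' := by
    rw [PowerSeries.X_dvd_iff, ← PowerSeries.coeff_zero_eq_constantCoeff_apply, hco,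
      if_pos (Nat.succ_pos n), h0]
  have hd : (PowerSeries.X : PowerSeries ℂ) ^ (n + 1) ∣ W - W' := by
    rw [PowerSeries.X_pow_dvd_iff]
    intro m hm
    rw [map_sub, hco, if_pos hm, sub_self]
  have hp : (PowerSeries.X : PowerSeries ℂ) ^ (n + 2) ∣ W ^ j - W' ^ j := by
    have h2 := GeoHen_key (PowerSeries.X : PowerSeries ℂ) (X ^ j : (PowerSeries ℂ)[X])
      (by rw [coeff_X_pow, if_neg (by omega)]; exact dvd_zero _) hX hX'
    rw [eval_pow, eval_X, eval_pow, eval_X] at h2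
    refine dvd_trans ?_ h2
    rw [pow_succ' _ (n + 1)]
    exact mul_dvd_mul_left _ hd
  have h3 : GeoHen_T r (n + 1) (W ^ j) = GeoHen_T r (n + 1) (W' ^ j) := by
    unfold GeoHen_T
    refine Finset.sum_congr rfl fun k hk => ?_
    have h4 := PowerSeries.X_pow_dvd_iff.1 hp k (by rw [Finset.mem_range] at hk; omega)
    rw [map_sub, sub_eq_zero] at h4
    rw [h4]
  have h5 : GeoHen_T r (n + 1) W' = GeoHen_T r n W := by
    unfold GeoHen_T
    rw [Finset.sum_range_succ, hco, if_neg (lt_irrefl _), norm_zero, zero_mul, add_zero]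
    refine Finset.sum_congr rfl fun k hk => ?_
    rw [hco, if_pos (Finset.mem_range.1 hk)]
  rw [h3, ← h5]
  exact GeoHen_T_pow hr _ _ _

/-- polynomials with bounded coefficients -/
private theorem GeoHen_T_poly {r B : ℝ} (hr : 0 ≤ r) (hr1 : r ≤ 1) (hB : 0 ≤ B) {J : ℕ} (n : ℕ)
    {P : PowerSeries ℂ} (hP : ∀ k, ‖PowerSeries.coeff k P‖ ≤ B)
    (hd : ∀ k, J < k → PowerSeries.coeff k P = 0) : GeoHen_T r n P ≤ (J + 1) * B := by
  have h1 : GeoHen_T r n P ≤ ∑ k ∈ Finset.range (n + 1), if k < J + 1 then B else 0 := by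
    unfold GeoHen_T
    refine Finset.sum_le_sum fun k _ => ?_
    split_ifs with hk
    · calc ‖PowerSeries.coeff k P‖ * r ^ k ≤ B * 1 :=
            mul_le_mul (hP k) (pow_le_one₀ hr hr1) (pow_nonneg hr _) hB
        _ = B := mul_one _
    · rw [hd k (by omega), norm_zero, zero_mul]
  refine h1.trans ?_
  rw [← Finset.sum_filter, Finset.sum_const, nsmul_eq_mul]
  refine mul_le_mul_of_nonneg_right ?_ hB
  have h2 : (Finset.filter (fun k => k < J + 1) (Finset.range (n + 1))).card ≤ J + 1 := by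
    calc _ ≤ (Finset.range (J + 1)).card := by
          refine Finset.card_le_card fun k hk => ?_
          rw [Finset.mem_filter] at hk
          exact Finset.mem_range.2 hk.2
      _ = J + 1 := Finset.card_range _
  exact_mod_cast h2

/-- one step -/
private theorem GeoHen_step {r s B : ℝ} {J M : ℕ} (hr : 0 ≤ r) (hr1 : r ≤ 1) (hs : 0 ≤ s) (hs1 : s ≤ 1)
    (hB : 0 ≤ B) (hM : M ≤ J) {Q : ℕ → PowerSeries ℂ} {V : PowerSeries ℂ}
    (hQ : ∀ j k, ‖PowerSeries.coeff k (Q j)‖ ≤ B) (hd : ∀ j k, J < k → PowerSeries.coeff k (Q j) = 0)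
    (h0 : PowerSeries.coeff 0 (Q 0) = 0) (h1 : PowerSeries.coeff 0 (Q 1) = 1)
    (hV : PowerSeries.coeff 0 V = 0) (hrel : ∑ j ∈ Finset.range (M + 2), Q j * V ^ j = 0) {n : ℕ}
    (hn : GeoHen_T r n V ≤ s) :
    GeoHen_T r (n + 1) V ≤ 2 * ((J + 1) ^ 2 * B) * r + (J + 1) ^ 2 * B * s ^ 2 := by
  obtain ⟨W0, hW0⟩ : ∃ W0 : PowerSeries ℂ, W0 = PowerSeries.mk fun k => PowerSeries.coeff (k + 1) (Q 0) :=
    ⟨_, rfl⟩
  obtain ⟨W1, hW1⟩ : ∃ W1 : PowerSeries ℂ, W1 = PowerSeries.mk fun k => PowerSeries.coeff (k + 1) (Q 1) :=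
    ⟨_, rfl⟩
  have e0 : Q 0 = PowerSeries.X * W0 := by
    ext k
    cases k with
    | zero => rw [h0]; simp
    | succ k => rw [PowerSeries.coeff_succ_X_mul, hW0, PowerSeries.coeff_mk]
  have e1 : Q 1 - 1 = PowerSeries.X * W1 := by
    ext k
    cases k with
    | zero => rw [map_sub, h1]; simp
    | succ k =>
      rw [PowerSeries.coeff_succ_X_mul, hW1, PowerSeries.coeff_mk, map_sub, PowerSeries.coeff_one,
        if_neg (Nat.succ_ne_zero k), sub_zero]
  have eV : V = -(∑ j ∈ Finset.range M, Q (j + 2) * V ^ (j + 2) + (PowerSeries.X * (W1 * V) +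
      PowerSeries.X * W0)) := by
    rw [Finset.sum_range_succ', Finset.sum_range_succ'] at hrel
    rw [← mul_assoc, ← e1, ← e0]
    simp only [zero_add, pow_zero, mul_one, pow_one] at hrel
    linear_combination hrel
  have hT0 : ∀ m, GeoHen_T r m W0 ≤ (J + 1) * B := fun m =>
    GeoHen_T_poly hr hr1 hB m (fun k => by rw [hW0, PowerSeries.coeff_mk]; exact hQ _ _)
      (fun k hk => by rw [hW0, PowerSeries.coeff_mk]; exact hd _ _ (by omega))
  have hT1 : ∀ m, GeoHen_T r m W1 ≤ (J + 1) * B := fun m =>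
    GeoHen_T_poly hr hr1 hB m (fun k => by rw [hW1, PowerSeries.coeff_mk]; exact hQ _ _)
      (fun k hk => by rw [hW1, PowerSeries.coeff_mk]; exact hd _ _ (by omega))
  have hTQ : ∀ m j, GeoHen_T r m (Q j) ≤ (J + 1) * B := fun m j =>
    GeoHen_T_poly hr hr1 hB m (hQ j) (hd j)
  have hJ1 : (1 : ℝ) ≤ (J : ℝ) + 1 := by linarith [(Nat.cast_nonneg J : (0 : ℝ) ≤ J)]
  have hK : 0 ≤ ((J : ℝ) + 1) * B := by positivity
  have hTn := GeoHen_T_nonneg hr n V
  have a1 : GeoHen_T r (n + 1) (∑ j ∈ Finset.range M, Q (j + 2) * V ^ (j + 2)) ≤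
      J * ((J + 1) * B * s ^ 2) := by
    refine (GeoHen_T_sum hr _ _ _).trans ?_
    have b1 : ∀ j ∈ Finset.range M, GeoHen_T r (n + 1) (Q (j + 2) * V ^ (j + 2)) ≤
        (J + 1) * B * s ^ 2 := by
      intro j _
      refine (GeoHen_T_mul hr _ _ _).trans ?_
      refine mul_le_mul (hTQ _ _) ?_ (GeoHen_T_nonneg hr _ _) hK
      refine (GeoHen_T_tr hr n hV (by omega)).trans ?_
      calc GeoHen_T r n V ^ (j + 2) ≤ s ^ (j + 2) := pow_le_pow_left₀ hTn hn _
        _ ≤ s ^ 2 := pow_le_pow_of_le_one hs hs1 (by omega)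
    refine (Finset.sum_le_card_nsmul _ _ _ b1).trans ?_
    rw [Finset.card_range, nsmul_eq_mul]
    refine mul_le_mul_of_nonneg_right ?_ (by positivity)
    exact_mod_cast hM
  have a2 : GeoHen_T r (n + 1) (PowerSeries.X * (W1 * V)) ≤ r * ((J + 1) * B) := by
    rw [GeoHen_T_X]
    refine mul_le_mul_of_nonneg_left ?_ hr
    refine (GeoHen_T_mul hr _ _ _).trans ?_
    calc GeoHen_T r n W1 * GeoHen_T r n V ≤ ((J + 1) * B) * 1 :=
          mul_le_mul (hT1 n) (hn.trans hs1) hTn hK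
      _ = _ := mul_one _
  have a3 : GeoHen_T r (n + 1) (PowerSeries.X * W0) ≤ r * ((J + 1) * B) := by
    rw [GeoHen_T_X]
    exact mul_le_mul_of_nonneg_left (hT0 n) hr
  have a4 : GeoHen_T r (n + 1) V ≤ J * ((J + 1) * B * s ^ 2) + (r * ((J + 1) * B) + r * ((J + 1) * B)) := by
    conv_lhs => rw [eV]
    rw [GeoHen_T_neg]
    refine (GeoHen_T_add hr _ _ _).trans (add_le_add a1 ?_)
    exact (GeoHen_T_add hr _ _ _).trans (add_le_add a2 a3)
  refine a4.trans ?_
  have c1 : (J : ℝ) * ((J + 1) * B * s ^ 2) ≤ (J + 1) ^ 2 * B * s ^ 2 := by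
    have : (0 : ℝ) ≤ ((J : ℝ) + 1) * B * s ^ 2 := by positivity
    nlinarith
  have c2 : r * (((J : ℝ) + 1) * B) ≤ (J + 1) ^ 2 * B * r := by
    have : (0 : ℝ) ≤ r * (((J : ℝ) + 1) * B) := by positivity
    nlinarith
  linarith

theorem grow (B : ℝ) (J : ℕ) : ∃ D : ℝ, 0 < D ∧ ∀ (R : Type) [CommRing R] (f : R →+* ℂ) (H : R[X][X])
    (U : PowerSeries R), (∀ j i, ‖f ((H.coeff j).coeff i)‖ ≤ B) → H.natDegree ≤ J →
    (∀ j, (H.coeff j).natDegree ≤ J) → (H.coeff 0).coeff 0 = 0 → (H.coeff 1).coeff 0 = 1 →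
    PowerSeries.coeff 0 U = 0 →
    ∑ j ∈ Finset.range (H.natDegree + 1), ((H.coeff j : R[X]) : PowerSeries R) * U ^ j = 0 →
    ∀ n, ‖f (PowerSeries.coeff n U)‖ ≤ D ^ n := by
  obtain ⟨B', hB'⟩ : ∃ B' : ℝ, B' = max B 1 := ⟨_, rfl⟩
  have hB1 : 1 ≤ B' := by rw [hB']; exact le_max_right _ _
  have hBB : B ≤ B' := by rw [hB']; exact le_max_left _ _
  obtain ⟨K, hK⟩ : ∃ K : ℝ, K = (J + 1) ^ 2 * B' := ⟨_, rfl⟩
  have hJ1 : (1 : ℝ) ≤ ((J : ℝ) + 1) ^ 2 := by
    have := (Nat.cast_nonneg J : (0 : ℝ) ≤ J)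
    exact one_le_pow₀ (by linarith)
  have hK1 : 1 ≤ K := by rw [hK]; exact one_le_mul_of_one_le_of_one_le hJ1 hB1
  have hK0 : 0 < K := by linarith
  obtain ⟨s, hs⟩ : ∃ s : ℝ, s = 1 / (2 * K) := ⟨_, rfl⟩
  obtain ⟨r, hr⟩ : ∃ r : ℝ, r = s / (4 * K) := ⟨_, rfl⟩
  have hs0 : 0 < s := by rw [hs]; positivity
  have hr0 : 0 < r := by rw [hr]; positivity
  have hKs : K * s = 1 / 2 := by rw [hs]; field_simp
  have hKr : 2 * K * r = s / 2 := by rw [hr]; field_simp; ring
  have hs1 : s ≤ 1 := by nlinarith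
  have hr1 : r ≤ 1 := by nlinarith
  refine ⟨1 / r, by positivity, ?_⟩
  intro R _ f H U hb hH hdeg h0 h1 hU0 hrel n
  obtain ⟨Q, hQ⟩ : ∃ Q : ℕ → PowerSeries ℂ, Q = fun j =>
    PowerSeries.map f ((H.coeff j : R[X]) : PowerSeries R) := ⟨_, rfl⟩
  have hQc : ∀ j k, PowerSeries.coeff k (Q j) = f ((H.coeff j).coeff k) := by
    intro j k
    rw [hQ, PowerSeries.coeff_map, Polynomial.coeff_coe]
  obtain ⟨V, hV⟩ : ∃ V : PowerSeries ℂ, V = PowerSeries.map f U := ⟨_, rfl⟩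
  have hVc : ∀ k, PowerSeries.coeff k V = f (PowerSeries.coeff k U) := by
    intro k
    rw [hV, PowerSeries.coeff_map]
  have hN : 1 ≤ H.natDegree := by
    by_contra hcon
    have h2 : H.coeff 1 = 0 := coeff_eq_zero_of_natDegree_lt (by omega)
    rw [h2, coeff_zero] at h1
    have h3 := congrArg f h1
    rw [map_zero, map_one] at h3
    exact zero_ne_one h3
  obtain ⟨M, hM⟩ : ∃ M, H.natDegree = M + 1 := ⟨H.natDegree - 1, by omega⟩
  have hrel' : ∑ j ∈ Finset.range (M + 2), Q j * V ^ j = 0 := by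
    have h2 := congrArg (PowerSeries.map f) hrel
    rw [map_sum, map_zero, hM] at h2
    rw [← h2]
    refine Finset.sum_congr rfl fun j _ => ?_
    rw [map_mul, map_pow, hQ, hV]
  have key : ∀ m, GeoHen_T r m V ≤ s := by
    intro m
    induction m with
    | zero =>
      unfold GeoHen_T
      rw [Finset.sum_range_one, hVc, hU0, map_zero, norm_zero, zero_mul]
      exact hs0.le
    | succ m ih =>
      refine (GeoHen_step hr0.le hr1 hs0.le hs1 (by linarith : 0 ≤ B') (by omega : M ≤ J)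
        (fun j k => by rw [hQc]; exact (hb j k).trans hBB)
        (fun j k hk => by
          rw [hQc, coeff_eq_zero_of_natDegree_lt (lt_of_le_of_lt (hdeg j) hk), map_zero])
        (by rw [hQc, h0, map_zero]) (by rw [hQc, h1, map_one]) (by rw [hVc, hU0, map_zero]) hrel' ih).trans ?_
      rw [← hK]
      have e1 : K * s ^ 2 = s / 2 := by
        calc K * s ^ 2 = (K * s) * s := by ring
          _ = s / 2 := by rw [hKs]; ring
      rw [hKr, e1]
      linarith
  have h2 : ‖PowerSeries.coeff n V‖ * r ^ n ≤ 1 := by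
    refine le_trans ?_ ((key n).trans hs1)
    unfold GeoHen_T
    exact Finset.single_le_sum (f := fun k => ‖PowerSeries.coeff k V‖ * r ^ k)
      (fun k _ => mul_nonneg (norm_nonneg _) (pow_nonneg hr0.le _)) (Finset.mem_range.2 (Nat.lt_succ_self n))
  rw [← hVc, div_pow, one_pow, le_div_iff₀ (pow_pos hr0 n)]
  exact h2

end Pool.Agent.LGO.RU
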