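import Mathlib
import Pool.Agent.LGO.RU.GeoHen
import Pool.Agent.LGO.RU.GeoCls

/-!
# LGO/RU, geometric input: the series `W = η t ^ h`

`P = Y ^ e + ∑_(l < e) p_l(X) Y ^ l` with algebraic coefficients, all weights `e k + h l ≤ e h`, `e`, `h` coprime, the coefficient `-c` of `X ^ h Y ^ 0` is not
`0`.  `G(t, W) = Tw e h (e h) P W = W ^ e - c + t (..)`: the only terms of weight `e h` are `Y ^ e` and `X ^ h` (coprime).
PROOF of `exists_W`.  `A₀` = a positive integer such that the `A₀ p` are integral; replacing `Y` by `Y / A₀`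
(`A₀ ^ (e - l) p_(l,k)` integral) one may assume that the coefficients are algebraic integers.  `K` = the field generated by
the coefficients and `w₀`, `w₀ ^ e = c`; `R` = the ring of the algebraic integers in `K` (a subring of `ℂ`).  `d = e w₀ ^ (e - 1) ∈ R`,
`d ≠ 0`.  `G(d² τ, w₀ + d U) = d² H(τ, U)` with `H ∈ R[τ][U]`, `H(0, 0) = 0`, `∂_U H(0, 0) = 1` (Taylor expansion).  `exists_U`, `grow` (all
`σ : ℂ →+* ℂ` restricted to `R`; the conjugates of the coefficients of `H` are bounded, `alg_bd`): `U = ∑ u_n τ ^ n`,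
`W(t) = w₀ + d U(t / d²)`, `w_n = u_n d ^ (1 - 2 n)`; `eis`: a positive integer `A` which is a multiple of `d²` in the algebraic integers;
`gro`: `|σ(d)| ≥ 1 / B` (`alg_bd` for `d⁻¹`).
-/

namespace Pool.Agent.LGO.RU

open Polynomial Pool.Agent.LGO

/-- a larger field -/
theorem exists_fld (s : Finset ℂ) (hs : ∀ x ∈ s, IsAlgebraic ℚ x) (K : IntermediateField ℚ ℂ)
    [FiniteDimensional ℚ K] : ∃ K' : IntermediateField ℚ ℂ, FiniteDimensional ℚ K' ∧ K ≤ K' ∧
      ∀ x ∈ s, x ∈ K' := by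
  have h1 : FiniteDimensional ℚ (IntermediateField.adjoin ℚ (s : Set ℂ)) :=
    IntermediateField.finiteDimensional_adjoin fun x hx => (hs x hx).isIntegral
  refine ⟨K ⊔ IntermediateField.adjoin ℚ (s : Set ℂ), IntermediateField.finiteDimensional_sup _ _,
    le_sup_left, fun x hx => ?_⟩
  exact (le_sup_right : _ ≤ K ⊔ IntermediateField.adjoin ℚ (s : Set ℂ))
    (IntermediateField.subset_adjoin ℚ _ hx)

/-- a common denominator -/
private theorem GeoW_den {K : IntermediateField ℚ ℂ} [FiniteDimensional ℚ K] (s : Finset ℂ)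
    (hs : ∀ x ∈ s, x ∈ K) : ∃ N : ℕ, 0 < N ∧ ∀ x ∈ s, IsIntegral ℤ ((N : ℂ) * x) := by
  classical
  induction s using Finset.induction_on with
  | empty => exact ⟨1, one_pos, fun x hx => absurd hx (Finset.notMem_empty x)⟩
  | insert a s ha ih =>
    obtain ⟨N, hN, hi⟩ := ih fun x hx => hs x (Finset.mem_insert_of_mem hx)
    obtain ⟨A, hA, hAi⟩ := (alg_bd (hs a (Finset.mem_insert_self a s))).1
    have hnat : ∀ n : ℕ, IsIntegral ℤ (n : ℂ) := fun n => by
      have := isIntegral_algebraMap (R := ℤ) (A := ℂ) (x := (n : ℤ))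
      simpa using this
    refine ⟨N * A, mul_pos hN hA, fun x hx => ?_⟩
    rw [Finset.mem_insert] at hx
    push_cast
    rcases hx with rfl | hx
    · rw [mul_assoc]
      exact (hnat N).mul hAi
    · rw [mul_comm (N : ℂ), mul_assoc]
      exact (hnat A).mul (hi x hx)

/-- a common bound -/
private theorem GeoW_bd {K : IntermediateField ℚ ℂ} [FiniteDimensional ℚ K] (s : Finset ℂ)
    (hs : ∀ x ∈ s, x ∈ K) : ∃ B : ℝ, 0 < B ∧ ∀ x ∈ s, ∀ σ : ℂ →+* ℂ, ‖σ x‖ ≤ B := by
  classical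
  induction s using Finset.induction_on with
  | empty => exact ⟨1, one_pos, fun x hx => absurd hx (Finset.notMem_empty x)⟩
  | insert a s ha ih =>
    obtain ⟨B, hB, hi⟩ := ih fun x hx => hs x (Finset.mem_insert_of_mem hx)
    obtain ⟨B', hB', hi'⟩ := (alg_bd (hs a (Finset.mem_insert_self a s))).2
    refine ⟨max B B', lt_max_of_lt_left hB, fun x hx σ => ?_⟩
    rw [Finset.mem_insert] at hx
    rcases hx with rfl | hx
    · exact (hi' σ).trans (le_max_right _ _)
    · exact (hi x hx σ).trans (le_max_left _ _)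

/-- the coefficients -/
private noncomputable def GeoW_co (Q : ℂ[X][X]) : Finset ℂ :=
  letI := Classical.decEq ℂ
  Q.support.biUnion fun j => (Q.coeff j).support.image fun i => (Q.coeff j).coeff i

private theorem GeoW_mem (Q : ℂ[X][X]) (j i : ℕ) :
    (Q.coeff j).coeff i = 0 ∨ (Q.coeff j).coeff i ∈ GeoW_co Q := by
  classical
  by_cases h : (Q.coeff j).coeff i = 0
  · exact Or.inl h
  · refine Or.inr ?_
    unfold GeoW_co
    rw [Finset.mem_biUnion]
    have hj : Q.coeff j ≠ 0 := fun h0 => h (by rw [h0, coeff_zero])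
    refine ⟨j, mem_support_iff.2 hj, ?_⟩
    rw [Finset.mem_image]
    exact ⟨i, mem_support_iff.2 h, rfl⟩

private theorem GeoW_of_mem (Q : ℂ[X][X]) {x : ℂ} (hx : x ∈ GeoW_co Q) :
    ∃ j i, x = (Q.coeff j).coeff i := by
  classical
  unfold GeoW_co at hx
  rw [Finset.mem_biUnion] at hx
  obtain ⟨j, _, hx⟩ := hx
  rw [Finset.mem_image] at hx
  obtain ⟨i, _, hx⟩ := hx
  exact ⟨j, i, hx.symm⟩

/-- `t ^ w P(t ^ (-e), t ^ (-h) W)` as a polynomial in `t` and `W` -/
private noncomputable def GeoW_G (e h w : ℕ) (P : ℂ[X][X]) : ℂ[X][X] :=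
  ∑ l ∈ P.support, ∑ k ∈ (P.coeff l).support,
    C (C ((P.coeff l).coeff k) * X ^ (w - (e * k + h * l))) * X ^ l

private theorem GeoW_tw (e h w : ℕ) (P : ℂ[X][X]) (W : PowerSeries ℂ) :
    Tw e h w P W = (GeoW_G e h w P).eval₂ (Polynomial.coeToPowerSeries.ringHom (R := ℂ)) W := by
  unfold Tw GeoW_G
  rw [eval₂_finsetSum]
  refine Finset.sum_congr rfl fun l _ => ?_
  rw [eval₂_finsetSum]
  refine Finset.sum_congr rfl fun k _ => ?_
  rw [eval₂_mul, eval₂_C, eval₂_X_pow, Polynomial.coeToPowerSeries.ringHom_apply, Polynomial.coe_mul,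
    Polynomial.coe_C, Polynomial.coe_pow, Polynomial.coe_X]

private theorem GeoW_coeff (e h w : ℕ) (P : ℂ[X][X]) (l : ℕ) : (GeoW_G e h w P).coeff l =
    ∑ k ∈ (P.coeff l).support, C ((P.coeff l).coeff k) * X ^ (w - (e * k + h * l)) := by
  unfold GeoW_G
  rw [finsetSum_coeff]
  have h1 : ∀ b ∈ P.support, (∑ k ∈ (P.coeff b).support,
      C (C ((P.coeff b).coeff k) * X ^ (w - (e * k + h * b))) * X ^ b : ℂ[X][X]).coeff l =
      if b = l then ∑ k ∈ (P.coeff b).support, C ((P.coeff b).coeff k) * X ^ (w - (e * k + h * b))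
        else 0 := by
    intro b _
    rw [finsetSum_coeff]
    split_ifs with hb
    · refine Finset.sum_congr rfl fun k _ => ?_
      rw [coeff_C_mul_X_pow, if_pos hb.symm]
    · refine Finset.sum_eq_zero fun k _ => ?_
      rw [coeff_C_mul_X_pow, if_neg (Ne.symm hb)]
  rw [Finset.sum_congr rfl h1, Finset.sum_ite_eq']
  split_ifs with hl
  · rfl
  · rw [notMem_support_iff.1 hl]
    simp

/-- the polynomial at `t = 0` -/
private theorem GeoW_zero {e h : ℕ} (he : 0 < e) (hc : Nat.Coprime e h) {P : ℂ[X][X]}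
    (hm : P.Monic) (hd : P.natDegree = e) (hw : Wt e h (e * h) P) :
    (GeoW_G e h (e * h) P).map (Polynomial.evalRingHom (0 : ℂ)) = X ^ e + C ((P.coeff 0).coeff h) := by
  ext l
  rw [coeff_map, coeff_add, coeff_X_pow, coeff_C, GeoW_coeff, coe_evalRingHom, eval_finsetSum]
  have h1 : ∀ k ∈ (P.coeff l).support, eval 0 (C ((P.coeff l).coeff k) * X ^ (e * h - (e * k + h * l)) : ℂ[X]) =
      if e * k + h * l = e * h then (P.coeff l).coeff k else 0 := by
    intro k hk
    have h2 := hw l k (mem_support_iff.1 hk)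
    rw [eval_mul, eval_C, eval_pow, eval_X]
    split_ifs with h3
    · rw [h3, Nat.sub_self, pow_zero, mul_one]
    · rw [zero_pow (by omega), mul_zero]
  rw [Finset.sum_congr rfl h1]
  have hdvd : ∀ k, e * k + h * l = e * h → e ∣ l := by
    intro k hk
    have h2 : e ∣ h * l := by
      have h3 : h * l = e * h - e * k := by omega
      rw [h3]
      exact Nat.dvd_sub (dvd_mul_right _ _) (dvd_mul_right _ _)
    exact hc.dvd_of_dvd_mul_left h2
  rcases lt_trichotomy l e with hl | hl | hl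
  · rcases Nat.eq_zero_or_pos l with h0 | h0
    · subst h0
      rw [if_neg he.ne, if_pos rfl, zero_add]
      rw [Finset.sum_eq_single h]
      · rw [mul_zero, add_zero, if_pos rfl]
      · intro k _ hk
        rw [if_neg]
        rw [mul_zero, add_zero]
        intro h2
        exact hk (Nat.eq_of_mul_eq_mul_left he h2)
      · intro h2
        rw [notMem_support_iff.1 h2]
        simp
    · rw [if_neg hl.ne, if_neg h0.ne', add_zero]
      refine Finset.sum_eq_zero fun k _ => ?_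
      rw [if_neg]
      intro h2
      exact absurd (Nat.le_of_dvd h0 (hdvd k h2)) (by omega)
  · subst hl
    rw [if_pos rfl, if_neg he.ne', add_zero]
    have hP : P.coeff l = 1 := by
      have := hm.coeff_natDegree
      rwa [hd] at this
    rw [hP, Finset.sum_eq_single 0]
    · rw [mul_zero, zero_add, mul_comm, if_pos rfl, coeff_one_zero]
    · intro k _ hk
      rw [coeff_one, if_neg hk]
      simp
    · intro h2
      rw [notMem_support_iff.1 h2]
      simp
  · rw [if_neg hl.ne', if_neg (by omega), add_zero, coeff_eq_zero_of_natDegree_lt (by omega)]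
    simp

/-- the coefficients of `Q(t, w + w₀)` lie in the field -/
private theorem GeoW_comp {K : IntermediateField ℚ ℂ} {Q : ℂ[X][X]} (hQ : FldP K Q) {w₀ : ℂ}
    (hw : w₀ ∈ K) : FldP K (Q.comp (X + C (C w₀))) := by
  have h1 : Q ∈ lifts (mapRingHom (algebraMap K ℂ)) := by
    rw [lifts_iff_coeff_lifts]
    intro l
    have h2 : Q.coeff l ∈ lifts (algebraMap K ℂ) := by
      rw [lifts_iff_coeff_lifts]
      intro k
      exact ⟨⟨_, hQ l k⟩, rfl⟩
    exact h2
  obtain ⟨Q', hQ'⟩ := h1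
  rw [coe_mapRingHom] at hQ'
  intro l k
  have h3 : Q.comp (X + C (C w₀)) = (Q'.comp (X + C (C ⟨w₀, hw⟩))).map (mapRingHom (algebraMap K ℂ)) := by
    rw [map_comp, hQ', Polynomial.map_add, map_X, map_C, coe_mapRingHom, map_C]
    rfl
  rw [h3, coeff_map, coe_mapRingHom, coeff_map]
  exact (((Q'.comp (X + C (C ⟨w₀, hw⟩))).coeff l).coeff k).2

/-- scaled coefficients -/
private noncomputable def GeoW_H (g : ℂ) (N : ℕ) (Q : ℂ[X][X]) : ℂ[X][X] :=
  ∑ j ∈ Q.support, monomial j (∑ i ∈ (Q.coeff j).support,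
    monomial i ((Q.coeff j).coeff i * g⁻¹ * (N : ℂ) ^ (2 * i + j - 1)))

private theorem GeoW_Hc (g : ℂ) (N : ℕ) (Q : ℂ[X][X]) (j i : ℕ) :
    ((GeoW_H g N Q).coeff j).coeff i = (Q.coeff j).coeff i * g⁻¹ * (N : ℂ) ^ (2 * i + j - 1) := by
  unfold GeoW_H
  rw [finsetSum_coeff]
  simp only [coeff_monomial]
  rw [Finset.sum_ite_eq']
  split_ifs with hj
  · rw [finsetSum_coeff]
    simp only [coeff_monomial]
    rw [Finset.sum_ite_eq']
    split_ifs with hi
    · rfl
    · rw [notMem_support_iff.1 hi, zero_mul, zero_mul]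
  · rw [notMem_support_iff.1 hj]
    simp

private theorem GeoW_Heval {g : ℂ} (hg : g ≠ 0) {N : ℕ} (hN : 0 < N) {Q : ℂ[X][X]}
    (h0 : (Q.coeff 0).coeff 0 = 0) (V : PowerSeries ℂ) :
    PowerSeries.C (g * N) * (GeoW_H g N Q).eval₂ ((PowerSeries.rescale (((N : ℂ) ^ 2)⁻¹)).comp
      (Polynomial.coeToPowerSeries.ringHom (R := ℂ))) V =
    Q.eval₂ (Polynomial.coeToPowerSeries.ringHom (R := ℂ)) (PowerSeries.C (N : ℂ) * V) := by
  have hN0 : (N : ℂ) ≠ 0 := by exact_mod_cast hN.ne'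
  conv_rhs => rw [Q.as_sum_support]
  unfold GeoW_H
  rw [eval₂_finsetSum, eval₂_finsetSum, Finset.mul_sum]
  refine Finset.sum_congr rfl fun j _ => ?_
  rw [eval₂_monomial, eval₂_monomial, mul_pow, ← mul_assoc, ← mul_assoc]
  congr 1
  ext i
  rw [PowerSeries.coeff_C_mul, RingHom.comp_apply, PowerSeries.coeff_rescale,
    Polynomial.coeToPowerSeries.ringHom_apply, Polynomial.coeff_coe, finsetSum_coeff,
    ← map_pow, mul_comm _ (PowerSeries.C _), PowerSeries.coeff_C_mul,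
    Polynomial.coeToPowerSeries.ringHom_apply, Polynomial.coeff_coe]
  simp only [coeff_monomial]
  rw [Finset.sum_ite_eq']
  have h1 : (if i ∈ (Q.coeff j).support then (Q.coeff j).coeff i * g⁻¹ * (N : ℂ) ^ (2 * i + j - 1) else 0) =
      (Q.coeff j).coeff i * g⁻¹ * (N : ℂ) ^ (2 * i + j - 1) := by
    split_ifs with hi
    · rfl
    · rw [notMem_support_iff.1 hi, zero_mul, zero_mul]
  rw [h1]
  rcases Nat.eq_zero_or_pos (2 * i + j) with h2 | h2
  · obtain ⟨rfl, rfl⟩ : i = 0 ∧ j = 0 := by omega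
    rw [h0]
    simp
  · have h3 : (N : ℂ) ^ (2 * i) * (N : ℂ) ^ j = N * (N : ℂ) ^ (2 * i + j - 1) := by
      rw [← pow_add, ← pow_succ']
      congr 1
      omega
    rw [inv_pow, ← pow_mul]
    field_simp
    linear_combination (-(Q.coeff j).coeff i) * h3

private theorem GeoW_poly {R : Type} [CommRing R] (f : R →+* ℂ) (H : R[X][X]) (U : PowerSeries R) :
    PowerSeries.map f (∑ j ∈ Finset.range (H.natDegree + 1), ((H.coeff j : R[X]) : PowerSeries R) * U ^ j) =
      (H.map (mapRingHom f)).eval₂ (Polynomial.coeToPowerSeries.ringHom (R := ℂ)) (PowerSeries.map f U) := by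
  rw [eval₂_map, eval₂_eq_sum_range, map_sum]
  refine Finset.sum_congr rfl fun j _ => ?_
  rw [map_mul, map_pow, RingHom.comp_apply, Polynomial.coeToPowerSeries.ringHom_apply, coe_mapRingHom,
    Polynomial.polynomial_map_coe]

/-- the main step: Hensel over the integers of a number field -/
private theorem GeoW_main {K : IntermediateField ℚ ℂ} [FiniteDimensional ℚ K] {Q : ℂ[X][X]}
    (hQ : FldP K Q) (h0 : (Q.coeff 0).coeff 0 = 0) (h1 : (Q.coeff 1).coeff 0 ≠ 0) :
    ∃ V : PowerSeries ℂ, Gd K V ∧ PowerSeries.coeff 0 V = 0 ∧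
      Q.eval₂ (Polynomial.coeToPowerSeries.ringHom (R := ℂ)) V = 0 := by
  obtain ⟨g, hg⟩ : ∃ g, g = (Q.coeff 1).coeff 0 := ⟨_, rfl⟩
  have hg0 : g ≠ 0 := by rw [hg]; exact h1
  have hgK : g⁻¹ ∈ K := inv_mem (by rw [hg]; exact hQ 1 0)
  -- the denominator
  obtain ⟨N, hN, hNi⟩ := GeoW_den (K := K) (GeoW_co (C (C g⁻¹) * Q)) (by
    intro x hx
    obtain ⟨j, i, rfl⟩ := GeoW_of_mem _ hx
    rw [coeff_C_mul, coeff_C_mul]
    exact mul_mem hgK (hQ j i))
  have hNi' : ∀ j i, IsIntegral ℤ ((N : ℂ) * (g⁻¹ * (Q.coeff j).coeff i)) := by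
    intro j i
    have h2 := GeoW_mem (C (C g⁻¹) * Q) j i
    rw [coeff_C_mul, coeff_C_mul] at h2
    rcases h2 with h2 | h2
    · rw [h2, mul_zero]
      exact isIntegral_zero
    · exact hNi _ h2
  have hN0 : (N : ℂ) ≠ 0 := by exact_mod_cast hN.ne'
  have hnat : ∀ n : ℕ, IsIntegral ℤ (n : ℂ) := fun n => by
    have := isIntegral_algebraMap (R := ℤ) (A := ℂ) (x := (n : ℤ))
    simpa using this
  -- the ring
  obtain ⟨R, hR⟩ : ∃ R : Subring ℂ, R = (integralClosure ℤ ℂ).toSubring ⊓ K.toSubring := ⟨_, rfl⟩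
  have hRm : ∀ x : ℂ, x ∈ R ↔ IsIntegral ℤ x ∧ x ∈ K := by
    intro x
    rw [hR, Subring.mem_inf]
    exact Iff.rfl
  have hHR : ∀ j i, ((GeoW_H g N Q).coeff j).coeff i ∈ R := by
    intro j i
    rw [hRm, GeoW_Hc]
    constructor
    · rcases Nat.eq_zero_or_pos (2 * i + j - 1) with h2 | h2
      · rw [h2, pow_zero, mul_one]
        obtain ⟨rfl, h3⟩ : i = 0 ∧ (j = 0 ∨ j = 1) := by omega
        rcases h3 with rfl | rfl
        · rw [h0, zero_mul]
          exact isIntegral_zero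
        · rw [← hg, mul_inv_cancel₀ hg0]
          exact isIntegral_one
      · obtain ⟨m, hm⟩ := Nat.exists_eq_add_of_lt h2
        rw [zero_add] at hm
        rw [hm]
        have h3 : (Q.coeff j).coeff i * g⁻¹ * (N : ℂ) ^ (m + 1) =
            ((N : ℂ) * (g⁻¹ * (Q.coeff j).coeff i)) * (N : ℂ) ^ m := by ring
        rw [h3]
        exact (hNi' j i).mul ((hnat N).pow m)
    · exact mul_mem (mul_mem (hQ j i) hgK) (pow_mem (natCast_mem K N) _)
  obtain ⟨H, hH⟩ : ∃ H : R[X][X], H.map (mapRingHom R.subtype) = GeoW_H g N Q := by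
    have h1 : GeoW_H g N Q ∈ lifts (mapRingHom R.subtype) := by
      rw [lifts_iff_coeff_lifts]
      intro l
      have h2 : (GeoW_H g N Q).coeff l ∈ lifts R.subtype := by
        rw [lifts_iff_coeff_lifts]
        intro k
        exact ⟨⟨_, hHR l k⟩, rfl⟩
      exact h2
    obtain ⟨H, hH⟩ := h1
    exact ⟨H, hH⟩
  have hHc : ∀ j i, (((H.coeff j).coeff i : R) : ℂ) = (Q.coeff j).coeff i * g⁻¹ * (N : ℂ) ^ (2 * i + j - 1) := by
    intro j i
    rw [← GeoW_Hc, ← hH, coeff_map, coe_mapRingHom, coeff_map]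
    rfl
  have a0 : (H.coeff 0).coeff 0 = 0 := by
    apply Subtype.ext
    rw [hHc, h0]
    simp
  have a1 : (H.coeff 1).coeff 0 = 1 := by
    apply Subtype.ext
    rw [hHc, ← hg, mul_inv_cancel₀ hg0]
    simp
  obtain ⟨U, hU0, hU⟩ := exists_U H a0 a1
  -- the bounds
  obtain ⟨B, hB, hBσ⟩ := GeoW_bd (K := K) (GeoW_co (GeoW_H g N Q)) (by
    intro x hx
    obtain ⟨j, i, rfl⟩ := GeoW_of_mem _ hx
    exact ((hRm _).1 (hHR j i)).2)
  obtain ⟨J, hJ⟩ : ∃ J, J = H.natDegree + ∑ j ∈ Finset.range (H.natDegree + 1), (H.coeff j).natDegree :=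
    ⟨_, rfl⟩
  have hJ1 : H.natDegree ≤ J := by omega
  have hJ2 : ∀ j, (H.coeff j).natDegree ≤ J := by
    intro j
    by_cases hj : j ∈ Finset.range (H.natDegree + 1)
    · have h2 : (H.coeff j).natDegree ≤ ∑ j ∈ Finset.range (H.natDegree + 1), (H.coeff j).natDegree :=
        Finset.single_le_sum (f := fun j => (H.coeff j).natDegree) (fun _ _ => Nat.zero_le _) hj
      omega
    · rw [Finset.mem_range, not_lt] at hj
      rw [coeff_eq_zero_of_natDegree_lt (by omega), natDegree_zero]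
      exact Nat.zero_le _
  obtain ⟨D, hD, hDσ⟩ := grow B J
  have hgr : ∀ (σ : ℂ →+* ℂ) (n : ℕ), ‖σ (PowerSeries.coeff n U : R)‖ ≤ D ^ n := by
    intro σ n
    have h2 := hDσ R (σ.comp R.subtype) H U (by
      intro j i
      have h3 : (σ.comp R.subtype) ((H.coeff j).coeff i) = σ (((GeoW_H g N Q).coeff j).coeff i) := by
        rw [RingHom.comp_apply, GeoW_Hc, ← hHc]
        rfl
      rw [h3]
      rcases GeoW_mem (GeoW_H g N Q) j i with h4 | h4
      · rw [h4, map_zero, norm_zero]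
        exact hB.le
      · exact hBσ _ h4 σ) hJ1 hJ2 a0 a1 hU0 hU n
    exact h2
  -- the series
  obtain ⟨V₁, hV₁⟩ : ∃ V₁ : PowerSeries ℂ, V₁ = PowerSeries.rescale (((N : ℂ) ^ 2)⁻¹)
      (PowerSeries.map R.subtype U) := ⟨_, rfl⟩
  have hV₁c : ∀ n, PowerSeries.coeff n V₁ = (((N : ℂ) ^ 2)⁻¹) ^ n * (PowerSeries.coeff n U : R) := by
    intro n
    rw [hV₁, PowerSeries.coeff_rescale, PowerSeries.coeff_map]
    rfl
  have hGd : Gd K V₁ := by
    refine ⟨fun n => ?_, ⟨N ^ 2, by positivity, fun n => ?_⟩, ⟨1 + D, by positivity, fun σ n => ?_⟩⟩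
    · rw [hV₁c]
      exact mul_mem (pow_mem (inv_mem (pow_mem (natCast_mem K N) _)) _) ((hRm _).1 (PowerSeries.coeff n U).2).2
    · rw [hV₁c]
      have h2 : (((N ^ 2 : ℕ) : ℂ)) ^ (n + 1) * ((((N : ℂ) ^ 2)⁻¹) ^ n * (PowerSeries.coeff n U : R)) =
          (N : ℂ) ^ 2 * (PowerSeries.coeff n U : R) := by
        push_cast
        rw [pow_succ, inv_pow]
        field_simp
      rw [h2]
      exact ((hnat N).pow 2).mul ((hRm _).1 (PowerSeries.coeff n U).2).1
    · rw [hV₁c, map_mul, norm_mul]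
      have h2 : ‖σ ((((N : ℂ) ^ 2)⁻¹) ^ n)‖ ≤ 1 := by
        rw [map_pow, map_inv₀, map_pow, map_natCast, norm_pow, norm_inv, norm_pow, Complex.norm_natCast]
        refine pow_le_one₀ (by positivity) ?_
        refine inv_le_one_of_one_le₀ (one_le_pow₀ ?_)
        exact_mod_cast hN
      calc ‖σ ((((N : ℂ) ^ 2)⁻¹) ^ n)‖ * ‖σ (PowerSeries.coeff n U : R)‖ ≤ 1 * D ^ n :=
            mul_le_mul h2 (hgr σ n) (norm_nonneg _) zero_le_one
        _ = D ^ n := one_mul _
        _ ≤ (1 + D) ^ n := pow_le_pow_left₀ hD.le (by linarith) n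
        _ ≤ (1 + D) ^ (n + 1) := pow_le_pow_right₀ (by linarith) (Nat.le_succ n)
  refine ⟨PowerSeries.C (N : ℂ) * V₁, (gd_C (natCast_mem K N)).mul hGd, ?_, ?_⟩
  · rw [PowerSeries.coeff_C_mul, hV₁c, hU0]
    simp
  · rw [← GeoW_Heval hg0 hN h0 V₁]
    have h2 : (GeoW_H g N Q).eval₂ ((PowerSeries.rescale (((N : ℂ) ^ 2)⁻¹)).comp
        (Polynomial.coeToPowerSeries.ringHom (R := ℂ))) V₁ = 0 := by
      have h3 := GeoW_poly R.subtype H U
      rw [hU, map_zero, hH] at h3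
      rw [hV₁, ← hom_eval₂, ← h3, map_zero]
    rw [h2, mul_zero]

theorem exists_W {e h : ℕ} (he : 0 < e) (hh : 0 < h) (hc : Nat.Coprime e h) {P : ℂ[X][X]}
    (hm : P.Monic) (hd : P.natDegree = e) (hw : Wt e h (e * h) P) (ht : (P.coeff 0).coeff h ≠ 0)
    (ha : ∀ l k, IsAlgebraic ℚ ((P.coeff l).coeff k)) :
    ∃ (K : IntermediateField ℚ ℂ) (W : PowerSeries ℂ), FiniteDimensional ℚ K ∧ FldP K P ∧ Gd K W ∧
      PowerSeries.coeff 0 W ≠ 0 ∧ Tw e h (e * h) P W = 0 := by
  classical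
  obtain ⟨w₀, hw₀⟩ := IsAlgClosed.exists_pow_nat_eq (-(P.coeff 0).coeff h) he
  have hw0 : w₀ ≠ 0 := by
    rintro rfl
    rw [zero_pow he.ne'] at hw₀
    exact ht (neg_eq_zero.1 hw₀.symm)
  have hwa : IsAlgebraic ℚ w₀ := by
    have h1 : IsAlgebraic ℚ (w₀ ^ e) := by
      rw [hw₀]
      exact (ha 0 h).neg
    exact IsAlgebraic.of_pow he h1
  have hbot : FiniteDimensional ℚ (⊥ : IntermediateField ℚ ℂ) := inferInstance
  obtain ⟨K, hK, -, hKs⟩ := exists_fld (insert w₀ (GeoW_co P)) (by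
    intro x hx
    rw [Finset.mem_insert] at hx
    rcases hx with rfl | hx
    · exact hwa
    · obtain ⟨j, i, rfl⟩ := GeoW_of_mem _ hx
      exact ha j i) ⊥
  have hPK : FldP K P := by
    intro l k
    rcases GeoW_mem P l k with h1 | h1
    · rw [h1]
      exact zero_mem K
    · exact hKs _ (Finset.mem_insert_of_mem h1)
  have hwK : w₀ ∈ K := hKs _ (Finset.mem_insert_self _ _)
  have hGK : FldP K (GeoW_G e h (e * h) P) := by
    intro l k
    rw [GeoW_coeff, finsetSum_coeff]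
    refine sum_mem fun i _ => ?_
    rw [coeff_C_mul_X_pow]
    split_ifs
    · exact hPK l i
    · exact zero_mem K
  obtain ⟨Q, hQ⟩ : ∃ Q : ℂ[X][X], Q = (GeoW_G e h (e * h) P).comp (X + C (C w₀)) := ⟨_, rfl⟩
  have hQK : FldP K Q := by
    rw [hQ]
    exact GeoW_comp hGK hwK
  -- at `t = 0`
  have hQ0 : Q.map (Polynomial.evalRingHom (0 : ℂ)) = (X + C w₀) ^ e + C ((P.coeff 0).coeff h) := by
    rw [hQ, map_comp, GeoW_zero he hc hm hd hw, Polynomial.map_add, map_X, map_C]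
    simp
  have hQc : ∀ l, (Q.coeff l).coeff 0 = ((X + C w₀) ^ e + C ((P.coeff 0).coeff h) : ℂ[X]).coeff l := by
    intro l
    rw [← hQ0, coeff_map, coe_evalRingHom, coeff_zero_eq_eval_zero]
  have b0 : (Q.coeff 0).coeff 0 = 0 := by
    rw [hQc, coeff_zero_eq_eval_zero]
    simp [hw₀]
  have b1 : (Q.coeff 1).coeff 0 ≠ 0 := by
    rw [hQc, coeff_add, coeff_C_of_ne_zero one_ne_zero, add_zero, coeff_X_add_C_pow, Nat.choose_one_right]
    refine mul_ne_zero (pow_ne_zero _ hw0) ?_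
    exact_mod_cast he.ne'
  obtain ⟨V, hV, hV0, hVe⟩ := GeoW_main hQK b0 b1
  refine ⟨K, V + PowerSeries.C w₀, hK, hPK, hV.add (gd_C hwK), ?_, ?_⟩
  · rw [map_add, hV0, zero_add, PowerSeries.coeff_zero_C]
    exact hw0
  · rw [GeoW_tw]
    rw [hQ, eval₂_comp] at hVe
    rw [eval₂_add, eval₂_X, eval₂_C, Polynomial.coeToPowerSeries.ringHom_apply, Polynomial.coe_C] at hVe
    exact hVe

end Pool.Agent.LGO.RU
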