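import Mathlib
import Pool.Agent.LGO.RU.GeoV
import Pool.Agent.LGO.RU.GeoOm
import Pool.Agent.LGO.RU.GeoLoc
import Pool.Agent.LGO.RU.GeoW
import Pool.Agent.LGO.RU.GeoIrr
import Pool.Agent.LGO.PA.Crit

/-!
# LGO/RU, geometric input: scaling, final form

`K` contains the coefficients of `P`, `M`, `N_c` and of `W` (`exists_W`, `exists_fld`).  `om_a`, `om_b` (`exists_om`).  `A` = a common multiple of the integers in
`Gd.eis` of `W`, `om_a`, `om_b`, `Nt_a⁻¹`, `Nt_b⁻¹` and of denominators of the coefficients of `P`; `C₀` the maximum of the constants in `Gd.gro`.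
`Fx' = A ^ e Fx`, `Fy' = A ^ (h + 1) Fy`, `P'(X, Y) = A ^ (e (h + 1)) P(X / A ^ e, Y / A ^ (h + 1))`, `M'(X) = M(X / A ^ e)`,
`N'(X, Y) = N(X / A ^ e, Y / A ^ (h + 1))`, `W'(t) = A W(A t)`, `oa' = A ^ ma om_a(A t)`, `τ' = τ / A`.
-/

namespace Pool.Agent.LGO.RU

open Polynomial Pool.Agent.LGO Pool.Agent.Hhelper14.ZPL Pool.Agent.Hhelper14.ZP

/-- `γ Q(X / α, Y / β)` -/
noncomputable def scl {F : Type} [Field F] (α β γ : F) (Q : F[X][X]) : F[X][X] :=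
  C (C γ) * (Q.map (compRingHom (C α⁻¹ * X))).comp (C (C β⁻¹) * X)

theorem scl_coeff {F : Type} [Field F] (α β γ : F) (Q : F[X][X]) (l k : ℕ) :
    ((scl α β γ Q).coeff l).coeff k = γ * β⁻¹ ^ l * α⁻¹ ^ k * (Q.coeff l).coeff k := by
  rw [scl, coeff_C_mul, comp_C_mul_X_coeff, coeff_map, coe_compRingHom_apply, coeff_C_mul, ← C_pow,
    coeff_mul_C, comp_C_mul_X_coeff]
  ring

theorem scl_eval {F : Type} [Field F] (α β γ : F) (Q : F[X][X]) (x y : F) :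
    (scl α β γ Q).evalEval x y = γ * Q.evalEval (α⁻¹ * x) (β⁻¹ * y) := by
  have h1 : ((Q.map (compRingHom (C α⁻¹ * X))).comp (C (C β⁻¹) * X)).evalEval x y =
      Q.evalEval (α⁻¹ * x) (β⁻¹ * y) := by
    induction Q using Polynomial.induction_on' with
    | add p q hp hq => rw [Polynomial.map_add, add_comp, evalEval_add, evalEval_add, hp, hq]
    | monomial n a =>
      rw [map_monomial, ← C_mul_X_pow_eq_monomial, ← C_mul_X_pow_eq_monomial, mul_comp, C_comp, pow_comp,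
        X_comp, evalEval_mul, evalEval_pow, evalEval_mul, evalEval_C, evalEval_C, evalEval_mul,
        evalEval_C, evalEval_pow, evalEval_X, evalEval_X, eval_C, coe_compRingHom_apply, eval_comp,
        eval_mul, eval_C, eval_X]
  rw [scl, evalEval_mul, h1, evalEval_C, eval_C]

theorem scl_natDegree {F : Type} [Field F] (α β γ : F) (Q : F[X][X]) :
    (scl α β γ Q).natDegree ≤ Q.natDegree := by
  rw [natDegree_le_iff_coeff_eq_zero]
  intro l hl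
  ext k
  rw [scl_coeff, coeff_eq_zero_of_natDegree_lt hl, coeff_zero, mul_zero]

theorem scl_monic {F : Type} [Field F] {α β : F} (hβ : β ≠ 0) {Q : F[X][X]} (hQ : Q.Monic) :
    (scl α β (β ^ Q.natDegree) Q).Monic ∧ (scl α β (β ^ Q.natDegree) Q).natDegree = Q.natDegree := by
  have h1 : (scl α β (β ^ Q.natDegree) Q).coeff Q.natDegree = 1 := by
    ext k
    rw [scl_coeff, hQ.coeff_natDegree, inv_pow, mul_inv_cancel₀ (pow_ne_zero _ hβ), one_mul]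
    rw [coeff_one]
    split_ifs with hk
    · rw [hk, pow_zero, one_mul]
    · rw [mul_zero]
  have h2 : (scl α β (β ^ Q.natDegree) Q).natDegree = Q.natDegree := by
    refine le_antisymm (scl_natDegree _ _ _ _) (le_natDegree_of_ne_zero ?_)
    rw [h1]
    exact one_ne_zero
  refine ⟨?_, h2⟩
  rw [Monic, leadingCoeff, h2, h1]

/-- the scaled power series -/
theorem exists_sc {S : PowerSeries ℂ} {A s : ℕ} (hs : 0 < s)
    (hA : ∀ n, IsIntegral ℤ ((A : ℂ) ^ (n + 1) * PowerSeries.coeff n S)) :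
    ∃ T : PowerSeries OO, ∀ n, ((PowerSeries.coeff n T : OO) : ℂ) =
      (A : ℂ) ^ (n + s) * PowerSeries.coeff n S := by
  have h1 : ∀ n, (A : ℂ) ^ (n + s) * PowerSeries.coeff n S ∈ OO := by
    intro n
    have h2 : (A : ℂ) ^ (n + s) * PowerSeries.coeff n S =
        (A : ℂ) ^ (s - 1) * ((A : ℂ) ^ (n + 1) * PowerSeries.coeff n S) := by
      rw [← mul_assoc, ← pow_add]
      congr 2
      omega
    rw [h2]
    refine OO.mul_mem (OO.pow_mem (natCast_mem OO A) _) ?_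
    exact hA n
  refine ⟨PowerSeries.mk fun n => ⟨_, h1 n⟩, fun n => ?_⟩
  rw [PowerSeries.coeff_mk]

theorem sc_val {E : Type} [NormedField E] (φ : ℂ →+* E) {S : PowerSeries ℂ} {T : PowerSeries OO}
    {A s : ℕ} (hA : 0 < A) (hT : ∀ n, ((PowerSeries.coeff n T : OO) : ℂ) =
      (A : ℂ) ^ (n + s) * PowerSeries.coeff n S) (τ : ℂ) (n : ℕ) :
    φ ((PowerSeries.coeff n T : OO) : ℂ) * φ ((A : ℂ)⁻¹ * τ) ^ n =
      φ ((A : ℂ) ^ s) * (φ (PowerSeries.coeff n S) * φ τ ^ n) := by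
  have hA0 : (A : ℂ) ≠ 0 := Nat.cast_ne_zero.2 hA.ne'
  rw [hT, ← map_pow, ← map_pow, ← map_mul, ← map_mul, ← map_mul]
  congr 1
  rw [mul_pow, pow_add]
  have h1 : (A : ℂ) ^ n * (A : ℂ)⁻¹ ^ n = 1 := by
    rw [← mul_pow, mul_inv_cancel₀ hA0, one_pow]
  calc (A : ℂ) ^ n * (A : ℂ) ^ s * PowerSeries.coeff n S * ((A : ℂ)⁻¹ ^ n * τ ^ n) =
      ((A : ℂ) ^ n * (A : ℂ)⁻¹ ^ n) * ((A : ℂ) ^ s * (PowerSeries.coeff n S * τ ^ n)) := by ring
    _ = _ := by rw [h1, one_mul]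

theorem sc_P {p : ℕ} [Fact p.Prime] {φ : ℂ →+* ℂ_[p]} {S : PowerSeries ℂ} {T : PowerSeries OO}
    {A s : ℕ} (hA : 0 < A) (hT : ∀ n, ((PowerSeries.coeff n T : OO) : ℂ) =
      (A : ℂ) ^ (n + s) * PowerSeries.coeff n S) {τ y : ℂ} (hy : φ y = evE φ S (φ τ)) :
    ValP φ T ((A : ℂ)⁻¹ * τ) ((A : ℂ) ^ s * y) := by
  rw [ValP, map_mul, hy, PA.ev, evE, ← tsum_mul_left]
  refine tsum_congr fun n => ?_
  exact (sc_val φ hA hT τ n).symm

theorem sc_C {σ : ℂ →+* ℂ} {S : PowerSeries ℂ} {T : PowerSeries OO}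
    {A s : ℕ} (hA : 0 < A) (hT : ∀ n, ((PowerSeries.coeff n T : OO) : ℂ) =
      (A : ℂ) ^ (n + s) * PowerSeries.coeff n S) {τ y : ℂ} (hy : σ y = evE σ S (σ τ))
    (hcv : Cv σ S (σ τ)) : ValC σ T ((A : ℂ)⁻¹ * τ) ((A : ℂ) ^ s * y) := by
  rw [ValC, map_mul σ ((A : ℂ) ^ s) y, hy]
  have h1 : HasSum (fun n => σ (PowerSeries.coeff n S) * σ τ ^ n) (evE σ S (σ τ)) :=
    (Summable.of_norm hcv).hasSum
  have h2 := h1.mul_left (σ ((A : ℂ) ^ s))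
  have h3 : (fun n => σ ((PowerSeries.coeff n T : OO) : ℂ) * σ ((A : ℂ)⁻¹ * τ) ^ n) =
      fun n => σ ((A : ℂ) ^ s) * (σ (PowerSeries.coeff n S) * σ τ ^ n) :=
    funext fun n => sc_val σ hA hT τ n
  rw [h3]
  exact h2

theorem sc_lt {E : Type} [NormedField E] (φ : ℂ →+* E) {e : ℕ} (he : 0 < e) {A ξ τ : ℂ}
    (hτ : τ ^ e * ξ = 1) (h : 1 < ‖φ (A ^ e * ξ)‖) : ‖φ τ‖ < ‖φ A‖ := by
  have h1 : ‖φ τ‖ ^ e * ‖φ ξ‖ = 1 := by
    rw [← norm_pow, ← norm_mul, ← map_pow, ← map_mul, hτ, map_one, norm_one]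
  rw [map_mul, map_pow, norm_mul, norm_pow] at h
  have h2 : 0 < ‖φ ξ‖ := by
    rcases (norm_nonneg (φ ξ)).eq_or_lt with h3 | h3
    · rw [← h3, mul_zero] at h
      linarith
    · exact h3
  refine lt_of_pow_lt_pow_left₀ e (norm_nonneg _) ?_
  exact lt_of_mul_lt_mul_right (h1.trans_lt h) h2.le

theorem sc_cx (σ : ℂ →+* ℂ) {e : ℕ} (he : 0 < e) {A : ℕ} (hA : 0 < A) {ξ τ : ℂ} {C C₁ : ℝ}
    (hC₁ : 0 < C₁) (hC : ((A : ℝ) * C₁) ^ e ≤ C) (hτ : τ ^ e * ξ = 1)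
    (h : C < ‖σ ((A : ℂ) ^ e * ξ)‖) : ‖σ τ‖ * C₁ < 1 := by
  have h1 : ‖σ τ‖ ^ e * ‖σ ξ‖ = 1 := by
    rw [← norm_pow, ← norm_mul, ← map_pow, ← map_mul, hτ, map_one, norm_one]
  rw [map_mul, map_pow, map_natCast, norm_mul, norm_pow, Complex.norm_natCast] at h
  have hA' : (0 : ℝ) < A := Nat.cast_pos.2 hA
  have h2 : C₁ ^ e < ‖σ ξ‖ := by
    have h3 := hC.trans_lt h
    rw [mul_pow] at h3
    exact lt_of_mul_lt_mul_left h3 (pow_pos hA' e).le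
  have h4 : 0 < ‖σ ξ‖ := (pow_pos hC₁ e).trans h2
  have h5 : 0 < ‖σ τ‖ ^ e := by
    rcases (pow_nonneg (norm_nonneg (σ τ)) e).eq_or_lt with h6 | h6
    · rw [← h6, zero_mul] at h1
      exact absurd h1 zero_ne_one
    · exact h6
  refine lt_of_pow_lt_pow_left₀ e zero_le_one ?_
  rw [one_pow, mul_pow]
  calc ‖σ τ‖ ^ e * C₁ ^ e < ‖σ τ‖ ^ e * ‖σ ξ‖ := mul_lt_mul_of_pos_left h2 h5
    _ = 1 := h1

theorem toC_coeff (Q : Polynomial (Polynomial Qb)) (l k : ℕ) :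
    ((toC Q).coeff l).coeff k = (((Q.coeff l).coeff k : Qb) : ℂ) := by
  rw [toC, coeff_map, coe_mapRingHom, coeff_map]
  rfl

theorem toC1_coeff (Q : Polynomial Qb) (k : ℕ) : (toC1 Q).coeff k = ((Q.coeff k : Qb) : ℂ) := by
  rw [toC1, coeff_map]
  rfl

theorem toC_injF : Function.Injective (mapRingHom (algebraMap Qb ℂ)) :=
  map_injective _ (algebraMap Qb ℂ).injective

theorem toC_natDegree (Q : Polynomial (Polynomial Qb)) : (toC Q).natDegree = Q.natDegree :=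
  natDegree_map_eq_of_injective toC_injF Q

theorem toC_coeff_natDegree (Q : Polynomial (Polynomial Qb)) (l : ℕ) :
    ((toC Q).coeff l).natDegree = (Q.coeff l).natDegree := by
  rw [toC, coeff_map, coe_mapRingHom]
  exact natDegree_map_eq_of_injective (algebraMap Qb ℂ).injective _

theorem toC1_natDegree (Q : Polynomial Qb) : (toC1 Q).natDegree = Q.natDegree :=
  natDegree_map_eq_of_injective (algebraMap Qb ℂ).injective Q

theorem toC_wtG (e h : ℕ) (Q : Polynomial (Polynomial Qb)) : wtG e h (toC Q) = wtG e h Q := by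
  have h1 : (toC Q).support = Q.support := support_map_of_injective Q toC_injF
  rw [wtG, wtG, h1]
  refine Finset.sup_congr rfl fun l _ => ?_
  rw [toC_coeff_natDegree]

theorem sc_alg (g : Qb) : IsAlgebraic ℚ (g : ℂ) := mem_algebraicClosure_iff.1 g.2

theorem sc_mono {A B : ℕ} (h : A ∣ B) {c : ℂ} {m : ℕ} (hA : IsIntegral ℤ ((A : ℂ) ^ m * c)) :
    IsIntegral ℤ ((B : ℂ) ^ m * c) := by
  obtain ⟨D, rfl⟩ := h
  have h1 : ((A * D : ℕ) : ℂ) ^ m * c = (D : ℂ) ^ m * ((A : ℂ) ^ m * c) := by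
    push_cast
    ring
  rw [h1]
  have h2 : IsIntegral ℤ (D : ℂ) := by
    have h3 := isIntegral_algebraMap (R := ℤ) (A := ℂ) (x := (D : ℤ))
    simpa using h3
  exact (h2.pow m).mul hA

theorem sc_den {K : IntermediateField ℚ ℂ} [FiniteDimensional ℚ K] (s : Finset ℂ) (hs : ∀ x ∈ s, x ∈ K) :
    ∃ A : ℕ, 0 < A ∧ ∀ x ∈ s, IsIntegral ℤ ((A : ℂ) * x) := by
  classical
  induction s using Finset.induction_on with
  | empty => exact ⟨1, one_pos, by simp⟩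
  | insert x s hx ih =>
    obtain ⟨A, hA, hAs⟩ := ih fun y hy => hs y (Finset.mem_insert_of_mem hy)
    obtain ⟨⟨B, hB, hBx⟩, -⟩ := alg_bd (hs x (Finset.mem_insert_self x s))
    refine ⟨A * B, Nat.mul_pos hA hB, fun y hy => ?_⟩
    rcases Finset.mem_insert.1 hy with rfl | hy
    · have := sc_mono (m := 1) (Dvd.intro_left A rfl : B ∣ A * B) (by rw [pow_one]; exact hBx)
      rwa [pow_one] at this
    · have := sc_mono (m := 1) (Dvd.intro B rfl : A ∣ A * B) (by rw [pow_one]; exact hAs y hy)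
      rwa [pow_one] at this

theorem sc_gro {S : PowerSeries ℂ} {T : PowerSeries OO} {A s : ℕ} (hs : 0 < s) (hA : 0 < A)
    (hT : ∀ n, ((PowerSeries.coeff n T : OO) : ℂ) = (A : ℂ) ^ (n + s) * PowerSeries.coeff n S)
    {C₁ C : ℝ} (hC₁ : 0 < C₁) (hg : ∀ (σ : ℂ →+* ℂ) (n : ℕ), ‖σ (PowerSeries.coeff n S)‖ ≤ C₁ ^ (n + 1))
    (hC : (A : ℝ) ^ s * C₁ ≤ C) (σ : ℂ →+* ℂ) (n : ℕ) :
    ‖σ ((PowerSeries.coeff n T : OO) : ℂ)‖ ≤ C ^ (n + 1) := by
  have hA1 : (1 : ℝ) ≤ A := by exact_mod_cast hA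
  rw [hT, map_mul, map_pow, map_natCast, norm_mul, norm_pow, Complex.norm_natCast]
  calc (A : ℝ) ^ (n + s) * ‖σ (PowerSeries.coeff n S)‖ ≤ (A : ℝ) ^ (s * (n + 1)) * C₁ ^ (n + 1) := by
        refine mul_le_mul (pow_le_pow_right₀ hA1 ?_) (hg σ n) (norm_nonneg _) (by positivity)
        have : n ≤ s * n := Nat.le_mul_of_pos_left n hs
        rw [mul_add, mul_one]
        omega
    _ = ((A : ℝ) ^ s * C₁) ^ (n + 1) := by rw [mul_pow, ← pow_mul]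
    _ ≤ C ^ (n + 1) := pow_le_pow_left₀ (by positivity) hC _

theorem sc_int {p : ℕ} [Fact p.Prime] (φ : ℂ →+* ℂ_[p]) (r : OO) : ‖PA.sO φ r‖ ≤ 1 :=
  PA.norm_le_one_of_integral φ r.2

/-- the inverse series -/
theorem sc_inv {E : Type} [NormedField E] [CompleteSpace E] {φ : ℂ →+* E} {S : PowerSeries ℂ} {τ z : ℂ}
    {m : ℕ} (h0 : PowerSeries.coeff 0 S ≠ 0) (hz : φ ((z * τ ^ m)⁻¹) = evE φ S (φ τ))
    (hcv : Cv φ S (φ τ)) (hcv' : Cv φ S⁻¹ (φ τ)) : φ (z * τ ^ m) = evE φ S⁻¹ (φ τ) := by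
  have h1 : S * S⁻¹ = 1 := PowerSeries.mul_inv_cancel S (by
    rwa [← PowerSeries.coeff_zero_eq_constantCoeff_apply])
  have h2 := evE_mul hcv hcv'
  have h3 : evE φ (1 : PowerSeries ℂ) (φ τ) = 1 := by
    have h4 := evE_C (φ := φ) (τ := φ τ) 1
    rwa [map_one, map_one] at h4
  rw [h1, h3, ← hz, map_inv₀] at h2
  have h5 : φ (z * τ ^ m) ≠ 0 := by
    intro h6
    rw [h6, inv_zero, zero_mul] at h2
    exact one_ne_zero h2
  calc φ (z * τ ^ m) = φ (z * τ ^ m) * ((φ (z * τ ^ m))⁻¹ * evE φ S⁻¹ (φ τ)) := by rw [← h2, mul_one]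
    _ = evE φ S⁻¹ (φ τ) := mul_inv_cancel_left₀ h5 _

theorem sc_lowP {p : ℕ} [Fact p.Prime] {φ : ℂ →+* ℂ_[p]} {S : PowerSeries ℂ} {T : PowerSeries OO}
    {A m N : ℕ} (hA : 0 < A) (h0 : PowerSeries.coeff 0 S ≠ 0)
    (hT : ∀ n, ((PowerSeries.coeff n T : OO) : ℂ) = (A : ℂ) ^ (n + 1) * PowerSeries.coeff n S⁻¹)
    {τ z : ℂ} (hz : φ ((z * τ ^ m)⁻¹) = evE φ S (φ τ)) (hcv : Cv φ S (φ τ)) (hcv' : Cv φ S⁻¹ (φ τ))
    (hτ : ‖φ τ‖ < ‖φ (A : ℂ)‖) (hN : m + 1 ≤ N) :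
    ‖φ ((A ^ N : ℕ) : ℂ)‖ * ‖φ (z * ((A : ℂ)⁻¹ * τ) ^ m)‖ ≤ 1 := by
  have hAc : (A : ℂ) ≠ 0 := Nat.cast_ne_zero.2 hA.ne'
  have h1 := sc_P hA hT (sc_inv h0 hz hcv hcv')
  have hφA : 0 < ‖φ (A : ℂ)‖ := (norm_nonneg _).trans_lt hτ
  have h2 : ‖φ ((A : ℂ)⁻¹ * τ)‖ < 1 := by
    rw [map_mul, map_inv₀, norm_mul, norm_inv, inv_mul_lt_one₀ hφA]
    exact hτ
  have h3 : ‖φ ((A : ℂ) ^ 1 * (z * τ ^ m))‖ ≤ 1 := by
    rw [h1]
    refine PA.ev_norm_le (fun r => ?_) h2 T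
    exact sc_int φ r
  have h4 : ‖φ (A : ℂ)‖ ≤ 1 := sc_int φ ⟨(A : ℂ), natCast_mem OO A⟩
  have h5 : φ ((A ^ N : ℕ) : ℂ) * φ (z * ((A : ℂ)⁻¹ * τ) ^ m) =
      φ (A : ℂ) ^ (N - (m + 1)) * φ ((A : ℂ) ^ 1 * (z * τ ^ m)) := by
    rw [← map_pow, ← map_mul, ← map_mul]
    congr 1
    push_cast
    have h6 : (A : ℂ) ^ N = (A : ℂ) ^ (N - (m + 1)) * ((A : ℂ) ^ m * (A : ℂ) ^ 1) := by
      rw [← pow_add, ← pow_add]
      congr 1
      omega
    have h7 : (A : ℂ) ^ m * (A : ℂ)⁻¹ ^ m = 1 := by rw [← mul_pow, mul_inv_cancel₀ hAc, one_pow]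
    rw [h6, mul_pow]
    linear_combination ((A : ℂ) ^ (N - (m + 1)) * (A : ℂ) ^ 1 * z * τ ^ m) * h7
  rw [← norm_mul, h5, norm_mul, norm_pow]
  exact mul_le_one₀ (pow_le_one₀ (norm_nonneg _) h4) (norm_nonneg _) h3

theorem sc_lowC {σ : ℂ →+* ℂ} {S : PowerSeries ℂ} {A : ℕ} (hA : 0 < A)
    (h0 : PowerSeries.coeff 0 S ≠ 0) {C : ℝ} (hC : 0 < C)
    (hg : ∀ n : ℕ, ‖σ (PowerSeries.coeff n S⁻¹)‖ ≤ C ^ (n + 1)) {τ z : ℂ} {m : ℕ}
    (hz : σ ((z * τ ^ m)⁻¹) = evE σ S (σ τ)) (hcv : Cv σ S (σ τ)) (hcv' : Cv σ S⁻¹ (σ τ))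
    (hτ : ‖σ τ‖ * (2 * C) < 1) : ‖σ (z * ((A : ℂ)⁻¹ * τ) ^ m)‖ ≤ 2 * C := by
  have h1 := sc_inv h0 hz hcv hcv'
  have hρ0 : 0 ≤ C * ‖σ τ‖ := by positivity
  have hρ : C * ‖σ τ‖ ≤ 1 / 2 := by linarith
  have h2 : ‖evE σ S⁻¹ (σ τ)‖ ≤ 2 * C := by
    have h3 : HasSum (fun n : ℕ => C * (C * ‖σ τ‖) ^ n) (C * (1 - C * ‖σ τ‖)⁻¹) :=
      (hasSum_geometric_of_lt_one hρ0 (by linarith)).mul_left C
    have h4 : ∀ n, ‖σ (PowerSeries.coeff n S⁻¹) * σ τ ^ n‖ ≤ C * (C * ‖σ τ‖) ^ n := by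
      intro n
      rw [norm_mul, norm_pow, mul_pow, ← mul_assoc, ← pow_succ']
      exact mul_le_mul_of_nonneg_right (hg n) (pow_nonneg (norm_nonneg _) _)
    refine (tsum_of_norm_bounded h3 h4).trans ?_
    have h5 : (1 - C * ‖σ τ‖)⁻¹ ≤ 2 := by
      rw [inv_le_comm₀ (by linarith) (by norm_num)]
      linarith
    calc C * (1 - C * ‖σ τ‖)⁻¹ ≤ C * 2 := mul_le_mul_of_nonneg_left h5 hC.le
      _ = 2 * C := mul_comm _ _
  have h6 : σ (z * ((A : ℂ)⁻¹ * τ) ^ m) = (σ (A : ℂ))⁻¹ ^ m * σ (z * τ ^ m) := by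
    rw [← map_inv₀, ← map_pow, ← map_mul]
    congr 1
    rw [mul_pow]
    ring
  rw [h6, norm_mul, h1, norm_pow, norm_inv, map_natCast, Complex.norm_natCast]
  have hA1 : ((A : ℝ))⁻¹ ≤ 1 := inv_le_one_of_one_le₀ (by exact_mod_cast hA)
  calc ((A : ℝ))⁻¹ ^ m * ‖evE σ S⁻¹ (σ τ)‖ ≤ 1 * (2 * C) :=
        mul_le_mul (pow_le_one₀ (by positivity) hA1) h2 (norm_nonneg _) zero_le_one
    _ = 2 * C := one_mul _

theorem geo_of_plane {n : ℕ} {V : Set (Fin n → ℂ)} {Fx Fy : MvPolynomial (Fin n) Qb} {e h : ℕ}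
    {P : Polynomial (Polynomial Qb)} {M : Polynomial Qb} {N : Fin n → Polynomial (Polynomial Qb)}
    (hP : PlaneV V Fx Fy e h P M N) {a b : Fin n} (ha : e * M.natDegree < wtG e h (N a))
    (hb : e * M.natDegree < wtG e h (N b)) : Nonempty (Geo V a b) := by
  classical
  have hPm : (toC P).Monic := hP.monic.map _
  have hPd : (toC P).natDegree = e := by rw [toC_natDegree, hP.deg]
  have hPw : Wt e h (e * h) (toC P) := by
    intro l k hlk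
    rw [toC_coeff] at hlk
    have h1 : (P.coeff l).coeff k ≠ 0 := by
      intro h2
      rw [h2] at hlk
      exact hlk rfl
    have h2 : k ≤ (P.coeff l).natDegree := le_natDegree_of_ne_zero h1
    have h3 : l ≤ e := by
      rw [← hP.deg]
      refine le_natDegree_of_ne_zero ?_
      intro h4
      rw [h4, coeff_zero] at h1
      exact h1 rfl
    rcases h3.lt_or_eq with h4 | h4
    · have h5 := hP.wt l h4
      have h6 : e * k ≤ e * (P.coeff l).natDegree := Nat.mul_le_mul_left _ h2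
      omega
    · have h5 : (P.coeff l).natDegree = 0 := by
        rw [h4, ← hP.deg, hP.monic.coeff_natDegree, natDegree_one]
      have h6 : k = 0 := by omega
      rw [h6, h4, mul_zero, zero_add, mul_comm]
  have hPt : ((toC P).coeff 0).coeff h ≠ 0 := by
    rw [toC_coeff, ← hP.top, coeff_natDegree]
    intro h1
    have h2 : (P.coeff 0).leadingCoeff = 0 := by exact_mod_cast h1
    rw [leadingCoeff_eq_zero] at h2
    have h3 := hP.top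
    rw [h2, natDegree_zero] at h3
    exact hP.h0.ne h3
  have hPalg : ∀ l k, IsAlgebraic ℚ (((toC P).coeff l).coeff k) := by
    intro l k
    rw [toC_coeff]
    exact sc_alg _
  obtain ⟨K₁, W, hK₁, hPK₁, hW₁, hW0, hTw⟩ := exists_W hP.e0 hP.h0 hP.cop hPm hPd hPw hPt hPalg
  obtain ⟨K, hK, hK₁K, hKs⟩ := exists_fld ((toC1 M).coeffs ∪
    ((toC (N a)).coeffs.biUnion fun q => q.coeffs) ∪ ((toC (N b)).coeffs.biUnion fun q => q.coeffs))
    (by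
      intro x hx
      rw [Finset.mem_union, Finset.mem_union, Finset.mem_biUnion, Finset.mem_biUnion] at hx
      rcases hx with (hx | ⟨q, hq, hx⟩) | ⟨q, hq, hx⟩
      · obtain ⟨k, -, rfl⟩ := mem_coeffs_iff.1 hx
        rw [toC1_coeff]
        exact sc_alg _
      · obtain ⟨l, -, rfl⟩ := mem_coeffs_iff.1 hq
        obtain ⟨k, -, rfl⟩ := mem_coeffs_iff.1 hx
        rw [toC_coeff]
        exact sc_alg _
      · obtain ⟨l, -, rfl⟩ := mem_coeffs_iff.1 hq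
        obtain ⟨k, -, rfl⟩ := mem_coeffs_iff.1 hx
        rw [toC_coeff]
        exact sc_alg _) K₁
  have hMK : ∀ k, (toC1 M).coeff k ∈ K := by
    intro k
    by_cases h0 : (toC1 M).coeff k = 0
    · rw [h0]
      exact zero_mem K
    · exact hKs _ (Finset.mem_union_left _ (Finset.mem_union_left _ (coeff_mem_coeffs h0)))
  have hNaK : FldP K (toC (N a)) := by
    intro l k
    by_cases h0 : ((toC (N a)).coeff l).coeff k = 0
    · rw [h0]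
      exact zero_mem K
    · refine hKs _ (Finset.mem_union_left _ (Finset.mem_union_right _ (Finset.mem_biUnion.2
        ⟨(toC (N a)).coeff l, coeff_mem_coeffs ?_, coeff_mem_coeffs h0⟩)))
      intro h1
      rw [h1, coeff_zero] at h0
      exact h0 rfl
  have hNbK : FldP K (toC (N b)) := by
    intro l k
    by_cases h0 : ((toC (N b)).coeff l).coeff k = 0
    · rw [h0]
      exact zero_mem K
    · refine hKs _ (Finset.mem_union_right _ (Finset.mem_biUnion.2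
        ⟨(toC (N b)).coeff l, coeff_mem_coeffs ?_, coeff_mem_coeffs h0⟩))
      intro h1
      rw [h1, coeff_zero] at h0
      exact h0 rfl
  have hPK : FldP K (toC P) := fun l k => hK₁K (hPK₁ l k)
  have hW : Gd K W := ⟨fun n => hK₁K (hW₁.fld n), hW₁.eis, hW₁.gro⟩
  have hM0 : toC1 M ≠ 0 := (Polynomial.map_ne_zero_iff (algebraMap Qb ℂ).injective).2 hP.M0
  obtain ⟨ma, oma, hma0, hoa, hoa0, hNta, hva⟩ := exists_om (M := toC1 M) (N := toC (N a)) hP.e0 hP.cop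
    hM0 hMK hNaK (by rw [toC_natDegree]; exact hP.Nd a) hW hW0
    (by rw [toC1_natDegree, toC_wtG]; exact ha)
  obtain ⟨mb, omb, hmb0, hob, hob0, hNtb, hvb⟩ := exists_om (M := toC1 M) (N := toC (N b)) hP.e0 hP.cop
    hM0 hMK hNbK (by rw [toC_natDegree]; exact hP.Nd b) hW hW0
    (by rw [toC1_natDegree, toC_wtG]; exact hb)
  -- the integers
  obtain ⟨A1, hA1, hA1'⟩ := hW.eis
  obtain ⟨A2, hA2, hA2'⟩ := hoa.eis
  obtain ⟨A3, hA3, hA3'⟩ := hob.eis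
  obtain ⟨A4, hA4, hA4'⟩ := hNta.eis
  obtain ⟨A5, hA5, hA5'⟩ := hNtb.eis
  have hia : Gd K oma⁻¹ := hoa.inv hoa0
  have hib : Gd K omb⁻¹ := hob.inv hob0
  obtain ⟨A7, hA7, hA7'⟩ := hia.eis
  obtain ⟨A8, hA8, hA8'⟩ := hib.eis
  obtain ⟨A6, hA6, hA6'⟩ := sc_den (K := K) ((toC P).coeffs.biUnion fun q => q.coeffs) (by
    intro x hx
    obtain ⟨q, hq, hx⟩ := Finset.mem_biUnion.1 hx
    obtain ⟨l, -, rfl⟩ := mem_coeffs_iff.1 hq
    obtain ⟨k, -, rfl⟩ := mem_coeffs_iff.1 hx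
    exact hPK l k)
  have hA6P : ∀ l k, IsIntegral ℤ ((A6 : ℂ) * ((toC P).coeff l).coeff k) := by
    intro l k
    by_cases h0 : ((toC P).coeff l).coeff k = 0
    · rw [h0, mul_zero]
      exact isIntegral_zero
    · refine hA6' _ (Finset.mem_biUnion.2 ⟨(toC P).coeff l, coeff_mem_coeffs ?_, coeff_mem_coeffs h0⟩)
      intro h1
      rw [h1, coeff_zero] at h0
      exact h0 rfl
  obtain ⟨A, hAdef⟩ : ∃ A, A = A1 * A2 * A3 * A4 * A5 * A6 * A7 * A8 := ⟨_, rfl⟩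
  have hA0 : 0 < A := by
    rw [hAdef]
    positivity
  have d1 : A1 ∣ A := by rw [hAdef]; exact ⟨A2 * A3 * A4 * A5 * A6 * A7 * A8, by ring⟩
  have d2 : A2 ∣ A := by rw [hAdef]; exact ⟨A1 * A3 * A4 * A5 * A6 * A7 * A8, by ring⟩
  have d3 : A3 ∣ A := by rw [hAdef]; exact ⟨A1 * A2 * A4 * A5 * A6 * A7 * A8, by ring⟩
  have d4 : A4 ∣ A := by rw [hAdef]; exact ⟨A1 * A2 * A3 * A5 * A6 * A7 * A8, by ring⟩
  have d5 : A5 ∣ A := by rw [hAdef]; exact ⟨A1 * A2 * A3 * A4 * A6 * A7 * A8, by ring⟩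
  have d6 : A6 ∣ A := by rw [hAdef]; exact ⟨A1 * A2 * A3 * A4 * A5 * A7 * A8, by ring⟩
  have d7 : A7 ∣ A := by rw [hAdef]; exact ⟨A1 * A2 * A3 * A4 * A5 * A6 * A8, by ring⟩
  have d8 : A8 ∣ A := by rw [hAdef]; exact ⟨A1 * A2 * A3 * A4 * A5 * A6 * A7, by ring⟩
  have e1 : ∀ n, IsIntegral ℤ ((A : ℂ) ^ (n + 1) * PowerSeries.coeff n W) := fun n => sc_mono d1 (hA1' n)
  have e2 : ∀ n, IsIntegral ℤ ((A : ℂ) ^ (n + 1) * PowerSeries.coeff n oma) := fun n =>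
    sc_mono d2 (hA2' n)
  have e3 : ∀ n, IsIntegral ℤ ((A : ℂ) ^ (n + 1) * PowerSeries.coeff n omb) := fun n =>
    sc_mono d3 (hA3' n)
  have e4 : ∀ n, IsIntegral ℤ ((A : ℂ) ^ (n + 1) * PowerSeries.coeff n (Nt e h (toC (N a)) W)⁻¹) :=
    fun n => sc_mono d4 (hA4' n)
  have e5 : ∀ n, IsIntegral ℤ ((A : ℂ) ^ (n + 1) * PowerSeries.coeff n (Nt e h (toC (N b)) W)⁻¹) :=
    fun n => sc_mono d5 (hA5' n)
  have e7 : ∀ n, IsIntegral ℤ ((A : ℂ) ^ (n + 1) * PowerSeries.coeff n oma⁻¹) := fun n =>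
    sc_mono d7 (hA7' n)
  have e8 : ∀ n, IsIntegral ℤ ((A : ℂ) ^ (n + 1) * PowerSeries.coeff n omb⁻¹) := fun n =>
    sc_mono d8 (hA8' n)
  have e6 : ∀ l k, IsIntegral ℤ ((A : ℂ) * ((toC P).coeff l).coeff k) := fun l k => by
    have := sc_mono (m := 1) d6 (by rw [pow_one]; exact hA6P l k)
    rwa [pow_one] at this
  obtain ⟨TW, hTW⟩ := exists_sc (s := 1) one_pos e1
  obtain ⟨Ta, hTa⟩ := exists_sc hma0 e2
  obtain ⟨Tb, hTb⟩ := exists_sc hmb0 e3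
  obtain ⟨Ta', hTa'⟩ := exists_sc (s := 1) one_pos e7
  obtain ⟨Tb', hTb'⟩ := exists_sc (s := 1) one_pos e8
  -- the constants
  obtain ⟨C1, hC1, g1⟩ := hW.gro
  obtain ⟨C2, hC2, g2⟩ := hoa.gro
  obtain ⟨C3, hC3, g3⟩ := hob.gro
  obtain ⟨C4, hC4, g4⟩ := hNta.gro
  obtain ⟨C5, hC5, g5⟩ := hNtb.gro
  obtain ⟨C6, hC6, g6⟩ := hia.gro
  obtain ⟨C7, hC7, g7⟩ := hib.gro
  obtain ⟨Cm, hCm⟩ : ∃ Cm, Cm = C1 + C2 + C3 + C4 + C5 + 2 * C6 + 2 * C7 := ⟨_, rfl⟩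
  have hCm0 : 0 < Cm := by rw [hCm]; positivity
  have hm1 : C1 ≤ Cm := by rw [hCm]; linarith
  have hm2 : C2 ≤ Cm := by rw [hCm]; linarith
  have hm3 : C3 ≤ Cm := by rw [hCm]; linarith
  have hm4 : C4 ≤ Cm := by rw [hCm]; linarith
  have hm5 : C5 ≤ Cm := by rw [hCm]; linarith
  have hm6 : 2 * C6 ≤ Cm := by rw [hCm]; linarith
  have hm7 : 2 * C7 ≤ Cm := by rw [hCm]; linarith
  have hAr : (1 : ℝ) ≤ A := by exact_mod_cast hA0
  obtain ⟨C, hCdef⟩ : ∃ C : ℝ, C = 1 + ((A : ℝ) * Cm) ^ e + (A : ℝ) ^ 1 * Cm + (A : ℝ) ^ ma * Cm +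
    (A : ℝ) ^ mb * Cm := ⟨_, rfl⟩
  have p1 : 0 ≤ ((A : ℝ) * Cm) ^ e := by positivity
  have p2 : 0 ≤ (A : ℝ) ^ 1 * Cm := by positivity
  have p3 : 0 ≤ (A : ℝ) ^ ma * Cm := by positivity
  have p4 : 0 ≤ (A : ℝ) ^ mb * Cm := by positivity
  have q0 : 1 ≤ C := by rw [hCdef]; linarith
  have q1 : ((A : ℝ) * Cm) ^ e ≤ C := by rw [hCdef]; linarith
  have q2 : (A : ℝ) ^ 1 * C1 ≤ C := by
    have : (A : ℝ) ^ 1 * C1 ≤ (A : ℝ) ^ 1 * Cm := mul_le_mul_of_nonneg_left hm1 (by positivity)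
    rw [hCdef]; linarith
  have q3 : (A : ℝ) ^ ma * C2 ≤ C := by
    have : (A : ℝ) ^ ma * C2 ≤ (A : ℝ) ^ ma * Cm := mul_le_mul_of_nonneg_left hm2 (by positivity)
    rw [hCdef]; linarith
  have q4 : (A : ℝ) ^ mb * C3 ≤ C := by
    have : (A : ℝ) ^ mb * C3 ≤ (A : ℝ) ^ mb * Cm := mul_le_mul_of_nonneg_left hm3 (by positivity)
    rw [hCdef]; linarith
  have q5 : Cm ≤ C := by
    have : Cm ≤ (A : ℝ) ^ 1 * Cm := by
      rw [pow_one]
      exact le_mul_of_one_le_left hCm0.le hAr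
    rw [hCdef]; linarith
  have hAc : (A : ℂ) ≠ 0 := Nat.cast_ne_zero.2 hA0.ne'
  have hαe : (A : ℂ) ^ e ≠ 0 := pow_ne_zero _ hAc
  have hβ : (A : ℂ) ^ (h + 1) ≠ 0 := pow_ne_zero _ hAc
  have key : ∀ {E : Type} [NormedField E] [CompleteSpace E] (φ : ℂ →+* E), ∀ x ∈ V, vl Fx x ≠ 0 →
      (∀ τ : ℂ, τ ^ e * vl Fx x = 1 → Cv φ W (φ τ) ∧ Cv φ (Nt e h (toC (N a)) W)⁻¹ (φ τ) ∧
        Cv φ (Nt e h (toC (N b)) W)⁻¹ (φ τ)) →
      ∃ τ : ℂ, τ ^ e * vl Fx x = 1 ∧ (φ (vl Fy x * τ ^ h) = evE φ W (φ τ) ∧ Cv φ W (φ τ)) ∧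
        (x a ≠ 0 ∧ φ ((x a * τ ^ ma)⁻¹) = evE φ oma (φ τ) ∧ Cv φ oma (φ τ)) ∧
        (x b ≠ 0 ∧ φ ((x b * τ ^ mb)⁻¹) = evE φ omb (φ τ) ∧ Cv φ omb (φ τ)) := by
    intro E _ _ φ x hx hx0 hcv
    obtain ⟨τ, hτ, hτy⟩ := loc_W φ hP.e0 hP.h0 hP.cop hPm hPd hPw hW0 hTw hx0 (hP.onV x hx)
      fun τ hτ => (hcv τ hτ).1
    obtain ⟨c1, c2, c3⟩ := hcv τ hτ
    exact ⟨τ, hτ, ⟨hτy, c1⟩, hva φ τ _ _ _ c1 c2 hτ hτy (hP.rep x hx a),
      hvb φ τ _ _ _ c1 c3 hτ hτy (hP.rep x hx b)⟩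
  have hvx : ∀ x, vl (MvPolynomial.C ((A : Qb) ^ e) * Fx) x = (A : ℂ) ^ e * vl Fx x := by
    intro x
    rw [vl, vl, map_mul, MvPolynomial.aeval_C, map_pow, map_natCast]
  have hvy : ∀ x, vl (MvPolynomial.C ((A : Qb) ^ (h + 1)) * Fy) x = (A : ℂ) ^ (h + 1) * vl Fy x := by
    intro x
    rw [vl, vl, map_mul, MvPolynomial.aeval_C, map_pow, map_natCast]
  have hsm := scl_monic (α := (A : ℂ) ^ e) hβ hPm
  rw [hPd] at hsm
  have hix : ∀ z : ℂ, ((A : ℂ) ^ e)⁻¹ * ((A : ℂ) ^ e * z) = z := fun z => inv_mul_cancel_left₀ hαe z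
  have hiy : ∀ z : ℂ, ((A : ℂ) ^ (h + 1))⁻¹ * ((A : ℂ) ^ (h + 1) * z) = z := fun z =>
    inv_mul_cancel_left₀ hβ z
  have hτe : ∀ {τ ξ : ℂ}, τ ^ e * ξ = 1 → ((A : ℂ)⁻¹ * τ) ^ e * ((A : ℂ) ^ e * ξ) = 1 := by
    intro τ ξ hτ
    rw [mul_pow, inv_pow]
    calc ((A : ℂ) ^ e)⁻¹ * τ ^ e * ((A : ℂ) ^ e * ξ) =
        (((A : ℂ) ^ e)⁻¹ * (A : ℂ) ^ e) * (τ ^ e * ξ) := by ring
      _ = 1 := by rw [hτ, inv_mul_cancel₀ hαe, one_mul]
  have hτh : ∀ τ η : ℂ, (A : ℂ) ^ (h + 1) * η * ((A : ℂ)⁻¹ * τ) ^ h = (A : ℂ) ^ 1 * (η * τ ^ h) := by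
    intro τ η
    rw [mul_pow, inv_pow, pow_succ]
    calc (A : ℂ) ^ h * (A : ℂ) * η * (((A : ℂ) ^ h)⁻¹ * τ ^ h) =
        ((A : ℂ) ^ h * ((A : ℂ) ^ h)⁻¹) * ((A : ℂ) * (η * τ ^ h)) := by ring
      _ = (A : ℂ) ^ 1 * (η * τ ^ h) := by rw [mul_inv_cancel₀ (pow_ne_zero _ hAc), one_mul, pow_one]
  have hτa : ∀ (τ z : ℂ) (m : ℕ), (z * ((A : ℂ)⁻¹ * τ) ^ m)⁻¹ = (A : ℂ) ^ m * (z * τ ^ m)⁻¹ := by
    intro τ z m
    rw [mul_pow, inv_pow, mul_inv, mul_inv, mul_inv, inv_inv]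
    ring
  have hξ0 : ∀ {E : Type} [NormedField E] (φ : ℂ →+* E) {ξ : ℂ} {c : ℝ}, 0 ≤ c →
      c < ‖φ ((A : ℂ) ^ e * ξ)‖ → ξ ≠ 0 := by
    rintro E _ φ ξ c hc h1 rfl
    rw [mul_zero, map_zero, norm_zero] at h1
    linarith
  refine ⟨{ Fx := MvPolynomial.C ((A : Qb) ^ e) * Fx
            Fy := MvPolynomial.C ((A : Qb) ^ (h + 1)) * Fy
            e := e
            h := h
            P := scl ((A : ℂ) ^ e) ((A : ℂ) ^ (h + 1)) (((A : ℂ) ^ (h + 1)) ^ e) (toC P)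
            M := (toC1 M).comp (Polynomial.C ((A : ℂ) ^ e)⁻¹ * X)
            N := fun c => scl ((A : ℂ) ^ e) ((A : ℂ) ^ (h + 1)) 1 (toC (N c))
            K := K
            W := TW
            ma := ma
            mb := mb
            oa := Ta
            ob := Tb
            n0 := A ^ (ma + mb + 1)
            C := C
            e0 := hP.e0
            h0 := hP.h0
            cop := hP.cop
            fin := hK
            monic := hsm.1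
            deg := hsm.2
            wt := ?_
            top := ?_
            irr := ?_
            Pint := ?_
            PK := ?_
            M0 := ?_
            Malg := ?_
            Nd := ?_
            Nalg := ?_
            ncx := ?_
            onV := ?_
            rep := ?_
            back := ?_
            int := ?_
            C1 := q0
            SW := ⟨?_, ?_, sc_gro one_pos hA0 hTW hC1 g1 q2⟩
            Sa := ⟨?_, ?_, sc_gro hma0 hA0 hTa hC2 g2 q3⟩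
            Sb := ⟨?_, ?_, sc_gro hmb0 hA0 hTb hC3 g3 q4⟩
            ma0 := hma0
            mb0 := hmb0
            n00 := pow_pos hA0 _
            locp := ?_
            locc := ?_ }⟩
  · -- wt
    intro l k hlk
    rw [scl_coeff] at hlk
    exact hPw l k (right_ne_zero_of_mul hlk)
  · -- top
    rw [scl_coeff]
    refine mul_ne_zero (mul_ne_zero (mul_ne_zero (pow_ne_zero _ hβ) ?_) ?_) hPt
    · exact pow_ne_zero _ (inv_ne_zero hβ)
    · exact pow_ne_zero _ (inv_ne_zero hαe)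
  · -- irr
    refine irr_wt hP.e0 hP.h0 hP.cop hsm.1 hsm.2 ?_ ?_
    · intro l k hlk
      rw [scl_coeff] at hlk
      exact hPw l k (right_ne_zero_of_mul hlk)
    · rw [scl_coeff]
      refine mul_ne_zero (mul_ne_zero (mul_ne_zero (pow_ne_zero _ hβ) ?_) ?_) hPt
      · exact pow_ne_zero _ (inv_ne_zero hβ)
      · exact pow_ne_zero _ (inv_ne_zero hαe)
  · -- Pint
    intro l k
    by_cases h0 : ((toC P).coeff l).coeff k = 0
    · rw [scl_coeff, h0, mul_zero]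
      exact isIntegral_zero
    · have hle : l ≤ e := by
        rw [← hPd]
        refine le_natDegree_of_ne_zero ?_
        intro h1
        rw [h1, coeff_zero] at h0
        exact h0 rfl
      have hwt : e * k + h * l ≤ e * h := hPw l k h0
      obtain ⟨r, hr⟩ : ∃ r, (h + 1) * e = e * k + (h + 1) * l + r := by
        refine ⟨(h + 1) * e - (e * k + (h + 1) * l), ?_⟩
        have h2 : (h + 1) * e = e * h + e := by ring
        have h3 : (h + 1) * l = h * l + l := by ring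
        omega
      have hval : ((A : ℂ) ^ (h + 1)) ^ e * ((A : ℂ) ^ (h + 1))⁻¹ ^ l * ((A : ℂ) ^ e)⁻¹ ^ k = (A : ℂ) ^ r := by
        rw [← pow_mul, hr, pow_add, pow_add, inv_pow, inv_pow, ← pow_mul, ← pow_mul]
        have h4 : (A : ℂ) ^ (e * k) * ((A : ℂ) ^ (e * k))⁻¹ = 1 := mul_inv_cancel₀ (pow_ne_zero _ hAc)
        have h5 : (A : ℂ) ^ ((h + 1) * l) * ((A : ℂ) ^ ((h + 1) * l))⁻¹ = 1 :=
          mul_inv_cancel₀ (pow_ne_zero _ hAc)
        linear_combination ((A : ℂ) ^ ((h + 1) * l) * ((A : ℂ) ^ ((h + 1) * l))⁻¹ * (A : ℂ) ^ r) * h4 +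
          (A : ℂ) ^ r * h5
      rw [scl_coeff, hval]
      rcases Nat.eq_zero_or_pos r with hr0 | hr0
      · have h6 : l = e := by
          have h2 : (h + 1) * e = e * h + e := by ring
          have h3 : (h + 1) * l = h * l + l := by ring
          omega
        rw [hr0, pow_zero, one_mul, h6]
        have h7 : (toC P).coeff e = 1 := by
          rw [← hPd]
          exact hPm.coeff_natDegree
        rw [h7, coeff_one]
        split_ifs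
        · exact isIntegral_one
        · exact isIntegral_zero
      · have h8 : (A : ℂ) ^ r * ((toC P).coeff l).coeff k =
            (A : ℂ) ^ (r - 1) * ((A : ℂ) * ((toC P).coeff l).coeff k) := by
          rw [← mul_assoc, ← pow_succ]
          congr 2
          omega
        rw [h8]
        have h9 : IsIntegral ℤ (A : ℂ) := by
          have h3 := isIntegral_algebraMap (R := ℤ) (A := ℂ) (x := (A : ℤ))
          simpa using h3
        exact (h9.pow _).mul (e6 l k)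
  · -- PK
    intro l k
    rw [scl_coeff]
    have hAK : (A : ℂ) ∈ K := natCast_mem K A
    exact mul_mem (mul_mem (mul_mem (pow_mem (pow_mem hAK _) _) (pow_mem (inv_mem (pow_mem hAK _)) _))
      (pow_mem (inv_mem (pow_mem hAK _)) _)) (hPK l k)
  · -- M0
    intro h1
    have h2 : ∀ k, (toC1 M).coeff k = 0 := by
      intro k
      have h3 := congrArg (fun q : ℂ[X] => q.coeff k) h1
      simp only [comp_C_mul_X_coeff, coeff_zero] at h3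
      exact (mul_eq_zero.1 h3).resolve_right (pow_ne_zero _ (inv_ne_zero hαe))
    exact hM0 (ext fun k => by rw [h2 k, coeff_zero])
  · -- Malg
    intro k
    rw [comp_C_mul_X_coeff, toC1_coeff]
    refine (sc_alg _).mul (IsAlgebraic.pow ?_ _)
    exact (IsAlgebraic.pow (isAlgebraic_algebraMap (A := ℂ) (A : ℚ) |> fun h1 => by simpa using h1) _).inv
  · intro c
    exact (scl_natDegree _ _ _ _).trans_lt (by rw [toC_natDegree]; exact hP.Nd c)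
  · -- Nalg
    intro c l k
    rw [scl_coeff, toC_coeff, one_mul]
    have h1 : IsAlgebraic ℚ (A : ℂ) := by
      have h2 := isAlgebraic_algebraMap (R := ℚ) (A := ℂ) (A : ℚ)
      simpa using h2
    exact (((h1.pow _).inv.pow _).mul ((h1.pow _).inv.pow _)).mul (sc_alg _)
  · -- ncx
    intro c
    obtain ⟨x, hx, hne⟩ := hP.ncx (((A : ℂ) ^ e)⁻¹ * c)
    refine ⟨x, hx, ?_⟩
    rw [hvx]
    intro h1
    apply hne
    rw [← h1, hix]
  · -- onV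
    intro x hx
    rw [hvx, hvy, scl_eval, hix, hiy, hP.onV x hx, mul_zero]
  · -- rep
    intro x hx c
    rw [hvx, hvy, scl_eval, hix, hiy, one_mul, ← hP.rep x hx c, eval_comp, eval_mul, eval_C, eval_X, hix]
  · -- back
    intro X' Y' hXY hM'
    rw [scl_eval] at hXY
    rw [eval_comp, eval_mul, eval_C, eval_X] at hM'
    obtain ⟨x, hx, hxX, hxY, hxc⟩ := hP.back _ _
      ((mul_eq_zero.1 hXY).resolve_left (pow_ne_zero _ hβ)) hM'
    refine ⟨x, hx, ?_, ?_, ?_⟩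
    · rw [hvx, hxX, mul_inv_cancel_left₀ hαe]
    · rw [hvy, hxY, mul_inv_cancel_left₀ hβ]
    · intro c
      rw [scl_eval, one_mul, ← hxc c, eval_comp, eval_mul, eval_C, eval_X]
  · -- int
    intro c
    obtain ⟨r, q, hr, hq⟩ := hP.int c
    have hAq : (A : Qb) ^ e ≠ 0 := pow_ne_zero _ (Nat.cast_ne_zero.2 hA0.ne')
    refine ⟨r, fun j => Polynomial.C (((A : Qb) ^ e) ^ (r - j)) * (q j).comp (Polynomial.C ((A : Qb) ^ e)⁻¹ * X),
      hr, fun x hx => ?_⟩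
    have h1 : ∀ j, (toC1 (Polynomial.C (((A : Qb) ^ e) ^ (r - j)) *
        (q j).comp (Polynomial.C ((A : Qb) ^ e)⁻¹ * X))).eval ((A : ℂ) ^ e * vl Fx x) =
        ((A : ℂ) ^ e) ^ (r - j) * (toC1 (q j)).eval (vl Fx x) := by
      intro j
      rw [toC1, Polynomial.map_mul, map_C, eval_mul, eval_C, map_comp, Polynomial.map_mul, map_C, map_X,
        eval_comp, eval_mul, eval_C, eval_X, map_inv₀, map_pow, map_pow, map_natCast, hix]
      rfl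
    rw [hvx]
    have h2 : ∑ j ∈ Finset.range r, (toC1 (Polynomial.C (((A : Qb) ^ e) ^ (r - j)) *
        (q j).comp (Polynomial.C ((A : Qb) ^ e)⁻¹ * X))).eval ((A : ℂ) ^ e * vl Fx x) *
          ((A : ℂ) ^ e * vl Fx x * x c) ^ j =
        ((A : ℂ) ^ e) ^ r * ∑ j ∈ Finset.range r, (toC1 (q j)).eval (vl Fx x) * (vl Fx x * x c) ^ j := by
      rw [Finset.mul_sum]
      refine Finset.sum_congr rfl fun j hj => ?_
      have h3 : ((A : ℂ) ^ e) ^ r = ((A : ℂ) ^ e) ^ (r - j) * ((A : ℂ) ^ e) ^ j := by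
        rw [← pow_add]
        congr 1
        have := Finset.mem_range.1 hj
        omega
      rw [h1, h3, mul_assoc ((A : ℂ) ^ e), mul_pow]
      ring
    rw [h2, mul_assoc ((A : ℂ) ^ e), mul_pow, ← mul_add, hq x hx, mul_zero]
  · -- SW
    intro h1
    have h2 := hTW 0
    rw [h1] at h2
    exact mul_ne_zero (pow_ne_zero _ hAc) hW0 h2.symm
  · intro n
    rw [hTW]
    exact mul_mem (pow_mem (natCast_mem K A) _) (hW.fld n)
  · intro h1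
    have h2 := hTa 0
    rw [h1] at h2
    exact mul_ne_zero (pow_ne_zero _ hAc) hoa0 h2.symm
  · intro n
    rw [hTa]
    exact mul_mem (pow_mem (natCast_mem K A) _) (hoa.fld n)
  · intro h1
    have h2 := hTb 0
    rw [h1] at h2
    exact mul_ne_zero (pow_ne_zero _ hAc) hob0 h2.symm
  · intro n
    rw [hTb]
    exact mul_mem (pow_mem (natCast_mem K A) _) (hob.fld n)
  · -- locp
    intro p _ φ x hx hlt
    rw [hvx] at hlt
    obtain ⟨τ, h1, ⟨h2, -⟩, ⟨h3, h4, h4'⟩, ⟨h5, h6, h6'⟩⟩ := key φ x hx (hξ0 φ zero_le_one hlt) fun τ hτ => by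
      have hτ' : ‖φ τ‖ < ‖φ (A : ℂ)‖ := sc_lt φ hP.e0 hτ hlt
      exact ⟨cv_p e1 hτ', cv_p e4 hτ', cv_p e5 hτ'⟩
    have hτ' : ‖φ τ‖ < ‖φ (A : ℂ)‖ := sc_lt φ hP.e0 h1 hlt
    refine ⟨(A : ℂ)⁻¹ * τ, ?_, ?_, ⟨h3, ?_, ?_⟩, ⟨h5, ?_, ?_⟩⟩
    · rw [hvx]
      exact hτe h1
    · rw [hvy, hτh]
      exact sc_P hA0 hTW h2
    · rw [hτa]
      exact sc_P hA0 hTa h4
    · exact sc_lowP hA0 hoa0 hTa' h4 h4' (cv_p e7 hτ') hτ' (by omega)
    · rw [hτa]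
      exact sc_P hA0 hTb h6
    · exact sc_lowP hA0 hob0 hTb' h6 h6' (cv_p e8 hτ') hτ' (by omega)
  · -- locc
    intro σ x hx hlt
    rw [hvx] at hlt
    obtain ⟨τ, h1, ⟨h2, h2'⟩, ⟨h3, h4, h4'⟩, ⟨h5, h6, h6'⟩⟩ := key σ x hx
      (hξ0 σ (zero_le_one.trans q0) hlt) fun τ hτ => by
        have hτ' : ‖σ τ‖ * Cm < 1 := sc_cx σ hP.e0 hA0 hCm0 q1 hτ hlt
        have hb : ∀ {c : ℝ}, c ≤ Cm → ‖σ τ‖ * c < 1 := fun {c} hc =>
          (mul_le_mul_of_nonneg_left hc (norm_nonneg _)).trans_lt hτ'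
        exact ⟨cv_c hC1 (g1 σ) (hb hm1), cv_c hC4 (g4 σ) (hb hm4), cv_c hC5 (g5 σ) (hb hm5)⟩
    have hτ' : ‖σ τ‖ * Cm < 1 := sc_cx σ hP.e0 hA0 hCm0 q1 h1 hlt
    have hb : ∀ {c : ℝ}, c ≤ Cm → ‖σ τ‖ * c < 1 := fun {c} hc =>
      (mul_le_mul_of_nonneg_left hc (norm_nonneg _)).trans_lt hτ'
    refine ⟨(A : ℂ)⁻¹ * τ, ?_, ?_, ⟨h3, ?_, ?_⟩, ⟨h5, ?_, ?_⟩⟩
    · rw [hvx]
      exact hτe h1
    · rw [hvy, hτh]
      exact sc_C hA0 hTW h2 h2'
    · rw [hτa]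
      exact sc_C hA0 hTa h4 h4'
    · exact (sc_lowC hA0 hoa0 hC6 (g6 σ) h4 h4' (cv_c hC6 (g6 σ) (hb (by linarith))) (hb hm6)).trans (hm6.trans q5)
    · rw [hτa]
      exact sc_C hA0 hTb h6 h6'
    · exact (sc_lowC hA0 hob0 hC7 (g7 σ) h6 h6' (cv_c hC7 (g7 σ) (hb (by linarith))) (hb hm7)).trans (hm7.trans q5)

end Pool.Agent.LGO.RU
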