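import Mathlib
import Pool.Agent.LGO.RU.GeoDefs

/-!
# LGO/RU, geometric input: integral bases

`k(x)` := `FractionRing k[X]`, acting on `L` through `X ↦ x` (`IsFractionRing.lift`, `x` transcendental; see
`LGO/ZV/Model.lean` for the same construction); `L` is finite over it: it is generated by the `ψ_a`, which are algebraic
(`Dep`).  `exists_bas`: `FiniteDimensional.exists_is_basis_integral` (`A = k[X]`), clear denominators.
`exists_mulI`: `exists_integral_multiple` (or `exists_integral_multiples`).  `IsIntegral k[X] y` gives `IntO k x y`: coefficients of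
the monic polynomial (degree `> 0`, multiply by `X` if necessary).
`IntO.mono`: `x` is integral over `k[p(x)]` if `p` is not constant, transitivity of integrality (use subalgebras
`Algebra.adjoin k {·}` and `IsIntegral`, `isIntegral_trans`).
`dep_poly`: `n > δ` elements of `L` are dependent over `k[x]` (`Bas.span`, and `card_le_of_injective`, cf.
`DimB_not_inj` in `G/DimB.lean`).
-/

namespace Pool.Agent.LGO.RU

open Polynomial Pool.Agent.LGO

variable {k L : Type} [Field k] [Field L] [Algebra k L]

theorem intO_iff {x y : L} : IntO k x y ↔ IsIntegral (Algebra.adjoin k {x}) y := by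
  constructor
  · rintro ⟨r, c, hr, h⟩
    let A := Algebra.adjoin k {x}
    let a : ℕ → A := fun j => ⟨aeval x (c j), aeval_mem_adjoin_singleton k x⟩
    refine ⟨X ^ r + ∑ j ∈ Finset.range r, C (a j) * X ^ j, ?_, ?_⟩
    · apply monic_X_pow_add
      refine (degree_sum_le _ _).trans_lt ?_
      rw [Finset.sup_lt_iff (by exact_mod_cast WithBot.bot_lt_coe r)]
      intro j hj
      exact (degree_C_mul_X_pow_le j _).trans_lt (by exact_mod_cast Finset.mem_range.1 hj)
    · rw [eval₂_add, eval₂_pow, eval₂_X, eval₂_finset_sum]
      rw [← h]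
      congr 1
      refine Finset.sum_congr rfl fun j _ => ?_
      rw [eval₂_mul, eval₂_pow, eval₂_X, eval₂_C]
      rfl
  · rintro ⟨p, hp, h⟩
    have hc : ∀ j, ∃ c : k[X], aeval x c = ((p.coeff j : Algebra.adjoin k {x}) : L) := by
      intro j
      have h0 : ∀ z ∈ Algebra.adjoin k {x}, ∃ c : k[X], aeval x c = z := by
        intro z hz
        rw [Algebra.adjoin_singleton_eq_range_aeval] at hz
        exact hz
      exact h0 _ (p.coeff j).2
    choose c hc using hc
    refine ⟨p.natDegree, c, ?_, ?_⟩
    · rw [Nat.pos_iff_ne_zero]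
      intro h0
      rw [hp.natDegree_eq_zero] at h0
      rw [h0, eval₂_one] at h
      exact one_ne_zero h
    · rw [eval₂_eq_sum_range, Finset.sum_range_succ, hp.coeff_natDegree, map_one, one_mul] at h
      rw [← h, add_comm]
      congr 1
      refine Finset.sum_congr rfl fun j _ => ?_
      rw [hc]
      rfl

theorem IntO.mul {x y z : L} (hy : IntO k x y) (hz : IntO k x z) : IntO k x (y * z) :=
  intO_iff.2 ((intO_iff.1 hy).mul (intO_iff.1 hz))

theorem intO_aeval (x : L) (q : k[X]) : IntO k x (aeval x q) := by
  refine ⟨1, fun _ => -q, one_pos, ?_⟩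
  rw [Finset.sum_range_one, map_neg]
  ring

/-- `p` is not constant -/
theorem IntO.mono {x y : L} (h : IntO k x y) {p : k[X]} (hp : 0 < p.natDegree) :
    IntO k (aeval x p) y := by
  rw [intO_iff] at h ⊢
  let A := Algebra.adjoin k {aeval x p}
  have hxA : IsIntegral A x := by
    let z : A := ⟨aeval x p, Algebra.self_mem_adjoin_singleton k _⟩
    have hlc : p.leadingCoeff ≠ 0 := by
      intro h0
      rw [leadingCoeff_eq_zero] at h0
      rw [h0, natDegree_zero] at hp
      exact lt_irrefl _ hp
    let q : A[X] := C (algebraMap k A p.leadingCoeff⁻¹) * (p.map (algebraMap k A) - C z)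
    have hd : (p.map (algebraMap k A) - C z).natDegree = p.natDegree := by
      rw [natDegree_sub_C, natDegree_map]
    have hlc2 : (p.map (algebraMap k A) - C z).leadingCoeff = algebraMap k A p.leadingCoeff := by
      rw [leadingCoeff, hd, coeff_sub, coeff_map, coeff_C_ne_zero hp.ne', sub_zero]
      rfl
    refine ⟨q, ?_, ?_⟩
    · rw [Monic, leadingCoeff_mul, leadingCoeff_C, hlc2, ← map_mul, inv_mul_cancel₀ hlc, map_one]
    · rw [eval₂_mul, eval₂_sub, eval₂_C, eval₂_C, eval₂_map]
      have h1 : (algebraMap A L).comp (algebraMap k A) = algebraMap k L := rfl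
      have h2 : (algebraMap A L) z = aeval x p := rfl
      rw [h1, h2, ← aeval_def, sub_self, mul_zero]
  have h1 : Algebra.adjoin k {x} ≤ (integralClosure A L).restrictScalars k := by
    rw [Algebra.adjoin_le_iff, Set.singleton_subset_iff]
    exact hxA
  have h2 : IsIntegral (integralClosure A L) y := by
    have := IsIntegral.map_of_comp_eq (R := Algebra.adjoin k {x}) (S := L)
      (T := integralClosure A L) (U := L)
      (Subalgebra.inclusion h1 : Algebra.adjoin k {x} →ₐ[k] _).toRingHom (RingHom.id L)
      (RingHom.ext fun a => rfl) h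
    exact this
  exact isIntegral_trans (R := A) (A := integralClosure A L) y h2

/-- a multiple is integral -/
theorem exists_mulI (hdep : Dep k L) {x : L} (hx : Transcendental k x) (y : L) :
    ∃ M : k[X], M ≠ 0 ∧ IntO k x (aeval x M * y) := by
  obtain ⟨P, hP, h⟩ := hdep x y
  have hn : 0 < P.natDegree := by
    rw [Nat.pos_iff_ne_zero]
    intro h0
    obtain ⟨c, rfl⟩ := natDegree_eq_zero.1 h0
    rw [ev2, eval₂_C] at h
    refine hx ⟨c, ?_, h⟩
    rintro rfl
    exact hP (map_zero _)
  refine ⟨P.leadingCoeff, leadingCoeff_ne_zero.2 hP, P.natDegree,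
    fun j => P.coeff j * P.leadingCoeff ^ (P.natDegree - 1 - j), hn, ?_⟩
  rw [ev2, eval₂_eq_sum_range, Finset.sum_range_succ] at h
  have h1 : ∀ q : k[X], (aeval x : k[X] →ₐ[k] L).toRingHom q = aeval x q := fun _ => rfl
  simp only [h1] at h
  have h2 : aeval x P.leadingCoeff = aeval x (P.coeff P.natDegree) := rfl
  have h3 := congrArg (fun z => aeval x P.leadingCoeff ^ (P.natDegree - 1) * z) h
  simp only [mul_zero, mul_add, Finset.mul_sum] at h3
  rw [← h3, add_comm]
  congr 1
  · refine Finset.sum_congr rfl fun j hj => ?_
    have h4 : P.natDegree - 1 = (P.natDegree - 1 - j) + j := by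
      have := Finset.mem_range.1 hj
      omega
    rw [map_mul, map_pow, mul_pow]
    conv_rhs => rw [h4, pow_add]
    ring
  · rw [← h2, mul_pow]
    have h4 : P.natDegree = (P.natDegree - 1) + 1 := by omega
    conv_lhs => rw [h4, pow_succ]
    conv_rhs => rw [h4]
    simp only [Nat.add_sub_cancel]
    ring

theorem exists_bas [CharZero k] (hdep : Dep k L) {m : ℕ} (ψ : Fin m → L)
    (hgen : IntermediateField.adjoin k (Set.range ψ) = ⊤) {x : L} (hx : Transcendental k x) :
    ∃ (δ : ℕ) (b : Fin δ → L), Bas k x b := by
  classical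
  have hinj : Function.Injective (aeval x : k[X] →ₐ[k] L).toRingHom :=
    transcendental_iff_injective.1 hx
  let K := FractionRing k[X]
  letI : Algebra K L := (IsFractionRing.lift (A := k[X]) (K := K) (L := L) hinj).toAlgebra
  have hK : ∀ p : k[X], algebraMap K L (algebraMap k[X] K p) = aeval x p := fun p =>
    IsFractionRing.lift_algebraMap hinj p
  haveI : IsScalarTower k K L := by
    refine IsScalarTower.of_algebraMap_eq fun c => ?_
    have h1 : algebraMap k K c = algebraMap k[X] K (C c) := rfl
    rw [h1, hK, aeval_C]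
  have halg : ∀ a, IsIntegral K (ψ a) := by
    intro a
    obtain ⟨P, hP, h⟩ := hdep x (ψ a)
    refine IsAlgebraic.isIntegral ⟨P.map (algebraMap k[X] K), ?_, ?_⟩
    · rw [Ne, Polynomial.map_eq_zero_iff (IsFractionRing.injective k[X] K)]
      exact hP
    · rw [aeval_def, eval₂_map]
      rw [← h, ev2]
      have h5 : (algebraMap K L).comp (algebraMap k[X] K) = (aeval x : k[X] →ₐ[k] L).toRingHom :=
        RingHom.ext fun p => hK p
      rw [h5]
  haveI : FiniteDimensional K (IntermediateField.adjoin K (Set.range ψ)) := by
    apply IntermediateField.finiteDimensional_adjoin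
    rintro _ ⟨a, rfl⟩
    exact halg a
  have htop : IntermediateField.adjoin K (Set.range ψ) = ⊤ := by
    rw [eq_top_iff]
    intro y _
    have h1 : IntermediateField.adjoin k (Set.range ψ) ≤
        (IntermediateField.adjoin K (Set.range ψ)).restrictScalars k := by
      rw [IntermediateField.adjoin_le_iff]
      exact IntermediateField.subset_adjoin K _
    rw [hgen] at h1
    exact h1 (IntermediateField.mem_top)
  haveI : FiniteDimensional K L := by
    rw [htop] at this
    exact Module.Finite.equiv (IntermediateField.topEquiv (F := K) (E := L)).toLinearEquiv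
  let b := Module.finBasis K L
  choose M hM0 hM using fun i => exists_mulI hdep hx (b i)
  refine ⟨Module.finrank K L, fun i => aeval x (M i) * b i, hM, ?_, ?_⟩
  · intro p hp
    have h1 : ∑ i, (algebraMap k[X] K (p i * M i)) • b i = 0 := by
      rw [← hp]
      refine Finset.sum_congr rfl fun i _ => ?_
      rw [Algebra.smul_def, hK, map_mul, mul_assoc]
    have h2 := (Fintype.linearIndependent_iff.1 b.linearIndependent) _ h1
    funext i
    have h3 := h2 i
    rw [map_eq_zero_iff _ (IsFractionRing.injective k[X] K)] at h3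
    exact (mul_eq_zero.1 h3).resolve_right (hM0 i)
  · intro y
    obtain ⟨q, hq⟩ := IsLocalization.exist_integer_multiples_of_finite (nonZeroDivisors k[X])
      (fun i => b.repr y i / algebraMap k[X] K (M i))
    choose p hp using hq
    refine ⟨q, p, nonZeroDivisors.coe_ne_zero q, ?_⟩
    have hMK : ∀ i, algebraMap k[X] K (M i) ≠ 0 := fun i => by
      rw [Ne, map_eq_zero_iff _ (IsFractionRing.injective k[X] K)]
      exact hM0 i
    have h1 : ∀ i, algebraMap k[X] K (p i * M i) = algebraMap k[X] K q * b.repr y i := by
      intro i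
      rw [map_mul, hp i, Algebra.smul_def]
      change algebraMap k[X] K q * (b.repr y i / algebraMap k[X] K (M i)) *
        algebraMap k[X] K (M i) = _
      rw [mul_assoc, div_mul_cancel₀ _ (hMK i)]
    have h2 : ∀ i, aeval x (p i) * (aeval x (M i) * b i) =
        aeval x (q : k[X]) * ((b.repr y i) • b i) := by
      intro i
      rw [← mul_assoc, ← map_mul, ← hK, h1 i, Algebra.smul_def, map_mul, hK, mul_assoc]
    rw [Finset.sum_congr rfl fun i _ => h2 i, ← Finset.mul_sum, b.sum_repr]

/-- more than `δ` elements are dependent -/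
theorem dep_poly {x : L} {δ : ℕ} {b : Fin δ → L} (hb : Bas k x b) {n : ℕ} (hn : δ < n)
    (y : Fin n → L) : ∃ a : Fin n → k[X], a ≠ 0 ∧ ∑ i, aeval x (a i) * y i = 0 := by
  classical
  choose q p hq hp using fun i => hb.span (y i)
  let f : (Fin n → k[X]) →ₗ[k[X]] (Fin δ → k[X]) :=
    { toFun := fun a j => ∑ i, a i * p i j
      map_add' := fun a a' => by
        funext j
        simp only [Pi.add_apply, add_mul, Finset.sum_add_distrib]
      map_smul' := fun c a => by
        funext j
        simp only [Pi.smul_apply, smul_eq_mul, RingHom.id_apply, Finset.mul_sum, mul_assoc] }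
  have hf : ¬ Function.Injective f := by
    intro h
    have := card_le_of_injective k[X] f h
    simp only [Fintype.card_fin] at this
    omega
  rw [← LinearMap.ker_eq_bot, Submodule.eq_bot_iff] at hf
  push Not at hf
  obtain ⟨a, ha, ha0⟩ := hf
  have ha' : ∀ j, ∑ i, a i * p i j = 0 := fun j => congrFun (LinearMap.mem_ker.1 ha) j
  refine ⟨fun i => a i * q i, ?_, ?_⟩
  · intro h
    apply ha0
    funext i
    have := congrFun h i
    exact (mul_eq_zero.1 this).resolve_right (hq i)
  · calc ∑ i, aeval x (a i * q i) * y i
        = ∑ i, ∑ j, aeval x (a i * p i j) * b j := by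
          refine Finset.sum_congr rfl fun i _ => ?_
          rw [map_mul, mul_assoc, hp i, Finset.mul_sum]
          refine Finset.sum_congr rfl fun j _ => ?_
          rw [map_mul, mul_assoc]
      _ = ∑ j, aeval x (∑ i, a i * p i j) * b j := by
          rw [Finset.sum_comm]
          refine Finset.sum_congr rfl fun j _ => ?_
          rw [map_sum, Finset.sum_mul]
      _ = 0 := by
          refine Finset.sum_eq_zero fun j _ => ?_
          rw [ha' j, map_zero, zero_mul]

end Pool.Agent.LGO.RU
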