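import Mathlib
import Pool.Agent.LGO.RU.GeoDefs

/-!
# LGO/RU, geometric input: the number of pole orders of a space of functions is its dimension

`dim_val`: induction on `N`.  Let `v = O.valuation`.  If no `w ∈ W` has `v(w) = v(g) ^ N`: induction (`N > 0`), or `W = 0` (`N = 0`).
Otherwise `v(w₀) = v(g) ^ N`; for `w ∈ W` one has `w / w₀ ∈ O`, so there is exactly one `c = φ(w)` with
`v(w / w₀ - c) < 1` (`exists_res`, `res_unique`); `φ` is linear, its kernel `W'` is `{w : v(w) < v(w₀)}` (all values are
`v(g) ^ n`, `n ≤ N - 1`, or `W' = 0` if `N = 0`), and `dim W ≤ dim W' + 1` (rank-nullity).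
`indep_val`: elements `y_i` with `v(y_i) = v(g) ^ (n_i)`, `n_i` pairwise incongruent modulo `e`, are independent over `k[x]`
(`v(p_i(x) y_i) = v(g) ^ (e deg p_i + n_i)` are pairwise different, so the sum has the maximum as value).
`val_sum`: the value of such a sum.
-/

namespace Pool.Agent.LGO.RU

open Polynomial Pool.Agent.LGO

variable {k L : Type} [Field k] [Field L] [Algebra k L]

theorem dim_val [IsAlgClosed k] (hdep : Dep k L) {O : ValuationSubring L} (hO : Over k O) {x g : L}
    {e : ℕ} (hg : Gam O x g e) (N : ℕ) (W : Submodule k L) [FiniteDimensional k W]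
    (hW : ∀ w ∈ W, w ≠ 0 → ∃ n ≤ N, O.valuation w = O.valuation g ^ n) :
    Module.finrank k W ≤ N + 1 := by
  have hg1 : 1 < O.valuation g := hg.one
  have hg0 : O.valuation g ≠ 0 := (zero_lt_one.trans hg1).ne'
  have hgO : g ∉ O := by
    rw [← O.valuation_le_one_iff, not_le]
    exact hg1
  have key : ∀ (M : ℕ) (W : Submodule k L), FiniteDimensional k W →
      (∀ w ∈ W, w ≠ 0 → ∃ n < M, O.valuation w = O.valuation g ^ n) → Module.finrank k W ≤ M := by
    intro M
    induction M with
    | zero =>
      intro W _ hW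
      have hbot : W = ⊥ := by
        rw [Submodule.eq_bot_iff]
        intro w hw
        by_contra hne
        obtain ⟨n, hn, -⟩ := hW w hw hne
        exact absurd hn (Nat.not_lt_zero n)
      rw [hbot, finrank_bot]
    | succ M ih =>
      intro W hfin hW
      by_cases hM : ∃ w ∈ W, O.valuation w = O.valuation g ^ M
      · obtain ⟨w₀, hw₀, hv₀⟩ := hM
        have hv₀' : O.valuation w₀ ≠ 0 := by
          rw [hv₀]
          exact pow_ne_zero _ hg0
        have hw₀' : w₀ ≠ 0 := (Valuation.ne_zero_iff _).1 hv₀'
        have hmem : ∀ w : W, (w : L) / w₀ ∈ O := by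
          intro w
          rw [← O.valuation_le_one_iff, map_div₀]
          by_cases hw : (w : L) = 0
          · rw [hw, map_zero, zero_div]
            exact zero_le_one
          · obtain ⟨n, hn, hv⟩ := hW w w.2 hw
            rw [hv, hv₀]
            apply div_le_one_of_le₀ _ zero_le
            exact pow_le_pow_right₀ hg1.le (Nat.lt_succ_iff.1 hn)
        choose φ hφ using fun w : W => exists_res hdep hO hgO (hmem w)
        let Φ : W →ₗ[k] k :=
          { toFun := φ
            map_add' := by
              intro a b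
              refine res_unique hO (hφ (a + b)) ?_
              have h1 : ((a + b : W) : L) / w₀ - algebraMap k L (φ a + φ b) =
                  ((a : L) / w₀ - algebraMap k L (φ a)) + ((b : L) / w₀ - algebraMap k L (φ b)) := by
                rw [map_add, Submodule.coe_add, add_div]
                ring
              rw [h1]
              exact O.valuation.map_add_lt (hφ a) (hφ b)
            map_smul' := by
              intro c a
              refine res_unique hO (hφ (c • a)) ?_
              have h1 : ((c • a : W) : L) / w₀ - algebraMap k L (c * φ a) =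
                  algebraMap k L c * ((a : L) / w₀ - algebraMap k L (φ a)) := by
                rw [map_mul, Submodule.coe_smul, Algebra.smul_def]
                ring
              rw [RingHom.id_apply, smul_eq_mul, h1, map_mul]
              have h2 : O.valuation (algebraMap k L c) ≤ 1 := (O.valuation_le_one_iff _).2 (hO c)
              calc O.valuation (algebraMap k L c) * O.valuation ((a : L) / w₀ - algebraMap k L (φ a))
                  ≤ 1 * O.valuation ((a : L) / w₀ - algebraMap k L (φ a)) := mul_le_mul_left h2 _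
                _ = O.valuation ((a : L) / w₀ - algebraMap k L (φ a)) := one_mul _
                _ < 1 := hφ a }
        have hker : Module.finrank k (LinearMap.ker Φ) ≤ M := by
          have h1 : Module.finrank k ((LinearMap.ker Φ).map W.subtype) ≤ M := by
            apply ih
            · infer_instance
            · intro w hw hne
              obtain ⟨a, ha, rfl⟩ := hw
              have ha' : φ a = 0 := ha
              have h2 := hφ a
              rw [ha', map_zero, sub_zero, map_div₀] at h2
              obtain ⟨n, hn, hv⟩ := hW a a.2 hne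
              refine ⟨n, ?_, hv⟩
              by_contra hcon
              rw [not_lt] at hcon
              have h3 : n = M := le_antisymm (Nat.lt_succ_iff.1 hn) hcon
              rw [hv, hv₀, h3, div_self (pow_ne_zero _ hg0)] at h2
              exact lt_irrefl _ h2
          rwa [Submodule.finrank_map_subtype_eq] at h1
        have h1 := LinearMap.finrank_range_add_finrank_ker Φ
        have h2 : Module.finrank k (LinearMap.range Φ) ≤ 1 := by
          have h3 := Submodule.finrank_le (LinearMap.range Φ)
          rwa [Module.finrank_self] at h3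
        omega
      · have h1 := ih W hfin (by
          intro w hw hne
          obtain ⟨n, hn, hv⟩ := hW w hw hne
          refine ⟨n, ?_, hv⟩
          rcases Nat.lt_succ_iff_lt_or_eq.1 hn with h | h
          · exact h
          · exact absurd ⟨w, hw, by rw [hv, h]⟩ hM)
        omega
  apply key (N + 1) W inferInstance
  intro w hw hne
  obtain ⟨n, hn, hv⟩ := hW w hw hne
  exact ⟨n, Nat.lt_succ_iff.2 hn, hv⟩

/-- the value of a sum of terms with different values modulo `e` -/
theorem val_sum {O : ValuationSubring L} (hO : Over k O) {x g : L} {e : ℕ} (hg : Gam O x g e)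
    {ι : Type} (s : Finset ι) (y : ι → L) (n : ι → ℤ) (hy : ∀ i ∈ s, O.valuation (y i) = O.valuation g ^ n i)
    (hn : ∀ i ∈ s, ∀ j ∈ s, i ≠ j → ¬ (e : ℤ) ∣ n i - n j) (p : ι → k[X]) (hp : ∃ i ∈ s, p i ≠ 0) :
    ∃ i ∈ s, p i ≠ 0 ∧ O.valuation (∑ j ∈ s, aeval x (p j) * y j) =
      O.valuation g ^ ((e : ℤ) * (p i).natDegree + n i) ∧
      ∀ j ∈ s, p j ≠ 0 → (e : ℤ) * (p j).natDegree + n j ≤ (e : ℤ) * (p i).natDegree + n i := by
  classical
  have hg1 : 1 < O.valuation g := hg.one
  have hg0 : O.valuation g ≠ 0 := (zero_lt_one.trans hg1).ne'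
  have hxO : x ∉ O := by
    rw [← O.valuation_le_one_iff, not_le, hg.vx]
    exact one_lt_pow₀ hg1 hg.e0.ne'
  have hval : ∀ i ∈ s, p i ≠ 0 → O.valuation (aeval x (p i) * y i) =
      O.valuation g ^ ((e : ℤ) * (p i).natDegree + n i) := by
    intro i hi hpi
    rw [map_mul, valuation_aeval hO hxO hpi, hy i hi, hg.vx, ← pow_mul, zpow_add₀ hg0]
    norm_cast
  have hne : (s.filter fun i => p i ≠ 0).Nonempty := by
    obtain ⟨i, hi, hpi⟩ := hp
    exact ⟨i, Finset.mem_filter.2 ⟨hi, hpi⟩⟩
  obtain ⟨i, hi, hmax⟩ := Finset.exists_max_image (s.filter fun i => p i ≠ 0)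
    (fun i => (e : ℤ) * (p i).natDegree + n i) hne
  rw [Finset.mem_filter] at hi
  refine ⟨i, hi.1, hi.2, ?_, fun j hj hpj => hmax j (Finset.mem_filter.2 ⟨hj, hpj⟩)⟩
  have hi0 : O.valuation (aeval x (p i) * y i) ≠ 0 := by
    rw [hval i hi.1 hi.2]
    exact zpow_ne_zero _ hg0
  have hlt : ∀ j ∈ s.erase i, O.valuation (aeval x (p j) * y j) <
      O.valuation (aeval x (p i) * y i) := by
    intro j hj
    rw [Finset.mem_erase] at hj
    by_cases hpj : p j = 0
    · rw [hpj, map_zero, zero_mul, map_zero]
      exact zero_lt_iff.2 hi0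
    · rw [hval j hj.2 hpj, hval i hi.1 hi.2]
      apply zpow_lt_zpow_right₀ hg1
      refine lt_of_le_of_ne (hmax j (Finset.mem_filter.2 ⟨hj.2, hpj⟩)) ?_
      intro h
      refine hn j hj.2 i hi.1 hj.1 ⟨(p i).natDegree - (p j).natDegree, ?_⟩
      linear_combination h
  have h3 := Valuation.map_sum_lt O.valuation hi0 hlt
  rw [← Finset.add_sum_erase _ _ hi.1, Valuation.map_add_eq_of_lt_left O.valuation h3,
    hval i hi.1 hi.2]

theorem indep_val {O : ValuationSubring L} (hO : Over k O) {x g : L} {e : ℕ} (hg : Gam O x g e)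
    {ι : Type} (s : Finset ι) (y : ι → L) (n : ι → ℤ) (hy : ∀ i ∈ s, O.valuation (y i) = O.valuation g ^ n i)
    (hn : ∀ i ∈ s, ∀ j ∈ s, i ≠ j → ¬ (e : ℤ) ∣ n i - n j) (p : ι → k[X])
    (h0 : ∑ j ∈ s, aeval x (p j) * y j = 0) : ∀ i ∈ s, p i = 0 := by
  by_contra hcon
  push Not at hcon
  obtain ⟨i, -, -, hv, -⟩ := val_sum hO hg s y n hy hn p hcon
  rw [h0, map_zero] at hv
  exact zpow_ne_zero _ (zero_lt_one.trans hg.one).ne' hv.symm

end Pool.Agent.LGO.RU
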