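import Mathlib
import Pool.Agent.LGO.RU.GeoBas
import Pool.Agent.LGO.RU.GeoCnt

/-!
# LGO/RU, geometric input: the degree is the order of the only pole

`deg_eq`: `x` has its only pole at `O`, of order `e`; then `δ = [L : k(x)]` is `e`.
`e ≤ δ`: the `g ^ (-i)`, `i < e`, are independent over `k[x]` (`indep_val`), so `e ≤ δ` (`dep_poly`).
`δ ≤ e`: `v(b_i) ≤ v(g) ^ c` for all `i`; `W` = span of the `b_i x ^ j`, `j < J`, has dimension `δ J` (`Bas.ind`); a nonzero
`w ∈ W` lies in all valuation rings `O' ≠ O` (`IntO.mem`, `huniq`), `v(w) ≤ v(g) ^ (c + e J)`, and `v(w) ≥ 1`: otherwise `w` would lie in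
all valuation rings, hence be algebraic over `k` (`exists_place`), a nonzero constant, `v(w) = 1` (`valuation_const`).  So
`v(w) = v(g) ^ n`, `n ≤ c + e J`, and `δ J ≤ c + e J + 1` (`dim_val`) for all `J`; `J = c + 2`.
-/

namespace Pool.Agent.LGO.RU

open Polynomial Pool.Agent.LGO

variable {k L : Type} [Field k] [Field L] [Algebra k L]

private theorem geoDeg_aeval_le {O : ValuationSubring L} (hO : Over k O) {x : L} (hx : 1 ≤ O.valuation x) (p : k[X])
    {J : ℕ} (hp : p.natDegree ≤ J) : O.valuation (aeval x p) ≤ O.valuation x ^ J := by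
  rw [aeval_eq_sum_range]
  refine Valuation.map_sum_le _ fun i hi => ?_
  rw [Finset.mem_range] at hi
  rw [Algebra.smul_def, map_mul, map_pow]
  have h1 : O.valuation (algebraMap k L (p.coeff i)) ≤ 1 := (O.valuation_le_one_iff _).2 (hO _)
  calc O.valuation (algebraMap k L (p.coeff i)) * O.valuation x ^ i ≤ 1 * O.valuation x ^ J :=
        mul_le_mul' h1 (pow_le_pow_right₀ hx (by omega))
    _ = _ := one_mul _

private theorem geoDeg_mem {O : ValuationSubring L} (hO : Over k O) {x : L} (hx : x ∈ O) (p : k[X]) :
    aeval x p ∈ O := by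
  induction p using Polynomial.induction_on' with
  | add p q hp hq => rw [map_add]; exact O.add_mem _ _ hp hq
  | monomial n a =>
    rw [aeval_monomial]
    exact O.mul_mem _ _ (hO a) (O.toSubring.pow_mem hx n)

/-- the parametrisation of the functions with bounded coefficients -/
private noncomputable def geoDegMap {δ : ℕ} (x : L) (b : Fin δ → L) (J : ℕ) :
    (Fin δ → degreeLT k J) →ₗ[k] L where
  toFun p := ∑ i, aeval x (p i : k[X]) * b i
  map_add' p q := by
    rw [← Finset.sum_add_distrib]
    refine Finset.sum_congr rfl fun i _ => ?_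
    simp only [Pi.add_apply, Submodule.coe_add, map_add]
    ring
  map_smul' c p := by
    rw [RingHom.id_apply, Finset.smul_sum]
    refine Finset.sum_congr rfl fun i _ => ?_
    simp only [Pi.smul_apply, Submodule.coe_smul, map_smul, smul_mul_assoc]

theorem deg_eq [IsAlgClosed k] (hdep : Dep k L) {O : ValuationSubring L} (hO : Over k O) {x g : L}
    (hx : x ∉ O) (huniq : ∀ O' : ValuationSubring L, Over k O' → x ∉ O' → O' = O)
    {e : ℕ} (hg : Gam O x g e) {δ : ℕ} {b : Fin δ → L} (hb : Bas k x b) : δ = e := by
  have hv0 : O.valuation g ≠ 0 := (zero_lt_one.trans hg.one).ne'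
  have hg0 : g ≠ 0 := by
    rintro rfl
    simp at hv0
  have hvx : 1 ≤ O.valuation x := by
    rw [hg.vx]
    exact one_le_pow₀ hg.one.le
  apply le_antisymm
  · -- `δ ≤ e`
    -- a bound for the `b i`
    have hbi : ∀ i, ∃ c : ℕ, O.valuation (b i) ≤ O.valuation g ^ c := by
      intro i
      by_cases h0 : b i = 0
      · exact ⟨0, by rw [h0, map_zero]; exact zero_le⟩
      · obtain ⟨n, hn⟩ := hg.gen _ h0
        refine ⟨n.toNat, ?_⟩
        rw [hn, ← zpow_natCast]
        exact zpow_le_zpow_right₀ hg.one.le (Int.self_le_toNat n)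
    choose c0 hc0 using hbi
    set c := Finset.univ.sup c0 with hc
    have hbc : ∀ i, O.valuation (b i) ≤ O.valuation g ^ c := fun i =>
      (hc0 i).trans (pow_le_pow_right₀ hg.one.le (Finset.le_sup (f := c0) (Finset.mem_univ i)))
    have key : ∀ J : ℕ, δ * J ≤ c + e * J + 1 := by
      intro J
      have hinj : Function.Injective (geoDegMap (k := k) x b J) := by
        rw [← LinearMap.ker_eq_bot, LinearMap.ker_eq_bot']
        intro p hp
        have h1 := hb.ind (fun i => (p i : k[X])) hp
        funext i
        exact Subtype.ext (congrFun h1 i)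
      have hfr : Module.finrank k (LinearMap.range (geoDegMap (k := k) x b J)) = δ * J := by
        rw [LinearMap.finrank_range_of_inj hinj, Module.finrank_pi_fintype]
        have h2 : Module.finrank k (degreeLT k J) = J := by
          rw [LinearEquiv.finrank_eq (degreeLTEquiv k J), Module.finrank_fin_fun]
        simp [h2]
      have hfd : FiniteDimensional k (degreeLT k J) :=
        LinearEquiv.finiteDimensional (degreeLTEquiv k J).symm
      have hfd2 : FiniteDimensional k (LinearMap.range (geoDegMap (k := k) x b J)) := inferInstance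
      rw [← hfr]
      refine dim_val hdep hO hg (c + e * J) _ ?_
      rintro w ⟨p, rfl⟩ hw0
      set w := geoDegMap (k := k) x b J p with hw
      have hwe : w = ∑ i, aeval x (p i : k[X]) * b i := rfl
      -- upper bound
      have hup : O.valuation w ≤ O.valuation g ^ (c + e * J) := by
        rw [hwe]
        refine Valuation.map_sum_le _ fun i _ => ?_
        rw [map_mul, add_comm c, pow_add, pow_mul, ← hg.vx]
        have h3 : (p i : k[X]).natDegree ≤ J := by
          have h4 := mem_degreeLT.1 (p i).2
          by_cases h5 : (p i : k[X]) = 0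
          · rw [h5, natDegree_zero]; exact Nat.zero_le _
          · exact ((natDegree_lt_iff_degree_lt h5).2 h4).le
        exact mul_le_mul' (geoDeg_aeval_le hO hvx _ h3) (hbc i)
      -- lower bound
      have hlow : 1 ≤ O.valuation w := by
        by_contra hcon
        rw [not_le] at hcon
        have hall : ∀ O' : ValuationSubring L, Over k O' → w ∈ O' := by
          intro O' hO'
          by_cases hx' : x ∈ O'
          · rw [hwe]
            exact sum_mem fun i _ => O'.mul_mem _ _ (geoDeg_mem hO' hx' _) ((hb.int i).mem hO' hx')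
          · rw [huniq O' hO' hx', ← O.valuation_le_one_iff]
            exact hcon.le
        have halg : IsAlgebraic k w := by
          by_contra htr
          obtain ⟨O', h1, h2⟩ := exists_place (k := k) (F := w) htr
          exact h2 (hall O' h1)
        have hint := halg.isIntegral
        obtain ⟨a, ha⟩ := minpoly.mem_range_of_degree_eq_one k w
          (IsAlgClosed.degree_eq_one_of_irreducible k (minpoly.irreducible hint))
        have ha0 : a ≠ 0 := by
          rintro rfl
          exact hw0 (by rw [← ha, map_zero])
        have := valuation_const hO ha0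
        have h8 : algebraMap k L a = w := ha
        rw [h8] at this
        rw [this] at hcon
        exact lt_irrefl _ hcon
      obtain ⟨n, hn⟩ := hg.gen w hw0
      rw [hn] at hup hlow
      have hn0 : 0 ≤ n := by
        by_contra hc
        push Not at hc
        have := zpow_lt_one_of_neg₀ hg.one hc
        exact absurd hlow (not_le.2 this)
      obtain ⟨m, rfl⟩ := Int.eq_ofNat_of_zero_le hn0
      rw [zpow_natCast] at hup hn
      exact ⟨m, (pow_le_pow_iff_right₀ hg.one).1 hup, hn⟩
    have h6 := key (c + 2)
    by_contra hcon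
    push Not at hcon
    have h7 : (e + 1) * (c + 2) ≤ δ * (c + 2) := Nat.mul_le_mul_right _ hcon
    nlinarith
  · -- `e ≤ δ`
    by_contra hcon
    push Not at hcon
    obtain ⟨a, ha, h0⟩ := dep_poly hb hcon (fun i : Fin e => (g⁻¹) ^ (i : ℕ))
    apply ha
    funext i
    refine indep_val hO hg Finset.univ (fun i : Fin e => (g⁻¹) ^ (i : ℕ)) (fun i => -((i : ℕ) : ℤ)) ?_ ?_ a h0 i
      (Finset.mem_univ i)
    · intro i _
      simp only [map_pow, map_inv₀, zpow_neg, zpow_natCast, inv_pow]
    · intro i _ j _ hij hdvd
      obtain ⟨q, hq⟩ := hdvd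
      have hi := i.2
      have hj := j.2
      have hne : (i : ℕ) ≠ (j : ℕ) := fun h => hij (Fin.ext h)
      have h1 : |(e : ℤ) * q| < e := by
        rw [← hq, abs_lt]
        constructor <;> omega
      have h2 : q = 0 := by
        by_contra hq0
        have h3 : 1 ≤ |q| := Int.one_le_abs hq0
        rw [abs_mul, Nat.abs_cast] at h1
        nlinarith
      rw [h2, mul_zero] at hq
      omega

end Pool.Agent.LGO.RU
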