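import Mathlib
import Pool.Agent.LGO.RU.GeoBas
import Pool.Agent.LGO.RU.GeoCnt

/-!
# LGO/RU, geometric input: the second function

`exists_y`: `x ∈ A` has its only pole at `O`, of order `e`, and `[L : k(x)] = e` (hypothesis `hb : Bas k x b`, `b : Fin e → L`).
There is `y ∈ A` with a monic equation `P(x, y) = 0` of degree `e`, `v(y) = v(g) ^ h`, `h` prime to `e`.
(1) `1, g, .., g ^ e` are dependent over `k[x]` (`dep_poly`), `∑_(l ≤ e) q_l(x) g ^ l = 0`; `q_e ≠ 0` (`indep_val` for `1, .., g ^ (e-1)`).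
(2) `D ∈ A`, `D ≠ 0`, `D g ∈ A` (`hA` : every element of `L` is a quotient of elements of `A`); `D` is algebraic over `k(x)`
(`hdep`), so `D' D = q(x) ≠ 0` for some `D' ∈ A` (a relation with constant term `≠ 0` in `D`), hence `q(x) g ∈ A`.
(3) `y = q(x) q_e(x) g`: multiply the equation by `(q(x) q_e(x)) ^ e / q_e(x)`, resp. `q_e(x)^(e-1)`: monic with coefficients in `k[x]`.
`v(y) = v(g) ^ (1 + e (deg q + deg q_e))`.
(4) DEGREES: `y ^ e = - ∑_(l < e) p_l(x) y ^ l`, `v(p_l(x) y ^ l) = v(g) ^ (e deg p_l + h l)` pairwise different, `val_sum`: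
the maximum is `v(y ^ e) = v(g) ^ (e h)`; it is attained for `e ∣ h l`, so for `l = 0`: `deg p_0 = h`.
(5) `ker`: division by the monic `P`: the remainder `R` has `deg_Y R < e`, `R(x, y) = 0`, `indep_val`: `R = 0`.
(6) `rep`: for every `z ∈ L` the `e + 1` elements `z, 1, y, .., y ^ (e-1)` are dependent (`dep_poly`), the coefficient of `z` is
not `0`.
-/

namespace Pool.Agent.LGO.RU

open Polynomial Pool.Agent.LGO

variable {k L : Type} [Field k] [Field L] [Algebra k L]

private theorem GeoEta_inc {e h : ℕ} (hh : Nat.Coprime e h) {i j : ℕ} (hi : i < e) (hj : j < e) (hij : i ≠ j) :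
    ¬ (e : ℤ) ∣ ((h * i : ℕ) : ℤ) - ((h * j : ℕ) : ℤ) := by
  intro hd
  have h1 : (e : ℤ) ∣ (h : ℤ) * ((i : ℤ) - j) := by
    have : ((h * i : ℕ) : ℤ) - ((h * j : ℕ) : ℤ) = (h : ℤ) * ((i : ℤ) - j) := by push_cast; ring
    rw [← this]
    exact hd
  have h2 : IsCoprime (e : ℤ) (h : ℤ) := Nat.isCoprime_iff_coprime.2 hh
  have h3 : (e : ℤ) ∣ (i : ℤ) - j := h2.dvd_of_dvd_mul_left h1
  have h4 : (i : ℤ) - j = 0 := by
    apply Int.eq_zero_of_abs_lt_dvd h3
    rw [abs_lt]
    omega
  omega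

private theorem GeoEta_inj {O : ValuationSubring L} {g : L} (hg : 1 < O.valuation g) {a b : ℤ}
    (h : O.valuation g ^ a = O.valuation g ^ b) : a = b :=
  zpow_right_injective₀ (zero_lt_one.trans hg) hg.ne' h

private theorem GeoEta_ev2 (x y : L) (N : k[X][X]) {e : ℕ} (hN : N.natDegree < e) :
    ev2 x y N = ∑ i ∈ Finset.range e, aeval x (N.coeff i) * y ^ i :=
  Polynomial.eval₂_eq_sum_range' _ hN _

/-- independence of the powers of `y` -/
private theorem GeoEta_ind {O : ValuationSubring L} (hO : Over k O) {x g y : L} {e h : ℕ} (hg : Gam O x g e)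
    (hh : Nat.Coprime e h) (hy : O.valuation y = O.valuation g ^ h) (p : ℕ → k[X])
    (h0 : ∑ i ∈ Finset.range e, aeval x (p i) * y ^ i = 0) : ∀ i < e, p i = 0 := by
  intro i hi
  refine indep_val hO hg (Finset.range e) (fun i => y ^ i) (fun i => ((h * i : ℕ) : ℤ)) ?_ ?_ p h0 i
    (Finset.mem_range.2 hi)
  · intro j _
    rw [map_pow, hy, zpow_natCast, pow_mul]
  · intro j hj l hl hjl
    exact GeoEta_inc hh (Finset.mem_range.1 hj) (Finset.mem_range.1 hl) hjl

/-- the value of a polynomial in `y` -/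
private theorem GeoEta_val {O : ValuationSubring L} (hO : Over k O) {x g y : L} {e h : ℕ} (hg : Gam O x g e)
    (hh : Nat.Coprime e h) (hy : O.valuation y = O.valuation g ^ h) (p : ℕ → k[X])
    (hp : ∃ i < e, p i ≠ 0) :
    ∃ i < e, p i ≠ 0 ∧ O.valuation (∑ i ∈ Finset.range e, aeval x (p i) * y ^ i) =
      O.valuation g ^ (e * (p i).natDegree + h * i) ∧
      ∀ j < e, p j ≠ 0 → e * (p j).natDegree + h * j ≤ e * (p i).natDegree + h * i := by
  obtain ⟨i₀, hi₀, hpi₀⟩ := hp
  obtain ⟨i, hi, h1, h2, h3⟩ := val_sum hO hg (Finset.range e) (fun i => y ^ i) (fun i => ((h * i : ℕ) : ℤ)) (by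
    intro j _
    rw [map_pow, hy, zpow_natCast, pow_mul]) (by
    intro j hj l hl hjl
    exact GeoEta_inc hh (Finset.mem_range.1 hj) (Finset.mem_range.1 hl) hjl) p ⟨i₀, Finset.mem_range.2 hi₀, hpi₀⟩
  refine ⟨i, Finset.mem_range.1 hi, h1, ?_, ?_⟩
  · rw [h2, ← zpow_natCast]
    push_cast
    rfl
  · intro j hj hpj
    have := h3 j (Finset.mem_range.2 hj) hpj
    push_cast at this
    exact_mod_cast this

theorem exists_y (hdep : Dep k L) {O : ValuationSubring L} (hO : Over k O) {x g : L} {e : ℕ}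
    (hg : Gam O x g e) {b : Fin e → L} (hb : Bas k x b) {A : Subalgebra k L} (hxA : x ∈ A)
    (hA : ∀ z : L, ∃ D ∈ A, D ≠ 0 ∧ D * z ∈ A) :
    ∃ y ∈ A, ∃ (h : ℕ) (P : k[X][X]), 0 < h ∧ Nat.Coprime e h ∧ O.valuation y = O.valuation g ^ h ∧
      P.Monic ∧ P.natDegree = e ∧ (∀ l < e, e * (P.coeff l).natDegree + h * l ≤ e * h) ∧
      (P.coeff 0).natDegree = h ∧ ev2 x y P = 0 := by
  have he := hg.e0
  have h1g := hg.one
  have hg0 : g ≠ 0 := by
    rintro rfl
    rw [map_zero] at h1g
    exact absurd h1g (not_lt.2 zero_le_one)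
  have hxO : x ∉ O := by
    rw [← O.valuation_le_one_iff, not_le, hg.vx]
    exact one_lt_pow₀ h1g he.ne'
  have hva : ∀ p : k[X], p ≠ 0 → O.valuation (aeval x p) = O.valuation g ^ (e * p.natDegree) := by
    intro p hp
    rw [valuation_aeval hO hxO hp, hg.vx, pow_mul]
  have hne : ∀ p : k[X], p ≠ 0 → aeval x p ≠ 0 := by
    intro p hp h0
    have h1 := hva p hp
    rw [h0, map_zero] at h1
    exact (pow_pos (zero_lt_one.trans h1g) _).ne h1
  have hmem : ∀ p : k[X], aeval x p ∈ A := by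
    intro p
    exact aeval_mem_adjoin_singleton _ _ |> fun h => (Algebra.adjoin_le (by simpa using hxA) :
      Algebra.adjoin k {x} ≤ A) h
  -- (1)
  obtain ⟨q', hq', hsum⟩ := dep_poly hb (Nat.lt_succ_self e) (fun i : Fin (e + 1) => g ^ (i : ℕ))
  let q : ℕ → k[X] := fun i => if hi : i < e + 1 then q' ⟨i, hi⟩ else 0
  have hqs : ∑ i ∈ Finset.range (e + 1), aeval x (q i) * g ^ i = 0 := by
    rw [Finset.sum_range]
    rw [← hsum]
    apply Finset.sum_congr rfl
    intro i _
    have : q (i : ℕ) = q' i := by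
      simp only [q, dif_pos i.2]
    rw [this]
  have hqe : q e ≠ 0 := by
    intro h0
    rw [Finset.sum_range_succ, h0, map_zero, zero_mul, add_zero] at hqs
    have h2 := GeoEta_ind hO hg (Nat.coprime_one_right e) (y := g) (by rw [pow_one]) q hqs
    apply hq'
    funext i
    have h3 : q (i : ℕ) = q' i := by simp only [q, dif_pos i.2]
    rw [← h3]
    rcases Nat.lt_succ_iff_lt_or_eq.1 i.2 with h4 | h4
    · exact h2 _ h4
    · rw [h4]; exact h0
  -- (2)
  obtain ⟨D, hDA, hD0, hDg⟩ := hA g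
  obtain ⟨r, hr, hrg⟩ : ∃ r : k[X], r ≠ 0 ∧ aeval x r * g ∈ A := by
    obtain ⟨P, hP, hP0⟩ := hdep x D
    obtain ⟨n, P', hPX, hP'0⟩ : ∃ (n : ℕ) (P' : k[X][X]), P = X ^ n * P' ∧ P'.coeff 0 ≠ 0 := by
      obtain ⟨P', h1, h2⟩ := Polynomial.exists_eq_pow_rootMultiplicity_mul_and_not_dvd P hP 0
      refine ⟨P.rootMultiplicity 0, P', ?_, ?_⟩
      · rw [map_zero, sub_zero] at h1
        exact h1
      · intro h3
        apply h2
        rw [map_zero, sub_zero]
        exact Polynomial.X_dvd_iff.2 h3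
    have h3 : ev2 x D P' = 0 := by
      have h4 : ev2 x D P = D ^ n * ev2 x D P' := by
        unfold ev2
        rw [hPX, Polynomial.eval₂_mul, Polynomial.eval₂_X_pow]
      rw [h4] at hP0
      exact (mul_eq_zero.1 hP0).resolve_left (pow_ne_zero _ hD0)
    refine ⟨P'.coeff 0, hP'0, ?_⟩
    have h5 : ev2 x D P' = D * ev2 x D P'.divX + aeval x (P'.coeff 0) := by
      conv_lhs => rw [← Polynomial.X_mul_divX_add P']
      unfold ev2
      rw [Polynomial.eval₂_add, Polynomial.eval₂_mul, Polynomial.eval₂_X, Polynomial.eval₂_C]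
      rfl
    have h6 : aeval x (P'.coeff 0) * g = -(ev2 x D P'.divX * (D * g)) := by
      rw [h5] at h3
      linear_combination g * h3
    rw [h6]
    refine A.neg_mem (A.mul_mem ?_ hDg)
    rw [GeoEta_ev2 x D P'.divX (Nat.lt_succ_self _)]
    exact A.sum_mem fun i _ => A.mul_mem (hmem _) (A.pow_mem hDA _)
  -- (3)
  set y : L := aeval x (r * q e) * g with hy
  set h : ℕ := 1 + e * (r.natDegree + (q e).natDegree) with hh
  have hyA : y ∈ A := by
    rw [hy, map_mul, mul_comm (aeval x r), mul_assoc]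
    exact A.mul_mem (hmem _) hrg
  have hcop : Nat.Coprime e h := by
    rw [hh, Nat.coprime_add_mul_left_right]
    exact Nat.coprime_one_right e
  have hvy : O.valuation y = O.valuation g ^ h := by
    rw [hy, map_mul, hva _ (mul_ne_zero hr hqe), Polynomial.natDegree_mul hr hqe, hh, pow_add, pow_one, mul_comm]
  let p : ℕ → k[X] := fun l => q l * r ^ (e - l) * (q e) ^ (e - 1 - l)
  have hrel : y ^ e + ∑ l ∈ Finset.range e, aeval x (p l) * y ^ l = 0 := by
    have h1 : ∀ l ∈ Finset.range e, aeval x (p l) * y ^ l =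
        aeval x (r ^ e * (q e) ^ (e - 1)) * (aeval x (q l) * g ^ l) := by
      intro l hl
      rw [Finset.mem_range] at hl
      have h2 : r ^ e * (q e) ^ (e - 1) * q l = p l * (r * q e) ^ l := by
        have h3 : r ^ e = r ^ (e - l) * r ^ l := by rw [← pow_add]; congr 1; omega
        have h4 : (q e) ^ (e - 1) = (q e) ^ (e - 1 - l) * (q e) ^ l := by rw [← pow_add]; congr 1; omega
        simp only [p]
        rw [h3, h4, mul_pow]
        ring
      rw [hy, mul_pow, ← map_pow, ← mul_assoc, ← mul_assoc, ← map_mul, ← map_mul, ← h2]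
    have h5 : y ^ e = aeval x (r ^ e * (q e) ^ (e - 1)) * (aeval x (q e) * g ^ e) := by
      have h6 : (r * q e) ^ e = r ^ e * (q e) ^ (e - 1) * q e := by
        have h4 : (q e) ^ e = (q e) ^ (e - 1) * q e := by
          rw [← pow_succ]
          congr 1
          omega
        rw [mul_pow, h4]
        ring
      rw [hy, mul_pow, ← map_pow, h6, map_mul, mul_assoc]
    rw [Finset.sum_congr rfl h1, h5, ← Finset.mul_sum, ← mul_add, add_comm,
      ← Finset.sum_range_succ (fun l => aeval x (q l) * g ^ l) e, hqs, mul_zero]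
  -- (4)
  have hy0 : y ≠ 0 := mul_ne_zero (hne _ (mul_ne_zero hr hqe)) hg0
  have hpne : ∃ i < e, p i ≠ 0 := by
    by_contra hcon
    push Not at hcon
    have h1 : ∑ l ∈ Finset.range e, aeval x (p l) * y ^ l = 0 := by
      apply Finset.sum_eq_zero
      intro l hl
      rw [hcon l (Finset.mem_range.1 hl), map_zero, zero_mul]
    rw [h1, add_zero] at hrel
    exact pow_ne_zero _ hy0 hrel
  obtain ⟨i, hi, hpi, hvi, hmax⟩ := GeoEta_val hO hg hcop hvy p hpne
  have hexp : e * (p i).natDegree + h * i = e * h := by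
    have h1 : ∑ l ∈ Finset.range e, aeval x (p l) * y ^ l = -(y ^ e) := by linear_combination hrel
    rw [h1, Valuation.map_neg, map_pow, hvy, ← pow_mul, ← zpow_natCast, ← zpow_natCast] at hvi
    have h2 := GeoEta_inj h1g hvi
    rw [mul_comm e h]
    exact_mod_cast h2.symm
  have hi0 : i = 0 := by
    have h1 : e ∣ h * i := by
      have h2 : e ∣ e * (p i).natDegree + h * i := by rw [hexp]; exact dvd_mul_right _ _
      exact (Nat.dvd_add_right (dvd_mul_right _ _)).1 h2
    have h3 : e ∣ i := hcop.dvd_of_dvd_mul_left h1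
    exact Nat.eq_zero_of_dvd_of_lt h3 hi
  subst hi0
  have hd0 : (p 0).natDegree = h := by
    rw [mul_zero, add_zero] at hexp
    exact Nat.eq_of_mul_eq_mul_left he hexp
  let P : k[X][X] := X ^ e + ∑ l ∈ Finset.range e, C (p l) * X ^ l
  have hdeg : (∑ l ∈ Finset.range e, C (p l) * X ^ l : k[X][X]).degree < (e : ℕ) := by
    refine lt_of_le_of_lt (Polynomial.degree_sum_le _ _) ?_
    rw [Finset.sup_lt_iff (WithBot.bot_lt_coe _)]
    intro l hl
    exact lt_of_le_of_lt (Polynomial.degree_C_mul_X_pow_le _ _) (by exact_mod_cast Finset.mem_range.1 hl)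
  have hPm : P.Monic := Polynomial.monic_X_pow_add hdeg
  have hPd : P.natDegree = e := by
    have : P.degree = (e : ℕ) := by
      simp only [P]
      rw [Polynomial.degree_add_eq_left_of_degree_lt (by rw [Polynomial.degree_X_pow]; exact hdeg),
        Polynomial.degree_X_pow]
    exact Polynomial.natDegree_eq_of_degree_eq_some this
  have hPc : ∀ l < e, P.coeff l = p l := by
    intro l hl
    simp only [P, Polynomial.coeff_add, Polynomial.coeff_X_pow, Polynomial.finsetSum_coeff,
      Polynomial.coeff_C_mul]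
    rw [if_neg hl.ne, zero_add, Finset.sum_eq_single l]
    · rw [if_pos rfl, mul_one]
    · intro j _ hj
      rw [if_neg hj.symm, mul_zero]
    · intro h1
      exact absurd (Finset.mem_range.2 hl) h1
  refine ⟨y, hyA, h, P, by omega, hcop, hvy, hPm, hPd, ?_, ?_, ?_⟩
  · intro l hl
    rw [hPc l hl]
    by_cases hpl : p l = 0
    · rw [hpl, Polynomial.natDegree_zero, mul_zero, zero_add, mul_comm]
      exact Nat.mul_le_mul_right _ hl.le
    · exact (hmax l hl hpl).trans hexp.le
  · rw [hPc 0 he]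
    exact hd0
  · unfold ev2
    simp only [P]
    rw [Polynomial.eval₂_add, Polynomial.eval₂_X_pow, Polynomial.eval₂_finsetSum]
    rw [← hrel]
    congr 1
    apply Finset.sum_congr rfl
    intro l _
    rw [Polynomial.eval₂_mul, Polynomial.eval₂_C, Polynomial.eval₂_X_pow]
    rfl

theorem ker_y {O : ValuationSubring L} (hO : Over k O) {x g y : L} {e h : ℕ} (hg : Gam O x g e)
    (hh : Nat.Coprime e h) (hy : O.valuation y = O.valuation g ^ h) {P : k[X][X]} (hP : P.Monic)
    (hd : P.natDegree = e) (h0 : ev2 x y P = 0) {Q : k[X][X]} (hQ : ev2 x y Q = 0) : P ∣ Q := by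
  rw [← Polynomial.modByMonic_eq_zero_iff_dvd hP]
  have he := hg.e0
  have hP1 : P ≠ 1 := by
    rintro rfl
    rw [Polynomial.natDegree_one] at hd
    omega
  have hlt : (Q %ₘ P).natDegree < e := by
    rw [← hd]
    exact Polynomial.natDegree_modByMonic_lt Q hP hP1
  have h1 : ev2 x y (Q %ₘ P) = 0 := by
    have h2 : ev2 x y Q = ev2 x y (Q %ₘ P) + ev2 x y P * ev2 x y (Q /ₘ P) := by
      conv_lhs => rw [← Polynomial.modByMonic_add_div Q P]
      unfold ev2
      rw [Polynomial.eval₂_add, Polynomial.eval₂_mul]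
    rw [hQ, h0, zero_mul, add_zero] at h2
    exact h2.symm
  rw [GeoEta_ev2 x y _ hlt] at h1
  have h3 := GeoEta_ind hO hg hh hy _ h1
  ext1 i
  rw [Polynomial.coeff_zero]
  by_cases hi : i < e
  · exact h3 i hi
  · exact Polynomial.coeff_eq_zero_of_natDegree_lt (lt_of_lt_of_le hlt (not_lt.1 hi))

theorem rep_y {O : ValuationSubring L} (hO : Over k O) {x g y : L} {e h : ℕ} (hg : Gam O x g e)
    (hh : Nat.Coprime e h) (hy : O.valuation y = O.valuation g ^ h) {b : Fin e → L} (hb : Bas k x b)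
    (z : L) : ∃ (M : k[X]) (N : k[X][X]), M ≠ 0 ∧ N.natDegree < e ∧ aeval x M * z = ev2 x y N := by
  have he := hg.e0
  obtain ⟨a, ha, hsum⟩ := dep_poly hb (Nat.lt_succ_self e)
    (fun i : Fin (e + 1) => Fin.cases z (fun j : Fin e => y ^ (j : ℕ)) i)
  rw [Fin.sum_univ_succ] at hsum
  simp only [Fin.cases_zero, Fin.cases_succ] at hsum
  let p : ℕ → k[X] := fun i => if hi : i < e then a (Fin.succ ⟨i, hi⟩) else 0
  have hs2 : ∑ i ∈ Finset.range e, aeval x (p i) * y ^ i =
      ∑ i : Fin e, aeval x (a i.succ) * y ^ (i : ℕ) := by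
    rw [Finset.sum_range]
    apply Finset.sum_congr rfl
    intro i _
    have : p (i : ℕ) = a i.succ := by simp only [p, dif_pos i.2]
    rw [this]
  have ha0 : a 0 ≠ 0 := by
    intro h0
    rw [h0, map_zero, zero_mul, zero_add, ← hs2] at hsum
    have h1 := GeoEta_ind hO hg hh hy p hsum
    apply ha
    funext i
    refine Fin.cases h0 (fun j => ?_) i
    have h2 := h1 (j : ℕ) j.2
    have h3 : p (j : ℕ) = a j.succ := by simp only [p, dif_pos j.2]
    rw [← h3, h2]
    rfl
  let N : k[X][X] := ∑ i ∈ Finset.range e, C (-(p i)) * X ^ i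
  have hN : N.natDegree < e := by
    have : N.natDegree ≤ e - 1 := by
      apply Polynomial.natDegree_sum_le_of_forall_le
      intro i hi
      refine (Polynomial.natDegree_C_mul_X_pow_le _ _).trans ?_
      have := Finset.mem_range.1 hi
      omega
    omega
  refine ⟨a 0, N, ha0, hN, ?_⟩
  have h1 : ev2 x y N = -∑ i ∈ Finset.range e, aeval x (p i) * y ^ i := by
    unfold ev2
    simp only [N]
    rw [Polynomial.eval₂_finsetSum, ← Finset.sum_neg_distrib]
    apply Finset.sum_congr rfl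
    intro i _
    rw [Polynomial.eval₂_mul, Polynomial.eval₂_C, Polynomial.eval₂_X_pow]
    change aeval x (-(p i)) * y ^ i = _
    rw [map_neg, neg_mul]
  rw [h1, hs2]
  linear_combination hsum

/-- the pole order of `N(x, y)` -/
theorem val_ev2 {O : ValuationSubring L} (hO : Over k O) {x g y : L} {e h : ℕ} (hg : Gam O x g e)
    (hh : Nat.Coprime e h) (hy : O.valuation y = O.valuation g ^ h) {N : k[X][X]} (hN : N.natDegree < e)
    (h0 : N ≠ 0) : O.valuation (ev2 x y N) = O.valuation g ^ wtG e h N := by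
  obtain ⟨i, hi, hpi, hvi, hmax⟩ := GeoEta_val hO hg hh hy (fun i => N.coeff i)
    ⟨N.natDegree, hN, by rw [← Polynomial.leadingCoeff]; exact Polynomial.leadingCoeff_ne_zero.2 h0⟩
  rw [GeoEta_ev2 x y N hN, hvi]
  congr 1
  unfold wtG
  apply le_antisymm
  · exact Finset.le_sup (f := fun i => e * (N.coeff i).natDegree + h * i) (Polynomial.mem_support_iff.2 hpi)
  · apply Finset.sup_le
    intro j hj
    have hj0 := Polynomial.mem_support_iff.1 hj
    have hje : j < e := by
      by_contra hcon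
      exact hj0 (Polynomial.coeff_eq_zero_of_natDegree_lt (lt_of_lt_of_le hN (not_lt.1 hcon)))
    exact hmax j hje hj0

end Pool.Agent.LGO.RU
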