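import Mathlib
import Pool.Agent.LGO.RU.GeoDefs

/-!
# LGO/RU, geometric input: the value group of a place is infinite cyclic

`v = O.valuation`.  (1) Among any `δ + 1` nonzero elements `y_i` of `L` there are two, `i ≠ j`, with `v(y_i) = v(y_j) v(x) ^ n`, `n : ℤ`:
they are dependent over `k[x]` (hypothesis `hdp`), `∑ p_i(x) y_i = 0`, and the maximum of the values
`v(p_i(x) y_i) = v(x) ^ deg p_i v(y_i)` (`valuation_aeval`, `p_i ≠ 0`) is attained twice (as in `rank_one` in `G/Rank.lean`).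
(2) So the set `S` of the values `v(y)`, `1 ≤ v(y) < v(x)` is finite (at most `δ` elements: distinct elements of `[1, v(x))`
are not in the same class modulo `v(x) ^ ℤ`).  Let `v(g)` be the smallest value `> 1` in `S ∪ {v(x)}`; there is no value strictly
between `1` and `v(g)`.  (3) `rank_one`: for `y ≠ 0` some `n` with `v(g) ^ n ≤ v(y) < v(g) ^ (n + 1)`, so `v(y g ^ (-n)) ∈ [1, v(g))` is `1`.
(4) `v(x) > 1` gives `v(x) = v(g) ^ e`, `e > 0`.
-/

namespace Pool.Agent.LGO.RU

open Polynomial Pool.Agent.LGO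

variable {k L : Type} [Field k] [Field L] [Algebra k L]

private theorem GeoGam_pair {O : ValuationSubring L} (hO : Over k O) {x : L} (hx : x ∉ O)
    {δ : ℕ} (hdp : ∀ y : Fin (δ + 1) → L, ∃ a : Fin (δ + 1) → k[X], a ≠ 0 ∧
      ∑ i, aeval x (a i) * y i = 0) (y : Fin (δ + 1) → L) (hy : ∀ i, y i ≠ 0) :
    ∃ i j, i ≠ j ∧ ∃ n : ℤ, O.valuation (y i) = O.valuation (y j) * O.valuation x ^ n := by
  have h1 := one_lt_of_notMem hx
  have ht0 : O.valuation x ≠ 0 := (zero_lt_one.trans h1).ne'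
  have hy0 : ∀ i, O.valuation (y i) ≠ 0 := fun i => (Valuation.ne_zero_iff _).2 (hy i)
  obtain ⟨a, ha, hE⟩ := hdp y
  have hf : ∀ i, a i ≠ 0 → O.valuation (aeval x (a i) * y i) =
      O.valuation x ^ (a i).natDegree * O.valuation (y i) := by
    intro i hi
    rw [map_mul, valuation_aeval hO hx hi]
  obtain ⟨i1, hi1⟩ : ∃ i, a i ≠ 0 := by
    by_contra hcon
    push Not at hcon
    exact ha (funext hcon)
  classical
  set S : Finset (Fin (δ + 1)) := Finset.univ.filter fun i => a i ≠ 0 with hS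
  have hmem : ∀ i, i ∈ S ↔ a i ≠ 0 := fun i => by simp [hS]
  have hE' : ∑ i ∈ S, aeval x (a i) * y i = 0 := by
    rw [← hE]
    apply Finset.sum_subset (Finset.subset_univ _)
    intro i _ hi
    rw [hmem, not_not] at hi
    rw [hi, map_zero, zero_mul]
  obtain ⟨i0, hi0, hmax⟩ := Finset.exists_max_image S
    (fun i => O.valuation (aeval x (a i) * y i)) ⟨i1, (hmem i1).2 hi1⟩
  have hi0a := (hmem i0).1 hi0
  have hi0ne : O.valuation (aeval x (a i0) * y i0) ≠ 0 := by
    rw [hf i0 hi0a]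
    exact mul_ne_zero (pow_ne_zero _ ht0) (hy0 i0)
  obtain ⟨j, hj, hji, hjv⟩ : ∃ j ∈ S, j ≠ i0 ∧
      O.valuation (aeval x (a j) * y j) = O.valuation (aeval x (a i0) * y i0) := by
    by_contra hcon
    push Not at hcon
    have h2 : ∀ i ∈ S.erase i0, O.valuation (aeval x (a i) * y i) <
        O.valuation (aeval x (a i0) * y i0) := by
      intro i hi
      rw [Finset.mem_erase] at hi
      exact lt_of_le_of_ne (hmax i hi.2) (hcon i hi.2 hi.1)
    have h3 := Valuation.map_sum_lt O.valuation hi0ne h2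
    rw [← Finset.add_sum_erase _ _ hi0] at hE'
    have h4 := Valuation.map_add_eq_of_lt_left O.valuation h3
    rw [hE', map_zero] at h4
    exact hi0ne h4.symm
  rw [hf j ((hmem j).1 hj), hf i0 hi0a] at hjv
  refine ⟨j, i0, hji, ((a i0).natDegree : ℤ) - (a j).natDegree, ?_⟩
  rw [zpow_sub₀ ht0, zpow_natCast, zpow_natCast, ← mul_div_assoc, eq_div_iff (pow_ne_zero _ ht0),
    mul_comm, hjv, mul_comm]

private theorem GeoGam_zpow {G : Type} [LinearOrderedCommGroupWithZero G] {u w w' : G} (hu : 1 < u)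
    (hw : 1 ≤ w) (hwu : w < u) (hw' : 1 ≤ w') (hwu' : w' < u) {n : ℤ} (h : w = w' * u ^ n) :
    w = w' := by
  have hu0 : u ≠ 0 := (zero_lt_one.trans hu).ne'
  rcases lt_trichotomy n 0 with hn | hn | hn
  · exfalso
    have h2 : w' = w * u ^ (-n) := by
      rw [h, mul_assoc, ← zpow_add₀ hu0, add_neg_cancel, zpow_zero, mul_one]
    have h3 : u ≤ u ^ (-n) := by
      calc u = u ^ (1 : ℤ) := (zpow_one u).symm
        _ ≤ u ^ (-n) := zpow_le_zpow_right₀ hu.le (by omega)
    have h4 : u ≤ w' := by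
      rw [h2]
      calc u ≤ u ^ (-n) := h3
        _ = 1 * u ^ (-n) := (one_mul _).symm
        _ ≤ w * u ^ (-n) := mul_le_mul_left hw _
    exact absurd hwu' (not_lt.2 h4)
  · rw [h, hn, zpow_zero, mul_one]
  · exfalso
    have h3 : u ≤ u ^ n := by
      calc u = u ^ (1 : ℤ) := (zpow_one u).symm
        _ ≤ u ^ n := zpow_le_zpow_right₀ hu.le (by omega)
    have h4 : u ≤ w := by
      rw [h]
      calc u ≤ u ^ n := h3
        _ = 1 * u ^ n := (one_mul _).symm
        _ ≤ w' * u ^ n := mul_le_mul_left hw' _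
    exact absurd hwu (not_lt.2 h4)

private theorem GeoGam_fin {O : ValuationSubring L} (hO : Over k O) {x : L} (hx : x ∉ O)
    {δ : ℕ} (hdp : ∀ y : Fin (δ + 1) → L, ∃ a : Fin (δ + 1) → k[X], a ≠ 0 ∧
      ∑ i, aeval x (a i) * y i = 0) :
    {w : O.ValueGroup | 1 ≤ w ∧ w < O.valuation x}.Finite := by
  by_contra hinf
  obtain ⟨t, ht, htc⟩ := Set.Infinite.exists_subset_card_eq hinf (δ + 1)
  have e : Fin (δ + 1) ≃ t := (finCongr htc.symm).trans t.equivFin.symm
  have hsurj : ∀ w : O.ValueGroup, ∃ y : L, O.valuation y = w := O.valuation_surjective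
  choose y hy using fun i => hsurj (e i : O.ValueGroup)
  have hmem : ∀ i, 1 ≤ O.valuation (y i) ∧ O.valuation (y i) < O.valuation x := by
    intro i
    rw [hy]
    exact ht (e i).2
  have hy0 : ∀ i, y i ≠ 0 := by
    intro i
    rw [← Valuation.ne_zero_iff O.valuation]
    exact (zero_lt_one.trans_le (hmem i).1).ne'
  obtain ⟨i, j, hij, n, hn⟩ := GeoGam_pair hO hx hdp y hy0
  have h1 := GeoGam_zpow (one_lt_of_notMem hx) (hmem i).1 (hmem i).2 (hmem j).1 (hmem j).2 hn
  rw [hy, hy] at h1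
  exact hij (e.injective (Subtype.ext h1))

theorem exists_gam (hdep : Dep k L) {O : ValuationSubring L} (hO : Over k O) {x : L} (hx : x ∉ O)
    {δ : ℕ} (hdp : ∀ y : Fin (δ + 1) → L, ∃ a : Fin (δ + 1) → k[X], a ≠ 0 ∧
      ∑ i, aeval x (a i) * y i = 0) : ∃ (g : L) (e : ℕ), Gam O x g e := by
  have h1 := one_lt_of_notMem hx
  have hfin := GeoGam_fin hO hx hdp
  have hfin2 : ({w : O.ValueGroup | 1 < w ∧ w < O.valuation x} ∪ {O.valuation x}).Finite :=
    (hfin.subset fun w hw => ⟨hw.1.le, hw.2⟩).union (Set.finite_singleton _)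
  obtain ⟨w0, hw0, hmin⟩ := Set.exists_min_image
    ({w : O.ValueGroup | 1 < w ∧ w < O.valuation x} ∪ {O.valuation x}) id hfin2
    ⟨O.valuation x, Or.inr rfl⟩
  have hw01 : 1 < w0 := by
    rcases hw0 with h | h
    · exact h.1
    · rw [Set.mem_singleton_iff] at h
      rw [h]
      exact h1
  have hw0x : w0 ≤ O.valuation x := hmin _ (Or.inr rfl)
  have hgap : ∀ w : O.ValueGroup, 1 < w → w0 ≤ w := by
    intro w hw
    by_contra hcon
    rw [not_le] at hcon
    exact absurd (hmin w (Or.inl ⟨hw, hcon.trans_le hw0x⟩)) (not_le.2 hcon)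
  obtain ⟨g, hg⟩ := O.valuation_surjective w0
  have hgO : g ∉ O := by
    rw [← O.valuation_le_one_iff, hg, not_le]
    exact hw01
  have hw00 : w0 ≠ 0 := (zero_lt_one.trans hw01).ne'
  have hgen : ∀ y : L, y ≠ 0 → ∃ n : ℤ, O.valuation y = O.valuation g ^ n := by
    intro y hy
    have hy0 : O.valuation y ≠ 0 := (Valuation.ne_zero_iff _).2 hy
    obtain ⟨a, b, ha, hab⟩ := rank_one hdep hO hgO hy
    rw [hg] at hab ⊢
    have ha' : (0 : ℤ) < a := by exact_mod_cast ha
    refine ⟨b / a, ?_⟩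
    have hlow : w0 ^ (b / a) ≤ O.valuation y := by
      by_contra hcon
      rw [not_le] at hcon
      have h2 : O.valuation y ^ a < (w0 ^ (b / a)) ^ a := pow_lt_pow_left₀ hcon zero_le ha.ne'
      rw [hab, ← zpow_natCast, ← zpow_mul, zpow_lt_zpow_iff_right₀ hw01] at h2
      have := Int.ediv_mul_le b ha'.ne'
      omega
    have hupp : O.valuation y < w0 ^ (b / a + 1) := by
      by_contra hcon
      rw [not_lt] at hcon
      have h2 : (w0 ^ (b / a + 1)) ^ a ≤ O.valuation y ^ a := pow_le_pow_left₀ zero_le hcon a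
      rw [hab, ← zpow_natCast, ← zpow_mul, zpow_le_zpow_iff_right₀ hw01] at h2
      have := Int.lt_ediv_add_one_mul_self b ha'
      omega
    by_contra hne
    have h3 : w0 ^ (b / a) < O.valuation y := lt_of_le_of_ne hlow (Ne.symm hne)
    have hp : w0 ^ (b / a) ≠ 0 := zpow_ne_zero _ hw00
    have h4 : 1 < O.valuation y / w0 ^ (b / a) := by
      rw [one_lt_div₀ (zero_lt_iff.2 hp)]
      exact h3
    have h5 := hgap _ h4
    rw [le_div_iff₀ (zero_lt_iff.2 hp), ← zpow_one_add₀ hw00, add_comm] at h5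
    exact absurd hupp (not_lt.2 h5)
  obtain ⟨n, hn⟩ := hgen x (by
    rintro rfl
    exact hx O.zero_mem)
  have hn0 : 0 < n := by
    by_contra hcon
    rw [not_lt] at hcon
    have : O.valuation x ≤ 1 := by
      rw [hn, hg]
      exact zpow_le_one_of_nonpos₀ hw01.le hcon
    exact absurd h1 (not_lt.2 this)
  refine ⟨g, n.toNat, ?_, ?_, ?_, hgen⟩
  · omega
  · rw [hg]
    exact hw01
  · rw [hn, ← zpow_natCast, Int.toNat_of_nonneg hn0.le]

end Pool.Agent.LGO.RU
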