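import Mathlib
import Pool.Agent.LGO.G.Pole
import Pool.Agent.LGO.G.SetupEx
import Pool.Agent.LGO.RU.GeoDeg
import Pool.Agent.LGO.RU.GeoEta
import Pool.Agent.LGO.RU.GeoGam

/-!
# LGO/RU, geometric input: the plane model with one point at infinity

`exists_plane`.  `ψ a ∉ O`, so `ψ a` is transcendental (constants lie in `O`, `k` algebraically closed).  `exists_setup`,
`exists_pole`: `F ∈ A = k[ψ]`, transcendental, with its only pole at `O`.  For all `i`: `M_i(F) ψ_i` integral over `k[F]`
(`exists_mulI`); `p = X ∏ M_i`, `x = p(F)`: `x ψ_i` is integral over `k[F]` and so over `k[x]` (`IntO.mul`, `intO_aeval`,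
`IntO.mono`).  `x ∉ O` (`valuation_aeval`), `x ∈ O'` for `O' ≠ O`.  `exists_bas` for `x`, `exists_gam` (`dep_poly`), `deg_eq`,
`exists_y` (`hA`: `L` is generated by `A = k[ψ]` as a field), `ker_y`, `rep_y` for all `ψ i` with a common denominator `M`;
`pole`: `val_ev2`, `v(ψ_a) > 1`.
-/

namespace Pool.Agent.LGO.RU

open Polynomial Pool.Agent.LGO

variable {k L : Type} [Field k] [Field L] [Algebra k L]

private theorem GeoAll_tr [IsAlgClosed k] {O : ValuationSubring L} (hO : Over k O) {x : L} (hx : x ∉ O) :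
    Transcendental k x := by
  intro halg
  have hint : IsIntegral k x := halg.isIntegral
  have h1 : (minpoly k x).degree = 1 :=
    IsAlgClosed.degree_eq_one_of_irreducible k (minpoly.irreducible hint)
  obtain ⟨c, hc⟩ := minpoly.mem_range_of_degree_eq_one k x h1
  apply hx
  rw [← hc]
  exact hO c

private theorem GeoAll_mem {O : ValuationSubring L} (hO : Over k O) {x : L} (hx : x ∈ O) (p : k[X]) :
    aeval x p ∈ O := by
  induction p using Polynomial.induction_on' with
  | add p q hp hq => rw [map_add]; exact O.add_mem _ _ hp hq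
  | monomial n a =>
    rw [aeval_monomial]
    exact O.mul_mem _ _ (hO a) (O.toSubring.pow_mem hx n)

private theorem GeoAll_memA {A : Subalgebra k L} {x : L} (hx : x ∈ A) (p : k[X]) : aeval x p ∈ A := by
  induction p using Polynomial.induction_on' with
  | add p q hp hq => rw [map_add]; exact A.add_mem hp hq
  | monomial n a =>
    rw [aeval_monomial]
    exact A.mul_mem (A.algebraMap_mem a) (A.pow_mem hx n)

private theorem GeoAll_ev2 (x y : L) (q : k[X]) (N : k[X][X]) :
    ev2 x y (C q * N) = aeval x q * ev2 x y N := by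
  unfold ev2
  rw [eval₂_mul, eval₂_C]
  rfl

theorem exists_plane [IsAlgClosed k] [CharZero k] (hdep : Dep k L) {m : ℕ} (ψ : Fin m → L)
    (hgen : IntermediateField.adjoin k (Set.range ψ) = ⊤) {O : ValuationSubring L} (hO : Over k O)
    {a : Fin m} (ha : ψ a ∉ O) :
    ∃ (Fx Fy : MvPolynomial (Fin m) k) (e h : ℕ) (P : k[X][X]) (M : k[X]) (N : Fin m → k[X][X]),
      PlaneF ψ O Fx Fy e h P M N := by
  classical
  have htr : Transcendental k (ψ a) := GeoAll_tr hO ha
  obtain ⟨t, δ₀, b₀, hS⟩ := exists_setup hdep ψ hgen htr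
  have htO : t ∉ O := by
    intro ht
    exact ha (hS.int (ψ a) (Algebra.subset_adjoin ⟨a, rfl⟩) O hO ht)
  obtain ⟨F, hFA, hFt, hFO, huniqF⟩ := exists_pole hdep hS (O := O) ⟨hO, htO⟩
  choose Mi hMi0 hMi using fun i => exists_mulI hdep hFt (ψ i)
  set p : k[X] := X * ∏ i, Mi i with hp
  have hpr0 : ∏ i, Mi i ≠ 0 := Finset.prod_ne_zero_iff.2 fun i _ => hMi0 i
  have hp0 : p ≠ 0 := mul_ne_zero X_ne_zero hpr0
  have hpd : 0 < p.natDegree := by
    rw [hp, natDegree_mul X_ne_zero hpr0, natDegree_X]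
    omega
  set x : L := aeval F p with hx
  have hxint : ∀ i, IntO k x (x * ψ i) := by
    intro i
    have h1 : IntO k F (x * ψ i) := by
      have h2 : x * ψ i = aeval F (X * ∏ j ∈ Finset.univ.erase i, Mi j) * (aeval F (Mi i) * ψ i) := by
        rw [hx, hp, ← Finset.mul_prod_erase Finset.univ Mi (Finset.mem_univ i)]
        simp only [map_mul]
        ring
      rw [h2]
      exact (intO_aeval F _).mul (hMi i)
    exact h1.mono hpd
  have hxO : x ∉ O := by
    intro h
    rw [← O.valuation_le_one_iff, hx, valuation_aeval hO hFO hp0] at h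
    exact absurd h (not_le.2 (one_lt_pow₀ (one_lt_of_notMem hFO) hpd.ne'))
  have huniq : ∀ O' : ValuationSubring L, Over k O' → x ∉ O' → O' = O := by
    intro O' hO' hx'
    refine huniqF O' hO' fun hF => hx' ?_
    exact GeoAll_mem hO' hF p
  have hxt : Transcendental k x := GeoAll_tr hO hxO
  obtain ⟨δ, b, hb⟩ := exists_bas hdep ψ hgen hxt
  obtain ⟨g, e, hg⟩ := exists_gam hdep hO hxO (δ := δ) fun y => dep_poly hb (Nat.lt_succ_self δ) y
  obtain rfl : δ = e := deg_eq hdep hO hxO huniq hg hb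
  set A : Subalgebra k L := Algebra.adjoin k (Set.range ψ) with hA
  have hxA : x ∈ A := GeoAll_memA hFA p
  have hAz : ∀ z : L, ∃ D ∈ A, D ≠ 0 ∧ D * z ∈ A := by
    intro z
    have h1 : z ∈ IntermediateField.adjoin k (Set.range ψ) := by
      rw [hgen]
      exact IntermediateField.mem_top
    rw [IntermediateField.mem_adjoin_iff_div] at h1
    obtain ⟨r, hr, s, hs, hz⟩ := h1
    by_cases hs0 : s = 0
    · refine ⟨1, A.one_mem, one_ne_zero, ?_⟩
      rw [hz, hs0, div_zero, mul_zero]
      exact A.zero_mem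
    · refine ⟨s, hs, hs0, ?_⟩
      rw [hz, mul_div_cancel₀ _ hs0]
      exact hr
  obtain ⟨y, hyA, h, P, h0, hcop, hvy, hPm, hPd, hPw, hPt, hP0⟩ := exists_y hdep hO hg hb hxA hAz
  choose Ni' hNi' using fun i => rep_y hO hg hcop hvy hb (ψ i)
  choose Ni hNi0 hNid hNi using hNi'
  rw [hA, Algebra.adjoin_range_eq_range_aeval] at hxA hyA
  obtain ⟨Fx, hFx⟩ := hxA
  obtain ⟨Fy, hFy⟩ := hyA
  have hFx' : MvPolynomial.aeval ψ Fx = x := hFx
  have hFy' : MvPolynomial.aeval ψ Fy = y := hFy
  have hM0 : ∏ i, Ni' i ≠ 0 := Finset.prod_ne_zero_iff.2 fun i _ => hNi0 i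
  have hrep : ∀ i, aeval x (∏ i, Ni' i) * ψ i =
      ev2 x y (C (∏ j ∈ Finset.univ.erase i, Ni' j) * Ni i) := by
    intro i
    rw [GeoAll_ev2, ← hNi i, ← Finset.mul_prod_erase Finset.univ Ni' (Finset.mem_univ i), map_mul]
    ring
  have hNd : ∀ i, (C (∏ j ∈ Finset.univ.erase i, Ni' j) * Ni i).natDegree < δ := by
    intro i
    exact (natDegree_C_mul_le _ _).trans_lt (hNid i)
  refine ⟨Fx, Fy, δ, h, P, ∏ i, Ni' i, fun i => C (∏ j ∈ Finset.univ.erase i, Ni' j) * Ni i, ?_⟩
  refine
    { e0 := hg.e0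
      h0 := h0
      cop := hcop
      monic := hPm
      deg := hPd
      wt := hPw
      top := hPt
      rel := ?_
      ker := ?_
      M0 := hM0
      Nd := hNd
      rep := ?_
      pole := ?_
      int := ?_ }
  · rw [hFx', hFy']
    exact hP0
  · intro Q hQ
    rw [hFx', hFy'] at hQ
    exact ker_y hO hg hcop hvy hPm hPd hP0 hQ
  · intro i
    rw [hFx', hFy']
    exact hrep i
  · intro i hi
    have hxpos : 1 < O.valuation g := hg.one
    have hi0 : ψ i ≠ 0 := by
      intro h1
      apply hi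
      rw [h1]
      exact O.zero_mem
    have hne : aeval x (∏ i, Ni' i) ≠ 0 := by
      intro h1
      exact hxt ⟨_, hM0, h1⟩
    have hNne : C (∏ j ∈ Finset.univ.erase i, Ni' j) * Ni i ≠ 0 := by
      intro h1
      have h2 := hrep i
      rw [h1] at h2
      unfold ev2 at h2
      rw [eval₂_zero] at h2
      exact mul_ne_zero hne hi0 h2
    have h1 := val_ev2 hO hg hcop hvy (hNd i) hNne
    rw [← hrep i, map_mul, valuation_aeval hO hxO hM0, hg.vx, ← pow_mul] at h1
    have h2 : O.valuation g ^ (δ * (∏ i, Ni' i).natDegree) <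
        O.valuation g ^ wtG δ h (C (∏ j ∈ Finset.univ.erase i, Ni' j) * Ni i) := by
      rw [← h1]
      have h3 : 0 < O.valuation g ^ (δ * (∏ i, Ni' i).natDegree) := pow_pos (zero_lt_one.trans hxpos) _
      exact lt_mul_of_one_lt_right h3 (one_lt_of_notMem hi)
    exact (pow_lt_pow_iff_right₀ hxpos).1 h2
  · intro i
    rw [hFx']
    exact hxint i

end Pool.Agent.LGO.RU
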