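import Mathlib
import Pool.Agent.LGO.RU.GeoV
import Pool.Agent.LGO.RU.GeoAll
import Pool.Agent.LGO.GM.Geo

/-!
# LGO/RU, geometric input: the plane model of a curve `V ⊆ ℂⁿ`

`exists_planeV`: `L`, `ψ` from `exists_funQM` (`i = id`), the place `O` from `exists_ultraM` for the sequence, as in `GM/Geo.lean` (`geoM`): `ψ_a`,
`ψ_b ∉ O`.  `exists_plane`.  `PlaneV`: identities between polynomials in the `ψ` hold on `V` (`exists_funQM`); `ncx`: as in `geoM`.
`back`: `x_c = N_c(X, Y) / M(X)`; `V` is closed over `Qb` (`KClosed`): for `G ∈ Qb[x]` with `aeval ψ G = 0` there are `d`, `Q` with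
`M(T) ^ d G(x) = Q(T, Z)` whenever `M(T) x_c = N_c(T, Z)` for all `c` (in every `Qb`-algebra; induction on `G`), so `Q(ξ, η) = 0`, `P ∣ Q` (`ker`),
`Q(X, Y) = 0`, `G(x) = 0`.  The same with `Fx - T`, `Fy - Z`.
-/

namespace Pool.Agent.LGO.RU

open Polynomial Pool.Agent.LGO Filter Topology Pool.Agent.Hhelper14.ZPL

/-- the value at `(T, Z)` -/
private noncomputable def GeoTr_ev {B : Type} [CommRing B] [Algebra Qb B] (T Z : B) : Qb[X][X] →+* B :=
  eval₂RingHom (aeval T : Qb[X] →ₐ[Qb] B).toRingHom Z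

private theorem GeoTr_C {B : Type} [CommRing B] [Algebra Qb B] (T Z : B) (p : Qb[X]) :
    GeoTr_ev T Z (C p) = aeval T p := by
  unfold GeoTr_ev
  rw [coe_eval₂RingHom, eval₂_C]
  rfl

private theorem GeoTr_X {B : Type} [CommRing B] [Algebra Qb B] (T Z : B) :
    GeoTr_ev T Z X = Z := by
  unfold GeoTr_ev
  rw [coe_eval₂RingHom, eval₂_X]

private theorem GeoTr_ev2 {L : Type} [Field L] [Algebra Qb L] (T Z : L) (P : Qb[X][X]) :
    ev2 T Z P = GeoTr_ev T Z P := rfl

private theorem GeoTr_hom {B B' : Type} [CommRing B] [Algebra Qb B] [CommRing B'] [Algebra Qb B']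
    (f : B →ₐ[Qb] B') (T Z : B) (P : Qb[X][X]) : f (GeoTr_ev T Z P) = GeoTr_ev (f T) (f Z) P := by
  have h : (f : B →+* B').comp (GeoTr_ev T Z) = GeoTr_ev (f T) (f Z) := by
    apply Polynomial.ringHom_ext
    · intro p
      rw [RingHom.comp_apply, GeoTr_C, GeoTr_C]
      exact (aeval_algHom_apply f T p).symm
    · rw [RingHom.comp_apply, GeoTr_X, GeoTr_X]
      rfl
  exact congrArg (fun g => g P) h

private theorem GeoTr_toC1 (M : Qb[X]) (T : ℂ) : (toC1 M).eval T = aeval T M := by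
  unfold toC1
  rw [eval_map_algebraMap]

private theorem GeoTr_toC (P : Qb[X][X]) (T Z : ℂ) : (toC P).evalEval T Z = GeoTr_ev T Z P := by
  have h : (evalEvalRingHom T Z).comp (mapRingHom (mapRingHom (algebraMap Qb ℂ))) = GeoTr_ev T Z := by
    apply Polynomial.ringHom_ext
    · intro p
      rw [RingHom.comp_apply, GeoTr_C, coe_mapRingHom, map_C, coe_evalEvalRingHom, evalEval_C,
        coe_mapRingHom, eval_map_algebraMap]
    · rw [RingHom.comp_apply, GeoTr_X, coe_mapRingHom, map_X, coe_evalEvalRingHom, evalEval_X]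
  exact congrArg (fun g => g P) h

/-- clearing denominators -/
private theorem GeoTr_clear {n : ℕ} (M : Qb[X]) (N : Fin n → Qb[X][X]) (G : MvPolynomial (Fin n) Qb) :
    ∃ (d : ℕ) (Q : Qb[X][X]), ∀ (B : Type) [CommRing B] [Algebra Qb B] (T Z : B) (z : Fin n → B),
      (∀ c, aeval T M * z c = GeoTr_ev T Z (N c)) →
        (aeval T M) ^ d * MvPolynomial.aeval z G = GeoTr_ev T Z Q := by
  induction G using MvPolynomial.induction_on with
  | C r =>
    refine ⟨0, C (C r), ?_⟩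
    intro B _ _ T Z z _
    rw [pow_zero, one_mul, MvPolynomial.aeval_C, GeoTr_C, aeval_C]
  | add p q hp hq =>
    obtain ⟨d₁, Q₁, h₁⟩ := hp
    obtain ⟨d₂, Q₂, h₂⟩ := hq
    refine ⟨d₁ + d₂, C M ^ d₂ * Q₁ + C M ^ d₁ * Q₂, ?_⟩
    intro B _ _ T Z z hz
    rw [map_add, map_add, map_mul, map_mul, map_pow, map_pow, GeoTr_C, ← h₁ B T Z z hz,
      ← h₂ B T Z z hz]
    ring
  | mul_X p c hp =>
    obtain ⟨d, Q, h⟩ := hp
    refine ⟨d + 1, Q * N c, ?_⟩
    intro B _ _ T Z z hz
    rw [map_mul, map_mul, MvPolynomial.aeval_X, ← h B T Z z hz, ← hz c]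
    ring

theorem exists_planeV {n : ℕ} {V : Set (Fin n → ℂ)} (hV : Pool.Agent.Hhelper14.ZPL.IsIrredClosed V)
    (hVk : KClosed V) (hdim : Pool.Agent.Hhelper14.ZPL.dim V = 1) (P : ℕ → Fin n → ℂ)
    (hP : ∀ m, P m ∈ V) (a b : Fin n) (ha : Tendsto (fun m => ‖P m a‖) atTop atTop)
    (hb : Tendsto (fun m => ‖P m b‖) atTop atTop) :
    ∃ (Fx Fy : MvPolynomial (Fin n) Qb) (e h : ℕ) (P : Polynomial (Polynomial Qb))
      (M : Polynomial Qb) (N : Fin n → Polynomial (Polynomial Qb)), PlaneV V Fx Fy e h P M N ∧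
      e * M.natDegree < wtG e h (N a) ∧ e * M.natDegree < wtG e h (N b) := by
  obtain ⟨L, hL, hA, ψ, hgen, hdep, h0, hfin⟩ := GM.exists_funQM hV hVk hdim (id : Fin n → Fin n)
  have hid : ∀ x : Fin n → ℂ, x ∘ (id : Fin n → Fin n) = x := fun x => rfl
  -- the place
  obtain ⟨O, hOver, hlt, hnot⟩ := GM.exists_ultraM ψ hgen (fun m => P m ∘ id)
    (fun D hD m => (h0 D).mp hD (P m) (hP m))
    (fun D hD => by
      filter_upwards [eventually_notMem_finite (hfin D hD) (id a) P ha] with m hm h5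
      exact hm ⟨hP m, h5⟩)
  have hO : ∀ c : Fin n, Tendsto (fun m => ‖P m c‖) atTop atTop → ψ c ∉ O := by
    intro c hc
    have h1 := hnot (MvPolynomial.X c) 1 (by rw [map_one]; exact one_ne_zero) (by
      simpa only [MvPolynomial.aeval_X, map_one, div_one, Function.comp_apply, id] using hc)
    rwa [MvPolynomial.aeval_X, map_one, div_one] at h1
  obtain ⟨Fx, Fy, e, h, R, M, N, hF⟩ := exists_plane hdep ψ hgen hOver (hO a ha)
  set ξ : L := MvPolynomial.aeval ψ Fx with hξ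
  set η : L := MvPolynomial.aeval ψ Fy with hη
  have hrel : GeoTr_ev ξ η R = 0 := by rw [← GeoTr_ev2]; exact hF.rel
  have hrep : ∀ c, aeval ξ M * ψ c = GeoTr_ev ξ η (N c) := fun c => by
    rw [← GeoTr_ev2]; exact hF.rep c
  have hker : ∀ Q : Qb[X][X], GeoTr_ev ξ η Q = 0 → R ∣ Q := fun Q hQ =>
    hF.ker Q (by rw [GeoTr_ev2]; exact hQ)
  -- identities in the function field hold on `V`
  have hon : ∀ G : MvPolynomial (Fin n) Qb, MvPolynomial.aeval ψ G = 0 →
      ∀ x ∈ V, (MvPolynomial.aeval x G : ℂ) = 0 := fun G hG x hx => (h0 G).mp hG x hx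
  -- `V` is closed over `Qb`
  have hmem : ∀ x : Fin n → ℂ, (∀ G : MvPolynomial (Fin n) Qb, MvPolynomial.aeval ψ G = 0 →
      (MvPolynomial.aeval x G : ℂ) = 0) → x ∈ V := by
    intro x hx
    rw [kclosed_iff] at hVk
    apply hVk
    intro p hp
    apply hx
    rw [h0]
    exact fun y hy => (MvPolynomial.mem_vanishingIdeal_iff.mp hp) y hy
  refine ⟨Fx, Fy, e, h, R, M, N, ?_, hF.pole a (hO a ha), hF.pole b (hO b hb)⟩
  refine ⟨hF.e0, hF.h0, hF.cop, hF.monic, hF.deg, hF.wt, hF.top, hF.M0, hF.Nd, ?_, ?_, ?_, ?_, ?_⟩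
  · -- `Fx` is not constant
    intro c
    by_contra hcon
    push Not at hcon
    have h1 : (1 : MvPolynomial (Fin n) Qb) ∉
        (MvPolynomial.vanishingIdeal Qb V : Ideal (MvPolynomial (Fin n) Qb)) := by
      intro h2
      have h3 := (MvPolynomial.mem_vanishingIdeal_iff.mp h2) (P 0) (hP 0)
      rw [map_one] at h3
      exact one_ne_zero h3
    obtain ⟨z, hz, -⟩ := exists_Qb_point hVk h1
    have h4 : c = ((MvPolynomial.aeval z Fx : Qb) : ℂ) := by
      rw [← hcon _ hz]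
      unfold vl
      rw [← aeval_coe]
    have h5 : MvPolynomial.aeval ψ (Fx - MvPolynomial.C (MvPolynomial.aeval z Fx : Qb) :
        MvPolynomial (Fin n) Qb) = 0 := by
      rw [h0]
      intro x hx
      rw [hid, map_sub, MvPolynomial.aeval_C]
      have h6 := hcon x hx
      unfold vl at h6
      rw [h6, h4]
      exact sub_self _
    rw [map_sub, MvPolynomial.aeval_C, sub_eq_zero] at h5
    have h7 : R ∣ C (X - C (MvPolynomial.aeval z Fx : Qb)) := by
      apply hker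
      rw [GeoTr_C, map_sub, aeval_X, aeval_C, ← h5, hξ, sub_self]
    have h8 : (C (X - C (MvPolynomial.aeval z Fx : Qb)) : Qb[X][X]) ≠ 0 := by
      rw [Ne, C_eq_zero]
      exact X_sub_C_ne_zero _
    have h9 := natDegree_le_of_dvd h7 h8
    rw [natDegree_C, hF.deg] at h9
    exact absurd hF.e0 (by omega)
  · intro x hx
    rw [GeoTr_toC]
    have h1 := hon (GeoTr_ev Fx Fy R) (by rw [GeoTr_hom]; exact hrel) x hx
    rw [GeoTr_hom] at h1
    exact h1
  · intro x hx c
    have h1 := hon (aeval Fx M * MvPolynomial.X c - GeoTr_ev Fx Fy (N c)) (by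
      rw [map_sub, map_mul, MvPolynomial.aeval_X, GeoTr_hom, ← aeval_algHom_apply, sub_eq_zero]
      exact hrep c) x hx
    rw [map_sub, map_mul, MvPolynomial.aeval_X, GeoTr_hom, ← aeval_algHom_apply, sub_eq_zero] at h1
    rw [GeoTr_toC1, GeoTr_toC]
    exact h1
  · intro T Z hTZ hMT
    rw [GeoTr_toC] at hTZ
    rw [GeoTr_toC1] at hMT
    set x : Fin n → ℂ := fun c => GeoTr_ev T Z (N c) / aeval T M with hx
    have hz : ∀ c, aeval T M * x c = GeoTr_ev T Z (N c) := fun c => by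
      rw [hx]
      exact mul_div_cancel₀ _ hMT
    have hdvd : ∀ Q : Qb[X][X], R ∣ Q → GeoTr_ev T Z Q = 0 := by
      rintro Q ⟨Q', rfl⟩
      rw [map_mul, hTZ, zero_mul]
    have key : ∀ (G : MvPolynomial (Fin n) Qb) (S : Qb[X][X]),
        MvPolynomial.aeval ψ G = GeoTr_ev ξ η S → (MvPolynomial.aeval x G : ℂ) = GeoTr_ev T Z S := by
      intro G S hG
      obtain ⟨d, Q, hQ⟩ := GeoTr_clear M N G
      have h1 := hQ L ξ η ψ hrep
      have h2 := hQ ℂ T Z x hz
      have h3 : GeoTr_ev ξ η (C M ^ d * S - Q) = 0 := by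
        rw [map_sub, map_mul, map_pow, GeoTr_C, ← h1, hG, sub_self]
      have h4 := hdvd _ (hker _ h3)
      rw [map_sub, map_mul, map_pow, GeoTr_C, ← h2, sub_eq_zero] at h4
      exact (mul_left_cancel₀ (pow_ne_zero d hMT) h4).symm
    refine ⟨x, ?_, ?_, ?_, ?_⟩
    · apply hmem
      intro G hG
      have h1 := key G 0 (by rw [map_zero]; exact hG)
      rw [h1, map_zero]
    · have h1 := key Fx (C X) (by rw [GeoTr_C, aeval_X])
      rw [GeoTr_C, aeval_X] at h1
      exact h1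
    · have h1 := key Fy X (by rw [GeoTr_X])
      rw [GeoTr_X] at h1
      exact h1
    · intro c
      rw [GeoTr_toC1, GeoTr_toC]
      exact hz c
  · intro c
    obtain ⟨r, q, hr, hq⟩ := hF.int c
    refine ⟨r, q, hr, ?_⟩
    intro x hx
    have h1 := hon ((Fx * MvPolynomial.X c) ^ r +
      ∑ j ∈ Finset.range r, aeval Fx (q j) * (Fx * MvPolynomial.X c) ^ j) (by
        rw [map_add, map_pow, map_mul, MvPolynomial.aeval_X, map_sum]
        rw [← hq]
        congr 1
        refine Finset.sum_congr rfl fun j _ => ?_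
        rw [map_mul, map_pow, map_mul, MvPolynomial.aeval_X, ← aeval_algHom_apply]) x hx
    rw [map_add, map_pow, map_mul, MvPolynomial.aeval_X, map_sum] at h1
    unfold vl
    rw [← h1]
    congr 1
    refine Finset.sum_congr rfl fun j _ => ?_
    rw [map_mul, map_pow, map_mul, MvPolynomial.aeval_X, ← aeval_algHom_apply, GeoTr_toC1]

end Pool.Agent.LGO.RU
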