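import Mathlib
import Pool.Agent.LGO.RU.GeoV
import Pool.Agent.LGO.GM.RelF
import Pool.Agent.LGO.Gal.Fin

/-!
# LGO/RU, the bridge: finite fibres of `ξ` and linear independence of the `η ^ i ξ ^ j`

PROOFS.
* `gex_fib`: `{x | ξ x = c}` is Zariski closed (over `ℂ`; as in `Crv.fib` of `LGO/ZV/Types.lean`: an `x` in the zero locus of the vanishing ideal satisfies every polynomial identity which holds on the set; the polynomial here is
  `G.Fx` with its coefficients mapped to `ℂ`, minus `C c`), does not contain `V` (`G.ncx`), so `finite_inter hV hdim` applies.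
* `gex_root`: the zeros of `R ≠ 0` are finitely many (`R.roots.toFinset`); union of fibres (`Set.Finite.biUnion`).
* `gex_indep`: let `Q = ∑_{i<e} ∑_{j<N} C (C (c i j) * X ^ j) * X ^ i ∈ ℂ[X][X]` (`Q.coeff i = ∑_j C (c i j) X ^ j` for `i < e`), `Q.natDegree < e`; for `x` in the set `Q.evalEval (ξ x) (η x) = 0`, `G.P.evalEval (ξ x) (η x) = 0`
  (`G.onV`).  Suppose `Q ≠ 0`.  `G.P` is monic of degree `e` in `Y` and irreducible, so it is irreducible over the field `ℂ(X)` (`Polynomial.Monic.irreducible_iff_irreducible_map_fraction_map`, `FractionRing ℂ[X]`) and does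
  not divide `Q` there (degrees), so they are coprime over `ℂ(X)`; clearing denominators: `A G.P + B Q = C R`, `R : ℂ[X]`, `R ≠ 0`.  (Alternative: the resultant; or see whether the folder `LGO/ZV`, `LGO/G`, `LGO/GM` or
  `LGO/AXG` has such a lemma already, `grep -rn 'IsCoprime' Pool/Agent/LGO`.)  So `R.eval (ξ x) = 0` for all `x` in the infinite set, contradiction to `gex_root`.  So `Q = 0`, all coefficients vanish.
-/

namespace Pool.Agent.LGO.RU

open Polynomial Pool.Agent.LGO Pool.Agent.Hhelper14.ZPL Pool.Agent.Hhelper14.ZP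

variable {n : ℕ} {V : Set (Fin n → ℂ)} {a b : Fin n}

private theorem GexInd_cop (K : Type) [Field K] [Algebra ℂ[X] K] [IsFractionRing ℂ[X] K] {P Q : ℂ[X][X]} (hP : P.Monic) (hirr : Irreducible P) (hQ : Q ≠ 0)
    (hdeg : Q.natDegree < P.natDegree) : ∃ (A B : ℂ[X][X]) (R : ℂ[X]), R ≠ 0 ∧ A * P + B * Q = C R := by
  classical
  set ι : ℂ[X] →+* K := algebraMap ℂ[X] K with hι
  have hinj : Function.Injective ι := IsFractionRing.injective ℂ[X] K
  have hP' : Irreducible (P.map ι) := (hP.irreducible_iff_irreducible_map_fraction_map).1 hirr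
  have hndvd : ¬ P.map ι ∣ Q.map ι := by
    intro hd
    have h1 := natDegree_le_of_dvd hd ((Polynomial.map_ne_zero_iff hinj).2 hQ)
    rw [natDegree_map_eq_of_injective hinj, natDegree_map_eq_of_injective hinj] at h1
    omega
  obtain ⟨u, v, huv⟩ := (Irreducible.coprime_iff_not_dvd hP').2 hndvd
  obtain ⟨c, hc, hc2⟩ := IsLocalization.integerNormalization_spec (nonZeroDivisors ℂ[X]) u
  obtain ⟨d, hd, hd2⟩ := IsLocalization.integerNormalization_spec (nonZeroDivisors ℂ[X]) v
  refine ⟨C d * IsLocalization.integerNormalization (nonZeroDivisors ℂ[X]) u,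
    C c * IsLocalization.integerNormalization (nonZeroDivisors ℂ[X]) v, c * d,
    mul_ne_zero (nonZeroDivisors.ne_zero hc) (nonZeroDivisors.ne_zero hd), ?_⟩
  apply Polynomial.map_injective ι hinj
  have hsm : ∀ (r : ℂ[X]) (w : K[X]), r • w = C (ι r) * w := by
    intro r w
    rw [← algebraMap_smul K r w, smul_eq_C_mul]
  rw [hsm] at hc2 hd2
  simp only [Polynomial.map_add, Polynomial.map_mul, map_C]
  rw [hc2, hd2]
  have h2 : C (ι d) * (C (ι c) * u) * P.map ι + C (ι c) * (C (ι d) * v) * Q.map ι =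
      C (ι c) * C (ι d) * (u * P.map ι + v * Q.map ι) := by ring
  rw [h2, huv, mul_one, map_mul, map_mul]

theorem gex_fib (G : Geo V a b) (hV : Pool.Agent.Hhelper14.ZPL.IsIrredClosed V)
    (hdim : Pool.Agent.Hhelper14.ZPL.dim V = 1) (c : ℂ) : {x ∈ V | vl G.Fx x = c}.Finite := by
  have hval : ∀ x : Fin n → ℂ, MvPolynomial.eval x (MvPolynomial.map (algebraMap Qb ℂ) G.Fx - MvPolynomial.C c) =
      vl G.Fx x - c := by
    intro x
    rw [map_sub, MvPolynomial.eval_C, MvPolynomial.eval_map]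
    rfl
  have hZ : IsZClosed {x : Fin n → ℂ | vl G.Fx x = c} := by
    refine Set.Subset.antisymm ?_ (subset_closure' _)
    intro x hx
    rw [MvPolynomial.mem_zeroLocus_iff] at hx
    have h1 := hx (MvPolynomial.map (algebraMap Qb ℂ) G.Fx - MvPolynomial.C c) (by
      rw [MvPolynomial.mem_vanishingIdeal_iff]
      intro y hy
      have hy' : vl G.Fx y = c := hy
      have := hval y
      rw [hy', sub_self] at this
      exact this)
    have h2 : vl G.Fx x - c = 0 := by
      rw [← hval x]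
      exact h1
    exact sub_eq_zero.1 h2
  have h1 := finite_inter hV hdim hZ (fun hsub => by
    obtain ⟨x, hx, hne⟩ := G.ncx c
    exact hne (hsub hx))
  exact h1

theorem gex_root (G : Geo V a b) (hV : Pool.Agent.Hhelper14.ZPL.IsIrredClosed V)
    (hdim : Pool.Agent.Hhelper14.ZPL.dim V = 1) {R : ℂ[X]} (hR : R ≠ 0) :
    {x ∈ V | R.eval (vl G.Fx x) = 0}.Finite := by
  have h1 : (⋃ c ∈ R.roots.toFinset, {x ∈ V | vl G.Fx x = c}).Finite :=
    Set.Finite.biUnion (Finset.finite_toSet _) fun c _ => gex_fib G hV hdim c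
  refine h1.subset ?_
  rintro x ⟨hx, hx0⟩
  simp only [Set.mem_iUnion]
  exact ⟨vl G.Fx x, by rw [Multiset.mem_toFinset, mem_roots hR]; exact hx0, hx, rfl⟩

theorem gex_indep (G : Geo V a b) (hV : Pool.Agent.Hhelper14.ZPL.IsIrredClosed V)
    (hdim : Pool.Agent.Hhelper14.ZPL.dim V = 1) (N : ℕ) (c : ℕ → ℕ → ℂ)
    (hinf : {x ∈ V | ∑ i ∈ Finset.range G.e, ∑ j ∈ Finset.range N,
      c i j * vl G.Fy x ^ i * vl G.Fx x ^ j = 0}.Infinite) : ∀ i < G.e, ∀ j < N, c i j = 0 := by
  classical
  set Q : ℂ[X][X] := ∑ i ∈ Finset.range G.e, C (∑ j ∈ Finset.range N, C (c i j) * X ^ j) * X ^ i with hQ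
  have hcoeff : ∀ i < G.e, Q.coeff i = ∑ j ∈ Finset.range N, C (c i j) * X ^ j := by
    intro i hi
    rw [hQ, finsetSum_coeff, Finset.sum_eq_single_of_mem i (Finset.mem_range.2 hi)]
    · rw [coeff_C_mul, coeff_X_pow, if_pos rfl, mul_one]
    · intro l _ hl
      rw [coeff_C_mul, coeff_X_pow, if_neg (Ne.symm hl), mul_zero]
  have hdeg : Q.natDegree < G.e := by
    have h1 : Q.degree < G.e := by
      rw [hQ]
      refine (degree_sum_le _ _).trans_lt ?_
      rw [Finset.sup_lt_iff (WithBot.bot_lt_coe _)]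
      intro i hi
      refine (degree_C_mul_X_pow_le _ _).trans_lt ?_
      exact_mod_cast Finset.mem_range.1 hi
    by_cases h0 : Q = 0
    · rw [h0, natDegree_zero]; exact G.e0
    · exact (natDegree_lt_iff_degree_lt h0).2 h1
  have hev : ∀ x, Q.evalEval (vl G.Fx x) (vl G.Fy x) = ∑ i ∈ Finset.range G.e, ∑ j ∈ Finset.range N,
      c i j * vl G.Fy x ^ i * vl G.Fx x ^ j := by
    intro x
    unfold evalEval
    rw [hQ, eval_finsetSum, eval_finsetSum]
    refine Finset.sum_congr rfl fun i _ => ?_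
    simp only [eval_mul, eval_C, eval_pow, eval_X, eval_finsetSum]
    rw [Finset.sum_mul]
    refine Finset.sum_congr rfl fun j _ => ?_
    ring
  have hQ0 : Q = 0 := by
    by_contra hne
    obtain ⟨A, B, R, hR, hAB⟩ := GexInd_cop (FractionRing ℂ[X]) G.monic G.irr hne (by rw [G.deg]; exact hdeg)
    apply hinf
    refine (gex_root G hV hdim hR).subset ?_
    rintro x ⟨hx, hx0⟩
    refine ⟨hx, ?_⟩
    have h1 := congrArg (fun F : ℂ[X][X] => F.evalEval (vl G.Fx x) (vl G.Fy x)) hAB
    simp only [evalEval_add, evalEval_mul, G.onV x hx, hev x, hx0, mul_zero, add_zero, evalEval_C] at h1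
    exact h1.symm
  intro i hi j hj
  have h1 := hcoeff i hi
  rw [hQ0, coeff_zero] at h1
  have h2 := congrArg (fun F : ℂ[X] => F.coeff j) h1
  simp only [coeff_zero, finsetSum_coeff, coeff_C_mul, coeff_X_pow] at h2
  rw [Finset.sum_eq_single_of_mem j (Finset.mem_range.2 hj)] at h2
  · simpa using h2.symm
  · intro l _ hl
    rw [if_neg (Ne.symm hl), mul_zero]

end Pool.Agent.LGO.RU
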