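import Mathlib
import Pool.Agent.LGO.RU.Defs
import Pool.Agent.LGO.RU.GeoV

/-!
# LGO/RU, the bridge: the local parameter near the pole, from `Geo.locp`, `Geo.locc`

PROOFS.
* `gex_gr`: `‖s c_n‖ (1/(2C))^n ≤ C^(n+1) (2C)^(-n) = C 2^(-n)`, the geometric series is at most `2`.
* `gex_nearp`: `τ` from `G.locp`, `t = φ τ`: `‖t‖ ^ e ‖φ ξ‖ = 1` gives `0 < ‖t‖ < 1`; `ValP φ S τ y` is `φ y = ev (sO φ) S (φ τ)` by definition.  `φ (x a) * (t ^ ma * φ ((x a * τ ^ ma)⁻¹)) = 1` because `x a ≠ 0`, `τ ≠ 0`.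
  `‖ev oa t‖ = ‖φ (x a * τ ^ ma)‖⁻¹ ≥ ‖φ n0‖` and `φ (n0 : ℂ) = (n0 : ℂ_[p])` (`map_natCast`).
* `gex_nearc`: the same for `σ = (s : ℂ →+* ℂ)` from `G.locc`; `evc s S (s τ) = s y` from `ValC` by `HasSum.tsum_eq` (`sC s (coeff n S) = s (coeff n S : ℂ)` by definition).  The constant `C` is larger than `G.C` (strictly) and
  than `r ^ (-e)`: then `‖t‖ ^ e = 1 / ‖s ξ‖ ≤ 1/C ≤ r ^ e`, so `‖t‖ ≤ r`.  `‖evc s oa t‖ = ‖s (x a * τ ^ ma)‖⁻¹ ≥ 1 / G.C`.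
-/

namespace Pool.Agent.LGO.RU

open PowerSeries Pool.Agent.Hhelper14.ZP Pool.Agent.Hhelper14.ZPL Pool.Agent.LGO Pool.Agent.LGO.PA

variable {n : ℕ} {V : Set (Fin n → ℂ)} {a b : Fin n}

theorem gex_gr {K : IntermediateField ℚ ℂ} {C : ℝ} (hC : 1 ≤ C) {S : Ser} (h : SrK K C S) :
    Gr (1 / (2 * C)) (2 * C) S := by
  intro s k
  have hC0 : 0 < C := by linarith
  calc ∑ n ∈ Finset.range k, ‖s ((coeff n S : OO) : ℂ)‖ * (1 / (2 * C)) ^ n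
      ≤ ∑ n ∈ Finset.range k, C * (1 / 2 : ℝ) ^ n := by
        refine Finset.sum_le_sum (fun n _ => ?_)
        have h1 : ‖s ((coeff n S : OO) : ℂ)‖ ≤ C ^ (n + 1) := h.gro (s : ℂ →+* ℂ) n
        calc ‖s ((coeff n S : OO) : ℂ)‖ * (1 / (2 * C)) ^ n ≤ C ^ (n + 1) * (1 / (2 * C)) ^ n :=
              mul_le_mul_of_nonneg_right h1 (by positivity)
          _ = C * (1 / 2 : ℝ) ^ n := by
              have h2 : (1 / (2 * C)) ^ n = (1 / 2 : ℝ) ^ n * (C ^ n)⁻¹ := by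
                rw [← inv_pow, ← mul_pow]
                congr 1
                field_simp
              rw [h2, pow_succ]
              field_simp
    _ = C * ∑ n ∈ Finset.range k, (1 / 2 : ℝ) ^ n := by rw [Finset.mul_sum]
    _ ≤ C * 2 := mul_le_mul_of_nonneg_left (sum_geometric_two_le k) hC0.le
    _ = 2 * C := mul_comm _ _

private theorem GexNear_nz {x τ : ℂ} {m e : ℕ} {ξ : ℂ} (he : 0 < e) (h1 : τ ^ e * ξ = 1) (hx : x ≠ 0) :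
    τ ≠ 0 ∧ x * τ ^ m ≠ 0 := by
  have hτ : τ ≠ 0 := by
    rintro rfl
    rw [zero_pow he.ne', zero_mul] at h1
    exact zero_ne_one h1
  exact ⟨hτ, mul_ne_zero hx (pow_ne_zero _ hτ)⟩

private theorem GexNear_coord {F : Type} [NormedField F] (φ : ℂ →+* F) {x τ : ℂ} {m : ℕ} {E : F}
    (h0 : x * τ ^ m ≠ 0) (hE : φ ((x * τ ^ m)⁻¹) = E) {c B : ℝ} (hB : c * ‖φ (x * τ ^ m)‖ ≤ B) :
    φ x * (φ τ ^ m * E) = 1 ∧ c ≤ B * ‖E‖ := by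
  have h2 : φ (x * τ ^ m) * E = 1 := by
    rw [← hE, ← map_mul, mul_inv_cancel₀ h0, map_one]
  refine ⟨?_, ?_⟩
  · rw [← mul_assoc, ← map_pow, ← map_mul]
    exact h2
  · have h3 : ‖φ (x * τ ^ m)‖ * ‖E‖ = 1 := by
      rw [← norm_mul, h2, norm_one]
    calc c = c * (‖φ (x * τ ^ m)‖ * ‖E‖) := by rw [h3, mul_one]
      _ = (c * ‖φ (x * τ ^ m)‖) * ‖E‖ := by ring
      _ ≤ B * ‖E‖ := mul_le_mul_of_nonneg_right hB (norm_nonneg _)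

theorem gex_nearp (G : Geo V a b) (p : ℕ) [Fact p.Prime] (φ : ℂ →+* ℂ_[p]) {x : Fin n → ℂ} (hx : x ∈ V)
    (h : 1 < ‖φ (vl G.Fx x)‖) : ∃ t : ℂ_[p], 0 < ‖t‖ ∧ ‖t‖ < 1 ∧ t ^ G.e * φ (vl G.Fx x) = 1 ∧
      t ^ G.h * φ (vl G.Fy x) = ev (sO φ) G.W t ∧
      φ (x a) * (t ^ G.ma * ev (sO φ) G.oa t) = 1 ∧ φ (x b) * (t ^ G.mb * ev (sO φ) G.ob t) = 1 ∧
      ‖(G.n0 : ℂ_[p])‖ ≤ ‖ev (sO φ) G.oa t‖ ∧ ‖(G.n0 : ℂ_[p])‖ ≤ ‖ev (sO φ) G.ob t‖ := by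
  obtain ⟨τ, h1, hW, ⟨ha0, hVa, hna⟩, hb0, hVb, hnb⟩ := G.locp p φ x hx h
  have h2 : φ τ ^ G.e * φ (vl G.Fx x) = 1 := by
    rw [← map_pow, ← map_mul, h1, map_one]
  have h3 : ‖φ τ‖ ^ G.e * ‖φ (vl G.Fx x)‖ = 1 := by
    rw [← norm_pow, ← norm_mul, h2, norm_one]
  have hn0 : φ (G.n0 : ℂ) = (G.n0 : ℂ_[p]) := map_natCast φ _
  obtain ⟨hτ, ha1⟩ := GexNear_nz (m := G.ma) G.e0 h1 ha0
  obtain ⟨-, hb1⟩ := GexNear_nz (m := G.mb) G.e0 h1 hb0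
  obtain ⟨a1, a2⟩ := GexNear_coord φ ha1 hVa hna
  obtain ⟨b1, b2⟩ := GexNear_coord φ hb1 hVb hnb
  rw [hn0, one_mul] at a2 b2
  refine ⟨φ τ, ?_, ?_, h2, ?_, a1, b1, a2, b2⟩
  · rw [norm_pos_iff]
    exact (map_ne_zero φ).2 hτ
  · by_contra hcon
    rw [not_lt] at hcon
    have h4 : 1 ≤ ‖φ τ‖ ^ G.e := one_le_pow₀ hcon
    have h5 : 1 < ‖φ τ‖ ^ G.e * ‖φ (vl G.Fx x)‖ :=
      h.trans_le (le_mul_of_one_le_left (norm_nonneg _) h4)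
    exact h5.ne' h3
  · have h6 : φ (vl G.Fy x * τ ^ G.h) = ev (sO φ) G.W (φ τ) := hW
    rw [← h6, map_mul, map_pow, mul_comm]

private theorem GexNear_evc (s : ℂ ≃+* ℂ) {S : Ser} {τ y : ℂ} (h : ValC (s : ℂ →+* ℂ) S τ y) :
    s y = evc s S (s τ) := by
  have h1 : HasSum (fun n => sC s (coeff n S) * s τ ^ n) (s y) := h
  exact h1.tsum_eq.symm

theorem gex_nearc (G : Geo V a b) {r : ℝ} (hr : 0 < r) : ∃ C : ℝ, 0 < C ∧ ∀ (s : ℂ ≃+* ℂ), ∀ x ∈ V,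
    C ≤ ‖s (vl G.Fx x)‖ → ∃ t : ℂ, 0 < ‖t‖ ∧ ‖t‖ ≤ r ∧ t ^ G.e * s (vl G.Fx x) = 1 ∧
      t ^ G.h * s (vl G.Fy x) = evc s G.W t ∧
      s (x a) * (t ^ G.ma * evc s G.oa t) = 1 ∧ s (x b) * (t ^ G.mb * evc s G.ob t) = 1 ∧
      1 ≤ C * ‖evc s G.oa t‖ ∧ 1 ≤ C * ‖evc s G.ob t‖ := by
  have hG : 1 ≤ G.C := G.C1
  refine ⟨G.C + 1 + (r ^ G.e)⁻¹, by positivity, fun s x hx h => ?_⟩
  have hre : 0 < (r ^ G.e)⁻¹ := by positivity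
  have hlt : G.C < ‖(s : ℂ →+* ℂ) (vl G.Fx x)‖ := lt_of_lt_of_le (by linarith) h
  obtain ⟨τ, h1, hW, ⟨ha0, hVa, hna⟩, hb0, hVb, hnb⟩ := G.locc (s : ℂ →+* ℂ) x hx hlt
  have h2 : s τ ^ G.e * s (vl G.Fx x) = 1 := by
    rw [← map_pow, ← map_mul, h1, map_one]
  have h3 : ‖s τ‖ ^ G.e * ‖s (vl G.Fx x)‖ = 1 := by
    rw [← norm_pow, ← norm_mul, h2, norm_one]
  obtain ⟨hτ, ha1⟩ := GexNear_nz (m := G.ma) G.e0 h1 ha0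
  obtain ⟨-, hb1⟩ := GexNear_nz (m := G.mb) G.e0 h1 hb0
  have hna' : 1 * ‖(s : ℂ →+* ℂ) (x a * τ ^ G.ma)‖ ≤ G.C := by rw [one_mul]; exact hna
  have hnb' : 1 * ‖(s : ℂ →+* ℂ) (x b * τ ^ G.mb)‖ ≤ G.C := by rw [one_mul]; exact hnb
  obtain ⟨a1, a2⟩ := GexNear_coord (s : ℂ →+* ℂ) ha1 (GexNear_evc s hVa) hna'
  obtain ⟨b1, b2⟩ := GexNear_coord (s : ℂ →+* ℂ) hb1 (GexNear_evc s hVb) hnb'
  have hle : G.C ≤ G.C + 1 + (r ^ G.e)⁻¹ := by linarith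
  refine ⟨s τ, ?_, ?_, h2, ?_, a1, b1, a2.trans (mul_le_mul_of_nonneg_right hle (norm_nonneg _)),
    b2.trans (mul_le_mul_of_nonneg_right hle (norm_nonneg _))⟩
  · rw [norm_pos_iff]
    exact (map_ne_zero s).2 hτ
  · by_contra hcon
    rw [not_le] at hcon
    have h4 : r ^ G.e < ‖s τ‖ ^ G.e := pow_lt_pow_left₀ hcon hr.le G.e0.ne'
    have h5 : (r ^ G.e)⁻¹ ≤ ‖s (vl G.Fx x)‖ := le_trans (by linarith) h
    have h6 : 1 < ‖s τ‖ ^ G.e * ‖s (vl G.Fx x)‖ := by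
      calc (1 : ℝ) = r ^ G.e * (r ^ G.e)⁻¹ := (mul_inv_cancel₀ (by positivity)).symm
        _ < ‖s τ‖ ^ G.e * (r ^ G.e)⁻¹ := mul_lt_mul_of_pos_right h4 hre
        _ ≤ ‖s τ‖ ^ G.e * ‖s (vl G.Fx x)‖ := mul_le_mul_of_nonneg_left h5 (by positivity)
    exact h6.ne' h3
  · rw [← GexNear_evc s hW, map_mul, map_pow, mul_comm]

end Pool.Agent.LGO.RU
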