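import Mathlib
import Pool.Agent.LGO.RU.GeoCls
import Pool.Agent.LGO.PA.Crit

/-!
# LGO/RU, the bridge: upper bounds for the roots of a monic polynomial with algebraic coefficients, at all places

PROOF of `gex_up`.  Only `j < r` matters; let `d` be a bound for the degrees of the `q j`, `j < r`.  By `alg_bd` (RU/GeoCls; a number field containing the coefficient: `IntermediateField.adjoin ℚ {c}`, finite dimensional as `c`
is algebraic; or directly) there are a positive integer `n₁` such that `n₁ c` is an algebraic integer for all coefficients `c` of the `q j`, `j < r` (product over the finitely many coefficients), and a bound `B ≥ 1` with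
`‖s c‖ ≤ B` for all these `c` and all `s` (`s : ℂ →+* ℂ`).
`p`-adic: put `z = φ (n₁ y)`, `u = max 1 ‖φ x‖`.  Multiply the equation by `n₁ ^ r`: `z ^ r = - ∑_{j<r} φ (n₁ ^ (r - j) (q j)(x)) z ^ j`; the coefficients of `n₁ ^ (r - j) (q j)` are algebraic integers, so
(`PA.norm_le_one_of_integral`, ultrametric) `‖φ (n₁ ^ (r - j) (q j)(x))‖ ≤ u ^ d`.  If `‖z‖ > 1` then `‖z‖ ^ r ≤ u ^ d ‖z‖ ^ (r - 1)`, so `‖z‖ ≤ u ^ d`; if `‖z‖ ≤ 1` it is `≤ u ^ d` as well.  Take `C ≥ d`.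
Complex: `u = max 1 ‖s x‖`: `‖s ((q j)(x))‖ ≤ (d + 1) B u ^ d`; if `‖s y‖ > 1`: `‖s y‖ ^ r ≤ r (d + 1) B u ^ d ‖s y‖ ^ (r - 1)`, so `‖s y‖ ≤ r (d + 1) B u ^ d`; else `≤ 1`.  `C` a natural number
`≥ max d (r (d + 1) B)`, `u ^ d ≤ u ^ C`.
-/

namespace Pool.Agent.LGO.RU

open Polynomial Pool.Agent.LGO Pool.Agent.Hhelper14.ZPL Pool.Agent.Hhelper14.ZP

private theorem GexUp_alg {c : ℂ} (hc : IsAlgebraic ℚ c) :
    (∃ A : ℕ, 0 < A ∧ IsIntegral ℤ ((A : ℂ) * c)) ∧ ∃ B : ℝ, 0 < B ∧ ∀ σ : ℂ →+* ℂ, ‖σ c‖ ≤ B := by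
  haveI : FiniteDimensional ℚ (IntermediateField.adjoin ℚ {c}) :=
    IntermediateField.adjoin.finiteDimensional hc.isIntegral
  exact alg_bd (K := IntermediateField.adjoin ℚ {c}) (IntermediateField.mem_adjoin_simple_self ℚ c)

private theorem GexUp_nat (A : ℕ) : IsIntegral ℤ (A : ℂ) := by
  have := isIntegral_algebraMap (R := ℤ) (A := ℂ) (x := (A : ℤ))
  simpa using this

private theorem GexUp_root {r : ℕ} (hr : 0 < r) {Z K : ℝ} (hZ : 0 ≤ Z) (hK : 1 ≤ K)
    (h : 1 < Z → Z ^ r ≤ K * Z ^ (r - 1)) : Z ≤ K := by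
  by_cases h1 : Z ≤ 1
  · exact h1.trans hK
  · rw [not_le] at h1
    have h2 := h h1
    have h3 : Z ^ r = Z * Z ^ (r - 1) := by
      rw [← pow_succ', Nat.sub_add_cancel hr]
    rw [h3] at h2
    exact le_of_mul_le_mul_right h2 (by positivity)

theorem gex_up {r : ℕ} (hr : 0 < r) (q : ℕ → ℂ[X]) (hq : ∀ j k, IsAlgebraic ℚ ((q j).coeff k)) :
    ∃ n₁ C : ℕ, 0 < n₁ ∧ 0 < C ∧ ∀ x y : ℂ, y ^ r + ∑ j ∈ Finset.range r, (q j).eval x * y ^ j = 0 →
      (∀ (p : ℕ) [Fact p.Prime] (φ : ℂ →+* ℂ_[p]), ‖(n₁ : ℂ_[p])‖ * ‖φ y‖ ≤ max 1 ‖φ x‖ ^ C) ∧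
      (∀ s : ℂ ≃+* ℂ, ‖s y‖ ≤ C * max 1 ‖s x‖ ^ C) := by
  have h0 := fun j k => GexUp_alg (hq j k)
  choose h1 h2 using h0
  choose A hA hAi using h1
  choose B hB hBs using h2
  set d : ℕ := ∑ j ∈ Finset.range r, (q j).natDegree with hd
  have hdeg : ∀ j ∈ Finset.range r, (q j).natDegree ≤ d := fun j hj =>
    Finset.single_le_sum (f := fun j => (q j).natDegree) (fun _ _ => Nat.zero_le _) hj
  set n₁ : ℕ := ∏ j ∈ Finset.range r, ∏ k ∈ Finset.range (d + 1), A j k with hn₁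
  have hn₁0 : 0 < n₁ := Finset.prod_pos fun j _ => Finset.prod_pos fun k _ => hA j k
  have hint : ∀ j ∈ Finset.range r, ∀ k ∈ Finset.range (d + 1),
      IsIntegral ℤ ((n₁ : ℂ) * (q j).coeff k) := by
    intro j hj k hk
    have hdvd : A j k ∣ n₁ :=
      (Finset.dvd_prod_of_mem (fun k => A j k) hk).trans
        (Finset.dvd_prod_of_mem (fun j => ∏ k ∈ Finset.range (d + 1), A j k) hj)
    obtain ⟨m, hm⟩ := hdvd
    rw [hm]
    have h3 : ((A j k * m : ℕ) : ℂ) * (q j).coeff k = (m : ℂ) * ((A j k : ℂ) * (q j).coeff k) := by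
      push_cast
      ring
    rw [h3]
    exact (GexUp_nat m).mul (hAi j k)
  set E : ℝ := 1 + ∑ j ∈ Finset.range r, ∑ k ∈ Finset.range (d + 1), B j k with hE
  have hEs : 0 ≤ ∑ j ∈ Finset.range r, ∑ k ∈ Finset.range (d + 1), B j k :=
    Finset.sum_nonneg fun j _ => Finset.sum_nonneg fun k _ => (hB j k).le
  have hE1 : 1 ≤ E := by linarith
  have hEb : ∀ j ∈ Finset.range r, ∀ k ∈ Finset.range (d + 1), ∀ σ : ℂ →+* ℂ,
      ‖σ ((q j).coeff k)‖ ≤ E := by
    intro j hj k hk σ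
    have h3 : B j k ≤ ∑ k ∈ Finset.range (d + 1), B j k :=
      Finset.single_le_sum (f := fun k => B j k) (fun k _ => (hB j k).le) hk
    have h4 : ∑ k ∈ Finset.range (d + 1), B j k ≤
        ∑ j ∈ Finset.range r, ∑ k ∈ Finset.range (d + 1), B j k :=
      Finset.single_le_sum (f := fun j => ∑ k ∈ Finset.range (d + 1), B j k)
        (fun j _ => Finset.sum_nonneg fun k _ => (hB j k).le) hj
    have h5 := hBs j k σ
    linarith
  have heval : ∀ j ∈ Finset.range r, ∀ x : ℂ, (q j).eval x =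
      ∑ k ∈ Finset.range (d + 1), (q j).coeff k * x ^ k := fun j hj x =>
    Polynomial.eval_eq_sum_range' (Nat.lt_succ_of_le (hdeg j hj)) x
  obtain ⟨C₀, hC₀⟩ := exists_nat_ge ((r : ℝ) * ((d + 1) * E))
  refine ⟨n₁, d + 1 + C₀, hn₁0, by omega, fun x y hxy => ⟨?_, ?_⟩⟩
  · intro p _ φ
    set u : ℝ := max 1 ‖φ x‖ with hu
    have hu1 : 1 ≤ u := le_max_left _ _
    have hux : ‖φ x‖ ≤ u := le_max_right _ _
    have hud : 1 ≤ u ^ d := one_le_pow₀ hu1
    have hco : ∀ j ∈ Finset.range r, ‖φ ((n₁ : ℂ) ^ (r - j) * (q j).eval x)‖ ≤ u ^ d := by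
      intro j hj
      rw [heval j hj, Finset.mul_sum, map_sum]
      refine IsUltrametricDist.norm_sum_le_of_forall_le_of_nonneg (by positivity) fun k hk => ?_
      have h3 : (n₁ : ℂ) ^ (r - j) * ((q j).coeff k * x ^ k) =
          ((n₁ : ℂ) ^ (r - j - 1) * ((n₁ : ℂ) * (q j).coeff k)) * x ^ k := by
        have h4 : r - j = (r - j - 1) + 1 := by
          have := Finset.mem_range.mp hj
          omega
        rw [h4, Nat.add_sub_cancel, pow_succ]
        ring
      have h5 : ‖φ ((n₁ : ℂ) ^ (r - j - 1) * ((n₁ : ℂ) * (q j).coeff k))‖ ≤ 1 :=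
        PA.norm_le_one_of_integral φ (((GexUp_nat n₁).pow _).mul (hint j hj k hk))
      rw [h3, map_mul, norm_mul, map_pow, norm_pow]
      calc ‖φ ((n₁ : ℂ) ^ (r - j - 1) * ((n₁ : ℂ) * (q j).coeff k))‖ * ‖φ x‖ ^ k
          ≤ 1 * u ^ k := mul_le_mul h5 (pow_le_pow_left₀ (norm_nonneg _) hux k) (by positivity)
            zero_le_one
        _ ≤ u ^ d := by
          rw [one_mul]
          exact pow_le_pow_right₀ hu1 (Nat.lt_succ_iff.mp (Finset.mem_range.mp hk))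
    have hw : ((n₁ : ℂ) * y) ^ r =
        -∑ j ∈ Finset.range r, ((n₁ : ℂ) ^ (r - j) * (q j).eval x) * ((n₁ : ℂ) * y) ^ j := by
      have h3 : (n₁ : ℂ) ^ r * (y ^ r + ∑ j ∈ Finset.range r, (q j).eval x * y ^ j) = 0 := by
        rw [hxy, mul_zero]
      rw [mul_add, Finset.mul_sum, ← mul_pow] at h3
      rw [eq_neg_iff_add_eq_zero, ← h3]
      congr 1
      refine Finset.sum_congr rfl fun j hj => ?_
      have h4 : (n₁ : ℂ) ^ r = (n₁ : ℂ) ^ (r - j) * (n₁ : ℂ) ^ j := by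
        rw [← pow_add, Nat.sub_add_cancel (Finset.mem_range.mp hj).le]
      rw [h4, mul_pow]
      ring
    have hz : ‖(n₁ : ℂ_[p])‖ * ‖φ y‖ = ‖φ ((n₁ : ℂ) * y)‖ := by
      rw [map_mul, map_natCast, norm_mul]
    rw [hz]
    have h6 : ‖φ ((n₁ : ℂ) * y)‖ ≤ u ^ d := by
      refine GexUp_root hr (norm_nonneg _) hud fun h7 => ?_
      rw [← norm_pow, ← map_pow, hw, map_neg, norm_neg, map_sum]
      refine IsUltrametricDist.norm_sum_le_of_forall_le_of_nonneg (by positivity) fun j hj => ?_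
      rw [map_mul, norm_mul, map_pow, norm_pow]
      refine mul_le_mul (hco j hj) (pow_le_pow_right₀ h7.le ?_) (by positivity) (by positivity)
      have := Finset.mem_range.mp hj
      omega
    exact h6.trans (pow_le_pow_right₀ hu1 (by omega))
  · intro s
    set u : ℝ := max 1 ‖s x‖ with hu
    have hu1 : 1 ≤ u := le_max_left _ _
    have hux : ‖s x‖ ≤ u := le_max_right _ _
    have hud : 1 ≤ u ^ d := one_le_pow₀ hu1
    have hr1 : (1 : ℝ) ≤ r := by exact_mod_cast hr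
    have hco : ∀ j ∈ Finset.range r, ‖s ((q j).eval x)‖ ≤ (d + 1) * E * u ^ d := by
      intro j hj
      rw [heval j hj, map_sum]
      have h3 : ∀ k ∈ Finset.range (d + 1), ‖s ((q j).coeff k * x ^ k)‖ ≤ E * u ^ d := by
        intro k hk
        rw [map_mul, norm_mul, map_pow, norm_pow]
        have h4 : ‖s ((q j).coeff k)‖ ≤ E := hEb j hj k hk (s : ℂ →+* ℂ)
        refine mul_le_mul h4 ?_ (by positivity) (by linarith)
        exact (pow_le_pow_left₀ (norm_nonneg _) hux k).trans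
          (pow_le_pow_right₀ hu1 (Nat.lt_succ_iff.mp (Finset.mem_range.mp hk)))
      refine (norm_sum_le _ _).trans ((Finset.sum_le_card_nsmul _ _ _ h3).trans (le_of_eq ?_))
      rw [Finset.card_range, nsmul_eq_mul]
      push_cast
      ring
    have hK1 : (1 : ℝ) ≤ r * ((d + 1) * E) := by
      have h3 : (1 : ℝ) ≤ (d : ℝ) + 1 := by
        have : (0 : ℝ) ≤ d := Nat.cast_nonneg _
        linarith
      have h4 : (1 : ℝ) ≤ ((d : ℝ) + 1) * E := one_le_mul_of_one_le_of_one_le h3 hE1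
      exact one_le_mul_of_one_le_of_one_le hr1 h4
    have h6 : ‖s y‖ ≤ r * ((d + 1) * E) * u ^ d := by
      refine GexUp_root hr (norm_nonneg _) (one_le_mul_of_one_le_of_one_le hK1 hud) fun h7 => ?_
      have h8 : y ^ r = -∑ j ∈ Finset.range r, (q j).eval x * y ^ j := eq_neg_of_add_eq_zero_left hxy
      rw [← norm_pow, ← map_pow, h8, map_neg, norm_neg, map_sum]
      have h9 : ∀ j ∈ Finset.range r, ‖s ((q j).eval x * y ^ j)‖ ≤
          (d + 1) * E * u ^ d * ‖s y‖ ^ (r - 1) := by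
        intro j hj
        rw [map_mul, norm_mul, map_pow, norm_pow]
        refine mul_le_mul (hco j hj) (pow_le_pow_right₀ h7.le ?_) (by positivity) (by positivity)
        have := Finset.mem_range.mp hj
        omega
      refine (norm_sum_le _ _).trans ((Finset.sum_le_card_nsmul _ _ _ h9).trans (le_of_eq ?_))
      rw [Finset.card_range, nsmul_eq_mul]
      ring
    have h10 : u ^ d ≤ u ^ (d + 1 + C₀) := pow_le_pow_right₀ hu1 (by omega)
    have h11 : (r : ℝ) * ((d + 1) * E) ≤ ((d + 1 + C₀ : ℕ) : ℝ) := by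
      push_cast
      have : (0 : ℝ) ≤ d := Nat.cast_nonneg _
      linarith
    exact h6.trans (mul_le_mul h11 h10 (by positivity) (Nat.cast_nonneg _))

end Pool.Agent.LGO.RU
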