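import Mathlib
import Pool.Agent.LGO.RU.Defs
import Pool.Agent.LGO.RU.GexUp
import Pool.Agent.LGO.RU.GexInd
import Pool.Agent.LGO.RU.GexNear

/-!
# LGO/RU, the bridge: the local data from `Geo`, for every finite exceptional set
-/

namespace Pool.Agent.LGO.RU

open Polynomial Pool.Agent.LGO Pool.Agent.Hhelper14.ZPL Pool.Agent.Hhelper14.ZP Pool.Agent.LGO.PA

variable {n : ℕ} {V : Set (Fin n → ℂ)} {a b : Fin n}

theorem gex_eqP (G : Geo V a b) {x : Fin n → ℂ} (hx : x ∈ V) :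
    vl G.Fy x ^ G.e + ∑ l ∈ Finset.range G.e, (G.P.coeff l).eval (vl G.Fx x) * vl G.Fy x ^ l = 0 := by
  have h := G.onV x hx
  rw [Polynomial.evalEval, Polynomial.eval_eq_sum_range (p := G.P), G.deg, Finset.sum_range_succ] at h
  have h1 : G.P.coeff G.e = 1 := by
    have := G.monic.coeff_natDegree
    rwa [G.deg] at this
  rw [h1, one_mul, eval_add, eval_finset_sum, eval_pow, eval_C] at h
  simp only [eval_mul, eval_pow, eval_C] at h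
  rw [add_comm]
  exact h

theorem gex_nle {p : ℕ} [Fact p.Prime] {k m : ℕ} (h : k ∣ m) : ‖(m : ℂ_[p])‖ ≤ ‖(k : ℂ_[p])‖ := by
  obtain ⟨d, rfl⟩ := h
  rw [Nat.cast_mul, norm_mul]
  exact mul_le_of_le_one_right (norm_nonneg _) (IsUltrametricDist.norm_natCast_le_one ℂ_[p] d)

theorem exists_locE (G : Geo V a b) (hV : Pool.Agent.Hhelper14.ZPL.IsIrredClosed V)
    (hdim : Pool.Agent.Hhelper14.ZPL.dim V = 1) {E : Set (Fin n → ℂ)} (hE : E.Finite) :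
    ∃ D : Loc V a b, D.E = E ∧ D.Xi = G.Fx ∧ D.Et = G.Fy := by
  have algC1 : ∀ (q : Polynomial Qb) k, IsAlgebraic ℚ ((toC1 q).coeff k) := by
    intro q k
    rw [toC1, coeff_map]
    exact mem_algebraicClosure_iff.1 (q.coeff k).2
  obtain ⟨nP, CP, hnP, hCP, hP⟩ := gex_up G.e0 (fun l => G.P.coeff l) (fun l k =>
    (G.Pint l k).tower_top (A := ℚ) |>.isAlgebraic)
  obtain ⟨ra, qa, hra, hqa⟩ := G.int a
  obtain ⟨rb, qb, hrb, hqb⟩ := G.int b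
  obtain ⟨na, Ca, hna, hCa, hA⟩ := gex_up hra (fun j => toC1 (qa j)) (fun j k => algC1 _ k)
  obtain ⟨nb, Cb, hnb, hCb, hB⟩ := gex_up hrb (fun j => toC1 (qb j)) (fun j k => algC1 _ k)
  have hG1 := G.C1
  have hr0 : 0 < 1 / (2 * G.C) := by positivity
  have hr1 : 1 / (2 * G.C) ≤ 1 := by
    rw [div_le_one (by positivity)]
    linarith
  obtain ⟨C₁, hC₁, hnc⟩ := gex_nearc G hr0
  obtain ⟨C, hC⟩ := exists_nat_ge (C₁ + 2 * G.C + CP + Ca + Cb)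
  have cP : (0 : ℝ) ≤ CP := Nat.cast_nonneg _
  have cA : (0 : ℝ) ≤ Ca := Nat.cast_nonneg _
  have cB : (0 : ℝ) ≤ Cb := Nat.cast_nonneg _
  have k1 : C₁ ≤ C := by linarith
  have k2 : 2 * G.C ≤ C := by linarith
  have k3 : CP ≤ C := by
    have : (CP : ℝ) ≤ C := by linarith
    exact_mod_cast this
  have k4 : Ca ≤ C := by
    have : (Ca : ℝ) ≤ C := by linarith
    exact_mod_cast this
  have k5 : Cb ≤ C := by
    have : (Cb : ℝ) ≤ C := by linarith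
    exact_mod_cast this
  have hC0 : 0 < C := by omega
  have hn0 : 0 < G.n0 := G.n00
  set n₀ : ℕ := G.n0 * nP * na * nb with hn₀
  have d0 : G.n0 ∣ n₀ := ⟨nP * na * nb, by rw [hn₀]; ring⟩
  have d1 : nP ∣ n₀ := ⟨G.n0 * na * nb, by rw [hn₀]; ring⟩
  have d2 : na ∣ n₀ := ⟨G.n0 * nP * nb, by rw [hn₀]; ring⟩
  have d3 : nb ∣ n₀ := ⟨G.n0 * nP * na, by rw [hn₀]; ring⟩
  have hgr : ∀ {S : Ser}, SrK G.K G.C S → Gr (1 / (2 * G.C)) C S := fun h s k =>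
    (gex_gr G.C1 h s k).trans k2
  have pw : ∀ {u : ℝ} {k : ℕ}, k ≤ C → max 1 u ^ k ≤ max 1 u ^ C := fun h =>
    pow_le_pow_right₀ (le_max_left _ _) h
  have upp : ∀ (p : ℕ) [Fact p.Prime] (φ : ℂ →+* ℂ_[p]) (k D : ℕ) (y z : ℂ), k ∣ n₀ → D ≤ C →
      ‖(k : ℂ_[p])‖ * ‖φ y‖ ≤ max 1 ‖φ z‖ ^ D → ‖(n₀ : ℂ_[p])‖ * ‖φ y‖ ≤ max 1 ‖φ z‖ ^ C := by
    intro p _ φ k D y z hk hD h
    exact (mul_le_mul_of_nonneg_right (gex_nle hk) (norm_nonneg _)).trans (h.trans (pw hD))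
  have upc : ∀ (s : ℂ ≃+* ℂ) (D : ℕ) (y z : ℂ), D ≤ C →
      ‖s y‖ ≤ D * max 1 ‖s z‖ ^ D → ‖s y‖ ≤ C * max 1 ‖s z‖ ^ C := by
    intro s D y z hD h
    refine h.trans (mul_le_mul (by exact_mod_cast hD) (pw hD) (by positivity) (by positivity))
  refine ⟨{ e := G.e, h := G.h, m := G.ma, l := G.mb, n₀ := n₀, C := C, K₀ := G.K, E := E,
            Xi := G.Fx, Et := G.Fy, W := G.W, Wa := G.oa, Wb := G.ob, r := 1 / (2 * G.C),
            fd := G.fin, fin := hE,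
            pos := ⟨G.e0, G.ma0, G.mb0, by positivity, hC0, hr0, hr1⟩,
            inK := ⟨G.SW.fld, G.Sa.fld, G.Sb.fld⟩,
            gr := ⟨hgr G.SW, hgr G.Sa, hgr G.Sb⟩,
            near_p := ?_, near_c := ?_, up_p := ?_, up_c := ?_, indep := ?_, nc := G.ncx },
          rfl, rfl, rfl⟩
  · intro p _ φ x hx _ h
    obtain ⟨t, h1, h2, h3, h4, h5, h6, h7, h8⟩ := gex_nearp G p φ hx h
    exact ⟨t, h1, h2, h3, h4, h5, h6, (gex_nle d0).trans h7, (gex_nle d0).trans h8⟩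
  · intro s x hx _ h
    obtain ⟨t, h1, h2, h3, h4, h5, h6, h7, h8⟩ := hnc s x hx (k1.trans h)
    exact ⟨t, h1, h2, h3, h4, h5, h6,
      h7.trans (mul_le_mul_of_nonneg_right k1 (norm_nonneg _)),
      h8.trans (mul_le_mul_of_nonneg_right k1 (norm_nonneg _))⟩
  · intro p _ φ x hx _
    refine ⟨upp p φ nP CP _ _ d1 k3 ((hP _ _ (gex_eqP G hx)).1 p φ), ?_, ?_⟩
    · rw [← norm_mul, ← map_mul]
      exact upp p φ na Ca _ _ d2 k4 ((hA _ _ (hqa x hx)).1 p φ)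
    · rw [← norm_mul, ← map_mul]
      exact upp p φ nb Cb _ _ d3 k5 ((hB _ _ (hqb x hx)).1 p φ)
  · intro s x hx _
    refine ⟨upc s CP _ _ k3 ((hP _ _ (gex_eqP G hx)).2 s), ?_, ?_⟩
    · rw [← norm_mul, ← map_mul]
      exact upc s Ca _ _ k4 ((hA _ _ (hqa x hx)).2 s)
    · rw [← norm_mul, ← map_mul]
      exact upc s Cb _ _ k5 ((hB _ _ (hqb x hx)).2 s)
  · intro N c _ hinf
    exact gex_indep G hV hdim N c (hinf.mono fun x hx => ⟨hx.1, hx.2.2⟩)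

end Pool.Agent.LGO.RU
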