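import Mathlib
import Pool.Agent.LGO.RU.GeoV
import Pool.Agent.LGO.ZV.Atlas
import Pool.Agent.LGO.ZV.Types

/-!
# LGO/RU, geometric input: the model `AXG.Cur` with `T = ξ`

`G.cur`: `F = P`, `N`, `M`, `D = M disc(P)` (`disc`: as in `ZV/Model.lean`, `Model_disc`).  Its points are the points of `V` outside finitely many
fibres.
-/

namespace Pool.Agent.LGO.RU

open Polynomial Pool.Agent.LGO Pool.Agent.Hhelper14.ZPL

variable {n : ℕ} {V : Set (Fin n → ℂ)} {a b : Fin n}

private theorem GeoCur_bez (k : Type) [Field k] [Algebra ℂ[X] k] [IsFractionRing ℂ[X] k]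
    {F : ℂ[X][X]} (irr : Irreducible F) (deg : 0 < F.natDegree) (G : ℂ[X][X]) (h : ¬ F ∣ G) :
    ∃ (R : ℂ[X]) (U W : ℂ[X][X]), R ≠ 0 ∧ U * F + W * G = C R := by
  have hprim : F.IsPrimitive := irr.isPrimitive deg.ne'
  have hirr : Irreducible (F.map (algebraMap ℂ[X] k)) :=
    (hprim.irreducible_iff_irreducible_map_fraction_map (K := k)).1 irr
  have hnd : ¬ F.map (algebraMap ℂ[X] k) ∣ G.map (algebraMap ℂ[X] k) := fun h' =>
    h (hprim.dvd_of_fraction_map_dvd_fraction_map h')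
  obtain ⟨u, w, huw⟩ := (hirr.coprime_iff_not_dvd).2 hnd
  obtain ⟨b, hb0, hb⟩ := IsLocalization.integerNormalization_spec (nonZeroDivisors ℂ[X]) u
  obtain ⟨d, hd0, hd⟩ := IsLocalization.integerNormalization_spec (nonZeroDivisors ℂ[X]) w
  rw [mem_nonZeroDivisors_iff_ne_zero] at hb0 hd0
  rw [Algebra.smul_def, Polynomial.algebraMap_apply] at hb hd
  refine ⟨b * d, C d * IsLocalization.integerNormalization (nonZeroDivisors ℂ[X]) u,
    C b * IsLocalization.integerNormalization (nonZeroDivisors ℂ[X]) w, mul_ne_zero hb0 hd0, ?_⟩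
  apply map_injective (algebraMap ℂ[X] k) (IsFractionRing.injective _ _)
  rw [Polynomial.map_add, Polynomial.map_mul, Polynomial.map_mul, Polynomial.map_mul,
    Polynomial.map_mul, hb, hd, map_C, map_C, map_C, map_mul, C_mul]
  calc C ((algebraMap ℂ[X] k) d) * (C ((algebraMap ℂ[X] k) b) * u) *
        map (algebraMap ℂ[X] k) F +
      C ((algebraMap ℂ[X] k) b) * (C ((algebraMap ℂ[X] k) d) * w) *
        map (algebraMap ℂ[X] k) G =
      C ((algebraMap ℂ[X] k) b) * C ((algebraMap ℂ[X] k) d) *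
        (u * map (algebraMap ℂ[X] k) F +
          w * map (algebraMap ℂ[X] k) G) := by ring
    _ = _ := by rw [huw, mul_one]

/-- the discriminant -/
private theorem GeoCur_disc {F : ℂ[X][X]} (irr : Irreducible F) (deg : 0 < F.natDegree) :
    ∃ R : ℂ[X], R ≠ 0 ∧ ∀ T, R.eval T ≠ 0 → (F.map (evalRingHom T)).Separable := by
  have hd : derivative F ≠ 0 := by
    intro h
    exact deg.ne' (derivative_eq_zero.1 h)
  have hnd : ¬ F ∣ derivative F := by
    intro h
    exact (natDegree_derivative_lt deg.ne').not_ge (natDegree_le_of_dvd h hd)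
  obtain ⟨R, U, W, hR, hUW⟩ := GeoCur_bez (FractionRing ℂ[X]) irr deg _ hnd
  refine ⟨R, hR, fun T hT => ?_⟩
  have h1 := congrArg (Polynomial.map (evalRingHom T)) hUW
  rw [Polynomial.map_add, Polynomial.map_mul, Polynomial.map_mul, map_C, ← derivative_map,
    coe_evalRingHom] at h1
  refine ⟨C (R.eval T)⁻¹ * U.map (evalRingHom T), C (R.eval T)⁻¹ * W.map (evalRingHom T), ?_⟩
  calc C (R.eval T)⁻¹ * U.map (evalRingHom T) * F.map (evalRingHom T) +
        C (R.eval T)⁻¹ * W.map (evalRingHom T) * derivative (F.map (evalRingHom T)) =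
      C (R.eval T)⁻¹ * (U.map (evalRingHom T) * F.map (evalRingHom T) +
        W.map (evalRingHom T) * derivative (F.map (evalRingHom T))) := by ring
    _ = C (R.eval T)⁻¹ * C (R.eval T) := by rw [h1]
    _ = 1 := by rw [← C_mul, inv_mul_cancel₀ hT, C_1]

private theorem GeoCur_eval (F : MvPolynomial (Fin n) Qb) (x : Fin n → ℂ) :
    MvPolynomial.eval x (MvPolynomial.map (algebraMap Qb ℂ) F) = vl F x := by
  rw [MvPolynomial.eval_map]
  rfl

private theorem GeoCur_evalD (F : MvPolynomial (Fin n) Qb) (x : Fin n → ℂ) (D : ℂ[X]) :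
    MvPolynomial.eval x (aeval (MvPolynomial.map (algebraMap Qb ℂ) F) D) = D.eval (vl F x) := by
  rw [← GeoCur_eval]
  induction D using Polynomial.induction_on' with
  | add p q hp hq => rw [map_add, map_add, hp, hq, eval_add]
  | monomial m c =>
    rw [aeval_monomial, map_mul, map_pow, eval_monomial]
    congr 1
    exact MvPolynomial.eval_C c

theorem exists_cur (G : Geo V a b) (hV : Pool.Agent.Hhelper14.ZPL.IsIrredClosed V)
    (hdim : Pool.Agent.Hhelper14.ZPL.dim V = 1) :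
    ∃ S : AXG.Cur n, S.F = G.P ∧ S.N = G.N ∧ S.M = G.M ∧ ZV.Cov S V id ∧
      (∀ p ∈ S.pt, (fun c => S.x c p) ∈ V ∧ vl G.Fx (fun c => S.x c p) = p.1 ∧
        vl G.Fy (fun c => S.x c p) = p.2) ∧
      ∀ x ∈ V, S.D.eval (vl G.Fx x) ≠ 0 → (vl G.Fx x, vl G.Fy x) ∈ S.pt ∧
        ∀ c, S.x c (vl G.Fx x, vl G.Fy x) = x c := by
  have hPd : 0 < G.P.natDegree := by rw [G.deg]; exact G.e0
  obtain ⟨R, hR, hsep⟩ := GeoCur_disc G.irr hPd
  have hD : G.M * R ≠ 0 := mul_ne_zero G.M0 hR
  let S : AXG.Cur n :=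
    { F := G.P
      N := G.N
      M := G.M
      D := G.M * R
      irr := G.irr
      deg := hPd
      D_ne := hD
      lead := fun T _ => by
        rw [G.monic.leadingCoeff, eval_one]
        exact one_ne_zero
      sep := fun T h => by
        rw [eval_mul] at h
        exact hsep T (right_ne_zero_of_mul h)
      M_ne := fun T h => by
        rw [eval_mul] at h
        exact left_ne_zero_of_mul h }
  have hlast : ∀ x ∈ V, S.D.eval (vl G.Fx x) ≠ 0 → (vl G.Fx x, vl G.Fy x) ∈ S.pt ∧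
      ∀ c, S.x c (vl G.Fx x, vl G.Fy x) = x c := by
    intro x hx hDx
    refine ⟨⟨hDx, G.onV x hx⟩, fun c => ?_⟩
    unfold AXG.Cur.x
    have hM : S.M.eval (vl G.Fx x) ≠ 0 := S.M_ne _ hDx
    rw [div_eq_iff hM]
    have := G.rep x hx c
    rw [mul_comm]
    exact this.symm
  refine ⟨S, rfl, rfl, rfl, ?_, ?_, hlast⟩
  · obtain ⟨K, hK, hA, π, hCF, h0, hfin⟩ := Pool.Agent.ZPB.exists_fun hV hdim
    set u := MvPolynomial.map (algebraMap Qb ℂ) G.Fx with hu
    have ht : Transcendental ℂ (π u) := by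
      rcases Pool.Agent.ZPB.trans_or_const (π u) with h | ⟨c, hc⟩
      · exact h
      · exfalso
        obtain ⟨x, hx, hne⟩ := G.ncx c
        have h1 : π (u - MvPolynomial.C c) = 0 := by
          have h2 : π (MvPolynomial.C c) = algebraMap ℂ K c := π.commutes c
          rw [map_sub, hc, h2, sub_self]
        have h2 := (h0 _).1 h1 x hx
        rw [map_sub, MvPolynomial.eval_C, sub_eq_zero, hu, GeoCur_eval] at h2
        exact hne h2
    have hinj : Function.Injective (aeval (π u) : ℂ[X] →ₐ[ℂ] K) := transcendental_iff_injective.1 ht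
    have hπ1 : ∀ P : ℂ[X], π (aeval u P) = aeval (π u) P := fun P => (Polynomial.aeval_algHom_apply π u P).symm
    have hDπ : π (aeval u (G.M * R)) ≠ 0 := by
      rw [hπ1]
      exact (map_ne_zero_iff _ hinj).2 hD
    refine ⟨_, hfin _ hDπ, ?_⟩
    intro x hx hxE
    have hDx : S.D.eval (vl G.Fx x) ≠ 0 := by
      intro h
      apply hxE
      refine ⟨hx, ?_⟩
      rw [hu, GeoCur_evalD]
      exact h
    obtain ⟨h1, h2⟩ := hlast x hx hDx
    exact ⟨_, h1, fun c => (h2 c).symm⟩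
  · rintro ⟨X, Y⟩ ⟨h1, h2⟩
    have hM : G.M.eval X ≠ 0 := S.M_ne _ h1
    obtain ⟨x, hx, hX, hY, hr⟩ := G.back X Y h2 hM
    have hxe : (fun c => S.x c (X, Y)) = x := by
      funext c
      unfold AXG.Cur.x
      have hM' : S.M.eval X ≠ 0 := hM
      rw [div_eq_iff hM', mul_comm]
      exact (hr c).symm
    rw [hxe]
    exact ⟨hx, hX, hY⟩

end Pool.Agent.LGO.RU
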