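import Mathlib
import Pool.Agent.LGO.RU.Defs
import Pool.Agent.LGO.RU.GeoCur
import Pool.Agent.LGO.RU.GexInd
import Pool.Agent.LGO.AXG.ChB

/-!
# LGO/RU, the bridge: the complex model `Mdl D`

`gex_mdl`: for `G : Geo V a b` and `D : Loc V a b` with `D.Xi = G.Fx`, `D.Et = G.Fy`: `S = (exists_cur G).res ![a, b]`; the branches over `ξ = ∞`
have `e > 0` for both coordinates, because `x_a`, `x_b` are unbounded there (`G.locc` with the identity).
-/

namespace Pool.Agent.LGO.RU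

open Polynomial Pool.Agent.LGO Pool.Agent.LGO.AX Pool.Agent.Hhelper14.ZPL Pool.Agent.Hhelper14.ZP Metric

variable {n : ℕ} {V : Set (Fin n → ℂ)} {a b : Fin n}

/-- a function which is finite at the centre of a branch is bounded on it -/
private theorem GexMdl_bd {d : ℕ} {S : AXG.Cur d} (β : AXG.Br S) {c : Fin d} (h : β.e c = 0) :
    ∃ B : ℝ, ∀ w : ℂ, Real.exp w.re ≤ β.r * Real.exp (-5) → ‖S.x c (β.pt w)‖ ≤ B := by
  have hr := β.r_pos
  have he5 : Real.exp (-5 : ℝ) < 1 := by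
    rw [Real.exp_lt_one_iff]
    norm_num
  have hlt : β.r * Real.exp (-5) < β.r := by nlinarith
  have hzz : ∀ w, zz (β.e c) (β.ψ c) w = β.ψ c (Complex.exp w) := fun w => by
    rw [zz, h, Nat.cast_zero, zero_mul, zero_div, zero_add]
  have him : ∀ t ∈ closedBall (0 : ℂ) (β.r * Real.exp (-5)), 0 < (β.ψ c t).im := by
    intro t ht
    rw [mem_closedBall_zero_iff] at ht
    by_cases h0 : t = 0
    · rw [h0]
      exact β.cen c h
    · have h1 := β.im_pos c (Complex.log t) (by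
        rw [Complex.log_re, Real.exp_log (norm_pos_iff.2 h0)]
        exact ht.trans_lt hlt)
      rw [hzz, Complex.exp_log h0] at h1
      exact h1
  have hcont : ContinuousOn (fun t => jF (β.ψ c t)) (closedBall (0 : ℂ) (β.r * Real.exp (-5))) := by
    refine ContinuousOn.comp (g := jF) (f := β.ψ c) (t := {z : ℂ | 0 < z.im}) ?_ ?_ ?_
    · exact jF_analytic.continuousOn
    · exact (β.dψ c).continuousOn.mono (closedBall_subset_ball hlt)
    · exact fun t ht => him t ht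
  obtain ⟨B, hB⟩ := (isCompact_closedBall (0 : ℂ) (β.r * Real.exp (-5))).exists_bound_of_continuousOn
    hcont
  refine ⟨B, fun w hw => ?_⟩
  have h1 := β.jz c w (hw.trans_lt hlt)
  rw [hzz] at h1
  have h2 := hB (Complex.exp w) (by
    rw [mem_closedBall_zero_iff, Complex.norm_exp]
    exact hw)
  rw [h1] at h2
  exact h2

private theorem GexMdl_low {K : IntermediateField ℚ ℂ} {C : ℝ} (hC : 1 ≤ C) {S : PowerSeries OO}
    (hS : SrK K C S) {τ y : ℂ} {m : ℕ} (hm : 0 < m) (hτ0 : τ ≠ 0) (hτ : 2 * C * ‖τ‖ ≤ 1)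
    (hy : y ≠ 0) (h : ValC (RingHom.id ℂ) S τ ((y * τ ^ m)⁻¹)) : 1 ≤ 2 * C * (‖y‖ * ‖τ‖) := by
  have hC0 : 0 < C := by linarith
  have hτn := norm_nonneg τ
  have h1 : ‖(y * τ ^ m)⁻¹‖ ≤ C * 2 := by
    have h2 : HasSum (fun k : ℕ => C * (1 / 2 : ℝ) ^ k) (C * 2) := hasSum_geometric_two.mul_left C
    refine HasSum.norm_le_of_bounded h h2 fun k => ?_
    simp only [RingHom.id_apply, norm_mul, norm_pow]
    have h3 := hS.gro (RingHom.id ℂ) k
    simp only [RingHom.id_apply] at h3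
    calc ‖((PowerSeries.coeff k S : OO) : ℂ)‖ * ‖τ‖ ^ k ≤ C ^ (k + 1) * ‖τ‖ ^ k :=
          mul_le_mul_of_nonneg_right h3 (by positivity)
      _ = C * (C * ‖τ‖) ^ k := by ring
      _ ≤ C * (1 / 2) ^ k := by
          refine mul_le_mul_of_nonneg_left (pow_le_pow_left₀ (by positivity) ?_ k) hC0.le
          linarith
  have hyt : y * τ ^ m ≠ 0 := mul_ne_zero hy (pow_ne_zero m hτ0)
  have h4 : ‖y * τ ^ m‖ ≤ ‖y‖ * ‖τ‖ := by
    rw [norm_mul, norm_pow]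
    refine mul_le_mul_of_nonneg_left ?_ (norm_nonneg y)
    calc ‖τ‖ ^ m ≤ ‖τ‖ ^ 1 := pow_le_pow_of_le_one hτn (by nlinarith) hm
      _ = ‖τ‖ := pow_one _
  rw [norm_inv, inv_le_comm₀ (norm_pos_iff.2 hyt) (by positivity)] at h1
  have h5 := h1.trans h4
  rw [inv_le_iff_one_le_mul₀ (by positivity)] at h5
  linarith

/-- the coordinates are large if `ξ` is large -/
private theorem GexMdl_big (G : Geo V a b) (B : ℝ) : ∃ R : ℝ, ∀ x ∈ V, R < ‖vl G.Fx x‖ →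
    B < ‖x a‖ ∧ B < ‖x b‖ := by
  have hC1 := G.C1
  have hC0 : 0 < G.C := by linarith
  set L : ℝ := 2 * G.C * (|B| + 1) with hL
  have hB := abs_nonneg B
  have hL2 : 2 * G.C ≤ L := by nlinarith
  have hL0 : 0 < L := by linarith
  refine ⟨max G.C (L ^ G.e), fun x hx hR => ?_⟩
  have hR1 : G.C < ‖vl G.Fx x‖ := (le_max_left _ _).trans_lt hR
  have hR2 : L ^ G.e < ‖vl G.Fx x‖ := (le_max_right _ _).trans_lt hR
  obtain ⟨τ, h1, -, ⟨ha, ha2, -⟩, ⟨hb, hb2, -⟩⟩ := G.locc (RingHom.id ℂ) x hx hR1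
  have hτ0 : τ ≠ 0 := by
    rintro rfl
    rw [zero_pow G.e0.ne', zero_mul] at h1
    exact zero_ne_one h1
  have hτp : 0 < ‖τ‖ := norm_pos_iff.2 hτ0
  have h2 : ‖τ‖ ^ G.e * ‖vl G.Fx x‖ = 1 := by rw [← norm_pow, ← norm_mul, h1, norm_one]
  have h3 : L * ‖τ‖ < 1 := by
    by_contra hcon
    rw [not_lt] at hcon
    have h4 : (1 : ℝ) ≤ (L * ‖τ‖) ^ G.e := one_le_pow₀ hcon
    rw [mul_pow] at h4
    have h5 : 0 < ‖τ‖ ^ G.e := by positivity
    nlinarith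
  have h4 : 2 * G.C * ‖τ‖ ≤ 1 := by nlinarith
  have key : ∀ y : ℂ, 1 ≤ 2 * G.C * (‖y‖ * ‖τ‖) → B < ‖y‖ := by
    intro y hy
    by_contra hcon
    rw [not_lt] at hcon
    have h6 : ‖y‖ ≤ |B| := hcon.trans (le_abs_self B)
    have h7 : 2 * G.C * (‖y‖ * ‖τ‖) ≤ 2 * G.C * (|B| * ‖τ‖) := by gcongr
    have h8 : 2 * G.C * (|B| * ‖τ‖) ≤ L * ‖τ‖ := by
      rw [hL]
      have : 0 ≤ 2 * G.C * ‖τ‖ := by positivity
      nlinarith
    linarith
  exact ⟨key _ (GexMdl_low hC1 G.Sa G.ma0 hτ0 h4 ha ha2), key _ (GexMdl_low hC1 G.Sb G.mb0 hτ0 h4 hb hb2)⟩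

/-- there are points with large first coordinate -/
private theorem GexMdl_pt {d : ℕ} (S : AXG.Cur d) (R : ℝ) {ρ : ℝ} (hρ : 0 < ρ) :
    ∃ s y : ℂ, 0 < ‖s‖ ∧ ‖s‖ < ρ ∧ (Tp none s, y) ∈ S.pt ∧ R < ‖Tp none s‖ := by
  have hinf : (Set.univ \ (((S.D.roots.toFinset : Set ℂ)) ∪
      closedBall (0 : ℂ) (max R ρ⁻¹))).Nonempty := by
    by_contra hcon
    rw [Set.not_nonempty_iff_eq_empty, Set.sdiff_eq_empty] at hcon
    have h1 : Bornology.IsBounded (Set.univ : Set ℂ) :=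
      ((S.D.roots.toFinset.finite_toSet.isBounded).union isBounded_closedBall).subset hcon
    exact NormedSpace.unbounded_univ ℝ ℂ h1
  obtain ⟨T, -, hT⟩ := hinf
  rw [Set.mem_union, not_or] at hT
  obtain ⟨hT1, hT2⟩ := hT
  have hD : S.D.eval T ≠ 0 := by
    intro h
    apply hT1
    rw [Finset.mem_coe, Multiset.mem_toFinset, mem_roots S.D_ne]
    exact h
  rw [mem_closedBall_zero_iff, not_le, max_lt_iff] at hT2
  obtain ⟨hT3, hT4⟩ := hT2
  have hT0 : T ≠ 0 := by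
    rintro rfl
    rw [norm_zero] at hT4
    exact absurd hT4 (not_lt.2 (inv_pos.2 hρ).le)
  obtain ⟨y, hy⟩ : ∃ y : ℂ, (S.F.map (evalRingHom T)).IsRoot y := by
    refine IsAlgClosed.exists_root _ fun h0 => ?_
    have h1 : (S.F.map (evalRingHom T)).natDegree = S.F.natDegree :=
      natDegree_map_of_leadingCoeff_ne_zero _ (S.lead T hD)
    have h2 := S.deg
    rw [← h1, natDegree_eq_of_degree_eq_some h0] at h2
    exact lt_irrefl _ h2
  have hTp : Tp none T⁻¹ = T := by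
    show (T⁻¹)⁻¹ = T
    exact inv_inv T
  refine ⟨T⁻¹, y, ?_, ?_, ?_, ?_⟩
  · rw [norm_inv]
    exact inv_pos.2 (norm_pos_iff.2 hT0)
  · rw [norm_inv]
    exact inv_lt_of_inv_lt₀ hρ hT4
  · rw [hTp]
    refine ⟨hD, ?_⟩
    rw [IsRoot.def, eval_map] at hy
    rw [← eval₂_evalRingHom]
    exact hy
  · rw [hTp]
    exact hT3

/-- a branch where both functions are infinite -/
private theorem GexMdl_cusp (S : AXG.Cur 2) (h : ∀ B : ℝ, ∃ R : ℝ, ∀ p ∈ S.pt, R < ‖p.1‖ →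
    ∀ c, B < ‖S.x c p‖) : ∃ β₀ : AXG.Br S, 0 < β₀.e 0 ∧ 0 < β₀.e 1 := by
  classical
  obtain ⟨ρ, k, br, hρ, hbr⟩ := AXG.exists_br S none
  have hbd : ∀ (i : Fin k) (c : Fin 2), ∃ B : ℝ, (br i).e c = 0 →
      ∀ w : ℂ, Real.exp w.re ≤ (br i).r * Real.exp (-5) → ‖S.x c ((br i).pt w)‖ ≤ B := by
    intro i c
    by_cases h0 : (br i).e c = 0
    · obtain ⟨B, hB⟩ := GexMdl_bd (br i) h0
      exact ⟨B, fun _ => hB⟩
    · exact ⟨0, fun h1 => absurd h1 h0⟩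
  choose B hB using hbd
  obtain ⟨R, hR⟩ := h (∑ i, ∑ c, |B i c|)
  obtain ⟨s, y, hs0, hs1, hp, hsR⟩ := GexMdl_pt S R hρ
  obtain ⟨i, w, hw, -, hiw⟩ := hbr s y hs0 hs1 hp
  have key : ∀ c, 0 < (br i).e c := by
    intro c
    rw [Nat.pos_iff_ne_zero]
    intro h0
    have h1 := hB i c h0 w hw
    rw [hiw] at h1
    have h2 := hR _ hp hsR c
    have h3 : |B i c| ≤ ∑ i, ∑ c, |B i c| :=
      (Finset.single_le_sum (f := fun c => |B i c|) (fun _ _ => abs_nonneg _)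
        (Finset.mem_univ c)).trans
      (Finset.single_le_sum (f := fun i => ∑ c, |B i c|)
        (fun _ _ => Finset.sum_nonneg fun _ _ => abs_nonneg _) (Finset.mem_univ i))
    have h4 := le_abs_self (B i c)
    linarith
  exact ⟨br i, key 0, key 1⟩

theorem gex_mdl (G : Geo V a b) (h : ZV.Crv V) (hab : a ≠ b) :
    ∃ E₀ : Set (Fin n → ℂ), E₀.Finite ∧ ∀ D : Loc V a b, D.Xi = G.Fx → D.Et = G.Fy → E₀ ⊆ D.E →
      Nonempty (Mdl D) := by
  classical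
  obtain ⟨S, hF, hN, hM, hcov, hpt, hpt2⟩ := exists_cur G h.irr h.dim
  refine ⟨{x ∈ V | S.D.eval (vl G.Fx x) = 0}, gex_root G h.irr h.dim S.D_ne, ?_⟩
  intro D hX hY hE
  have hξ : ∀ x, D.ξ x = vl G.Fx x := fun x => by rw [Loc.ξ, hX, vl]
  have hη : ∀ x, D.η x = vl G.Fy x := fun x => by rw [Loc.η, hY, vl]
  have hcov2 : ZV.Cov (S.res ![a, b]) V ![a, b] := by
    obtain ⟨E, hE, hc⟩ := hcov
    refine ⟨E, hE, fun x hx hxE => ?_⟩
    obtain ⟨p, hp, hpx⟩ := hc x hx hxE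
    exact ⟨p, hp, fun c => hpx _⟩
  obtain ⟨A⟩ := AXG.exists_atl (S.res ![a, b])
  have hinj : ∀ c c' : Fin 2, c ≠ c' → (![a, b] c) ≠ (![a, b] c') := by
    intro c c' hcc
    fin_cases c <;> fin_cases c'
    · exact absurd rfl hcc
    · exact hab
    · exact hab.symm
    · exact absurd rfl hcc
  refine ⟨{ S := S.res ![a, b]
            A := A
            ET := (D.fin.toFinset).image D.ξ
            nco := ZV.model_NCo_v h.irr h.dim (fun c => h.nc _) hcov2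
            nomod := ZV.model_NoMod_v h.irr h.dim 0 (h.nc _)
              (fun c c' hcc => h.nomod _ _ (hinj c c' hcc)) hcov2
            to_ := ?_
            from_ := ?_
            cusp := ?_ }⟩
  · intro x hx hxE
    have h1 : S.D.eval (vl G.Fx x) ≠ 0 := fun h0 => hxE (hE ⟨hx, h0⟩)
    obtain ⟨h2, h3⟩ := hpt2 x hx h1
    rw [hξ, hη]
    exact ⟨h2, h3 a, h3 b⟩
  · intro q hq hqE
    obtain ⟨h1, h2, h3⟩ := hpt q hq
    refine ⟨_, h1, fun hmem => hqE ?_, ?_, ?_⟩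
    · rw [Finset.mem_image]
      exact ⟨_, D.fin.mem_toFinset.2 hmem, by rw [hξ, h2]⟩
    · rw [hξ, h2]
    · rw [hη, h3]
  · refine GexMdl_cusp _ fun B => ?_
    obtain ⟨R, hR⟩ := GexMdl_big G B
    refine ⟨R, fun p hp hpR c => ?_⟩
    obtain ⟨h1, h2, -⟩ := hpt p hp
    have h3 := hR _ h1 (by rw [h2]; exact hpR)
    fin_cases c
    · exact h3.1
    · exact h3.2

end Pool.Agent.LGO.RU
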