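import Mathlib
import Pool.Agent.LGO.RU.Defs
import Pool.Agent.LGO.RU.GeoSc
import Pool.Agent.LGO.RU.GeoTr
import Pool.Agent.LGO.RU.GexLoc
import Pool.Agent.LGO.RU.GexMdl
import Pool.Agent.LGO.ZV.Types

/-!
# LGO/RU: existence of the local data and of the complex model

`exists_planeV` and `geo_of_plane` give `G : Geo V a b`, `gex_mdl` the finite set, `exists_locE` the local data.
-/

namespace Pool.Agent.LGO.RU

open Filter Pool.Agent.LGO.ZV

variable {n : ℕ} {V : Set (Fin n → ℂ)} {a b : Fin n}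

theorem exists_loc (h : Pool.Agent.LGO.ZV.Crv V) (hab : a ≠ b) (P : ℕ → Fin n → ℂ) (hP : ∀ k, P k ∈ V)
    (ha : Tendsto (fun k => ‖P k a‖) atTop atTop) (hb : Tendsto (fun k => ‖P k b‖) atTop atTop) :
    ∃ D : Loc V a b, Nonempty (Mdl D) := by
  obtain ⟨Fx, Fy, e, h', P', M, N, hPl, ha', hb'⟩ := exists_planeV h.irr h.kcl h.dim P hP a b ha hb
  obtain ⟨G⟩ := geo_of_plane hPl ha' hb'
  obtain ⟨E₀, hE₀, hM⟩ := gex_mdl G h hab
  obtain ⟨D, hDE, hX, hY⟩ := exists_locE G h.irr h.dim hE₀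
  exact ⟨D, hM D hX hY (by rw [hDE])⟩

end Pool.Agent.LGO.RU
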