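import Mathlib
import Pool.Agent.LGO.RU.Defs

/-!
# LGO/RU: calculus of the growth condition `Gr` and of `InK`
-/

namespace Pool.Agent.LGO.RU

open PowerSeries Pool.Agent.Hhelper14.ZP Pool.Agent.Hhelper14.ZPL Pool.Agent.LGO
  Pool.Agent.LGO.PA

variable {K : IntermediateField ℚ ℂ} {S S' : Ser} {r B B' : ℝ}

/-! ### coefficients in `K` -/

theorem InK.zero : InK K 0 := by
  intro n
  rw [map_zero]
  exact K.zero_mem

theorem InK.one : InK K 1 := by
  intro n
  rw [coeff_one]
  split_ifs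
  · exact K.one_mem
  · exact K.zero_mem

theorem InK.add (h : InK K S) (h' : InK K S') : InK K (S + S') := by
  intro n
  rw [map_add]
  exact K.add_mem (h n) (h' n)

theorem InK.mul (h : InK K S) (h' : InK K S') : InK K (S * S') := by
  intro n
  rw [coeff_mul]
  push_cast
  exact sum_mem fun p _ => K.mul_mem (h _) (h' _)

theorem InK.pow (h : InK K S) : ∀ k : ℕ, InK K (S ^ k)
  | 0 => by rw [pow_zero]; exact InK.one
  | k + 1 => by rw [pow_succ]; exact (InK.pow h k).mul h

theorem InK.sum {ι : Type} {s : Finset ι} {f : ι → Ser} (h : ∀ i ∈ s, InK K (f i)) :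
    InK K (∑ i ∈ s, f i) := by
  classical
  induction s using Finset.induction_on with
  | empty => rw [Finset.sum_empty]; exact InK.zero
  | insert a s ha ih =>
    rw [Finset.sum_insert ha]
    exact (h a (Finset.mem_insert_self a s)).add
      (ih fun i hi => h i (Finset.mem_insert_of_mem hi))

theorem InK.C {c : OO} (h : ((c : OO) : ℂ) ∈ K) : InK K (C c) := by
  intro n
  rw [coeff_C]
  split_ifs
  · exact h
  · exact K.zero_mem

theorem InK.X : InK K (X : Ser) := by
  intro n
  rw [coeff_X]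
  split_ifs
  · exact K.one_mem
  · exact K.zero_mem

theorem InK.ite {P : Prop} [Decidable P] (h : InK K S) : InK K (if P then S else 0) := by
  split_ifs
  · exact h
  · exact InK.zero

theorem InK.sp (c : PowerSeries ℤ) (d i : ℕ) (h : InK K S) : InK K (sp c d i S) := by
  intro n
  rw [RU.sp, coeff_mk]
  push_cast
  refine sum_mem fun k _ => K.mul_mem ?_ (h.pow k n)
  exact_mod_cast K.intCast_mem _

/-! ### growth -/

theorem Gr.nonneg (h : Gr r B S) : 0 ≤ B := by
  have := h (RingEquiv.refl ℂ) 0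
  simpa using this

theorem Gr.mono (h : Gr r B S) (hB : B ≤ B') : Gr r B' S := fun s k => (h s k).trans hB

theorem Gr.zero (r : ℝ) : Gr r 0 0 := by
  intro s k
  simp

theorem Gr.zero' (hB : 0 ≤ B) : Gr r B 0 := (Gr.zero r).mono hB

theorem Gr.one : Gr r 1 1 := by
  intro s k
  rcases Nat.eq_zero_or_pos k with rfl | hk
  · simp
  · rw [Finset.sum_eq_single 0]
    · simp
    · intro n _ hn
      simp [coeff_one, hn]
    · intro h
      exact absurd (Finset.mem_range.2 hk) h

theorem Gr.add (hr : 0 ≤ r) (h : Gr r B S) (h' : Gr r B' S') : Gr r (B + B') (S + S') := by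
  intro s k
  refine le_trans ?_ (add_le_add (h s k) (h' s k))
  rw [← Finset.sum_add_distrib]
  refine Finset.sum_le_sum fun n _ => ?_
  rw [← add_mul]
  refine mul_le_mul_of_nonneg_right ?_ (pow_nonneg hr n)
  rw [map_add]
  push_cast
  rw [map_add]
  exact norm_add_le _ _

theorem Gr.sum (hr : 0 ≤ r) {ι : Type} {s : Finset ι} {f : ι → Ser} {b : ι → ℝ}
    (h : ∀ i ∈ s, Gr r (b i) (f i)) : Gr r (∑ i ∈ s, b i) (∑ i ∈ s, f i) := by
  classical
  induction s using Finset.induction_on with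
  | empty => rw [Finset.sum_empty, Finset.sum_empty]; exact Gr.zero r
  | insert a s ha ih =>
    rw [Finset.sum_insert ha, Finset.sum_insert ha]
    exact (h a (Finset.mem_insert_self a s)).add hr
      (ih fun i hi => h i (Finset.mem_insert_of_mem hi))

theorem Gr.mul (hr : 0 ≤ r) (h : Gr r B S) (h' : Gr r B' S') : Gr r (B * B') (S * S') := by
  intro s k
  have h1 : ∀ n ∈ Finset.range k, ‖s ((coeff n (S * S') : OO) : ℂ)‖ * r ^ n ≤
      ∑ p ∈ Finset.HasAntidiagonal.antidiagonal n, (‖s ((coeff p.1 S : OO) : ℂ)‖ * r ^ p.1) *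
        (‖s ((coeff p.2 S' : OO) : ℂ)‖ * r ^ p.2) := by
    intro n _
    rw [coeff_mul]
    push_cast
    rw [map_sum]
    refine (mul_le_mul_of_nonneg_right (norm_sum_le _ _) (pow_nonneg hr n)).trans (le_of_eq ?_)
    rw [Finset.sum_mul]
    refine Finset.sum_congr rfl fun p hp => ?_
    rw [Finset.HasAntidiagonal.mem_antidiagonal] at hp
    rw [map_mul, norm_mul, ← hp, pow_add]
    ring
  refine (Finset.sum_le_sum h1).trans ?_
  rw [Finset.sum_sigma']
  refine le_trans ?_ (mul_le_mul (h s k) (h' s k) (Finset.sum_nonneg fun n _ => by positivity)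
    h.nonneg)
  rw [Finset.sum_mul_sum, ← Finset.sum_product']
  let e : (Σ _ : ℕ, ℕ × ℕ) → ℕ × ℕ := fun q => q.2
  have hinj : Set.InjOn e ((Finset.range k).sigma fun n => Finset.HasAntidiagonal.antidiagonal n) := by
    rintro ⟨n, p⟩ hp ⟨n', p'⟩ hp' hpp
    simp only [Finset.coe_sigma, Set.mem_sigma_iff, Finset.coe_range, Set.mem_Iio,
      Finset.mem_coe, Finset.HasAntidiagonal.mem_antidiagonal] at hp hp'
    have hq : p = p' := hpp
    subst hq
    obtain rfl : n = n' := by omega
    rfl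
  rw [← Finset.sum_image (s := (Finset.range k).sigma fun n => Finset.HasAntidiagonal.antidiagonal n) (g := e)
    (f := fun p : ℕ × ℕ => (‖s ((coeff p.1 S : OO) : ℂ)‖ * r ^ p.1) *
        (‖s ((coeff p.2 S' : OO) : ℂ)‖ * r ^ p.2)) hinj]
  refine Finset.sum_le_sum_of_subset_of_nonneg ?_ fun p _ _ => by positivity
  intro p hp
  rw [Finset.mem_image] at hp
  obtain ⟨⟨n, q⟩, hq, rfl⟩ := hp
  rw [Finset.mem_sigma, Finset.mem_range, Finset.HasAntidiagonal.mem_antidiagonal] at hq
  rw [Finset.mem_product, Finset.mem_range, Finset.mem_range]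
  simp only [e]
  simp only at hq
  omega

theorem Gr.pow (hr : 0 ≤ r) (h : Gr r B S) : ∀ k : ℕ, Gr r (B ^ k) (S ^ k)
  | 0 => by rw [pow_zero, pow_zero]; exact Gr.one
  | k + 1 => by rw [pow_succ, pow_succ]; exact (Gr.pow hr h k).mul hr h

theorem Gr.C {c : OO} (h : ∀ s : ℂ ≃+* ℂ, ‖s ((c : OO) : ℂ)‖ ≤ B) :
    Gr r B (C c) := by
  have hB : 0 ≤ B := (norm_nonneg _).trans (h (RingEquiv.refl ℂ))
  intro s k
  rcases Nat.eq_zero_or_pos k with rfl | hk
  · simpa using hB
  · rw [Finset.sum_eq_single 0]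
    · simpa using h s
    · intro n _ hn
      simp [coeff_C, hn]
    · intro h
      exact absurd (Finset.mem_range.2 hk) h

theorem Gr.X (hr : 0 ≤ r) : Gr r r (X : Ser) := by
  intro s k
  rcases Nat.lt_or_ge 1 k with hk | hk
  · rw [Finset.sum_eq_single 1]
    · simp
    · intro n _ hn
      simp [coeff_X, hn]
    · intro h
      exact absurd (Finset.mem_range.2 hk) h
  · refine (Finset.sum_nonpos fun n hn => ?_).trans hr
    have : n = 0 := by
      have := Finset.mem_range.1 hn
      omega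
    subst this
    simp

theorem Gr.X_pow (hr : 0 ≤ r) (hr1 : r ≤ 1) (k : ℕ) : Gr r 1 ((PowerSeries.X : Ser) ^ k) :=
  ((Gr.X hr).pow hr k).mono (pow_le_one₀ hr hr1)

theorem Gr.coef (h : Gr r B S) (hr : 0 ≤ r) (s : ℂ ≃+* ℂ) (n : ℕ) :
    ‖s ((coeff n S : OO) : ℂ)‖ * r ^ n ≤ B := by
  refine le_trans ?_ (h s (n + 1))
  exact Finset.single_le_sum (f := fun n => ‖s ((coeff n S : OO) : ℂ)‖ * r ^ n)
    (fun i _ => by positivity) (Finset.mem_range.2 (Nat.lt_succ_self n))

theorem Gr.ite {P : Prop} [Decidable P] (h : Gr r B S) : Gr r B (if P then S else 0) := by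
  split_ifs
  · exact h
  · exact Gr.zero' h.nonneg

/-- the parts of an integral series -/
theorem Gr.sp {c : PowerSeries ℤ} {d i : ℕ} (hr : 0 ≤ r) {q : ℝ} (h : Gr r q S) {A : ℕ → ℝ}
    (hA : ∀ n, ((|coeff (d * n + i) c| : ℤ) : ℝ) ≤ A n)
    (hB : ∀ k, ∑ n ∈ Finset.range k, A n * q ^ n ≤ B) : Gr r B (sp c d i S) := by
  intro s k
  have hq : 0 ≤ q := h.nonneg
  have h1 : ∀ N ∈ Finset.range k, ‖s ((coeff N (RU.sp c d i S) : OO) : ℂ)‖ * r ^ N ≤
      ∑ n ∈ Finset.range k, A n * (‖s ((coeff N (S ^ n) : OO) : ℂ)‖ * r ^ N) := by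
    intro N hN
    rw [RU.sp, coeff_mk]
    push_cast
    rw [map_sum]
    refine (mul_le_mul_of_nonneg_right (norm_sum_le _ _) (pow_nonneg hr N)).trans ?_
    rw [Finset.sum_mul]
    have hsub : Finset.range (N + 1) ⊆ Finset.range k := by
      intro n hn
      rw [Finset.mem_range] at hn hN ⊢
      omega
    refine (Finset.sum_le_sum fun n _ => ?_).trans
      (Finset.sum_le_sum_of_subset_of_nonneg hsub fun n _ _ => ?_)
    · rw [map_mul, norm_mul, mul_assoc]
      refine mul_le_mul_of_nonneg_right ?_ (by positivity)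
      refine le_trans (le_of_eq ?_) (hA n)
      rw [map_intCast, Complex.norm_intCast]
      push_cast
      rfl
    · have h0 : 0 ≤ A n := le_trans (by positivity) (hA n)
      positivity
  refine (Finset.sum_le_sum h1).trans ?_
  rw [Finset.sum_comm]
  refine le_trans (Finset.sum_le_sum fun n _ => ?_) (hB k)
  rw [← Finset.mul_sum]
  have h0 : 0 ≤ A n := le_trans (by positivity) (hA n)
  exact mul_le_mul_of_nonneg_left (h.pow hr n s k) h0

end Pool.Agent.LGO.RU
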