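import Mathlib
import Pool.Agent.LGO.RU.GrK
import Pool.Agent.LGO.PA.Coef

/-!
# LGO/RU: the growth of the arrays `Arr`
-/

namespace Pool.Agent.LGO.RU

open PowerSeries Pool.Agent.Hhelper14.ZP Pool.Agent.Hhelper14.ZPL Pool.Agent.LGO
  Pool.Agent.LGO.PA

private theorem ArrB_pow {E : ℕ} (hE : 1 ≤ E) :
    (1 + 1 / (4 * (E : ℝ))) ^ E ≤ 4 / 3 := by
  have hE' : (1 : ℝ) ≤ E := by exact_mod_cast hE
  set x : ℝ := 1 / (4 * (E : ℝ)) with hx
  have hx0 : 0 < x := by positivity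
  have hx1 : x ≤ 1 / 4 := by
    rw [hx]
    apply one_div_le_one_div_of_le <;> linarith
  have hEx : (E : ℝ) * x = 1 / 4 := by
    rw [hx]
    field_simp
  have h1 : (3 : ℝ) / 4 ≤ (1 - x) ^ E := by
    have := one_add_mul_le_pow (a := -x) (by linarith) E
    have e : 1 + (E : ℝ) * -x = 3 / 4 := by linarith
    rw [e] at this
    rwa [← sub_eq_add_neg] at this
  have h2 : (1 + x) ^ E * (1 - x) ^ E ≤ 1 := by
    rw [← mul_pow]
    apply pow_le_one₀
    · nlinarith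
    · nlinarith
  have h3 : 0 ≤ (1 + x) ^ E := by positivity
  nlinarith

private theorem ArrB_sum {E : ℕ} (hE : 1 ≤ E) (k : ℕ) :
    ∑ n ∈ Finset.range k, ((n : ℝ) + 1) ^ E * (1 / 2) ^ n ≤ 3 * (4 * (E : ℝ)) ^ E := by
  have hE' : (1 : ℝ) ≤ E := by exact_mod_cast hE
  have h1 : ∀ n ∈ Finset.range k, ((n : ℝ) + 1) ^ E * (1 / 2) ^ n ≤
      (4 * (E : ℝ)) ^ E * (2 / 3) ^ n := by
    intro n _
    have e1 : (n : ℝ) + 1 ≤ 4 * E * (1 + 1 / (4 * (E : ℝ))) ^ n := by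
      have := one_add_mul_le_pow (a := 1 / (4 * (E : ℝ))) (by
        have : 0 < 1 / (4 * (E : ℝ)) := by positivity
        linarith) n
      have e2 : (n : ℝ) + 1 ≤ 4 * E * (1 + n * (1 / (4 * (E : ℝ)))) := by
        have e3 : 4 * (E : ℝ) * (1 + n * (1 / (4 * (E : ℝ)))) = 4 * E + n := by
          field_simp
        rw [e3]
        linarith
      exact e2.trans (mul_le_mul_of_nonneg_left this (by positivity))
    have e4 : ((n : ℝ) + 1) ^ E ≤ (4 * (E : ℝ)) ^ E * (4 / 3) ^ n := by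
      refine (pow_le_pow_left₀ (by positivity) e1 E).trans ?_
      rw [mul_pow, ← pow_mul, mul_comm n E, pow_mul]
      exact mul_le_mul_of_nonneg_left
        (pow_le_pow_left₀ (by positivity) (ArrB_pow hE) n) (by positivity)
    calc ((n : ℝ) + 1) ^ E * (1 / 2) ^ n ≤ ((4 * (E : ℝ)) ^ E * (4 / 3) ^ n) * (1 / 2) ^ n :=
          mul_le_mul_of_nonneg_right e4 (by positivity)
      _ = (4 * (E : ℝ)) ^ E * (2 / 3) ^ n := by
          rw [mul_assoc, ← mul_pow]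
          norm_num
  refine (Finset.sum_le_sum h1).trans ?_
  rw [← Finset.mul_sum, mul_comm (3 : ℝ)]
  refine mul_le_mul_of_nonneg_left ?_ (by positivity)
  have h2 : ∑ n ∈ Finset.range k, (2 / 3 : ℝ) ^ n = 3 * (1 - (2 / 3) ^ k) := by
    rw [geom_sum_eq (by norm_num)]
    ring
  rw [h2]
  have : 0 ≤ (2 / 3 : ℝ) ^ k := by positivity
  linarith

/-- the growth of the parts of `PE R k` -/
theorem sp_gr : ∃ C : ℕ, 1 ≤ C ∧ ∀ (L R k d i : ℕ) (r : ℝ) (Q : Ser), 0 ≤ r → 1 ≤ L → k ≤ R →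
    d ≤ L → i < d → Gr r (1 / 2) Q →
      Gr r (Real.exp (C * ((R : ℝ) + 1) ^ 2 * L)) (sp (PE R k) d i Q) := by
  obtain ⟨c, hc, hcoef⟩ := coef_le
  refine ⟨4 * c ^ 3 + 2, by omega, ?_⟩
  intro L R k d i r Q hr hL hk hd hi hQ
  have hc' : (1 : ℝ) ≤ c := by exact_mod_cast hc
  have hL' : (1 : ℝ) ≤ L := by exact_mod_cast hL
  set E : ℕ := c * (R + 1) with hE
  have hE1 : 1 ≤ E := Nat.mul_pos hc (Nat.succ_pos R)
  have hE' : (1 : ℝ) ≤ E := by exact_mod_cast hE1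
  refine Gr.sp hr hQ (A := fun n => ((c : ℝ) * L) ^ E * ((n : ℝ) + 1) ^ E) ?_ ?_
  · intro n
    refine (hcoef R k (R - k) (d * n + i) hk (Nat.sub_le R k)).trans ?_
    rw [← mul_pow]
    refine pow_le_pow_left₀ (by positivity) ?_ E
    rw [mul_assoc]
    refine mul_le_mul_of_nonneg_left ?_ (by linarith)
    have h1 : d * n + i + 1 ≤ L * (n + 1) := by
      calc d * n + i + 1 ≤ d * n + d := by omega
        _ = d * (n + 1) := by ring
        _ ≤ L * (n + 1) := Nat.mul_le_mul_right _ hd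
    exact_mod_cast h1
  · intro m
    have h1 : ∑ n ∈ Finset.range m, ((c : ℝ) * L) ^ E * ((n : ℝ) + 1) ^ E * (1 / 2) ^ n =
        ((c : ℝ) * L) ^ E * ∑ n ∈ Finset.range m, ((n : ℝ) + 1) ^ E * (1 / 2) ^ n := by
      rw [Finset.mul_sum]
      refine Finset.sum_congr rfl fun n _ => by ring
    rw [h1]
    refine (mul_le_mul_of_nonneg_left (ArrB_sum hE1 m) (by positivity)).trans ?_
    have h2 : ((c : ℝ) * L) ^ E * (3 * (4 * (E : ℝ)) ^ E) = 3 * (4 * c * E * L) ^ E := by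
      rw [← mul_assoc, mul_comm _ (3 : ℝ), mul_assoc, ← mul_pow]
      ring_nf
    rw [h2]
    have h3 : (4 * (c : ℝ) * E * L) ^ E ≤ Real.exp (4 * c * E ^ 2 * L) := by
      have e1 : 4 * (c : ℝ) * E * L ≤ Real.exp (4 * c * E * L) := by
        have := Real.add_one_le_exp (4 * (c : ℝ) * E * L)
        linarith
      refine (pow_le_pow_left₀ (by positivity) e1 E).trans (le_of_eq ?_)
      rw [← Real.exp_nat_mul]
      congr 1
      ring
    have h4 : (3 : ℝ) ≤ Real.exp 2 := by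
      have := Real.add_one_le_exp (2 : ℝ)
      linarith
    calc 3 * (4 * (c : ℝ) * E * L) ^ E ≤ Real.exp 2 * Real.exp (4 * c * E ^ 2 * L) :=
          mul_le_mul h4 h3 (by positivity) (Real.exp_pos _).le
      _ = Real.exp (2 + 4 * c * E ^ 2 * L) := (Real.exp_add _ _).symm
      _ ≤ _ := by
          refine Real.exp_le_exp.2 ?_
          have e1 : (E : ℝ) = c * (R + 1) := by rw [hE]; push_cast; ring
          have e2 : (1 : ℝ) ≤ (R : ℝ) + 1 := by
            have : (0 : ℝ) ≤ R := Nat.cast_nonneg R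
            linarith
          have e3 : (1 : ℝ) ≤ ((R : ℝ) + 1) ^ 2 * L :=
            one_le_mul_of_one_le_of_one_le (one_le_pow₀ e2) hL'
          push_cast
          rw [e1]
          nlinarith

/-- coefficients in `K` -/
theorem Arr_inK {K : IntermediateField ℚ ℂ} {R : ℕ} {G : ℕ → ℕ → Ser} {qa qb : Ser}
    (hG : ∀ k < R, ∀ k' < R, InK K (G k k')) (ha : InK K qa) (hb : InK K qb)
    (a d a' d' i j : ℕ) : InK K (Arr R G qa qb a d a' d' i j) := by
  refine InK.sum fun k hk => InK.sum fun k' hk' => ?_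
  exact ((hG k (Finset.mem_range.1 hk) k' (Finset.mem_range.1 hk')).mul
    (InK.sp _ _ _ (ha.pow a))).mul (InK.sp _ _ _ (hb.pow a'))

/-- the growth of the arrays -/
theorem Arr_gr : ∃ C : ℕ, 1 ≤ C ∧ ∀ (L R : ℕ) (G : ℕ → ℕ → Ser) (qa qb : Ser) (r B : ℝ)
    (a d a' d' i j : ℕ), 0 ≤ r → 1 ≤ L → a * d = L → a' * d' = L → i < d → j < d' →
    (∀ k < R, ∀ k' < R, Gr r (Real.exp B) (G k k')) → Gr r (1 / 2) qa → Gr r (1 / 2) qb →
      Gr r (Real.exp (B + C * ((R : ℝ) + 1) ^ 2 * L)) (Arr R G qa qb a d a' d' i j) := by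
  obtain ⟨C, hC, hsp⟩ := sp_gr
  refine ⟨2 * C + 2, by omega, ?_⟩
  intro L R G qa qb r B a d a' d' i j hr hL had had' hi hj hG ha hb
  have hL' : (1 : ℝ) ≤ L := by exact_mod_cast hL
  have hpos : ∀ {a d : ℕ}, a * d = L → 1 ≤ a ∧ d ≤ L := by
    intro a d h
    have h1 : 0 < a := by
      rcases Nat.eq_zero_or_pos a with h0 | h0
      · rw [h0, zero_mul] at h
        omega
      · exact h0
    refine ⟨h1, ?_⟩
    rw [← h]
    exact Nat.le_mul_of_pos_left d h1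
  have hq : ∀ {q : Ser} {a : ℕ}, 1 ≤ a → Gr r (1 / 2) q → Gr r (1 / 2) (q ^ a) := by
    intro q a h1 h2
    refine (h2.pow hr a).mono ?_
    calc (1 / 2 : ℝ) ^ a ≤ (1 / 2) ^ 1 := pow_le_pow_of_le_one (by norm_num) (by norm_num) h1
      _ = 1 / 2 := pow_one _
  set P : ℝ := C * ((R : ℝ) + 1) ^ 2 * L with hP
  have h1 : Gr r (∑ k ∈ Finset.range R, ∑ k' ∈ Finset.range R,
      Real.exp B * Real.exp P * Real.exp P) (Arr R G qa qb a d a' d' i j) := by
    refine Gr.sum hr fun k hk => Gr.sum hr fun k' hk' => ?_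
    rw [Finset.mem_range] at hk hk'
    exact ((hG k hk k' hk').mul hr (hsp L R k d i r _ hr hL hk.le (hpos had).2 hi
      (hq (hpos had).1 ha))).mul hr (hsp L R k' d' j r _ hr hL hk'.le (hpos had').2 hj
      (hq (hpos had').1 hb))
  refine h1.mono ?_
  rw [Finset.sum_const, Finset.sum_const, Finset.card_range, nsmul_eq_mul, nsmul_eq_mul,
    ← mul_assoc, ← Real.exp_add, ← Real.exp_add]
  have h2 : (R : ℝ) ≤ Real.exp R := by
    have := Real.add_one_le_exp (R : ℝ)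
    linarith
  have h3 : (R : ℝ) * R ≤ Real.exp (2 * R) := by
    calc (R : ℝ) * R ≤ Real.exp R * Real.exp R :=
          mul_le_mul h2 h2 (Nat.cast_nonneg R) (Real.exp_pos _).le
      _ = Real.exp (2 * R) := by rw [← Real.exp_add]; ring_nf
  refine (mul_le_mul_of_nonneg_right h3 (Real.exp_pos _).le).trans ?_
  rw [← Real.exp_add]
  refine Real.exp_le_exp.2 ?_
  have h4 : (2 : ℝ) * R ≤ 2 * ((R : ℝ) + 1) ^ 2 * L := by
    have hR : (0 : ℝ) ≤ R := Nat.cast_nonneg R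
    have e1 : (R : ℝ) ≤ ((R : ℝ) + 1) ^ 2 := by nlinarith
    have e2 : ((R : ℝ) + 1) ^ 2 ≤ ((R : ℝ) + 1) ^ 2 * L :=
      le_mul_of_one_le_right (by positivity) hL'
    nlinarith
  push_cast
  rw [hP]
  nlinarith

/-- the array is linear in `G` -/
theorem Arr_lin {κ : Type} (s : Finset κ) (c : κ → OO) (Gs : κ → ℕ → ℕ → Ser) (R : ℕ)
    (qa qb : Ser) (a d a' d' i j : ℕ) :
    Arr R (fun k k' => ∑ u ∈ s, C (c u) * Gs u k k') qa qb a d a' d' i j =
      ∑ u ∈ s, C (c u) * Arr R (Gs u) qa qb a d a' d' i j := by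
  unfold Arr
  simp only [Finset.sum_mul, Finset.mul_sum]
  rw [show (∑ u ∈ s, ∑ k ∈ Finset.range R, ∑ k' ∈ Finset.range R,
      C (c u) * (Gs u k k' * sp (PE R k) d i (qa ^ a) * sp (PE R k') d' j (qb ^ a'))) =
      ∑ k ∈ Finset.range R, ∑ u ∈ s, ∑ k' ∈ Finset.range R,
      C (c u) * (Gs u k k' * sp (PE R k) d i (qa ^ a) * sp (PE R k') d' j (qb ^ a')) from
      Finset.sum_comm]
  refine Finset.sum_congr rfl fun k _ => ?_
  rw [Finset.sum_comm]
  refine Finset.sum_congr rfl fun u _ => ?_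
  refine Finset.sum_congr rfl fun k' _ => ?_
  ring

end Pool.Agent.LGO.RU
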