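import Mathlib

/-!
# LGO/RU: Siegel's lemma over a number field, with the exponent `p / (q - p)`
-/

namespace Pool.Agent.LGO.RU

open NumberField

private theorem Sgl_key (K : Type) [Field K] [NumberField K] : ∃ c : ℝ,
    ∀ (α β : Type) [Fintype α] [Fintype β] (a : Matrix α β (𝓞 K)) (A : ℝ), a ≠ 0 →
      0 < Fintype.card α → Fintype.card α < Fintype.card β →
      (∀ k l, house ((algebraMap (𝓞 K) K) (a k l)) ≤ A) →
      ∃ ξ : β → 𝓞 K, ξ ≠ 0 ∧ a.mulVec ξ = 0 ∧ ∀ l, house (ξ l).1 ≤
        c * ((c * Fintype.card β * A) ^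
          ((Fintype.card α : ℝ) / ((Fintype.card β : ℝ) - Fintype.card α))) := by
  classical
  exact ⟨_, fun α β _ _ a A ha h0 h1 hA =>
    house.exists_ne_zero_int_vec_house_le K a ha h0 h1 rfl hA rfl⟩

/-- **Siegel's lemma over a number field** -/
theorem siegelK (K : IntermediateField ℚ ℂ) [FiniteDimensional ℚ K] : ∃ c : ℝ, 1 ≤ c ∧
    ∀ (α β : Type) [Fintype α] [Fintype β] (M : α → β → K) (A : ℝ) (E : ℕ), 1 ≤ A →
      (Fintype.card α : ℝ) ≤ E * ((Fintype.card β : ℝ) - Fintype.card α) →
      Fintype.card α < Fintype.card β → (∀ i j, IsIntegral ℤ (M i j)) →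
      (∀ i j (σ : K →+* ℂ), ‖σ (M i j)‖ ≤ A) →
      ∃ x : β → K, x ≠ 0 ∧ (∀ i, ∑ j, M i j * x j = 0) ∧ (∀ j, IsIntegral ℤ (x j)) ∧
        ∀ j (σ : K →+* ℂ), ‖σ (x j)‖ ≤ c * (c * Fintype.card β * A) ^ E := by
  classical
  have : NumberField K := { }
  obtain ⟨c₁, key⟩ := Sgl_key K
  refine ⟨max 1 |c₁|, le_max_left _ _, ?_⟩
  intro α β _ _ M A E hA hE hab hi hb
  set c : ℝ := max 1 |c₁| with hc
  have hc1 : 1 ≤ c := le_max_left _ _
  have hβ : (1 : ℝ) ≤ Fintype.card β := by exact_mod_cast (by omega : 1 ≤ Fintype.card β)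
  have hbase : 1 ≤ c * Fintype.card β * A :=
    one_le_mul_of_one_le_of_one_le (one_le_mul_of_one_le_of_one_le hc1 hβ) hA
  have hbd : 1 ≤ c * (c * Fintype.card β * A) ^ E :=
    one_le_mul_of_one_le_of_one_le hc1 (one_le_pow₀ hbase)
  let a : Matrix α β (𝓞 K) := fun i j => ⟨M i j, hi i j⟩
  by_cases ha : a = 0
  · -- all coefficients vanish
    have hM : ∀ i j, M i j = 0 := by
      intro i j
      have h1 := congrFun (congrFun ha i) j
      exact congrArg Subtype.val h1
    refine ⟨fun _ => 1, ?_, fun i => ?_, fun j => ?_, fun j σ => ?_⟩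
    · intro h
      have hne : Nonempty β := Fintype.card_pos_iff.1 (by omega)
      obtain ⟨j⟩ := hne
      exact one_ne_zero (congrFun h j)
    · simp [hM]
    · exact isIntegral_one
    · simpa using hbd
  · by_cases hα : Fintype.card α = 0
    · exfalso
      apply ha
      have : IsEmpty α := Fintype.card_eq_zero_iff.1 hα
      ext i
      exact this.elim i
    · have h0 : 0 < Fintype.card α := Nat.pos_of_ne_zero hα
      obtain ⟨ξ, hξ, hξ0, hξb⟩ := key α β a A ha h0 hab (fun k l => by
        unfold house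
        rw [pi_norm_le_iff_of_nonneg (by linarith)]
        exact fun σ => hb k l σ)
      refine ⟨fun j => (ξ j : K), ?_, fun i => ?_, fun j => (ξ j).2, fun j σ => ?_⟩
      · intro h
        apply hξ
        funext j
        exact Subtype.ext (congrFun h j)
      · have h1 := congrFun hξ0 i
        have h2 := congrArg (fun z : 𝓞 K => (z : K)) h1
        simp only [Matrix.mulVec, dotProduct, Pi.zero_apply, map_zero, map_sum, map_mul] at h2
        exact h2
      · refine (norm_embedding_le_house _ σ).trans ((hξb j).trans ?_)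
        have hd : (0 : ℝ) < (Fintype.card β : ℝ) - Fintype.card α := by
          have : (Fintype.card α : ℝ) < Fintype.card β := by exact_mod_cast hab
          linarith
        have hc₁ : c₁ ≤ c := (le_abs_self _).trans (le_max_right _ _)
        have e1 : (Fintype.card α : ℝ) / ((Fintype.card β : ℝ) - Fintype.card α) ≤ E := by
          rw [div_le_iff₀ hd]
          exact hE
        have e0 : 0 ≤ (Fintype.card α : ℝ) / ((Fintype.card β : ℝ) - Fintype.card α) := by
          positivity
        have e2 : |(c₁ * Fintype.card β * A) ^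
            ((Fintype.card α : ℝ) / ((Fintype.card β : ℝ) - Fintype.card α))| ≤
            (c * Fintype.card β * A) ^ E := by
          refine (Real.abs_rpow_le_abs_rpow _ _).trans ?_
          have e3 : |c₁ * Fintype.card β * A| ≤ c * Fintype.card β * A := by
            rw [abs_mul, abs_mul, abs_of_nonneg (by linarith : (0 : ℝ) ≤ Fintype.card β),
              abs_of_nonneg (by linarith : 0 ≤ A)]
            have : |c₁| ≤ c := le_max_right _ _
            gcongr
          refine (Real.rpow_le_rpow (abs_nonneg _) e3 e0).trans ?_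
          rw [← Real.rpow_natCast]
          exact Real.rpow_le_rpow_of_exponent_le hbase e1
        refine (le_abs_self _).trans ?_
        rw [abs_mul]
        exact mul_le_mul (le_max_right _ _) e2 (abs_nonneg _) (by linarith)

end Pool.Agent.LGO.RU
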