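import Mathlib
import Pool.Agent.LGO.RU.Defs
import Pool.Agent.LGO.RU.Sgl

/-!
# LGO/RU: Siegel's lemma with more unknowns than equations

Siegel's lemma over a number field is in Mathlib (`NumberTheory/NumberField/House.lean`, `NumberField.house.exists_ne_zero_int_vec_house_le`).
-/

namespace Pool.Agent.LGO.RU

open Pool.Agent.Hhelper14.ZP Pool.Agent.LGO

private theorem Sie_num {c q B : ℝ} {C E : ℕ} (hc : 1 ≤ c) (hq : 1 ≤ q) (hB : 0 ≤ B)
    (hE : (E : ℝ) ≤ q) (hC : 2 * c + 1 ≤ C) :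
    c * (c * q * Real.exp B) ^ E ≤ Real.exp ((C * q * (1 + B)) ^ C) := by
  have h1 : c ≤ Real.exp c := by
    have := Real.add_one_le_exp c
    linarith
  have h2 : c * q * Real.exp B ≤ Real.exp ((c + 1) * q * (1 + B)) := by
    have e1 : c * q ≤ Real.exp (c * q) := by
      have := Real.add_one_le_exp (c * q)
      linarith
    calc c * q * Real.exp B ≤ Real.exp (c * q) * Real.exp B :=
          mul_le_mul_of_nonneg_right e1 (Real.exp_pos _).le
      _ = Real.exp (c * q + B) := (Real.exp_add _ _).symm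
      _ ≤ _ := Real.exp_le_exp.2 (by
          have e0 : 0 ≤ c * q * B := by positivity
          have e2 : 0 ≤ q * B := by positivity
          have e3 : B ≤ q * B := le_mul_of_one_le_left hB hq
          nlinarith)
  have h3 : (c * q * Real.exp B) ^ E ≤ Real.exp (q * ((c + 1) * q * (1 + B))) := by
    refine (pow_le_pow_left₀ (by positivity) h2 E).trans ?_
    rw [← Real.exp_nat_mul]
    refine Real.exp_le_exp.2 (mul_le_mul_of_nonneg_right hE (by positivity))
  have h4 : 1 ≤ (C : ℝ) * q * (1 + B) := by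
    have : (1 : ℝ) ≤ C := by linarith
    exact one_le_mul_of_one_le_of_one_le (one_le_mul_of_one_le_of_one_le this hq) (by linarith)
  have hC2 : 2 ≤ C := by
    have : (3 : ℝ) ≤ C := by linarith
    exact_mod_cast (by linarith : (2 : ℝ) ≤ C)
  calc c * (c * q * Real.exp B) ^ E
      ≤ Real.exp c * Real.exp (q * ((c + 1) * q * (1 + B))) :=
        mul_le_mul h1 h3 (by positivity) (Real.exp_pos _).le
    _ = Real.exp (c + q * ((c + 1) * q * (1 + B))) := (Real.exp_add _ _).symm
    _ ≤ Real.exp ((C * q * (1 + B)) ^ 2) := by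
        refine Real.exp_le_exp.2 ?_
        have e1 : c ≤ c * (q ^ 2 * (1 + B)) :=
          le_mul_of_one_le_right (by linarith)
            (one_le_mul_of_one_le_of_one_le (one_le_pow₀ hq) (by linarith))
        have e2 : c + q * ((c + 1) * q * (1 + B)) ≤ (2 * c + 1) * (q ^ 2 * (1 + B)) := by
          nlinarith
        have e3 : (2 * c + 1) * (q ^ 2 * (1 + B)) ≤ (C : ℝ) * (q ^ 2 * (1 + B)) :=
          mul_le_mul_of_nonneg_right hC (by positivity)
        have e4 : (C : ℝ) * (q ^ 2 * (1 + B)) ≤ (C * q * (1 + B)) ^ 2 := by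
          have e5 : (C * q * (1 + B)) ^ 2 = (C : ℝ) * (q ^ 2 * (1 + B)) * (C * (1 + B)) := by ring
          rw [e5]
          refine le_mul_of_one_le_right (by positivity) ?_
          exact one_le_mul_of_one_le_of_one_le (by linarith) (by linarith)
        linarith
    _ ≤ _ := Real.exp_le_exp.2 (pow_le_pow_right₀ h4 hC2)

theorem sie (K : IntermediateField ℚ ℂ) [FiniteDimensional ℚ K] : ∃ C : ℕ, 0 < C ∧
    ∀ (ι κ : Type) [Fintype ι] [Fintype κ] (M : ι → κ → OO) (B : ℝ), 0 ≤ B →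
      Fintype.card ι < Fintype.card κ → (∀ i k, ((M i k : OO) : ℂ) ∈ K) →
      (∀ i k (s : ℂ ≃+* ℂ), ‖s ((M i k : OO) : ℂ)‖ ≤ Real.exp B) →
      ∃ x : κ → OO, (∃ k, x k ≠ 0) ∧ (∀ k, ((x k : OO) : ℂ) ∈ K) ∧ (∀ i, ∑ k, M i k * x k = 0) ∧
        ∀ k (s : ℂ ≃+* ℂ), ‖s ((x k : OO) : ℂ)‖ ≤
          Real.exp ((C * (Fintype.card κ) * (1 + B)) ^ C) := by
  obtain ⟨c, hc, hsg⟩ := siegelK K
  obtain ⟨C, hC⟩ := exists_nat_ge (2 * c + 1)
  refine ⟨C, ?_, ?_⟩
  · have : (0 : ℝ) < C := by linarith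
    exact_mod_cast this
  intro ι κ _ _ M B hB hcard hK hM
  have hint : ∀ z : OO, IsIntegral ℤ (z : ℂ) := fun z => z.2
  obtain ⟨x, hx, hx0, hxi, hxb⟩ := hsg ι κ (fun i k => ⟨((M i k : OO) : ℂ), hK i k⟩) (Real.exp B)
    (Fintype.card ι) (Real.one_le_exp hB) (by
      have h1 : (Fintype.card ι : ℝ) + 1 ≤ Fintype.card κ := by exact_mod_cast hcard
      have h2 : (0 : ℝ) ≤ Fintype.card ι := Nat.cast_nonneg _
      nlinarith) hcard (fun i k => by
      have h1 := hint (M i k)
      exact (isIntegral_algHom_iff (K.val.restrictScalars ℤ) Subtype.val_injective).1 h1) (by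
      intro i k σ
      obtain ⟨s, hs⟩ := exists_aut K σ
      rw [← hs]
      exact hM i k s)
  have hxc : ∀ k, IsIntegral ℤ ((x k : K) : ℂ) := fun k =>
    (hxi k).map (K.val.restrictScalars ℤ)
  refine ⟨fun k => ⟨((x k : K) : ℂ), hxc k⟩, ?_, fun k => (x k).2, fun i => ?_, fun k s => ?_⟩
  · by_contra h
    push Not at h
    apply hx
    funext k
    have h1 := congrArg (fun z : OO => (z : ℂ)) (h k)
    exact Subtype.ext h1
  · apply Subtype.ext
    have h1 := congrArg (fun z : K => (z : ℂ)) (hx0 i)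
    push_cast at h1 ⊢
    exact h1
  · have h1 := hxb k ((s : ℂ →+* ℂ).comp (algebraMap K ℂ))
    refine le_trans h1 (Sie_num hc ?_ hB ?_ hC)
    · exact_mod_cast (by omega : 1 ≤ Fintype.card κ)
    · exact_mod_cast hcard.le

end Pool.Agent.LGO.RU
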