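import Mathlib
import Pool.Agent.LGO.RU.Sie
import Pool.Agent.LGO.RU.ArrB

/-!
# LGO/RU: the linear systems for the auxiliary functions

`types L M`: the pairs `(a, a')` of divisors of `L`, not `(L, M)`; `tcount L M = ∑ (L / a) (L / a')`.  `sys`: a combination with small coefficients of
the arrays `Gs u`, `u ∈ κ`, which vanishes up to the order `T` at all types, if `tcount L M * T < card κ`.
-/

namespace Pool.Agent.LGO.RU

open PowerSeries Pool.Agent.Hhelper14.ZP Pool.Agent.Hhelper14.ZPL Pool.Agent.LGO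
  Pool.Agent.LGO.PA

/-- the types -/
def types (L M : ℕ) : Finset (ℕ × ℕ) :=
  (L.divisors ×ˢ L.divisors).filter fun t => ¬ (t.1 = L ∧ t.2 = M)

/-- the number of pairs of roots of all types -/
def tcount (L M : ℕ) : ℕ := ∑ t ∈ types L M, (L / t.1) * (L / t.2)

theorem mem_types {L M a d a' d' : ℕ} (hL : 0 < L) (h : a * d = L) (h' : a' * d' = L)
    (hn : ¬ (a = L ∧ a' = M)) : (a, a') ∈ types L M ∧ L / a = d ∧ L / a' = d' := by
  have ha : 0 < a := by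
    rcases Nat.eq_zero_or_pos a with h0 | h0
    · rw [h0, zero_mul] at h
      omega
    · exact h0
  have ha' : 0 < a' := by
    rcases Nat.eq_zero_or_pos a' with h0 | h0
    · rw [h0, zero_mul] at h'
      omega
    · exact h0
  refine ⟨?_, ?_, ?_⟩
  · rw [types, Finset.mem_filter, Finset.mem_product, Nat.mem_divisors, Nat.mem_divisors]
    exact ⟨⟨⟨Dvd.intro d h, by omega⟩, ⟨Dvd.intro d' h', by omega⟩⟩, hn⟩
  · rw [← h, Nat.mul_div_cancel_left _ ha]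
  · rw [← h', Nat.mul_div_cancel_left _ ha']

private theorem Sys_num {q Y B' C₂ l : ℝ} {C₁ C₃ C : ℕ} (hC₁ : 1 ≤ C₁) (hq : 1 ≤ q)
    (hY : 1 ≤ Y) (hC₂ : 0 ≤ C₂) (hl : 0 ≤ l) (hB' : 0 ≤ B') (hB : 1 + B' ≤ Y + C₂ * Y ^ 3 + l * Y)
    (h3 : (C₁ : ℝ) * (C₂ + l + 1) ≤ C₃) (hC : C = 3 * C₁ + C₃) :
    ((C₁ : ℝ) * q * (1 + B')) ^ C₁ ≤ (C * q * Y) ^ C := by
  have hC₁' : (1 : ℝ) ≤ C₁ := by exact_mod_cast hC₁
  have hC₃' : (1 : ℝ) ≤ C₃ := by nlinarith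
  have hCR : (C : ℝ) = 3 * C₁ + C₃ := by rw [hC]; push_cast; ring
  have e0 : Y ≤ Y ^ 3 := le_self_pow₀ hY (by norm_num)
  have e1 : 1 + B' ≤ (C₂ + l + 1) * Y ^ 3 := by nlinarith [mul_le_mul_of_nonneg_left e0 hl]
  have e2 : (C₁ : ℝ) * q * (1 + B') ≤ (C₃ * q * Y) ^ 3 := by
    calc (C₁ : ℝ) * q * (1 + B') ≤ (C₁ : ℝ) * q * ((C₂ + l + 1) * Y ^ 3) := by gcongr
      _ = ((C₁ : ℝ) * (C₂ + l + 1)) * q * Y ^ 3 := by ring
      _ ≤ (C₃ : ℝ) * q * Y ^ 3 := by gcongr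
      _ ≤ (C₃ : ℝ) ^ 3 * q ^ 3 * Y ^ 3 := by
          gcongr
          · exact le_self_pow₀ hC₃' (by norm_num)
          · exact le_self_pow₀ hq (by norm_num)
      _ = _ := by ring
  have e3 : 1 ≤ (C₃ : ℝ) * q * Y :=
    one_le_mul_of_one_le_of_one_le (one_le_mul_of_one_le_of_one_le hC₃' hq) hY
  have e4 : (C₃ : ℝ) * q * Y ≤ C * q * Y := by
    have : (C₃ : ℝ) ≤ C := by linarith
    gcongr
  calc ((C₁ : ℝ) * q * (1 + B')) ^ C₁ ≤ ((C₃ * q * Y) ^ 3) ^ C₁ := by gcongr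
    _ = (C₃ * q * Y) ^ (3 * C₁) := by rw [← pow_mul]
    _ ≤ (C * q * Y) ^ (3 * C₁) := by gcongr
    _ ≤ (C * q * Y) ^ C := by
        refine pow_le_pow_right₀ (e3.trans e4) ?_
        omega

/-- **the linear system** -/
theorem sys (K : IntermediateField ℚ ℂ) [FiniteDimensional ℚ K] {qa qb : Ser} {ρ : ℝ}
    (hρ : 0 < ρ) (hρ1 : ρ ≤ 1) (ha : InK K qa) (hb : InK K qb) (ga : Gr ρ (1 / 2) qa)
    (gb : Gr ρ (1 / 2) qb) : ∃ C : ℕ, 0 < C ∧
    ∀ (κ : Type) [Fintype κ] (L M R T : ℕ) (Gs : κ → ℕ → ℕ → Ser) (B : ℝ), 0 < L → 0 ≤ B →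
      (∀ u, ∀ k < R, ∀ k' < R, InK K (Gs u k k')) →
      (∀ u, ∀ k < R, ∀ k' < R, Gr ρ (Real.exp B) (Gs u k k')) →
      tcount L M * T < Fintype.card κ →
      ∃ c : κ → OO, (∃ u, c u ≠ 0) ∧ (∀ u, ((c u : OO) : ℂ) ∈ K) ∧
        (∀ u (s : ℂ ≃+* ℂ), ‖s ((c u : OO) : ℂ)‖ ≤
          Real.exp ((C * (Fintype.card κ) * (L + R + T + 1 + B)) ^ C)) ∧
        VAll L M R (fun k k' => ∑ u, PowerSeries.C (c u) * Gs u k k') qa qb T := by
  obtain ⟨C₁, hC₁, hsie⟩ := sie K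
  obtain ⟨C₂, hC₂, hgr⟩ := Arr_gr
  obtain ⟨l, hl⟩ := exists_nat_ge (Real.log (1 / ρ))
  refine ⟨3 * C₁ + C₁ * (4 * C₂ + l + 1), by omega, ?_⟩
  intro κ _ L M R T Gs B hL hB hInK hGr hcount
  have hL' : (1 : ℝ) ≤ L := by exact_mod_cast hL
  have hR' : (0 : ℝ) ≤ R := Nat.cast_nonneg R
  have hT' : (0 : ℝ) ≤ T := Nat.cast_nonneg T
  have hl0 : (0 : ℝ) ≤ l := Nat.cast_nonneg l
  set B' : ℝ := B + C₂ * ((R : ℝ) + 1) ^ 2 * L + l * T with hB'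
  have hB'0 : 0 ≤ B' := by positivity
  have hpw : ∀ n < T, (1 / ρ) ^ n ≤ Real.exp (l * T) := by
    intro n hn
    have h1 : (1 : ℝ) ≤ 1 / ρ := by
      rw [one_le_div hρ]
      exact hρ1
    have h2 : 1 / ρ ≤ Real.exp l := by
      rw [← Real.log_le_iff_le_exp (by positivity)]
      exact hl
    calc (1 / ρ) ^ n ≤ (1 / ρ) ^ T := pow_le_pow_right₀ h1 hn.le
      _ ≤ Real.exp l ^ T := pow_le_pow_left₀ (by positivity) h2 T
      _ = Real.exp (l * T) := by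
          rw [← Real.exp_nat_mul]
          ring_nf
  have hcf : ∀ u (a d a' d' i j n : ℕ), a * d = L → a' * d' = L → i < d → j < d' → n < T →
      ∀ s : ℂ ≃+* ℂ, ‖s ((coeff n (Arr R (Gs u) qa qb a d a' d' i j) : OO) : ℂ)‖ ≤
        Real.exp B' := by
    intro u a d a' d' i j n h h' hi hj hn s
    have h1 := (hgr L R (Gs u) qa qb ρ B a d a' d' i j hρ.le hL h h' hi hj (hGr u) ga gb).coef
      hρ.le s n
    have h2 : ‖s ((coeff n (Arr R (Gs u) qa qb a d a' d' i j) : OO) : ℂ)‖ ≤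
        Real.exp (B + C₂ * ((R : ℝ) + 1) ^ 2 * L) * (1 / ρ) ^ n := by
      rw [one_div, inv_pow, ← div_eq_mul_inv, le_div_iff₀ (pow_pos hρ n)]
      exact h1
    refine h2.trans ?_
    rw [hB', Real.exp_add (B + C₂ * ((R : ℝ) + 1) ^ 2 * L)]
    exact mul_le_mul_of_nonneg_left (hpw n hn) (Real.exp_pos _).le
  -- the equations
  let ι : Type := Σ t : {t // t ∈ types L M}, Fin (L / t.1.1) × Fin (L / t.1.2) × Fin T
  have hcard : Fintype.card ι = tcount L M * T := by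
    rw [Fintype.card_sigma, tcount, Finset.sum_mul, ← Finset.sum_attach (types L M)]
    refine Finset.sum_congr rfl fun t _ => ?_
    rw [Fintype.card_prod, Fintype.card_prod, Fintype.card_fin, Fintype.card_fin,
      Fintype.card_fin, mul_assoc]
  have hdv : ∀ t : {t // t ∈ types L M}, t.1.1 * (L / t.1.1) = L ∧ t.1.2 * (L / t.1.2) = L := by
    rintro ⟨t, ht⟩
    rw [types, Finset.mem_filter, Finset.mem_product] at ht
    exact ⟨Nat.mul_div_cancel' (Nat.dvd_of_mem_divisors ht.1.1),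
      Nat.mul_div_cancel' (Nat.dvd_of_mem_divisors ht.1.2)⟩
  obtain ⟨c, hc, hcK, hc0, hcb⟩ := hsie ι κ
    (fun q u => coeff (q.2.2.2 : ℕ) (Arr R (Gs u) qa qb q.1.1.1 (L / q.1.1.1) q.1.1.2
      (L / q.1.1.2) q.2.1 q.2.2.1)) B' hB'0 (by rw [hcard]; exact hcount)
    (fun q u => Arr_inK (hInK u) ha hb _ _ _ _ _ _ _)
    (fun q u s => hcf u _ _ _ _ _ _ _ (hdv q.1).1 (hdv q.1).2 q.2.1.2 q.2.2.1.2 q.2.2.2.2 s)
  refine ⟨c, hc, hcK, fun u s => (hcb u s).trans (Real.exp_le_exp.2 ?_), ?_⟩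
  · have hq : (1 : ℝ) ≤ Fintype.card κ := by
      exact_mod_cast (by omega : 1 ≤ Fintype.card κ)
    refine Sys_num (C₂ := 4 * C₂) (l := l) (C₃ := C₁ * (4 * C₂ + l + 1)) hC₁ hq ?_ (by positivity)
      hl0 hB'0 ?_ ?_ rfl
    · linarith
    · set Y : ℝ := L + R + T + 1 + B with hY
      have hY1 : 1 ≤ Y := by linarith
      have e1 : ((R : ℝ) + 1) ^ 2 * L ≤ Y ^ 2 * Y := by
        gcongr
        · linarith
        · linarith
      have e2 : (C₂ : ℝ) * ((R : ℝ) + 1) ^ 2 * L ≤ 4 * C₂ * Y ^ 3 := by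
        have h0 : (0 : ℝ) ≤ C₂ := Nat.cast_nonneg _
        have h1 : (C₂ : ℝ) * (((R : ℝ) + 1) ^ 2 * L) ≤ C₂ * (Y ^ 2 * Y) :=
          mul_le_mul_of_nonneg_left e1 h0
        have h2 : 0 ≤ (C₂ : ℝ) * Y ^ 3 := by positivity
        nlinarith
      have e3 : (l : ℝ) * T ≤ l * Y := mul_le_mul_of_nonneg_left (by linarith) hl0
      rw [hB']
      linarith
    · push_cast
      linarith
  · intro a d a' d' h h' hn i hi j hj n hnT
    obtain ⟨hmem, hd, hd'⟩ := mem_types hL h h' hn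
    subst hd hd'
    rw [Arr_lin, map_sum]
    have h1 := hc0 ⟨⟨(a, a'), hmem⟩, ⟨i, hi⟩, ⟨j, hj⟩, ⟨n, hnT⟩⟩
    rw [← h1]
    refine Finset.sum_congr rfl fun u _ => ?_
    rw [coeff_C_mul, mul_comm]

end Pool.Agent.LGO.RU
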