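import Mathlib
import Pool.Agent.LGO.RU.Sys

/-!
# LGO/RU: the auxiliary function (first linear system), note 3151, section (3)

`L = M₀ M`, `R = (M₀ + 1) (M + 1)`, `n₁ = 4 L R`.  Unknowns `c i j k k'`, `i < e`, `n₁ ≤ j < n₂`, `k, k' < R`: `e (n₂ - n₁) R ^ 2` of them.  Equations: for the types
`(a, a')` with `a d = a' d' = L`, not `(L, M)`: `d d' T` equations, together `(R ^ 2 - M₀) T`, `T = e n₂ + T₀`, `T₀ = h e + (m + l) L R + e`.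
`n₂ = R ^ 2 (T₀ + e n₁) + 1`.
-/

namespace Pool.Agent.LGO.RU

open PowerSeries Pool.Agent.Hhelper14.ZP Pool.Agent.LGO

variable {n : ℕ} {V : Set (Fin n → ℂ)} {a b : Fin n}

/-- the number of equations at each order -/
theorem tcount_two {M₀ M : ℕ} (h₀ : M₀.Prime) (h : M.Prime) (hne : M₀ ≠ M) :
    tcount (M₀ * M) M + M₀ = ((M₀ + 1) * (M + 1)) ^ 2 := by
  have hL : M₀ * M ≠ 0 := Nat.mul_ne_zero h₀.ne_zero h.ne_zero
  have hsum : ∑ a ∈ (M₀ * M).divisors, M₀ * M / a = (M₀ + 1) * (M + 1) := by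
    rw [Nat.sum_div_divisors (M₀ * M) (fun d => d),
      Nat.Coprime.sum_divisors_mul ((Nat.coprime_primes h₀ h).2 hne), h₀.sum_divisors,
      h.sum_divisors]
  have hmem : (M₀ * M, M) ∈ (M₀ * M).divisors ×ˢ (M₀ * M).divisors := by
    rw [Finset.mem_product, Nat.mem_divisors, Nat.mem_divisors]
    exact ⟨⟨dvd_refl _, hL⟩, ⟨Dvd.intro_left M₀ rfl, hL⟩⟩
  have hty : types (M₀ * M) M = ((M₀ * M).divisors ×ˢ (M₀ * M).divisors).erase (M₀ * M, M) := by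
    ext t
    rw [types, Finset.mem_filter, Finset.mem_erase, Ne, Prod.ext_iff]
    exact and_comm
  have h1 := Finset.sum_erase_add ((M₀ * M).divisors ×ˢ (M₀ * M).divisors)
    (fun t => (M₀ * M / t.1) * (M₀ * M / t.2)) hmem
  rw [← hty] at h1
  have h2 : (M₀ * M / (M₀ * M)) * (M₀ * M / M) = M₀ := by
    rw [Nat.div_self (Nat.pos_of_ne_zero hL), Nat.mul_div_cancel _ h.pos, one_mul]
  rw [h2] at h1
  rw [tcount, h1, Finset.sum_product, ← hsum, sq, Finset.sum_mul_sum]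

private theorem Aux1_count {t M₀ R e T₀ n₁ n₂ : ℕ} (h : t + M₀ = R ^ 2) (h2 : 2 ≤ M₀)
    (he : 0 < e) (hn : n₂ = R ^ 2 * (T₀ + e * n₁) + 1) :
    n₁ ≤ n₂ ∧ t * (e * n₂ + T₀) < e * (n₂ - n₁) * R ^ 2 := by
  have hR : 4 ≤ R ^ 2 := by
    have h3 : 2 ≤ R ^ 2 := by omega
    have h4 : 2 ≤ R := by
      by_contra hcon
      have : R ≤ 1 := by omega
      have : R ^ 2 ≤ 1 := by nlinarith
      omega
    nlinarith
  have h5 : 4 * n₁ + 1 ≤ n₂ := by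
    rw [hn]
    have e1 : n₁ ≤ T₀ + e * n₁ := by nlinarith
    nlinarith
  refine ⟨by omega, ?_⟩
  obtain ⟨δ, hδ⟩ := Nat.exists_eq_add_of_le (by omega : n₁ ≤ n₂)
  have e2 : n₂ - n₁ = δ := by omega
  rw [e2, ← h]
  have e3 : t * (T₀ + e * n₁) ≤ n₂ - 1 := by
    have : t ≤ R ^ 2 := by omega
    rw [hn, Nat.add_sub_cancel]
    exact Nat.mul_le_mul_right _ this
  have e4 : n₂ - 1 < e * δ * M₀ := by
    have e5 : 2 * δ ≤ e * δ * M₀ := by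
      calc 2 * δ = 1 * δ * 2 := by ring
        _ ≤ e * δ * M₀ := Nat.mul_le_mul (Nat.mul_le_mul_right _ he) h2
    omega
  have e6 : t * (e * n₂ + T₀) = t * (T₀ + e * n₁) + t * (e * δ) := by
    rw [hδ]
    ring
  rw [e6]
  have e7 : e * δ * (t + M₀) = e * δ * M₀ + t * (e * δ) := by ring
  rw [e7]
  omega

private theorem Aux1_size {L R e h ml T₀ n₁ n₂ c₁ c₅ : ℕ} (hL : 1 ≤ L) (hR : R ≤ 4 * L)
    (hT₀ : T₀ = h * e + ml * L * R + e) (hn₁ : n₁ = 4 * L * R)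
    (hn : n₂ = R ^ 2 * (T₀ + e * n₁) + 1) (hc₁ : c₁ = h * e + 4 * ml + e)
    (hc₅ : c₅ = 16 * (c₁ + 16 * e) + 1) : T₀ ≤ c₁ * L ^ 2 ∧ n₂ ≤ c₅ * L ^ 4 := by
  have hLR : L * R ≤ 4 * L ^ 2 := by nlinarith
  have hL2 : 1 ≤ L ^ 2 := Nat.one_le_pow _ _ hL
  have h1 : T₀ ≤ c₁ * L ^ 2 := by
    rw [hT₀, hc₁]
    have e1 : ml * L * R ≤ ml * (4 * L ^ 2) := by
      rw [mul_assoc]
      exact Nat.mul_le_mul_left _ hLR
    have e2 : h * e ≤ h * e * L ^ 2 := Nat.le_mul_of_pos_right _ hL2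
    have e3 : e ≤ e * L ^ 2 := Nat.le_mul_of_pos_right _ hL2
    calc h * e + ml * L * R + e ≤ h * e * L ^ 2 + ml * (4 * L ^ 2) + e * L ^ 2 := by omega
      _ = (h * e + 4 * ml + e) * L ^ 2 := by ring
  refine ⟨h1, ?_⟩
  have h2 : e * n₁ ≤ 16 * e * L ^ 2 := by
    rw [hn₁, mul_assoc 4 L R]
    calc e * (4 * (L * R)) ≤ e * (4 * (4 * L ^ 2)) :=
          Nat.mul_le_mul_left _ (Nat.mul_le_mul_left _ hLR)
      _ = 16 * e * L ^ 2 := by ring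
  have h3 : R ^ 2 ≤ 16 * L ^ 2 := by
    calc R ^ 2 ≤ (4 * L) ^ 2 := Nat.pow_le_pow_left hR 2
      _ = 16 * L ^ 2 := by ring
  have h4 : 1 ≤ L ^ 4 := Nat.one_le_pow _ _ hL
  rw [hn, hc₅]
  calc R ^ 2 * (T₀ + e * n₁) + 1 ≤ 16 * L ^ 2 * (c₁ * L ^ 2 + 16 * e * L ^ 2) + L ^ 4 :=
        Nat.add_le_add (Nat.mul_le_mul h3 (Nat.add_le_add h1 h2)) h4
    _ = (16 * (c₁ + 16 * e) + 1) * L ^ 4 := by ring

private theorem Aux1_gar {e h n₁ n₂ R : ℕ} (hn : n₁ ≤ n₂) (W : Ser)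
    (c : Fin e × Fin (n₂ - n₁) × Fin R × Fin R → OO) (c' : ℕ → ℕ → ℕ → ℕ → OO)
    (hu : ∀ u : Fin e × Fin (n₂ - n₁) × Fin R × Fin R,
      c' u.1 (n₁ + u.2.1) u.2.2.1 u.2.2.2 = c u)
    (hs : ∀ i j k k', c' i j k k' ≠ 0 → i < e ∧ n₁ ≤ j ∧ j < n₂ ∧ k < R ∧ k' < R) (k k' : ℕ) :
    Gar e h n₂ W c' k k' = ∑ u : Fin e × Fin (n₂ - n₁) × Fin R × Fin R,
      PowerSeries.C (c u) * (if (k = u.2.2.1 ∧ k' = u.2.2.2) then
        W ^ (u.1 : ℕ) * X ^ (e * (n₂ - (n₁ + u.2.1)) + h * (e - u.1)) else 0) := by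
  unfold Gar
  rw [Fintype.sum_prod_type, Finset.sum_range]
  refine Finset.sum_congr rfl fun i _ => ?_
  rw [Fintype.sum_prod_type]
  have h1 : ∑ j ∈ Finset.range n₂, PowerSeries.C (c' i j k k') * W ^ (i : ℕ) *
      X ^ (e * (n₂ - j) + h * (e - i)) = ∑ j ∈ Finset.range (n₂ - n₁),
      PowerSeries.C (c' i (n₁ + j) k k') * W ^ (i : ℕ) *
      X ^ (e * (n₂ - (n₁ + j)) + h * (e - i)) := by
    rw [← Finset.sum_Ico_eq_sum_range (fun j => PowerSeries.C (c' i j k k') * W ^ (i : ℕ) *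
      X ^ (e * (n₂ - j) + h * (e - i))) n₁ n₂, ← Finset.sum_range_add_sum_Ico _ hn]
    rw [Finset.sum_eq_zero, zero_add]
    intro j hj
    have hz : c' i j k k' = 0 := by
      by_contra hne
      have := (hs _ _ _ _ hne).2.1
      have := Finset.mem_range.1 hj
      omega
    rw [hz, map_zero, zero_mul, zero_mul]
  rw [h1, Finset.sum_range]
  refine Finset.sum_congr rfl fun j _ => ?_
  rw [Fintype.sum_prod_type]
  by_cases hk : k < R ∧ k' < R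
  · rw [Finset.sum_eq_single (⟨k, hk.1⟩ : Fin R), Finset.sum_eq_single (⟨k', hk.2⟩ : Fin R)]
    · rw [if_pos ⟨rfl, rfl⟩, ← hu (i, j, ⟨k, hk.1⟩, ⟨k', hk.2⟩), mul_assoc]
    · intro b _ hb
      rw [if_neg, mul_zero]
      rintro ⟨-, h2⟩
      exact hb (Fin.ext h2.symm)
    · intro h2
      exact absurd (Finset.mem_univ _) h2
    · intro a _ ha
      refine Finset.sum_eq_zero fun b _ => ?_
      rw [if_neg, mul_zero]
      rintro ⟨h2, -⟩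
      exact ha (Fin.ext h2.symm)
    · intro h2
      exact absurd (Finset.mem_univ _) h2
  · have hz : c' i (n₁ + j) k k' = 0 := by
      by_contra hne
      exact hk (hs _ _ _ _ hne).2.2.2
    rw [hz, map_zero, zero_mul, zero_mul]
    symm
    refine Finset.sum_eq_zero fun a _ => Finset.sum_eq_zero fun b _ => ?_
    rw [if_neg, mul_zero]
    rintro ⟨h2, h3⟩
    exact hk ⟨h2 ▸ a.2, h3 ▸ b.2⟩

theorem aux1_core (D : Loc V a b) (Q : QD D) : ∃ C : ℕ, 0 < C ∧ ∀ L R M₀ M : ℕ, 1 ≤ L → R ≤ 4 * L →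
    2 ≤ M₀ → tcount L M + M₀ = R ^ 2 →
    ∃ (n₂ : ℕ) (c : ℕ → ℕ → ℕ → ℕ → OO), (n₂ : ℝ) ≤ ((C : ℝ) * L) ^ C ∧
      (∃ i j k k', c i j k k' ≠ 0) ∧
      CB D.K₀ c D.e (4 * L * R) n₂ R (((C : ℝ) * L) ^ C) ∧
      VAll L M R (Gar D.e D.h n₂ D.W c) Q.qa Q.qb
        (D.e * n₂ + D.h * D.e + (D.m + D.l) * L * R + D.e) := by
  classical
  have := D.fd
  obtain ⟨Cs, hCs, hsys⟩ := sys D.K₀ Q.pos.1 Q.pos.2.1 Q.inK.1 Q.inK.2 Q.gr.1 Q.gr.2.1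
  obtain ⟨c₁, hc₁⟩ : ∃ c₁ : ℕ, c₁ = D.h * D.e + 4 * (D.m + D.l) + D.e := ⟨_, rfl⟩
  obtain ⟨c₅, hc₅⟩ : ∃ c₅ : ℕ, c₅ = 16 * (c₁ + 16 * D.e) + 1 := ⟨_, rfl⟩
  obtain ⟨c₆, hc₆⟩ : ∃ c₆ : ℕ, c₆ = 6 + D.e * c₅ + c₁ + D.e * Q.C := ⟨_, rfl⟩
  obtain ⟨C, hC⟩ : ∃ C : ℕ, C = 10 * Cs + Cs * (16 * D.e * c₅) * c₆ + c₅ + 4 := ⟨_, rfl⟩
  refine ⟨C, by omega, ?_⟩
  intro L R M₀ M hL hR hM₀ ht
  have he : 0 < D.e := D.pos.1
  obtain ⟨T₀, hT₀⟩ : ∃ T₀ : ℕ, T₀ = D.h * D.e + (D.m + D.l) * L * R + D.e := ⟨_, rfl⟩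
  obtain ⟨n₁, hn₁⟩ : ∃ n₁ : ℕ, n₁ = 4 * L * R := ⟨_, rfl⟩
  obtain ⟨n₂, hn₂⟩ : ∃ n₂ : ℕ, n₂ = R ^ 2 * (T₀ + D.e * n₁) + 1 := ⟨_, rfl⟩
  obtain ⟨hn12, hcount⟩ := Aux1_count ht hM₀ he hn₂
  obtain ⟨hT₀s, hn₂s⟩ := Aux1_size hL hR hT₀ hn₁ hn₂ hc₁ hc₅
  have hT : D.e * n₂ + D.h * D.e + (D.m + D.l) * L * R + D.e = D.e * n₂ + T₀ := by
    rw [hT₀]
    ring
  rw [← hn₁]
  -- the unknowns
  let κ : Type := Fin D.e × Fin (n₂ - n₁) × Fin R × Fin R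
  have hcard : Fintype.card κ = D.e * (n₂ - n₁) * R ^ 2 := by
    rw [Fintype.card_prod, Fintype.card_prod, Fintype.card_prod, Fintype.card_fin,
      Fintype.card_fin, Fintype.card_fin]
    ring
  let Gs : κ → ℕ → ℕ → Ser := fun u k k' =>
    if (k = u.2.2.1 ∧ k' = u.2.2.2) then
      D.W ^ (u.1 : ℕ) * X ^ (D.e * (n₂ - (n₁ + u.2.1)) + D.h * (D.e - u.1)) else 0
  have hρ := Q.pos.1.le
  have hW : Gr Q.ρ (Real.exp Q.C) D.W := Q.gr.2.2.mono (by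
    have := Real.add_one_le_exp (Q.C : ℝ)
    linarith)
  have hexp : (1 : ℝ) ≤ Real.exp Q.C := Real.one_le_exp (Nat.cast_nonneg _)
  obtain ⟨c, ⟨u₀, hu₀⟩, hcK, hcb, hV⟩ := hsys κ L M R (D.e * n₂ + T₀) Gs (D.e * Q.C) hL
    (by positivity)
    (fun u k _ k' _ => InK.ite ((D.inK.1.pow _).mul (InK.X.pow _)))
    (fun u k _ k' _ => Gr.ite (((hW.pow hρ (u.1 : ℕ)).mul hρ
      (Gr.X_pow hρ Q.pos.2.1 _)).mono (by
        rw [mul_one, Real.exp_nat_mul]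
        exact pow_le_pow_right₀ hexp u.1.2.le)))
    (by rw [hcard]; exact hcount)
  -- the coefficients
  let c' : ℕ → ℕ → ℕ → ℕ → OO := fun i j k k' =>
    if hh : i < D.e ∧ (n₁ ≤ j ∧ j < n₂) ∧ k < R ∧ k' < R then
      c (⟨i, hh.1⟩, ⟨j - n₁, by omega⟩, ⟨k, hh.2.2.1⟩, ⟨k', hh.2.2.2⟩) else 0
  have hc'u : ∀ u : κ, c' u.1 (n₁ + u.2.1) u.2.2.1 u.2.2.2 = c u := by
    intro u
    have hh : (u.1 : ℕ) < D.e ∧ (n₁ ≤ n₁ + (u.2.1 : ℕ) ∧ n₁ + (u.2.1 : ℕ) < n₂) ∧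
        (u.2.2.1 : ℕ) < R ∧ (u.2.2.2 : ℕ) < R :=
      ⟨u.1.2, ⟨by omega, by have := u.2.1.2; omega⟩, u.2.2.1.2, u.2.2.2.2⟩
    simp only [c', dif_pos hh]
    congr 1
    ext <;> simp
  have hc's : ∀ i j k k', c' i j k k' ≠ 0 → i < D.e ∧ n₁ ≤ j ∧ j < n₂ ∧ k < R ∧ k' < R := by
    intro i j k k' hne
    by_contra hcon
    apply hne
    simp only [c']
    rw [dif_neg]
    rintro ⟨h1, ⟨h2, h3⟩, h4, h5⟩
    exact hcon ⟨h1, h2, h3, h4, h5⟩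
  have hcard' : (Fintype.card κ : ℝ) ≤ ((16 * D.e * c₅ : ℕ) : ℝ) * (L : ℝ) ^ 6 := by
    have h1 : Fintype.card κ ≤ 16 * D.e * c₅ * L ^ 6 := by
      rw [hcard]
      have h3 : R ^ 2 ≤ 16 * L ^ 2 := by
        calc R ^ 2 ≤ (4 * L) ^ 2 := Nat.pow_le_pow_left hR 2
          _ = 16 * L ^ 2 := by ring
      calc D.e * (n₂ - n₁) * R ^ 2 ≤ D.e * (c₅ * L ^ 4) * (16 * L ^ 2) :=
            Nat.mul_le_mul (Nat.mul_le_mul_left _ ((Nat.sub_le _ _).trans hn₂s)) h3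
        _ = 16 * D.e * c₅ * L ^ 6 := by ring
    exact_mod_cast h1
  have hY : (L : ℝ) + R + ((D.e * n₂ + T₀ : ℕ) : ℝ) + 1 + D.e * Q.C ≤ (c₆ : ℝ) * (L : ℝ) ^ 4 := by
    have h1 : L + R + (D.e * n₂ + T₀) + 1 + D.e * Q.C ≤ c₆ * L ^ 4 := by
      have hL4 : 1 ≤ L ^ 4 := Nat.one_le_pow _ _ hL
      have e1 : L ≤ L ^ 4 := Nat.le_self_pow (by norm_num) L
      have e2 : D.e * n₂ ≤ D.e * c₅ * L ^ 4 := by
        rw [mul_assoc]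
        exact Nat.mul_le_mul_left _ hn₂s
      have e3 : T₀ ≤ c₁ * L ^ 4 := hT₀s.trans (Nat.mul_le_mul_left _
        (Nat.pow_le_pow_right hL (by norm_num)))
      have e4 : D.e * Q.C ≤ D.e * Q.C * L ^ 4 := Nat.le_mul_of_pos_right _ hL4
      rw [hc₆]
      calc L + R + (D.e * n₂ + T₀) + 1 + D.e * Q.C
          ≤ L ^ 4 + 4 * L ^ 4 + (D.e * c₅ * L ^ 4 + c₁ * L ^ 4) + L ^ 4 + D.e * Q.C * L ^ 4 := by
            omega
        _ = (6 + D.e * c₅ + c₁ + D.e * Q.C) * L ^ 4 := by ring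
    exact_mod_cast h1
  have hLR : (1 : ℝ) ≤ L := by exact_mod_cast hL
  have hCR : (C : ℝ) = 10 * Cs + Cs * (16 * D.e * c₅) * c₆ + c₅ + 4 := by
    rw [hC]
    push_cast
    ring
  have hC4 : (4 : ℝ) ≤ C := by
    rw [hCR]
    have : (0 : ℝ) ≤ 10 * Cs + Cs * (16 * D.e * c₅) * c₆ + c₅ := by positivity
    linarith
  have hCL : 1 ≤ (C : ℝ) * L := one_le_mul_of_one_le_of_one_le (by linarith) hLR
  have hbd : ((Cs : ℝ) * (Fintype.card κ) *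
      (L + R + ((D.e * n₂ + T₀ : ℕ) : ℝ) + 1 + D.e * Q.C)) ^ Cs ≤ ((C : ℝ) * L) ^ C := by
    have h1 : (Cs : ℝ) * (Fintype.card κ) *
        (L + R + ((D.e * n₂ + T₀ : ℕ) : ℝ) + 1 + D.e * Q.C) ≤ ((C : ℝ) * L) ^ 10 := by
      calc (Cs : ℝ) * (Fintype.card κ) *
          (L + R + ((D.e * n₂ + T₀ : ℕ) : ℝ) + 1 + D.e * Q.C)
          ≤ (Cs : ℝ) * (((16 * D.e * c₅ : ℕ) : ℝ) * (L : ℝ) ^ 6) * ((c₆ : ℝ) * (L : ℝ) ^ 4) := by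
            gcongr
        _ = (Cs * (16 * D.e * c₅) * c₆ : ℝ) * (L : ℝ) ^ 10 := by
            push_cast
            ring
        _ ≤ (C : ℝ) ^ 10 * (L : ℝ) ^ 10 := by
            have e1 : (Cs * (16 * D.e * c₅) * c₆ : ℝ) ≤ C := by
              rw [hCR]
              have : (0 : ℝ) ≤ 10 * Cs + c₅ + 4 := by positivity
              linarith
            have e2 : (C : ℝ) ≤ (C : ℝ) ^ 10 := le_self_pow₀ (by linarith) (by norm_num)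
            gcongr
            exact e1.trans e2
        _ = _ := by rw [mul_pow]
    calc _ ≤ (((C : ℝ) * L) ^ 10) ^ Cs := pow_le_pow_left₀ (by positivity) h1 Cs
      _ = ((C : ℝ) * L) ^ (10 * Cs) := by rw [← pow_mul]
      _ ≤ _ := pow_le_pow_right₀ hCL (by rw [hC]; omega)
  refine ⟨n₂, c', ?_, ⟨_, _, _, _, by rw [hc'u u₀]; exact hu₀⟩, ⟨?_, ?_, ?_⟩, ?_⟩
  · calc (n₂ : ℝ) ≤ (c₅ : ℝ) * (L : ℝ) ^ 4 := by exact_mod_cast hn₂s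
      _ ≤ (C : ℝ) ^ 4 * (L : ℝ) ^ 4 := by
          have e1 : (c₅ : ℝ) ≤ C := by
            rw [hCR]
            have : (0 : ℝ) ≤ 10 * Cs + Cs * (16 * D.e * c₅) * c₆ + 4 := by positivity
            linarith
          have e2 : (C : ℝ) ≤ (C : ℝ) ^ 4 := le_self_pow₀ (by linarith) (by norm_num)
          gcongr
          exact e1.trans e2
      _ = ((C : ℝ) * L) ^ 4 := by rw [mul_pow]
      _ ≤ _ := pow_le_pow_right₀ hCL (by rw [hC]; omega)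
  · exact hc's
  · intro i j k k'
    simp only [c']
    split_ifs with hh
    · exact hcK _
    · exact D.K₀.zero_mem
  · intro i j k k' s
    simp only [c']
    split_ifs with hh
    · exact (hcb _ s).trans (Real.exp_le_exp.2 hbd)
    · have : ‖s ((0 : OO) : ℂ)‖ = 0 := by simp
      rw [this]
      exact (Real.exp_pos _).le
  · have hG : (Gar D.e D.h n₂ D.W c') = fun k k' => ∑ u, PowerSeries.C (c u) * Gs u k k' := by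
      funext k k'
      exact Aux1_gar hn12 D.W c c' hc'u hc's k k'
    rw [hG, hT]
    exact hV

theorem aux1 (D : Loc V a b) (Q : QD D) : ∃ C : ℕ, 0 < C ∧ ∀ M₀ M : ℕ, M₀.Prime → M.Prime → M₀ ≠ M →
    ∃ (n₂ : ℕ) (c : ℕ → ℕ → ℕ → ℕ → OO), (n₂ : ℝ) ≤ ((C : ℝ) * (M₀ * M)) ^ C ∧
      (∃ i j k k', c i j k k' ≠ 0) ∧
      CB D.K₀ c D.e (4 * (M₀ * M) * ((M₀ + 1) * (M + 1))) n₂ ((M₀ + 1) * (M + 1))
        (((C : ℝ) * (M₀ * M)) ^ C) ∧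
      VAll (M₀ * M) M ((M₀ + 1) * (M + 1)) (Gar D.e D.h n₂ D.W c) Q.qa Q.qb
        (D.e * n₂ + D.h * D.e + (D.m + D.l) * (M₀ * M) * ((M₀ + 1) * (M + 1)) + D.e) := by
  obtain ⟨C, hC, h⟩ := aux1_core D Q
  refine ⟨C, hC, ?_⟩
  intro M₀ M h₀ h₁ hne
  obtain ⟨n₂, c, h1, h2, h3, h4⟩ := h (M₀ * M) ((M₀ + 1) * (M + 1)) M₀ M
    (Nat.mul_pos h₀.pos h₁.pos) (by nlinarith [h₀.pos, h₁.pos, Nat.mul_pos h₀.pos h₁.pos])
    h₀.two_le (tcount_two h₀ h₁ hne)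
  push_cast at h1 h3
  exact ⟨n₂, c, h1, h2, h3, h4⟩

end Pool.Agent.LGO.RU
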