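import Mathlib
import Pool.Agent.LGO.RU.Defs

/-!
# LGO/RU: calculus of `Gr` (geometric growth of all conjugates) and of the complex evaluation `evc`

`gr_mul`: absolutely convergent Cauchy products.
-/

namespace Pool.Agent.LGO.RU

open PowerSeries Pool.Agent.Hhelper14.ZP Pool.Agent.LGO Pool.Agent.LGO.PA

variable {r r' B B' : ℝ} {S S' : Ser}

theorem sC_apply (s : ℂ ≃+* ℂ) (x : OO) : sC s x = s (x : ℂ) := rfl

theorem gr_nonneg (h : Gr r B S) : 0 ≤ B := by
  simpa using h (RingEquiv.refl ℂ) 0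

theorem gr_mono (h : Gr r B S) (hB : B ≤ B') : Gr r B' S := fun s k => (h s k).trans hB

theorem gr_le (h : Gr r B S) (h0 : 0 ≤ r') (hr : r' ≤ r) : Gr r' B S := by
  intro s k
  refine le_trans (Finset.sum_le_sum fun n _ => ?_) (h s k)
  exact mul_le_mul_of_nonneg_left (pow_le_pow_left₀ h0 hr n) (norm_nonneg _)

theorem gr_summable (h : Gr r B S) (hr : 0 ≤ r) (s : ℂ ≃+* ℂ) :
    Summable fun n => ‖sC s (coeff n S)‖ * r ^ n :=
  summable_of_sum_range_le (fun n => mul_nonneg (norm_nonneg _) (pow_nonneg hr n)) fun k => h s k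

theorem gr_tsum_le (h : Gr r B S) (hr : 0 ≤ r) (s : ℂ ≃+* ℂ) :
    ∑' n, ‖sC s (coeff n S)‖ * r ^ n ≤ B :=
  Real.tsum_le_of_sum_range_le (fun n => mul_nonneg (norm_nonneg _) (pow_nonneg hr n)) fun k => h s k

theorem gr_of_summable (hr : 0 ≤ r)
    (h1 : ∀ s : ℂ ≃+* ℂ, Summable fun n => ‖sC s (coeff n S)‖ * r ^ n)
    (h2 : ∀ s : ℂ ≃+* ℂ, ∑' n, ‖sC s (coeff n S)‖ * r ^ n ≤ B) : Gr r B S := by
  intro s k
  refine le_trans ((h1 s).sum_le_tsum _ fun n _ => ?_) (h2 s)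
  exact mul_nonneg (norm_nonneg _) (pow_nonneg hr n)

theorem gr_coeff (h : Gr r B S) (hr : 0 ≤ r) (s : ℂ ≃+* ℂ) (n : ℕ) :
    ‖sC s (coeff n S)‖ * r ^ n ≤ B := by
  refine le_trans ?_ (h s (n + 1))
  rw [Finset.sum_range_succ]
  refine le_add_of_nonneg_left (Finset.sum_nonneg fun m _ => ?_)
  exact mul_nonneg (norm_nonneg _) (pow_nonneg hr m)

theorem gr_zero : Gr r 0 0 := by
  intro s k
  simp

theorem gr_C (hB : 0 ≤ B) {c : OO} (h : ∀ s : ℂ ≃+* ℂ, ‖s (c : ℂ)‖ ≤ B) : Gr r B (C c) := by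
  intro s k
  rcases k with _ | k
  · simpa using hB
  · rw [Finset.sum_range_succ']
    simp only [coeff_C, Nat.succ_ne_zero, if_false, if_true, ZeroMemClass.coe_zero, map_zero,
      norm_zero, zero_mul, Finset.sum_const_zero, pow_zero, mul_one, zero_add]
    exact h s

theorem gr_Xpow (hr : 0 ≤ r) (m : ℕ) : Gr r (r ^ m) (X ^ m) := by
  intro s k
  have h1 : ∀ n, ‖s ((coeff n (X ^ m : Ser) : OO) : ℂ)‖ * r ^ n = if n = m then r ^ m else 0 := by
    intro n
    rw [coeff_X_pow]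
    by_cases h : n = m
    · simp [h]
    · simp [h]
  simp only [h1]
  rw [Finset.sum_ite_eq']
  split_ifs
  · exact le_rfl
  · exact pow_nonneg hr m

theorem gr_one : Gr r 1 1 := by
  have := gr_C (r := r) zero_le_one (c := 1) (fun s => by simp)
  simpa using this

theorem gr_add (h : Gr r B S) (h' : Gr r B' S') (hr : 0 ≤ r) : Gr r (B + B') (S + S') := by
  intro s k
  refine le_trans ?_ (add_le_add (h s k) (h' s k))
  rw [← Finset.sum_add_distrib]
  refine Finset.sum_le_sum fun n _ => ?_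
  rw [← add_mul]
  refine mul_le_mul_of_nonneg_right ?_ (pow_nonneg hr n)
  show ‖sC s (coeff n (S + S'))‖ ≤ ‖sC s (coeff n S)‖ + ‖sC s (coeff n S')‖
  rw [map_add, map_add]
  exact norm_add_le _ _

theorem gr_neg (h : Gr r B S) : Gr r B (-S) := by
  intro s k
  refine le_trans (le_of_eq ?_) (h s k)
  refine Finset.sum_congr rfl fun n _ => ?_
  simp

theorem gr_sub (h : Gr r B S) (h' : Gr r B' S') (hr : 0 ≤ r) : Gr r (B + B') (S - S') := by
  rw [sub_eq_add_neg]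
  exact gr_add h (gr_neg h') hr

theorem gr_sum {ι : Type} (t : Finset ι) (S : ι → Ser) (B : ι → ℝ) (hr : 0 ≤ r)
    (h : ∀ i ∈ t, Gr r (B i) (S i)) : Gr r (∑ i ∈ t, B i) (∑ i ∈ t, S i) := by
  classical
  induction t using Finset.induction_on with
  | empty => simpa using gr_zero
  | insert i t hi ih =>
    rw [Finset.sum_insert hi, Finset.sum_insert hi]
    exact gr_add (h i (Finset.mem_insert_self i t))
      (ih fun j hj => h j (Finset.mem_insert_of_mem hj)) hr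

theorem gr_mul (h : Gr r B S) (h' : Gr r B' S') (hr : 0 ≤ r) : Gr r (B * B') (S * S') := by
  have e1 : ∀ (s : ℂ ≃+* ℂ) (n : ℕ), ‖sC s (coeff n (S * S'))‖ * r ^ n ≤
      ∑ p ∈ Finset.HasAntidiagonal.antidiagonal n, (‖sC s (coeff p.1 S)‖ * r ^ p.1) *
        (‖sC s (coeff p.2 S')‖ * r ^ p.2) := by
    intro s n
    rw [coeff_mul, map_sum]
    calc ‖∑ p ∈ Finset.HasAntidiagonal.antidiagonal n, sC s (coeff p.1 S * coeff p.2 S')‖ * r ^ n
        ≤ (∑ p ∈ Finset.HasAntidiagonal.antidiagonal n, ‖sC s (coeff p.1 S * coeff p.2 S')‖) * r ^ n :=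
          mul_le_mul_of_nonneg_right (norm_sum_le _ _) (pow_nonneg hr n)
      _ = _ := by
          rw [Finset.sum_mul]
          refine Finset.sum_congr rfl fun p hp => ?_
          have hp' : p.1 + p.2 = n := Finset.HasAntidiagonal.mem_antidiagonal.1 hp
          rw [map_mul, norm_mul, ← hp', pow_add]
          ring
  intro s k
  have h1 := gr_summable h hr s
  have h2 := gr_summable h' hr s
  have n1 : ∀ n, 0 ≤ ‖sC s (coeff n S)‖ * r ^ n := fun n =>
    mul_nonneg (norm_nonneg _) (pow_nonneg hr n)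
  have n2 : ∀ n, 0 ≤ ‖sC s (coeff n S')‖ * r ^ n := fun n =>
    mul_nonneg (norm_nonneg _) (pow_nonneg hr n)
  have h3 := summable_norm_sum_mul_antidiagonal_of_summable_norm h1.norm h2.norm
  have h4 := tsum_mul_tsum_eq_tsum_sum_antidiagonal_of_summable_norm h1.norm h2.norm
  have n3 : ∀ n, 0 ≤ ∑ p ∈ Finset.HasAntidiagonal.antidiagonal n, (‖sC s (coeff p.1 S)‖ * r ^ p.1) *
        (‖sC s (coeff p.2 S')‖ * r ^ p.2) := fun n =>
    Finset.sum_nonneg fun p _ => mul_nonneg (n1 _) (n2 _)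
  have h5 : Summable fun n => ∑ p ∈ Finset.HasAntidiagonal.antidiagonal n,
      (‖sC s (coeff p.1 S)‖ * r ^ p.1) * (‖sC s (coeff p.2 S')‖ * r ^ p.2) := by
    refine h3.congr fun n => ?_
    rw [Real.norm_of_nonneg (n3 n)]
  calc ∑ n ∈ Finset.range k, ‖s ((coeff n (S * S') : OO) : ℂ)‖ * r ^ n
      ≤ ∑ n ∈ Finset.range k, ∑ p ∈ Finset.HasAntidiagonal.antidiagonal n,
        (‖sC s (coeff p.1 S)‖ * r ^ p.1) * (‖sC s (coeff p.2 S')‖ * r ^ p.2) :=
        Finset.sum_le_sum fun n _ => e1 s n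
    _ ≤ ∑' n, ∑ p ∈ Finset.HasAntidiagonal.antidiagonal n,
        (‖sC s (coeff p.1 S)‖ * r ^ p.1) * (‖sC s (coeff p.2 S')‖ * r ^ p.2) :=
        h5.sum_le_tsum _ fun n _ => n3 n
    _ = (∑' n, ‖sC s (coeff n S)‖ * r ^ n) * ∑' n, ‖sC s (coeff n S')‖ * r ^ n := h4.symm
    _ ≤ B * B' := mul_le_mul (gr_tsum_le h hr s) (gr_tsum_le h' hr s) (tsum_nonneg n2)
        (gr_nonneg h)

theorem gr_pow (h : Gr r B S) (hr : 0 ≤ r) (m : ℕ) : Gr r (B ^ m) (S ^ m) := by
  induction m with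
  | zero => simpa using gr_one
  | succ m ih =>
    rw [pow_succ, pow_succ]
    exact gr_mul ih h hr

/-- evaluation -/
theorem evc_summable (h : Gr r B S) {z : ℂ} (hz : ‖z‖ ≤ r) (s : ℂ ≃+* ℂ) :
    Summable fun n => ‖sC s (coeff n S) * z ^ n‖ := by
  refine Summable.of_nonneg_of_le (fun n => norm_nonneg _) (fun n => ?_)
    (gr_summable h ((norm_nonneg z).trans hz) s)
  rw [norm_mul, norm_pow]
  exact mul_le_mul_of_nonneg_left (pow_le_pow_left₀ (norm_nonneg z) hz n) (norm_nonneg _)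

theorem evc_hasSum (h : Gr r B S) {z : ℂ} (hz : ‖z‖ ≤ r) (s : ℂ ≃+* ℂ) :
    HasSum (fun n => sC s (coeff n S) * z ^ n) (evc s S z) :=
  (evc_summable h hz s).of_norm.hasSum

theorem evc_norm_le (h : Gr r B S) {z : ℂ} (hz : ‖z‖ ≤ r) (s : ℂ ≃+* ℂ) : ‖evc s S z‖ ≤ B := by
  refine le_trans (norm_tsum_le_tsum_norm (evc_summable h hz s)) ?_
  refine le_trans ?_ (gr_tsum_le h ((norm_nonneg z).trans hz) s)
  refine (evc_summable h hz s).tsum_le_tsum (fun n => ?_) (gr_summable h ((norm_nonneg z).trans hz) s)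
  rw [norm_mul, norm_pow]
  exact mul_le_mul_of_nonneg_left (pow_le_pow_left₀ (norm_nonneg z) hz n) (norm_nonneg _)

/-- a series without the terms below `M` -/
theorem evc_order (h : Gr r B S) (hr : 0 < r) {z : ℂ} (hz : ‖z‖ ≤ r) (s : ℂ ≃+* ℂ) (M : ℕ)
    (hM : ∀ n < M, coeff n S = 0) : ‖evc s S z‖ ≤ B * (‖z‖ / r) ^ M := by
  have h0 : 0 ≤ ‖z‖ / r := div_nonneg (norm_nonneg z) hr.le
  have h1 : ‖z‖ / r ≤ 1 := (div_le_one hr).2 hz
  have e1 : ∀ n, ‖sC s (coeff n S) * z ^ n‖ ≤ (‖sC s (coeff n S)‖ * r ^ n) * (‖z‖ / r) ^ M := by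
    intro n
    rcases lt_or_ge n M with hn | hn
    · rw [hM n hn]
      simp
    · have e2 : ‖z‖ ^ n = r ^ n * (‖z‖ / r) ^ n := by
        rw [← mul_pow, mul_div_cancel₀ _ hr.ne']
      rw [norm_mul, norm_pow, e2, ← mul_assoc]
      refine mul_le_mul_of_nonneg_left (pow_le_pow_of_le_one h0 h1 hn) ?_
      exact mul_nonneg (norm_nonneg _) (pow_nonneg hr.le n)
  refine le_trans (norm_tsum_le_tsum_norm (evc_summable h hz s)) ?_
  refine le_trans ((evc_summable h hz s).tsum_le_tsum e1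
    ((gr_summable h hr.le s).mul_right _)) ?_
  rw [tsum_mul_right]
  exact mul_le_mul_of_nonneg_right (gr_tsum_le h hr.le s) (pow_nonneg h0 M)

theorem evc_add (h : Gr r B S) (h' : Gr r B' S') {z : ℂ} (hz : ‖z‖ ≤ r) (s : ℂ ≃+* ℂ) :
    evc s (S + S') z = evc s S z + evc s S' z := by
  have h1 := (evc_hasSum h hz s).add (evc_hasSum h' hz s)
  refine HasSum.tsum_eq ?_
  have h2 : (fun n => sC s (coeff n (S + S')) * z ^ n) =
      fun n => sC s (coeff n S) * z ^ n + sC s (coeff n S') * z ^ n := by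
    funext n
    rw [map_add, map_add, add_mul]
  rw [h2]
  exact h1

theorem evc_neg (s : ℂ ≃+* ℂ) (S : Ser) (z : ℂ) : evc s (-S) z = -evc s S z := by
  unfold evc
  rw [← tsum_neg]
  refine tsum_congr fun n => ?_
  rw [map_neg, map_neg, neg_mul]

theorem evc_sub (h : Gr r B S) (h' : Gr r B' S') {z : ℂ} (hz : ‖z‖ ≤ r) (s : ℂ ≃+* ℂ) :
    evc s (S - S') z = evc s S z - evc s S' z := by
  rw [sub_eq_add_neg, evc_add h (gr_neg h') hz s, evc_neg, sub_eq_add_neg]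

theorem evc_C (s : ℂ ≃+* ℂ) (z : ℂ) (c : OO) : evc s (C c) z = s (c : ℂ) := by
  unfold evc
  rw [tsum_eq_single 0]
  · simp [sC_apply]
  · intro n hn
    rw [coeff_C, if_neg hn, map_zero, zero_mul]

theorem evc_zero (s : ℂ ≃+* ℂ) (z : ℂ) : evc s 0 z = 0 := by
  unfold evc
  simp

theorem evc_one (s : ℂ ≃+* ℂ) (z : ℂ) : evc s 1 z = 1 := by
  have := evc_C s z 1
  simpa using this

theorem evc_Xpow (s : ℂ ≃+* ℂ) (z : ℂ) (m : ℕ) : evc s (X ^ m) z = z ^ m := by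
  unfold evc
  rw [tsum_eq_single m]
  · rw [coeff_X_pow, if_pos rfl, map_one, one_mul]
  · intro n hn
    rw [coeff_X_pow, if_neg hn, map_zero, zero_mul]

theorem evc_X (s : ℂ ≃+* ℂ) (z : ℂ) : evc s X z = z := by
  have := evc_Xpow s z 1
  simpa using this

theorem evc_mul (h : Gr r B S) (h' : Gr r B' S') {z : ℂ} (hz : ‖z‖ ≤ r) (s : ℂ ≃+* ℂ) :
    evc s (S * S') z = evc s S z * evc s S' z := by
  have h1 := tsum_mul_tsum_eq_tsum_sum_antidiagonal_of_summable_norm (evc_summable h hz s)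
    (evc_summable h' hz s)
  unfold evc
  rw [h1]
  refine tsum_congr fun n => ?_
  rw [coeff_mul, map_sum, Finset.sum_mul]
  refine Finset.sum_congr rfl fun p hp => ?_
  have hp' : p.1 + p.2 = n := Finset.HasAntidiagonal.mem_antidiagonal.1 hp
  rw [map_mul, ← hp', pow_add]
  ring

theorem evc_pow (h : Gr r B S) {z : ℂ} (hz : ‖z‖ ≤ r) (s : ℂ ≃+* ℂ) (m : ℕ) :
    evc s (S ^ m) z = evc s S z ^ m := by
  induction m with
  | zero => rw [pow_zero, pow_zero, evc_one]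
  | succ m ih =>
    rw [pow_succ, pow_succ, evc_mul (gr_pow h ((norm_nonneg z).trans hz) m) h hz s, ih]

theorem evc_sum {ι : Type} (t : Finset ι) (S : ι → Ser) (B : ι → ℝ) (h : ∀ i ∈ t, Gr r (B i) (S i))
    {z : ℂ} (hz : ‖z‖ ≤ r) (s : ℂ ≃+* ℂ) :
    evc s (∑ i ∈ t, S i) z = ∑ i ∈ t, evc s (S i) z := by
  classical
  induction t using Finset.induction_on with
  | empty => rw [Finset.sum_empty, Finset.sum_empty, evc_zero]
  | insert i t hi ih =>
    rw [Finset.sum_insert hi, Finset.sum_insert hi,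
      evc_add (h i (Finset.mem_insert_self i t)) (gr_sum t S B ((norm_nonneg z).trans hz)
        fun j hj => h j (Finset.mem_insert_of_mem hj)) hz s,
      ih fun j hj => h j (Finset.mem_insert_of_mem hj)]

end Pool.Agent.LGO.RU
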