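import Mathlib
import Pool.Agent.LGO.RU.GrC

/-!
# LGO/RU: the value of the function `vE` and the array `Gar` of its expansion

`map_vE`: automorphisms and embeddings.  `vE_gar_p`, `vE_gar_c`: `t ^ (e J + h e) vE = ∑ Gar k k' (t) y ^ k y' ^ k'` if `t ^ e ξ = 1` and `t ^ h η = W(t)`.
`gar_gr`: growth of `Gar`.
-/

namespace Pool.Agent.LGO.RU

open PowerSeries Pool.Agent.Hhelper14.ZP Pool.Agent.LGO Pool.Agent.LGO.PA

theorem map_vE {F F' : Type} [Field F] [Field F'] (g : F →+* F') (f : OO →+* F)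
    (c : ℕ → ℕ → ℕ → ℕ → OO) (e J R : ℕ) (ξ η y y' : F) :
    g (vE f c e J R ξ η y y') = vE (g.comp f) c e J R (g ξ) (g η) (g y) (g y') := by
  unfold vE
  rw [map_sum]
  refine Finset.sum_congr rfl fun i _ => ?_
  rw [map_sum]
  refine Finset.sum_congr rfl fun j _ => ?_
  rw [map_sum]
  refine Finset.sum_congr rfl fun k _ => ?_
  rw [map_sum]
  refine Finset.sum_congr rfl fun k' _ => ?_
  simp only [map_mul, map_pow, RingHom.comp_apply]

theorem vE_id {F : Type} [Field F] (f : OO →+* F) (c : ℕ → ℕ → ℕ → ℕ → OO) (e h J R : ℕ)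
    (ξ η y y' t w : F) (h1 : t ^ e * ξ = 1) (h2 : t ^ h * η = w) :
    t ^ (e * J + h * e) * vE f c e J R ξ η y y' =
      ∑ k ∈ Finset.range R, ∑ k' ∈ Finset.range R,
        (∑ i ∈ Finset.range e, ∑ j ∈ Finset.range J,
          f (c i j k k') * w ^ i * t ^ (e * (J - j) + h * (e - i))) * y ^ k * y' ^ k' := by
  unfold vE
  have e1 : ∑ i ∈ Finset.range e, ∑ j ∈ Finset.range J, ∑ k ∈ Finset.range R,
      ∑ k' ∈ Finset.range R, f (c i j k k') * η ^ i * ξ ^ j * y ^ k * y' ^ k' =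
      ∑ k ∈ Finset.range R, ∑ k' ∈ Finset.range R, ∑ i ∈ Finset.range e, ∑ j ∈ Finset.range J,
        f (c i j k k') * η ^ i * ξ ^ j * y ^ k * y' ^ k' := by
    have e2 : ∀ i, ∑ j ∈ Finset.range J, ∑ k ∈ Finset.range R,
        ∑ k' ∈ Finset.range R, f (c i j k k') * η ^ i * ξ ^ j * y ^ k * y' ^ k' =
        ∑ k ∈ Finset.range R, ∑ k' ∈ Finset.range R, ∑ j ∈ Finset.range J,
          f (c i j k k') * η ^ i * ξ ^ j * y ^ k * y' ^ k' := by
      intro i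
      rw [Finset.sum_comm]
      refine Finset.sum_congr rfl fun k _ => ?_
      rw [Finset.sum_comm]
    simp only [e2]
    rw [Finset.sum_comm]
    refine Finset.sum_congr rfl fun k _ => ?_
    rw [Finset.sum_comm]
  rw [e1, Finset.mul_sum]
  refine Finset.sum_congr rfl fun k _ => ?_
  rw [Finset.mul_sum]
  refine Finset.sum_congr rfl fun k' _ => ?_
  rw [Finset.mul_sum, Finset.sum_mul, Finset.sum_mul]
  refine Finset.sum_congr rfl fun i hi => ?_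
  rw [Finset.mul_sum, Finset.sum_mul, Finset.sum_mul]
  refine Finset.sum_congr rfl fun j hj => ?_
  have hi' : i ≤ e := (Finset.mem_range.1 hi).le
  have hj' : j ≤ J := (Finset.mem_range.1 hj).le
  have e3 : t ^ (e * J + h * e) * η ^ i * ξ ^ j = w ^ i * t ^ (e * (J - j) + h * (e - i)) := by
    have e4 : e * J + h * e = (e * (J - j) + h * (e - i)) + (e * j + h * i) := by
      have a1 : e * J = e * (J - j) + e * j := by rw [← mul_add, Nat.sub_add_cancel hj']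
      have a2 : h * e = h * (e - i) + h * i := by rw [← mul_add, Nat.sub_add_cancel hi']
      omega
    rw [e4, pow_add, pow_add t (e * j), pow_mul t e j, pow_mul t h i]
    calc t ^ (e * (J - j) + h * (e - i)) * ((t ^ e) ^ j * (t ^ h) ^ i) * η ^ i * ξ ^ j
        = t ^ (e * (J - j) + h * (e - i)) * (t ^ e * ξ) ^ j * (t ^ h * η) ^ i := by ring
      _ = w ^ i * t ^ (e * (J - j) + h * (e - i)) := by rw [h1, h2, one_pow]; ring
  calc t ^ (e * J + h * e) * (f (c i j k k') * η ^ i * ξ ^ j * y ^ k * y' ^ k')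
      = f (c i j k k') * (t ^ (e * J + h * e) * η ^ i * ξ ^ j) * y ^ k * y' ^ k' := by ring
    _ = _ := by rw [e3]; ring

/-- the `p`-adic identity -/
theorem vE_gar_p {p : ℕ} [Fact p.Prime] (φ : ℂ →+* ℂ_[p]) (hφ : ∀ r, ‖sO φ r‖ ≤ 1)
    (W : Ser) (c : ℕ → ℕ → ℕ → ℕ → OO) (e h J R : ℕ) {ξ η t : ℂ_[p]} (y y' : ℂ_[p]) (ht : ‖t‖ < 1)
    (h1 : t ^ e * ξ = 1) (h2 : t ^ h * η = ev (sO φ) W t) :
    t ^ (e * J + h * e) * vE (sO φ) c e J R ξ η y y' =
      ∑ k ∈ Finset.range R, ∑ k' ∈ Finset.range R,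
        ev (sO φ) (Gar e h J W c k k') t * y ^ k * y' ^ k' := by
  rw [vE_id (sO φ) c e h J R ξ η y y' t _ h1 h2]
  refine Finset.sum_congr rfl fun k _ => Finset.sum_congr rfl fun k' _ => ?_
  congr 2
  unfold Gar
  rw [ev_sum hφ ht]
  refine Finset.sum_congr rfl fun i _ => ?_
  rw [ev_sum hφ ht]
  refine Finset.sum_congr rfl fun j _ => ?_
  rw [ev_mul hφ ht, ev_mul hφ ht, ev_C, ev_pow hφ ht, ev_pow hφ ht, ev_X]

/-- growth of `Gar` -/
theorem gar_gr {W : Ser} {c : ℕ → ℕ → ℕ → ℕ → OO} {r C₀ B₀ : ℝ} (hr : 0 ≤ r) (hr1 : r ≤ 1)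
    (hC : 1 ≤ C₀) (hB : 0 ≤ B₀) (hW : Gr r C₀ W) (e h J k k' : ℕ)
    (hc : ∀ i j (s : ℂ ≃+* ℂ), ‖s ((c i j k k' : OO) : ℂ)‖ ≤ B₀) :
    Gr r (e * J * (B₀ * C₀ ^ e)) (Gar e h J W c k k') := by
  unfold Gar
  have h1 : ∀ i ∈ Finset.range e, ∀ j ∈ Finset.range J, Gr r (B₀ * C₀ ^ e)
      (C (c i j k k') * W ^ i * X ^ (e * (J - j) + h * (e - i))) := by
    intro i hi j _
    have g1 := gr_mul (gr_mul (gr_C (r := r) hB (fun s => hc i j s)) (gr_pow hW hr i) hr)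
      (gr_Xpow hr (e * (J - j) + h * (e - i))) hr
    refine gr_mono g1 ?_
    have a1 : C₀ ^ i ≤ C₀ ^ e := pow_le_pow_right₀ hC (Finset.mem_range.1 hi).le
    have a2 : r ^ (e * (J - j) + h * (e - i)) ≤ 1 := pow_le_one₀ hr hr1
    have a3 : 0 ≤ C₀ ^ i := pow_nonneg (zero_le_one.trans hC) _
    calc B₀ * C₀ ^ i * r ^ (e * (J - j) + h * (e - i)) ≤ B₀ * C₀ ^ i * 1 :=
          mul_le_mul_of_nonneg_left a2 (mul_nonneg hB a3)
      _ = B₀ * C₀ ^ i := mul_one _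
      _ ≤ B₀ * C₀ ^ e := mul_le_mul_of_nonneg_left a1 hB
  have h2 : ∀ i ∈ Finset.range e, Gr r (J * (B₀ * C₀ ^ e))
      (∑ j ∈ Finset.range J, C (c i j k k') * W ^ i * X ^ (e * (J - j) + h * (e - i))) := by
    intro i hi
    have := gr_sum (Finset.range J) _ (fun _ => B₀ * C₀ ^ e) hr (h1 i hi)
    simpa using this
  have h3 := gr_sum (Finset.range e) _ (fun _ => (J : ℝ) * (B₀ * C₀ ^ e)) hr h2
  refine gr_mono h3 (le_of_eq ?_)
  rw [Finset.sum_const, Finset.card_range, nsmul_eq_mul, mul_assoc]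

/-- the complex identity -/
theorem vE_gar_c (s : ℂ ≃+* ℂ) {W : Ser} {r C₀ B₀ : ℝ} (hB : 0 ≤ B₀) (hW : Gr r C₀ W)
    (c : ℕ → ℕ → ℕ → ℕ → OO) (hc : ∀ i j k k' (s : ℂ ≃+* ℂ), ‖s ((c i j k k' : OO) : ℂ)‖ ≤ B₀)
    (e h J R : ℕ) {ξ η t : ℂ} (y y' : ℂ) (ht : ‖t‖ ≤ r)
    (h1 : t ^ e * ξ = 1) (h2 : t ^ h * η = evc s W t) :
    t ^ (e * J + h * e) * vE (sC s) c e J R ξ η y y' =
      ∑ k ∈ Finset.range R, ∑ k' ∈ Finset.range R,
        evc s (Gar e h J W c k k') t * y ^ k * y' ^ k' := by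
  have hr : 0 ≤ r := (norm_nonneg t).trans ht
  rw [vE_id (sC s) c e h J R ξ η y y' t _ h1 h2]
  refine Finset.sum_congr rfl fun k _ => Finset.sum_congr rfl fun k' _ => ?_
  congr 2
  unfold Gar
  have g1 : ∀ i j, Gr r (B₀ * C₀ ^ i) (C (c i j k k') * W ^ i) := fun i j =>
    gr_mul (gr_C (r := r) hB (fun s => hc i j k k' s)) (gr_pow hW hr i) hr
  have g2 : ∀ i j, Gr r (B₀ * C₀ ^ i * r ^ (e * (J - j) + h * (e - i)))
      (C (c i j k k') * W ^ i * X ^ (e * (J - j) + h * (e - i))) := fun i j =>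
    gr_mul (g1 i j) (gr_Xpow hr _) hr
  have g3 : ∀ i, Gr r (∑ j ∈ Finset.range J, B₀ * C₀ ^ i * r ^ (e * (J - j) + h * (e - i)))
      (∑ j ∈ Finset.range J, C (c i j k k') * W ^ i * X ^ (e * (J - j) + h * (e - i))) := fun i =>
    gr_sum (Finset.range J) _ _ hr fun j _ => g2 i j
  rw [evc_sum (Finset.range e) _ _ (fun i _ => g3 i) ht s]
  refine Finset.sum_congr rfl fun i _ => ?_
  rw [evc_sum (Finset.range J) _ _ (fun j _ => g2 i j) ht s]
  refine Finset.sum_congr rfl fun j _ => ?_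
  rw [evc_mul (g1 i j) (gr_Xpow hr _) ht s,
    evc_mul (gr_C (r := r) hB (fun s => hc i j k k' s)) (gr_pow hW hr i) ht s, evc_C,
    evc_pow hW ht s, evc_Xpow, sC_apply]

end Pool.Agent.LGO.RU
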