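import Mathlib
import Pool.Agent.LGO.RU.BndM

/-!
# LGO/RU: the bound for the value of the auxiliary function at the complex places
-/

namespace Pool.Agent.LGO.RU

open PowerSeries Pool.Agent.Hhelper14.ZP Pool.Agent.LGO Pool.Agent.LGO.PA

/-- lower bound for the root `A` -/
theorem root_lower_c {A q : ℂ} {a d L m : ℕ} {ν τ : ℝ} (hν : 0 ≤ ν) (hτ : 0 ≤ τ) (hL : 0 < L)
    (had : a * d = L) (hA : A ^ d = q ^ a) (hq : ν * τ ^ m ≤ ‖q‖) (hq1 : ‖q‖ ≤ 1)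
    (hA1 : ‖A‖ ≤ 1) : ν ^ L * τ ^ (m * L) ≤ ‖A‖ := by
  have hd : d ≠ 0 := by
    rintro rfl
    simp at had
    omega
  have ha : a ≤ L := by
    rw [← had]
    exact Nat.le_mul_of_pos_right a (Nat.pos_of_ne_zero hd)
  calc ν ^ L * τ ^ (m * L) = (ν * τ ^ m) ^ L := by rw [mul_pow, ← pow_mul]
    _ ≤ ‖q‖ ^ L := pow_le_pow_left₀ (mul_nonneg hν (pow_nonneg hτ m)) hq L
    _ ≤ ‖q‖ ^ a := pow_le_pow_of_le_one (norm_nonneg q) hq1 ha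
    _ = ‖A‖ ^ d := by rw [← norm_pow, ← hA, norm_pow]
    _ ≤ ‖A‖ := pow_le_of_le_one (norm_nonneg A) hA1 hd

/-- the estimate near the pole -/
theorem near_c_core {t ξ F S Δ Δ' : ℂ} {e T₁ m l L R : ℕ} {K ρ δ ν : ℝ} (hδ : 0 ≤ δ) (hν : 0 ≤ ν)
    (ht0 : 0 < ‖t‖) (hξ : t ^ e * ξ = 1) (hF : t ^ T₁ * F = S)
    (h5 : ‖S‖ * (‖Δ‖ * ‖Δ'‖) ^ R ≤ K * (‖t‖ / ρ) ^ (T₁ + (m + l) * L * R + e))
    (hA : δ * (ν ^ L * ‖t‖ ^ (m * L)) ≤ ‖Δ‖) (hB : δ * (ν ^ L * ‖t‖ ^ (l * L)) ≤ ‖Δ'‖) :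
    δ ^ (2 * R) * ν ^ (2 * L * R) * (‖F‖ * ‖ξ‖) ≤
      K * (1 / ρ) ^ (T₁ + (m + l) * L * R + e) := by
  have e1 : ‖t‖ ^ e * ‖ξ‖ = 1 := by rw [← norm_pow, ← norm_mul, hξ, norm_one]
  rw [← hF, norm_mul, norm_pow] at h5
  have h6 : δ ^ (2 * R) * ν ^ (2 * L * R) * ‖t‖ ^ ((m + l) * L * R) ≤ (‖Δ‖ * ‖Δ'‖) ^ R := by
    have h7 : (δ * (ν ^ L * ‖t‖ ^ (m * L))) * (δ * (ν ^ L * ‖t‖ ^ (l * L))) ≤ ‖Δ‖ * ‖Δ'‖ :=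
      mul_le_mul hA hB (by positivity) (norm_nonneg _)
    calc δ ^ (2 * R) * ν ^ (2 * L * R) * ‖t‖ ^ ((m + l) * L * R)
        = ((δ * (ν ^ L * ‖t‖ ^ (m * L))) * (δ * (ν ^ L * ‖t‖ ^ (l * L)))) ^ R := by
          rw [show (δ * (ν ^ L * ‖t‖ ^ (m * L))) * (δ * (ν ^ L * ‖t‖ ^ (l * L))) =
            δ ^ 2 * ν ^ (2 * L) * ‖t‖ ^ ((m + l) * L) by ring]
          rw [mul_pow, mul_pow, ← pow_mul, ← pow_mul, ← pow_mul]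
      _ ≤ (‖Δ‖ * ‖Δ'‖) ^ R := pow_le_pow_left₀ (by positivity) h7 R
  have h8 : ‖t‖ ^ (T₁ + (m + l) * L * R) * (‖F‖ * (δ ^ (2 * R) * ν ^ (2 * L * R))) ≤
      ‖t‖ ^ (T₁ + (m + l) * L * R) * (K * (1 / ρ) ^ (T₁ + (m + l) * L * R + e) * ‖t‖ ^ e) := by
    have e2 : ‖t‖ ^ (T₁ + (m + l) * L * R) * (K * (1 / ρ) ^ (T₁ + (m + l) * L * R + e) *
        ‖t‖ ^ e) = K * (‖t‖ / ρ) ^ (T₁ + (m + l) * L * R + e) := by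
      rw [div_eq_mul_one_div ‖t‖ ρ, mul_pow, pow_add ‖t‖ (T₁ + (m + l) * L * R) e]
      ring
    rw [e2]
    refine le_trans ?_ h5
    calc ‖t‖ ^ (T₁ + (m + l) * L * R) * (‖F‖ * (δ ^ (2 * R) * ν ^ (2 * L * R)))
        = ‖t‖ ^ T₁ * ‖F‖ * (δ ^ (2 * R) * ν ^ (2 * L * R) * ‖t‖ ^ ((m + l) * L * R)) := by
          rw [pow_add]; ring
      _ ≤ ‖t‖ ^ T₁ * ‖F‖ * (‖Δ‖ * ‖Δ'‖) ^ R := mul_le_mul_of_nonneg_left h6 (by positivity)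
  have h9 := le_of_mul_le_mul_left h8 (pow_pos ht0 _)
  calc δ ^ (2 * R) * ν ^ (2 * L * R) * (‖F‖ * ‖ξ‖)
      = ‖F‖ * (δ ^ (2 * R) * ν ^ (2 * L * R)) * ‖ξ‖ := by ring
    _ ≤ K * (1 / ρ) ^ (T₁ + (m + l) * L * R + e) * ‖t‖ ^ e * ‖ξ‖ :=
        mul_le_mul_of_nonneg_right h9 (norm_nonneg _)
    _ = K * (1 / ρ) ^ (T₁ + (m + l) * L * R + e) := by rw [mul_assoc, e1, mul_one]

/-- the estimate far from the pole -/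
theorem far_c (s : ℂ ≃+* ℂ) (c : ℕ → ℕ → ℕ → ℕ → OO) {e J L R : ℕ} {ξ η xa xb y y' : ℂ} {Z B₀ : ℝ}
    (hc : ∀ i j k k', c i j k k' ≠ 0 → i < e ∧ 4 * L * R ≤ j ∧ j < J ∧ k < R ∧ k' < R)
    (hcb : ∀ i j k k', ‖s ((c i j k k' : OO) : ℂ)‖ ≤ B₀) (hB : 0 ≤ B₀) (hZ : 1 ≤ Z)
    (hξ : ‖ξ‖ ≤ Z) (hη : ‖η‖ ≤ Z) (ha : ‖ξ‖ * ‖xa‖ ≤ Z) (hb : ‖ξ‖ * ‖xb‖ ≤ Z)
    (hy : ‖y‖ ≤ (Z * max 1 ‖xa‖) ^ (2 * L)) (hy' : ‖y'‖ ≤ (Z * max 1 ‖xb‖) ^ (2 * L)) :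
    ‖vE (sC s) c e J R ξ η y y'‖ ≤ e * J * R * R * (B₀ * Z ^ (e + J + 8 * L * R)) := by
  have hZ0 : 0 ≤ Z := zero_le_one.trans hZ
  have ha' : ‖ξ‖ * max 1 ‖xa‖ ≤ Z := by
    rcases le_total 1 ‖xa‖ with h | h
    · rw [max_eq_right h]; exact ha
    · rw [max_eq_left h, mul_one]; exact hξ
  have hb' : ‖ξ‖ * max 1 ‖xb‖ ≤ Z := by
    rcases le_total 1 ‖xb‖ with h | h
    · rw [max_eq_right h]; exact hb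
    · rw [max_eq_left h, mul_one]; exact hξ
  have hu : 1 ≤ max 1 ‖xa‖ := le_max_left _ _
  have hv : 1 ≤ max 1 ‖xb‖ := le_max_left _ _
  have hterm : ∀ i j k k', ‖sC s (c i j k k') * η ^ i * ξ ^ j * y ^ k * y' ^ k'‖ ≤
      B₀ * Z ^ (e + J + 8 * L * R) := by
    intro i j k k'
    by_cases h0 : c i j k k' = 0
    · rw [h0, map_zero]
      simp only [zero_mul, norm_zero]
      positivity
    obtain ⟨h1, h2, h2', h3, h4⟩ := hc i j k k' h0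
    have g1 : ‖η‖ ^ i ≤ Z ^ e := (pow_le_pow_left₀ (norm_nonneg _) hη i).trans
      (pow_le_pow_right₀ hZ h1.le)
    have g2 : ‖y‖ ^ k ≤ (Z * max 1 ‖xa‖) ^ (2 * L * R) := by
      have hZu : 1 ≤ Z * max 1 ‖xa‖ := one_le_mul_of_one_le_of_one_le hZ hu
      calc ‖y‖ ^ k ≤ ((Z * max 1 ‖xa‖) ^ (2 * L)) ^ k := pow_le_pow_left₀ (norm_nonneg _) hy k
        _ = (Z * max 1 ‖xa‖) ^ (2 * L * k) := by rw [← pow_mul]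
        _ ≤ (Z * max 1 ‖xa‖) ^ (2 * L * R) :=
            pow_le_pow_right₀ hZu (Nat.mul_le_mul_left _ h3.le)
    have g3 : ‖y'‖ ^ k' ≤ (Z * max 1 ‖xb‖) ^ (2 * L * R) := by
      have hZu : 1 ≤ Z * max 1 ‖xb‖ := one_le_mul_of_one_le_of_one_le hZ hv
      calc ‖y'‖ ^ k' ≤ ((Z * max 1 ‖xb‖) ^ (2 * L)) ^ k' := pow_le_pow_left₀ (norm_nonneg _) hy' k'
        _ = (Z * max 1 ‖xb‖) ^ (2 * L * k') := by rw [← pow_mul]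
        _ ≤ (Z * max 1 ‖xb‖) ^ (2 * L * R) :=
            pow_le_pow_right₀ hZu (Nat.mul_le_mul_left _ h4.le)
    have g4 : ‖ξ‖ ^ j * (Z * max 1 ‖xa‖) ^ (2 * L * R) * (Z * max 1 ‖xb‖) ^ (2 * L * R) ≤
        Z ^ (J + 8 * L * R) := by
      have e0 : 4 * L * R = 2 * L * R + 2 * L * R := by ring
      have e1 : j = (j - 4 * L * R) + (2 * L * R + 2 * L * R) := by omega
      have e2 : ‖ξ‖ ^ j = ‖ξ‖ ^ (j - 4 * L * R) * (‖ξ‖ ^ (2 * L * R) * ‖ξ‖ ^ (2 * L * R)) := by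
        conv_lhs => rw [e1]
        rw [pow_add, pow_add]
      rw [e2]
      calc ‖ξ‖ ^ (j - 4 * L * R) * (‖ξ‖ ^ (2 * L * R) * ‖ξ‖ ^ (2 * L * R)) *
            (Z * max 1 ‖xa‖) ^ (2 * L * R) * (Z * max 1 ‖xb‖) ^ (2 * L * R)
          = ‖ξ‖ ^ (j - 4 * L * R) * (Z ^ (2 * L * R) * Z ^ (2 * L * R)) *
              ((‖ξ‖ * max 1 ‖xa‖) ^ (2 * L * R) * (‖ξ‖ * max 1 ‖xb‖) ^ (2 * L * R)) := by ring
        _ ≤ Z ^ J * (Z ^ (2 * L * R) * Z ^ (2 * L * R)) * (Z ^ (2 * L * R) * Z ^ (2 * L * R)) := by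
            gcongr
            exact (pow_le_pow_left₀ (norm_nonneg _) hξ _).trans
              (pow_le_pow_right₀ hZ (by omega))
        _ = Z ^ (J + 8 * L * R) := by ring
    rw [norm_mul, norm_mul, norm_mul, norm_mul, norm_pow, norm_pow, norm_pow, norm_pow]
    have g6 : ‖sC s (c i j k k')‖ ≤ B₀ := hcb i j k k'
    calc ‖sC s (c i j k k')‖ * ‖η‖ ^ i * ‖ξ‖ ^ j * ‖y‖ ^ k * ‖y'‖ ^ k'
        = ‖sC s (c i j k k')‖ * ‖η‖ ^ i * (‖ξ‖ ^ j * ‖y‖ ^ k * ‖y'‖ ^ k') := by ring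
      _ ≤ B₀ * Z ^ e * (‖ξ‖ ^ j * (Z * max 1 ‖xa‖) ^ (2 * L * R) *
            (Z * max 1 ‖xb‖) ^ (2 * L * R)) := by gcongr
      _ ≤ B₀ * Z ^ e * Z ^ (J + 8 * L * R) := mul_le_mul_of_nonneg_left g4 (by positivity)
      _ = B₀ * Z ^ (e + J + 8 * L * R) := by rw [add_assoc e, pow_add Z e]; ring
  unfold vE
  have hs : ∀ (n : ℕ) (f : ℕ → ℂ) (b : ℝ), (∀ i, ‖f i‖ ≤ b) → ‖∑ i ∈ Finset.range n, f i‖ ≤ n * b := by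
    intro n f b h
    calc ‖∑ i ∈ Finset.range n, f i‖ ≤ ∑ i ∈ Finset.range n, ‖f i‖ := norm_sum_le _ _
      _ ≤ ∑ _i ∈ Finset.range n, b := Finset.sum_le_sum fun i _ => h i
      _ = n * b := by rw [Finset.sum_const, Finset.card_range, nsmul_eq_mul]
  have e3 : (e : ℝ) * J * R * R * (B₀ * Z ^ (e + J + 8 * L * R)) =
      e * (J * (R * (R * (B₀ * Z ^ (e + J + 8 * L * R))))) := by ring
  rw [e3]
  exact hs e _ _ fun i => hs J _ _ fun j => hs R _ _ fun k => hs R _ _ fun k' => hterm i j k k'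

end Pool.Agent.LGO.RU
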