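import Mathlib
import Pool.Agent.LGO.RU.BndM
import Pool.Agent.LGO.PA.Crit

/-!
# LGO/RU: the bound for the value of the auxiliary function at the `p`-adic places
-/

namespace Pool.Agent.LGO.RU

open PowerSeries Pool.Agent.Hhelper14.ZP Pool.Agent.LGO Pool.Agent.LGO.PA

variable {p : ℕ} [Fact p.Prime]

/-- lower bound for the root `A` -/
theorem root_lower {A q : ℂ_[p]} {a d L m : ℕ} {ν τ : ℝ} (hν : 0 ≤ ν) (hτ : 0 ≤ τ) (hL : 0 < L)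
    (had : a * d = L) (hA : A ^ d = q ^ a) (hq : ν * τ ^ m ≤ ‖q‖) (hq1 : ‖q‖ < 1)
    (hA1 : ‖A‖ < 1) : ν ^ L * τ ^ (m * L) ≤ ‖A‖ := by
  have hd : d ≠ 0 := by
    rintro rfl
    simp at had
    omega
  have ha : a ≤ L := by
    rw [← had]
    exact Nat.le_mul_of_pos_right a (Nat.pos_of_ne_zero hd)
  calc ν ^ L * τ ^ (m * L) = (ν * τ ^ m) ^ L := by rw [mul_pow, ← pow_mul]
    _ ≤ ‖q‖ ^ L := pow_le_pow_left₀ (mul_nonneg hν (pow_nonneg hτ m)) hq L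
    _ ≤ ‖q‖ ^ a := pow_le_pow_of_le_one (norm_nonneg q) hq1.le ha
    _ = ‖A‖ ^ d := by rw [← norm_pow, ← hA, norm_pow]
    _ ≤ ‖A‖ := pow_le_of_le_one (norm_nonneg A) hA1.le hd

/-- the estimate near the pole -/
theorem near_p_core {t ξ F A B S : ℂ_[p]} {e T₁ m l L R : ℕ} {ν : ℝ} (hν : 0 ≤ ν)
    (ht0 : 0 < ‖t‖) (hξ : t ^ e * ξ = 1) (hF : t ^ T₁ * F = S)
    (h5 : ‖S‖ * (‖A‖ * ‖B‖) ^ R ≤ ‖t‖ ^ (T₁ + (m + l) * L * R + e))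
    (hA : ν ^ L * ‖t‖ ^ (m * L) ≤ ‖A‖) (hB : ν ^ L * ‖t‖ ^ (l * L) ≤ ‖B‖) :
    ν ^ (2 * L * R) * (‖F‖ * ‖ξ‖) ≤ 1 := by
  have e1 : ‖t‖ ^ e * ‖ξ‖ = 1 := by rw [← norm_pow, ← norm_mul, hξ, norm_one]
  rw [← hF, norm_mul, norm_pow] at h5
  have h6 : ν ^ (2 * L * R) * ‖t‖ ^ ((m + l) * L * R) ≤ (‖A‖ * ‖B‖) ^ R := by
    have h7 : (ν ^ L * ‖t‖ ^ (m * L)) * (ν ^ L * ‖t‖ ^ (l * L)) ≤ ‖A‖ * ‖B‖ :=
      mul_le_mul hA hB (by positivity) (norm_nonneg _)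
    calc ν ^ (2 * L * R) * ‖t‖ ^ ((m + l) * L * R)
        = ((ν ^ L * ‖t‖ ^ (m * L)) * (ν ^ L * ‖t‖ ^ (l * L))) ^ R := by
          rw [mul_mul_mul_comm, ← pow_add, ← pow_add, mul_pow, ← pow_mul, ← pow_mul]
          congr 2 <;> ring
      _ ≤ (‖A‖ * ‖B‖) ^ R := pow_le_pow_left₀ (by positivity) h7 R
  have h8 : ‖t‖ ^ (T₁ + (m + l) * L * R) * (‖F‖ * ν ^ (2 * L * R)) ≤
      ‖t‖ ^ (T₁ + (m + l) * L * R) * ‖t‖ ^ e := by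
    rw [← pow_add]
    refine le_trans ?_ h5
    calc ‖t‖ ^ (T₁ + (m + l) * L * R) * (‖F‖ * ν ^ (2 * L * R))
        = ‖t‖ ^ T₁ * ‖F‖ * (ν ^ (2 * L * R) * ‖t‖ ^ ((m + l) * L * R)) := by
          rw [pow_add]; ring
      _ ≤ ‖t‖ ^ T₁ * ‖F‖ * (‖A‖ * ‖B‖) ^ R := mul_le_mul_of_nonneg_left h6 (by positivity)
  have h9 : ‖F‖ * ν ^ (2 * L * R) ≤ ‖t‖ ^ e := le_of_mul_le_mul_left h8 (pow_pos ht0 _)
  calc ν ^ (2 * L * R) * (‖F‖ * ‖ξ‖) = ‖F‖ * ν ^ (2 * L * R) * ‖ξ‖ := by ring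
    _ ≤ ‖t‖ ^ e * ‖ξ‖ := mul_le_mul_of_nonneg_right h9 (norm_nonneg _)
    _ = 1 := e1

/-- the estimate far from the pole -/
theorem far_p (φ : ℂ →+* ℂ_[p]) (c : ℕ → ℕ → ℕ → ℕ → OO) {e J L R : ℕ} {ξ η xa xb y y' ν : ℂ_[p]}
    (hc : ∀ i j k k', c i j k k' ≠ 0 → i < e ∧ 4 * L * R ≤ j ∧ j < J ∧ k < R ∧ k' < R)
    (hν : ‖ν‖ ≤ 1) (hξ : ‖ξ‖ ≤ 1) (hη : ‖ν‖ * ‖η‖ ≤ 1) (ha : ‖ν‖ * (‖ξ‖ * ‖xa‖) ≤ 1)
    (hb : ‖ν‖ * (‖ξ‖ * ‖xb‖) ≤ 1) (hy : ‖y‖ ≤ max 1 ‖xa‖ ^ L) (hy' : ‖y'‖ ≤ max 1 ‖xb‖ ^ L) :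
    ‖ν‖ ^ (e + 2 * L * R) * ‖vE (sO φ) c e J R ξ η y y'‖ ≤ 1 := by
  have hνξ : ‖ν‖ * ‖ξ‖ ≤ 1 := mul_le_one₀ hν (norm_nonneg _) hξ
  have ha' : ‖ν‖ * ‖ξ‖ * max 1 ‖xa‖ ≤ 1 := by
    rcases le_total 1 ‖xa‖ with h | h
    · rw [max_eq_right h, mul_assoc]; exact ha
    · rw [max_eq_left h, mul_one]; exact hνξ
  have hb' : ‖ν‖ * ‖ξ‖ * max 1 ‖xb‖ ≤ 1 := by
    rcases le_total 1 ‖xb‖ with h | h
    · rw [max_eq_right h, mul_assoc]; exact hb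
    · rw [max_eq_left h, mul_one]; exact hνξ
  have hu : 1 ≤ max 1 ‖xa‖ := le_max_left _ _
  have hv : 1 ≤ max 1 ‖xb‖ := le_max_left _ _
  have hterm : ∀ i j k k', ‖ν ^ (e + 2 * L * R) * (sO φ (c i j k k') * η ^ i * ξ ^ j * y ^ k *
      y' ^ k')‖ ≤ 1 := by
    intro i j k k'
    by_cases h0 : c i j k k' = 0
    · rw [h0, map_zero]
      simp
    obtain ⟨h1, h2, -, h3, h4⟩ := hc i j k k' h0
    have g1 : ‖ν‖ ^ e * ‖η‖ ^ i ≤ 1 := by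
      calc ‖ν‖ ^ e * ‖η‖ ^ i ≤ ‖ν‖ ^ i * ‖η‖ ^ i :=
            mul_le_mul_of_nonneg_right (pow_le_pow_of_le_one (norm_nonneg _) hν h1.le)
              (pow_nonneg (norm_nonneg _) _)
        _ = (‖ν‖ * ‖η‖) ^ i := by rw [mul_pow]
        _ ≤ 1 := pow_le_one₀ (by positivity) hη
    have g2 : ‖y‖ ^ k ≤ max 1 ‖xa‖ ^ (L * R) := by
      calc ‖y‖ ^ k ≤ (max 1 ‖xa‖ ^ L) ^ k := pow_le_pow_left₀ (norm_nonneg _) hy k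
        _ = max 1 ‖xa‖ ^ (L * k) := by rw [← pow_mul]
        _ ≤ max 1 ‖xa‖ ^ (L * R) := pow_le_pow_right₀ hu (Nat.mul_le_mul_left L h3.le)
    have g3 : ‖y'‖ ^ k' ≤ max 1 ‖xb‖ ^ (L * R) := by
      calc ‖y'‖ ^ k' ≤ (max 1 ‖xb‖ ^ L) ^ k' := pow_le_pow_left₀ (norm_nonneg _) hy' k'
        _ = max 1 ‖xb‖ ^ (L * k') := by rw [← pow_mul]
        _ ≤ max 1 ‖xb‖ ^ (L * R) := pow_le_pow_right₀ hv (Nat.mul_le_mul_left L h4.le)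
    have g4 : ‖ξ‖ ^ j ≤ ‖ξ‖ ^ (2 * L * R) := by
      refine pow_le_pow_of_le_one (norm_nonneg _) hξ (le_trans ?_ h2)
      nlinarith [Nat.zero_le (L * R)]
    have g5 : ‖ν‖ ^ (2 * L * R) * (‖ξ‖ ^ (2 * L * R) * max 1 ‖xa‖ ^ (L * R) *
        max 1 ‖xb‖ ^ (L * R)) ≤ 1 := by
      have e1 : ‖ν‖ ^ (2 * L * R) * (‖ξ‖ ^ (2 * L * R) * max 1 ‖xa‖ ^ (L * R) *
          max 1 ‖xb‖ ^ (L * R)) = (‖ν‖ * ‖ξ‖ * max 1 ‖xa‖) ^ (L * R) *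
            (‖ν‖ * ‖ξ‖ * max 1 ‖xb‖) ^ (L * R) := by
        rw [show 2 * L * R = L * R + L * R by ring, pow_add, pow_add]
        ring
      rw [e1]
      exact mul_le_one₀ (pow_le_one₀ (by positivity) ha') (by positivity)
        (pow_le_one₀ (by positivity) hb')
    have g6 : ‖sO φ (c i j k k')‖ ≤ 1 := sO_norm_le φ _
    rw [norm_mul, norm_mul, norm_mul, norm_mul, norm_mul, norm_pow, norm_pow, norm_pow, norm_pow,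
      norm_pow, pow_add]
    calc ‖ν‖ ^ e * ‖ν‖ ^ (2 * L * R) * (‖sO φ (c i j k k')‖ * ‖η‖ ^ i * ‖ξ‖ ^ j * ‖y‖ ^ k *
          ‖y'‖ ^ k') = ‖sO φ (c i j k k')‖ * (‖ν‖ ^ e * ‖η‖ ^ i) * (‖ν‖ ^ (2 * L * R) *
            (‖ξ‖ ^ j * ‖y‖ ^ k * ‖y'‖ ^ k')) := by ring
      _ ≤ 1 * 1 * (‖ν‖ ^ (2 * L * R) * (‖ξ‖ ^ (2 * L * R) * max 1 ‖xa‖ ^ (L * R) *
            max 1 ‖xb‖ ^ (L * R))) := by gcongr
      _ ≤ 1 := by rw [one_mul, one_mul]; exact g5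
  have e2 : ‖ν‖ ^ (e + 2 * L * R) * ‖vE (sO φ) c e J R ξ η y y'‖ =
      ‖ν ^ (e + 2 * L * R) * vE (sO φ) c e J R ξ η y y'‖ := by rw [norm_mul, norm_pow]
  rw [e2]
  unfold vE
  rw [Finset.mul_sum]
  refine IsUltrametricDist.norm_sum_le_of_forall_le_of_nonneg zero_le_one fun i _ => ?_
  rw [Finset.mul_sum]
  refine IsUltrametricDist.norm_sum_le_of_forall_le_of_nonneg zero_le_one fun j _ => ?_
  rw [Finset.mul_sum]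
  refine IsUltrametricDist.norm_sum_le_of_forall_le_of_nonneg zero_le_one fun k _ => ?_
  rw [Finset.mul_sum]
  refine IsUltrametricDist.norm_sum_le_of_forall_le_of_nonneg zero_le_one fun k' _ => ?_
  exact hterm i j k k'

end Pool.Agent.LGO.RU
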