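import Mathlib

/-!
# LGO/RU: lower bound for the discriminant in `Im τ ≥ 1 / L`

`Δ = q ∏ (1 - q ^ (n + 1)) ^ 24`, `r = ‖q‖ ≤ exp (-2 π / L)`, `‖1 - q ^ (n + 1)‖ ≥ 1 - r ^ (n + 1) ≥ exp (-r ^ (n + 1) / (1 - r))`, the sum of the `r ^ (n + 1)` is
`r / (1 - r)`, and `r / (1 - r) ^ 2 ≤ 1 / x ^ 2 + 1 / x ≤ L ^ 2` for `r = exp (-x)`, `x ≥ 6 / L`.
-/

namespace Pool.Agent.LGO.RU

open UpperHalfPlane ModularForm

private theorem DelL_factor {q : ℂ} {r : ℝ} (hq : ‖q‖ = r) (h1 : r < 1) (n : ℕ) :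
    Real.exp (-(r ^ (n + 1) / (1 - r))) ≤ ‖1 - q ^ (n + 1)‖ := by
  have h0 : 0 ≤ r := hq ▸ norm_nonneg q
  have hx : r ^ (n + 1) ≤ r := by
    calc r ^ (n + 1) ≤ r ^ 1 := pow_le_pow_of_le_one h0 h1.le (by omega)
      _ = r := pow_one r
  have hx0 : 0 ≤ r ^ (n + 1) := pow_nonneg h0 _
  have h2 : 0 < 1 - r ^ (n + 1) := by linarith
  have h3 : 0 < 1 - r := by linarith
  have h4 : 1 - (1 - r ^ (n + 1))⁻¹ ≤ Real.log (1 - r ^ (n + 1)) := Real.one_sub_inv_le_log_of_pos h2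
  have h5 : -(r ^ (n + 1) / (1 - r)) ≤ 1 - (1 - r ^ (n + 1))⁻¹ := by
    have h6 : 1 - (1 - r ^ (n + 1))⁻¹ = -(r ^ (n + 1) / (1 - r ^ (n + 1))) := by
      field_simp
      ring
    rw [h6, neg_le_neg_iff]
    exact div_le_div_of_nonneg_left hx0 h3 (by linarith)
  calc Real.exp (-(r ^ (n + 1) / (1 - r))) ≤ Real.exp (Real.log (1 - r ^ (n + 1))) :=
        Real.exp_le_exp.mpr (h5.trans h4)
    _ = 1 - r ^ (n + 1) := Real.exp_log h2
    _ = ‖(1 : ℂ)‖ - ‖q ^ (n + 1)‖ := by rw [norm_one, norm_pow, hq]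
    _ ≤ ‖1 - q ^ (n + 1)‖ := norm_sub_norm_le _ _

private theorem DelL_prod {q : ℂ} {r : ℝ} (hq : ‖q‖ = r) (h1 : r < 1) (k : ℕ) :
    Real.exp (-(r / (1 - r) ^ 2)) ≤ ‖∏ n ∈ Finset.range k, (1 - q ^ (n + 1))‖ := by
  have h0 : 0 ≤ r := hq ▸ norm_nonneg q
  have h3 : 0 < 1 - r := by linarith
  rw [norm_prod]
  have h4 : ∏ n ∈ Finset.range k, Real.exp (-(r ^ (n + 1) / (1 - r))) ≤
      ∏ n ∈ Finset.range k, ‖1 - q ^ (n + 1)‖ :=
    Finset.prod_le_prod (fun _ _ => (Real.exp_pos _).le) fun n _ => DelL_factor hq h1 n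
  refine le_trans ?_ h4
  rw [← Real.exp_sum, Real.exp_le_exp, Finset.sum_neg_distrib, neg_le_neg_iff, ← Finset.sum_div]
  have h5 : ∑ n ∈ Finset.range k, r ^ (n + 1) ≤ r / (1 - r) := by
    have h6 : ∑ n ∈ Finset.range k, r ^ (n + 1) = r * ∑ n ∈ Finset.range k, r ^ n := by
      rw [Finset.mul_sum]
      exact Finset.sum_congr rfl fun n _ => pow_succ' r n
    rw [h6, div_eq_mul_inv]
    refine mul_le_mul_of_nonneg_left ?_ h0
    have h7 := (summable_geometric_of_lt_one h0 h1).sum_le_tsum (Finset.range k)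
      (fun n _ => pow_nonneg h0 n)
    rwa [tsum_geometric_of_lt_one h0 h1] at h7
  calc (∑ n ∈ Finset.range k, r ^ (n + 1)) / (1 - r) ≤ (r / (1 - r)) / (1 - r) :=
        div_le_div_of_nonneg_right h5 h3.le
    _ = r / (1 - r) ^ 2 := by rw [div_div, sq]

private theorem DelL_tprod {q : ℂ} {r : ℝ} (hq : ‖q‖ = r) (h1 : r < 1) :
    Real.exp (-(r / (1 - r) ^ 2)) ≤ ‖∏' n : ℕ, (1 - q ^ (n + 1))‖ := by
  have hm := (multipliable_one_sub_pow (q := q) (by rw [hq]; exact h1)).hasProd.tendsto_prod_nat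
  exact le_of_tendsto_of_tendsto' tendsto_const_nhds hm.norm fun k => DelL_prod hq h1 k

private theorem DelL_real {x L : ℝ} (hL : 1 ≤ L) (hx : 6 ≤ L * x) :
    Real.exp (-x) < 1 ∧ Real.exp (-x) / (1 - Real.exp (-x)) ^ 2 ≤ L ^ 2 := by
  have hx0 : 0 < x := by
    by_contra h
    have : L * x ≤ 0 := mul_nonpos_of_nonneg_of_nonpos (by linarith) (by linarith)
    linarith
  have h1 : Real.exp (-x) < 1 := by
    rw [Real.exp_lt_one_iff]
    linarith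
  refine ⟨h1, ?_⟩
  have h2 : 1 + x ≤ Real.exp x := by linarith [Real.add_one_le_exp x]
  have h3 : Real.exp (-x) ≤ 1 / (1 + x) := by
    rw [Real.exp_neg, one_div]
    exact inv_anti₀ (by linarith) h2
  have h4 : x / (1 + x) ≤ 1 - Real.exp (-x) := by
    have : x / (1 + x) = 1 - 1 / (1 + x) := by
      field_simp
      ring
    linarith
  have h5 : 0 < x / (1 + x) := div_pos hx0 (by linarith)
  have h6 : Real.exp (-x) / (1 - Real.exp (-x)) ^ 2 ≤ (1 / (1 + x)) / (x / (1 + x)) ^ 2 :=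
    div_le_div₀ (by positivity) h3 (by positivity) (pow_le_pow_left₀ h5.le h4 2)
  refine h6.trans ?_
  have h7 : (1 / (1 + x)) / (x / (1 + x)) ^ 2 = 1 / x ^ 2 + 1 / x := by
    field_simp
  rw [h7]
  have h8 : 1 / x ≤ L / 6 := by
    rw [div_le_div_iff₀ hx0 (by norm_num)]
    linarith
  have h9 : 1 / x ^ 2 ≤ (L / 6) ^ 2 := by
    calc 1 / x ^ 2 = (1 / x) ^ 2 := by rw [one_div_pow]
      _ ≤ (L / 6) ^ 2 := pow_le_pow_left₀ (by positivity) h8 2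
  nlinarith

/-- lower bound for the discriminant: `‖Δ(τ)‖ ≥ exp (-24 L ^ 2) ‖q‖` if `Im τ ≥ 1 / L` -/
theorem delta_lower' (L : ℕ) (τ : ℍ) (hL : 0 < L) (h : 1 ≤ (L : ℝ) * τ.im) :
    Real.exp (-(24 * (L : ℝ) ^ 2)) * ‖Complex.exp (2 * Real.pi * Complex.I * τ)‖ ≤
      ‖ModularForm.discriminant τ‖ := by
  have hL1 : (1 : ℝ) ≤ L := by exact_mod_cast hL
  have hn : ‖Complex.exp (2 * Real.pi * Complex.I * τ)‖ = Real.exp (-(2 * Real.pi * τ.im)) := by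
    rw [Complex.norm_exp]
    congr 1
    simp [Complex.mul_re, Complex.mul_im]
  have hx : 6 ≤ (L : ℝ) * (2 * Real.pi * τ.im) := by
    have h1 := Real.pi_gt_three
    nlinarith
  obtain ⟨h1, h2⟩ := DelL_real hL1 hx
  have hm : Multipliable fun n : ℕ => 1 - eta_q n (τ : ℂ) :=
    multipliableLocallyUniformlyOn_eta.multipliable τ.2
  have h3 : ‖ModularForm.discriminant τ‖ = ‖Complex.exp (2 * Real.pi * Complex.I * τ)‖ *
      ‖∏' n : ℕ, (1 - Complex.exp (2 * Real.pi * Complex.I * τ) ^ (n + 1))‖ ^ 24 := by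
    rw [discriminant_eq_q_prod, norm_mul, hm.tprod_pow, norm_pow]
    congr 2
    · simp [Function.Periodic.qParam]
    · simp only [eta_q_eq_pow]
  rw [h3, mul_comm]
  refine mul_le_mul_of_nonneg_left ?_ (norm_nonneg _)
  have h4 := DelL_tprod hn h1
  calc Real.exp (-(24 * (L : ℝ) ^ 2)) ≤
        Real.exp (-(Real.exp (-(2 * Real.pi * τ.im)) / (1 - Real.exp (-(2 * Real.pi * τ.im))) ^ 2)) ^ 24 := by
          rw [← Real.exp_nat_mul, Real.exp_le_exp]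
          push_cast
          linarith
    _ ≤ _ := pow_le_pow_left₀ (Real.exp_pos _).le h4 24

theorem delta_lower : ∃ C : ℕ, 0 < C ∧ ∀ (L : ℕ) (τ : ℍ), 0 < L → 1 ≤ (L : ℝ) * τ.im →
    Real.exp (-((C : ℝ) * (L : ℝ) ^ 2)) * ‖Complex.exp (2 * Real.pi * Complex.I * τ)‖ ≤
      ‖ModularForm.discriminant τ‖ :=
  ⟨24, by norm_num, fun L τ hL h => by
    have := delta_lower' L τ hL h
    exact_mod_cast this⟩

end Pool.Agent.LGO.RU
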