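import Mathlib
import Pool.Agent.LGO.RU.GrC

/-!
# LGO/RU: evaluation and growth of `sp`

If `A ^ d = Q(t)` then `c(A) = ∑_{i < d} A ^ i (sp c d i Q)(t)`, in `ℂ_[p]` and in `ℂ`.
-/

namespace Pool.Agent.LGO.RU

open PowerSeries Pool.Agent.Hhelper14.ZP Pool.Agent.LGO Pool.Agent.LGO.PA

variable {r ε B : ℝ} {Q : Ser} {c : PowerSeries ℤ} {d i : ℕ}

theorem coeff_sp (c : PowerSeries ℤ) (d i : ℕ) (Q : Ser) (N : ℕ) : coeff N (sp c d i Q) =
    ∑ n ∈ Finset.range (N + 1), ((coeff (d * n + i) c : ℤ) : OO) * coeff N (Q ^ n) := by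
  rw [sp, coeff_mk]

theorem coeff_pow_lt (hQ : coeff 0 Q = 0) {n N : ℕ} (h : N < n) : coeff N (Q ^ n) = 0 := by
  have h1 : X ∣ Q := by
    rw [X_dvd_iff, ← coeff_zero_eq_constantCoeff_apply]
    exact hQ
  have h2 : X ^ n ∣ Q ^ n := pow_dvd_pow_of_dvd h1 n
  exact (X_pow_dvd_iff.1 h2) N h

theorem coeff_sp' (hQ : coeff 0 Q = 0) (c : PowerSeries ℤ) (d i : ℕ) {N M : ℕ} (h : N < M) :
    coeff N (sp c d i Q) =
      ∑ n ∈ Finset.range M, ((coeff (d * n + i) c : ℤ) : OO) * coeff N (Q ^ n) := by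
  rw [coeff_sp]
  refine Finset.sum_subset (fun n hn => ?_) fun n _ hn => ?_
  · rw [Finset.mem_range] at *
    omega
  · rw [Finset.mem_range] at hn
    rw [coeff_pow_lt hQ (by omega), mul_zero]

/-- the coefficients of `sp` lie in `K` if those of `Q` do -/
theorem inK_sp {K : IntermediateField ℚ ℂ} (hQ : ∀ n, InK K (Q ^ n)) (c : PowerSeries ℤ) (d i : ℕ) :
    InK K (sp c d i Q) := by
  intro N
  have h1 : ((coeff N (sp c d i Q) : OO) : ℂ) =
      ∑ n ∈ Finset.range (N + 1), ((coeff (d * n + i) c : ℤ) : ℂ) * ((coeff N (Q ^ n) : OO) : ℂ) := by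
    have h2 := congrArg OO.subtype (coeff_sp c d i Q N)
    rw [map_sum] at h2
    simp only [map_mul, map_intCast] at h2
    exact h2
  rw [h1]
  refine sum_mem fun n _ => mul_mem ?_ (hQ n N)
  exact intCast_mem K _

theorem gr_sp (hQ : Gr r ε Q) (hr : 0 ≤ r)
    (hc : ∀ k, ∑ n ∈ Finset.range k, ((|coeff (d * n + i) c| : ℤ) : ℝ) * ε ^ n ≤ B) :
    Gr r B (sp c d i Q) := by
  intro s k
  have h1 : ∀ N ∈ Finset.range k, ‖s ((coeff N (sp c d i Q) : OO) : ℂ)‖ * r ^ N ≤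
      ∑ n ∈ Finset.range k, ((|coeff (d * n + i) c| : ℤ) : ℝ) *
        (‖sC s (coeff N (Q ^ n))‖ * r ^ N) := by
    intro N hN
    rw [Finset.mem_range] at hN
    have e1 : ‖s ((coeff N (sp c d i Q) : OO) : ℂ)‖ ≤ ∑ n ∈ Finset.range (N + 1),
        ((|coeff (d * n + i) c| : ℤ) : ℝ) * ‖sC s (coeff N (Q ^ n))‖ := by
      show ‖sC s (coeff N (sp c d i Q))‖ ≤ _
      rw [coeff_sp, map_sum]
      refine (norm_sum_le _ _).trans (le_of_eq ?_)
      refine Finset.sum_congr rfl fun n _ => ?_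
      rw [map_mul, map_intCast, norm_mul, Complex.norm_intCast, Int.cast_abs]
    calc ‖s ((coeff N (sp c d i Q) : OO) : ℂ)‖ * r ^ N
        ≤ (∑ n ∈ Finset.range (N + 1), ((|coeff (d * n + i) c| : ℤ) : ℝ) *
          ‖sC s (coeff N (Q ^ n))‖) * r ^ N := mul_le_mul_of_nonneg_right e1 (pow_nonneg hr N)
      _ = ∑ n ∈ Finset.range (N + 1), ((|coeff (d * n + i) c| : ℤ) : ℝ) *
          (‖sC s (coeff N (Q ^ n))‖ * r ^ N) := by
          rw [Finset.sum_mul]
          exact Finset.sum_congr rfl fun n _ => by ring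
      _ ≤ _ := by
          refine Finset.sum_le_sum_of_subset_of_nonneg (fun n hn => ?_) fun n _ _ => ?_
          · rw [Finset.mem_range] at *
            omega
          · refine mul_nonneg ?_ (mul_nonneg (norm_nonneg _) (pow_nonneg hr N))
            exact_mod_cast abs_nonneg _
  calc ∑ N ∈ Finset.range k, ‖s ((coeff N (sp c d i Q) : OO) : ℂ)‖ * r ^ N
      ≤ ∑ N ∈ Finset.range k, ∑ n ∈ Finset.range k, ((|coeff (d * n + i) c| : ℤ) : ℝ) *
        (‖sC s (coeff N (Q ^ n))‖ * r ^ N) := Finset.sum_le_sum h1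
    _ = ∑ n ∈ Finset.range k, ((|coeff (d * n + i) c| : ℤ) : ℝ) *
        ∑ N ∈ Finset.range k, ‖sC s (coeff N (Q ^ n))‖ * r ^ N := by
        rw [Finset.sum_comm]
        exact Finset.sum_congr rfl fun n _ => by rw [Finset.mul_sum]
    _ ≤ ∑ n ∈ Finset.range k, ((|coeff (d * n + i) c| : ℤ) : ℝ) * ε ^ n := by
        refine Finset.sum_le_sum fun n _ => mul_le_mul_of_nonneg_left (gr_pow hQ hr n s k) ?_
        exact_mod_cast abs_nonneg _
    _ ≤ B := hc k

/-- sums over the residue classes modulo `d` -/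
theorem hasSum_res {F : Type} [AddCommMonoid F] [TopologicalSpace F] [ContinuousAdd F] {d : ℕ}
    {g a : ℕ → F} (hd : 0 < d) (h : ∀ i < d, HasSum (fun n => g (d * n + i)) (a i)) :
    HasSum g (∑ i ∈ Finset.range d, a i) := by
  classical
  have h1 : ∀ i ∈ Finset.range d, HasSum (fun m => if m % d = i then g m else 0) (a i) := by
    intro i hi
    rw [Finset.mem_range] at hi
    have hinj : Function.Injective fun n : ℕ => d * n + i := by
      intro n n' e
      have e' : d * n = d * n' := by simpa using e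
      exact Nat.eq_of_mul_eq_mul_left hd e'
    rw [← hinj.hasSum_iff]
    · have e : ((fun m => if m % d = i then g m else 0) ∘ fun n => d * n + i) =
          fun n => g (d * n + i) := by
        funext n
        show (if (d * n + i) % d = i then g (d * n + i) else 0) = g (d * n + i)
        rw [Nat.mul_add_mod, Nat.mod_eq_of_lt hi, if_pos rfl]
      rw [e]
      exact h i hi
    · intro m hm
      rw [if_neg]
      intro e
      apply hm
      refine ⟨m / d, ?_⟩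
      show d * (m / d) + i = m
      rw [← e]
      exact Nat.div_add_mod m d
  have h2 := hasSum_sum h1
  have h3 : (fun m => ∑ i ∈ Finset.range d, if m % d = i then g m else 0) = g := by
    funext m
    rw [Finset.sum_ite_eq, if_pos (Finset.mem_range.2 (Nat.mod_lt m hd))]
  rwa [h3] at h2

/-- complex evaluation, one residue class -/
theorem evc_sp_hasSum (hQ0 : coeff 0 Q = 0) (hQ : Gr r ε Q) {z : ℂ} (hz : ‖z‖ ≤ r)
    (hc : Summable fun n => ((|coeff (d * n + i) c| : ℤ) : ℝ) * ε ^ n) (s : ℂ ≃+* ℂ) :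
    HasSum (fun n => ((coeff (d * n + i) c : ℤ) : ℂ) * evc s Q z ^ n) (evc s (sp c d i Q) z) := by
  have hr : 0 ≤ r := (norm_nonneg z).trans hz
  have hε : 0 ≤ ε := gr_nonneg hQ
  set F : ℕ × ℕ → ℂ := fun q => ((coeff (d * q.1 + i) c : ℤ) : ℂ) * (sC s (coeff q.2 (Q ^ q.1)) * z ^ q.2)
    with hF
  have n0 : ∀ n N, 0 ≤ ‖sC s (coeff N (Q ^ n)) * z ^ N‖ := fun n N => norm_nonneg _
  have hS : Summable fun q => ‖F q‖ := by
    rw [summable_prod_of_nonneg (fun q => norm_nonneg _)]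
    constructor
    · intro n
      have h1 := (evc_summable (gr_pow hQ hr n) hz s).mul_left ‖((coeff (d * n + i) c : ℤ) : ℂ)‖
      refine h1.congr fun N => ?_
      rw [hF, norm_mul ((coeff (d * n + i) c : ℤ) : ℂ)]
    · refine Summable.of_nonneg_of_le (fun n => tsum_nonneg fun N => norm_nonneg _) (fun n => ?_) hc
      have h1 : ∀ N, ‖F (n, N)‖ = ((|coeff (d * n + i) c| : ℤ) : ℝ) *
          ‖sC s (coeff N (Q ^ n)) * z ^ N‖ := by
        intro N
        rw [hF]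
        show ‖((coeff (d * n + i) c : ℤ) : ℂ) * (sC s (coeff N (Q ^ n)) * z ^ N)‖ = _
        rw [norm_mul, Complex.norm_intCast, Int.cast_abs]
      rw [tsum_congr h1, tsum_mul_left]
      refine mul_le_mul_of_nonneg_left ?_ (by exact_mod_cast abs_nonneg _)
      refine le_trans ((evc_summable (gr_pow hQ hr n) hz s).tsum_le_tsum (fun N => ?_)
        (gr_summable (gr_pow hQ hr n) hr s)) (gr_tsum_le (gr_pow hQ hr n) hr s)
      rw [norm_mul, norm_pow]
      exact mul_le_mul_of_nonneg_left (pow_le_pow_left₀ (norm_nonneg z) hz N) (norm_nonneg _)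
  have hT : Summable F := hS.of_norm
  have h2 : ∀ n, HasSum (fun N => F (n, N))
      (((coeff (d * n + i) c : ℤ) : ℂ) * evc s Q z ^ n) := by
    intro n
    rw [← evc_pow hQ hz s n]
    exact (evc_hasSum (gr_pow hQ hr n) hz s).mul_left _
  have h3 := hT.hasSum.prod_fiberwise h2
  have h4 : evc s (sp c d i Q) z = ∑' q, F q := by
    have h5 : HasSum (fun q : ℕ × ℕ => F q.swap) (∑' q, F q) :=
      (Equiv.prodComm ℕ ℕ).hasSum_iff.2 hT.hasSum
    have h6 : ∀ N, HasSum (fun n => F (n, N)) (sC s (coeff N (sp c d i Q)) * z ^ N) := by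
      intro N
      have h7 : sC s (coeff N (sp c d i Q)) * z ^ N = ∑ n ∈ Finset.range (N + 1), F (n, N) := by
        rw [coeff_sp, map_sum, Finset.sum_mul]
        refine Finset.sum_congr rfl fun n _ => ?_
        rw [hF, map_mul, map_intCast, mul_assoc]
      rw [h7]
      refine hasSum_sum_of_ne_finset_zero fun n hn => ?_
      rw [Finset.mem_range] at hn
      rw [hF]
      show ((coeff (d * n + i) c : ℤ) : ℂ) * (sC s (coeff N (Q ^ n)) * z ^ N) = 0
      rw [coeff_pow_lt hQ0 (by omega), map_zero, zero_mul, mul_zero]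
    have h8 := h5.prod_fiberwise h6
    exact h8.tsum_eq
  rw [h4]
  exact h3

/-- complex evaluation -/
theorem evc_sp (hd : 0 < d) (hQ0 : coeff 0 Q = 0) (hQ : Gr r ε Q) {z : ℂ} (hz : ‖z‖ ≤ r)
    (hc : ∀ i < d, Summable fun n => ((|coeff (d * n + i) c| : ℤ) : ℝ) * ε ^ n) (s : ℂ ≃+* ℂ)
    {A : ℂ} (hA : A ^ d = evc s Q z) : HasSum (fun m => ((coeff m c : ℤ) : ℂ) * A ^ m)
      (∑ i ∈ Finset.range d, A ^ i * evc s (sp c d i Q) z) := by
  refine hasSum_res hd fun i hi => ?_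
  have h1 := (evc_sp_hasSum hQ0 hQ hz (hc i hi) s).mul_left (A ^ i)
  have e : (fun n => ((coeff (d * n + i) c : ℤ) : ℂ) * A ^ (d * n + i)) =
      fun n => A ^ i * (((coeff (d * n + i) c : ℤ) : ℂ) * evc s Q z ^ n) := by
    funext n
    rw [pow_add, pow_mul, hA]
    ring
  rw [e]
  exact h1

/-- a polynomial bound gives summability -/
theorem summable_of_poly {b k : ℕ} (hc : ∀ n, ((|coeff n c| : ℤ) : ℝ) ≤ ((b : ℝ) * (n + 1)) ^ k)
    (h0 : 0 ≤ ε) (h1 : ε < 1) (d i : ℕ) :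
    Summable fun n => ((|coeff (d * n + i) c| : ℤ) : ℝ) * ε ^ n := by
  have h2 : Summable fun n : ℕ => (n : ℝ) ^ k * ε ^ n :=
    summable_pow_mul_geometric_of_norm_lt_one k (by rwa [Real.norm_of_nonneg h0])
  have h3 : Summable fun n : ℕ => ((b : ℝ) * (d + i + 1)) ^ k * (2 ^ k * ((n : ℝ) ^ k * ε ^ n + ε ^ n)) :=
    ((h2.add (summable_geometric_of_lt_one h0 h1)).mul_left _).mul_left _
  refine Summable.of_nonneg_of_le (fun n => ?_) (fun n => ?_) h3
  · exact mul_nonneg (by exact_mod_cast abs_nonneg _) (pow_nonneg h0 n)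
  · have e1 : ((|coeff (d * n + i) c| : ℤ) : ℝ) ≤ ((b : ℝ) * (d + i + 1)) ^ k * ((n : ℝ) + 1) ^ k := by
      refine (hc _).trans ?_
      rw [← mul_pow]
      refine pow_le_pow_left₀ (by positivity) ?_ k
      rw [mul_assoc]
      refine mul_le_mul_of_nonneg_left ?_ (by positivity)
      push_cast
      have a1 : (0 : ℝ) ≤ d := by positivity
      have a2 : (0 : ℝ) ≤ i := by positivity
      have a3 : (0 : ℝ) ≤ n := by positivity
      nlinarith [mul_nonneg a2 a3]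
    have e2 : ((n : ℝ) + 1) ^ k ≤ 2 ^ k * ((n : ℝ) ^ k + 1) := by
      rcases Nat.eq_zero_or_pos n with hn | hn
      · subst hn
        have : (1 : ℝ) ≤ 2 ^ k := one_le_pow₀ (by norm_num)
        have h0k : (0 : ℝ) ≤ (0 : ℝ) ^ k := by positivity
        simp only [Nat.cast_zero, zero_add, one_pow]
        nlinarith
      · have hn' : (1 : ℝ) ≤ n := by exact_mod_cast hn
        calc ((n : ℝ) + 1) ^ k ≤ (2 * n) ^ k := pow_le_pow_left₀ (by positivity) (by linarith) k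
          _ = 2 ^ k * (n : ℝ) ^ k := mul_pow _ _ _
          _ ≤ _ := mul_le_mul_of_nonneg_left (by linarith) (by positivity)
    calc ((|coeff (d * n + i) c| : ℤ) : ℝ) * ε ^ n
        ≤ (((b : ℝ) * (d + i + 1)) ^ k * ((n : ℝ) + 1) ^ k) * ε ^ n :=
          mul_le_mul_of_nonneg_right e1 (pow_nonneg h0 n)
      _ ≤ (((b : ℝ) * (d + i + 1)) ^ k * (2 ^ k * ((n : ℝ) ^ k + 1))) * ε ^ n :=
          mul_le_mul_of_nonneg_right (mul_le_mul_of_nonneg_left e2 (by positivity)) (pow_nonneg h0 n)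
      _ = _ := by ring

variable {p : ℕ} [Fact p.Prime] {f : OO →+* ℂ_[p]} {t : ℂ_[p]}

theorem ev_norm_lt (hf : ∀ x, ‖f x‖ ≤ 1) (ht : ‖t‖ < 1) (hQ0 : coeff 0 Q = 0) : ‖ev f Q t‖ < 1 := by
  refine lt_of_le_of_lt (ev_order hf ht Q 1 fun n hn => ?_) (by rwa [pow_one])
  interval_cases n
  exact hQ0

/-- `p`-adic evaluation, one residue class -/
theorem ev_sp_hasSum (hf : ∀ x, ‖f x‖ ≤ 1) (ht : ‖t‖ < 1) (hQ0 : coeff 0 Q = 0) :
    HasSum (fun n => ((coeff (d * n + i) c : ℤ) : ℂ_[p]) * ev f Q t ^ n) (ev f (sp c d i Q) t) := by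
  have hq := ev_norm_lt hf ht hQ0
  have hS : Summable fun n => ((coeff (d * n + i) c : ℤ) : ℂ_[p]) * ev f Q t ^ n := by
    refine Summable.of_norm_bounded (g := fun n => ‖ev f Q t‖ ^ n)
      (summable_geometric_of_lt_one (norm_nonneg _) hq) fun n => ?_
    rw [norm_mul, norm_pow]
    exact mul_le_of_le_one_left (pow_nonneg (norm_nonneg _) n) (int_norm_le _)
  have h1 := hS.hasSum.tendsto_sum_nat
  have h2 : ∀ M : ℕ, ‖ev f (sp c d i Q) t -
      ∑ n ∈ Finset.range M, ((coeff (d * n + i) c : ℤ) : ℂ_[p]) * ev f Q t ^ n‖ ≤ ‖t‖ ^ M := by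
    intro M
    have e1 : ev f (∑ n ∈ Finset.range M, C ((coeff (d * n + i) c : ℤ) : OO) * Q ^ n) t =
        ∑ n ∈ Finset.range M, ((coeff (d * n + i) c : ℤ) : ℂ_[p]) * ev f Q t ^ n := by
      rw [ev_sum hf ht]
      refine Finset.sum_congr rfl fun n _ => ?_
      rw [ev_mul hf ht, ev_C, ev_pow hf ht, map_intCast]
    rw [← e1, ← ev_sub hf ht]
    refine ev_order hf ht _ M fun N hN => ?_
    rw [map_sub, coeff_sp' hQ0 c d i hN, map_sum, sub_eq_zero]
    refine Finset.sum_congr rfl fun n _ => ?_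
    rw [coeff_C_mul]
  have h3 : Filter.Tendsto (fun M : ℕ => ‖t‖ ^ M) Filter.atTop (nhds 0) :=
    tendsto_pow_atTop_nhds_zero_of_lt_one (norm_nonneg t) ht
  have h4 : Filter.Tendsto (fun M : ℕ => ev f (sp c d i Q) t -
      ∑ n ∈ Finset.range M, ((coeff (d * n + i) c : ℤ) : ℂ_[p]) * ev f Q t ^ n) Filter.atTop (nhds 0) :=
    squeeze_zero_norm h2 h3
  have h5 := (tendsto_const_nhds (x := ev f (sp c d i Q) t)).sub h1
  have h6 := tendsto_nhds_unique h4 h5
  have h7 : ev f (sp c d i Q) t =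
      ∑' n, ((coeff (d * n + i) c : ℤ) : ℂ_[p]) * ev f Q t ^ n := (sub_eq_zero.1 h6.symm)
  rw [h7]
  exact hS.hasSum

/-- `p`-adic evaluation -/
theorem ev_sp (hf : ∀ x, ‖f x‖ ≤ 1) (hd : 0 < d) (ht : ‖t‖ < 1) (hQ0 : coeff 0 Q = 0) {A : ℂ_[p]}
    (hA1 : ‖A‖ < 1) (hA : A ^ d = ev f Q t) (c : PowerSeries ℤ) :
    ev (Int.castRingHom ℂ_[p]) c A = ∑ i ∈ Finset.range d, A ^ i * ev f (sp c d i Q) t := by
  have h1 := ev_hasSum castHom_norm_le hA1 c
  refine h1.unique ?_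
  refine hasSum_res hd fun i _ => ?_
  have h2 := (ev_sp_hasSum (c := c) (d := d) (i := i) hf ht hQ0).mul_left (A ^ i)
  have e : (fun n => Int.castRingHom ℂ_[p] (coeff (d * n + i) c) * A ^ (d * n + i)) =
      fun n => A ^ i * (((coeff (d * n + i) c : ℤ) : ℂ_[p]) * ev f Q t ^ n) := by
    funext n
    rw [pow_add, pow_mul, hA, eq_intCast]
    ring
  rw [e]
  exact h2

end Pool.Agent.LGO.RU
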