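import Mathlib
import Pool.Agent.LGO.RU.Sp
import Pool.Agent.LGO.RU.ArrB
import Pool.Agent.LGO.PA.CEv
import Pool.Agent.LGO.PA.Tate
import Pool.Agent.LGO.PA.Crit

/-!
# LGO/RU: the evaluation of the arrays `Arr`, `p`-adically and at the complex places

`(∑ G k k' (t) Y_a ^ k Y_b ^ k') (Δ(A) Δ(B)) ^ R = ∑_{i < d, j < d'} A ^ i B ^ j Arr(i, j)(t)`.
-/

namespace Pool.Agent.LGO.RU

open PowerSeries Pool.Agent.Hhelper14.ZP Pool.Agent.LGO Pool.Agent.LGO.PA UpperHalfPlane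

/-! ### `p`-adic -/

section P

variable {p : ℕ} [Fact p.Prime]

theorem pe_p {A : ℂ_[p]} (h0 : 0 < ‖A‖) (h1 : ‖A‖ < 1) {R k : ℕ} (hk : k ≤ R) :
    ev (Int.castRingHom ℂ_[p]) (PE R k) A = jP A ^ k * DP A ^ R := by
  have e1 := jP_mul h0 h1
  have e2 : DP A ^ R = DP A ^ k * DP A ^ (R - k) := by
    rw [← pow_add, Nat.add_sub_cancel' hk]
  rw [PE, ev_mul castHom_norm_le h1, ev_pow castHom_norm_le h1, ev_pow castHom_norm_le h1, e2,
    ← mul_assoc, ← mul_pow, e1, ← pow_mul]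
  rfl

variable {φ : ℂ →+* ℂ_[p]} {qa qb : Ser} {a d a' d' : ℕ} {t A B : ℂ_[p]}

theorem arr_p (R : ℕ) (G : ℕ → ℕ → Ser) (h0a : coeff 0 qa = 0) (h0b : coeff 0 qb = 0)
    (ha : 0 < a) (hd : 0 < d) (ha' : 0 < a') (hd' : 0 < d') (ht : ‖t‖ < 1) (hA0 : 0 < ‖A‖)
    (hA1 : ‖A‖ < 1) (hB0 : 0 < ‖B‖) (hB1 : ‖B‖ < 1) (hA : A ^ d = ev (sO φ) qa t ^ a)
    (hB : B ^ d' = ev (sO φ) qb t ^ a') :
    (∑ k ∈ Finset.range R, ∑ k' ∈ Finset.range R, ev (sO φ) (G k k') t * jP A ^ k * jP B ^ k') *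
      (DP A * DP B) ^ R = ∑ i ∈ Finset.range d, ∑ j ∈ Finset.range d',
        A ^ i * B ^ j * ev (sO φ) (Arr R G qa qb a d a' d' i j) t := by
  have hf := sO_norm_le φ
  have z1 : coeff 0 (qa ^ a) = 0 := coeff_pow_lt h0a ha
  have z2 : coeff 0 (qb ^ a') = 0 := coeff_pow_lt h0b ha'
  have e1 : ∀ k < R, jP A ^ k * DP A ^ R =
      ∑ i ∈ Finset.range d, A ^ i * ev (sO φ) (sp (PE R k) d i (qa ^ a)) t := by
    intro k hk
    rw [← pe_p hA0 hA1 hk.le]
    exact ev_sp hf hd ht z1 hA1 (by rw [ev_pow hf ht]; exact hA) _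
  have e2 : ∀ k < R, jP B ^ k * DP B ^ R =
      ∑ i ∈ Finset.range d', B ^ i * ev (sO φ) (sp (PE R k) d' i (qb ^ a')) t := by
    intro k hk
    rw [← pe_p hB0 hB1 hk.le]
    exact ev_sp hf hd' ht z2 hB1 (by rw [ev_pow hf ht]; exact hB) _
  have e3 : ∀ i j, ev (sO φ) (Arr R G qa qb a d a' d' i j) t =
      ∑ k ∈ Finset.range R, ∑ k' ∈ Finset.range R, ev (sO φ) (G k k') t *
        ev (sO φ) (sp (PE R k) d i (qa ^ a)) t * ev (sO φ) (sp (PE R k') d' j (qb ^ a')) t := by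
    intro i j
    rw [Arr, ev_sum hf ht]
    refine Finset.sum_congr rfl fun k _ => ?_
    rw [ev_sum hf ht]
    refine Finset.sum_congr rfl fun k' _ => ?_
    rw [ev_mul hf ht, ev_mul hf ht]
  have e4 : ∀ k ∈ Finset.range R, ∀ k' ∈ Finset.range R,
      ev (sO φ) (G k k') t * jP A ^ k * jP B ^ k' * (DP A * DP B) ^ R =
      ∑ i ∈ Finset.range d, ∑ j ∈ Finset.range d', A ^ i * B ^ j * (ev (sO φ) (G k k') t *
        ev (sO φ) (sp (PE R k) d i (qa ^ a)) t * ev (sO φ) (sp (PE R k') d' j (qb ^ a')) t) := by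
    intro k hk k' hk'
    rw [Finset.mem_range] at hk hk'
    have e5 : ev (sO φ) (G k k') t * jP A ^ k * jP B ^ k' * (DP A * DP B) ^ R =
        ev (sO φ) (G k k') t * ((jP A ^ k * DP A ^ R) * (jP B ^ k' * DP B ^ R)) := by
      rw [mul_pow]
      ring
    rw [e5, e1 k hk, e2 k' hk', Finset.sum_mul_sum, Finset.mul_sum]
    refine Finset.sum_congr rfl fun i _ => ?_
    rw [Finset.mul_sum]
    exact Finset.sum_congr rfl fun j _ => by ring
  rw [Finset.sum_mul]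
  have e6 : ∀ k ∈ Finset.range R, (∑ k' ∈ Finset.range R,
      ev (sO φ) (G k k') t * jP A ^ k * jP B ^ k') * (DP A * DP B) ^ R =
      ∑ i ∈ Finset.range d, ∑ j ∈ Finset.range d', A ^ i * B ^ j * ∑ k' ∈ Finset.range R,
        (ev (sO φ) (G k k') t * ev (sO φ) (sp (PE R k) d i (qa ^ a)) t *
          ev (sO φ) (sp (PE R k') d' j (qb ^ a')) t) := by
    intro k hk
    rw [Finset.sum_mul, Finset.sum_congr rfl (e4 k hk), Finset.sum_comm]
    refine Finset.sum_congr rfl fun i _ => ?_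
    rw [Finset.sum_comm]
    refine Finset.sum_congr rfl fun j _ => ?_
    rw [Finset.mul_sum]
  rw [Finset.sum_congr rfl e6, Finset.sum_comm]
  refine Finset.sum_congr rfl fun i _ => ?_
  rw [Finset.sum_comm]
  refine Finset.sum_congr rfl fun j _ => ?_
  rw [e3, Finset.mul_sum]

/-- the sum is small if the expansion vanishes up to the order `T` -/
theorem vc_p {R T : ℕ} {G : ℕ → ℕ → Ser} (h0a : coeff 0 qa = 0) (h0b : coeff 0 qb = 0)
    (ha : 0 < a) (hd : 0 < d) (ha' : 0 < a') (hd' : 0 < d') (ht : ‖t‖ < 1) (hA0 : 0 < ‖A‖)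
    (hA1 : ‖A‖ < 1) (hB0 : 0 < ‖B‖) (hB1 : ‖B‖ < 1) (hA : A ^ d = ev (sO φ) qa t ^ a)
    (hB : B ^ d' = ev (sO φ) qb t ^ a') (hv : VC R G qa qb a d a' d' T) :
    ‖∑ k ∈ Finset.range R, ∑ k' ∈ Finset.range R, ev (sO φ) (G k k') t * jP A ^ k * jP B ^ k'‖ *
      (‖A‖ * ‖B‖) ^ R ≤ ‖t‖ ^ T := by
  have h1 := arr_p (φ := φ) R G h0a h0b ha hd ha' hd' ht hA0 hA1 hB0 hB1 hA hB
  have h2 : ‖∑ k ∈ Finset.range R, ∑ k' ∈ Finset.range R,
      ev (sO φ) (G k k') t * jP A ^ k * jP B ^ k'‖ * (‖A‖ * ‖B‖) ^ R =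
      ‖∑ i ∈ Finset.range d, ∑ j ∈ Finset.range d',
        A ^ i * B ^ j * ev (sO φ) (Arr R G qa qb a d a' d' i j) t‖ := by
    rw [← h1, norm_mul, norm_pow, norm_mul, DP_norm hA1, DP_norm hB1]
  rw [h2]
  refine IsUltrametricDist.norm_sum_le_of_forall_le_of_nonneg (pow_nonneg (norm_nonneg t) T)
    fun i hi => ?_
  refine IsUltrametricDist.norm_sum_le_of_forall_le_of_nonneg (pow_nonneg (norm_nonneg t) T)
    fun j hj => ?_
  rw [Finset.mem_range] at hi hj
  have h3 := ev_order (sO_norm_le φ) ht (Arr R G qa qb a d a' d' i j) T fun n hn => hv i hi j hj n hn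
  rw [norm_mul, norm_mul, norm_pow, norm_pow]
  have h4 : ‖A‖ ^ i * ‖B‖ ^ j ≤ 1 := mul_le_one₀ (pow_le_one₀ (norm_nonneg A) hA1.le)
    (pow_nonneg (norm_nonneg B) j) (pow_le_one₀ (norm_nonneg B) hB1.le)
  calc ‖A‖ ^ i * ‖B‖ ^ j * ‖ev (sO φ) (Arr R G qa qb a d a' d' i j) t‖
      ≤ 1 * ‖t‖ ^ T := mul_le_mul h4 h3 (norm_nonneg _) zero_le_one
    _ = ‖t‖ ^ T := one_mul _

end P

/-! ### complex -/

/-- `PE R k` at a point of the upper half plane -/
theorem pe_c (τ : ℍ) {R k : ℕ} (hk : k ≤ R) :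
    HasSum (fun n => ((coeff n (PE R k) : ℤ) : ℂ) *
      Complex.exp (2 * Real.pi * Complex.I * τ) ^ n)
      (jInv τ ^ k * ModularForm.discriminant τ ^ R) := by
  classical
  have hD : ModularForm.discriminant τ ≠ 0 := ModularForm.discriminant_ne_zero τ
  have k1 : k < R + 1 := by omega
  have k2 : R - k < R + 1 := by omega
  set P : Fin (R + 1) → Fin (R + 1) → ℤ :=
    fun i j => if i = ⟨k, k1⟩ then (if j = ⟨R - k, k2⟩ then 1 else 0) else 0 with hP
  have h1 := fp_hasSum R P τ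
  have h2 : FP R P = PE R k := by
    rw [FP, Finset.sum_eq_single ⟨k, k1⟩, Finset.sum_eq_single ⟨R - k, k2⟩]
    · rw [hP]
      simp only [if_true, map_one, one_mul]
      rfl
    · intro j _ hj
      rw [hP]
      simp only [if_true, if_neg hj, map_zero, zero_mul]
    · intro h
      exact absurd (Finset.mem_univ _) h
    · intro i _ hi
      refine Finset.sum_eq_zero fun j _ => ?_
      rw [hP]
      simp only [if_neg hi, map_zero, zero_mul]
    · intro h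
      exact absurd (Finset.mem_univ _) h
  have h3 : (∑ i : Fin (R + 1), ∑ j : Fin (R + 1), (P i j : ℂ) *
      (ModularForm.E₄ τ ^ (3 * (i : ℕ)) * ModularForm.discriminant τ ^ (j : ℕ))) =
      jInv τ ^ k * ModularForm.discriminant τ ^ R := by
    rw [Finset.sum_eq_single ⟨k, k1⟩, Finset.sum_eq_single ⟨R - k, k2⟩]
    · rw [hP]
      simp only [if_true, Int.cast_one, one_mul]
      have e1 : ModularForm.discriminant τ ^ R = ModularForm.discriminant τ ^ k *
          ModularForm.discriminant τ ^ (R - k) := by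
        rw [← pow_add, Nat.add_sub_cancel' hk]
      rw [jInv, e1, div_pow, ← pow_mul, ← mul_assoc, div_mul_cancel₀ _ (pow_ne_zero k hD)]
    · intro j _ hj
      rw [hP]
      simp only [if_true, if_neg hj, Int.cast_zero, zero_mul]
    · intro h
      exact absurd (Finset.mem_univ _) h
    · intro i _ hi
      refine Finset.sum_eq_zero fun j _ => ?_
      rw [hP]
      simp only [if_neg hi, Int.cast_zero, zero_mul]
    · intro h
      exact absurd (Finset.mem_univ _) h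
  rw [h2, h3] at h1
  have h4 : Function.Periodic.qParam 1 (τ : ℂ) = Complex.exp (2 * Real.pi * Complex.I * τ) := by
    rw [Function.Periodic.qParam]
    simp
  rw [h4] at h1
  exact h1

variable {qa qb : Ser} {a d a' d' : ℕ} {t : ℂ} {τ τ' : ℍ}

theorem pe_sp {r : ℝ} (h0a : coeff 0 qa = 0) (ha : 0 < a) (hd : 0 < d) (hga : Gr r (1 / 2) qa)
    (ht : ‖t‖ ≤ r) (s : ℂ ≃+* ℂ)
    (hA : Complex.exp (2 * Real.pi * Complex.I * τ) ^ d = evc s qa t ^ a) {R k : ℕ} (hk : k ≤ R) :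
    jInv τ ^ k * ModularForm.discriminant τ ^ R = ∑ i ∈ Finset.range d,
      Complex.exp (2 * Real.pi * Complex.I * τ) ^ i * evc s (sp (PE R k) d i (qa ^ a)) t := by
  have hr : 0 ≤ r := (norm_nonneg t).trans ht
  obtain ⟨c, _, hc⟩ := coef_le
  have h1 : Gr r ((1 / 2) ^ a) (qa ^ a) := gr_pow hga hr a
  have h2 : ((1 : ℝ) / 2) ^ a < 1 := pow_lt_one₀ (by norm_num) (by norm_num) ha.ne'
  have h3 : ∀ i < d, Summable fun n => ((|coeff (d * n + i) (PE R k)| : ℤ) : ℝ) * ((1 / 2) ^ a) ^ n := by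
    intro i _
    exact summable_of_poly (b := c) (k := c * (R + 1))
      (fun n => hc R k (R - k) n hk (Nat.sub_le R k)) (by positivity) h2 d i
  have h4 := evc_sp hd (coeff_pow_lt h0a ha) h1 ht h3 s (A := Complex.exp (2 * Real.pi * Complex.I * τ))
    (by rw [evc_pow hga ht]; exact hA)
  exact (pe_c τ hk).unique h4

theorem arr_c {R : ℕ} {G : ℕ → ℕ → Ser} {r B : ℝ} (h0a : coeff 0 qa = 0) (h0b : coeff 0 qb = 0)
    (ha : 0 < a) (hd : 0 < d) (ha' : 0 < a') (hd' : 0 < d') (hga : Gr r (1 / 2) qa)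
    (hgb : Gr r (1 / 2) qb) (hG : ∀ k < R, ∀ k' < R, Gr r B (G k k')) (ht : ‖t‖ ≤ r)
    (s : ℂ ≃+* ℂ) (hA : Complex.exp (2 * Real.pi * Complex.I * τ) ^ d = evc s qa t ^ a)
    (hB : Complex.exp (2 * Real.pi * Complex.I * τ') ^ d' = evc s qb t ^ a') :
    (∑ k ∈ Finset.range R, ∑ k' ∈ Finset.range R, evc s (G k k') t * jInv τ ^ k * jInv τ' ^ k') *
      (ModularForm.discriminant τ * ModularForm.discriminant τ') ^ R =
      ∑ i ∈ Finset.range d, ∑ j ∈ Finset.range d',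
        Complex.exp (2 * Real.pi * Complex.I * τ) ^ i * Complex.exp (2 * Real.pi * Complex.I * τ') ^ j *
          evc s (Arr R G qa qb a d a' d' i j) t := by
  have hr : 0 ≤ r := (norm_nonneg t).trans ht
  set A := Complex.exp (2 * Real.pi * Complex.I * τ) with hAdef
  set A' := Complex.exp (2 * Real.pi * Complex.I * τ') with hBdef
  set Dt := ModularForm.discriminant τ with hDt
  set Dt' := ModularForm.discriminant τ' with hDt'
  have e1 : ∀ k < R, jInv τ ^ k * Dt ^ R =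
      ∑ i ∈ Finset.range d, A ^ i * evc s (sp (PE R k) d i (qa ^ a)) t := fun k hk =>
    pe_sp h0a ha hd hga ht s hA hk.le
  have e2 : ∀ k < R, jInv τ' ^ k * Dt' ^ R =
      ∑ i ∈ Finset.range d', A' ^ i * evc s (sp (PE R k) d' i (qb ^ a')) t := fun k hk =>
    pe_sp h0b ha' hd' hgb ht s hB hk.le
  obtain ⟨C, _, hC⟩ := sp_gr
  have hq : ∀ {q : Ser} {a : ℕ}, 0 < a → Gr r (1 / 2) q → Gr r (1 / 2) (q ^ a) := by
    intro q a h1 h2
    refine gr_mono (gr_pow h2 hr a) ?_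
    calc (1 / 2 : ℝ) ^ a ≤ (1 / 2) ^ 1 := pow_le_pow_of_le_one (by norm_num) (by norm_num) h1
      _ = 1 / 2 := pow_one _
  have e3 : ∀ i < d, ∀ j < d', evc s (Arr R G qa qb a d a' d' i j) t =
      ∑ k ∈ Finset.range R, ∑ k' ∈ Finset.range R, evc s (G k k') t *
        evc s (sp (PE R k) d i (qa ^ a)) t * evc s (sp (PE R k') d' j (qb ^ a')) t := by
    intro i hi j hj
    have g1 : ∀ k < R, Gr r (Real.exp (C * ((R : ℝ) + 1) ^ 2 * d)) (sp (PE R k) d i (qa ^ a)) :=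
      fun k hk => hC d R k d i r _ hr (by omega) hk.le le_rfl hi (hq ha hga)
    have g2 : ∀ k < R, Gr r (Real.exp (C * ((R : ℝ) + 1) ^ 2 * d')) (sp (PE R k) d' j (qb ^ a')) :=
      fun k hk => hC d' R k d' j r _ hr (by omega) hk.le le_rfl hj (hq ha' hgb)
    set P := Real.exp (C * ((R : ℝ) + 1) ^ 2 * d) with hP
    set P' := Real.exp (C * ((R : ℝ) + 1) ^ 2 * d') with hP'
    rw [Arr]
    have g3 : ∀ k ∈ Finset.range R, ∀ k' ∈ Finset.range R, Gr r (B * P * P')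
        (G k k' * sp (PE R k) d i (qa ^ a) * sp (PE R k') d' j (qb ^ a')) := by
      intro k hk k' hk'
      rw [Finset.mem_range] at hk hk'
      exact gr_mul (gr_mul (hG k hk k' hk') (g1 k hk) hr) (g2 k' hk') hr
    have g4 : ∀ k ∈ Finset.range R, Gr r (∑ _k' ∈ Finset.range R, B * P * P')
        (∑ k' ∈ Finset.range R, G k k' * sp (PE R k) d i (qa ^ a) * sp (PE R k') d' j (qb ^ a')) :=
      fun k hk => gr_sum _ _ _ hr (g3 k hk)
    rw [evc_sum _ _ _ g4 ht s]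
    refine Finset.sum_congr rfl fun k hk => ?_
    rw [evc_sum _ _ _ (g3 k hk) ht s]
    refine Finset.sum_congr rfl fun k' hk' => ?_
    rw [Finset.mem_range] at hk hk'
    rw [evc_mul (gr_mul (hG k hk k' hk') (g1 k hk) hr) (g2 k' hk') ht s,
      evc_mul (hG k hk k' hk') (g1 k hk) ht s]
  have e4 : ∀ k ∈ Finset.range R, ∀ k' ∈ Finset.range R,
      evc s (G k k') t * jInv τ ^ k * jInv τ' ^ k' * (Dt * Dt') ^ R =
      ∑ i ∈ Finset.range d, ∑ j ∈ Finset.range d', A ^ i * A' ^ j * (evc s (G k k') t *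
        evc s (sp (PE R k) d i (qa ^ a)) t * evc s (sp (PE R k') d' j (qb ^ a')) t) := by
    intro k hk k' hk'
    rw [Finset.mem_range] at hk hk'
    have e5 : evc s (G k k') t * jInv τ ^ k * jInv τ' ^ k' * (Dt * Dt') ^ R =
        evc s (G k k') t * ((jInv τ ^ k * Dt ^ R) * (jInv τ' ^ k' * Dt' ^ R)) := by
      rw [mul_pow]
      ring
    rw [e5, e1 k hk, e2 k' hk', Finset.sum_mul_sum, Finset.mul_sum]
    refine Finset.sum_congr rfl fun i _ => ?_
    rw [Finset.mul_sum]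
    exact Finset.sum_congr rfl fun j _ => by ring
  rw [Finset.sum_mul]
  have e6 : ∀ k ∈ Finset.range R, (∑ k' ∈ Finset.range R,
      evc s (G k k') t * jInv τ ^ k * jInv τ' ^ k') * (Dt * Dt') ^ R =
      ∑ i ∈ Finset.range d, ∑ j ∈ Finset.range d', A ^ i * A' ^ j * ∑ k' ∈ Finset.range R,
        (evc s (G k k') t * evc s (sp (PE R k) d i (qa ^ a)) t *
          evc s (sp (PE R k') d' j (qb ^ a')) t) := by
    intro k hk
    rw [Finset.sum_mul, Finset.sum_congr rfl (e4 k hk), Finset.sum_comm]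
    refine Finset.sum_congr rfl fun i _ => ?_
    rw [Finset.sum_comm]
    refine Finset.sum_congr rfl fun j _ => ?_
    rw [Finset.mul_sum]
  rw [Finset.sum_congr rfl e6, Finset.sum_comm]
  refine Finset.sum_congr rfl fun i hi => ?_
  rw [Finset.sum_comm]
  refine Finset.sum_congr rfl fun j hj => ?_
  rw [Finset.mem_range] at hi hj
  rw [e3 i hi j hj, Finset.mul_sum]

/-- the sum is small if the expansion vanishes up to the order `T` -/
theorem vc_c : ∃ C : ℕ, 1 ≤ C ∧ ∀ (L R : ℕ) (G : ℕ → ℕ → Ser) (qa qb : Ser) (r B : ℝ)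
    (a d a' d' T : ℕ) (s : ℂ ≃+* ℂ) (t : ℂ) (τ τ' : ℍ), 0 < r → 1 ≤ L → a * d = L → a' * d' = L →
    coeff 0 qa = 0 → coeff 0 qb = 0 → Gr r (1 / 2) qa → Gr r (1 / 2) qb →
    (∀ k < R, ∀ k' < R, Gr r (Real.exp B) (G k k')) → VC R G qa qb a d a' d' T → ‖t‖ ≤ r →
    Complex.exp (2 * Real.pi * Complex.I * τ) ^ d = evc s qa t ^ a →
    Complex.exp (2 * Real.pi * Complex.I * τ') ^ d' = evc s qb t ^ a' →
    ‖∑ k ∈ Finset.range R, ∑ k' ∈ Finset.range R, evc s (G k k') t * jInv τ ^ k * jInv τ' ^ k'‖ *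
      (‖ModularForm.discriminant τ‖ * ‖ModularForm.discriminant τ'‖) ^ R ≤
      Real.exp (B + C * ((R : ℝ) + 1) ^ 2 * L) * (‖t‖ / r) ^ T := by
  obtain ⟨C, hC, h⟩ := Arr_gr
  refine ⟨C + 2, by omega, ?_⟩
  intro L R G qa qb r B a d a' d' T s t τ τ' hr hL had had' h0a h0b hga hgb hG hv ht hA hB
  have hpos : ∀ {a d : ℕ}, a * d = L → 0 < a ∧ 0 < d ∧ d ≤ L := by
    intro a d h
    have h1 : 0 < a := by
      rcases Nat.eq_zero_or_pos a with h0 | h0
      · rw [h0, zero_mul] at h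
        omega
      · exact h0
    have h2 : 0 < d := by
      rcases Nat.eq_zero_or_pos d with h0 | h0
      · rw [h0, mul_zero] at h
        omega
      · exact h0
    refine ⟨h1, h2, ?_⟩
    rw [← h]
    exact Nat.le_mul_of_pos_left d h1
  have h1 := arr_c (G := G) h0a h0b (hpos had).1 (hpos had).2.1 (hpos had').1 (hpos had').2.1
    hga hgb hG ht s hA hB
  have hn : ∀ τ : ℍ, ‖Complex.exp (2 * Real.pi * Complex.I * τ)‖ ≤ 1 := by
    intro τ
    have h4 : Function.Periodic.qParam 1 (τ : ℂ) = Complex.exp (2 * Real.pi * Complex.I * τ) := by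
      rw [Function.Periodic.qParam]
      simp
    rw [← h4]
    exact (norm_qParam_lt τ).le
  have h2 : ‖∑ k ∈ Finset.range R, ∑ k' ∈ Finset.range R,
      evc s (G k k') t * jInv τ ^ k * jInv τ' ^ k'‖ *
      (‖ModularForm.discriminant τ‖ * ‖ModularForm.discriminant τ'‖) ^ R =
      ‖∑ i ∈ Finset.range d, ∑ j ∈ Finset.range d',
        Complex.exp (2 * Real.pi * Complex.I * τ) ^ i *
        Complex.exp (2 * Real.pi * Complex.I * τ') ^ j *
          evc s (Arr R G qa qb a d a' d' i j) t‖ := by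
    rw [← h1, norm_mul, norm_pow, norm_mul]
  rw [h2]
  set BB : ℝ := Real.exp (B + C * ((R : ℝ) + 1) ^ 2 * L) * (‖t‖ / r) ^ T with hBB
  have hBB0 : 0 ≤ BB := mul_nonneg (Real.exp_pos _).le (pow_nonneg (div_nonneg (norm_nonneg t) hr.le) T)
  have h3 : ∀ i ∈ Finset.range d, ∀ j ∈ Finset.range d',
      ‖Complex.exp (2 * Real.pi * Complex.I * τ) ^ i *
        Complex.exp (2 * Real.pi * Complex.I * τ') ^ j *
          evc s (Arr R G qa qb a d a' d' i j) t‖ ≤ BB := by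
    intro i hi j hj
    rw [Finset.mem_range] at hi hj
    have g1 := h L R G qa qb r B a d a' d' i j hr.le hL had had' hi hj hG hga hgb
    have g2 := evc_order g1 hr ht s T fun n hn => hv i hi j hj n hn
    rw [norm_mul, norm_mul, norm_pow, norm_pow]
    have h4 : ‖Complex.exp (2 * Real.pi * Complex.I * τ)‖ ^ i *
        ‖Complex.exp (2 * Real.pi * Complex.I * τ')‖ ^ j ≤ 1 :=
      mul_le_one₀ (pow_le_one₀ (norm_nonneg _) (hn τ)) (pow_nonneg (norm_nonneg _) j)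
        (pow_le_one₀ (norm_nonneg _) (hn τ'))
    calc _ ≤ 1 * BB := mul_le_mul h4 g2 (norm_nonneg _) zero_le_one
      _ = BB := one_mul _
  have h5 : ‖∑ i ∈ Finset.range d, ∑ j ∈ Finset.range d',
        Complex.exp (2 * Real.pi * Complex.I * τ) ^ i *
        Complex.exp (2 * Real.pi * Complex.I * τ') ^ j *
          evc s (Arr R G qa qb a d a' d' i j) t‖ ≤ (L : ℝ) * ((L : ℝ) * BB) := by
    refine (norm_sum_le _ _).trans ?_
    have h6 : ∀ i ∈ Finset.range d, ‖∑ j ∈ Finset.range d',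
        Complex.exp (2 * Real.pi * Complex.I * τ) ^ i *
        Complex.exp (2 * Real.pi * Complex.I * τ') ^ j *
          evc s (Arr R G qa qb a d a' d' i j) t‖ ≤ (L : ℝ) * BB := by
      intro i hi
      refine (norm_sum_le _ _).trans ((Finset.sum_le_card_nsmul _ _ BB (h3 i hi)).trans ?_)
      rw [Finset.card_range, nsmul_eq_mul]
      exact mul_le_mul_of_nonneg_right (by exact_mod_cast (hpos had').2.2) hBB0
    refine (Finset.sum_le_card_nsmul _ _ _ h6).trans ?_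
    rw [Finset.card_range, nsmul_eq_mul]
    exact mul_le_mul_of_nonneg_right (by exact_mod_cast (hpos had).2.2)
      (mul_nonneg (Nat.cast_nonneg L) hBB0)
  refine h5.trans ?_
  have h7 : (L : ℝ) ≤ Real.exp L := by
    have := Real.add_one_le_exp (L : ℝ)
    linarith
  have h8 : (L : ℝ) * L ≤ Real.exp (2 * L) := by
    calc (L : ℝ) * L ≤ Real.exp L * Real.exp L :=
          mul_le_mul h7 h7 (Nat.cast_nonneg L) (Real.exp_pos _).le
      _ = Real.exp (2 * L) := by rw [← Real.exp_add]; ring_nf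
  calc (L : ℝ) * ((L : ℝ) * BB) = (L : ℝ) * L * Real.exp (B + C * ((R : ℝ) + 1) ^ 2 * L) *
        (‖t‖ / r) ^ T := by rw [hBB]; ring
    _ ≤ Real.exp (2 * L) * Real.exp (B + C * ((R : ℝ) + 1) ^ 2 * L) * (‖t‖ / r) ^ T := by
        refine mul_le_mul_of_nonneg_right ?_ (pow_nonneg (div_nonneg (norm_nonneg t) hr.le) T)
        exact mul_le_mul_of_nonneg_right h8 (Real.exp_pos _).le
    _ ≤ Real.exp (B + ((C + 2 : ℕ) : ℝ) * ((R : ℝ) + 1) ^ 2 * L) * (‖t‖ / r) ^ T := by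
        refine mul_le_mul_of_nonneg_right ?_ (pow_nonneg (div_nonneg (norm_nonneg t) hr.le) T)
        rw [← Real.exp_add]
        refine Real.exp_le_exp.2 ?_
        have hR : (0 : ℝ) ≤ R := Nat.cast_nonneg R
        have e1 : (1 : ℝ) ≤ ((R : ℝ) + 1) ^ 2 := by nlinarith
        have e2 : (L : ℝ) ≤ ((R : ℝ) + 1) ^ 2 * L := le_mul_of_one_le_left (Nat.cast_nonneg L) e1
        push_cast
        nlinarith

end Pool.Agent.LGO.RU
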