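import Mathlib
import Pool.Agent.LGO.RU.BndP
import Pool.Agent.LGO.RU.BndC
import Pool.Agent.LGO.RU.Ev
import Pool.Agent.LGO.RU.DelL

/-!
# LGO/RU: the local bounds for the value of the auxiliary function, note 3151, section (4)

`L = M₀ M`, `R = (M₀ + 1) (M + 1)`, `n₁ = 4 L R`, `F = vE OO.subtype c e n₂ R (ξ x) (η x) ya yb`.
Near the pole (`1 < ‖φ ξ‖`, `C ≤ ‖s ξ‖`): evaluation of `Arr` (`vc_p`, `vc_c`); `‖DP A‖ = ‖A‖`, lower bound for `Δ` at the complex places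
(`Im τ ≥ 1 / L`).  Far away: trivial estimates, `ξ ^ n₁` and the bounds for `ya`, `yb` in terms of `x a`, `x b`.
-/

namespace Pool.Agent.LGO.RU

open Pool.Agent.Hhelper14.ZP Pool.Agent.LGO Pool.Agent.LGO.PA

variable {n : ℕ} {V : Set (Fin n → ℂ)} {a b : Fin n}

/-- the exponent `k` -/
private theorem Bnd_pow {K C : ℕ} {L B x : ℝ} (hL : 1 ≤ L) (hB : 1 ≤ B) (hK : K ≤ C) (hC : 3 ≤ C)
    (hx : x ≤ K * L ^ 3 * B) : x ≤ ((C : ℝ) * L * B) ^ C := by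
  have hC' : (3 : ℝ) ≤ C := by exact_mod_cast hC
  have h1 : 1 ≤ (C : ℝ) * L * B := by nlinarith [mul_le_mul hL hB zero_le_one (by linarith)]
  have hK' : (K : ℝ) ≤ C := by exact_mod_cast hK
  have h2 : (K : ℝ) * L ^ 3 * B ≤ C ^ 3 * L ^ 3 * B ^ 3 := by
    have a1 : (K : ℝ) ≤ C ^ 3 := hK'.trans (by nlinarith [sq_nonneg ((C : ℝ) - 1)])
    have a2 : B ≤ B ^ 3 := by nlinarith [sq_nonneg (B - 1)]
    gcongr
  calc x ≤ K * L ^ 3 * B := hx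
    _ ≤ C ^ 3 * L ^ 3 * B ^ 3 := h2
    _ = ((C : ℝ) * L * B) ^ 3 := by ring
    _ ≤ ((C : ℝ) * L * B) ^ C := pow_le_pow_right₀ h1 hC

private theorem Bnd_R {M₀ M : ℕ} (h₀ : 1 ≤ M₀) (h : 1 ≤ M) :
    (((M₀ + 1) * (M + 1) : ℕ) : ℝ) ≤ 4 * ((M₀ * M : ℕ) : ℝ) := by
  have : (M₀ + 1) * (M + 1) ≤ 4 * (M₀ * M) := by nlinarith
  exact_mod_cast this

private theorem Bnd_q (τ : UpperHalfPlane) :
    ‖Complex.exp (2 * Real.pi * Complex.I * τ)‖ = Real.exp (-(2 * Real.pi * τ.im)) := by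
  rw [Complex.norm_exp]
  congr 1
  simp [Complex.mul_re, Complex.mul_im]

private theorem Bnd_im {τ τ₁ : UpperHalfPlane} {a d L : ℕ} (hL : 0 < L) (had : a * d = L) (h1 : 1 < τ.im)
    (h : Complex.exp (2 * Real.pi * Complex.I * τ₁) ^ d =
      Complex.exp (2 * Real.pi * Complex.I * τ) ^ a) : 1 ≤ L * τ₁.im := by
  have h2 := congrArg norm h
  rw [norm_pow, norm_pow, Bnd_q, Bnd_q, ← Real.exp_nat_mul, ← Real.exp_nat_mul] at h2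
  have h3 := Real.exp_injective h2
  have h4 : (d : ℝ) * τ₁.im = a * τ.im := by
    have h5 : (2 * Real.pi) * ((d : ℝ) * τ₁.im) = (2 * Real.pi) * (a * τ.im) := by linarith
    exact mul_left_cancel₀ (by positivity) h5
  have ha : 1 ≤ a := by
    rcases Nat.eq_zero_or_pos a with h0 | h0
    · rw [h0, zero_mul] at had
      omega
    · exact h0
  have ha' : (1 : ℝ) ≤ a := by exact_mod_cast ha
  have h6 : (L : ℝ) * τ₁.im = a * (a * τ.im) := by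
    rw [← had, ← h4]
    push_cast
    ring
  rw [h6]
  nlinarith [mul_le_mul ha' ha' zero_le_one (by linarith)]

theorem bnd_p (D : Loc V a b) (Q : QD D) {M₀ M : ℕ} (hL : 0 < M₀ * M) {n₂ : ℕ}
    {c : ℕ → ℕ → ℕ → ℕ → OO} {B : ℝ}
    (hc : CB D.K₀ c D.e (4 * (M₀ * M) * ((M₀ + 1) * (M + 1))) n₂ ((M₀ + 1) * (M + 1)) B)
    (hV : VAll (M₀ * M) M ((M₀ + 1) * (M + 1)) (Gar D.e D.h n₂ D.W c) Q.qa Q.qb
        (D.e * n₂ + D.h * D.e + (D.m + D.l) * (M₀ * M) * ((M₀ + 1) * (M + 1)) + D.e))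
    {x : Fin n → ℂ} (hx : x ∈ V) (hxE : x ∉ D.E) {ya yb : ℂ} (p : ℕ) [Fact p.Prime] (φ : ℂ →+* ℂ_[p])
    (hT : 1 < ‖φ (D.ξ x)‖ → ∀ qa qb : ℂ_[p],
          0 < ‖qa‖ → ‖qa‖ < 1 → 0 < ‖qb‖ → ‖qb‖ < 1 → jP qa = φ (x a) → jP qb = φ (x b) →
            TyP φ (M₀ * M) M qa qb ya yb)
    (hY : ‖φ ya‖ ≤ max 1 ‖φ (x a)‖ ^ (M₀ * M) ∧ ‖φ yb‖ ≤ max 1 ‖φ (x b)‖ ^ (M₀ * M)) :
    ‖(D.n₀ : ℂ_[p])‖ ^ (D.e + 2 * (M₀ * M) * ((M₀ + 1) * (M + 1))) *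
      (‖φ (vE OO.subtype c D.e n₂ ((M₀ + 1) * (M + 1)) (D.ξ x) (D.η x) ya yb)‖ *
        max 1 ‖φ (D.ξ x)‖) ≤ 1 := by
  have hn1 : ‖(D.n₀ : ℂ_[p])‖ ≤ 1 := Pool.Agent.Hhelper14.ZP.norm_natCast_le _
  have hn0 : 0 < ‖(D.n₀ : ℂ_[p])‖ := norm_pos_iff.2 (by exact_mod_cast D.pos.2.2.2.1.ne')
  rw [map_vE]
  change ‖(D.n₀ : ℂ_[p])‖ ^ (D.e + 2 * (M₀ * M) * ((M₀ + 1) * (M + 1))) *
      (‖vE (sO φ) c D.e n₂ ((M₀ + 1) * (M + 1)) (φ (D.ξ x)) (φ (D.η x)) (φ ya) (φ yb)‖ *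
        max 1 ‖φ (D.ξ x)‖) ≤ 1
  rcases lt_or_ge 1 ‖φ (D.ξ x)‖ with h | h
  · -- near
    obtain ⟨t, ht0, ht1, hξ, hη, ha1, ha2, ha3, hb1, hb2, hb3⟩ := Q.near_p p φ x hx hxE h
    have hqa0 : 0 < ‖ev (sO φ) Q.qa t‖ := lt_of_lt_of_le (mul_pos hn0 (pow_pos ht0 _)) ha1
    have hqb0 : 0 < ‖ev (sO φ) Q.qb t‖ := lt_of_lt_of_le (mul_pos hn0 (pow_pos ht0 _)) hb1
    obtain ⟨a₁, d₁, a₂, d₂, A, B', had, had', hne, hA0, hA1, hB0, hB1, hA, hB, hjA, hjB⟩ :=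
      hT h _ _ hqa0 ha2 hqb0 hb2 ha3 hb3
    have hpos : ∀ {u v : ℕ}, u * v = M₀ * M → 0 < u ∧ 0 < v := by
      intro u v h
      rw [← h] at hL
      exact ⟨Nat.pos_of_mul_pos_right hL, Nat.pos_of_mul_pos_left hL⟩
    have hvc := hV a₁ d₁ a₂ d₂ had had' hne
    have h5 := vc_p (φ := φ) Q.c0.1 Q.c0.2 (hpos had).1 (hpos had).2 (hpos had').1 (hpos had').2 ht1
      hA0 hA1 hB0 hB1 hA hB hvc
    have hF := vE_gar_p φ (sO_norm_le φ) D.W c D.e D.h n₂ ((M₀ + 1) * (M + 1)) (φ ya) (φ yb) ht1 hξ hη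
    rw [← hjA, ← hjB] at hF ⊢
    have h6 := near_p_core hn0.le ht0 hξ hF h5
      (root_lower hn0.le (norm_nonneg t) hL had hA ha1 ha2 hA1)
      (root_lower hn0.le (norm_nonneg t) hL had' hB hb1 hb2 hB1)
    rw [max_eq_right h.le, pow_add, mul_assoc (‖(D.n₀ : ℂ_[p])‖ ^ D.e)]
    exact mul_le_one₀ (pow_le_one₀ hn0.le hn1) (by positivity) h6
  · -- far
    obtain ⟨u1, u2, u3⟩ := D.up_p p φ x hx hxE
    change _ ≤ max 1 ‖φ (D.ξ x)‖ ^ D.C at u1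
    change ‖(D.n₀ : ℂ_[p])‖ * (‖φ (D.ξ x)‖ * _) ≤ max 1 ‖φ (D.ξ x)‖ ^ D.C at u2
    change ‖(D.n₀ : ℂ_[p])‖ * (‖φ (D.ξ x)‖ * _) ≤ max 1 ‖φ (D.ξ x)‖ ^ D.C at u3
    rw [max_eq_left h, one_pow] at u1 u2 u3
    rw [max_eq_left h, mul_one]
    exact far_p φ c hc.supp hn1 h u1 u2 u3 hY.1 hY.2

private theorem Bnd_norm (τ : UpperHalfPlane) : ‖Complex.exp (2 * Real.pi * Complex.I * τ)‖ ≤ 1 := by
  rw [Bnd_q, Real.exp_le_one_iff]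
  have := mul_pos (mul_pos two_pos Real.pi_pos) τ.im_pos
  linarith

private theorem Bnd_le_exp (k : ℕ) : (k : ℝ) ≤ Real.exp k := by
  have := Real.add_one_le_exp (k : ℝ)
  linarith

private theorem Bnd_pow_exp (Z : ℝ) (hZ : 0 ≤ Z) (k : ℕ) : Z ^ k ≤ Real.exp (Z * k) := by
  have h1 : Z ≤ Real.exp Z := by
    have := Real.add_one_le_exp Z
    linarith
  calc Z ^ k ≤ Real.exp Z ^ k := pow_le_pow_left₀ hZ h1 k
    _ = Real.exp (Z * k) := by rw [← Real.exp_nat_mul, mul_comm]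

theorem map_vE_c (s : ℂ ≃+* ℂ) (c : ℕ → ℕ → ℕ → ℕ → OO) (e J R : ℕ) (ξ η y y' : ℂ) :
    s (vE OO.subtype c e J R ξ η y y') = vE (sC s) c e J R (s ξ) (s η) (s y) (s y') :=
  map_vE (s : ℂ →+* ℂ) OO.subtype c e J R ξ η y y'

/-- near the pole, complex -/
theorem bnd_cn (D : Loc V a b) (Q : QD D) : ∃ C : ℕ, ∀ {L M R : ℕ}, 0 < L → ∀ {n₂ : ℕ}
    {c : ℕ → ℕ → ℕ → ℕ → OO} {B : ℝ}, 0 ≤ B →
    (∀ i j k k' (s : ℂ ≃+* ℂ), ‖s ((c i j k k' : OO) : ℂ)‖ ≤ Real.exp B) →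
    VAll L M R (Gar D.e D.h n₂ D.W c) Q.qa Q.qb
        (D.e * n₂ + D.h * D.e + (D.m + D.l) * L * R + D.e) →
    ∀ {x : Fin n → ℂ}, x ∈ V → x ∉ D.E → ∀ {ya yb : ℂ} (s : ℂ ≃+* ℂ), (Q.C : ℝ) ≤ ‖s (D.ξ x)‖ →
    (∀ (τ τ' : UpperHalfPlane), 1 < τ.im → 1 < τ'.im → jInv τ = s (x a) →
          jInv τ' = s (x b) → TyC s L M (Complex.exp (2 * Real.pi * Complex.I * τ))
            (Complex.exp (2 * Real.pi * Complex.I * τ')) ya yb) →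
    ‖s (vE OO.subtype c D.e n₂ R (D.ξ x) (D.η x) ya yb)‖ *
        max 1 ‖s (D.ξ x)‖ ≤ Real.exp (C * (1 + n₂ + B + (L : ℝ) ^ 2 * R + ((R : ℝ) + 1) ^ 2 * L)) := by
  obtain ⟨C₂, hC₂, hvc⟩ := vc_c
  obtain ⟨P, hP⟩ := exists_nat_gt (1 / Q.ρ)
  have hρ := Q.pos.1
  refine ⟨2 * D.e + Q.C * D.e + C₂ + P * (2 * D.e + D.h * D.e + D.m + D.l) + 49 + 2 * Q.C, ?_⟩
  intro L M R hL n₂ c B hB hcb hV x hx hxE ya yb s hs hT
  have hQC : (1 : ℝ) ≤ Q.C := by exact_mod_cast Q.pos.2.2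
  obtain ⟨t, ht0, ht1, hξ, hη, ha1, hb1, τ, τ', hi, hi', hj, hj', hqa, hqb⟩ :=
    Q.near_c s x hx hxE hs
  obtain ⟨a₁, d₁, a₂, d₂, τ₁, τ₂, had, had', hne, hA, hB', hjA, hjB⟩ := hT τ τ' hi hi' hj hj'
  have hv := hV a₁ d₁ a₂ d₂ had had' hne
  rw [map_vE_c, ← hjA, ← hjB]
  have hF := vE_gar_c s (Real.exp_pos B).le Q.gr.2.2 c hcb D.e D.h n₂ R (jInv τ₁) (jInv τ₂) ht1 hξ hη
  have hG : ∀ k < R, ∀ k' < R, Gr Q.ρ (Real.exp (D.e + n₂ + B + Q.C * D.e))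
      (Gar D.e D.h n₂ D.W c k k') := by
    intro k _ k' _
    have g1 := gar_gr (C₀ := Q.C) (B₀ := Real.exp B) hρ.le Q.pos.2.1 hQC (Real.exp_pos B).le Q.gr.2.2
      D.e D.h n₂ k k' (fun i j s => hcb i j k k' s)
    refine gr_mono g1 ?_
    calc (D.e : ℝ) * n₂ * (Real.exp B * (Q.C : ℝ) ^ D.e)
        ≤ Real.exp D.e * Real.exp n₂ * (Real.exp B * Real.exp (Q.C * D.e)) := by
          gcongr
          · exact Bnd_le_exp _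
          · exact Bnd_le_exp _
          · exact Bnd_pow_exp _ (by positivity) _
      _ = Real.exp (D.e + n₂ + B + Q.C * D.e) := by
          rw [← Real.exp_add, ← Real.exp_add, ← Real.exp_add]
          ring_nf
  rw [hqa] at hA
  rw [hqb] at hB'
  have h5 := hvc L R _ Q.qa Q.qb Q.ρ _ a₁ d₁ a₂ d₂ _ s t τ₁ τ₂ hρ hL had had' Q.c0.1 Q.c0.2 Q.gr.1
    Q.gr.2.1 hG hv ht1 hA hB'
  have hν : (0 : ℝ) ≤ 1 / Q.C := by positivity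
  have q1 : (1 : ℝ) / Q.C * ‖t‖ ^ D.m ≤ ‖evc s Q.qa t‖ := by
    rw [one_div, inv_mul_le_iff₀ (by positivity)]
    exact ha1
  have q2 : (1 : ℝ) / Q.C * ‖t‖ ^ D.l ≤ ‖evc s Q.qb t‖ := by
    rw [one_div, inv_mul_le_iff₀ (by positivity)]
    exact hb1
  have q3 : ‖evc s Q.qa t‖ ≤ 1 := by rw [← hqa]; exact Bnd_norm τ
  have q4 : ‖evc s Q.qb t‖ ≤ 1 := by rw [← hqb]; exact Bnd_norm τ'
  have hAr := root_lower_c hν (norm_nonneg t) hL had hA q1 q3 (Bnd_norm τ₁)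
  have hBr := root_lower_c hν (norm_nonneg t) hL had' hB' q2 q4 (Bnd_norm τ₂)
  rw [← hqa] at hA
  rw [← hqb] at hB'
  have dA := delta_lower' L τ₁ hL (Bnd_im hL had hi hA)
  have dB := delta_lower' L τ₂ hL (Bnd_im hL had' hi' hB')
  have h6 := near_c_core (δ := Real.exp (-(24 * (L : ℝ) ^ 2))) (ν := 1 / Q.C) (Real.exp_pos _).le hν ht0 hξ
    hF h5 ((mul_le_mul_of_nonneg_left hAr (Real.exp_pos _).le).trans dA)
    ((mul_le_mul_of_nonneg_left hBr (Real.exp_pos _).le).trans dB)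
  rw [max_eq_right (hQC.trans hs)]
  set X := ‖vE (sC s) c D.e n₂ R (s (D.ξ x)) (s (D.η x)) (jInv τ₁) (jInv τ₂)‖ * ‖s (D.ξ x)‖ with hX
  set T := D.e * n₂ + D.h * D.e + (D.m + D.l) * L * R + D.e with hTd
  have h7 : X ≤ Real.exp (D.e + n₂ + B + Q.C * D.e + C₂ * ((R : ℝ) + 1) ^ 2 * L) * Real.exp (P * T) *
      (Real.exp (48 * (L : ℝ) ^ 2 * R) * Real.exp (Q.C * (2 * L * R))) := by
    have k1 : (1 / Q.ρ) ^ T ≤ Real.exp (P * T) := by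
      calc (1 / Q.ρ) ^ T ≤ (P : ℝ) ^ T := pow_le_pow_left₀ (by positivity) hP.le T
        _ ≤ Real.exp (P * T) := Bnd_pow_exp _ (by positivity) _
    have k2 : Real.exp (-(24 * (L : ℝ) ^ 2)) ^ (2 * R) * (Real.exp (48 * (L : ℝ) ^ 2 * R)) = 1 := by
      rw [← Real.exp_nat_mul, ← Real.exp_add]
      push_cast
      ring_nf
      exact Real.exp_zero
    have k3 : 1 ≤ (1 / (Q.C : ℝ)) ^ (2 * L * R) * Real.exp (Q.C * (2 * L * R)) := by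
      have := Bnd_pow_exp (Q.C : ℝ) (by positivity) (2 * L * R)
      have e1 : (1 / (Q.C : ℝ)) ^ (2 * L * R) * (Q.C : ℝ) ^ (2 * L * R) = 1 := by
        rw [← mul_pow, one_div_mul_cancel (by positivity), one_pow]
      push_cast at this
      calc (1 : ℝ) = (1 / (Q.C : ℝ)) ^ (2 * L * R) * (Q.C : ℝ) ^ (2 * L * R) := e1.symm
        _ ≤ (1 / (Q.C : ℝ)) ^ (2 * L * R) * Real.exp (Q.C * (2 * L * R)) :=
          mul_le_mul_of_nonneg_left this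
            (show (0 : ℝ) ≤ (1 / (Q.C : ℝ)) ^ (2 * L * R) by positivity)
    have k4 : 0 ≤ X := by positivity
    calc X = Real.exp (-(24 * (L : ℝ) ^ 2)) ^ (2 * R) * (Real.exp (48 * (L : ℝ) ^ 2 * R)) * X * 1 := by
          rw [k2]; ring
      _ ≤ Real.exp (-(24 * (L : ℝ) ^ 2)) ^ (2 * R) * (Real.exp (48 * (L : ℝ) ^ 2 * R)) * X *
          ((1 / (Q.C : ℝ)) ^ (2 * L * R) * Real.exp (Q.C * (2 * L * R))) :=
          mul_le_mul_of_nonneg_left k3 (by positivity)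
      _ = Real.exp (-(24 * (L : ℝ) ^ 2)) ^ (2 * R) * (1 / (Q.C : ℝ)) ^ (2 * L * R) * X *
          (Real.exp (48 * (L : ℝ) ^ 2 * R) * Real.exp (Q.C * (2 * L * R))) := by ring
      _ ≤ (Real.exp (D.e + n₂ + B + Q.C * D.e + C₂ * ((R : ℝ) + 1) ^ 2 * L) * (1 / Q.ρ) ^ T) *
          (Real.exp (48 * (L : ℝ) ^ 2 * R) * Real.exp (Q.C * (2 * L * R))) :=
          mul_le_mul_of_nonneg_right h6 (by positivity)
      _ ≤ _ := by gcongr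
  refine h7.trans ?_
  rw [← Real.exp_add, ← Real.exp_add, ← Real.exp_add, Real.exp_le_exp]
  have hL1 : (1 : ℝ) ≤ L := by exact_mod_cast hL
  have hR0 : (0 : ℝ) ≤ R := Nat.cast_nonneg R
  rw [hTd]
  push_cast
  set U : ℝ := 1 + n₂ + B + (L : ℝ) ^ 2 * R + ((R : ℝ) + 1) ^ 2 * L with hU
  have r0 : (0 : ℝ) ≤ (L : ℝ) ^ 2 * R := by positivity
  have r1 : (0 : ℝ) ≤ ((R : ℝ) + 1) ^ 2 * L := by positivity
  have n0 : (0 : ℝ) ≤ n₂ := Nat.cast_nonneg _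
  have u1 : (1 : ℝ) ≤ U := by linarith
  have u2 : (n₂ : ℝ) ≤ U := by linarith
  have u3 : n₂ + B ≤ U := by linarith
  have u4 : ((R : ℝ) + 1) ^ 2 * L ≤ U := by linarith
  have u5 : (L : ℝ) ^ 2 * R ≤ U := by linarith
  have u6 : (L : ℝ) * R ≤ U := by
    refine le_trans ?_ u5
    exact mul_le_mul_of_nonneg_right (by nlinarith) hR0
  have v1 : (D.e : ℝ) ≤ D.e * U := le_mul_of_one_le_right (Nat.cast_nonneg _) u1
  have v2 : (Q.C : ℝ) * D.e ≤ Q.C * D.e * U := le_mul_of_one_le_right (by positivity) u1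
  have v3 : (C₂ : ℝ) * ((R : ℝ) + 1) ^ 2 * L ≤ C₂ * U := by
    rw [mul_assoc]
    exact mul_le_mul_of_nonneg_left u4 (Nat.cast_nonneg _)
  have v4 : (D.e : ℝ) * n₂ ≤ D.e * U := mul_le_mul_of_nonneg_left u2 (Nat.cast_nonneg _)
  have v5 : (D.h : ℝ) * D.e ≤ D.h * D.e * U := le_mul_of_one_le_right (by positivity) u1
  have v6 : ((D.m : ℝ) + D.l) * L * R ≤ (D.m + D.l) * U := by
    rw [mul_assoc]
    exact mul_le_mul_of_nonneg_left u6 (by positivity)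
  have v7 : (P : ℝ) * (D.e * n₂ + D.h * D.e + (D.m + D.l) * L * R + D.e) ≤
      P * ((2 * D.e + D.h * D.e + D.m + D.l) * U) := by
    refine mul_le_mul_of_nonneg_left ?_ (Nat.cast_nonneg _)
    linarith
  have v8 : (48 : ℝ) * L ^ 2 * R ≤ 48 * U := by linarith
  have v9 : (Q.C : ℝ) * (2 * L * R) ≤ 2 * Q.C * U := by
    have := mul_le_mul_of_nonneg_left u6 (show (0 : ℝ) ≤ 2 * Q.C by positivity)
    linarith
  have e9 : (2 * (D.e : ℝ) + Q.C * D.e + C₂ + P * (2 * D.e + D.h * D.e + D.m + D.l) + 49 + 2 * Q.C) * U =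
      2 * (D.e * U) + Q.C * D.e * U + C₂ * U + P * ((2 * D.e + D.h * D.e + D.m + D.l) * U) + 49 * U +
        2 * Q.C * U := by ring
  rw [e9]
  have v10 : 0 ≤ (D.e : ℝ) * U := by positivity
  linarith

/-- far from the pole, complex -/
theorem bnd_cf (D : Loc V a b) (Q : QD D) (C₁ : ℕ) : ∃ C : ℕ, ∀ {L R : ℕ}, 0 < L → ∀ {n₂ : ℕ}
    {c : ℕ → ℕ → ℕ → ℕ → OO} {B : ℝ}, 0 ≤ B → CB D.K₀ c D.e (4 * L * R) n₂ R B →
    ∀ {x : Fin n → ℂ}, x ∈ V → x ∉ D.E → ∀ {ya yb : ℂ} (s : ℂ ≃+* ℂ), ‖s (D.ξ x)‖ ≤ Q.C →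
    ‖s ya‖ ≤ (C₁ * max 1 ‖s (x a)‖) ^ (2 * L) → ‖s yb‖ ≤ (C₁ * max 1 ‖s (x b)‖) ^ (2 * L) →
    ‖s (vE OO.subtype c D.e n₂ R (D.ξ x) (D.η x) ya yb)‖ *
        max 1 ‖s (D.ξ x)‖ ≤ Real.exp (C * (1 + n₂ + B + (L : ℝ) ^ 2 * R + ((R : ℝ) + 1) ^ 2 * L)) := by
  obtain ⟨Zn, hZn⟩ : ∃ Zn : ℕ, Zn = Q.C + D.C * Q.C ^ D.C + C₁ + 1 := ⟨_, rfl⟩
  refine ⟨D.e + 4 + Zn * (D.e + 10), ?_⟩
  intro L R hL n₂ c B hB hc x hx hxE ya yb s hs hya hyb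
  have hQC : (1 : ℝ) ≤ Q.C := by exact_mod_cast Q.pos.2.2
  set Z : ℝ := (Zn : ℝ) with hZ
  have hZe : Z = Q.C + D.C * (Q.C : ℝ) ^ D.C + C₁ + 1 := by rw [hZ, hZn]; push_cast; ring
  have w1 : (0 : ℝ) ≤ D.C * (Q.C : ℝ) ^ D.C := by positivity
  have w2 : (0 : ℝ) ≤ C₁ := Nat.cast_nonneg _
  have hZ1 : 1 ≤ Z := by rw [hZe]; linarith
  have hZQ : (Q.C : ℝ) ≤ Z := by rw [hZe]; linarith
  have hZD : (D.C : ℝ) * (Q.C : ℝ) ^ D.C ≤ Z := by rw [hZe]; linarith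
  have hZC : (C₁ : ℝ) ≤ Z := by rw [hZe]; linarith
  have hm : max 1 ‖s (D.ξ x)‖ ≤ Q.C := max_le hQC hs
  obtain ⟨u1, u2, u3⟩ := D.up_c s x hx hxE
  have hu : (D.C : ℝ) * max 1 ‖s (D.ξ x)‖ ^ D.C ≤ Z :=
    (mul_le_mul_of_nonneg_left (pow_le_pow_left₀ (by positivity) hm _) (Nat.cast_nonneg _)).trans hZD
  have hy1 : ‖s ya‖ ≤ (Z * max 1 ‖s (x a)‖) ^ (2 * L) := hya.trans
    (pow_le_pow_left₀ (by positivity) (mul_le_mul_of_nonneg_right hZC (by positivity)) _)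
  have hy2 : ‖s yb‖ ≤ (Z * max 1 ‖s (x b)‖) ^ (2 * L) := hyb.trans
    (pow_le_pow_left₀ (by positivity) (mul_le_mul_of_nonneg_right hZC (by positivity)) _)
  have h1 := far_c s c hc.supp (fun i j k k' => hc.bd i j k k' s) (Real.exp_pos B).le hZ1
    (hs.trans hZQ) (u1.trans hu) (u2.trans hu) (u3.trans hu) hy1 hy2
  rw [map_vE_c]
  change ‖vE (sC s) c D.e n₂ R (s (D.ξ x)) (s (D.η x)) (s ya) (s yb)‖ * _ ≤ _
  have h2 : ‖vE (sC s) c D.e n₂ R (s (D.ξ x)) (s (D.η x)) (s ya) (s yb)‖ * max 1 ‖s (D.ξ x)‖ ≤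
      Real.exp D.e * Real.exp n₂ * Real.exp R * Real.exp R * (Real.exp B * Real.exp (Z * (D.e + n₂ + 8 * L * R))) *
        Real.exp Z := by
    have k1 : Z ^ (D.e + n₂ + 8 * L * R) ≤ Real.exp (Z * (D.e + n₂ + 8 * L * R)) := by
      have := Bnd_pow_exp Z (by positivity) (D.e + n₂ + 8 * L * R)
      push_cast at this
      exact this
    have k2 : max 1 ‖s (D.ξ x)‖ ≤ Real.exp Z := (hm.trans hZQ).trans (by
      have := Real.add_one_le_exp Z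
      linarith)
    have k3 := Bnd_le_exp D.e
    have k4 := Bnd_le_exp n₂
    have k5 := Bnd_le_exp R
    refine mul_le_mul (h1.trans ?_) k2 (by positivity) (by positivity)
    have : (0 : ℝ) ≤ Real.exp B * Z ^ (D.e + n₂ + 8 * L * R) := by positivity
    gcongr
  refine h2.trans ?_
  rw [← Real.exp_add, ← Real.exp_add, ← Real.exp_add, ← Real.exp_add, ← Real.exp_add,
    ← Real.exp_add, Real.exp_le_exp]
  have hL1 : (1 : ℝ) ≤ L := by exact_mod_cast hL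
  have hR0 : (0 : ℝ) ≤ R := Nat.cast_nonneg R
  push_cast
  set U : ℝ := 1 + n₂ + B + (L : ℝ) ^ 2 * R + ((R : ℝ) + 1) ^ 2 * L with hU
  have r0 : (0 : ℝ) ≤ (L : ℝ) ^ 2 * R := by positivity
  have r1 : (0 : ℝ) ≤ ((R : ℝ) + 1) ^ 2 * L := by positivity
  have n0 : (0 : ℝ) ≤ n₂ := Nat.cast_nonneg _
  have x1 : (1 : ℝ) ≤ U := by linarith
  have x2 : (n₂ : ℝ) ≤ U := by linarith
  have x3 : n₂ + B ≤ U := by linarith
  have x5 : (L : ℝ) ^ 2 * R ≤ U := by linarith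
  have x6 : (L : ℝ) * R ≤ U := by
    refine le_trans ?_ x5
    exact mul_le_mul_of_nonneg_right (by nlinarith) hR0
  have x7 : (R : ℝ) ≤ U := by
    refine le_trans ?_ x6
    exact le_mul_of_one_le_left hR0 hL1
  have v1 : (D.e : ℝ) ≤ D.e * U := le_mul_of_one_le_right (Nat.cast_nonneg _) x1
  have v2 : Z * (D.e + n₂ + 8 * L * R) ≤ Z * ((D.e + 9) * U) := by
    refine mul_le_mul_of_nonneg_left ?_ (by positivity)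
    have : (8 : ℝ) * L * R ≤ 8 * U := by linarith
    linarith
  have v3 : Z ≤ Z * U := le_mul_of_one_le_right (by positivity) x1
  have e9 : ((D.e : ℝ) + 4 + Z * (D.e + 10)) * U = D.e * U + 4 * U + Z * ((D.e + 9) * U) + Z * U := by
    ring
  rw [e9]
  linarith

theorem bnd (D : Loc V a b) (Q : QD D) (C₁ : ℕ) : ∃ C : ℕ, 0 < C ∧ ∀ M₀ M : ℕ, M₀.Prime → M.Prime → M₀ ≠ M →
    ∀ (n₂ : ℕ) (c : ℕ → ℕ → ℕ → ℕ → OO) (B : ℝ), 1 ≤ B → (n₂ : ℝ) ≤ B →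
      CB D.K₀ c D.e (4 * (M₀ * M) * ((M₀ + 1) * (M + 1))) n₂ ((M₀ + 1) * (M + 1)) B →
      VAll (M₀ * M) M ((M₀ + 1) * (M + 1)) (Gar D.e D.h n₂ D.W c) Q.qa Q.qb
        (D.e * n₂ + D.h * D.e + (D.m + D.l) * (M₀ * M) * ((M₀ + 1) * (M + 1)) + D.e) →
      ∀ x ∈ V, x ∉ D.E → ∀ ya yb : ℂ,
        (∀ (p : ℕ) [Fact p.Prime] (φ : ℂ →+* ℂ_[p]), 1 < ‖φ (D.ξ x)‖ → ∀ qa qb : ℂ_[p],
          0 < ‖qa‖ → ‖qa‖ < 1 → 0 < ‖qb‖ → ‖qb‖ < 1 → jP qa = φ (x a) → jP qb = φ (x b) →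
            TyP φ (M₀ * M) M qa qb ya yb) →
        (∀ (s : ℂ ≃+* ℂ) (τ τ' : UpperHalfPlane), 1 < τ.im → 1 < τ'.im → jInv τ = s (x a) →
          jInv τ' = s (x b) → TyC s (M₀ * M) M (Complex.exp (2 * Real.pi * Complex.I * τ))
            (Complex.exp (2 * Real.pi * Complex.I * τ')) ya yb) →
        (∀ (p : ℕ) [Fact p.Prime] (φ : ℂ →+* ℂ_[p]), ‖φ ya‖ ≤ max 1 ‖φ (x a)‖ ^ (M₀ * M) ∧
          ‖φ yb‖ ≤ max 1 ‖φ (x b)‖ ^ (M₀ * M)) →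
        (∀ s : ℂ ≃+* ℂ, ‖s ya‖ ≤ (C₁ * max 1 ‖s (x a)‖) ^ (2 * (M₀ * M)) ∧
          ‖s yb‖ ≤ (C₁ * max 1 ‖s (x b)‖) ^ (2 * (M₀ * M))) →
        (∃ k : ℕ, (k : ℝ) ≤ ((C : ℝ) * (M₀ * M) * B) ^ C ∧
          ∀ (p : ℕ) [Fact p.Prime] (φ : ℂ →+* ℂ_[p]), ‖(D.n₀ : ℂ_[p])‖ ^ k *
            (‖φ (vE OO.subtype c D.e n₂ ((M₀ + 1) * (M + 1)) (D.ξ x) (D.η x) ya yb)‖ *
              max 1 ‖φ (D.ξ x)‖) ≤ 1) ∧
        ∀ s : ℂ ≃+* ℂ, ‖s (vE OO.subtype c D.e n₂ ((M₀ + 1) * (M + 1)) (D.ξ x) (D.η x) ya yb)‖ *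
          max 1 ‖s (D.ξ x)‖ ≤ Real.exp (((C : ℝ) * (M₀ * M) * B) ^ C) := by
  obtain ⟨C₂, h2⟩ := bnd_cn D Q
  obtain ⟨C₃, h3⟩ := bnd_cf D Q C₁
  obtain ⟨K, hK⟩ : ∃ K, K = 32 * (C₂ + C₃) + D.e + 8 := ⟨_, rfl⟩
  refine ⟨K, by omega, ?_⟩
  intro M₀ M hM₀ hM _ n₂ c B hB hn₂ hc hV x hx hxE ya yb hTp hTc hYp hYc
  have hL : 0 < M₀ * M := Nat.mul_pos hM₀.pos hM.pos
  have hLr : (1 : ℝ) ≤ ((M₀ * M : ℕ) : ℝ) := by exact_mod_cast hL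
  have hR := Bnd_R hM₀.one_lt.le hM.one_lt.le
  have hB0 : 0 ≤ B := zero_le_one.trans hB
  have hcast : ((M₀ : ℝ) * M) = ((M₀ * M : ℕ) : ℝ) := by push_cast; ring
  rw [hcast]
  set L := M₀ * M with hLd
  set R := (M₀ + 1) * (M + 1) with hRd
  have hR0 : (0 : ℝ) ≤ R := Nat.cast_nonneg R
  -- the polynomial bound
  have hU : 1 + n₂ + B + (L : ℝ) ^ 2 * R + ((R : ℝ) + 1) ^ 2 * L ≤ 32 * (L : ℝ) ^ 3 * B := by
    have a1 : (L : ℝ) ^ 2 * R ≤ 4 * (L : ℝ) ^ 3 := by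
      calc (L : ℝ) ^ 2 * R ≤ (L : ℝ) ^ 2 * (4 * L) := mul_le_mul_of_nonneg_left hR (by positivity)
        _ = 4 * (L : ℝ) ^ 3 := by ring
    have a2 : ((R : ℝ) + 1) ^ 2 * L ≤ 25 * (L : ℝ) ^ 3 := by
      have a3 : (R : ℝ) + 1 ≤ 5 * L := by linarith
      calc ((R : ℝ) + 1) ^ 2 * L ≤ (5 * L) ^ 2 * L := by gcongr
        _ = 25 * (L : ℝ) ^ 3 := by ring
    have a4 : (1 : ℝ) ≤ (L : ℝ) ^ 3 := one_le_pow₀ hLr
    have a5 : (L : ℝ) ^ 3 ≤ (L : ℝ) ^ 3 * B := le_mul_of_one_le_right (by positivity) hB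
    have a6 : B ≤ (L : ℝ) ^ 3 * B := le_mul_of_one_le_left hB0 a4
    have a7 : (1 : ℝ) ≤ (L : ℝ) ^ 3 * B := a4.trans a5
    nlinarith
  refine ⟨⟨D.e + 2 * L * R, ?_, ?_⟩, ?_⟩
  · refine Bnd_pow (K := D.e + 8) hLr hB (by omega) (by omega) ?_
    push_cast
    have b1 : (2 : ℝ) * L * R ≤ 8 * (L : ℝ) ^ 3 * B := by
      have c1 : (L : ℝ) * R ≤ 4 * (L : ℝ) ^ 2 := by nlinarith
      have c2 : (L : ℝ) ^ 2 ≤ (L : ℝ) ^ 3 := pow_le_pow_right₀ hLr (by norm_num)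
      have c3 : (L : ℝ) ^ 3 ≤ (L : ℝ) ^ 3 * B := le_mul_of_one_le_right (by positivity) hB
      nlinarith
    have b2 : (D.e : ℝ) ≤ D.e * ((L : ℝ) ^ 3 * B) := by
      refine le_mul_of_one_le_right (Nat.cast_nonneg _) ?_
      exact one_le_mul_of_one_le_of_one_le (one_le_pow₀ hLr) hB
    nlinarith
  · intro p _ φ
    exact bnd_p D Q hL hc hV hx hxE p φ (hTp p φ) (hYp p φ)
  · intro s
    have key : ∀ Cc : ℕ, Cc ≤ C₂ + C₃ →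
        (Cc : ℝ) * (1 + n₂ + B + (L : ℝ) ^ 2 * R + ((R : ℝ) + 1) ^ 2 * L) ≤
          ((K : ℝ) * L * B) ^ K := by
      intro Cc hCc
      refine Bnd_pow (K := 32 * Cc) hLr hB (by omega) (by omega) ?_
      push_cast
      calc (Cc : ℝ) * (1 + n₂ + B + (L : ℝ) ^ 2 * R + ((R : ℝ) + 1) ^ 2 * L)
          ≤ Cc * (32 * (L : ℝ) ^ 3 * B) := mul_le_mul_of_nonneg_left hU (Nat.cast_nonneg _)
        _ = 32 * Cc * (L : ℝ) ^ 3 * B := by ring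
    rcases le_total (Q.C : ℝ) ‖s (D.ξ x)‖ with h | h
    · exact (h2 hL hB0 hc.bd hV hx hxE s h (hTc s)).trans
        (Real.exp_le_exp.2 (key C₂ (by omega)))
    · exact (h3 hL hB0 hc hx hxE s h (hYc s).1 (hYc s).2).trans
        (Real.exp_le_exp.2 (key C₃ (by omega)))

end Pool.Agent.LGO.RU
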