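import Mathlib
import Pool.Agent.LGO.Gal.NCM

/-!
# LGO/RU: the lower left entry of the isogeny at a complex place where both coordinates are large

`CSP x y c`: `x = j(τ)`, `y = j(τ')`, `Im τ, Im τ' > 1`, `τ = g τ'` with a primitive integral matrix `g` of positive determinant, and `c = |g 1 0|`.

PROOFS.  `cs_unique`: let `τ₁, τ₁', g₁, c₁` be other data.  `j(τ) = j(τ₁)`, `Im > 1` for both: `τ₁ = τ + k`, `k` an integer (`j_inj`: `τ₁ = γ τ`, `γ ∈ SL₂(ℤ)`, `Im τ₁ = Im τ / |c τ + d| ^ 2`,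
and the same for the inverse: if `c ≠ 0` then `|c τ + d| ≥ |c| Im τ > 1` and `|-c τ₁ + a| > 1`, but the product of the two numbers is `1`; so `c = 0`), `τ₁' = τ' + k'`.  The matrix
`(1, k; 0, 1) g (1, -k'; 0, 1)` is primitive of the same determinant, it maps `τ₁'` to `τ₁`, and its lower left entry is `g 1 0`.  `NonCM.prim_unique` (`Gal/CM.lean`; `ncm_jInv`).
`cs_bd`: `g.det = mdeg y x = mdeg x y` (`det_eq_mdeg`, `mdeg_symm`), `Im τ = det g Im τ' / |c τ' + d| ^ 2`, `|c τ' + d| ≥ |c| Im τ'`, so `1 < Im τ ≤ det g / (c ^ 2 Im τ') ≤ det g / c ^ 2`.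
-/

namespace Pool.Agent.LGO.RU

open UpperHalfPlane Pool.Agent.Hhelper14.ZP Pool.Agent.Hhelper14.ZPL Pool.Agent.LGO

/-- `x = j(τ)`, `y = j(τ')`, `Im τ, Im τ' > 1`, `τ = g τ'`, `g` primitive of positive determinant with the lower left entry `± c` -/
def CSP (x y : ℂ) (c : ℕ) : Prop :=
  ∃ (τ τ' : ℍ) (g : Matrix (Fin 2) (Fin 2) ℤ), 1 < τ.im ∧ 1 < τ'.im ∧ jInv τ = x ∧ jInv τ' = y ∧
    0 < g.det ∧ Prim g ∧ Maps g (τ' : ℂ) (τ : ℂ) ∧ (g 1 0).natAbs = c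

private theorem CSDef_im {g : Matrix (Fin 2) (Fin 2) ℤ} {τ τ' : ℂ} (h : Maps g τ τ') :
    τ'.im * (((g 1 0 : ℝ) * τ.re + g 1 1) ^ 2 + ((g 1 0 : ℝ) * τ.im) ^ 2) =
      (g.det : ℝ) * τ.im := by
  rw [Maps, Complex.ext_iff] at h
  obtain ⟨h1, h2⟩ := h
  simp only [Complex.mul_re, Complex.mul_im, Complex.add_re, Complex.add_im, Complex.intCast_re,
    Complex.intCast_im, zero_mul, sub_zero, add_zero] at h1 h2
  rw [Matrix.det_fin_two]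
  push_cast
  linear_combination ((g 1 0 : ℝ) * τ.re + g 1 1) * h2 - ((g 1 0 : ℝ) * τ.im) * h1

private theorem CSDef_ge {g : Matrix (Fin 2) (Fin 2) ℤ} {τ τ' : ℍ} (h : Maps g (τ : ℂ) (τ' : ℂ))
    (hτ' : 1 < τ'.im) (hτ : 1 < τ.im) (h0 : g 1 0 ≠ 0) :
    ((g 1 0 : ℤ) : ℝ) ^ 2 < (g.det : ℝ) := by
  have h1 := CSDef_im h
  rw [UpperHalfPlane.coe_im, UpperHalfPlane.coe_im, UpperHalfPlane.coe_re] at h1
  have h2 : (0 : ℝ) < ((g 1 0 : ℤ) : ℝ) ^ 2 := by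
    have : ((g 1 0 : ℤ) : ℝ) ≠ 0 := by exact_mod_cast h0
    positivity
  have hy : (0 : ℝ) < τ.im := by linarith
  have h3 : ((g 1 0 : ℤ) : ℝ) ^ 2 * τ.im ^ 2 < (g.det : ℝ) * τ.im := by
    rw [← h1]
    have h4 : ((g 1 0 : ℤ) : ℝ) ^ 2 * τ.im ^ 2 ≤
        ((g 1 0 : ℝ) * τ.re + g 1 1) ^ 2 + ((g 1 0 : ℝ) * τ.im) ^ 2 := by
      rw [mul_pow]
      linarith [sq_nonneg ((g 1 0 : ℝ) * τ.re + g 1 1)]
    have h5 : 0 < ((g 1 0 : ℤ) : ℝ) ^ 2 * τ.im ^ 2 := by positivity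
    have h6 : 0 < ((g 1 0 : ℝ) * τ.re + g 1 1) ^ 2 + ((g 1 0 : ℝ) * τ.im) ^ 2 :=
      lt_of_lt_of_le h5 h4
    nlinarith
  have h4 : ((g 1 0 : ℤ) : ℝ) ^ 2 * τ.im < (g.det : ℝ) := by
    have h5 : (((g 1 0 : ℤ) : ℝ) ^ 2 * τ.im) * τ.im < (g.det : ℝ) * τ.im := by
      calc _ = ((g 1 0 : ℤ) : ℝ) ^ 2 * τ.im ^ 2 := by ring
        _ < _ := h3
    exact lt_of_mul_lt_mul_right h5 hy.le
  nlinarith

private theorem CSDef_shift {τ τ₁ : ℍ} (hτ : 1 < τ.im) (hτ₁ : 1 < τ₁.im) (h : jInv τ = jInv τ₁) :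
    ∃ k : ℤ, (τ₁ : ℂ) = τ + k := by
  obtain ⟨γ, hγ⟩ := Pool.Agent.LGO.Gal.j_inj h
  have hm : Maps γ.1 (τ₁ : ℂ) (τ : ℂ) := by
    rw [hγ]
    exact Pool.Agent.LGO.Gal.maps_sl γ τ₁
  have hdet : γ.1.det = 1 := γ.2
  have hc : γ.1 1 0 = 0 := by
    by_contra hcon
    have h1 := CSDef_ge hm hτ hτ₁ hcon
    rw [hdet, Int.cast_one] at h1
    have h2 : (1 : ℝ) ≤ ((γ.1 1 0 : ℤ) : ℝ) ^ 2 := by
      have h3 : (1 : ℤ) ≤ (γ.1 1 0) ^ 2 := by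
        have := sq_pos_of_ne_zero hcon
        omega
      exact_mod_cast h3
    linarith
  rw [Matrix.det_fin_two, hc, mul_zero, sub_zero] at hdet
  rw [Maps, hc, Int.cast_zero, zero_mul, zero_add] at hm
  rcases Int.mul_eq_one_iff_eq_one_or_neg_one.1 hdet with ⟨h1, h2⟩ | ⟨h1, h2⟩
  · refine ⟨-γ.1 0 1, ?_⟩
    rw [h1, h2] at hm
    push_cast at hm ⊢
    linear_combination -hm
  · refine ⟨γ.1 0 1, ?_⟩
    rw [h1, h2] at hm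
    push_cast at hm ⊢
    linear_combination hm

private theorem CSDef_ncm {x y : ℂ} (hx : NCM x) {τ τ' : ℍ} {g : Matrix (Fin 2) (Fin 2) ℤ}
    (hτ : jInv τ = x) (hτ' : jInv τ' = y) (hd : 0 < g.det) (hm : Maps g (τ' : ℂ) (τ : ℂ)) :
    NonCM (τ' : ℂ) := by
  have h1 : IsogDeg g.det.toNat y x :=
    ⟨τ', τ, g, (Int.toNat_of_nonneg hd.le).symm, hm, hτ'.symm, hτ.symm⟩
  have h2 : NCM y := NCM.of_isog (by omega) h1.symm hx
  rw [← hτ'] at h2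
  exact (ncm_jInv τ').1 h2

theorem cs_unique {x y : ℂ} (hx : NCM x) {c c' : ℕ} (h : CSP x y c) (h' : CSP x y c') : c = c' := by
  obtain ⟨τ, τ', g, hi, hi', hj, hj', hd, hp, hm, rfl⟩ := h
  obtain ⟨τ₁, τ₁', g₁, hi₁, hi₁', hj₁, hj₁', hd₁, hp₁, hm₁, rfl⟩ := h'
  obtain ⟨k, hk⟩ := CSDef_shift hi hi₁ (hj.trans hj₁.symm)
  obtain ⟨k', hk'⟩ := CSDef_shift hi' hi₁' (hj'.trans hj₁'.symm)
  let g₂ : Matrix (Fin 2) (Fin 2) ℤ :=
    !![g₁ 0 0 - k * g₁ 1 0, (g₁ 0 0 - k * g₁ 1 0) * k' + g₁ 0 1 - k * g₁ 1 1;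
      g₁ 1 0, g₁ 1 0 * k' + g₁ 1 1]
  have e00 : g₂ 0 0 = g₁ 0 0 - k * g₁ 1 0 := rfl
  have e01 : g₂ 0 1 = (g₁ 0 0 - k * g₁ 1 0) * k' + g₁ 0 1 - k * g₁ 1 1 := rfl
  have e10 : g₂ 1 0 = g₁ 1 0 := rfl
  have e11 : g₂ 1 1 = g₁ 1 0 * k' + g₁ 1 1 := rfl
  have hm₂ : Maps g₂ (τ' : ℂ) (τ : ℂ) := by
    rw [Maps, hk, hk'] at hm₁
    rw [Maps, e00, e01, e10, e11]
    push_cast
    linear_combination hm₁
  have hp₂ : Prim g₂ := by
    intro d hd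
    have d00 := hd 0 0
    have d01 := hd 0 1
    have d10 := hd 1 0
    have d11 := hd 1 1
    rw [e00] at d00
    rw [e01] at d01
    rw [e10] at d10
    rw [e11] at d11
    have f00 : (d : ℤ) ∣ g₁ 0 0 := by
      have := dvd_add d00 (Dvd.dvd.mul_left d10 k)
      rwa [sub_add_cancel] at this
    have f11 : (d : ℤ) ∣ g₁ 1 1 := by
      have := dvd_sub d11 (Dvd.dvd.mul_right d10 k')
      rwa [add_sub_cancel_left] at this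
    have f01 : (d : ℤ) ∣ g₁ 0 1 := by
      have h1 := dvd_sub d01 (Dvd.dvd.mul_right d00 k')
      have h2 := dvd_add h1 (Dvd.dvd.mul_left f11 k)
      have h3 : (g₁ 0 0 - k * g₁ 1 0) * k' + g₁ 0 1 - k * g₁ 1 1 - (g₁ 0 0 - k * g₁ 1 0) * k' +
          k * g₁ 1 1 = g₁ 0 1 := by ring
      rwa [h3] at h2
    refine hp₁ d fun i j => ?_
    fin_cases i <;> fin_cases j
    · exact f00
    · exact f01
    · exact d10
    · exact f11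
  have hn := CSDef_ncm hx hj hj' hd hm
  rcases hn.prim_unique hm hm₂ hd hp hp₂ with h1 | h1
  · rw [← e10, h1]
  · rw [← e10, h1, Matrix.neg_apply, Int.natAbs_neg]

theorem cs_bd {x y : ℂ} (hx : NCM x) {c : ℕ} (h : CSP x y c) : c ^ 2 ≤ mdeg x y := by
  obtain ⟨τ, τ', g, hi, hi', hj, hj', hd, hp, hm, rfl⟩ := h
  have hn := CSDef_ncm hx hj hj' hd hm
  have h1 := det_eq_mdeg hn hd hp hm
  rw [hj, hj', mdeg_symm] at h1
  by_cases h0 : g 1 0 = 0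
  · rw [h0]
    simp
  · have h2 := CSDef_ge hm hi hi' h0
    have h3 : (g 1 0) ^ 2 < g.det := by exact_mod_cast h2
    rw [h1] at h3
    zify
    rw [sq_abs]
    exact h3.le

end Pool.Agent.LGO.RU
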