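import Mathlib
import Pool.Agent.LGO.RU.CSDef
import Pool.Agent.LGO.H.BdC

/-!
# LGO/RU: the product of the lower left entries over all conjugates

PROOF.  For a homomorphism `σ : K →ₐ[ℚ] ℂ` let `f σ` be the number `c ≠ 0` with `CSP (σ x) (σ y) c` if there is one (unique: `cs_unique`), `f σ = 1` otherwise.  `P = ∏ σ, f σ`
(`finrank ℚ K` factors, `AlgHom.card`).  For an automorphism `s` of `ℂ` let `σ` be its restriction to `K`: `s x = σ x`, `s y = σ y`.  `f σ ≤ mdeg x y`: `cs_bd` for `s x`, `s y`,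
`mdeg_map`, and every `σ` is the restriction of an automorphism (`exists_aut`, `LGO/Mul/Ht.lean`, or see `LGO/PA/FldI.lean`); `NCM.map`.
-/

namespace Pool.Agent.LGO.RU

open UpperHalfPlane Pool.Agent.Hhelper14.ZP Pool.Agent.Hhelper14.ZPL Pool.Agent.LGO

open Classical in
/-- the number `c ≠ 0` with `CSP u v c` if there is one, otherwise `1` -/
private noncomputable def CSProd_f (u v : ℂ) : ℕ :=
  if h : ∃ c : ℕ, CSP u v c ∧ c ≠ 0 then h.choose else 1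

private theorem CSProd_f_pos (u v : ℂ) : 0 < CSProd_f u v := by
  unfold CSProd_f
  split_ifs with h
  · exact Nat.pos_of_ne_zero h.choose_spec.2
  · exact one_pos

private theorem CSProd_f_eq {u v : ℂ} (hu : NCM u) {c : ℕ} (h : CSP u v c) (hc : c ≠ 0) :
    CSProd_f u v = c := by
  unfold CSProd_f
  have h1 : ∃ c : ℕ, CSP u v c ∧ c ≠ 0 := ⟨c, h, hc⟩
  rw [dif_pos h1]
  exact cs_unique hu h1.choose_spec.1 h

private theorem CSProd_f_le {u v : ℂ} (hu : NCM u) (hm : 0 < mdeg u v) : CSProd_f u v ≤ mdeg u v := by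
  unfold CSProd_f
  split_ifs with h
  · exact (Nat.le_self_pow two_ne_zero _).trans (cs_bd hu h.choose_spec.1)
  · exact hm

theorem cs_prod (K : IntermediateField ℚ ℂ) [FiniteDimensional ℚ K] {x y : ℂ} (hx : x ∈ K)
    (hy : y ∈ K) (hn : NCM x) (h : HeckeRel x y) : ∃ P : ℕ, 0 < P ∧
      P ≤ mdeg x y ^ Module.finrank ℚ K ∧
      ∀ (s : ℂ ≃+* ℂ) (c : ℕ), CSP (s x) (s y) c → c ≠ 0 → c ∣ P := by
  have hm : 0 < mdeg x y := mdeg_pos (heckeRel_iff.mp h)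
  refine ⟨∏ σ : K →ₐ[ℚ] ℂ, CSProd_f (σ ⟨x, hx⟩) (σ ⟨y, hy⟩),
    Finset.prod_pos fun σ _ => CSProd_f_pos _ _, ?_, ?_⟩
  · have h1 : ∀ σ ∈ (Finset.univ : Finset (K →ₐ[ℚ] ℂ)),
        CSProd_f (σ ⟨x, hx⟩) (σ ⟨y, hy⟩) ≤ mdeg x y := by
      intro σ _
      obtain ⟨s, hs⟩ := exists_aut K (σ : K →+* ℂ)
      have hsx : σ ⟨x, hx⟩ = s x := (hs ⟨x, hx⟩).symm
      have hsy : σ ⟨y, hy⟩ = s y := (hs ⟨y, hy⟩).symm
      rw [hsx, hsy, ← mdeg_map s x y]
      refine CSProd_f_le (hn.map s) ?_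
      rw [mdeg_map]
      exact hm
    have h2 := Finset.prod_le_pow_card Finset.univ _ _ h1
    rwa [Finset.card_univ, AlgHom.card] at h2
  · intro s c hc hc0
    set σ : K →ₐ[ℚ] ℂ := RingHom.toRatAlgHom ((s : ℂ →+* ℂ).comp (algebraMap K ℂ)) with hσ
    have hsx : σ ⟨x, hx⟩ = s x := rfl
    have hsy : σ ⟨y, hy⟩ = s y := rfl
    have h1 : CSProd_f (σ ⟨x, hx⟩) (σ ⟨y, hy⟩) = c := by
      rw [hsx, hsy]
      exact CSProd_f_eq (hn.map s) hc hc0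
    rw [← h1]
    exact Finset.dvd_prod_of_mem (fun σ : K →ₐ[ℚ] ℂ => CSProd_f (σ ⟨x, hx⟩) (σ ⟨y, hy⟩)) (Finset.mem_univ σ)

end Pool.Agent.LGO.RU
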