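import Mathlib
import Pool.Agent.LGO.Gal.NCM

/-!
# LGO/RU: level pairs, note 3151, section (1)

PROOF.  `N = mdeg x y`.  `x = j(τ)`, `y = j(τ')`, `exists_prim_mdeg`: `g`, `det g = N`, `Maps g τ τ'`.  `A = (L, 0; 0, 1)`, `τ₁ = A τ`, `ya = j(τ₁)`.  `h = g adj(A)` (`det h = L N`) maps `τ₁` to `τ'`
(`Maps.adj`, `Maps.mul`).  FACTORIZATION: an integral matrix `h` of determinant `L N`, `L` and `N` coprime and positive, is `h = B h'` with `det B = L`, `det h' = N` (Hermite form: `h = γ T γ'`, or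
only `h = γ T`, `γ ∈ SL₂(ℤ)`, `T = (a, b; 0, d)`, `a d = L N`; `a = a₁ a₂`, `d = d₁ d₂`, `a₁ d₁ = L`, `a₂ d₂ = N` (gcd with `L` and `N`); `(a₁, b₁; 0, d₁) (a₂, b₂; 0, d₂) = (a, a₁ b₂ + b₁ d₂; 0, d)`
and `a₁`, `d₂` are coprime).  `τ₁' = h' τ₁`, `yb = j(τ₁')`: `IsogDeg N ya yb` and `IsogDeg L yb y` (`B` maps `τ₁'` to `τ'`), `IsogDeg.symm`.
`mdeg ya yb = N`: `m = mdeg ya yb`; `isogDeg_iff_mdeg`: `N = k ^ 2 m` (`NCM.of_isog`), and `IsogDeg (L * m * L) x y`: `L ^ 2 m = k' ^ 2 N = k' ^ 2 k ^ 2 m`, so `k ∣ L` and `k ∣ N`, `k = 1`.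
-/

namespace Pool.Agent.LGO.RU

open UpperHalfPlane Pool.Agent.Hhelper14.ZP Pool.Agent.Hhelper14.ZPL Pool.Agent.LGO

/-- an integral matrix `B` of determinant `L` with `B g adj (L, 0; 0, 1)` divisible by `L` -/
private theorem Lev_mat (g : Matrix (Fin 2) (Fin 2) ℤ) (hg : g.det ≠ 0) (L : ℤ) :
    ∃ B g' : Matrix (Fin 2) (Fin 2) ℤ, B.det = L ∧ g'.det = g.det ∧
      B * (g * (!![L, 0; 0, 1] : Matrix (Fin 2) (Fin 2) ℤ).adjugate) = L • g' := by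
  have hc : 0 < Int.gcd (g 0 0) (g 1 0) := by
    rw [Int.gcd_pos_iff]
    by_contra h0
    push Not at h0
    apply hg
    rw [Matrix.det_fin_two, h0.1, h0.2]
    ring
  obtain ⟨p, q, hpq, hp, hq⟩ := Int.exists_gcd_one hc
  set c : ℤ := (Int.gcd (g 0 0) (g 1 0) : ℤ) with hcdef
  obtain ⟨u, v, huv⟩ : IsCoprime p q := Int.isCoprime_iff_gcd_eq_one.2 hpq
  refine ⟨!![q, -p; L * u, L * v],
    !![0, q * g 0 1 - p * g 1 1; c, L * (u * g 0 1 + v * g 1 1)], ?_, ?_, ?_⟩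
  · rw [Matrix.det_fin_two_of]
    linear_combination L * huv
  · rw [Matrix.det_fin_two_of, Matrix.det_fin_two, hp, hq]
    ring
  · rw [Matrix.adjugate_fin_two_of]
    ext i j
    fin_cases i <;> fin_cases j
    · simp [Matrix.mul_apply, Fin.sum_univ_two, hp, hq]
      ring
    · simp [Matrix.mul_apply, Fin.sum_univ_two]
      ring
    · simp [Matrix.mul_apply, Fin.sum_univ_two, hp, hq]
      linear_combination L * c * huv
    · simp [Matrix.mul_apply, Fin.sum_univ_two]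
      ring

theorem lev {x y : ℂ} {L : ℕ} (hL : 0 < L) (hx : NCM x) (h : HeckeRel x y)
    (hc : L.Coprime (mdeg x y)) : ∃ ya yb : ℂ, IsogDeg L x ya ∧ IsogDeg L y yb ∧
      mdeg ya yb = mdeg x y := by
  obtain ⟨τ, rfl⟩ := j_surj x
  obtain ⟨τ', rfl⟩ := j_surj y
  have h0 := heckeRel_iff.mp h
  obtain ⟨g, hgN, hgpos, -, hm⟩ := exists_prim_mdeg h0
  have hL' : (L : ℤ) ≠ 0 := by exact_mod_cast hL.ne'
  obtain ⟨B, g', hB, hg', hBg⟩ := Lev_mat g hgpos.ne' L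
  set N := mdeg (jInv τ) (jInv τ') with hN
  have hNpos : 0 < N := mdeg_pos h0
  have hA : (!![(L : ℤ), 0; 0, 1] : Matrix (Fin 2) (Fin 2) ℤ).det = (L : ℤ) := by
    rw [Matrix.det_fin_two_of]
    ring
  set τ₁ := act hL (mkDD _ hA) τ with hτ₁
  set τ₂ := act hL (mkDD B hB) τ' with hτ₂
  have m1 : Maps !![(L : ℤ), 0; 0, 1] τ τ₁ := Gal.maps_act hL (mkDD _ hA) τ
  have m2 : Maps B τ' τ₂ := Gal.maps_act hL (mkDD B hB) τ'
  have m3 : Maps g' τ₁ τ₂ := by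
    have h1 := (m1.adj.mul hm).mul m2
    rw [hBg] at h1
    exact (Maps.smul_iff hL').mp h1
  have i1 : IsogDeg L (jInv τ) (jInv τ₁) := ⟨τ, τ₁, _, hA, m1, rfl, rfl⟩
  have i2 : IsogDeg L (jInv τ') (jInv τ₂) := ⟨τ', τ₂, _, hB, m2, rfl, rfl⟩
  have i3 : IsogDeg N (jInv τ₁) (jInv τ₂) := ⟨τ₁, τ₂, g', by rw [hg', hgN], m3, rfl, rfl⟩
  refine ⟨jInv τ₁, jInv τ₂, i1, i2, ?_⟩
  have hx1 : NCM (jInv τ₁) := NCM.of_isog hL i1 hx
  obtain ⟨k, hk, hkN⟩ := (isogDeg_iff_mdeg hx1 hNpos i3 hNpos).mp i3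
  have hs := mdeg_spec ⟨N, hNpos, i3⟩
  set m := mdeg (jInv τ₁) (jInv τ₂) with hmdef
  have i4 : IsogDeg (L * m * L) (jInv τ) (jInv τ') :=
    ((i1.trans hs.1 hs.2).trans hL i2.symm)
  have hpos : 0 < L * m * L := Nat.mul_pos (Nat.mul_pos hL hs.1) hL
  obtain ⟨k', hk', hk'N⟩ := (isogDeg_iff_mdeg hx hpos i4 hpos).mp i4
  rw [← hN] at hk'N
  have e1 : L ^ 2 = (k' * k) ^ 2 := by
    have e2 : L ^ 2 * m = (k' * k) ^ 2 * m := by
      calc L ^ 2 * m = L * m * L := by ring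
        _ = k' ^ 2 * N := hk'N
        _ = k' ^ 2 * (k ^ 2 * m) := by rw [← hkN]
        _ = (k' * k) ^ 2 * m := by ring
    exact Nat.eq_of_mul_eq_mul_right hs.1 e2
  have e3 : L = k' * k := Nat.pow_left_injective two_ne_zero e1
  have e4 : k ∣ L := ⟨k', by rw [e3, mul_comm]⟩
  have e5 : k ∣ N := by
    rw [hkN]
    exact Dvd.dvd.mul_right (dvd_pow_self k two_ne_zero) m
  have e6 : k = 1 := Nat.eq_one_of_dvd_coprimes hc e4 e5
  rw [e6, one_pow, one_mul] at hkN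
  exact hkN.symm

end Pool.Agent.LGO.RU
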