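import Mathlib
import Pool.Agent.LGO.CP.TateP
import Pool.Agent.LGO.PA.Dom
import Pool.Agent.LGO.Gal.NCM
import Pool.Agent.LGO.H.JSize
import Pool.Agent.LGO.Q.Ent

/-!
# LGO/RU: the size of an isogenous invariant

PROOFS.  `lev_p`: if `‖φ x‖ ≤ 1`: `PA.isog_norm`.  Otherwise `jP_surj`: `φ x = jP q`, `CP.link_x` (or `tate_pair`) for the degree `L`: `q' ^ d = q ^ a`, `a d = L`, `φ y = jP q'`, `jP_norm`:
`‖φ y‖ ^ d = ‖φ x‖ ^ a`, so `‖φ y‖ ≤ ‖φ x‖ ^ a ≤ ‖φ x‖ ^ L`.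
`lev_c`: `IsogDeg L (s x) (s y)`; `s x = j(τ)` with `τ` in the fundamental domain (`exists_red`), `s y = j(τ'')` with `τ''` in the fundamental domain, `τ'' = g τ`, `det g = L`: `Im τ'' = L Im τ / |c τ + d| ^ 2`, which
is `≤ L Im τ` if `c = 0` and `≤ L / Im τ ≤ L max(Im τ, 2)` if `c ≠ 0` (`Im τ ≥ √3 / 2`).  `|j(z)|` for `z` in the fundamental domain is `≤ exp (2 π Im z) + 2079`, and `exp (2 π Im z) ≤ |j(z)| + 2079`
(look for the existing estimates of `j` in the fundamental domain, e.g. in `LGO/H`, `LGO/Gal`, `LGO/CP/ArchY.lean`, `LGO/TG/YArch.lean`).  ANY constant `C` independent of everything is fine, but the exponent must be `2 * L` (exponent `L` times a constant to the power `L` is what comes out).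
-/

namespace Pool.Agent.LGO.RU

open UpperHalfPlane Pool.Agent.Hhelper14.ZP Pool.Agent.Hhelper14.ZPL Pool.Agent.LGO
  Pool.Agent.LGO.PA

theorem lev_p {p : ℕ} [Fact p.Prime] (φ : ℂ →+* ℂ_[p]) {x y : ℂ} {L : ℕ} (hL : 0 < L)
    (h : IsogDeg L x y) : ‖φ y‖ ≤ max 1 ‖φ x‖ ^ L := by
  have hex : ∃ N, 0 < N ∧ IsogDeg N x y := ⟨L, hL, h⟩
  rcases le_or_gt ‖φ x‖ 1 with hx | hx
  · rw [max_eq_left hx, one_pow]
    exact (isog_norm φ hex).1 hx
  · rw [max_eq_right hx.le]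
    obtain ⟨q, hq0, hq, hj⟩ := jP_surj hx
    obtain ⟨a, d, q', ha, hd, had, hq'0, hq', hpow, hy⟩ :=
      Pool.Agent.LGO.CP.tate_pair φ hex hq0 hq hj.symm
    have haL : a ≤ L := by
      have h1 : a ≤ a * d := Nat.le_mul_of_pos_right a hd
      rw [had] at h1
      exact h1.trans (mdeg_le hL h)
    have hnx : ‖φ x‖ = ‖q‖⁻¹ := by rw [← hj, jP_norm hq0 hq]
    have hny : ‖φ y‖ = ‖q'‖⁻¹ := by rw [hy, jP_norm hq'0 hq']
    have h2 : ‖φ y‖ ^ d = ‖φ x‖ ^ a := by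
      rw [hnx, hny, inv_pow, inv_pow, ← norm_pow, ← norm_pow, hpow]
    have h3 : 1 ≤ ‖φ y‖ := by
      rw [hny]
      exact (one_le_inv₀ hq'0).2 hq'.le
    calc ‖φ y‖ ≤ ‖φ y‖ ^ d := le_self_pow₀ h3 hd.ne'
      _ = ‖φ x‖ ^ a := h2
      _ ≤ ‖φ x‖ ^ L := pow_le_pow_right₀ hx.le haL

private theorem LevB_im {L : ℕ} (hL : 0 < L) {τ τ' : ℍ} (hτ : Red (τ : ℂ))
    {g : Matrix (Fin 2) (Fin 2) ℤ} (hg : g.det = L) (hm : Maps g (τ : ℂ) (τ' : ℂ)) :
    τ'.im ≤ L * (τ.im + 2) := by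
  have hsq := norm_sq_denom hm
  rw [hg] at hsq
  push_cast at hsq
  have e1 : (τ : ℂ).im = τ.im := rfl
  have e2 : (τ' : ℂ).im = τ'.im := rfl
  rw [e1, e2] at hsq
  have hLR : (1 : ℝ) ≤ L := by exact_mod_cast hL
  have ht0 : 0 < τ.im := τ.im_pos
  have ht0' : 0 < τ'.im := τ'.im_pos
  have hhalf : 1 / 2 ≤ τ.im := by
    have h1 : √3 / 2 ≤ τ.im := hτ.half_le
    have h2 : (1 : ℝ) ≤ √3 := by
      apply Real.le_sqrt_of_sq_le
      norm_num
    linarith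
  obtain ⟨J, hJ⟩ : ∃ J : ℝ, J = ‖(g 1 0 : ℂ) * (τ : ℂ) + (g 1 1 : ℂ)‖ := ⟨_, rfl⟩
  rw [← hJ] at hsq
  by_cases hc : g 1 0 = 0
  · have hd0 : g 1 1 ≠ 0 := by
      intro hd
      rw [Matrix.det_fin_two, hc, hd] at hg
      simp at hg
      omega
    have h1 : 1 ≤ J := by
      rw [hJ, hc, Int.cast_zero, zero_mul, zero_add, Complex.norm_intCast]
      exact_mod_cast Int.one_le_abs hd0
    have h2 : τ'.im ≤ J ^ 2 * τ'.im := by
      have : 1 ≤ J ^ 2 := one_le_pow₀ h1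
      nlinarith
    rw [hsq] at h2
    nlinarith
  · have h1 : τ.im ≤ J := by
      have h2 : |((g 1 0 : ℂ) * (τ : ℂ) + (g 1 1 : ℂ)).im| ≤ J := by
        rw [hJ]
        exact Complex.abs_im_le_norm _
      have h3 : ((g 1 0 : ℂ) * (τ : ℂ) + (g 1 1 : ℂ)).im = (g 1 0 : ℝ) * τ.im := by
        simp
      rw [h3, abs_mul, abs_of_pos ht0] at h2
      have h4 : (1 : ℝ) ≤ |(g 1 0 : ℝ)| := by exact_mod_cast Int.one_le_abs hc
      nlinarith
    have h2 : τ.im ^ 2 * τ'.im ≤ L * τ.im := by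
      rw [← hsq]
      exact mul_le_mul_of_nonneg_right (pow_le_pow_left₀ ht0.le h1 2) ht0'.le
    have h3 : τ.im * τ'.im ≤ L := by
      have h4 : τ.im * (τ.im * τ'.im) ≤ τ.im * L := by nlinarith
      exact le_of_mul_le_mul_left h4 ht0
    nlinarith

theorem lev_c : ∃ C : ℕ, 0 < C ∧ ∀ (s : ℂ ≃+* ℂ) (x y : ℂ) (L : ℕ), 0 < L → IsogDeg L x y →
    ‖s y‖ ≤ (C * max 1 ‖s x‖) ^ (2 * L) := by
  obtain ⟨C1, hC1, hj⟩ := norm_j_le
  obtain ⟨C2, hC2, he⟩ := exp_im_le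
  obtain ⟨C, hC⟩ := exists_nat_ge (1 + C1 + 2 * C2 * Real.exp (4 * Real.pi))
  have hE : 0 < Real.exp (4 * Real.pi) := Real.exp_pos _
  have hCE : 0 < 2 * C2 * Real.exp (4 * Real.pi) := by positivity
  have hC1C : C1 ≤ C := by linarith
  have hC2C : 2 * C2 * Real.exp (4 * Real.pi) ≤ C := by linarith
  have hCR : (1 : ℝ) ≤ C := by linarith
  refine ⟨C, by exact_mod_cast (by linarith : (0 : ℝ) < C), fun s x y L hL h => ?_⟩
  have h0 := isogDeg_map s hL h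
  obtain ⟨τ, hτ, hx⟩ := exists_red (s x)
  obtain ⟨τ', hτ', hy⟩ := exists_red (s y)
  rw [← hx, ← hy, Gal.isogDeg_iff_maps hL] at h0
  obtain ⟨g, hg, hm⟩ := h0
  have him := LevB_im hL hτ hg hm
  have hy1 := hj τ' hτ'
  have hx1 := he τ hτ
  rw [hx] at hx1
  rw [hy] at hy1
  obtain ⟨m, hmd⟩ : ∃ m : ℝ, m = max 1 ‖s x‖ := ⟨_, rfl⟩
  rw [← hmd]
  have hm1 : 1 ≤ m := by rw [hmd]; exact le_max_left _ _
  have hm2 : ‖s x‖ ≤ m := by rw [hmd]; exact le_max_right _ _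
  have hCm : 1 ≤ C * m := by nlinarith
  have hCm' : (C : ℝ) ≤ C * m := le_mul_of_one_le_right (by linarith) hm1
  have h1 : Real.exp (2 * Real.pi * τ'.im) ≤ (C * m) ^ L := by
    have h2 : 2 * Real.pi * τ'.im ≤ L * (2 * Real.pi * τ.im + 4 * Real.pi) := by
      have := mul_le_mul_of_nonneg_left him (by positivity : (0 : ℝ) ≤ 2 * Real.pi)
      calc 2 * Real.pi * τ'.im ≤ 2 * Real.pi * (L * (τ.im + 2)) := this
        _ = L * (2 * Real.pi * τ.im + 4 * Real.pi) := by ring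
    calc Real.exp (2 * Real.pi * τ'.im) ≤ Real.exp (L * (2 * Real.pi * τ.im + 4 * Real.pi)) :=
          Real.exp_le_exp.2 h2
      _ = (Real.exp (2 * Real.pi * τ.im) * Real.exp (4 * Real.pi)) ^ L := by
          rw [← Real.exp_add, ← Real.exp_nat_mul]
      _ ≤ (C * m) ^ L := by
          refine pow_le_pow_left₀ (by positivity) ?_ L
          calc Real.exp (2 * Real.pi * τ.im) * Real.exp (4 * Real.pi)
              ≤ (C2 * (1 + ‖s x‖)) * Real.exp (4 * Real.pi) :=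
                mul_le_mul_of_nonneg_right hx1 hE.le
            _ ≤ (C2 * (2 * m)) * Real.exp (4 * Real.pi) :=
                mul_le_mul_of_nonneg_right (mul_le_mul_of_nonneg_left (by linarith) hC2.le) hE.le
            _ = (2 * C2 * Real.exp (4 * Real.pi)) * m := by ring
            _ ≤ C * m := mul_le_mul_of_nonneg_right hC2C (by linarith)
  calc ‖s y‖ ≤ C1 * Real.exp (2 * Real.pi * τ'.im) := hy1
    _ ≤ (C * m) ^ L * (C * m) ^ L := by
        refine mul_le_mul ?_ h1 (Real.exp_pos _).le (by positivity)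
        calc C1 ≤ C * m := hC1C.trans hCm'
          _ ≤ (C * m) ^ L := le_self_pow₀ hCm hL.ne'
    _ = (C * m) ^ (2 * L) := by rw [← pow_add]; congr 1; ring

end Pool.Agent.LGO.RU
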