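import Mathlib
import Pool.Agent.LGO.RU.Defs
import Pool.Agent.LGO.PC.BdLoc
import Pool.Agent.LGO.ZV.Root
import Pool.Agent.LGO.PA.QInt

/-!
# LGO/RU: the two cases, `F_P ≠ 0` and `F_P = 0`
-/

namespace Pool.Agent.LGO.RU

open Pool.Agent.Hhelper14.ZP Pool.Agent.LGO Pool.Agent.LGO.PC Pool.Agent.LGO.ZV

/-- `F_P ≠ 0` -/
theorem case_ne (K : IntermediateField ℚ ℂ) [FiniteDimensional ℚ K] {y F : ℂ} (hy : y ∈ K)
    (hF : F ∈ K) (hF0 : F ≠ 0) {n₀ k : ℕ} (hn : 0 < n₀) {S : ℝ}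
    (hp : ∀ (p : ℕ) [Fact p.Prime] (φ : ℂ →+* ℂ_[p]),
      ‖(n₀ : ℂ_[p])‖ ^ k * (‖φ F‖ * max 1 ‖φ y‖) ≤ 1)
    (hc : ∀ s : ℂ ≃+* ℂ, ‖s F‖ * max 1 ‖s y‖ ≤ Real.exp S) :
    Bd K (Module.finrank ℚ K * (S + k * Real.log n₀)) y := by
  have h := bd_of_loc K hy (K.inv_mem hF) (inv_ne_zero hF0) (n := n₀ ^ k) (pow_pos hn k) (M := S)
    (k := 1) one_pos ?_ ?_
  · refine h.mono (le_of_eq ?_)
    push_cast
    rw [Real.log_pow]
    ring
  · intro p _ φ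
    have h0 : 0 < ‖φ F‖ := norm_pos_iff.2 ((map_ne_zero φ).2 hF0)
    rw [map_inv₀, norm_inv, le_inv_comm₀ ?_ h0]
    · have h1 := hp p φ
      push_cast
      rw [norm_pow]
      have h2 : 0 < ‖(n₀ : ℂ_[p])‖ ^ k := by
        have : (n₀ : ℂ_[p]) ≠ 0 := by exact_mod_cast hn.ne'
        positivity
      have h3 : 0 < max 1 ‖φ y‖ := lt_of_lt_of_le one_pos (le_max_left _ _)
      rw [← one_div, le_div_iff₀ (mul_pos h2 h3)]
      linarith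
    · have : ((n₀ ^ k : ℕ) : ℂ_[p]) ≠ 0 := by exact_mod_cast (pow_pos hn k).ne'
      have h3 : 0 < max 1 ‖φ y‖ := lt_of_lt_of_le one_pos (le_max_left _ _)
      exact mul_pos (norm_pos_iff.2 this) h3
  · intro s
    have h0 : 0 < ‖s F‖ := norm_pos_iff.2 ((map_ne_zero s).2 hF0)
    rw [pow_one, map_inv₀, norm_inv, ← div_eq_mul_inv, le_div_iff₀ h0]
    linarith [hc s]

/-- `F_P = 0` -/
theorem case_zero {K₀ K : IntermediateField ℚ ℂ} [FiniteDimensional ℚ K] (hK : K₀ ≤ K) {y : ℂ}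
    (hy : y ∈ K) (p : ℕ → OO) (I : ℕ) {T : ℝ} (hT : 0 ≤ T) (hne : ∃ j < I, p j ≠ 0)
    (hK₀ : ∀ j, ((p j : OO) : ℂ) ∈ K₀)
    (hb : ∀ j (s : ℂ ≃+* ℂ), ‖s ((p j : OO) : ℂ)‖ ≤ Real.exp T)
    (h0 : ∑ j ∈ Finset.range I, ((p j : OO) : ℂ) * y ^ j = 0) :
    Bd K (I * (1 + (1 + 2 * Module.finrank ℚ K) * T)) y := by
  classical
  have hbd : ∀ j, Bd K T ((p j : OO) : ℂ) := by
    intro j
    refine ⟨hK (hK₀ j), ⟨1, one_pos, ?_, ?_⟩, fun σ => ?_⟩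
    · simpa using Real.one_le_exp hT
    · rw [Nat.cast_one, one_mul]
      exact (p j).2
    · obtain ⟨s, hs⟩ := exists_aut K σ
      rw [← hs ⟨_, hK (hK₀ j)⟩]
      exact hb j s
  obtain ⟨j₀, hj₀, hj₀'⟩ := hne
  -- the largest index
  obtain ⟨d, hd, hd'⟩ : ∃ d, (d < I ∧ p d ≠ 0) ∧ ∀ j, d < j → j < I → p j = 0 := by
    have hex : ∃ m, m < I ∧ p (I - 1 - m) ≠ 0 := ⟨I - 1 - j₀, by omega, by
      rw [show I - 1 - (I - 1 - j₀) = j₀ by omega]; exact hj₀'⟩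
    obtain ⟨h1, h2⟩ := Nat.find_spec hex
    refine ⟨I - 1 - Nat.find hex, ⟨by omega, h2⟩, fun j hj1 hj2 => ?_⟩
    by_contra hc
    have h3 := Nat.find_min hex (m := I - 1 - j) (by omega)
    apply h3
    refine ⟨by omega, ?_⟩
    rw [show I - 1 - (I - 1 - j) = j by omega]
    exact hc
  have hsum : ∑ j ∈ Finset.range (d + 1), ((p j : OO) : ℂ) * y ^ j = 0 := by
    rw [← h0]
    refine Finset.sum_subset (fun j hj => ?_) fun j hj hj' => ?_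
    · rw [Finset.mem_range] at hj ⊢
      omega
    · rw [Finset.mem_range] at hj hj'
      rw [hd' j (by omega) hj]
      simp
  have hcd : ((p d : OO) : ℂ) ≠ 0 := by
    intro h
    exact hd.2 (Subtype.ext h)
  rcases Nat.eq_zero_or_pos d with rfl | hdpos
  · exfalso
    apply hcd
    simpa using hsum
  · have h1 := bd_poly (K := K) hdpos (D := Module.finrank ℚ K) le_rfl hT (fun j => ((p j : OO) : ℂ))
      (fun j _ => hbd j) hy hcd hsum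
    refine h1.mono ?_
    refine mul_le_mul_of_nonneg_right ?_ (by positivity)
    exact_mod_cast hd.1.le

end Pool.Agent.LGO.RU
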