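import Mathlib

/-!
# LGO/RU: polynomial bounds

`PZ Z a x`: `0 ≤ x ≤ (a Z) ^ a`, for `Z ≥ 1`, `a ≥ 1`.
-/

namespace Pool.Agent.LGO.RU

/-- `0 ≤ x ≤ (a Z) ^ a` and `a ≥ 1` -/
structure PZ (Z : ℝ) (a : ℕ) (x : ℝ) : Prop where
  pos : 1 ≤ a
  nn : 0 ≤ x
  le : x ≤ ((a : ℝ) * Z) ^ a

variable {Z x y : ℝ} {a b : ℕ}

theorem PZ.base (hZ : 1 ≤ Z) (ha : 1 ≤ a) : 1 ≤ (a : ℝ) * Z := by
  have h1 : (1 : ℝ) ≤ a := by exact_mod_cast ha
  exact one_le_mul_of_one_le_of_one_le h1 hZ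

theorem PZ.mono' (hZ : 1 ≤ Z) (h : PZ Z a x) (hab : a ≤ b) : PZ Z b x := by
  refine ⟨h.pos.trans hab, h.nn, h.le.trans ?_⟩
  have h1 : (a : ℝ) ≤ b := by exact_mod_cast hab
  calc ((a : ℝ) * Z) ^ a ≤ ((a : ℝ) * Z) ^ b := pow_le_pow_right₀ (PZ.base hZ h.pos) hab
    _ ≤ ((b : ℝ) * Z) ^ b := by
        have h2 := PZ.base hZ h.pos
        refine pow_le_pow_left₀ (by linarith) ?_ _
        exact mul_le_mul_of_nonneg_right h1 (by linarith)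

theorem PZ.of_le (h : PZ Z a x) (hy : 0 ≤ y) (hyx : y ≤ x) : PZ Z a y :=
  ⟨h.pos, hy, hyx.trans h.le⟩

theorem PZ.mul (hZ : 1 ≤ Z) (hx : PZ Z a x) (hy : PZ Z b y) : PZ Z (a + b) (x * y) := by
  have h1 := hx.pos
  have h2 := hy.pos
  have e1 := PZ.base hZ h1
  have e2 := PZ.base hZ h2
  refine ⟨by omega, mul_nonneg hx.nn hy.nn, ?_⟩
  rw [pow_add]
  refine mul_le_mul (hx.le.trans ?_) (hy.le.trans ?_) hy.nn (by positivity)
  · refine pow_le_pow_left₀ (by linarith) ?_ _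
    push_cast
    have : (0 : ℝ) ≤ b := Nat.cast_nonneg _
    nlinarith
  · refine pow_le_pow_left₀ (by linarith) ?_ _
    push_cast
    have : (0 : ℝ) ≤ a := Nat.cast_nonneg _
    nlinarith

theorem PZ.add (hZ : 1 ≤ Z) (hx : PZ Z a x) (hy : PZ Z b y) : PZ Z (a + b) (x + y) := by
  have h1 := hx.pos
  have h2 := hy.pos
  refine ⟨by omega, add_nonneg hx.nn hy.nn, ?_⟩
  have hA : PZ Z (a + b) x := hx.mono' hZ (by omega)
  have ha1 : (1 : ℝ) ≤ a := by exact_mod_cast h1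
  have hb1 : (1 : ℝ) ≤ b := by exact_mod_cast h2
  set w : ℝ := ((a + b : ℕ) : ℝ) * Z with hw
  have hw2 : 2 ≤ w := by
    rw [hw]
    push_cast
    nlinarith
  have hx' : x ≤ w ^ a := by
    refine hx.le.trans (pow_le_pow_left₀ (by positivity) ?_ _)
    rw [hw]
    push_cast
    nlinarith
  have hy' : y ≤ w ^ b := by
    refine hy.le.trans (pow_le_pow_left₀ (by positivity) ?_ _)
    rw [hw]
    push_cast
    nlinarith
  have e1 : w ^ a ≤ w ^ (a + b - 1) := pow_le_pow_right₀ (by linarith) (by omega)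
  have e2 : w ^ b ≤ w ^ (a + b - 1) := pow_le_pow_right₀ (by linarith) (by omega)
  have e3 : w ^ (a + b) = w * w ^ (a + b - 1) := by
    rw [← pow_succ']
    congr 1
    omega
  have e4 : (0 : ℝ) ≤ w ^ (a + b - 1) := by positivity
  rw [e3]
  nlinarith

theorem PZ.pow (hZ : 1 ≤ Z) (hx : PZ Z a x) (n : ℕ) : PZ Z (a * (n + 1)) (x ^ n) := by
  have h1 := hx.pos
  have e1 := PZ.base hZ h1
  refine ⟨Nat.mul_pos h1 (Nat.succ_pos _), pow_nonneg hx.nn _, ?_⟩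
  have h2 : (a : ℝ) * Z ≤ ((a * (n + 1) : ℕ) : ℝ) * Z := by
    refine mul_le_mul_of_nonneg_right ?_ (by linarith)
    exact_mod_cast Nat.le_mul_of_pos_right _ (Nat.succ_pos _)
  calc x ^ n ≤ (((a : ℝ) * Z) ^ a) ^ n := pow_le_pow_left₀ hx.nn hx.le _
    _ = ((a : ℝ) * Z) ^ (a * n) := by rw [pow_mul]
    _ ≤ ((a : ℝ) * Z) ^ (a * (n + 1)) := pow_le_pow_right₀ e1 (Nat.mul_le_mul_left _ (Nat.le_succ _))
    _ ≤ _ := pow_le_pow_left₀ (by linarith) h2 _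

theorem PZ.nat (hZ : 1 ≤ Z) (c : ℕ) : PZ Z (c + 1) (c : ℝ) := by
  refine ⟨by omega, Nat.cast_nonneg _, ?_⟩
  have h1 : (c : ℝ) ≤ ((c + 1 : ℕ) : ℝ) * Z := by
    push_cast
    have : (0 : ℝ) ≤ c := Nat.cast_nonneg _
    nlinarith
  exact h1.trans (le_self_pow₀ (PZ.base hZ (by omega)) (by omega))

theorem PZ.self (hZ : 1 ≤ Z) : PZ Z 1 Z := ⟨le_rfl, by linarith, by simp⟩

end Pool.Agent.LGO.RU
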