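import Mathlib
import Pool.Agent.LGO.RU.PZ

/-!
# LGO/RU: the constants
-/

namespace Pool.Agent.LGO.RU

/-- polynomial bounds, uniform in a parameter -/
def PZU {ι : Type} (Z f : ι → ℝ) : Prop := ∃ a, ∀ i, PZ (Z i) a (f i)

section
variable {ι : Type} {Z f g : ι → ℝ} (hZ : ∀ i, 1 ≤ Z i)
include hZ

theorem PZU.mul (hf : PZU Z f) (hg : PZU Z g) : PZU Z (fun i => f i * g i) := by
  obtain ⟨a, ha⟩ := hf
  obtain ⟨b, hb⟩ := hg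
  exact ⟨a + b, fun i => (ha i).mul (hZ i) (hb i)⟩

theorem PZU.add (hf : PZU Z f) (hg : PZU Z g) : PZU Z (fun i => f i + g i) := by
  obtain ⟨a, ha⟩ := hf
  obtain ⟨b, hb⟩ := hg
  exact ⟨a + b, fun i => (ha i).add (hZ i) (hb i)⟩

theorem PZU.pow (hf : PZU Z f) (n : ℕ) : PZU Z (fun i => f i ^ n) := by
  obtain ⟨a, ha⟩ := hf
  exact ⟨a * (n + 1), fun i => (ha i).pow (hZ i) n⟩

theorem PZU.nat (c : ℕ) : PZU Z (fun _ => (c : ℝ)) := ⟨c + 1, fun i => PZ.nat (hZ i) c⟩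

theorem PZU.self : PZU Z Z := ⟨1, fun i => PZ.self (hZ i)⟩

end

theorem PZU.of_le {ι : Type} {Z f g : ι → ℝ} (hf : PZU Z f) (h0 : ∀ i, 0 ≤ g i)
    (h : ∀ i, g i ≤ f i) : PZU Z g := by
  obtain ⟨a, ha⟩ := hf
  exact ⟨a, fun i => (ha i).of_le (h0 i) (h i)⟩

/-- the parameters -/
structure Ctx (C₂ c₀ d₀ : ℕ) where
  D : ℝ
  l : ℝ
  m₀ : ℝ
  m : ℝ
  P : ℝ
  D₃ : ℝ
  hD : 1 ≤ D
  hl : 0 ≤ l
  hm₀ : 1 ≤ m₀
  hm : 1 ≤ m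
  hP0 : 0 ≤ P
  hP : P ≤ (D + 1) * l + c₀
  hM₀ : m₀ ≤ C₂ * (1 + P) ^ 2
  hM : m ≤ C₂ * (1 + P) ^ 2
  hD0 : 0 ≤ D₃
  hD₃ : D₃ ≤ 4 * (m₀ * m) ^ 4 * (d₀ * D)

theorem main_num (CA CB CZ C₂ n₀ d₀ c₀ : ℕ) : ∃ C : ℕ, 1 ≤ C ∧ ∀ X : Ctx C₂ c₀ d₀,
    X.D₃ * (((CB : ℝ) * (X.m₀ * X.m) * ((CA : ℝ) * (X.m₀ * X.m)) ^ CA) ^ CB +
      ((CB : ℝ) * (X.m₀ * X.m) * ((CA : ℝ) * (X.m₀ * X.m)) ^ CA) ^ CB * n₀) ≤
        ((C : ℝ) * (X.D * (1 + X.l))) ^ C ∧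
    ((CZ : ℝ) * (X.m₀ * X.m) * ((CA : ℝ) * (X.m₀ * X.m)) ^ CA) ^ CZ *
      (1 + (1 + 2 * X.D₃) * ((CZ : ℝ) * (X.m₀ * X.m) * ((CA : ℝ) * (X.m₀ * X.m)) ^ CA) ^ CZ) ≤
        ((C : ℝ) * (X.D * (1 + X.l))) ^ C := by
  set Z : Ctx C₂ c₀ d₀ → ℝ := fun X => X.D * (1 + X.l) with hZdef
  have hZ : ∀ X, 1 ≤ Z X := fun X =>
    one_le_mul_of_one_le_of_one_le X.hD (by linarith [X.hl])
  have hP : PZU Z (fun X => X.P) := by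
    refine PZU.of_le (((PZU.nat hZ 2).mul hZ (PZU.self hZ)).add hZ (PZU.nat hZ c₀)) (fun X => X.hP0)
      fun X => X.hP.trans ?_
    have h1 := X.hD
    have h2 := X.hl
    simp only [hZdef]
    push_cast
    nlinarith
  have hP2 : PZU Z (fun X => (C₂ : ℝ) * (1 + X.P) ^ 2) := by
    have h1 : PZU Z (fun X => ((1 : ℕ) : ℝ) + X.P) := (PZU.nat hZ 1).add hZ hP
    simp only [Nat.cast_one] at h1
    exact (PZU.nat hZ C₂).mul hZ (h1.pow hZ 2)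
  have hm₀ : PZU Z (fun X => X.m₀) := hP2.of_le (fun X => by linarith [X.hm₀]) fun X => X.hM₀
  have hm : PZU Z (fun X => X.m) := hP2.of_le (fun X => by linarith [X.hm]) fun X => X.hM
  have hL : PZU Z (fun X => X.m₀ * X.m) := hm₀.mul hZ hm
  have hDD : PZU Z (fun X => X.D) := (PZU.self hZ).of_le (fun X => by linarith [X.hD]) fun X => by
    have h1 := X.hD
    have h2 := X.hl
    simp only [hZdef]
    nlinarith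
  have hD₃ : PZU Z (fun X => X.D₃) := by
    refine PZU.of_le (((PZU.nat hZ 4).mul hZ (hL.pow hZ 4)).mul hZ ((PZU.nat hZ d₀).mul hZ hDD))
      (fun X => X.hD0) fun X => ?_
    exact_mod_cast X.hD₃
  have hS : ∀ c : ℕ, PZU Z (fun X => ((c : ℝ) * (X.m₀ * X.m) * ((CA : ℝ) * (X.m₀ * X.m)) ^ CA) ^ c) :=
    fun c => ((((PZU.nat hZ c).mul hZ hL).mul hZ (((PZU.nat hZ CA).mul hZ hL).pow hZ CA))).pow hZ c
  obtain ⟨u, hu⟩ := hD₃.mul hZ ((hS CB).add hZ ((hS CB).mul hZ (PZU.nat hZ n₀)))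
  have h2 : PZU Z (fun X => (1 : ℝ) + (1 + 2 * X.D₃) *
      ((CZ : ℝ) * (X.m₀ * X.m) * ((CA : ℝ) * (X.m₀ * X.m)) ^ CA) ^ CZ) := by
    have h3 := (PZU.nat hZ 1).add hZ (((PZU.nat hZ 1).add hZ ((PZU.nat hZ 2).mul hZ hD₃)).mul hZ (hS CZ))
    simpa using h3
  obtain ⟨v, hv⟩ := (hS CZ).mul hZ h2
  refine ⟨u + v + 1, by omega, fun X => ⟨?_, ?_⟩⟩
  · exact ((hu X).mono' (hZ X) (by omega)).le
  · exact ((hv X).mono' (hZ X) (by omega)).le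

end Pool.Agent.LGO.RU
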