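import Mathlib
import Pool.Agent.LGO.RU.Defs
import Pool.Agent.LGO.AXG.DiscR
import Pool.Agent.Hhelper14.ZP.Integral

/-!
# LGO/RU: the function `Fl` is analytic and equivariant

`fl_an`: `Fl` is analytic on all moved lifts.  `fl_mz`: the group `SL₂(ℤ) ^ 2` permutes the functions `Fl .. κa κb` by `rQ`.
`rr_mul`: no zero divisors.
-/

namespace Pool.Agent.LGO.RU

open Pool.Agent.Hhelper14.ZP Pool.Agent.Hhelper14.ZPL Pool.Agent.LGO Pool.Agent.LGO.AX Pool.Agent.LGO.AXG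
  UpperHalfPlane Filter Topology
open scoped MatrixGroups

theorem jQ_diff {L : ℕ} (hL : 0 < L) (κ : QQ L) :
    DifferentiableOn ℂ (fun z : ℂ => jQ hL κ (ofComplex z)) {z : ℂ | 0 < z.im} :=
  UpperHalfPlane.mdifferentiable_iff.mp (jQ_mem hL κ).1

theorem ofC_mz (γ : SL(2, ℤ)) {z : ℂ} (hz : 0 < z.im) : ofComplex (mz γ.1 z) = γ • ofComplex z := by
  have h1 : (ofComplex z : UpperHalfPlane) = ⟨z, hz⟩ := ofComplex_apply_of_im_pos hz
  have h2 : ((γ • (⟨z, hz⟩ : UpperHalfPlane) : UpperHalfPlane) : ℂ) = mz γ.1 z := by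
    rw [UpperHalfPlane.coe_specialLinearGroup_apply]
    simp [mz]
  rw [h1, ← h2, ofComplex_apply]

theorem jQ_mz {L : ℕ} (hL : 0 < L) (κ : QQ L) (γ : SL(2, ℤ)) {z : ℂ} (hz : 0 < z.im) :
    jQ hL κ (ofComplex (mz γ.1 z)) = jQ hL (rQ γ κ) (ofComplex z) := by
  rw [ofC_mz γ hz, jQ_rQ]

/-- `vE` of holomorphic functions -/
theorem vE_diff {E : Type*} [NormedAddCommGroup E] [NormedSpace ℂ E] (f : OO →+* ℂ)
    (c : ℕ → ℕ → ℕ → ℕ → OO) (e J R : ℕ) {U : Set E} {X Y A B : E → ℂ} (hX : DifferentiableOn ℂ X U)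
    (hY : DifferentiableOn ℂ Y U) (hA : DifferentiableOn ℂ A U) (hB : DifferentiableOn ℂ B U) :
    DifferentiableOn ℂ (fun v => vE f c e J R (X v) (Y v) (A v) (B v)) U := by
  unfold vE
  refine DifferentiableOn.fun_sum fun i _ => DifferentiableOn.fun_sum fun j _ =>
    DifferentiableOn.fun_sum fun k _ => DifferentiableOn.fun_sum fun k' _ => ?_
  exact ((((differentiableOn_const _).mul (hY.pow i)).mul (hX.pow j)).mul (hA.pow k)).mul (hB.pow k')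

theorem fl_an {L : ℕ} (hL : 0 < L) (S : AXG.Cur 2) (c : ℕ → ℕ → ℕ → ℕ → OO) (e J R : ℕ) (κa κb : QQ L) :
    AXG.AnR S (Fl hL c e J R κa κb) := by
  intro β γ
  refine DifferentiableOn.analyticOnNhd ?_ β.isOpen
  have h1 : ∀ a : Fin 2, ∀ κ : QQ L,
      DifferentiableOn ℂ (fun v => jQ hL κ (ofComplex (mz (γ a).1 (β.z a v)))) β.U := fun a κ =>
    (jQ_diff hL κ).comp (β.mzdiff γ a) fun v hv => mz_im_sl (γ a) (β.zim a hv)
  exact vE_diff OO.subtype c e J R (br_dT β) (br_dY β) (h1 0 κa) (h1 1 κb)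

theorem fl_mz {L : ℕ} (hL : 0 < L) (c : ℕ → ℕ → ℕ → ℕ → OO) (e J R : ℕ) (κa κb : QQ L)
    (δ : Fin 2 → SL(2, ℤ)) {ζ : Fin 2 → ℂ} (hζ : ∀ a, 0 < (ζ a).im) (q : ℂ × ℂ) :
    Fl hL c e J R κa κb (fun a => mz (δ a).1 (ζ a)) q =
      Fl hL c e J R (rQ (δ 0) κa) (rQ (δ 1) κb) ζ q := by
  unfold Fl
  rw [jQ_mz hL κa (δ 0) (hζ 0), jQ_mz hL κb (δ 1) (hζ 1)]

/-- the permutation of the pairs of classes -/
noncomputable def rQ2 {L : ℕ} (hL : 0 < L) (δ : Fin 2 → SL(2, ℤ)) : Equiv.Perm (QQ L × QQ L) :=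
  (Equiv.ofBijective _ (rQ_bijective hL (δ 0))).prodCongr (Equiv.ofBijective _ (rQ_bijective hL (δ 1)))

theorem rQ2_apply {L : ℕ} (hL : 0 < L) (δ : Fin 2 → SL(2, ℤ)) (κ : QQ L × QQ L) :
    rQ2 hL δ κ = (rQ (δ 0) κ.1, rQ (δ 1) κ.2) := rfl

variable {d : ℕ} {S : AXG.Cur d}

/-- no zero divisors -/
theorem rr_mul {Φ Ψ : (Fin d → ℂ) → ℂ × ℂ → ℂ} (hΦ : AXG.AnR S Φ) (hΨ : AXG.AnR S Ψ) {β : AXG.Br S}
    {γ : Fin d → SL(2, ℤ)} (h : AXG.RR (fun ζ q => Φ ζ q * Ψ ζ q) β γ) :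
    AXG.RR Φ β γ ∨ AXG.RR Ψ β γ := by
  by_cases h1 : AXG.RR Φ β γ
  · exact Or.inl h1
  right
  unfold AXG.RR at h1
  push Not at h1
  obtain ⟨w, hw, hne⟩ := h1
  have hc := (hΦ β γ w hw).continuousAt
  have h2 : (fun v => Ψ (fun a => mz (γ a).1 (β.z a v)) (β.pt v)) =ᶠ[𝓝 w] 0 := by
    filter_upwards [hc.eventually_ne hne, β.isOpen.mem_nhds hw] with v hv hvU
    exact (mul_eq_zero.mp (h v hvU)).resolve_left hv
  exact fun v hv => (hΨ β γ).eqOn_zero_of_preconnected_of_eventuallyEq_zero β.convex.isPreconnected hw h2 hv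

/-- from one moved lift of a branch to another branch, for all pairs of classes at once -/
theorem fl_all {L : ℕ} (hL : 0 < L) {S : AXG.Cur 2} {β : AXG.Br S} {c : ℕ → ℕ → ℕ → ℕ → OO} {e J R : ℕ}
    (h : ∀ κa κb, AXG.RR (Fl hL c e J R κa κb) β 1) (γ : Fin 2 → SL(2, ℤ)) (κa κb : QQ L) :
    AXG.RR (Fl hL c e J R κa κb) β γ := by
  intro v hv
  rw [fl_mz hL c e J R κa κb γ fun a => β.zim a hv]
  have h1 := h (rQ (γ 0) κa) (rQ (γ 1) κb) v hv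
  simp only [Pi.one_apply, mz_one] at h1
  exact h1

end Pool.Agent.LGO.RU
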