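import Mathlib

/-!
# LGO/RU/Gen: generation of `SL₂(ℤ/L)²` (Theorem RU, note 3151, (7b))

`gen_top`: a subgroup `G` of `SL₂(R) × SL₂(R)` contains `(Lo, 1)`, `(1, Lo)`, `(T, 1)`, `(1, T)` for all lower and upper
elementary matrices if it contains `(T ^ (m k), T ^ (l k))` for all `k` and one element whose lower left entries `c_a`, `c_b`
are units, where also `30 m l` and `l ^ 2 c_b ^ 2 - m ^ 2 c_a ^ 2` are units.
`gen_mod`: for a subgroup `G₀` of `SL₂(ℤ) × SL₂(ℤ)`: its image modulo `L` contains the images of all elements of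
`SL₂(ℤ) × SL₂(ℤ)`, for every `L` prime to `30 m l c_a c_b (l ^ 2 c_b ^ 2 - m ^ 2 c_a ^ 2)`.
-/

namespace Pool.Agent.LGO.RU

open Matrix Matrix.SpecialLinearGroup

variable {R : Type*} [CommRing R]

/-- the upper elementary matrix -/
def Up (x : R) : SpecialLinearGroup (Fin 2) R := ⟨!![1, x; 0, 1], by simp [Matrix.det_fin_two]⟩

/-- the lower elementary matrix -/
def Lo (y : R) : SpecialLinearGroup (Fin 2) R := ⟨!![1, 0; y, 1], by simp [Matrix.det_fin_two]⟩

theorem ext2 {A B : SpecialLinearGroup (Fin 2) R} (h00 : A.1 0 0 = B.1 0 0) (h01 : A.1 0 1 = B.1 0 1)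
    (h10 : A.1 1 0 = B.1 1 0) (h11 : A.1 1 1 = B.1 1 1) : A = B := by
  apply Subtype.ext
  ext i j
  fin_cases i <;> fin_cases j
  · exact h00
  · exact h01
  · exact h10
  · exact h11

theorem mul00 (A B : SpecialLinearGroup (Fin 2) R) :
    (A * B).1 0 0 = A.1 0 0 * B.1 0 0 + A.1 0 1 * B.1 1 0 := by
  simp [Matrix.mul_apply, Fin.sum_univ_two]

theorem mul01 (A B : SpecialLinearGroup (Fin 2) R) :
    (A * B).1 0 1 = A.1 0 0 * B.1 0 1 + A.1 0 1 * B.1 1 1 := by
  simp [Matrix.mul_apply, Fin.sum_univ_two]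

theorem mul10 (A B : SpecialLinearGroup (Fin 2) R) :
    (A * B).1 1 0 = A.1 1 0 * B.1 0 0 + A.1 1 1 * B.1 1 0 := by
  simp [Matrix.mul_apply, Fin.sum_univ_two]

theorem mul11 (A B : SpecialLinearGroup (Fin 2) R) :
    (A * B).1 1 1 = A.1 1 0 * B.1 0 1 + A.1 1 1 * B.1 1 1 := by
  simp [Matrix.mul_apply, Fin.sum_univ_two]

theorem inv00 (A : SpecialLinearGroup (Fin 2) R) : (A⁻¹).1 0 0 = A.1 1 1 := by
  simp [Matrix.adjugate_fin_two]

theorem inv01 (A : SpecialLinearGroup (Fin 2) R) : (A⁻¹).1 0 1 = -A.1 0 1 := by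
  simp [Matrix.adjugate_fin_two]

theorem inv10 (A : SpecialLinearGroup (Fin 2) R) : (A⁻¹).1 1 0 = -A.1 1 0 := by
  simp [Matrix.adjugate_fin_two]

theorem inv11 (A : SpecialLinearGroup (Fin 2) R) : (A⁻¹).1 1 1 = A.1 0 0 := by
  simp [Matrix.adjugate_fin_two]

theorem up00 (x : R) : (Up x).1 0 0 = 1 := rfl
theorem up01 (x : R) : (Up x).1 0 1 = x := rfl
theorem up10 (x : R) : (Up x).1 1 0 = 0 := rfl
theorem up11 (x : R) : (Up x).1 1 1 = 1 := rfl
theorem lo00 (x : R) : (Lo x).1 0 0 = 1 := rfl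
theorem lo01 (x : R) : (Lo x).1 0 1 = 0 := rfl
theorem lo10 (x : R) : (Lo x).1 1 0 = x := rfl
theorem lo11 (x : R) : (Lo x).1 1 1 = 1 := rfl

theorem one00 : (1 : SpecialLinearGroup (Fin 2) R).1 0 0 = 1 := by simp
theorem one01 : (1 : SpecialLinearGroup (Fin 2) R).1 0 1 = 0 := by simp
theorem one10 : (1 : SpecialLinearGroup (Fin 2) R).1 1 0 = 0 := by simp
theorem one11 : (1 : SpecialLinearGroup (Fin 2) R).1 1 1 = 1 := by simp

theorem det2 (A : SpecialLinearGroup (Fin 2) R) : A.1 0 0 * A.1 1 1 - A.1 0 1 * A.1 1 0 = 1 := by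
  have := A.2
  rwa [Matrix.det_fin_two] at this

theorem up_add (x y : R) : Up x * Up y = Up (x + y) := by
  apply ext2 <;> simp only [mul00, mul01, mul10, mul11, up00, up01, up10, up11] <;> ring

theorem lo_add (x y : R) : Lo x * Lo y = Lo (x + y) := by
  apply ext2 <;> simp only [mul00, mul01, mul10, mul11, lo00, lo01, lo10, lo11] <;> ring

theorem up_inv (x : R) : (Up x)⁻¹ = Up (-x) := by
  apply ext2 <;> simp only [inv00, inv01, inv10, inv11, up00, up01, up10, up11, neg_zero]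

theorem lo_inv (x : R) : (Lo x)⁻¹ = Lo (-x) := by
  apply ext2 <;> simp only [inv00, inv01, inv10, inv11, lo00, lo01, lo10, lo11, neg_zero]

theorem up_zero : Up (0 : R) = 1 := by
  apply ext2 <;> simp only [up00, up01, up10, up11, one00, one01, one10, one11]

/-- all lower elementary matrices from one element with a unit at the lower left -/
theorem lo_mem {H : Subgroup (SpecialLinearGroup (Fin 2) R)} (hT : ∀ x, Up x ∈ H)
    {h : SpecialLinearGroup (Fin 2) R} (hh : h ∈ H) {u : R} (hu : h.1 1 0 * u = 1) (y : R) :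
    Lo y ∈ H := by
  have hw : Up (-(h.1 0 0) * u) * h * Up (-(h.1 1 1) * u) ∈ H :=
    H.mul_mem (H.mul_mem (hT _) hh) (hT _)
  set w := Up (-(h.1 0 0) * u) * h * Up (-(h.1 1 1) * u) with hwd
  have hd := det2 h
  have w00 : w.1 0 0 = 0 := by
    rw [hwd]
    simp only [mul00, mul01, mul10, mul11, up00, up01, up10, up11]
    linear_combination (-(h.1 0 0)) * hu
  have w10 : w.1 1 0 = h.1 1 0 := by
    rw [hwd]
    simp only [mul00, mul01, mul10, mul11, up00, up01, up10, up11]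
    ring
  have w11 : w.1 1 1 = 0 := by
    rw [hwd]
    simp only [mul00, mul01, mul10, mul11, up00, up01, up10, up11]
    linear_combination (-(h.1 1 1)) * hu
  have w01 : w.1 0 1 = -u := by
    have h1 := det2 w
    rw [w00, w10, w11] at h1
    have h2 : w.1 0 1 * h.1 1 0 = -1 := by linear_combination -h1
    linear_combination u * h2 - w.1 0 1 * hu
  have hc : w * Up (-(u ^ 2) * y) * w⁻¹ ∈ H := H.mul_mem (H.mul_mem hw (hT _)) (H.inv_mem hw)
  have he : w * Up (-(u ^ 2) * y) * w⁻¹ = Lo y := by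
    apply ext2
    · simp only [mul00, mul01, mul10, mul11, up00, up01, up10, up11, inv00, inv01, inv10, inv11, lo00,
        lo01, lo10, lo11, w00, w01, w10, w11]
      linear_combination hu
    · simp only [mul00, mul01, mul10, mul11, up00, up01, up10, up11, inv00, inv01, inv10, inv11, lo00,
        lo01, lo10, lo11, w00, w01, w10, w11]
      ring
    · simp only [mul00, mul01, mul10, mul11, up00, up01, up10, up11, inv00, inv01, inv10, inv11, lo00,
        lo01, lo10, lo11, w00, w01, w10, w11]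
      linear_combination (y * (h.1 1 0 * u + 1)) * hu
    · simp only [mul00, mul01, mul10, mul11, up00, up01, up10, up11, inv00, inv01, inv10, inv11, lo00,
        lo01, lo10, lo11, w00, w01, w10, w11]
      linear_combination hu
  rw [← he]
  exact hc

/-- conjugation of `Lo` by an element `(0, *; c, 0)` -/
theorem conj_lo {h : SpecialLinearGroup (Fin 2) R} (h00 : h.1 0 0 = 0) (h11 : h.1 1 1 = 0) {u : R}
    (hu : h.1 1 0 * u = 1) (y : R) : h * Lo (-(h.1 1 0) ^ 2 * y) * h⁻¹ = Up y := by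
  have hd := det2 h
  rw [h00, h11] at hd
  have h01 : h.1 0 1 = -u := by
    have h2 : h.1 0 1 * h.1 1 0 = -1 := by linear_combination -hd
    linear_combination u * h2 - h.1 0 1 * hu
  apply ext2
  · simp only [mul00, mul01, mul10, mul11, up00, up01, up10, up11, inv00, inv01, inv10, inv11, lo00,
      lo01, lo10, lo11, h00, h01, h11]
    linear_combination hu
  · simp only [mul00, mul01, mul10, mul11, up00, up01, up10, up11, inv00, inv01, inv10, inv11, lo00,
      lo01, lo10, lo11, h00, h01, h11]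
    linear_combination (y * (h.1 1 0 * u + 1)) * hu
  · simp only [mul00, mul01, mul10, mul11, up00, up01, up10, up11, inv00, inv01, inv10, inv11, lo00,
      lo01, lo10, lo11, h00, h01, h11]
    ring
  · simp only [mul00, mul01, mul10, mul11, up00, up01, up10, up11, inv00, inv01, inv10, inv11, lo00,
      lo01, lo10, lo11, h00, h01, h11]
    linear_combination hu

/-- `diag(u, v)` with `u v = 1` is a product of elementary matrices -/
theorem diag_mem {H : Subgroup (SpecialLinearGroup (Fin 2) R)} (hT : ∀ x, Up x ∈ H)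
    (hL : ∀ x, Lo x ∈ H) {u v : R} (huv : u * v = 1) :
    ∃ d ∈ H, d.1 0 0 = u ∧ d.1 0 1 = 0 ∧ d.1 1 0 = 0 ∧ d.1 1 1 = v := by
  refine ⟨Up u * Lo (-v) * Up u * (Up (-1) * Lo 1 * Up (-1)), H.mul_mem (H.mul_mem (H.mul_mem
    (hT _) (hL _)) (hT _)) (H.mul_mem (H.mul_mem (hT _) (hL _)) (hT _)), ?_, ?_, ?_, ?_⟩
  · simp only [mul00, mul01, mul10, mul11, up00, up01, up10, up11, lo00, lo01, lo10, lo11]
    linear_combination (-u) * huv
  · simp only [mul00, mul01, mul10, mul11, up00, up01, up10, up11, lo00, lo01, lo10, lo11]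
    linear_combination huv
  · simp only [mul00, mul01, mul10, mul11, up00, up01, up10, up11, lo00, lo01, lo10, lo11]
    linear_combination (-1) * huv
  · simp only [mul00, mul01, mul10, mul11, up00, up01, up10, up11, lo00, lo01, lo10, lo11]
    ring

/-- **generation** -/
theorem gen_top {G : Subgroup (SpecialLinearGroup (Fin 2) R × SpecialLinearGroup (Fin 2) R)}
    {m l : R} (hT : ∀ k : R, (Up (m * k), Up (l * k)) ∈ G)
    {g : SpecialLinearGroup (Fin 2) R × SpecialLinearGroup (Fin 2) R} (hg : g ∈ G)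
    (hu : IsUnit (30 * m * l * g.1.1 1 0 * g.2.1 1 0 *
      (l ^ 2 * g.2.1 1 0 ^ 2 - m ^ 2 * g.1.1 1 0 ^ 2))) :
    (∀ x, (Up x, 1) ∈ G) ∧ (∀ x, (Lo x, 1) ∈ G) ∧ (∀ x, (1, Up x) ∈ G) ∧ ∀ x, (1, Lo x) ∈ G := by
  obtain ⟨w, hw⟩ := hu.exists_right_inv
  obtain ⟨ga, gb⟩ := g
  simp only at hw
  set α := ga.1 0 0 with hα
  set β := ga.1 0 1 with hβ
  set γ := ga.1 1 0 with hγ
  set δ := ga.1 1 1 with hδ
  set α' := gb.1 0 0 with hα'
  set β' := gb.1 0 1 with hβ'
  set γ' := gb.1 1 0 with hγ'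
  set δ' := gb.1 1 1 with hδ'
  set Q := l ^ 2 * γ' ^ 2 - m ^ 2 * γ ^ 2 with hQ
  have da : α * δ - β * γ = 1 := det2 ga
  have db : α' * δ' - β' * γ' = 1 := det2 gb
  -- inverses
  obtain ⟨mi, hmi⟩ : ∃ mi, m * mi = 1 := ⟨30 * l * γ * γ' * Q * w, by linear_combination hw⟩
  obtain ⟨li, hli⟩ : ∃ li, l * li = 1 := ⟨30 * m * γ * γ' * Q * w, by linear_combination hw⟩
  obtain ⟨ci, hci⟩ : ∃ ci, γ * ci = 1 := ⟨30 * m * l * γ' * Q * w, by linear_combination hw⟩
  obtain ⟨ci', hci'⟩ : ∃ ci', γ' * ci' = 1 := ⟨30 * m * l * γ * Q * w, by linear_combination hw⟩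
  obtain ⟨Qi, hQi⟩ : ∃ Qi, Q * Qi = 1 := ⟨30 * m * l * γ * γ' * w, by linear_combination hw⟩
  obtain ⟨h2, hh2⟩ : ∃ h2 : R, 2 * h2 = 1 := ⟨15 * m * l * γ * γ' * Q * w, by linear_combination hw⟩
  obtain ⟨h15, hh15⟩ : ∃ h15 : R, 15 * h15 = 1 :=
    ⟨2 * m * l * γ * γ' * Q * w, by linear_combination hw⟩
  -- the projection to the second factor
  set Gb : Subgroup (SpecialLinearGroup (Fin 2) R) := G.map (MonoidHom.snd _ _) with hGb
  have hTb : ∀ x, Up x ∈ Gb := by
    intro x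
    refine ⟨(Up (m * (li * x)), Up (l * (li * x))), hT _, ?_⟩
    show Up (l * (li * x)) = Up x
    congr 1
    linear_combination x * hli
  have hLb : ∀ x, Lo x ∈ Gb := lo_mem hTb (h := gb) ⟨(ga, gb), hg, rfl⟩ hci'
  obtain ⟨d, hdG, d00, d01, d10, d11⟩ := diag_mem hTb hLb (u := 2) (v := h2) hh2
  -- the element `p`
  set k : R := 2 * (mi * ci) ^ 2 with hk
  set p : SpecialLinearGroup (Fin 2) R × SpecialLinearGroup (Fin 2) R :=
    (Up (m * 1), Up (l * 1)) * (ga, gb) * (Up (m * k), Up (l * k)) * (ga, gb)⁻¹ with hp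
  have hpG : p ∈ G := G.mul_mem (G.mul_mem (G.mul_mem (hT 1) hg) (hT k)) (G.inv_mem hg)
  have p1 : p.1 = Up (m * 1) * ga * Up (m * k) * ga⁻¹ := rfl
  have p2 : p.2 = Up (l * 1) * gb * Up (l * k) * gb⁻¹ := rfl
  have hmk : m * k * (m * γ ^ 2) = 2 := by
    rw [hk]
    linear_combination (2 * (m * mi * (γ * ci) ^ 2 + (γ * ci) ^ 2)) * hmi +
      (2 * (γ * ci + 1)) * hci
  have a00 : p.1.1 0 0 = 1 - m * k * α * γ - m * (m * k) * γ ^ 2 := by
    rw [p1]
    simp only [mul00, mul01, mul10, mul11, up00, up01, up10, up11, inv00, inv01, inv10, inv11,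
      ← hα, ← hβ, ← hγ, ← hδ]
    linear_combination da
  have a01 : p.1.1 0 1 = m * k * α ^ 2 + m * (1 + m * k * α * γ) := by
    rw [p1]
    simp only [mul00, mul01, mul10, mul11, up00, up01, up10, up11, inv00, inv01, inv10, inv11,
      ← hα, ← hβ, ← hγ, ← hδ]
    linear_combination m * da
  have a10 : p.1.1 1 0 = - (m * k) * γ ^ 2 := by
    rw [p1]
    simp only [mul00, mul01, mul10, mul11, up00, up01, up10, up11, inv00, inv01, inv10, inv11,
      ← hα, ← hβ, ← hγ, ← hδ]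
    ring
  have a11 : p.1.1 1 1 = 1 + m * k * α * γ := by
    rw [p1]
    simp only [mul00, mul01, mul10, mul11, up00, up01, up10, up11, inv00, inv01, inv10, inv11,
      ← hα, ← hβ, ← hγ, ← hδ]
    linear_combination da
  have b00 : p.2.1 0 0 = 1 - l * k * α' * γ' - l * (l * k) * γ' ^ 2 := by
    rw [p2]
    simp only [mul00, mul01, mul10, mul11, up00, up01, up10, up11, inv00, inv01, inv10, inv11,
      ← hα', ← hβ', ← hγ', ← hδ']
    linear_combination db
  have b10 : p.2.1 1 0 = - (l * k) * γ' ^ 2 := by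
    rw [p2]
    simp only [mul00, mul01, mul10, mul11, up00, up01, up10, up11, inv00, inv01, inv10, inv11,
      ← hα', ← hβ', ← hγ', ← hδ']
    ring
  have b11 : p.2.1 1 1 = 1 + l * k * α' * γ' := by
    rw [p2]
    simp only [mul00, mul01, mul10, mul11, up00, up01, up10, up11, inv00, inv01, inv10, inv11,
      ← hα', ← hβ', ← hγ', ← hδ']
    linear_combination db
  -- the trace of the first component is 0
  have htr : p.1.1 0 0 + p.1.1 1 1 = 0 := by
    rw [a00, a11]
    linear_combination -hmk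
  have hpd := det2 p.1
  set q := p * p with hq
  have hqG : q ∈ G := G.mul_mem hpG hpG
  have q1 : q.1 = -1 := by
    have e : q.1 = p.1 * p.1 := rfl
    rw [e]
    apply ext2
    · rw [mul00, coe_neg, Matrix.neg_apply, one00]
      linear_combination (p.1.1 0 0) * htr - hpd
    · rw [mul01, coe_neg, Matrix.neg_apply, one01]
      linear_combination (p.1.1 0 1) * htr
    · rw [mul10, coe_neg, Matrix.neg_apply, one10]
      linear_combination (p.1.1 1 0) * htr
    · rw [mul11, coe_neg, Matrix.neg_apply, one11]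
      linear_combination (p.1.1 1 1) * htr - hpd
  -- the lower left entry of the second component is a unit
  obtain ⟨c, hc⟩ : ∃ c, q.2.1 1 0 = c := ⟨_, rfl⟩
  have hcv : c = p.2.1 1 0 * (p.2.1 0 0 + p.2.1 1 1) := by
    rw [← hc]
    have e : q.2 = p.2 * p.2 := rfl
    rw [e, mul10]
    ring
  obtain ⟨cu, hcu⟩ : ∃ cu, c * cu = 1 := by
    refine ⟨li * h2 * (m * γ) ^ 2 * (ci') ^ 2 * h2 * (m * γ) ^ 2 * Qi, ?_⟩
    rw [hcv, b00, b10, b11]
    have e1 : k * (m * γ) ^ 2 = 2 := by linear_combination hmk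
    have e2 : (- (l * k) * γ' ^ 2) * (li * h2 * (m * γ) ^ 2 * (ci') ^ 2) = -1 := by
      linear_combination (-(k * γ' ^ 2 * h2 * (m * γ) ^ 2 * ci' ^ 2)) * hli -
        (k * (γ' * ci' + 1) * h2 * (m * γ) ^ 2) * hci' - h2 * e1 - hh2
    have e3 : (1 - l * k * α' * γ' - l * (l * k) * γ' ^ 2 + (1 + l * k * α' * γ')) * (h2 * (m * γ) ^ 2 * Qi) = -1 := by
      linear_combination (-(h2 * l ^ 2 * γ' ^ 2 * Qi)) * e1 - (Q * Qi) * hh2 - hQi
    linear_combination ((1 - l * k * α' * γ' - l * (l * k) * γ' ^ 2 + (1 + l * k * α' * γ')) * (h2 * (m * γ) ^ 2 * Qi)) * e2 - e3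
  -- zero at the upper left
  set r := (Up (m * (li * (-(q.2.1 0 0) * cu))), Up (l * (li * (-(q.2.1 0 0) * cu)))) with hr
  have hrG : r ∈ G := hT _
  set h := r * q * r⁻¹ with hh
  have hhG : h ∈ G := G.mul_mem (G.mul_mem hrG hqG) (G.inv_mem hrG)
  have h1 : h.1 = -1 := by
    have e : h.1 = r.1 * q.1 * r.1⁻¹ := rfl
    rw [e, q1, mul_neg, mul_one, neg_mul, mul_inv_cancel]
  have e2 : h.2 = Up (-(q.2.1 0 0) * cu) * q.2 * (Up (-(q.2.1 0 0) * cu))⁻¹ := by
    have e3 : l * (li * (-(q.2.1 0 0) * cu)) = -(q.2.1 0 0) * cu := by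
      linear_combination (-(q.2.1 0 0) * cu) * hli
    have e : h.2 = r.2 * q.2 * r.2⁻¹ := rfl
    rw [e, hr]
    show Up (l * (li * (-(q.2.1 0 0) * cu))) * q.2 * (Up (l * (li * (-(q.2.1 0 0) * cu))))⁻¹ = _
    rw [e3]
  have h00 : h.2.1 0 0 = 0 := by
    rw [e2]
    simp only [mul00, mul01, mul10, mul11, up00, up01, up10, up11, inv00, inv01, inv10, inv11, hc]
    linear_combination (-(q.2.1 0 0)) * hcu
  have h10 : h.2.1 1 0 = c := by
    rw [e2]
    simp only [mul00, mul01, mul10, mul11, up00, up01, up10, up11, inv00, inv01, inv10, inv11, hc]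
    ring
  have h01 : h.2.1 0 1 = -cu := by
    have h2 := det2 h.2
    rw [h00, h10] at h2
    have h3 : h.2.1 0 1 * c = -1 := by linear_combination -h2
    linear_combination cu * h3 - h.2.1 0 1 * hcu
  obtain ⟨s, hs⟩ : ∃ s, h.2.1 1 1 = s := ⟨_, rfl⟩
  -- conjugation by the diagonal matrix
  obtain ⟨⟨z, d'⟩, hzG, hzd⟩ := hdG
  have hzd' : d' = d := hzd
  rw [hzd'] at hzG
  set h' := (z, d) * h * (z, d)⁻¹ with hh'
  have hh'G : h' ∈ G := G.mul_mem (G.mul_mem hzG hhG) (G.inv_mem hzG)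
  set X := h * h'⁻¹ with hX
  have hXG : X ∈ G := G.mul_mem hhG (G.inv_mem hh'G)
  have X1 : X.1 = 1 := by
    have e : X.1 = h.1 * (z * h.1 * z⁻¹)⁻¹ := rfl
    have e4 : z * (-1) * z⁻¹ = -1 := by rw [mul_neg, mul_one, neg_mul, mul_inv_cancel]
    rw [e, h1, e4, mul_inv_cancel]
  have X2 : X.2 = h.2 * (d * h.2 * d⁻¹)⁻¹ := rfl
  have X01 : X.2.1 0 1 = 0 := by
    rw [X2]
    simp only [mul00, mul01, mul10, mul11, inv00, inv01, inv10, inv11, h00, h01, h10, hs, d00, d01,
      d10, d11]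
    ring
  have X00 : X.2.1 0 0 = h2 ^ 2 := by
    rw [X2]
    simp only [mul00, mul01, mul10, mul11, inv00, inv01, inv10, inv11, h00, h01, h10, hs, d00, d01,
      d10, d11]
    linear_combination (h2 ^ 2) * hcu
  have X11 : X.2.1 1 1 = 4 := by
    rw [X2]
    simp only [mul00, mul01, mul10, mul11, inv00, inv01, inv10, inv11, h00, h01, h10, hs, d00, d01,
      d10, d11]
    linear_combination 4 * hcu
  have hLo : ∀ x, (1, Lo x) ∈ G := by
    intro x
    obtain ⟨⟨z₁, l₁⟩, hz₁, hl₁⟩ := hLb (h15 * x)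
    have hl₁' : l₁ = Lo (h15 * x) := hl₁
    rw [hl₁'] at hz₁
    have h3 : X * (z₁, Lo (h15 * x)) * X⁻¹ * (z₁, Lo (h15 * x))⁻¹ ∈ G :=
      G.mul_mem (G.mul_mem (G.mul_mem hXG hz₁) (G.inv_mem hXG)) (G.inv_mem hz₁)
    have h4 : X * (z₁, Lo (h15 * x)) * X⁻¹ * (z₁, Lo (h15 * x))⁻¹ = (1, Lo x) := by
      refine Prod.ext ?_ ?_
      · show X.1 * z₁ * X.1⁻¹ * z₁⁻¹ = 1
        rw [X1, inv_one, mul_one, one_mul, mul_inv_cancel]
      · show X.2 * Lo (h15 * x) * X.2⁻¹ * (Lo (h15 * x))⁻¹ = Lo x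
        have hdX := det2 X.2
        rw [X00, X01, X11] at hdX
        apply ext2
        · simp only [mul00, mul01, mul10, mul11, inv00, inv01, inv10, inv11, lo00, lo01, lo10, lo11,
            X00, X01, X11]
          linear_combination hdX
        · simp only [mul00, mul01, mul10, mul11, inv00, inv01, inv10, inv11, lo00, lo01, lo10, lo11,
            X00, X01, X11]
          ring
        · simp only [mul00, mul01, mul10, mul11, inv00, inv01, inv10, inv11, lo00, lo01, lo10, lo11,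
            X00, X01, X11]
          linear_combination (-(h15 * x)) * hdX + x * hh15
        · simp only [mul00, mul01, mul10, mul11, inv00, inv01, inv10, inv11, lo00, lo01, lo10, lo11,
            X00, X01, X11]
          linear_combination hdX
    rw [← h4]
    exact h3
  have hUp : ∀ x, (1, Up x) ∈ G := by
    intro x
    -- an element `(z₂, w)` with `w = (0, -1; 1, 0)`
    have hw : Up (-1) * Lo 1 * Up (-1) ∈ Gb := Gb.mul_mem (Gb.mul_mem (hTb _) (hLb _)) (hTb _)
    obtain ⟨⟨z₂, w₂⟩, hz₂, hw₂⟩ := hw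
    have hw₂' : w₂ = Up (-1) * Lo 1 * Up (-1) := hw₂
    have w00 : w₂.1 0 0 = 0 := by
      rw [hw₂']
      simp only [mul00, mul01, mul10, mul11, up00, up01, up10, up11, lo00, lo01, lo10, lo11]
      ring
    have w11 : w₂.1 1 1 = 0 := by
      rw [hw₂']
      simp only [mul00, mul01, mul10, mul11, up00, up01, up10, up11, lo00, lo01, lo10, lo11]
      ring
    have w10 : w₂.1 1 0 * 1 = 1 := by
      rw [hw₂']
      simp only [mul00, mul01, mul10, mul11, up00, up01, up10, up11, lo00, lo01, lo10, lo11]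
      ring
    have h3 : (z₂, w₂) * (1, Lo (-(w₂.1 1 0) ^ 2 * x)) * (z₂, w₂)⁻¹ ∈ G :=
      G.mul_mem (G.mul_mem hz₂ (hLo _)) (G.inv_mem hz₂)
    have h4 : (z₂, w₂) * (1, Lo (-(w₂.1 1 0) ^ 2 * x)) * (z₂, w₂)⁻¹ = (1, Up x) := by
      refine Prod.ext ?_ ?_
      · show z₂ * 1 * z₂⁻¹ = 1
        rw [mul_one, mul_inv_cancel]
      · exact conj_lo w00 w11 w10 x
    rw [← h4]
    exact h3
  have hUa : ∀ x, (Up x, 1) ∈ G := by
    intro x
    have h3 : (Up (m * (mi * x)), Up (l * (mi * x))) * (1, Up (-(l * (mi * x)))) ∈ G :=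
      G.mul_mem (hT _) (hUp _)
    have h4 : (Up (m * (mi * x)), Up (l * (mi * x))) * (1, Up (-(l * (mi * x)))) =
        ((Up x, 1) : SpecialLinearGroup (Fin 2) R × SpecialLinearGroup (Fin 2) R) := by
      refine Prod.ext ?_ ?_
      · show Up (m * (mi * x)) * 1 = Up x
        rw [mul_one]
        congr 1
        linear_combination x * hmi
      · show Up (l * (mi * x)) * Up (-(l * (mi * x))) = 1
        rw [up_add, add_neg_cancel, up_zero]
    rw [← h4]
    exact h3
  refine ⟨hUa, ?_, hUp, hLo⟩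
  -- the first factor
  set Ga : Subgroup (SpecialLinearGroup (Fin 2) R) := G.comap (MonoidHom.inl _ _) with hGa
  have hmem : ∀ y, y ∈ Ga ↔ (y, 1) ∈ G := fun y => Iff.rfl
  have h5 : ga * Up 1 * ga⁻¹ ∈ Ga := by
    rw [hmem]
    have h6 : (ga, gb) * (Up 1, 1) * (ga, gb)⁻¹ ∈ G := G.mul_mem (G.mul_mem hg (hUa 1)) (G.inv_mem hg)
    have h7 : (ga, gb) * (Up 1, 1) * (ga, gb)⁻¹ = (ga * Up 1 * ga⁻¹, 1) := by
      refine Prod.ext rfl ?_
      show gb * 1 * gb⁻¹ = 1
      rw [mul_one, mul_inv_cancel]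
    rw [← h7]
    exact h6
  have h6 : (ga * Up 1 * ga⁻¹).1 1 0 * (-(ci ^ 2)) = 1 := by
    simp only [mul00, mul01, mul10, mul11, up00, up01, up10, up11, inv00, inv01, inv10, inv11,
      ← hα, ← hβ, ← hγ, ← hδ]
    linear_combination (γ * ci + 1) * hci
  intro x
  exact (hmem _).1 (lo_mem (fun y => (hmem _).2 (hUa y)) h5 h6 x)

/-- reduction modulo `L` -/
def red (L : ℕ) : SpecialLinearGroup (Fin 2) ℤ →* SpecialLinearGroup (Fin 2) (ZMod L) :=
  Matrix.SpecialLinearGroup.map (Int.castRingHom (ZMod L))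

theorem red_apply (L : ℕ) (A : SpecialLinearGroup (Fin 2) ℤ) (i j : Fin 2) :
    (red L A).1 i j = ((A.1 i j : ℤ) : ZMod L) := rfl

/-- powers of the upper elementary matrices -/
theorem up_zpow (x : R) (k : ℤ) : Up x ^ k = Up (k * x) := by
  induction k using Int.induction_on with
  | zero => rw [zpow_zero, Int.cast_zero, zero_mul, up_zero]
  | succ k ih =>
    rw [_root_.zpow_add_one, ih, up_add]
    congr 1
    push_cast
    ring
  | pred k ih =>
    rw [_root_.zpow_sub_one, ih, up_inv, up_add]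
    congr 1
    push_cast
    ring

theorem red_up (L : ℕ) (x : ℤ) : red L (Up x) = Up ((x : ℤ) : ZMod L) := by
  apply ext2 <;> rw [red_apply]
  · rw [up00, up00, Int.cast_one]
  · rw [up01, up01]
  · rw [up10, up10, Int.cast_zero]
  · rw [up11, up11, Int.cast_one]

theorem red_lo (L : ℕ) (x : ℤ) : red L (Lo x) = Lo ((x : ℤ) : ZMod L) := by
  apply ext2 <;> rw [red_apply]
  · rw [lo00, lo00, Int.cast_one]
  · rw [lo01, lo01, Int.cast_zero]
  · rw [lo10, lo10]
  · rw [lo11, lo11, Int.cast_one]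

/-- `SL₂(ℤ)` is generated by the elementary matrices -/
theorem mem_of_elem {H : Subgroup (SpecialLinearGroup (Fin 2) ℤ)} (hT : Up 1 ∈ H) (hL : Lo 1 ∈ H)
    (A : SpecialLinearGroup (Fin 2) ℤ) : A ∈ H := by
  have h1 : A ∈ Subgroup.closure {ModularGroup.S, ModularGroup.T} := by
    rw [SpecialLinearGroup.SL2Z_generators]
    trivial
  refine (Subgroup.closure_le H).2 ?_ h1
  rintro B (hB | hB)
  · rw [hB]
    have h2 : ModularGroup.S = (Up 1)⁻¹ * Lo 1 * (Up 1)⁻¹ := by
      rw [up_inv]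
      apply ext2 <;> simp only [mul00, mul01, mul10, mul11, up00, up01, up10, up11, lo00, lo01, lo10,
        lo11] <;> simp [ModularGroup.S]
    rw [h2]
    exact H.mul_mem (H.mul_mem (H.inv_mem hT) hL) (H.inv_mem hT)
  · rw [hB]
    have h2 : ModularGroup.T = Up 1 := by
      apply ext2 <;> simp [ModularGroup.T, up00, up01, up10, up11]
    rw [h2]
    exact hT

/-- **the image of a subgroup of `SL₂(ℤ)²` modulo `L`** -/
theorem gen_mod {G : Subgroup (SpecialLinearGroup (Fin 2) ℤ × SpecialLinearGroup (Fin 2) ℤ)}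
    {m l : ℤ} (hT : (Up m, Up l) ∈ G)
    {g : SpecialLinearGroup (Fin 2) ℤ × SpecialLinearGroup (Fin 2) ℤ} (hg : g ∈ G) {L : ℕ}
    (hL : IsCoprime (30 * m * l * g.1.1 1 0 * g.2.1 1 0 *
      (l ^ 2 * g.2.1 1 0 ^ 2 - m ^ 2 * g.1.1 1 0 ^ 2)) (L : ℤ))
    (x y : SpecialLinearGroup (Fin 2) ℤ) :
    ∃ γ ∈ G, red L γ.1 = red L x ∧ red L γ.2 = red L y := by
  set G' : Subgroup (SpecialLinearGroup (Fin 2) (ZMod L) × SpecialLinearGroup (Fin 2) (ZMod L)) :=
    G.map ((red L).prodMap (red L)) with hG'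
  have hT' : ∀ k : ZMod L, (Up ((m : ZMod L) * k), Up ((l : ZMod L) * k)) ∈ G' := by
    intro k
    obtain ⟨j, rfl⟩ := ZMod.intCast_surjective k
    refine ⟨(Up m, Up l) ^ j, G.zpow_mem hT j, ?_⟩
    refine Prod.ext ?_ ?_
    · show red L (Up m ^ j) = _
      rw [up_zpow, red_up]
      push_cast
      rw [mul_comm]
    · show red L (Up l ^ j) = _
      rw [up_zpow, red_up]
      push_cast
      rw [mul_comm]
  have hg' : (red L g.1, red L g.2) ∈ G' := ⟨g, hg, rfl⟩
  have hu : IsUnit (30 * (m : ZMod L) * (l : ZMod L) * (red L g.1).1 1 0 * (red L g.2).1 1 0 *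
      ((l : ZMod L) ^ 2 * (red L g.2).1 1 0 ^ 2 - (m : ZMod L) ^ 2 * (red L g.1).1 1 0 ^ 2)) := by
    obtain ⟨a, b, hab⟩ := hL
    have h1 := congrArg (fun z : ℤ => (z : ZMod L)) hab
    simp only [Int.cast_add, Int.cast_mul, Int.cast_natCast, ZMod.natCast_self, mul_zero, add_zero,
      Int.cast_one, Int.cast_pow, Int.cast_sub, Int.cast_ofNat] at h1
    rw [red_apply, red_apply]
    exact IsUnit.of_mul_eq_one _ (by rw [mul_comm]; exact h1)
  obtain ⟨h1, h2, h3, h4⟩ := gen_top hT' hg' hu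
  -- the first factor
  have ha : (red L x, 1) ∈ G' := by
    set H : Subgroup (SpecialLinearGroup (Fin 2) ℤ) :=
      G'.comap ((MonoidHom.inl _ _).comp (red L)) with hH
    refine mem_of_elem (H := H) ?_ ?_ x
    · show (red L (Up 1), 1) ∈ G'
      rw [red_up]
      exact h1 _
    · show (red L (Lo 1), 1) ∈ G'
      rw [red_lo]
      exact h2 _
  have hb : (1, red L y) ∈ G' := by
    set H : Subgroup (SpecialLinearGroup (Fin 2) ℤ) :=
      G'.comap ((MonoidHom.inr _ _).comp (red L)) with hH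
    refine mem_of_elem (H := H) ?_ ?_ y
    · show (1, red L (Up 1)) ∈ G'
      rw [red_up]
      exact h3 _
    · show (1, red L (Lo 1)) ∈ G'
      rw [red_lo]
      exact h4 _
  have hab : (red L x, red L y) ∈ G' := by
    have h5 : (red L x, red L y) = (red L x, 1) * (1, red L y) := by
      refine Prod.ext ?_ ?_
      · show red L x = red L x * 1
        rw [mul_one]
      · show red L y = 1 * red L y
        rw [one_mul]
    rw [h5]
    exact G'.mul_mem ha hb
  obtain ⟨γ, hγ, he⟩ := hab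
  exact ⟨γ, hγ, congrArg Prod.fst he, congrArg Prod.snd he⟩

end Pool.Agent.LGO.RU
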