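import Mathlib
import Pool.Agent.LGO.AXG.FamR

/-!
# LGO/RU: monodromy, all analytic relations at once

`EQ β γ β' γ'`: the lifts of `β` moved by `γ` and the lifts of `β'` moved by `γ'` satisfy the same analytic relations `Φ`
(`AnR`, `RR` of `LGO/AXG/FamR`).  `eq_ovl`, `eq_transport`, `eq_glob`, `eq_hol`: as in `FamR`.  `MG β`: the group of all `δ` with
`EQ β 1 β δ`.
-/

namespace Pool.Agent.LGO.RU

open Polynomial Pool.Agent.LGO Pool.Agent.LGO.AX Pool.Agent.LGO.AXG Filter Topology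
open scoped MatrixGroups

variable {d : ℕ} {S : Cur d}

/-- the same analytic relations -/
def EQ (β : Br S) (γ : Fin d → SL(2, ℤ)) (β' : Br S) (γ' : Fin d → SL(2, ℤ)) : Prop :=
  ∀ Φ : (Fin d → ℂ) → ℂ × ℂ → ℂ, AnR S Φ → (RR Φ β γ ↔ RR Φ β' γ')

theorem EQ.refl (β : Br S) (γ : Fin d → SL(2, ℤ)) : EQ β γ β γ := fun _ _ => Iff.rfl

theorem EQ.symm {β β' : Br S} {γ γ' : Fin d → SL(2, ℤ)} (h : EQ β γ β' γ') : EQ β' γ' β γ :=
  fun Φ hΦ => (h Φ hΦ).symm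

theorem EQ.trans {β β' β'' : Br S} {γ γ' γ'' : Fin d → SL(2, ℤ)} (h : EQ β γ β' γ')
    (h' : EQ β' γ' β'' γ'') : EQ β γ β'' γ'' := fun Φ hΦ => (h Φ hΦ).trans (h' Φ hΦ)

/-- the relation `Φ(δ ζ, p)` -/
theorem anR_left {Φ : (Fin d → ℂ) → ℂ × ℂ → ℂ} (hΦ : AnR S Φ) (δ : Fin d → SL(2, ℤ)) :
    AnR S (fun ζ p => Φ (fun a => mz (δ a).1 (ζ a)) p) := by
  intro β γ
  refine (hΦ β (δ * γ)).congr β.isOpen ?_
  intro v hv
  simp only
  congr 1
  funext a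
  rw [Pi.mul_apply, mz_mul_sl _ _ (β.zim a hv)]

theorem rr_left (Φ : (Fin d → ℂ) → ℂ × ℂ → ℂ) (β : Br S) (δ γ : Fin d → SL(2, ℤ)) :
    RR (fun ζ p => Φ (fun a => mz (δ a).1 (ζ a)) p) β γ ↔ RR Φ β (δ * γ) := by
  refine forall₂_congr fun v hv => ?_
  have h : (fun a => mz ((δ * γ) a).1 (β.z a v)) = fun a => mz (δ a).1 (mz (γ a).1 (β.z a v)) := by
    funext a
    rw [Pi.mul_apply, mz_mul_sl _ _ (β.zim a hv)]
  rw [h]

theorem EQ.left {β β' : Br S} {γ γ' : Fin d → SL(2, ℤ)} (h : EQ β γ β' γ') (δ : Fin d → SL(2, ℤ)) :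
    EQ β (δ * γ) β' (δ * γ') := by
  intro Φ hΦ
  rw [← rr_left, ← rr_left]
  exact h _ (anR_left hΦ δ)

/-- the values of the lifts of the two branches at the common point, and the relations -/
theorem eq_ovl (a₀ : Fin d) (β β' : Br S) {w w' : ℂ}
    (hw : w ∈ β.U) (hw' : w' ∈ β'.U) (h : β.pt w = β'.pt w') :
    ∃ κ : Fin d → SL(2, ℤ), (∀ a, β'.z a w' = mz (κ a).1 (β.z a w)) ∧
      ∀ γ', EQ β (γ' * κ) β' γ' := by
  obtain ⟨φ, ε, hε, hsub', hφd, hφw, hinj, hall'⟩ := ovl (β.ax a₀) (β'.ax a₀) hw hw' h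
  have hsub : Metric.ball w ε ⊆ β.U := hsub'
  have hall : ∀ v ∈ Metric.ball w ε, φ v ∈ β'.U ∧ β'.pt (φ v) = β.pt v := hall'
  have hwb : w ∈ Metric.ball w ε := Metric.mem_ball_self hε
  have hlift : ∀ a, ∃ γ : SL(2, ℤ), ∀ v ∈ Metric.ball w ε,
      β'.z a (φ v) = mz γ.1 (β.z a v) := by
    intro a
    refine lift_unique (D := Metric.ball w ε) (f := β.z a) (g := fun v => β'.z a (φ v))
      Metric.isOpen_ball (convex_ball w ε).isPreconnected ⟨w, hwb⟩ ((β.zdiff a).mono hsub) ?_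
      (fun v hv => β.zim a (hsub hv)) (fun v hv => β'.zim a (hall v hv).1) ?_
    · exact (β'.zdiff a).comp hφd (fun v hv => (hall v hv).1)
    · intro v hv
      rw [β.jFz a (hsub hv), β'.jFz a (hall v hv).1, (hall v hv).2]
  choose κ hκ using hlift
  refine ⟨κ, fun a => ?_, fun γ' Φ hΦ => ?_⟩
  · have h1 := hκ a w hwb
    rwa [hφw] at h1
  · -- the two functions on the disc
    have hrel : ∀ v ∈ Metric.ball w ε, Φ (fun a => mz ((γ' * κ) a).1 (β.z a v)) (β.pt v) =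
        Φ (fun a => mz (γ' a).1 (β'.z a (φ v))) (β'.pt (φ v)) := by
      intro v hv
      rw [(hall v hv).2]
      congr 1
      funext a
      rw [hκ a v hv, Pi.mul_apply, mz_mul_sl _ _ (β.zim a (hsub hv))]
    have hφc : ContinuousAt φ w :=
      (hφd.differentiableAt (Metric.isOpen_ball.mem_nhds hwb)).continuousAt
    constructor
    · intro hG
      have htend : Tendsto φ (𝓝[≠] w) (𝓝[≠] w') := by
        refine tendsto_nhdsWithin_iff.2 ⟨?_, ?_⟩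
        · have h1 : Tendsto φ (𝓝 w) (𝓝 (φ w)) := hφc
          rw [hφw] at h1
          exact h1.mono_left nhdsWithin_le_nhds
        · have h1 : ∀ᶠ v in 𝓝[≠] w, v ∈ Metric.ball w ε :=
            nhdsWithin_le_nhds (Metric.ball_mem_nhds w hε)
          filter_upwards [h1, self_mem_nhdsWithin] with v hv hne
          intro hv2
          rw [Set.mem_singleton_iff, ← hφw] at hv2
          exact hne (hinj hv hwb hv2)
      have hfr : ∃ᶠ z in 𝓝[≠] w', Φ (fun a => mz (γ' a).1 (β'.z a z)) (β'.pt z) = 0 := by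
        refine htend.frequently (Eventually.frequently ?_)
        have h1 : ∀ᶠ v in 𝓝[≠] w, v ∈ Metric.ball w ε :=
          nhdsWithin_le_nhds (Metric.ball_mem_nhds w hε)
        filter_upwards [h1] with v hv
        rw [← hrel v hv]
        exact hG v (hsub hv)
      exact fun v hv => (hΦ β' γ').eqOn_zero_of_preconnected_of_frequently_eq_zero
        β'.convex.isPreconnected hw' hfr hv
    · intro hG
      have hev : (fun v => Φ (fun a => mz ((γ' * κ) a).1 (β.z a v)) (β.pt v)) =ᶠ[𝓝 w] 0 := by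
        filter_upwards [Metric.ball_mem_nhds w hε] with v hv
        rw [hrel v hv]
        exact hG (φ v) (hall v hv).1
      exact fun v hv => (hΦ β (γ' * κ)).eqOn_zero_of_preconnected_of_eventuallyEq_zero
        β.convex.isPreconnected hw hev hv

theorem eq_transport (a₀ : Fin d) (A : Atl S) (β β' : Br S) (γ : Fin d → SL(2, ℤ)) :
    ∃ γ', EQ β γ β' γ' := by
  let S' : AX.Cur := (S.ax a₀).rem A.cen
  have hS' : ∀ p, p ∈ S'.pt ↔ p ∈ S.pt ∧ p.1 ∉ A.cen := fun p => AX.Cur.mem_rem (S.ax a₀) A.cen p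
  set P : ℂ × ℂ → Prop := fun p => ∃ β₁ : Br S, ∃ w ∈ β₁.U, β₁.pt w = p ∧ ∃ γ₁, EQ β γ β₁ γ₁ with hP
  have key : ∀ (β₁ : Br S) (v : ℂ), v ∈ β₁.U → (P (β₁.pt v) ↔ ∃ γ₁, EQ β γ β₁ γ₁) := by
    intro β₁ v hv
    constructor
    · rintro ⟨β₂, w₂, hw₂, h2, γ₂, hγ₂⟩
      obtain ⟨κ, -, hκ⟩ := eq_ovl a₀ β₁ β₂ hv hw₂ h2.symm
      exact ⟨γ₂ * κ, hγ₂.trans (hκ γ₂).symm⟩
    · rintro ⟨γ₁, h1⟩
      exact ⟨β₁, v, hv, rfl, γ₁, h1⟩
  have hLC : LC S' P := by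
    intro p hp
    rw [hS'] at hp
    obtain ⟨i, w₁, hw₁, rfl⟩ := cover_mem A hp.1 hp.2
    have h2 := br_nhds ((A.br i).ax a₀) hw₁
    have h3 : 𝓝[S'.pt] ((A.br i).pt w₁) ≤ 𝓝[S.pt] ((A.br i).pt w₁) := by
      refine nhdsWithin_mono _ ?_
      intro q hq
      exact ((hS' _).mp hq).1
    filter_upwards [h3 h2] with p' hp'
    obtain ⟨v, hv, hvp⟩ := hp'
    have hv' : v ∈ (A.br i).U := hv
    have hvp' : (A.br i).pt v = p' := hvp
    rw [← hvp', key (A.br i) v hv', key (A.br i) w₁ hw₁]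
  obtain ⟨w, hw, hwE⟩ := br_avoid (β.ax a₀) A.cen
  obtain ⟨w', hw', hwE'⟩ := br_avoid (β'.ax a₀) A.cen
  have h1 : P (β'.pt w') := by
    refine connected S' hLC (p₀ := β.pt w) ?_ ?_ (β'.pt w') ?_
    · exact (hS' _).mpr ⟨β.ptm hw, hwE⟩
    · exact ⟨β, w, hw, rfl, γ, EQ.refl β γ⟩
    · exact (hS' _).mpr ⟨β'.ptm hw', hwE'⟩
  exact (key β' w' hw').mp h1

/-- **the monodromy group** -/
def MG (β : Br S) : Subgroup (Fin d → SL(2, ℤ)) where
  carrier := {δ | EQ β 1 β δ}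
  one_mem' := EQ.refl β 1
  mul_mem' := by
    intro g h hg hh
    have h1 : EQ β (g * 1) β (g * h) := EQ.left hh g
    rw [mul_one] at h1
    exact EQ.trans hg h1
  inv_mem' := by
    intro g hg
    have h1 : EQ β (g⁻¹ * 1) β (g⁻¹ * g) := EQ.left hg g⁻¹
    rw [mul_one, inv_mul_cancel] at h1
    exact h1.symm

theorem mem_MG {β : Br S} {δ : Fin d → SL(2, ℤ)} : δ ∈ MG β ↔ EQ β 1 β δ := Iff.rfl

/-- elements of the monodromy from other branches -/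
theorem mem_MG_of {β β' : Br S} {γ δ : Fin d → SL(2, ℤ)} (h : EQ β 1 β' γ) (h' : EQ β 1 β' (δ * γ)) :
    δ ∈ MG β := by
  have h1 : EQ β (δ * 1) β' (δ * γ) := h.left δ
  rw [mul_one] at h1
  exact h'.trans h1.symm

theorem MG_mul {β β' : Br S} {γ δ : Fin d → SL(2, ℤ)} (hδ : δ ∈ MG β) (h : EQ β 1 β' γ) :
    EQ β 1 β' (δ * γ) := by
  have h1 : EQ β (δ * 1) β' (δ * γ) := h.left δ
  rw [mul_one] at h1
  exact EQ.trans hδ h1

/-- the loop around the centre of a branch -/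
theorem eq_shift (β : Br S) (γ : Fin d → SL(2, ℤ)) :
    EQ β γ β (γ * fun a => ModularGroup.T ^ (β.e a)) := by
  have hz : ∀ v ∈ β.U, (fun a => mz ((γ * fun a => ModularGroup.T ^ (β.e a)) a).1 (β.z a v)) =
      fun a => mz (γ a).1 (β.z a (v + 2 * Real.pi * Complex.I * (1 : ℤ))) := by
    intro v hv
    funext a
    rw [Pi.mul_apply, mz_mul_sl _ _ (β.zim a hv), mz_T, β.zshift a v 1, Int.cast_one, mul_one]
  have hp : ∀ (v : ℂ) (n : ℤ), β.pt (v + 2 * Real.pi * Complex.I * n) = β.pt v := by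
    intro v n
    have h1 : Complex.exp (v + 2 * Real.pi * Complex.I * n) = Complex.exp v := by
      rw [Complex.exp_eq_exp_iff_exists_int]
      exact ⟨n, by ring⟩
    rw [AXG.Br.pt, AXG.Br.pt, h1]
  intro Φ _
  constructor
  · intro h v hv
    rw [hz v hv, ← hp v 1]
    exact h _ (β.shift hv 1)
  · intro h v hv
    have h1 := h _ (β.shift hv (-1))
    rw [hz _ (β.shift hv (-1)), hp] at h1
    have h2 : v + 2 * Real.pi * Complex.I * ((-1 : ℤ) : ℂ) + 2 * Real.pi * Complex.I * ((1 : ℤ) : ℂ) = v := by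
      push_cast
      ring
    rw [h2] at h1
    exact h1

/-- the loop around the centre of another branch -/
theorem loop_mem {β β' : Br S} {γ : Fin d → SL(2, ℤ)} (h : EQ β 1 β' γ) :
    (γ * (fun a => ModularGroup.T ^ (β'.e a)) * γ⁻¹) ∈ MG β := by
  refine mem_MG_of h ?_
  rw [inv_mul_cancel_right]
  exact h.trans (eq_shift β' γ)

/-- functions on the curve from functions on the lifts which are invariant under the monodromy -/
theorem eq_glob (a₀ : Fin d) {X : Type} [Inhabited X] (β₀ : Br S)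
    (Q : (Fin d → ℂ) → X) (hQ : ∀ δ ∈ MG β₀,
      ∀ ζ : Fin d → ℂ, (∀ a, 0 < (ζ a).im) → Q (fun a => mz (δ a).1 (ζ a)) = Q ζ) :
    ∃ h : ℂ × ℂ → X, ∀ (β : Br S) (γ : Fin d → SL(2, ℤ)), EQ β₀ 1 β γ →
      ∀ w ∈ β.U, h (β.pt w) = Q (fun a => mz (γ a).1 (β.z a w)) := by
  classical
  have hex : ∀ p : ℂ × ℂ, ∃ x : X, ∀ (β : Br S) (γ : Fin d → SL(2, ℤ)), EQ β₀ 1 β γ →
      ∀ w ∈ β.U, β.pt w = p → x = Q (fun a => mz (γ a).1 (β.z a w)) := by
    intro p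
    by_cases hp : ∃ (β : Br S) (γ : Fin d → SL(2, ℤ)) (w : ℂ), EQ β₀ 1 β γ ∧ w ∈ β.U ∧ β.pt w = p
    · obtain ⟨β', γ', w', hI', hw', hp'⟩ := hp
      refine ⟨Q (fun a => mz (γ' a).1 (β'.z a w')), ?_⟩
      intro β γ hI w hw hpw
      obtain ⟨κ, hκ, hv⟩ := eq_ovl a₀ β β' hw hw' (hpw.trans hp'.symm)
      have hδ : γ' * κ * γ⁻¹ ∈ MG β₀ := by
        refine mem_MG_of hI ?_
        rw [inv_mul_cancel_right]
        exact hI'.trans (hv γ').symm
      have hz : ∀ a, 0 < (mz (γ a).1 (β.z a w)).im := fun a => mz_im_sl (γ a) (β.zim a hw)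
      rw [← hQ _ hδ (fun a => mz (γ a).1 (β.z a w)) hz]
      have h2 : (fun a => mz (γ' a).1 (β'.z a w')) =
          fun a => mz ((γ' * κ * γ⁻¹) a).1 (mz (γ a).1 (β.z a w)) := by
        funext a
        rw [hκ a, ← mz_mul_sl _ _ (β.zim a hw), ← mz_mul_sl _ _ (β.zim a hw)]
        have h3 : (γ' * κ * γ⁻¹) a * γ a = γ' a * κ a := by
          simp only [Pi.mul_apply, Pi.inv_apply, inv_mul_cancel_right]
        rw [h3]
      rw [h2]
    · refine ⟨default, ?_⟩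
      intro β γ hI w hw hpw
      exact absurd ⟨β, γ, w, hI, hw, hpw⟩ hp
  choose h hh using hex
  exact ⟨h, fun β γ hI w hw => hh _ β γ hI w hw rfl⟩

theorem eq_hol (A : Atl S) {β₀ : Br S} (a : Fin d) {q : ℂ → ℂ}
    (hq : DifferentiableOn ℂ q {z : ℂ | 0 < z.im}) {h : ℂ × ℂ → ℂ}
    (hh : ∀ (β : Br S) (γ : Fin d → SL(2, ℤ)), EQ β₀ 1 β γ → ∀ w ∈ β.U,
      h (β.pt w) = q (mz (γ a).1 (β.z a w))) : Hol ((S.ax a).rem A.cen) h := by
  intro Ω y hΩ hy hp T₀ hT₀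
  have hS' : ∀ p, p ∈ ((S.ax a).rem A.cen).pt ↔ p ∈ S.pt ∧ p.1 ∉ A.cen :=
    fun p => AX.Cur.mem_rem (S.ax a) A.cen p
  have hp' : ∀ T ∈ Ω, (T, y T) ∈ S.pt := fun T hT => ((hS' _).mp (hp T hT)).1
  have hc : T₀ ∉ A.cen := ((hS' _).mp (hp T₀ hT₀)).2
  obtain ⟨i, w, hw, h2⟩ := cover_mem A (hp' T₀ hT₀) hc
  obtain ⟨v, ε, hε, hsub, hvd, hvT, hv'⟩ := sec_param ((A.br i).ax a) hw hΩ hy hp' hT₀ h2
  have hv : ∀ T ∈ Metric.ball T₀ ε, v T ∈ (A.br i).U ∧ (A.br i).pt (v T) = (T, y T) := hv'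
  obtain ⟨γ', hγ'⟩ := eq_transport a A β₀ (A.br i) 1
  have hT₀b : T₀ ∈ Metric.ball T₀ ε := Metric.mem_ball_self hε
  have hdet : ((γ' a).1).det ≠ 0 := by
    rw [(γ' a).2]
    exact one_ne_zero
  have d1 : DifferentiableOn ℂ (fun T => (A.br i).z a (v T)) (Metric.ball T₀ ε) :=
    ((A.br i).zdiff a).comp hvd (fun T hT => (hv T hT).1)
  have d2 : DifferentiableOn ℂ (fun T => mz (γ' a).1 ((A.br i).z a (v T))) (Metric.ball T₀ ε) :=
    (mz_diff hdet).comp d1 (fun T hT => (A.br i).zim a (hv T hT).1)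
  have d3 : DifferentiableOn ℂ (fun T => q (mz (γ' a).1 ((A.br i).z a (v T)))) (Metric.ball T₀ ε) :=
    hq.comp d2 (fun T hT => mz_im_sl (γ' a) ((A.br i).zim a (hv T hT).1))
  have d4 : DifferentiableAt ℂ (fun T => q (mz (γ' a).1 ((A.br i).z a (v T)))) T₀ :=
    d3.differentiableAt (Metric.isOpen_ball.mem_nhds hT₀b)
  have hev : (fun T => h (T, y T)) =ᶠ[nhds T₀] fun T => q (mz (γ' a).1 ((A.br i).z a (v T))) := by
    filter_upwards [Metric.isOpen_ball.mem_nhds hT₀b] with T hT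
    rw [← (hv T hT).2]
    exact hh (A.br i) γ' hγ' (v T) (hv T hT).1
  exact (hev.differentiableAt_iff.mpr d4).differentiableWithinAt

end Pool.Agent.LGO.RU
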