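import Mathlib
import Pool.Agent.LGO.RU.MonA

/-!
# LGO/RU: an element of the monodromy which moves the cusp

`FamR.rr_c` for the monodromy group `MG`.
-/

namespace Pool.Agent.LGO.RU

open Polynomial Pool.Agent.LGO Pool.Agent.LGO.AX Pool.Agent.LGO.AXG Filter Topology
open scoped MatrixGroups

variable {d : ℕ} {S : Cur d}

/-- an upper triangular element is a translation -/
private theorem MonB_exp (δ : SL(2, ℤ)) (h : δ.1 1 0 = 0) (z : ℂ) :
    Complex.exp (2 * Real.pi * Complex.I * mz δ.1 z) = Complex.exp (2 * Real.pi * Complex.I * z) := by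
  have hd : δ.1 0 0 * δ.1 1 1 = 1 := by
    have h1 := δ.2
    rw [Matrix.det_fin_two, h, mul_zero, sub_zero] at h1
    exact h1
  have h2 : ∃ n : ℤ, mz δ.1 z = z + n := by
    rcases Int.mul_eq_one_iff_eq_one_or_neg_one.mp hd with ⟨h3, h4⟩ | ⟨h3, h4⟩
    · refine ⟨δ.1 0 1, ?_⟩
      rw [mz, h, h3, h4]
      simp
    · refine ⟨-δ.1 0 1, ?_⟩
      rw [mz, h, h3, h4]
      push_cast
      field_simp
      ring
  obtain ⟨n, hn⟩ := h2
  rw [hn, Complex.exp_eq_exp_iff_exists_int]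
  exact ⟨n, by ring⟩

private theorem MonB_norm {z : ℂ} (hz : 0 < z.im) : ‖Complex.exp (2 * Real.pi * Complex.I * z)‖ ≤ 1 := by
  rw [Complex.norm_exp]
  have h1 : (2 * Real.pi * Complex.I * z).re = -(2 * Real.pi * z.im) := by
    have h2 : (2 * Real.pi * Complex.I * z) = ((2 * Real.pi : ℝ) : ℂ) * (Complex.I * z) := by
      push_cast
      ring
    rw [h2, Complex.re_ofReal_mul, Complex.I_mul_re]
    ring
  rw [h1, Real.exp_le_one_iff]
  have h3 : 0 < 2 * Real.pi * z.im := by positivity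
  linarith

/-- the inverse of the local coordinate -/
private noncomputable def MonB_q (o : Option ℂ) (T : ℂ) : ℂ := o.elim T⁻¹ (fun c => T - c)

private theorem MonB_q_Tp (o : Option ℂ) (s : ℂ) : MonB_q o (Tp o s) = s := by
  cases o with
  | none => simp [MonB_q, Tp]
  | some c => simp [MonB_q, Tp]

/-- **an element of the monodromy which moves the cusp** -/
theorem eq_c (A : Atl S) (β : Br S) {a : Fin d} (he : 0 < β.e a) : ∃ δ ∈ MG β, (δ a).1 1 0 ≠ 0 := by
  by_contra hcon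
  push Not at hcon
  have hS' : ∀ p, p ∈ ((S.ax a).rem A.cen).pt ↔ p ∈ S.pt ∧ p.1 ∉ A.cen :=
    fun p => AX.Cur.mem_rem (S.ax a) A.cen p
  obtain ⟨h, hh⟩ := eq_glob a β (fun ζ : Fin d → ℂ => Complex.exp (2 * Real.pi * Complex.I * ζ a)) (by
      intro δ h1 ζ _
      exact MonB_exp (δ a) (hcon δ h1) (ζ a))
  have hhol : Hol ((S.ax a).rem A.cen) h := by
    refine eq_hol A a (q := fun z => Complex.exp (2 * Real.pi * Complex.I * z)) ?_ hh
    have h1 : Differentiable ℂ (fun z : ℂ => Complex.exp (2 * Real.pi * Complex.I * z)) := by fun_prop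
    exact h1.differentiableOn
  have hfin := liouville ((S.ax a).rem A.cen) (h := h) ⟨1, by
    intro p hp
    rw [hS'] at hp
    obtain ⟨i, w, hw, rfl⟩ := cover_mem A hp.1 hp.2
    obtain ⟨γ', hγ'⟩ := eq_transport a A β (A.br i) 1
    rw [hh (A.br i) γ' hγ' w hw]
    exact MonB_norm (mz_im_sl (γ' a) ((A.br i).zim a hw))⟩ hhol
  -- the points `w = -n`
  set t : ℕ → ℂ := fun n => Complex.exp (-(n : ℂ)) with ht
  have htn : ∀ n : ℕ, ‖t n‖ = Real.exp (-(n : ℝ)) := by
    intro n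
    change ‖Complex.exp (-(n : ℂ))‖ = _
    rw [Complex.norm_exp, Complex.neg_re, Complex.natCast_re]
  have htend : Tendsto t atTop (𝓝 0) := by
    rw [tendsto_zero_iff_norm_tendsto_zero]
    have h1 : Tendsto (fun n : ℕ => Real.exp (-(n : ℝ))) atTop (𝓝 0) :=
      Real.tendsto_exp_neg_atTop_nhds_zero.comp tendsto_natCast_atTop_atTop
    exact h1.congr (fun n => (htn n).symm)
  have hU : ∀ᶠ n : ℕ in atTop, (-(n : ℂ)) ∈ β.U := by
    have h1 : ∀ᶠ n : ℕ in atTop, t n ∈ Metric.ball (0 : ℂ) β.r :=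
      htend.eventually_mem (Metric.ball_mem_nhds _ β.r_pos)
    filter_upwards [h1] with n hn
    rw [mem_ball_zero_iff, htn] at hn
    change Real.exp ((-(n : ℂ)).re) < β.r
    rw [Complex.neg_re, Complex.natCast_re]
    exact hn
  have hinj : Function.Injective (fun n : ℕ => (β.pt (-(n : ℂ))).1) := by
    intro n k hnk
    have h1 : t n ^ β.m = t k ^ β.m := by
      have h2 := congrArg (MonB_q β.o) hnk
      change MonB_q β.o (Tp β.o (t n ^ β.m)) = MonB_q β.o (Tp β.o (t k ^ β.m)) at h2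
      rwa [MonB_q_Tp, MonB_q_Tp] at h2
    have h3 := congrArg norm h1
    rw [norm_pow, norm_pow, htn, htn] at h3
    have h4 := (pow_left_inj₀ (Real.exp_pos _).le (Real.exp_pos _).le β.m_pos.ne').mp h3
    have h5 := Real.exp_injective h4
    have h6 : (n : ℝ) = k := by linarith
    exact_mod_cast h6
  have hE : ∀ᶠ n : ℕ in atTop, (β.pt (-(n : ℂ))).1 ∉ A.cen := by
    rw [← Nat.cofinite_eq_atTop]
    have h1 : {n : ℕ | ¬ (β.pt (-(n : ℂ))).1 ∉ A.cen}.Finite := by
      have h2 : ((fun n : ℕ => (β.pt (-(n : ℂ))).1) ⁻¹' (A.cen : Set ℂ)).Finite :=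
        A.cen.finite_toSet.preimage hinj.injOn
      refine h2.subset ?_
      intro n hn
      exact not_not.mp hn
    exact h1
  have hval : ∀ n : ℕ, Complex.exp (2 * Real.pi * Complex.I * β.z a (-(n : ℂ))) =
      t n ^ β.e a * Complex.exp (2 * Real.pi * Complex.I * β.ψ a (t n)) := by
    intro n
    rw [AXG.Br.z, zz, mul_add, Complex.exp_add]
    congr 1
    rw [ht, ← Complex.exp_nat_mul]
    congr 1
    have h1 : (2 * Real.pi * Complex.I : ℂ) ≠ 0 := Complex.two_pi_I_ne_zero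
    field_simp
  have hlim : Tendsto (fun n : ℕ => Complex.exp (2 * Real.pi * Complex.I * β.z a (-(n : ℂ)))) atTop (𝓝 0) := by
    have h0 : (0 : ℂ) ∈ Metric.ball (0 : ℂ) β.r := Metric.mem_ball_self β.r_pos
    have h1 : ContinuousAt (β.ψ a) 0 :=
      ((β.dψ a).differentiableAt (Metric.isOpen_ball.mem_nhds h0)).continuousAt
    have h2 : Tendsto (fun n => β.ψ a (t n)) atTop (𝓝 (β.ψ a 0)) := h1.tendsto.comp htend
    have h3 : Tendsto (fun n => Complex.exp (2 * Real.pi * Complex.I * β.ψ a (t n))) atTop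
        (𝓝 (Complex.exp (2 * Real.pi * Complex.I * β.ψ a 0))) :=
      (Complex.continuous_exp.tendsto _).comp (h2.const_mul _)
    have h4 : Tendsto (fun n => t n ^ β.e a) atTop (𝓝 0) := by
      have h5 := htend.pow (β.e a)
      rwa [zero_pow he.ne'] at h5
    have h5 := h4.mul h3
    rw [zero_mul] at h5
    exact h5.congr (fun n => (hval n).symm)
  have hmem : ∀ᶠ n : ℕ in atTop, Complex.exp (2 * Real.pi * Complex.I * β.z a (-(n : ℂ))) ∈
      {z : ℂ | ∃ p ∈ ((S.ax a).rem A.cen).pt, z = h p} \ {0} := by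
    filter_upwards [hU, hE] with n hn1 hn2
    refine ⟨⟨β.pt (-(n : ℂ)), (hS' _).mpr ⟨β.ptm hn1, hn2⟩, ?_⟩, Complex.exp_ne_zero _⟩
    rw [hh β 1 (EQ.refl β 1) _ hn1]
    change _ = Complex.exp (2 * Real.pi * Complex.I * mz (1 : SL(2, ℤ)).1 (β.z a (-(n : ℂ))))
    rw [mz_one]
  have hcl := (hfin.subset (Set.sdiff_subset (t := {0}))).isClosed.mem_of_tendsto hlim hmem
  exact hcl.2 rfl

end Pool.Agent.LGO.RU
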