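import Mathlib
import Pool.Agent.LGO.AXG.Max
import Pool.Agent.LGO.AXG.NoMod
import Pool.Agent.LGO.RU.MonA

/-!
# LGO/RU: equivariant lifts are related by a Möbius transformation (for the monodromy group)

`rel_MG`: as `LGO/AXG/Max.rel_of` with the monodromy group.  `cusp_h2`: the condition on the cusps follows from the
equivariance for the loops around the centres.  `not_equiv`: so there is no equivariance if there is no modular relation.
-/

namespace Pool.Agent.LGO.RU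

open Polynomial Pool.Agent.LGO Pool.Agent.LGO.AX Pool.Agent.LGO.AXG Filter Topology Metric
open scoped MatrixGroups

variable {d : ℕ} {S : Cur d}

private theorem im_zz (β : Br S) (a : Fin d) {t : ℂ} (ht : t ≠ 0) (hr : ‖t‖ < β.r) :
    0 < -(β.e a * Real.log ‖t‖ / (2 * Real.pi)) + (β.ψ a t).im := by
  have h1 := β.im_pos a (Complex.log t) (by
    rw [← Complex.norm_exp, Complex.exp_log ht]
    exact hr)
  rw [zz, Complex.exp_log ht, Complex.add_im] at h1
  have h2 : ((β.e a : ℂ) * Complex.log t / (2 * Real.pi * Complex.I)).im =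
      -(β.e a * Real.log ‖t‖ / (2 * Real.pi)) := by
    have h3 : (β.e a : ℂ) * Complex.log t / (2 * Real.pi * Complex.I) =
        ((β.e a / (2 * Real.pi) : ℝ) : ℂ) * (Complex.log t / Complex.I) := by
      push_cast
      rw [div_mul_div_comm]
    rw [h3, Complex.im_ofReal_mul, Complex.div_I, Complex.neg_im, Complex.mul_I_im, Complex.log_re]
    ring
  rw [h2] at h1
  exact h1

private theorem psi_im (β : Br S) {a : Fin d} (he : β.e a = 0) {t : ℂ} (ht : t ∈ ball (0 : ℂ) β.r) :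
    0 < (β.ψ a t).im := by
  rw [mem_ball_zero_iff] at ht
  by_cases h0 : t = 0
  · rw [h0]
    exact β.cen a he
  · have := im_zz β a h0 ht
    rw [he] at this
    simpa using this

private theorem mz_inj {g : Matrix (Fin 2) (Fin 2) ℤ} (hg : 0 < g.det) {z w : ℂ} (hz : 0 < z.im)
    (hw : 0 < w.im) (h : mz g z = mz g w) : z = w := by
  have h1 : uu z w = 0 := by rw [← uu_mz hg hz hw, h, uu_self]
  exact uu_eq_zero hz hw h1.le

private theorem fin_Tp (o : Option ℂ) {m : ℕ} (hm : 0 < m) (E : Finset ℂ) :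
    {t : ℂ | Tp o (t ^ m) ∈ E}.Finite := by
  classical
  set q : ℂ → ℂ := fun T => o.elim T⁻¹ (fun c => T - c) with hq
  have hqT : ∀ s, q (Tp o s) = s := by
    intro s
    rw [hq]
    cases o with
    | none => simp [Tp]
    | some c => simp [Tp]
  refine ((E.biUnion fun c => (nthRoots m (q c)).toFinset).finite_toSet).subset ?_
  intro t ht
  rw [Finset.mem_coe, Finset.mem_biUnion]
  refine ⟨_, ht, ?_⟩
  rw [Multiset.mem_toFinset, mem_nthRoots hm, hqT]

/-- **equivariant lifts are related** -/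
theorem rel_MG (hN : S.NCo) (A : Atl S) (β₀ : Br S) {a b : Fin d}
    {M : Matrix (Fin 2) (Fin 2) ℤ} (hM : 0 < M.det)
    (h1 : ∀ δ ∈ MG β₀, M * (δ a).1 = (δ b).1 * M ∨ M * (δ a).1 = -((δ b).1 * M))
    (h2 : ∀ (β' : Br S) (γ' : Fin d → SL(2, ℤ)), EQ β₀ 1 β' γ' →
      C (β'.e a : ℂ) * (C ((M * (γ' a).1) 0 0 : ℂ) - C ((M * (γ' a).1) 1 0 : ℂ) * X) ^ 2 =
        C ((M.det : ℂ) * β'.e b) * (C ((γ' b).1 0 0 : ℂ) - C ((γ' b).1 1 0 : ℂ) * X) ^ 2) :
    ∀ p ∈ S.pt, p.1 ∉ A.cen → ∃ z : ℂ, 0 < z.im ∧ S.x a p = jF z ∧ S.x b p = jF (mz M z) := by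
  -- the function `u`
  obtain ⟨h, hh⟩ := eq_glob a β₀ (fun ζ : Fin d → ℂ => uu (mz M (ζ a)) (ζ b)) (by
    intro δ hδ ζ hζ
    simp only
    have e1 : mz M (mz (δ a).1 (ζ a)) = mz (δ b).1 (mz M (ζ a)) := by
      rw [← mz_mul hM (Mz_det _) (hζ a), ← mz_mul (Mz_det _) hM (hζ a)]
      rcases h1 δ hδ with e2 | e2
      · rw [e2]
      · rw [e2, mz_neg]
    rw [e1]
    exact uu_mz (Mz_det (δ b)) (mz_im_pos hM (hζ a)) (hζ b))
  -- the charts of the atlas
  have hex : ∀ i, ∃ (γ : Fin d → SL(2, ℤ)) (K : ℂ → ℝ), EQ β₀ 1 (A.br i) γ ∧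
      ContinuousOn K (ball 0 (A.br i).r) ∧
      (∀ w ∈ (A.br i).U, K (Complex.exp w) = uu (mz M (mz (γ a).1 ((A.br i).z a w)))
        (mz (γ b).1 ((A.br i).z b w))) ∧
      (K 0 = 0 ∨ ((A.br i).e a = 0 ∧ (A.br i).e b = 0 ∧ ∀ t ∈ ball (0 : ℂ) (A.br i).r,
        K t = uu (mz M (mz (γ a).1 ((A.br i).ψ a t))) (mz (γ b).1 ((A.br i).ψ b t)))) := by
    intro i
    obtain ⟨γ, hγ⟩ := eq_transport a A β₀ (A.br i) 1
    obtain ⟨K, hK1, hK2, hK3⟩ := ext_K (A.br i) γ hM (h2 _ _ hγ)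
    exact ⟨γ, K, hγ, hK1, hK2, hK3⟩
  choose γ K hγ hKc hKe hK0 using hex
  have hval : ∀ i, ∀ w ∈ (A.br i).U, h ((A.br i).pt w) = K i (Complex.exp w) := by
    intro i w hw
    rw [hh (A.br i) (γ i) (hγ i) w hw, hKe i w hw]
  -- enough: `h ≤ 0`
  suffices hle : ∀ p ∈ S.pt, p.1 ∉ A.cen → h p ≤ 0 by
    intro p hp hpc
    obtain ⟨i, w, hw, rfl⟩ := cover_mem A hp hpc
    have e1 := hle _ hp hpc
    rw [hval i w hw, hKe i w hw] at e1
    have e2 := uu_eq_zero (mz_im_pos hM (mz_im_sl _ ((A.br i).zim a hw))) (mz_im_sl _ ((A.br i).zim b hw)) e1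
    refine ⟨mz (γ i a).1 ((A.br i).z a w), mz_im_sl _ ((A.br i).zim a hw), ?_, ?_⟩
    · rw [jF_mz _ ((A.br i).zim a hw)]
      exact ((A.br i).jFz a hw).symm
    · rw [e2, jF_mz _ ((A.br i).zim b hw)]
      exact ((A.br i).jFz b hw).symm
  by_contra hcon
  push Not at hcon
  obtain ⟨p₁, hp₁, hp₁c, hpos⟩ := hcon
  -- the maximum
  have hsub : ∀ i, closedBall (0 : ℂ) ((A.br i).r * Real.exp (-5)) ⊆ ball 0 (A.br i).r := by
    intro i
    refine closedBall_subset_ball ?_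
    have e1 := (A.br i).r_pos
    have e2 : Real.exp (-5) < 1 := by
      rw [Real.exp_lt_one_iff]; norm_num
    nlinarith
  have hmaxi : ∀ i, ∃ t ∈ closedBall (0 : ℂ) ((A.br i).r * Real.exp (-5)),
      ∀ s ∈ closedBall (0 : ℂ) ((A.br i).r * Real.exp (-5)), K i s ≤ K i t := by
    intro i
    have e1 : (closedBall (0 : ℂ) ((A.br i).r * Real.exp (-5))).Nonempty := by
      refine ⟨0, mem_closedBall_self ?_⟩
      have := (A.br i).r_pos
      positivity
    obtain ⟨t, ht, hmt⟩ := (isCompact_closedBall (0 : ℂ) _).exists_isMaxOn e1 ((hKc i).mono (hsub i))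
    exact ⟨t, ht, fun s hs => hmt hs⟩
  choose T hT hTm using hmaxi
  have hcov : ∀ p ∈ S.pt, p.1 ∉ A.cen → ∃ i, h p ≤ K i (T i) := by
    intro p hp hpc
    obtain ⟨i, w, h3, -, h4⟩ := A.cover p hp hpc
    have hw : w ∈ (A.br i).U := by
      have e1 := (A.br i).r_pos
      have e2 : Real.exp (-5) < 1 := by
        rw [Real.exp_lt_one_iff]; norm_num
      change Real.exp w.re < (A.br i).r
      nlinarith
    refine ⟨i, ?_⟩
    rw [← h4, hval i w hw]
    refine hTm i _ ?_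
    rw [mem_closedBall_zero_iff, Complex.norm_exp]
    exact h3
  obtain ⟨i₁, hi₁⟩ := hcov p₁ hp₁ hp₁c
  have hne : (Finset.univ : Finset (Fin A.n)).Nonempty := ⟨i₁, Finset.mem_univ _⟩
  obtain ⟨i, -, hi⟩ := Finset.exists_max_image Finset.univ (fun i => K i (T i)) hne
  have hm0 : 0 < K i (T i) := lt_of_lt_of_le hpos (hi₁.trans (hi i₁ (Finset.mem_univ _)))
  have hmax : ∀ p ∈ S.pt, p.1 ∉ A.cen → h p ≤ K i (T i) := by
    intro p hp hpc
    obtain ⟨j, hj⟩ := hcov p hp hpc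
    exact hj.trans (hi j (Finset.mem_univ _))
  have hTr : T i ∈ ball (0 : ℂ) (A.br i).r := hsub i (hT i)
  -- near the maximum
  have hloc : ∀ᶠ t in 𝓝 (T i), t ∈ ball (0 : ℂ) (A.br i).r ∧ K i t ≤ K i (T i) := by
    have hfin := (fin_Tp (A.br i).o (A.br i).m_pos A.cen).subset
      (Set.sdiff_subset (s := {t : ℂ | Tp (A.br i).o (t ^ (A.br i).m) ∈ A.cen}) (t := {T i}))
    have e1 : ∀ᶠ t in 𝓝 (T i), t ∉ {t : ℂ | Tp (A.br i).o (t ^ (A.br i).m) ∈ A.cen} \ {T i} := by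
      refine hfin.isClosed.isOpen_compl.mem_nhds ?_
      rintro ⟨-, h3⟩
      exact h3 rfl
    have e2 : ∀ᶠ t in 𝓝 (T i), t ≠ 0 ∨ t = T i := by
      by_cases h0 : T i = 0
      · filter_upwards with t
        rw [h0]
        exact (eq_or_ne t 0).symm
      · filter_upwards [isOpen_ne.mem_nhds h0] with t ht
        exact Or.inl ht
    filter_upwards [e1, e2, isOpen_ball.mem_nhds hTr] with t ht1 ht2 ht3
    refine ⟨ht3, ?_⟩
    by_cases hteq : t = T i
    · rw [hteq]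
    · have ht0 : t ≠ 0 := ht2.resolve_right hteq
      have hU : Complex.log t ∈ (A.br i).U := by
        change Real.exp (Complex.log t).re < (A.br i).r
        rw [← Complex.norm_exp, Complex.exp_log ht0]
        rwa [mem_ball_zero_iff] at ht3
      have e3 := hval i _ hU
      rw [Complex.exp_log ht0] at e3
      rw [← e3]
      refine hmax _ ((A.br i).ptm hU) ?_
      intro hc
      apply ht1
      refine ⟨?_, hteq⟩
      change Tp (A.br i).o (Complex.exp (Complex.log t) ^ (A.br i).m) ∈ A.cen at hc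
      rwa [Complex.exp_log ht0] at hc
  obtain ⟨ε, hε, hall⟩ := Metric.eventually_nhds_iff_ball.1 hloc
  by_cases h0 : T i = 0
  · -- the centre of a branch
    rw [h0] at hall hm0
    obtain ⟨ha, hb, hK⟩ := (hK0 i).resolve_left hm0.ne'
    have hψ : ∀ c, DifferentiableOn ℂ ((A.br i).ψ c) (ball 0 ε) := fun c =>
      ((A.br i).dψ c).mono fun t ht => (hall t ht).1
    have hrig := rigid hε (f := fun t => mz M (mz (γ i a).1 ((A.br i).ψ a t)))
      (g := fun t => mz (γ i b).1 ((A.br i).ψ b t)) (t₀ := 0)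
      ((mz_diff hM.ne').comp ((mz_diff (Mz_det (γ i a)).ne').comp (hψ a)
        fun t ht => psi_im (A.br i) ha (hall t ht).1) fun t ht => mz_im_sl _ (psi_im (A.br i) ha (hall t ht).1))
      ((mz_diff (Mz_det (γ i b)).ne').comp (hψ b) fun t ht => psi_im (A.br i) hb (hall t ht).1)
      (fun t ht => mz_im_pos hM (mz_im_sl _ (psi_im (A.br i) ha (hall t ht).1)))
      (fun t ht => mz_im_sl _ (psi_im (A.br i) hb (hall t ht).1))
      (by
        intro heq
        rw [hK 0 (hall 0 (mem_ball_self hε)).1] at hm0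
        rw [heq, uu_self] at hm0
        exact lt_irrefl _ hm0)
      (by
        intro t ht
        rw [← hK t (hall t ht).1, ← hK 0 (hall 0 (mem_ball_self hε)).1]
        exact (hall t ht).2)
    -- so `z a` is constant
    have hc : ∀ t ∈ ball (0 : ℂ) ε, (A.br i).ψ a t = (A.br i).ψ a 0 := by
      intro t ht
      have e1 := hrig t ht
      have p1 := psi_im (A.br i) ha (hall t ht).1
      have p0 := psi_im (A.br i) ha (hall 0 (mem_ball_self hε)).1
      exact mz_inj (Mz_det (γ i a)) p1 p0 (mz_inj hM (mz_im_sl _ p1) (mz_im_sl _ p0) e1)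
    have hw₀ : ((Real.log ε - 1 : ℝ) : ℂ) ∈ {w : ℂ | Real.exp w.re < ε} := by
      change Real.exp ((Real.log ε - 1 : ℝ) : ℂ).re < ε
      rw [Complex.ofReal_re, ← Real.lt_log_iff_exp_lt hε]
      linarith
    have hopen : IsOpen {w : ℂ | Real.exp w.re < ε} :=
      isOpen_lt (Real.continuous_exp.comp Complex.continuous_re) continuous_const
    have hUe : ∀ w ∈ {w : ℂ | Real.exp w.re < ε}, Complex.exp w ∈ ball (0 : ℂ) ε := by
      intro w hw
      rw [mem_ball_zero_iff, Complex.norm_exp]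
      exact hw
    have hw₀U : ((Real.log ε - 1 : ℝ) : ℂ) ∈ (A.br i).U := by
      have := (hall _ (hUe _ hw₀)).1
      rw [mem_ball_zero_iff, Complex.norm_exp] at this
      exact this
    refine z_nc hN A (A.br i) a hw₀U (c := (A.br i).ψ a 0) ?_
    filter_upwards [hopen.mem_nhds hw₀] with w hw
    rw [AXG.Br.z, zz, ha, Nat.cast_zero, zero_mul, zero_div, zero_add]
    exact hc _ (hUe w hw)
  · -- another point
    set w₀ := Complex.log (T i) with hw₀
    have hexp₀ : Complex.exp w₀ = T i := Complex.exp_log h0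
    have hev : ∀ᶠ w in 𝓝 w₀, Complex.exp w ∈ ball (T i) ε := by
      refine Complex.continuous_exp.continuousAt.eventually_mem (isOpen_ball.mem_nhds ?_)
      rw [hexp₀]
      exact mem_ball_self hε
    obtain ⟨ε', hε', hall'⟩ := Metric.eventually_nhds_iff_ball.1 hev
    have hU : ∀ w ∈ ball w₀ ε', w ∈ (A.br i).U := by
      intro w hw
      have := (hall _ (hall' w hw)).1
      rw [mem_ball_zero_iff, Complex.norm_exp] at this
      exact this
    have hw₀b : w₀ ∈ ball w₀ ε' := mem_ball_self hε'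
    have hrig := rigid hε' (f := fun w => mz M (mz (γ i a).1 ((A.br i).z a w)))
      (g := fun w => mz (γ i b).1 ((A.br i).z b w)) (t₀ := w₀)
      ((mz_diff hM.ne').comp (((A.br i).mzdiff (γ i) a).mono hU) fun w hw => mz_im_sl _ ((A.br i).zim a (hU w hw)))
      (((A.br i).mzdiff (γ i) b).mono hU)
      (fun w hw => mz_im_pos hM (mz_im_sl _ ((A.br i).zim a (hU w hw))))
      (fun w hw => mz_im_sl _ ((A.br i).zim b (hU w hw)))
      (by
        intro heq
        have e1 := hKe i w₀ (hU w₀ hw₀b)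
        rw [hexp₀] at e1
        rw [e1] at hm0
        rw [heq, uu_self] at hm0
        exact lt_irrefl _ hm0)
      (by
        intro w hw
        rw [← hKe i w (hU w hw), ← hKe i w₀ (hU w₀ hw₀b), hexp₀]
        exact (hall _ (hall' w hw)).2)
    refine z_nc hN A (A.br i) a (hU w₀ hw₀b) (c := (A.br i).z a w₀) ?_
    filter_upwards [isOpen_ball.mem_nhds hw₀b] with w hw
    have e1 := hrig w hw
    have p1 := (A.br i).zim a (hU w hw)
    have p0 := (A.br i).zim a (hU w₀ hw₀b)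
    exact mz_inj (Mz_det (γ i a)) p1 p0 (mz_inj hM (mz_im_sl _ p1) (mz_im_sl _ p0) e1)

theorem mul_Tn {R : Type*} [CommRing R] (P : Matrix (Fin 2) (Fin 2) R) (n : R) :
    P * !![1, n; 0, 1] = !![P 0 0, P 0 0 * n + P 0 1; P 1 0, P 1 0 * n + P 1 1] := by
  ext i j
  fin_cases i <;> fin_cases j <;> simp [Matrix.mul_apply, Fin.sum_univ_two]

theorem Tn_mul {R : Type*} [CommRing R] (P : Matrix (Fin 2) (Fin 2) R) (n : R) :
    !![1, n; 0, 1] * P = !![P 0 0 + n * P 1 0, P 0 1 + n * P 1 1; P 1 0, P 1 1] := by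
  rw [Matrix.eta_fin_two (!![1, n; 0, 1] * P)]
  simp [Matrix.mul_apply, Fin.sum_univ_two]

/-- the condition at the cusps -/
theorem cusp_h2 (β₀ : Br S) {a b : Fin d} {M : Matrix (Fin 2) (Fin 2) ℤ} (hM : 0 < M.det)
    (h1 : ∀ δ ∈ MG β₀, M * (δ a).1 = (δ b).1 * M ∨ M * (δ a).1 = -((δ b).1 * M))
    (β' : Br S) (γ' : Fin d → SL(2, ℤ)) (hγ : EQ β₀ 1 β' γ') :
      C (β'.e a : ℂ) * (C ((M * (γ' a).1) 0 0 : ℂ) - C ((M * (γ' a).1) 1 0 : ℂ) * X) ^ 2 =
        C ((M.det : ℂ) * β'.e b) * (C ((γ' b).1 0 0 : ℂ) - C ((γ' b).1 1 0 : ℂ) * X) ^ 2 := by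
  have hT : ∀ n : ℕ, (ModularGroup.T ^ n).1 = !![1, (n : ℤ); 0, 1] := by
    intro n
    have := ModularGroup.coe_T_zpow (n : ℤ)
    rw [zpow_natCast] at this
    exact this
  have hinv : ∀ g : SL(2, ℤ), g.1 * (g⁻¹).1 = 1 := by
    intro g
    have : (g * g⁻¹).1 = (1 : SL(2, ℤ)).1 := by rw [mul_inv_cancel]
    exact this
  have hinv' : ∀ g : SL(2, ℤ), (g⁻¹).1 * g.1 = 1 := by
    intro g
    have : (g⁻¹ * g).1 = (1 : SL(2, ℤ)).1 := by rw [inv_mul_cancel]
    exact this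
  obtain ⟨P, hP⟩ : ∃ P : Matrix (Fin 2) (Fin 2) ℤ, P = ((γ' b)⁻¹).1 * (M * (γ' a).1) := ⟨_, rfl⟩
  have hN : M * (γ' a).1 = (γ' b).1 * P := by
    rw [hP, ← Matrix.mul_assoc, hinv, one_mul]
  have hdet : P.det = M.det := by
    rw [hP, Matrix.det_mul, Matrix.det_mul, (γ' a).2, ((γ' b)⁻¹).2]
    ring
  -- the loop
  have hl := h1 _ (loop_mem hγ)
  have ea : ((γ' * (fun a => ModularGroup.T ^ (β'.e a)) * γ'⁻¹ : Fin d → SL(2, ℤ)) a).1 =
      (γ' a).1 * !![1, (β'.e a : ℤ); 0, 1] * ((γ' a)⁻¹).1 := by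
    rw [← hT]
    rfl
  have eb : ((γ' * (fun a => ModularGroup.T ^ (β'.e a)) * γ'⁻¹ : Fin d → SL(2, ℤ)) b).1 =
      (γ' b).1 * !![1, (β'.e b : ℤ); 0, 1] * ((γ' b)⁻¹).1 := by
    rw [← hT]
    rfl
  rw [ea, eb] at hl
  have hl' : P * !![1, (β'.e a : ℤ); 0, 1] = !![1, (β'.e b : ℤ); 0, 1] * P ∨
      P * !![1, (β'.e a : ℤ); 0, 1] = -(!![1, (β'.e b : ℤ); 0, 1] * P) := by
    have k1 : ((γ' b)⁻¹).1 * (M * ((γ' a).1 * !![1, (β'.e a : ℤ); 0, 1] * ((γ' a)⁻¹).1)) * (γ' a).1 =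
        P * !![1, (β'.e a : ℤ); 0, 1] := by
      have : ((γ' b)⁻¹).1 * (M * ((γ' a).1 * !![1, (β'.e a : ℤ); 0, 1] * ((γ' a)⁻¹).1)) * (γ' a).1 =
        ((γ' b)⁻¹).1 * (M * (γ' a).1) * !![1, (β'.e a : ℤ); 0, 1] * (((γ' a)⁻¹).1 * (γ' a).1) := by
        simp only [Matrix.mul_assoc]
      rw [this, hinv', mul_one, hP]
    have k2 : ((γ' b)⁻¹).1 * (((γ' b).1 * !![1, (β'.e b : ℤ); 0, 1] * ((γ' b)⁻¹).1) * M) * (γ' a).1 =
        !![1, (β'.e b : ℤ); 0, 1] * P := by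
      have : ((γ' b)⁻¹).1 * (((γ' b).1 * !![1, (β'.e b : ℤ); 0, 1] * ((γ' b)⁻¹).1) * M) * (γ' a).1 =
        (((γ' b)⁻¹).1 * (γ' b).1) * (!![1, (β'.e b : ℤ); 0, 1] * (((γ' b)⁻¹).1 * (M * (γ' a).1))) := by
        simp only [Matrix.mul_assoc]
      rw [this, hinv', one_mul, hP]
    rcases hl with h | h
    · left
      rw [← k1, ← k2, h]
    · right
      rw [← k1, ← k2, h]
      simp only [Matrix.mul_neg, Matrix.neg_mul]
  rw [hN, ← hdet]
  obtain ⟨p, hp⟩ : ∃ p, p = P 0 0 := ⟨_, rfl⟩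
  obtain ⟨q, hq⟩ : ∃ q, q = P 0 1 := ⟨_, rfl⟩
  obtain ⟨r, hr⟩ : ∃ r, r = P 1 0 := ⟨_, rfl⟩
  obtain ⟨s, hs⟩ : ∃ s, s = P 1 1 := ⟨_, rfl⟩
  have hD : P.det = p * s - q * r := by rw [Matrix.det_fin_two, hp, hq, hr, hs]
  have e00 : ((γ' b).1 * P) 0 0 = (γ' b).1 0 0 * p + (γ' b).1 0 1 * r := by
    rw [Matrix.mul_apply, Fin.sum_univ_two, hp, hr]
  have e10 : ((γ' b).1 * P) 1 0 = (γ' b).1 1 0 * p + (γ' b).1 1 1 * r := by
    rw [Matrix.mul_apply, Fin.sum_univ_two, hp, hr]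
  have hpos : 0 < p * s - q * r := by rw [← hD, hdet]; exact hM
  rw [e00, e10, hD]
  rw [mul_Tn, Tn_mul, ← hp, ← hq, ← hr, ← hs] at hl'
  rcases hl' with h | h
  · have a00 := congrFun (congrFun h 0) 0
    have a01 := congrFun (congrFun h 0) 1
    have a11 := congrFun (congrFun h 1) 1
    simp at a00 a01 a11
    have e1 : p * (β'.e a : ℤ) = β'.e b * s := by linarith
    by_cases hr0 : r = 0
    · have e2 : ((β'.e a : ℤ) : ℂ) * (p : ℂ) ^ 2 = (p : ℂ) * s * ((β'.e b : ℤ) : ℂ) := by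
        have := congrArg (fun n : ℤ => (n : ℂ) * p) e1
        push_cast at this ⊢
        linear_combination this
      rw [hr0]
      simp only [mul_zero, add_zero, sub_zero, Int.cast_mul]
      have e3 : (C (β'.e a : ℂ) : ℂ[X]) * C (p : ℂ) ^ 2 = C (p : ℂ) * C (s : ℂ) * C (β'.e b : ℂ) := by
        rw [← C_pow, ← C_mul, ← C_mul, ← C_mul]
        congr 1
      simp only [C_mul]
      linear_combination (C (((γ' b).1 0 0 : ℤ) : ℂ) - C (((γ' b).1 1 0 : ℤ) : ℂ) * X) ^ 2 * e3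
    · have h3 : β'.e b = 0 := by
        rcases a00 with h3 | h3
        · exact h3
        · exact absurd h3 hr0
      have h4 : β'.e a = 0 := by
        rcases a11 with h4 | h4
        · exact absurd h4 hr0
        · exact h4
      rw [h3, h4]
      simp
  · exfalso
    have a00 := congrFun (congrFun h 0) 0
    have a10 := congrFun (congrFun h 1) 0
    simp at a00 a10
    have hr0 : r = 0 := by omega
    rw [hr0, mul_zero, neg_zero, zero_add] at a00
    have hp0 : p = 0 := by omega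
    rw [hr0, hp0] at hpos
    simp at hpos

/-- **there is no equivariance** -/
theorem not_equiv (hN : S.NCo) (hM' : S.NoMod) (A : Atl S) (β₀ : Br S) {a b : Fin d} (hab : a ≠ b)
    {M : Matrix (Fin 2) (Fin 2) ℤ} (hM : 0 < M.det) :
    ¬ ∀ δ ∈ MG β₀, M * (δ a).1 = (δ b).1 * M ∨ M * (δ a).1 = -((δ b).1 * M) :=
  fun h1 => hM' a b hab M hM A.cen (rel_MG hN A β₀ hM h1 (cusp_h2 β₀ hM h1))

end Pool.Agent.LGO.RU
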