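import Mathlib

/-!
# LGO/RU: pairs of integral matrices with proportional lower left entries

`H` a subgroup of `SL(2, ℤ) × SL(2, ℤ)` with `(T ^ m, T ^ l) ∈ H`, `m, l > 0`, with elements which have a nonzero lower left entry
in the first and in the second component, and such that `l c' = ± m c` for all `(g, g') ∈ H` with `c, c' ≠ 0`.  Then there is an
integral matrix `M` of positive determinant with `M g = ± g' M` for all `(g, g') ∈ H` (`alg_a`).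
-/

namespace Pool.Agent.LGO.RU

open scoped MatrixGroups

private theorem T_coe (n : ℤ) : (ModularGroup.T ^ n).1 = !![1, n; 0, 1] := ModularGroup.coe_T_zpow n

private theorem c_mid (A B : SL(2, ℤ)) (n : ℤ) : (A * ModularGroup.T ^ n * B).1 1 0 =
    A.1 1 0 * B.1 0 0 + (n * A.1 1 0 + A.1 1 1) * B.1 1 0 := by
  change (A.1 * (ModularGroup.T ^ n).1 * B.1) 1 0 = _
  rw [T_coe]
  simp only [Matrix.mul_apply, Fin.sum_univ_two, Matrix.of_apply, Matrix.cons_val', Matrix.cons_val_zero,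
    Matrix.cons_val_one, Matrix.cons_val_fin_one]
  ring

private theorem c_T (A : SL(2, ℤ)) (n : ℤ) : (A * ModularGroup.T ^ n).1 1 0 = A.1 1 0 := by
  change (A.1 * (ModularGroup.T ^ n).1) 1 0 = _
  rw [T_coe]
  simp only [Matrix.mul_apply, Fin.sum_univ_two]
  simp

private theorem det4 (A : SL(2, ℤ)) : A.1 0 0 * A.1 1 1 - A.1 0 1 * A.1 1 0 = 1 := by
  have := A.2
  rwa [Matrix.det_fin_two] at this

private theorem mat_eq {a b e ε : ℤ} {G G' : Matrix (Fin 2) (Fin 2) ℤ}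
    (h00 : a * G 0 0 + b * G 1 0 = ε * (G' 0 0 * a))
    (h01 : a * G 0 1 + b * G 1 1 = ε * (G' 0 0 * b + G' 0 1 * e))
    (h10 : e * G 1 0 = ε * (G' 1 0 * a))
    (h11 : e * G 1 1 = ε * (G' 1 0 * b + G' 1 1 * e)) :
    !![a, b; 0, e] * G = ε • (G' * !![a, b; 0, e]) := by
  ext i j
  fin_cases i <;> fin_cases j
  · simpa [Matrix.mul_apply, Fin.sum_univ_two] using h00
  · simpa [Matrix.mul_apply, Fin.sum_univ_two] using h01
  · simpa [Matrix.mul_apply, Fin.sum_univ_two] using h10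
  · simpa [Matrix.mul_apply, Fin.sum_univ_two] using h11

/-- a linear function is not zero for large arguments -/
private theorem lin_nz {A B k : ℤ} (h : A ≠ 0 ∨ B ≠ 0) (hk : |A| < k) : A + B * k ≠ 0 := by
  intro h0
  by_cases hB : B = 0
  · rw [hB, zero_mul, add_zero] at h0
    exact h.elim (fun h => h h0) (fun h => h hB)
  · have h1 : |A| = |B| * |k| := by
      rw [← abs_mul, show A = -(B * k) by linarith, abs_neg]
    have h2 : 1 ≤ |B| := Int.one_le_abs hB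
    have h3 : k ≤ |k| := le_abs_self k
    have h4 : 0 ≤ |k| := abs_nonneg k
    nlinarith

/-- `A² + 2 A B k = A'² + 2 A' B' k` for all large `k` -/
private theorem two_pts {A B A' B' : ℤ} (hB : B ^ 2 = B' ^ 2)
    (h : ∀ k, |A| + |A'| < k → (A + B * k) ^ 2 = (A' + B' * k) ^ 2) : A * B = A' * B' := by
  have h1 := h (|A| + |A'| + 1) (by linarith)
  have h2 := h (|A| + |A'| + 2) (by linarith)
  generalize |A| + |A'| = K at h1 h2
  have h3 : 2 * (A * B) = 2 * (A' * B') := by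
    linear_combination h2 - h1 - (2 * K + 3) * hB
  linarith

section

variable {H : Subgroup (SL(2, ℤ) × SL(2, ℤ))} {m l : ℤ}

private theorem tk_mem (ht : (ModularGroup.T ^ m, ModularGroup.T ^ l) ∈ H) (k : ℤ) :
    ((ModularGroup.T ^ (m * k), ModularGroup.T ^ (l * k)) : SL(2, ℤ) × SL(2, ℤ)) ∈ H := by
  have h := H.zpow_mem ht k
  rw [Prod.pow_mk, ← zpow_mul, ← zpow_mul] at h
  exact h

private theorem key (hm : 0 < m) (hl : 0 < l) (ht : (ModularGroup.T ^ m, ModularGroup.T ^ l) ∈ H)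
    (hcon : ∀ g ∈ H, g.1.1 1 0 ≠ 0 → g.2.1 1 0 ≠ 0 → (l * g.2.1 1 0) ^ 2 = (m * g.1.1 1 0) ^ 2)
    {f g : SL(2, ℤ) × SL(2, ℤ)} (hf : f ∈ H) (hg : g ∈ H) (hfa : f.1.1 1 0 ≠ 0) (hfb : f.2.1 1 0 ≠ 0)
    (hga : g.1.1 1 0 ≠ 0) (hgb : g.2.1 1 0 ≠ 0) {ε ε₁ : ℤ} (hε : ε ^ 2 = 1) (hε₁ : ε₁ ^ 2 = 1)
    (e : l * g.2.1 1 0 = ε * (m * g.1.1 1 0)) (e₁ : l * f.2.1 1 0 = ε₁ * (m * f.1.1 1 0)) :
    f.1.1 1 0 * (ε * g.2.1 0 0 - g.1.1 0 0) = g.1.1 1 0 * (f.1.1 1 1 - ε₁ * f.2.1 1 1) := by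
  obtain ⟨A, hA⟩ : ∃ A, A = l * (f.2.1 1 0 * g.2.1 0 0 + f.2.1 1 1 * g.2.1 1 0) := ⟨_, rfl⟩
  obtain ⟨B, hB⟩ : ∃ B, B = (l * f.2.1 1 0) * (l * g.2.1 1 0) := ⟨_, rfl⟩
  obtain ⟨A', hA'⟩ : ∃ A', A' = m * (f.1.1 1 0 * g.1.1 0 0 + f.1.1 1 1 * g.1.1 1 0) := ⟨_, rfl⟩
  obtain ⟨B', hB'⟩ : ∃ B', B' = (m * f.1.1 1 0) * (m * g.1.1 1 0) := ⟨_, rfl⟩
  have hB0 : B ≠ 0 := by
    rw [hB]
    exact mul_ne_zero (mul_ne_zero hl.ne' hfb) (mul_ne_zero hl.ne' hgb)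
  have hB0' : B' ≠ 0 := by
    rw [hB']
    exact mul_ne_zero (mul_ne_zero hm.ne' hfa) (mul_ne_zero hm.ne' hga)
  have hBB : B = (ε₁ * ε) * B' := by
    rw [hB, hB', e, e₁]
    ring
  have hη : (ε₁ * ε) ^ 2 = 1 := by rw [mul_pow, hε, hε₁, one_mul]
  have hBB2 : B ^ 2 = B' ^ 2 := by
    rw [hBB, mul_pow, hη, one_mul]
  have h1 : ∀ k, |A| + |A'| < k → (A + B * k) ^ 2 = (A' + B' * k) ^ 2 := by
    intro k hk
    have h2 := hcon _ (H.mul_mem (H.mul_mem hf (tk_mem ht k)) hg)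
    have ea : (f * (ModularGroup.T ^ (m * k), ModularGroup.T ^ (l * k)) * g).1 =
      f.1 * ModularGroup.T ^ (m * k) * g.1 := rfl
    have eb : (f * (ModularGroup.T ^ (m * k), ModularGroup.T ^ (l * k)) * g).2 =
      f.2 * ModularGroup.T ^ (l * k) * g.2 := rfl
    rw [ea, eb, c_mid, c_mid] at h2
    have e2 : l * (f.2.1 1 0 * g.2.1 0 0 + (l * k * f.2.1 1 0 + f.2.1 1 1) * g.2.1 1 0) = A + B * k := by
      rw [hA, hB]
      ring
    have e3 : m * (f.1.1 1 0 * g.1.1 0 0 + (m * k * f.1.1 1 0 + f.1.1 1 1) * g.1.1 1 0) = A' + B' * k := by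
      rw [hA', hB']
      ring
    rw [e2, e3] at h2
    refine h2 ?_ ?_
    · intro h0
      rw [h0, mul_zero] at e3
      exact lin_nz (Or.inr hB0') (by have := abs_nonneg A; linarith) e3.symm
    · intro h0
      rw [h0, mul_zero] at e2
      exact lin_nz (Or.inr hB0) (by have := abs_nonneg A'; linarith) e2.symm
  have h3 := two_pts hBB2 h1
  rw [hBB] at h3
  have h4 : A * (ε₁ * ε) = A' := mul_right_cancel₀ hB0' (by linear_combination h3)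
  rw [hA, hA'] at h4
  refine mul_left_cancel₀ hm.ne' ?_
  have h5 : (ε₁ ^ 2 * (ε * (m * f.1.1 1 0) * g.2.1 0 0)) + ε ^ 2 * (ε₁ * (m * g.1.1 1 0) * f.2.1 1 1) =
      m * (f.1.1 1 0 * g.1.1 0 0 + f.1.1 1 1 * g.1.1 1 0) := by
    rw [← h4]
    linear_combination -(ε₁ * ε * g.2.1 0 0) * e₁ - (ε₁ * ε * f.2.1 1 1) * e
  rw [hε, hε₁] at h5
  linear_combination h5

private theorem sgn {x y : ℤ} (h : x ^ 2 = y ^ 2) : ∃ ε : ℤ, ε ^ 2 = 1 ∧ x = ε * y := by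
  rcases sq_eq_sq_iff_eq_or_eq_neg.mp h with h1 | h1
  · exact ⟨1, by norm_num, by rw [h1, one_mul]⟩
  · exact ⟨-1, by norm_num, by rw [h1]; ring⟩

private theorem sq_eq_one_iff_of_ne_zero' {x y : ℤ} (hx : x ^ 2 = 1) (hy : y ^ 2 = 1) :
    x * y = 1 ∨ x * y = -1 := by
  have h : (x * y) ^ 2 = 1 ^ 2 := by rw [mul_pow, hx, hy]; norm_num
  exact sq_eq_sq_iff_eq_or_eq_neg.mp h

theorem alg_a (hm : 0 < m) (hl : 0 < l)
    (ht : (ModularGroup.T ^ m, ModularGroup.T ^ l) ∈ H)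
    (ha : ∃ g ∈ H, g.1.1 1 0 ≠ 0) (hb : ∃ g ∈ H, g.2.1 1 0 ≠ 0)
    (hcon : ∀ g ∈ H, g.1.1 1 0 ≠ 0 → g.2.1 1 0 ≠ 0 → (l * g.2.1 1 0) ^ 2 = (m * g.1.1 1 0) ^ 2) :
    ∃ M : Matrix (Fin 2) (Fin 2) ℤ, 0 < M.det ∧
      ∀ g ∈ H, M * g.1.1 = g.2.1 * M ∨ M * g.1.1 = -(g.2.1 * M) := by
  -- both entries
  obtain ⟨f, hf, hfa, hfb⟩ : ∃ f ∈ H, f.1.1 1 0 ≠ 0 ∧ f.2.1 1 0 ≠ 0 := by
    obtain ⟨g₁, hg₁, h1⟩ := ha
    obtain ⟨g₂, hg₂, h2⟩ := hb
    by_cases h3 : g₁.2.1 1 0 = 0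
    · by_cases h4 : g₂.1.1 1 0 = 0
      · refine ⟨g₂ * (ModularGroup.T ^ (m * 0), ModularGroup.T ^ (l * 0)) * g₁,
          H.mul_mem (H.mul_mem hg₂ (tk_mem ht 0)) hg₁, ?_, ?_⟩
        · have ea : (g₂ * (ModularGroup.T ^ (m * 0), ModularGroup.T ^ (l * 0)) * g₁).1 =
            g₂.1 * ModularGroup.T ^ (m * 0) * g₁.1 := rfl
          rw [ea, c_mid, h4, zero_mul, mul_zero, zero_add, zero_add]
          refine mul_ne_zero ?_ h1
          intro h5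
          have := det4 g₂.1
          rw [h4, h5] at this
          simp at this
        · have eb : (g₂ * (ModularGroup.T ^ (m * 0), ModularGroup.T ^ (l * 0)) * g₁).2 =
            g₂.2 * ModularGroup.T ^ (l * 0) * g₁.2 := rfl
          rw [eb, c_mid, h3, mul_zero, add_zero]
          refine mul_ne_zero h2 ?_
          intro h5
          have := det4 g₁.2
          rw [h3, h5] at this
          simp at this
      · exact ⟨g₂, hg₂, h4, h2⟩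
    · exact ⟨g₁, hg₁, h1, h3⟩
  obtain ⟨ε₁, hε₁, e₁⟩ := sgn (hcon f hf hfa hfb)
  have kf := key hm hl ht hcon hf hf hfa hfb hfa hfb hε₁ hε₁ e₁ e₁
  have kf' : ε₁ * f.2.1 0 0 - f.1.1 0 0 = f.1.1 1 1 - ε₁ * f.2.1 1 1 := mul_left_cancel₀ hfa kf
  obtain ⟨x, hx⟩ : ∃ x, x = ε₁ * f.2.1 0 0 - f.1.1 0 0 := ⟨_, rfl⟩
  obtain ⟨c, hc⟩ : ∃ c, c = f.1.1 1 0 := ⟨_, rfl⟩
  have hc0 : c ≠ 0 := by rw [hc]; exact hfa
  -- the elements with nonzero entries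
  have hnz : ∀ g ∈ H, g.1.1 1 0 ≠ 0 → g.2.1 1 0 ≠ 0 → ∃ ε : ℤ, ε ^ 2 = 1 ∧
      !![l * c, l * x; 0, m * c] * g.1.1 = ε • (g.2.1 * !![l * c, l * x; 0, m * c]) := by
    intro g hg hga hgb
    obtain ⟨ε, hε, e⟩ := sgn (hcon g hg hga hgb)
    refine ⟨ε, hε, ?_⟩
    have k1 := key hm hl ht hcon hf hg hfa hfb hga hgb hε hε₁ e e₁
    have k2 := key hm hl ht hcon hg hf hga hgb hfa hfb hε₁ hε e₁ e
    rw [← kf', ← hx, ← hc] at k1
    rw [← hx, ← hc] at k2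
    have d1 := det4 g.1
    have d2 := det4 g.2
    have c12 : l * c * g.1.1 0 1 + l * x * g.1.1 1 1 =
        ε * (g.2.1 0 0 * (l * x) + g.2.1 0 1 * (m * c)) := by
      refine mul_left_cancel₀ hga ?_
      have h1 : l * c * (g.1.1 0 1 * g.1.1 1 0) + l * x * g.1.1 1 0 * g.1.1 1 1 =
          l * c * (ε * g.1.1 1 1 * g.2.1 0 0 - 1) := by
        linear_combination (-(l * c)) * d1 - l * g.1.1 1 1 * k1
      have h2 : ε * (g.2.1 0 0 * l * (g.1.1 1 0 * x)) + ε * c * g.2.1 0 1 * (m * g.1.1 1 0) =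
          l * c * (ε * g.1.1 1 1 * g.2.1 0 0 - 1) := by
        have h3 : ε * (m * g.1.1 1 0) * (c * g.2.1 0 1) = l * g.2.1 1 0 * (c * g.2.1 0 1) := by rw [e]
        have h4 : ε ^ 2 * (l * c * g.2.1 0 0 * g.2.1 1 1) = l * c * g.2.1 0 0 * g.2.1 1 1 := by
          rw [hε, one_mul]
        linear_combination h3 - (l * c) * d2 + ε * g.2.1 0 0 * l * k2 - h4
      linear_combination h1 - h2
    refine mat_eq ?_ c12 ?_ ?_
    · linear_combination -l * k1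
    · have h3 : ε * (l * g.2.1 1 0) = ε ^ 2 * (m * g.1.1 1 0) := by rw [e]; ring
      rw [hε, one_mul] at h3
      linear_combination -c * h3
    · have h3 : ε * (l * g.2.1 1 0) = ε ^ 2 * (m * g.1.1 1 0) := by rw [e]; ring
      rw [hε, one_mul] at h3
      have h4 : ε ^ 2 * (m * c * g.2.1 1 1) = m * c * g.2.1 1 1 := by rw [hε, one_mul]
      linear_combination -x * h3 - m * k2
  refine ⟨!![l * c, l * x; 0, m * c], ?_, ?_⟩
  · rw [Matrix.det_fin_two]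
    simp only [Matrix.of_apply, Matrix.cons_val', Matrix.cons_val_zero, Matrix.cons_val_one,
      Matrix.cons_val_fin_one, mul_zero, sub_zero]
    have h1 : 0 < c ^ 2 := by positivity
    nlinarith [mul_pos (mul_pos hl hm) h1]
  obtain ⟨M, hM⟩ : ∃ M : Matrix (Fin 2) (Fin 2) ℤ, M = !![l * c, l * x; 0, m * c] := ⟨_, rfl⟩
  rw [← hM] at hnz ⊢
  intro g hg
  obtain ⟨k, hk⟩ : ∃ k : ℤ, k = |f.1.1 1 0 * g.1.1 0 0 + f.1.1 1 1 * g.1.1 1 0| +
    |f.2.1 1 0 * g.2.1 0 0 + f.2.1 1 1 * g.2.1 1 0| + 1 := ⟨_, rfl⟩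
  obtain ⟨P, hP⟩ : ∃ P : SL(2, ℤ) × SL(2, ℤ), P = f * (ModularGroup.T ^ (m * k), ModularGroup.T ^ (l * k)) :=
    ⟨_, rfl⟩
  have hPH : P ∈ H := by
    rw [hP]
    exact H.mul_mem hf (tk_mem ht k)
  have hP1 : P.1 = f.1 * ModularGroup.T ^ (m * k) := by rw [hP]; rfl
  have hP2 : P.2 = f.2 * ModularGroup.T ^ (l * k) := by rw [hP]; rfl
  have row : ∀ A : SL(2, ℤ), A.1 0 0 ≠ 0 ∨ A.1 1 0 ≠ 0 := by
    intro A
    by_contra hcon
    push Not at hcon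
    have := det4 A
    rw [hcon.1, hcon.2] at this
    simp at this
  have nz : ∀ (u v w z : ℤ), u ≠ 0 → (w ≠ 0 ∨ z ≠ 0) → 
      (u * w + v * z ≠ 0) ∨ (u * z ≠ 0) := by
    intro u v w z hu h
    by_cases hz : z = 0
    · left
      rw [hz, mul_zero, add_zero]
      exact mul_ne_zero hu (h.resolve_right (fun h1 => h1 hz))
    · right
      exact mul_ne_zero hu hz
  have hPa : P.1.1 1 0 ≠ 0 := by
    rw [hP1, c_T]
    exact hfa
  have hPb : P.2.1 1 0 ≠ 0 := by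
    rw [hP2, c_T]
    exact hfb
  have hQa : (P * g).1.1 1 0 ≠ 0 := by
    have e2 : (P * g).1 = f.1 * ModularGroup.T ^ (m * k) * g.1 := by rw [Prod.fst_mul, hP1]
    rw [e2, c_mid]
    have h1 := nz (f.1.1 1 0) (f.1.1 1 1) (g.1.1 0 0) (g.1.1 1 0) hfa (row g.1)
    have h2 : (f.1.1 1 0 * g.1.1 0 0 + f.1.1 1 1 * g.1.1 1 0) + (m * (f.1.1 1 0 * g.1.1 1 0)) * k ≠ 0 := by
      refine lin_nz (h1.imp id fun h => mul_ne_zero hm.ne' h) ?_
      have := abs_nonneg (f.2.1 1 0 * g.2.1 0 0 + f.2.1 1 1 * g.2.1 1 0)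
      linarith
    intro h0
    exact h2 (by linear_combination h0)
  have hQb : (P * g).2.1 1 0 ≠ 0 := by
    have e2 : (P * g).2 = f.2 * ModularGroup.T ^ (l * k) * g.2 := by rw [Prod.snd_mul, hP2]
    rw [e2, c_mid]
    have h1 := nz (f.2.1 1 0) (f.2.1 1 1) (g.2.1 0 0) (g.2.1 1 0) hfb (row g.2)
    have h2 : (f.2.1 1 0 * g.2.1 0 0 + f.2.1 1 1 * g.2.1 1 0) + (l * (f.2.1 1 0 * g.2.1 1 0)) * k ≠ 0 := by
      refine lin_nz (h1.imp id fun h => mul_ne_zero hl.ne' h) ?_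
      have := abs_nonneg (f.1.1 1 0 * g.1.1 0 0 + f.1.1 1 1 * g.1.1 1 0)
      linarith
    intro h0
    exact h2 (by linear_combination h0)
  obtain ⟨η, hη, h1⟩ := hnz P hPH hPa hPb
  obtain ⟨η', hη', h2⟩ := hnz (P * g) (H.mul_mem hPH hg) hQa hQb
  have e3 : (P * g).1.1 = P.1.1 * g.1.1 := rfl
  have e4 : (P * g).2.1 = P.2.1 * g.2.1 := rfl
  rw [e3, e4, ← Matrix.mul_assoc, h1] at h2
  -- cancel `P.2`
  have hinv : ((P.2)⁻¹).1 * P.2.1 = 1 := by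
    have : (P.2⁻¹ * P.2).1 = (1 : SL(2, ℤ)).1 := by rw [inv_mul_cancel]
    exact this
  have h3 : η • (M * g.1.1) = η' • (g.2.1 * M) := by
    have h4 := congrArg (fun N => ((P.2)⁻¹).1 * N) h2
    simp only [Matrix.mul_smul, Matrix.smul_mul] at h4
    have e5 : ((P.2)⁻¹).1 * (P.2.1 * M * g.1.1) = M * g.1.1 := by
      rw [← Matrix.mul_assoc, ← Matrix.mul_assoc, hinv, Matrix.one_mul]
    have e6 : ((P.2)⁻¹).1 * (P.2.1 * g.2.1 * M) = g.2.1 * M := by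
      rw [← Matrix.mul_assoc, ← Matrix.mul_assoc, hinv, Matrix.one_mul]
    rw [e5, e6] at h4
    exact h4
  have h5 : M * g.1.1 = (η * η') • (g.2.1 * M) := by
    have h6 := congrArg (fun N => η • N) h3
    simp only [smul_smul] at h6
    rw [← pow_two, hη, one_smul] at h6
    exact h6
  rcases sq_eq_one_iff_of_ne_zero' hη hη' with h6 | h6
  · left
    rw [h5, h6, one_smul]
  · right
    rw [h5, h6, neg_smul, one_smul]

end

end Pool.Agent.LGO.RU
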