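import Mathlib
import Pool.Agent.LGO.RU.MonB
import Pool.Agent.LGO.RU.MonC
import Pool.Agent.LGO.RU.MonD
import Pool.Agent.LGO.RU.Gen

/-!
# LGO/RU: the monodromy is surjective modulo `L` at a common pole of two functions without a modular relation

`mon`: `alg_a` gives an element of the monodromy with the three numbers different from zero (otherwise the lifts are equivariant,
`not_equiv`), and `gen_mod` gives the image modulo `L`.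
-/

namespace Pool.Agent.LGO.RU

open Pool.Agent.LGO Pool.Agent.LGO.AX Pool.Agent.LGO.AXG
open scoped MatrixGroups

variable {d : ℕ} {S : Cur d}

/-- the monodromy group of the functions `a`, `b` -/
def MG2 (β : Br S) (a b : Fin d) : Subgroup (SL(2, ℤ) × SL(2, ℤ)) :=
  (MG β).map ((Pi.evalMonoidHom _ a).prod (Pi.evalMonoidHom _ b))

theorem mem_MG2 {β : Br S} {a b : Fin d} {g : SL(2, ℤ) × SL(2, ℤ)} :
    g ∈ MG2 β a b ↔ ∃ δ ∈ MG β, δ a = g.1 ∧ δ b = g.2 := by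
  rw [MG2, Subgroup.mem_map]
  refine exists_congr fun δ => and_congr_right fun _ => ?_
  exact Prod.ext_iff

theorem shift_MG (β : Br S) : (fun a => ModularGroup.T ^ (β.e a) : Fin d → SL(2, ℤ)) ∈ MG β := by
  have h := loop_mem (EQ.refl β 1)
  rwa [one_mul, inv_one, mul_one] at h

private theorem T_up (n : ℤ) : (ModularGroup.T ^ n : SL(2, ℤ)) = Up n := by
  apply Subtype.ext
  exact ModularGroup.coe_T_zpow n

theorem T_MG2 (β : Br S) (a b : Fin d) : ((ModularGroup.T ^ (β.e a : ℤ), ModularGroup.T ^ (β.e b : ℤ)) :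
    SL(2, ℤ) × SL(2, ℤ)) ∈ MG2 β a b := by
  rw [mem_MG2]
  refine ⟨_, shift_MG β, ?_, ?_⟩
  · exact (zpow_natCast _ _).symm
  · exact (zpow_natCast _ _).symm

/-- **the elements of the monodromy** -/
theorem mon_el (hN : S.NCo) (hM : S.NoMod) (A : Atl S) {a b : Fin d} (hab : a ≠ b) (β : Br S)
    (ha : 0 < β.e a) (hb : 0 < β.e b) : ∃ g ∈ MG2 β a b, g.1.1 1 0 ≠ 0 ∧ g.2.1 1 0 ≠ 0 ∧
      ((β.e b : ℤ) * g.2.1 1 0) ^ 2 ≠ ((β.e a : ℤ) * g.1.1 1 0) ^ 2 := by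
  by_contra hcon
  push Not at hcon
  obtain ⟨δ, hδ, hδ'⟩ := eq_c A β ha
  obtain ⟨δ₁, hδ₁, hδ₁'⟩ := eq_c A β hb
  obtain ⟨M, hMd, hM1⟩ := alg_a (H := MG2 β a b) (m := β.e a) (l := β.e b) (by exact_mod_cast ha)
    (by exact_mod_cast hb) (T_MG2 β a b) ⟨(δ a, δ b), mem_MG2.mpr ⟨δ, hδ, rfl, rfl⟩, hδ'⟩
    ⟨(δ₁ a, δ₁ b), mem_MG2.mpr ⟨δ₁, hδ₁, rfl, rfl⟩, hδ₁'⟩ hcon
  exact not_equiv hN hM A β hab hMd fun δ hδ => hM1 (δ a, δ b) (mem_MG2.mpr ⟨δ, hδ, rfl, rfl⟩)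

/-- **the monodromy modulo `L`** -/
theorem mon (hN : S.NCo) (hM : S.NoMod) (A : Atl S) {a b : Fin d} (hab : a ≠ b) (β : Br S)
    (ha : 0 < β.e a) (hb : 0 < β.e b) : ∃ c₀ : ℕ, 0 < c₀ ∧ ∀ L : ℕ, Nat.Coprime L c₀ →
      ∀ g₁ g₂ : SL(2, ℤ), ∃ g : Fin d → SL(2, ℤ), red L (g a) = red L g₁ ∧ red L (g b) = red L g₂ ∧
        ∀ Φ : (Fin d → ℂ) → ℂ × ℂ → ℂ, AnR S Φ → (RR Φ β 1 ↔ RR Φ β g) := by
  obtain ⟨g, hg, h1, h2, h3⟩ := mon_el hN hM A hab β ha hb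
  obtain ⟨n, hn⟩ : ∃ n : ℤ, n = 30 * (β.e a : ℤ) * (β.e b : ℤ) * g.1.1 1 0 * g.2.1 1 0 *
    ((β.e b : ℤ) ^ 2 * g.2.1 1 0 ^ 2 - (β.e a : ℤ) ^ 2 * g.1.1 1 0 ^ 2) := ⟨_, rfl⟩
  have hn0 : n ≠ 0 := by
    rw [hn]
    have ha' : (β.e a : ℤ) ≠ 0 := by exact_mod_cast ha.ne'
    have hb' : (β.e b : ℤ) ≠ 0 := by exact_mod_cast hb.ne'
    refine mul_ne_zero (mul_ne_zero (mul_ne_zero (mul_ne_zero (mul_ne_zero (by norm_num) ha') hb') h1) h2) ?_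
    intro h
    apply h3
    linear_combination h
  refine ⟨n.natAbs, Int.natAbs_pos.mpr hn0, ?_⟩
  intro L hL g₁ g₂
  have hco : IsCoprime n (L : ℤ) := by
    rw [Int.isCoprime_iff_gcd_eq_one, Int.gcd_comm]
    exact hL
  rw [hn] at hco
  have hT := T_MG2 β a b
  rw [T_up, T_up] at hT
  obtain ⟨γ, hγ, e1, e2⟩ := gen_mod hT hg hco g₁ g₂
  obtain ⟨δ, hδ, e3, e4⟩ := mem_MG2.mp hγ
  refine ⟨δ, ?_, ?_, hδ⟩
  · rw [e3, e1]
  · rw [e4, e2]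

end Pool.Agent.LGO.RU
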