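import Mathlib
import Pool.Agent.LGO.RU.Defs
import Pool.Agent.LGO.RU.MonF

/-!
# LGO/RU: the monodromy, note 3151, section (7), in the form used (helper60, `MonF`)
-/

namespace Pool.Agent.LGO.RU

open Pool.Agent.LGO.AXG

theorem monP {S : Cur 2} (hN : S.NCo) (hM : S.NoMod) (A : Atl S) (β₀ : Br S) (h0 : 0 < β₀.e 0)
    (h1 : 0 < β₀.e 1) : ∃ c₀ : ℕ, 0 < c₀ ∧ MonP S β₀ c₀ := by
  obtain ⟨c₀, hc, h⟩ := mon hN hM A (a := 0) (b := 1) (by decide) β₀ h0 h1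
  refine ⟨c₀, hc, fun L hL g₁ g₂ => ?_⟩
  obtain ⟨g, e1, e2, e3⟩ := h L hL g₁ g₂
  refine ⟨g, fun i j => ?_, fun i j => ?_, e3⟩
  · have := congrArg (fun m : Matrix.SpecialLinearGroup (Fin 2) (ZMod L) => m.1 i j) e1
    simpa [red] using this
  · have := congrArg (fun m : Matrix.SpecialLinearGroup (Fin 2) (ZMod L) => m.1 i j) e2
    simpa [red] using this

end Pool.Agent.LGO.RU
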