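import Mathlib
import Pool.Agent.Hhelper14.ZP.Orbit

/-!
# LGO/RU: the classes of integral matrices of determinant `L`: their number, transitivity

`nv_card`: `(M₀ + 1) (M + 1) ≤ |QQ (M₀ M)|` for primes `M₀ ≠ M`.  `rQ_congr`: the action depends only on the matrix mod `L`.
`rQ_trans`: the action of `SL₂(ℤ)` on `QQ (M₀ M)` is transitive.
-/

namespace Pool.Agent.LGO.RU

open Pool.Agent.Hhelper14.ZP
open scoped MatrixGroups

/-- the upper triangular matrix with the diagonal `L / d`, `d` -/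
def up {L d : ℕ} (h : d ∣ L) (b : ℤ) : DD L :=
  ⟨!![((L / d : ℕ) : ℤ), b; 0, (d : ℤ)], by
    rw [Matrix.det_fin_two_of, mul_zero, sub_zero]
    exact_mod_cast Nat.div_mul_cancel h⟩

theorem up_val {L d : ℕ} (h : d ∣ L) (b : ℤ) : (up h b).1 = !![((L / d : ℕ) : ℤ), b; 0, (d : ℤ)] := rfl

theorem up_inj {L d d' : ℕ} (hL : 0 < L) (h : d ∣ L) (h' : d' ∣ L) {b b' : ℤ} (hb : 0 ≤ b) (hbd : b < d)
    (hb' : 0 ≤ b') (hbd' : b' < d') (γ : SL(2, ℤ)) (e : γ • up h b = up h' b') : d = d' ∧ b = b' := by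
  have e1 : γ.1 * (up h b).1 = (up h' b').1 := by
    rw [← e, FixedDetMatrices.smul_coe]
  have hd : 0 < d := Nat.pos_of_dvd_of_pos h hL
  have ha : 0 < L / d := Nat.div_pos (Nat.le_of_dvd hL h) hd
  have ha' : 0 < L / d' := Nat.div_pos (Nat.le_of_dvd hL h') (Nat.pos_of_dvd_of_pos h' hL)
  have h00 := congrFun (congrFun e1 0) 0
  have h01 := congrFun (congrFun e1 0) 1
  have h10 := congrFun (congrFun e1 1) 0
  have h11 := congrFun (congrFun e1 1) 1
  rw [up_val, up_val, Matrix.mul_apply, Fin.sum_univ_two] at h00 h01 h10 h11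
  simp only [Matrix.of_apply, Matrix.cons_val', Matrix.cons_val_zero, Matrix.cons_val_one,
    Matrix.cons_val_fin_one, mul_zero, add_zero] at h00 h01 h10 h11
  have haz : ((L / d : ℕ) : ℤ) ≠ 0 := by exact_mod_cast ha.ne'
  have hr : γ.1 1 0 = 0 := (mul_eq_zero.mp h10).resolve_right haz
  have hdet := γ.2
  rw [Matrix.det_fin_two, hr, mul_zero, sub_zero] at hdet
  rw [hr, zero_mul, zero_add] at h11
  have hp : 0 < γ.1 0 0 := by
    have h1 : (0 : ℤ) < ((L / d' : ℕ) : ℤ) := by exact_mod_cast ha'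
    rw [← h00] at h1
    have h2 : (0 : ℤ) < ((L / d : ℕ) : ℤ) := by exact_mod_cast ha
    by_contra hneg
    push Not at hneg
    nlinarith [mul_nonneg (neg_nonneg.mpr hneg) h2.le]
  have hs : γ.1 0 0 = 1 ∧ γ.1 1 1 = 1 := by
    rcases Int.mul_eq_one_iff_eq_one_or_neg_one.mp hdet with h1 | h1
    · exact h1
    · exact absurd hp (by rw [h1.1]; norm_num)
  rw [hs.2, one_mul] at h11
  have hdd : d = d' := by exact_mod_cast h11
  refine ⟨hdd, ?_⟩
  rw [hs.1, one_mul] at h01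
  subst hdd
  have h2 : γ.1 0 1 * (d : ℤ) = b' - b := by linarith
  have h3 : |γ.1 0 1 * (d : ℤ)| < d := by
    rw [h2, abs_lt]
    constructor <;> linarith
  have h4 : γ.1 0 1 = 0 := by
    by_contra hne
    have h5 : (1 : ℤ) ≤ |γ.1 0 1| := Int.one_le_abs hne
    rw [abs_mul, abs_of_nonneg (by positivity : (0 : ℤ) ≤ (d : ℤ))] at h3
    have h6 : (0 : ℤ) < d := by exact_mod_cast hd
    nlinarith
  rw [h4, zero_mul] at h2
  linarith

theorem sum_divisors_le {L : ℕ} (hL : 0 < L) : ∑ d ∈ L.divisors, d ≤ Nat.card (QQ L) := by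
  classical
  have := finite_QQ hL
  set S : Finset ((_ : ℕ) × ℕ) := L.divisors.sigma fun d => Finset.range d with hS
  have hSc : S.card = ∑ d ∈ L.divisors, d := by
    rw [hS, Finset.card_sigma]
    simp
  have hm : ∀ x : S, x.1.1 ∣ L ∧ x.1.2 < x.1.1 := by
    rintro ⟨⟨d, b⟩, hx⟩
    rw [hS, Finset.mem_sigma, Nat.mem_divisors, Finset.mem_range] at hx
    exact ⟨hx.1.1, hx.2⟩
  rw [← hSc, ← Nat.card_eq_finsetCard]
  refine Nat.card_le_card_of_injective (fun x : S => (Quotient.mk'' (up (hm x).1 (x.1.2 : ℤ)) : QQ L)) ?_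
  intro x y hxy
  have h1 := Quotient.exact' hxy
  obtain ⟨γ, hγ⟩ := h1
  obtain ⟨h2, h3⟩ := up_inj hL (hm y).1 (hm x).1 (by positivity) (by exact_mod_cast (hm y).2)
    (by positivity) (by exact_mod_cast (hm x).2) γ hγ
  apply Subtype.ext
  obtain ⟨⟨d, b⟩, hx⟩ := x
  obtain ⟨⟨d', b'⟩, hy⟩ := y
  simp only at h2 h3
  have h4 : b' = b := by exact_mod_cast h3
  subst h2
  subst h4
  rfl

theorem nv_card {M₀ M : ℕ} (h₀ : M₀.Prime) (h : M.Prime) (hne : M₀ ≠ M) :
    (M₀ + 1) * (M + 1) ≤ Nat.card (QQ (M₀ * M)) := by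
  have hL : 0 < M₀ * M := Nat.mul_pos h₀.pos h.pos
  refine le_trans (le_of_eq ?_) (sum_divisors_le hL)
  have hc : M₀.Coprime M := (Nat.coprime_primes h₀ h).mpr hne
  rw [Nat.Coprime.sum_divisors_mul hc, h₀.sum_divisors, h.sum_divisors]

/-- the action on the classes depends only on the matrix mod `L` -/
theorem rQ_congr {L : ℕ} (hL : 0 < L) {g g' : SL(2, ℤ)}
    (h : ∀ i j, ((g.1 i j : ℤ) : ZMod L) = ((g'.1 i j : ℤ) : ZMod L)) (κ : QQ L) : rQ g κ = rQ g' κ := by
  induction κ using Quotient.inductionOn' with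
  | h A =>
    have h1 : ∀ i j, ∃ x : ℤ, g.1 i j = g'.1 i j + L * x := by
      intro i j
      have h2 := (ZMod.intCast_eq_intCast_iff_dvd_sub _ _ _).mp (h i j)
      obtain ⟨x, hx⟩ := h2
      exact ⟨-x, by linarith⟩
    choose X hX using h1
    have hg : g.1 = g'.1 + (L : ℤ) • (Matrix.of X) := by
      ext i j
      simp [hX i j]
    -- `A g = (1 + A X g'⁻¹ adj A) A g'`
    let B : Matrix (Fin 2) (Fin 2) ℤ := 1 + A.1 * Matrix.of X * (g'⁻¹).1 * A.1.adjugate
    have hgg : (g'⁻¹).1 * g'.1 = 1 := by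
      rw [← Matrix.SpecialLinearGroup.coe_mul, inv_mul_cancel, Matrix.SpecialLinearGroup.coe_one]
    have hA : A.1.adjugate * A.1 = (L : ℤ) • (1 : Matrix (Fin 2) (Fin 2) ℤ) := by
      rw [Matrix.adjugate_mul, A.2]
    have hBA : B * (A.1 * g'.1) = A.1 * g.1 := by
      calc B * (A.1 * g'.1) = A.1 * g'.1 +
            A.1 * Matrix.of X * (g'⁻¹).1 * (A.1.adjugate * A.1) * g'.1 := by
            simp only [B, add_mul, one_mul, mul_assoc]
        _ = A.1 * g'.1 + (L : ℤ) • (A.1 * Matrix.of X * ((g'⁻¹).1 * g'.1)) := by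
            rw [hA]
            simp only [mul_assoc, Matrix.mul_smul, Matrix.smul_mul, Matrix.one_mul]
        _ = A.1 * g.1 := by
            rw [hgg, mul_one, hg, mul_add, Matrix.mul_smul]
    have hdet : B.det = 1 := by
      have h3 := congrArg Matrix.det hBA
      rw [Matrix.det_mul, Matrix.det_mul, Matrix.det_mul, g.2, g'.2, A.2, mul_one] at h3
      have h4 : (L : ℤ) ≠ 0 := by exact_mod_cast hL.ne'
      exact mul_right_cancel₀ h4 (by rw [one_mul]; exact h3)
    change (Quotient.mk'' (rmul A g) : QQ L) = Quotient.mk'' (rmul A g')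
    refine Quotient.sound' ⟨⟨B, hdet⟩, ?_⟩
    apply Subtype.ext
    change B * (rmul A g').1 = (rmul A g).1
    rw [rmul_val, rmul_val, hBA]

theorem rQ_mul {L : ℕ} (g h : SL(2, ℤ)) (κ : QQ L) : rQ (g * h) κ = rQ h (rQ g κ) := by
  induction κ using Quotient.inductionOn' with
  | h A =>
    change (Quotient.mk'' (rmul A (g * h)) : QQ L) = Quotient.mk'' (rmul (rmul A g) h)
    congr 1
    apply Subtype.ext
    rw [rmul_val, rmul_val, rmul_val, mul_assoc, Matrix.SpecialLinearGroup.coe_mul]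

theorem rQ_one {L : ℕ} (κ : QQ L) : rQ 1 κ = κ := by
  induction κ using Quotient.inductionOn' with
  | h A =>
    change (Quotient.mk'' (rmul A 1) : QQ L) = Quotient.mk'' A
    congr 1
    apply Subtype.ext
    rw [rmul_val]
    simp

/-- all classes are in the orbit of the class of `diag(1, L)` -/
theorem rQ_base {L : ℕ} (hL : 0 < L) (hsq : Squarefree L) (κ : QQ L) :
    ∃ g : SL(2, ℤ), rQ g κ = Quotient.mk'' (up (dvd_refl L) 0) := by
  induction κ using Quotient.inductionOn' with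
  | h A =>
    obtain ⟨B, ⟨h10, h00, h01, hlt⟩, γ, rfl⟩ := exists_rep hL A
    have hdet := B.2
    rw [Matrix.det_fin_two, h10, mul_zero, sub_zero] at hdet
    set a := B.1 0 0 with ha
    set b := B.1 0 1 with hb
    set d := B.1 1 1 with hd
    have hcop : IsCoprime a d := by
      have h1 : Squarefree (a * d) := by
        rw [hdet]
        exact Int.squarefree_natCast.mpr hsq
      exact (squarefree_mul_iff.mp h1).1.isCoprime
    obtain ⟨u, v, huv⟩ := hcop
    -- `v = (x, 1)`, `a x + b = 1 mod d`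
    set x : ℤ := (1 - b) * u with hx
    have hpr : IsCoprime (a * x + b) d := by
      refine ⟨1, (1 - b) * v, ?_⟩
      rw [hx]
      linear_combination (1 - b) * huv
    obtain ⟨s, t, hst⟩ := hpr
    -- `δ = (x, -1; 1, 0)`, `M δ = (a x + b, -a; d, 0)`
    let δ : SL(2, ℤ) := ⟨!![x, -1; 1, 0], by simp [Matrix.det_fin_two_of]⟩
    -- `γ' = (s, t; -d, a x + b)`, `γ' M δ = (1, -s a; 0, a d)`
    let γ' : SL(2, ℤ) := ⟨!![s, t; -d, a * x + b], by
      rw [Matrix.det_fin_two_of]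
      linear_combination hst⟩
    let δ' : SL(2, ℤ) := ⟨!![1, s * a; 0, 1], by simp [Matrix.det_fin_two_of]⟩
    refine ⟨δ * δ', ?_⟩
    change (Quotient.mk'' (rmul (γ • B) (δ * δ')) : QQ L) = Quotient.mk'' (up (dvd_refl L) 0)
    symm
    refine Quotient.sound' ⟨γ' * γ⁻¹, ?_⟩
    apply Subtype.ext
    change (γ' * γ⁻¹).1 * (rmul (γ • B) (δ * δ')).1 = (up (dvd_refl L) 0).1
    have hγ : (γ' * γ⁻¹).1 * (rmul (γ • B) (δ * δ')).1 = γ'.1 * (B.1 * (δ.1 * δ'.1)) := by
      rw [rmul_val, FixedDetMatrices.smul_coe, Matrix.SpecialLinearGroup.coe_mul,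
        Matrix.SpecialLinearGroup.coe_mul]
      have hgg : (γ⁻¹).1 * γ.1 = 1 := by
        rw [← Matrix.SpecialLinearGroup.coe_mul, inv_mul_cancel, Matrix.SpecialLinearGroup.coe_one]
      calc γ'.1 * (γ⁻¹).1 * (γ.1 * B.1 * (δ.1 * δ'.1)) =
          γ'.1 * ((γ⁻¹).1 * γ.1) * (B.1 * (δ.1 * δ'.1)) := by simp only [mul_assoc]
        _ = _ := by rw [hgg, mul_one]
    rw [hγ]
    have hB : B.1 = !![a, b; 0, d] := by
      ext i j
      fin_cases i <;> fin_cases j <;> simp [ha, hb, hd, h10]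
    rw [hB, up_val]
    have e1 : γ'.1 = !![s, t; -d, a * x + b] := rfl
    have e2 : δ.1 = !![x, -1; 1, 0] := rfl
    have e3 : δ'.1 = !![1, s * a; 0, 1] := rfl
    rw [e1, e2, e3, Matrix.mul_fin_two, Matrix.mul_fin_two, Matrix.mul_fin_two,
      Nat.div_self hL]
    ext i j
    fin_cases i <;> fin_cases j
    · simp
      linear_combination hst
    · simp
      linear_combination (s * a) * hst
    · simp
      ring
    · simp
      linear_combination hdet

theorem rQ_trans {L : ℕ} (hL : 0 < L) (hsq : Squarefree L) (κ κ' : QQ L) :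
    ∃ g : SL(2, ℤ), rQ g κ = κ' := by
  obtain ⟨g, hg⟩ := rQ_base hL hsq κ
  obtain ⟨g', hg'⟩ := rQ_base hL hsq κ'
  refine ⟨g * g'⁻¹, ?_⟩
  rw [rQ_mul, hg, ← hg', ← rQ_mul, mul_inv_cancel, rQ_one]

theorem sqf {M₀ M : ℕ} (h₀ : M₀.Prime) (h : M.Prime) (hne : M₀ ≠ M) : Squarefree (M₀ * M) := by
  have hc : M₀.Coprime M := (Nat.coprime_primes h₀ h).mpr hne
  exact (Nat.squarefree_mul hc).mpr ⟨h₀.prime.squarefree, h.prime.squarefree⟩

end Pool.Agent.LGO.RU
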