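import Mathlib
import Pool.Agent.LGO.RU.FlA
import Pool.Agent.LGO.AXG.Max
import Pool.Agent.LGO.Gal.CM

/-!
# LGO/RU: the grid step of note 3151, section (7)

If the functions `Fl .. κa κb` vanish on the lifts of a branch for all pairs of classes, then all coefficients are zero: at all but countably many
points the two lifts are not quadratic, so the values `jQ κ` are different for different classes (`jq_inj`), all sums `∑ c i j k k' η ^ i ξ ^ j`
vanish (`grid`), and `Loc.indep` applies.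
-/

namespace Pool.Agent.LGO.RU

open Pool.Agent.Hhelper14.ZP Pool.Agent.LGO Pool.Agent.LGO.AX UpperHalfPlane Filter Topology
open scoped MatrixGroups

/-- the invariants of different classes are different at a point which is not quadratic -/
theorem jq_inj {L : ℕ} (hL : 0 < L) {τ : ℍ} (hτ : NonCM (τ : ℂ)) :
    Function.Injective fun κ : QQ L => jQ hL κ τ := by
  intro κ κ' h
  induction κ using Quotient.inductionOn' with
  | h A =>
  induction κ' using Quotient.inductionOn' with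
  | h A' =>
  change jInv (act hL A τ) = jInv (act hL A' τ) at h
  obtain ⟨γ, hγ⟩ := Gal.j_inj h
  rw [← act_smul] at hγ
  have h1 := Gal.maps_act hL A τ
  have h2 := Gal.maps_act hL (γ • A') τ
  rw [← hγ] at h2
  obtain ⟨k, hk⟩ := hτ.prop h1 h2
  have hdA : A.1.det = (L : ℤ) := A.2
  have hdA' : (γ • A').1.det = (L : ℤ) := (γ • A').2
  have hL0 : (L : ℤ) ≠ 0 := by exact_mod_cast hL.ne'
  have hk2 : k ^ 2 = (L : ℤ) ^ 2 := by
    have h3 := congrArg Matrix.det hk
    rw [Matrix.det_smul, Matrix.det_smul, hdA, hdA'] at h3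
    simp only [Fintype.card_fin] at h3
    exact (mul_right_cancel₀ hL0 h3).symm
  rw [hdA] at hk
  rcases sq_eq_sq_iff_eq_or_eq_neg.1 hk2 with h3 | h3
  · rw [h3] at hk
    have h4 : (γ • A').1 = A.1 := smul_right_injective _ hL0 hk
    refine (Quotient.sound' ⟨γ, ?_⟩ : (Quotient.mk'' A : QQ L) = Quotient.mk'' A')
    exact Subtype.ext h4
  · have h4 : (γ • A').1 = -A.1 := by
      refine smul_right_injective _ hL0 (hk.trans ?_)
      rw [h3]
      ext i j
      simp
    refine (Quotient.sound' ⟨-γ, ?_⟩ : (Quotient.mk'' A : QQ L) = Quotient.mk'' A')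
    refine Subtype.ext ?_
    change (-γ).1 * A'.1 = A.1
    have h5 : γ.1 * A'.1 = -A.1 := h4
    rw [Matrix.SpecialLinearGroup.coe_neg, neg_mul, h5, neg_neg]

private theorem NVG_one {κ : Type*} [Fintype κ] {w : κ → ℂ} (hw : Function.Injective w) {R : ℕ}
    (hR : R ≤ Fintype.card κ) (B : ℕ → ℂ) (hB : ∀ i, ∑ k ∈ Finset.range R, B k * w i ^ k = 0) :
    ∀ k < R, B k = 0 := by
  intro k hk
  set P : Polynomial ℂ := ∑ k ∈ Finset.range R, Polynomial.monomial k (B k) with hP
  have hdeg : P.natDegree < R := by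
    have h3 : P.natDegree ≤ R - 1 := by
      rw [hP]
      refine Polynomial.natDegree_sum_le_of_forall_le _ _ fun j hj => ?_
      have := Finset.mem_range.mp hj
      exact (Polynomial.natDegree_monomial_le _).trans (by omega)
    omega
  have h0 : P = 0 := by
    refine Polynomial.eq_zero_of_natDegree_lt_card_of_eval_eq_zero P hw (fun i => ?_) (hdeg.trans_le hR)
    rw [hP, Polynomial.eval_finsetSum]
    simp only [Polynomial.eval_monomial]
    exact hB i
  have h4 : P.coeff k = B k := by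
    rw [hP, Polynomial.finsetSum_coeff]
    simp only [Polynomial.coeff_monomial]
    rw [Finset.sum_ite_eq' (Finset.range R) k B, if_pos (Finset.mem_range.mpr hk)]
  rw [← h4, h0, Polynomial.coeff_zero]

/-- a polynomial in two variables which vanishes on a large grid -/
theorem grid {ι ι' : Type*} [Fintype ι] [Fintype ι'] {u : ι → ℂ} {v : ι' → ℂ} (hu : Function.Injective u)
    (hv : Function.Injective v) {R : ℕ} (h1 : R ≤ Fintype.card ι) (h2 : R ≤ Fintype.card ι')
    (A : ℕ → ℕ → ℂ) (h : ∀ i i', ∑ k ∈ Finset.range R, ∑ k' ∈ Finset.range R, A k k' * u i ^ k * v i' ^ k' = 0) :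
    ∀ k < R, ∀ k' < R, A k k' = 0 := by
  intro k hk k' hk'
  have h3 : ∀ i', ∀ k < R, ∑ k' ∈ Finset.range R, A k k' * v i' ^ k' = 0 := by
    intro i'
    refine NVG_one hu h1 (fun k => ∑ k' ∈ Finset.range R, A k k' * v i' ^ k') fun i => ?_
    rw [← h i i']
    refine Finset.sum_congr rfl fun k _ => ?_
    rw [Finset.sum_mul]
    exact Finset.sum_congr rfl fun k' _ => by ring
  exact NVG_one hv h2 (fun k' => A k k') (fun i' => h3 i' k hk) k' hk'

private theorem NVG_s4 (e J R : ℕ) (f : ℕ → ℕ → ℕ → ℕ → ℂ) :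
    ∑ i ∈ Finset.range e, ∑ j ∈ Finset.range J, ∑ k ∈ Finset.range R, ∑ k' ∈ Finset.range R, f i j k k' =
      ∑ k ∈ Finset.range R, ∑ k' ∈ Finset.range R, ∑ i ∈ Finset.range e, ∑ j ∈ Finset.range J, f i j k k' := by
  have h1 : ∀ i, ∑ j ∈ Finset.range J, ∑ k ∈ Finset.range R, ∑ k' ∈ Finset.range R, f i j k k' =
      ∑ k ∈ Finset.range R, ∑ j ∈ Finset.range J, ∑ k' ∈ Finset.range R, f i j k k' := fun i =>
    Finset.sum_comm
  simp only [h1]
  rw [Finset.sum_comm]
  refine Finset.sum_congr rfl fun k _ => ?_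
  have h2 : ∀ i, ∑ j ∈ Finset.range J, ∑ k' ∈ Finset.range R, f i j k k' =
      ∑ k' ∈ Finset.range R, ∑ j ∈ Finset.range J, f i j k k' := fun i => Finset.sum_comm
  simp only [h2]
  rw [Finset.sum_comm]

private theorem NVG_fin {f : ℂ → ℂ} {K : Set ℂ} (hK : IsCompact K) (hf : ∀ v ∈ K, AnalyticAt ℂ f v) {s : ℂ}
    (hne : ∀ v ∈ K, ¬ ∀ᶠ w in 𝓝 v, f w = s) : {v | v ∈ K ∧ f v = s}.Finite := by
  by_contra hinf
  have hinf' : {v | v ∈ K ∧ f v = s}.Infinite := hinf
  obtain ⟨x, hx, hacc⟩ := hinf'.exists_accPt_of_subset_isCompact hK (fun v hv => hv.1)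
  rw [accPt_iff_frequently_nhdsNE] at hacc
  have h1 : ∃ᶠ w in 𝓝[≠] x, f w = s := hacc.mono fun w hw => hw.2
  exact hne x hx (((hf x hx).frequently_eq_iff_eventually_eq analyticAt_const).mp h1)

private theorem NVG_T {S : AXG.Cur 2} (β : AXG.Br S) (s : ℂ) : {v : ℂ | (β.pt v).1 = s}.Countable := by
  by_cases hne : ∃ v₀, (β.pt v₀).1 = s
  · obtain ⟨v₀, hv₀⟩ := hne
    refine (Set.countable_range fun k : ℤ => v₀ + k * (2 * Real.pi * Complex.I) / β.m).mono ?_
    intro v hv
    have h1 : Tp β.o (Complex.exp v ^ β.m) = Tp β.o (Complex.exp v₀ ^ β.m) := by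
      have h2 : (β.pt v).1 = (β.pt v₀).1 := by rw [hv₀]; exact hv
      exact h2
    have h3 : Complex.exp v ^ β.m = Complex.exp v₀ ^ β.m := by
      cases ho : β.o with
      | none =>
        rw [ho] at h1
        simpa [Tp] using h1
      | some c =>
        rw [ho] at h1
        simpa [Tp] using h1
    rw [← Complex.exp_nat_mul, ← Complex.exp_nat_mul, Complex.exp_eq_exp_iff_exists_int] at h3
    obtain ⟨k, hk⟩ := h3
    have hm : (β.m : ℂ) ≠ 0 := by exact_mod_cast β.m_pos.ne'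
    refine ⟨k, ?_⟩
    change v₀ + k * (2 * Real.pi * Complex.I) / β.m = v
    field_simp
    linear_combination -hk
  · refine Set.countable_empty.mono ?_
    intro v hv
    exact absurd ⟨v, hv⟩ hne

variable {n : ℕ} {V : Set (Fin n → ℂ)} {a b : Fin n}

theorem nv_grid (D : Loc V a b) (Md : Mdl D) {L : ℕ} (hL : 0 < L) {c : ℕ → ℕ → ℕ → ℕ → OO} {J R : ℕ}
    (hR : R ≤ Nat.card (QQ L))
    (hc : ∀ i j k k', c i j k k' ≠ 0 → i < D.e ∧ j < J ∧ k < R ∧ k' < R) (β : AXG.Br Md.S)
    (h : ∀ κa κb, AXG.RR (Fl hL c D.e J R κa κb) β 1) : ∀ i j k k', c i j k k' = 0 := by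
  have := finite_QQ hL
  have : Fintype (QQ L) := Fintype.ofFinite _
  rw [Nat.card_eq_fintype_card] at hR
  -- a closed disc in `U`
  obtain ⟨w₀, hw₀, -⟩ := AX.br_avoid (β.ax 0) ∅
  change w₀ ∈ β.U at hw₀
  obtain ⟨ρ, hρ, hball⟩ := Metric.nhds_basis_closedBall.mem_iff.mp (β.isOpen.mem_nhds hw₀)
  -- the quadratic numbers
  have hcount : ∀ a : Fin 2, {v | v ∈ Metric.closedBall w₀ ρ ∧ IsAlgebraic ℚ (β.z a v)}.Countable := by
    intro a
    have h1 : {v | v ∈ Metric.closedBall w₀ ρ ∧ IsAlgebraic ℚ (β.z a v)} ⊆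
        ⋃ s ∈ {s : ℂ | IsAlgebraic ℚ s}, {v | v ∈ Metric.closedBall w₀ ρ ∧ β.z a v = s} := by
      rintro v ⟨hv, hal⟩
      exact Set.mem_biUnion (x := β.z a v) hal ⟨hv, rfl⟩
    refine Set.Countable.mono h1 (Set.Countable.biUnion (Algebraic.countable ℚ ℂ) fun s _ => ?_)
    refine (NVG_fin (isCompact_closedBall w₀ ρ) (fun v hv => ?_) fun v hv hev => ?_).countable
    · exact ((β.zdiff a).analyticOnNhd β.isOpen) v (hball hv)
    · exact AXG.z_nc Md.nco Md.A β a (hball hv) hev
  set Bad : Set ℂ := {v | v ∈ Metric.closedBall w₀ ρ ∧ IsAlgebraic ℚ (β.z 0 v)} ∪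
    {v | v ∈ Metric.closedBall w₀ ρ ∧ IsAlgebraic ℚ (β.z 1 v)} ∪ ⋃ s ∈ Md.ET, {v | (β.pt v).1 = s} with hBad
  have hBadc : Bad.Countable := by
    refine ((hcount 0).union (hcount 1)).union ?_
    exact Set.Countable.biUnion Md.ET.countable_toSet fun s _ => NVG_T β s
  set G : Set ℂ := Metric.closedBall w₀ ρ \ Bad with hG
  have hGunc : ¬ G.Countable := by
    intro hGc
    have h1 : (Metric.closedBall w₀ ρ).Countable :=
      (hGc.union hBadc).mono fun v hv => by
        by_cases hb : v ∈ Bad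
        · exact Or.inr hb
        · exact Or.inl ⟨hv, hb⟩
    have h2 : ¬ (Metric.ball w₀ ρ).Countable := by
      intro h3
      obtain ⟨v, hv1, hv2⟩ := (h3.dense_compl ℝ).inter_open_nonempty _ Metric.isOpen_ball
        ⟨w₀, Metric.mem_ball_self hρ⟩
      exact hv2 hv1
    exact h2 (h1.mono Metric.ball_subset_closedBall)
  have halg : ∀ {z : ℂ}, ¬ IsAlgebraic ℚ z → NonCM z := by
    intro z hz p q r hpqr
    by_contra hne
    apply hz
    refine ⟨Polynomial.C (p : ℚ) * Polynomial.X ^ 2 + Polynomial.C (q : ℚ) * Polynomial.X +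
      Polynomial.C (r : ℚ), ?_, ?_⟩
    · intro h0
      apply hne
      have e2 := congrArg (fun P => Polynomial.coeff P 2) h0
      have e1 := congrArg (fun P => Polynomial.coeff P 1) h0
      have e0 := congrArg (fun P => Polynomial.coeff P 0) h0
      simp only [Polynomial.coeff_add, Polynomial.coeff_C_mul, Polynomial.coeff_X_pow, Polynomial.coeff_X,
        Polynomial.coeff_C, Polynomial.coeff_zero] at e2 e1 e0
      norm_num at e2 e1 e0
      exact ⟨e2, e1, e0⟩
    · simp only [map_add, map_mul, map_pow, Polynomial.aeval_C, Polynomial.aeval_X]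
      simpa using hpqr
  -- the sums vanish at the points of `G`
  have hsum : ∀ v ∈ G, ∀ k < R, ∀ k' < R, ∑ i ∈ Finset.range D.e, ∑ j ∈ Finset.range J,
      ((c i j k k' : OO) : ℂ) * (β.pt v).2 ^ i * (β.pt v).1 ^ j = 0 := by
    intro v hv k hk k' hk'
    have hvU : v ∈ β.U := hball hv.1
    have hn : ∀ a : Fin 2, NonCM ((ofComplex (β.z a v) : ℍ) : ℂ) := by
      intro a
      have h1 : ¬ IsAlgebraic ℚ (β.z a v) := by
        intro hal
        apply hv.2
        rw [hBad]
        fin_cases a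
        · exact Or.inl (Or.inl ⟨hv.1, hal⟩)
        · exact Or.inl (Or.inr ⟨hv.1, hal⟩)
      have h2 : ((ofComplex (β.z a v) : ℍ) : ℂ) = β.z a v := by
        rw [ofComplex_apply_of_im_pos (β.zim a hvU)]
      rw [h2]
      exact halg h1
    refine grid (jq_inj hL (hn 0)) (jq_inj hL (hn 1)) hR hR (fun k k' => ∑ i ∈ Finset.range D.e,
      ∑ j ∈ Finset.range J, ((c i j k k' : OO) : ℂ) * (β.pt v).2 ^ i * (β.pt v).1 ^ j) ?_ k hk k' hk'
    intro κa κb
    have h1 := h κa κb v hvU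
    simp only [Fl, Pi.one_apply, mz_one, vE] at h1
    rw [NVG_s4] at h1
    rw [← h1]
    refine Finset.sum_congr rfl fun k _ => Finset.sum_congr rfl fun k' _ => ?_
    simp only [Finset.sum_mul]
    rfl
  -- infinitely many points of `V`
  intro i j k k'
  by_contra hne
  obtain ⟨hi, hj, hk, hk'⟩ := hc i j k k' hne
  have hinf : {x | x ∈ V ∧ x ∉ D.E ∧ ∑ i ∈ Finset.range D.e, ∑ j ∈ Finset.range J,
      ((c i j k k' : OO) : ℂ) * (MvPolynomial.aeval x D.Et : ℂ) ^ i *
        (MvPolynomial.aeval x D.Xi : ℂ) ^ j = 0}.Infinite := by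
    intro hfin
    apply hGunc
    have h1 : G ⊆ ⋃ s ∈ D.ξ '' {x | x ∈ V ∧ x ∉ D.E ∧ ∑ i ∈ Finset.range D.e, ∑ j ∈ Finset.range J,
        ((c i j k k' : OO) : ℂ) * (MvPolynomial.aeval x D.Et : ℂ) ^ i *
          (MvPolynomial.aeval x D.Xi : ℂ) ^ j = 0}, {v | (β.pt v).1 = s} := by
      intro v hv
      have hET : (β.pt v).1 ∉ Md.ET := by
        intro hET
        apply hv.2
        rw [hBad]
        exact Or.inr (Set.mem_biUnion (x := (β.pt v).1) hET rfl)
      obtain ⟨x, hx, hxE, h2, h3⟩ := Md.from_ _ (β.ptm (hball hv.1)) hET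
      refine Set.mem_biUnion (x := (β.pt v).1) ⟨x, ⟨hx, hxE, ?_⟩, h2⟩ rfl
      have h4 := hsum v hv k hk k' hk'
      rw [← h2, ← h3] at h4
      exact h4
    exact (Set.Countable.biUnion (hfin.image _).countable fun s _ => NVG_T β s).mono h1
  have h5 := D.indep J (fun i j => ((c i j k k' : OO) : ℂ)) (fun i j => ?_) hinf i hi j hj
  · exact hne (Subtype.ext h5)
  · have h6 : IsIntegral ℤ ((c i j k k' : OO) : ℂ) := (c i j k k').2
    exact (h6.tower_top (A := ℚ)).isAlgebraic

end Pool.Agent.LGO.RU
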