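import Mathlib
import Pool.Agent.LGO.RU.Defs
import Pool.Agent.LGO.RU.Mon
import Pool.Agent.LGO.RU.FlA
import Pool.Agent.LGO.RU.NVCard
import Pool.Agent.LGO.RU.NVGrid

/-!
# LGO/RU: the function with the coefficients `c` does not vanish identically on any branch, note 3151, section (7)

Proof.  `c₀` from `mon` (helper60, `RU/Mon.lean`) for a branch `β₀` as in `Md.cusp`.  Let `RR (Fl hL c .. κa κb) β 1`.  `AnR S (Fl ..)`: `jQ` is holomorphic on the upper half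
plane.  `rr_transport`: `RR (Fl ..) β₀ γ'`, that is `RR (Fl .. κa' κb') β₀ 1` with `κa' = rQ (γ' 0) κa` (`jQ_rQ`), `κb' = rQ (γ' 1) κb`.  `MonP`, applied to `Φ = Fl .. κa' κb'`, and the
transitivity of `SL₂(ℤ)` on `QQ L`, `L` squarefree (the class of `A δ` depends only on `δ` mod `L`): `RR (Fl .. κ κ') β₀ 1` for all `κ, κ'`.  So at all
points `q = β₀.pt w` and for all `κ, κ'`: `∑ c i j k k' q.2 ^ i q.1 ^ j (jQ κ z₀) ^ k (jQ κ' z₁) ^ k' = 0`.  For all but countably many `w` the values `x 0`, `x 1` are not CM, the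
`R = |QQ L|` numbers `jQ κ z₀` are different, the same for `z₁`: all `∑_{i, j} c i j k k' q.2 ^ i q.1 ^ j = 0`.  `Md.from_`, `D.indep`: `c = 0`.
-/

namespace Pool.Agent.LGO.RU

open Pool.Agent.Hhelper14.ZP Pool.Agent.LGO
open scoped MatrixGroups

variable {n : ℕ} {V : Set (Fin n → ℂ)} {a b : Fin n}

/-- `Fl` on the moved lifts of a branch -/
theorem fl_rr {L : ℕ} (hL : 0 < L) {S : AXG.Cur 2} (β : AXG.Br S) (c : ℕ → ℕ → ℕ → ℕ → OO) (e J R : ℕ)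
    (γ : Fin 2 → SL(2, ℤ)) (κa κb : QQ L) : AXG.RR (Fl hL c e J R κa κb) β γ ↔
      AXG.RR (Fl hL c e J R (rQ (γ 0) κa) (rQ (γ 1) κb)) β 1 := by
  refine forall₂_congr fun v hv => ?_
  rw [fl_mz hL c e J R κa κb γ fun a => β.zim a hv]
  have h1 : (fun a => AX.mz ((1 : Fin 2 → SL(2, ℤ)) a).1 (β.z a v)) = fun a => β.z a v := by
    funext a
    rw [Pi.one_apply, AX.mz_one]
  rw [h1]

theorem nv (D : Loc V a b) (Md : Mdl D) : ∃ c₀ : ℕ, 0 < c₀ ∧ ∀ (M₀ M : ℕ) (hL : 0 < M₀ * M),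
    M₀.Prime → M.Prime → M₀ ≠ M → (M₀ * M).Coprime c₀ →
    ∀ (n₂ : ℕ) (c : ℕ → ℕ → ℕ → ℕ → OO), (∃ i j k k', c i j k k' ≠ 0) →
      (∀ i j k k', c i j k k' ≠ 0 → i < D.e ∧ j < n₂ ∧ k < (M₀ + 1) * (M + 1) ∧
        k' < (M₀ + 1) * (M + 1)) →
      ∀ (β : AXG.Br Md.S) (κa κb : QQ (M₀ * M)),
        ¬ AXG.RR (Fl hL c D.e n₂ ((M₀ + 1) * (M + 1)) κa κb) β 1 := by
  obtain ⟨β₀, h0, h1⟩ := Md.cusp
  obtain ⟨c₀, hc₀, hmon⟩ := monP Md.nco Md.nomod Md.A β₀ h0 h1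
  refine ⟨c₀, hc₀, fun M₀ M hL hp₀ hp hne hcop n₂ c hc hsupp β κa κb hRR => ?_⟩
  set R := (M₀ + 1) * (M + 1) with hR
  obtain ⟨γ', hγ'⟩ := AXG.rr_transport (fl_an hL Md.S c D.e n₂ R κa κb) 0 Md.A β β₀ hRR
  rw [fl_rr] at hγ'
  have hsq := sqf hp₀ hp hne
  have hall : ∀ κ κ' : QQ (M₀ * M), AXG.RR (Fl hL c D.e n₂ R κ κ') β₀ 1 := by
    intro κ κ'
    obtain ⟨g₁, hg₁⟩ := rQ_trans hL hsq (rQ (γ' 0) κa) κ
    obtain ⟨g₂, hg₂⟩ := rQ_trans hL hsq (rQ (γ' 1) κb) κ'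
    obtain ⟨g, hg0, hg1, hg⟩ := hmon (M₀ * M) hcop g₁ g₂
    have h2 := (hg _ (fl_an hL Md.S c D.e n₂ R (rQ (γ' 0) κa) (rQ (γ' 1) κb))).mp hγ'
    rw [fl_rr, rQ_congr hL hg0, rQ_congr hL hg1, hg₁, hg₂] at h2
    exact h2
  have hz := nv_grid D Md hL (R := R) (nv_card hp₀ hp hne) hsupp β₀ hall
  obtain ⟨i, j, k, k', hne'⟩ := hc
  exact hne' (hz i j k k')

end Pool.Agent.LGO.RU
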