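import Mathlib

/-!
# LGO/RU: two small primes which do not divide a given number

PROOF.  The number of primes dividing `P` is at most `log P / log 2`.  `Chebyshev.pi_ge` (`Mathlib/NumberTheory/Chebyshev.lean`): `π n ≥ (n log 2 - log (n + 1)) / log n`, so
`π n ≥ c √n` for a constant `c > 0`, or `Chebyshev.theta_ge`: the product of the primes up to `n` which divide `P` is at most `P`, so if all primes up to `n` but one divide `P` then
`θ n ≤ log P + log n`.  Take `n` a constant times `(1 + log P) ^ 2`.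
-/

namespace Pool.Agent.LGO.RU

private lemma Prim2_omega {P : ℕ} (hP : 0 < P) :
    (P.primeFactors.card : ℝ) * Real.log 2 ≤ Real.log P := by
  have h1 : 2 ^ P.primeFactors.card ≤ P := by
    refine le_trans ?_ (Nat.le_of_dvd hP (Nat.prod_primeFactors_dvd P))
    have h := Finset.prod_le_prod' (s := P.primeFactors) (f := fun _ : ℕ => 2) (g := fun p => p)
      fun p hp => (Nat.prime_of_mem_primeFactors hp).two_le
    rwa [Finset.prod_const] at h
  rw [← Real.log_pow]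
  exact Real.log_le_log (by positivity) (by exact_mod_cast h1)

private lemma Prim2_pi {k : ℕ} (hk : 2 ≤ k) :
    (k : ℝ) * Real.log 2 / 2 - 1 ≤ (Nat.primesLE (k ^ 2)).card := by
  rw [Nat.primesLE_card_eq_primeCounting]
  refine le_trans ?_ (Chebyshev.pi_ge (k ^ 2))
  have hk0 : (2 : ℝ) ≤ k := by exact_mod_cast hk
  have h1 : Real.log k ≤ k - 1 := Real.log_le_sub_one_of_pos (by linarith)
  have h2 : Real.log ((k : ℝ) + 1) ≤ k := by
    have := Real.log_le_sub_one_of_pos (x := (k : ℝ) + 1) (by linarith)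
    linarith
  have h3 : Real.log (((k ^ 2 : ℕ) : ℝ) + 1) ≤ 2 * k := by
    have : Real.log (((k ^ 2 : ℕ) : ℝ) + 1) ≤ Real.log (((k : ℝ) + 1) ^ 2) := by
      refine Real.log_le_log (by positivity) ?_
      push_cast
      nlinarith
    rw [Real.log_pow] at this
    push_cast at this ⊢
    linarith
  have h4 : 0 < Real.log ((k ^ 2 : ℕ) : ℝ) := by
    refine Real.log_pos ?_
    push_cast
    nlinarith
  have h5 : Real.log ((k ^ 2 : ℕ) : ℝ) ≤ 2 * k := by
    push_cast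
    rw [Real.log_pow]
    push_cast
    linarith
  have hl2 : 0 < Real.log 2 := Real.log_pos (by norm_num)
  rw [le_div_iff₀ h4]
  by_cases h6 : 0 ≤ (k : ℝ) * Real.log 2 / 2 - 1
  · refine (mul_le_mul_of_nonneg_left h5 h6).trans ?_
    push_cast
    push_cast at h3
    nlinarith
  · have h7 : ((k : ℝ) * Real.log 2 / 2 - 1) * Real.log ((k ^ 2 : ℕ) : ℝ) ≤ 0 :=
      mul_nonpos_of_nonpos_of_nonneg (by linarith) h4.le
    have h8 : Real.log (((k ^ 2 : ℕ) : ℝ) + 1) ≤ ((k ^ 2 : ℕ) : ℝ) * Real.log 2 := by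
      rw [← Real.log_rpow (by norm_num)]
      refine Real.log_le_log (by positivity) ?_
      rw [Real.rpow_natCast]
      exact_mod_cast Nat.lt_two_pow_self (n := k ^ 2)
    linarith

theorem prim2 : ∃ C : ℕ, 0 < C ∧ ∀ P : ℕ, 0 < P → ∃ M₀ M : ℕ, M₀.Prime ∧ M.Prime ∧ M₀ ≠ M ∧
    ¬ M₀ ∣ P ∧ ¬ M ∣ P ∧ (M₀ : ℝ) ≤ C * (1 + Real.log P) ^ 2 ∧ (M : ℝ) ≤ C * (1 + Real.log P) ^ 2 := by
  refine ⟨100, by norm_num, fun P hP => ?_⟩
  have hx : 0 ≤ Real.log P := Real.log_natCast_nonneg P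
  set x := Real.log P with hxd
  set k := ⌈9 * (1 + x)⌉₊ with hk
  have hk1 : 9 * (1 + x) ≤ k := Nat.le_ceil _
  have hk2 : (k : ℝ) < 9 * (1 + x) + 1 := Nat.ceil_lt_add_one (by positivity)
  have hk3 : 2 ≤ k := by
    have : (2 : ℝ) ≤ k := by linarith
    exact_mod_cast this
  have hpi := Prim2_pi hk3
  have hom := Prim2_omega hP
  have hl := Real.log_two_gt_d9
  have hcard : P.primeFactors.card + 2 ≤ (Nat.primesLE (k ^ 2)).card := by
    have h1 : (P.primeFactors.card : ℝ) ≤ x / Real.log 2 := by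
      rw [le_div_iff₀ (by linarith)]
      exact hom
    have h2 : x / Real.log 2 ≤ 1.5 * x := by
      rw [div_le_iff₀ (by linarith)]
      nlinarith
    have h3 : 9 * (1 + x) * 0.69 ≤ k * Real.log 2 := mul_le_mul hk1 (by linarith) (by norm_num) (by positivity)
    have h4 : (P.primeFactors.card : ℝ) + 2 ≤ (Nat.primesLE (k ^ 2)).card := by linarith
    exact_mod_cast h4
  have hcard2 : 1 < (Nat.primesLE (k ^ 2) \ P.primeFactors).card := by
    have := Finset.le_card_sdiff P.primeFactors (Nat.primesLE (k ^ 2))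
    omega
  obtain ⟨a, ha, b, hb, hab⟩ := Finset.one_lt_card.1 hcard2
  have hle : ∀ a : ℕ, a ≤ k ^ 2 → (a : ℝ) ≤ (100 : ℕ) * (1 + x) ^ 2 := by
    intro a ha
    have h1 : (a : ℝ) ≤ (k : ℝ) ^ 2 := by exact_mod_cast ha
    have h2 : (k : ℝ) ≤ 10 * (1 + x) := by linarith
    have h3 : (k : ℝ) ^ 2 ≤ (10 * (1 + x)) ^ 2 := pow_le_pow_left₀ (by positivity) h2 2
    refine h1.trans (h3.trans (le_of_eq ?_))
    push_cast
    ring
  have hm : ∀ a ∈ Nat.primesLE (k ^ 2) \ P.primeFactors, a.Prime ∧ ¬ a ∣ P ∧ (a : ℝ) ≤ (100 : ℕ) * (1 + x) ^ 2 := by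
    intro a ha
    rw [Finset.mem_sdiff, Nat.mem_primesLE, Nat.mem_primeFactors] at ha
    exact ⟨ha.1.2, fun h => ha.2 ⟨ha.1.2, h, hP.ne'⟩, hle a ha.1.1⟩
  exact ⟨a, b, (hm a ha).1, (hm b hb).1, hab, (hm a ha).2.1, (hm b hb).2.1, (hm a ha).2.2, (hm b hb).2.2⟩

end Pool.Agent.LGO.RU
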