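import Mathlib
import Pool.Agent.LGO.RU.Defs
import Pool.Agent.LGO.PA.Coef

/-!
# LGO/RU: the series `Rs = 1 / j` and its compositional inverse `Qs`

`Ds = X + ..` (`PA.Tate`: the coefficients 0 and 1 of `Ds` are 0 and 1, copy the private lemmas), `E4s = 1 + ..`.  `Rs = Ds / E4s ^ 3 = X U`, `U(0) = 1`.
Growth: `PA.coef_le` (`L = 1`) gives `|coeff n| ≤ K ^ n` for `E4s ^ 3` and `Ds`; LEMMA I: if `A ∈ ℤ⟦X⟧`, `A(0) = 1`, `|coeff n A| ≤ K ^ n` and `A B = 1` then
`|coeff n B| ≤ (2 K) ^ n` (induction: `coeff n B = - ∑_{0 < k ≤ n} coeff k A coeff (n - k) B`, `∑ K ^ k (2 K) ^ (n - k) ≤ (2 K) ^ n`); LEMMA P: products and powers: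
`|coeff n A| ≤ a ^ n`, `|coeff n B| ≤ b ^ n` imply `|coeff n (A B)| ≤ (n + 1) (max a b) ^ n ≤ (2 max a b) ^ n`.
`Qs`: `c_N = [N = 1] - ∑_{n < N} c_n coeff N (Rs ^ n)` (strong recursion; `coeff N (Rs ^ N) = 1`, `coeff N (Rs ^ n) = 0` for `n > N`).
GROWTH OF `Qs` BY LAGRANGE: let `V U = 1`.  For `k ≥ 1`: `k V ^ (k + 1) Rs' = k V ^ k - X (V ^ k)'` (`Rs' = U + X U'`, `(V ^ k)' = - k V ^ (k + 1) U'`), so
`coeff k (V ^ (k + 1) Rs') = 0`, and `coeff 0 (V Rs') = 1`.  Derive `∑_{n ≤ m} c_n Rs ^ n = X + O(X ^ (m + 1))`: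
`∑_{n ≤ m} n c_n Rs ^ (n - 1) Rs' = 1 + O(X ^ m)`; multiply by `V ^ m`, `Rs ^ (n - 1) V ^ m = X ^ (n - 1) V ^ (m - n + 1)`, and take the coefficient of `X ^ (m - 1)`:
`m c_m = coeff (m - 1) (V ^ m)`.  With `|coeff n V| ≤ K ^ n`: `|coeff (m - 1) (V ^ m)| ≤ (2 K) ^ (m - 1) 2 ^ m` (`∑ |coeff n V| (2 K) ^ (-n) ≤ 2`).
-/

namespace Pool.Agent.LGO.RU

open PowerSeries Pool.Agent.LGO.PA

/-- `|coeff n A| ≤ K ^ n` -/
private def QSer_G (K : ℕ) (A : PowerSeries ℤ) : Prop := ∀ n : ℕ, |coeff n A| ≤ (K : ℤ) ^ n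

private theorem QSer_G_mono {K K' : ℕ} {A : PowerSeries ℤ} (h : QSer_G K A) (hK : K ≤ K') : QSer_G K' A := by
  intro n
  refine (h n).trans ?_
  have : (K : ℤ) ≤ K' := by exact_mod_cast hK
  exact pow_le_pow_left₀ (by positivity) this n

private theorem QSer_sum_fst (n : ℕ) : ∑ p ∈ Finset.HasAntidiagonal.antidiagonal n, (2 : ℤ) ^ p.1 = 2 ^ (n + 1) - 1 := by
  induction n with
  | zero => simp
  | succ n ih =>
    rw [Finset.Nat.sum_antidiagonal_succ']
    simp only [ih]
    ring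

private theorem QSer_sum_snd (n : ℕ) : ∑ p ∈ Finset.HasAntidiagonal.antidiagonal n, (2 : ℤ) ^ p.2 = 2 ^ (n + 1) - 1 := by
  induction n with
  | zero => simp
  | succ n ih =>
    rw [Finset.Nat.sum_antidiagonal_succ]
    simp only [ih]
    ring

private theorem QSer_abs_mul (n : ℕ) (A B : PowerSeries ℤ) :
    |coeff n (A * B)| ≤ ∑ p ∈ Finset.HasAntidiagonal.antidiagonal n, |coeff p.1 A| * |coeff p.2 B| := by
  rw [coeff_mul]
  refine (Finset.abs_sum_le_sum_abs _ _).trans (le_of_eq ?_)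
  refine Finset.sum_congr rfl fun p _ => ?_
  rw [abs_mul]

private theorem QSer_G_mul {a b : ℕ} {A B : PowerSeries ℤ} (hA : QSer_G a A) (hB : QSer_G b B) :
    QSer_G (2 * (a + b)) (A * B) := by
  intro n
  refine (QSer_abs_mul n A B).trans ?_
  have h1 : ∀ p ∈ Finset.HasAntidiagonal.antidiagonal n, |coeff p.1 A| * |coeff p.2 B| ≤ ((a + b : ℕ) : ℤ) ^ n := by
    intro p hp
    rw [Finset.HasAntidiagonal.mem_antidiagonal] at hp
    have h2 := (QSer_G_mono hA (Nat.le_add_right a b)) p.1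
    have h3 := (QSer_G_mono hB (Nat.le_add_left b a)) p.2
    rw [← hp, pow_add]
    exact mul_le_mul h2 h3 (abs_nonneg _) (by positivity)
  refine (Finset.sum_le_sum h1).trans ?_
  rw [Finset.sum_const, Finset.Nat.card_antidiagonal, nsmul_eq_mul]
  have h4 : ((n + 1 : ℕ) : ℤ) ≤ 2 ^ n := by exact_mod_cast Nat.lt_two_pow_self
  calc ((n + 1 : ℕ) : ℤ) * ((a + b : ℕ) : ℤ) ^ n ≤ 2 ^ n * ((a + b : ℕ) : ℤ) ^ n :=
        mul_le_mul_of_nonneg_right h4 (by positivity)
    _ = ((2 * (a + b) : ℕ) : ℤ) ^ n := by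
        push_cast
        rw [mul_pow]

private theorem QSer_G_inv {K : ℕ} {A B : PowerSeries ℤ} (hA : QSer_G K A) (h0 : coeff 0 A = 1)
    (hAB : A * B = 1) : QSer_G (2 * K) B := by
  have hB0 : coeff 0 B = 1 := by
    have h1 := congrArg (coeff 0) hAB
    rw [coeff_mul, Finset.Nat.antidiagonal_zero, Finset.sum_singleton, h0, one_mul] at h1
    rw [h1]
    simp
  intro n
  induction n using Nat.strong_induction_on with
  | _ n ih =>
    rcases n with _ | n
    · rw [hB0]
      simp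
    · have h1 := congrArg (coeff (n + 1)) hAB
      rw [coeff_mul, Finset.Nat.sum_antidiagonal_succ, coeff_one, if_neg (Nat.succ_ne_zero n), h0,
        one_mul] at h1
      have h2 : coeff (n + 1) B = -∑ p ∈ Finset.HasAntidiagonal.antidiagonal n, coeff (p.1 + 1) A * coeff p.2 B := by
        linarith
      rw [h2, abs_neg]
      refine (Finset.abs_sum_le_sum_abs _ _).trans ?_
      have h3 : ∀ p ∈ Finset.HasAntidiagonal.antidiagonal n, |coeff (p.1 + 1) A * coeff p.2 B| ≤
          (K : ℤ) ^ (n + 1) * 2 ^ p.2 := by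
        intro p hp
        rw [Finset.HasAntidiagonal.mem_antidiagonal] at hp
        rw [abs_mul]
        have h4 := hA (p.1 + 1)
        have h5 := ih p.2 (by omega)
        refine (mul_le_mul h4 h5 (abs_nonneg _) (by positivity)).trans (le_of_eq ?_)
        have h6 : n + 1 = (p.1 + 1) + p.2 := by omega
        rw [h6, pow_add]
        push_cast
        ring
      refine (Finset.sum_le_sum h3).trans ?_
      rw [← Finset.mul_sum, QSer_sum_snd]
      have h7 : (0 : ℤ) ≤ (K : ℤ) ^ (n + 1) := by positivity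
      have h8 : (((2 * K : ℕ) : ℤ)) ^ (n + 1) = (K : ℤ) ^ (n + 1) * 2 ^ (n + 1) := by
        push_cast
        rw [mul_pow, mul_comm]
      rw [h8]
      exact mul_le_mul_of_nonneg_left (by linarith) h7

private theorem QSer_G_pow {K : ℕ} {A : PowerSeries ℤ} (hA : QSer_G K A) (m n : ℕ) :
    |coeff n (A ^ m)| ≤ (2 * K : ℤ) ^ n * 2 ^ m := by
  induction m generalizing n with
  | zero =>
    rw [pow_zero, coeff_one]
    split_ifs with h
    · subst h
      simp
    · simp only [abs_zero]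
      positivity
  | succ m ih =>
    rw [pow_succ]
    refine (QSer_abs_mul n _ _).trans ?_
    have h3 : ∀ p ∈ Finset.HasAntidiagonal.antidiagonal n, |coeff p.1 (A ^ m)| * |coeff p.2 A| ≤
        (K : ℤ) ^ n * 2 ^ m * 2 ^ p.1 := by
      intro p hp
      rw [Finset.HasAntidiagonal.mem_antidiagonal] at hp
      refine (mul_le_mul (ih p.1) (hA p.2) (abs_nonneg _) (by positivity)).trans (le_of_eq ?_)
      rw [← hp, pow_add]
      ring
    refine (Finset.sum_le_sum h3).trans ?_
    rw [← Finset.mul_sum, QSer_sum_fst]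
    have h7 : (0 : ℤ) ≤ (K : ℤ) ^ n * 2 ^ m := by positivity
    calc (K : ℤ) ^ n * 2 ^ m * (2 ^ (n + 1) - 1) ≤ (K : ℤ) ^ n * 2 ^ m * 2 ^ (n + 1) := by nlinarith
      _ = (2 * K : ℤ) ^ n * 2 ^ (m + 1) := by ring

private theorem QSer_sA0 : coeff 0 sA = 0 := by
  rw [sA, coeff_mk, ArithmeticFunction.map_zero, Nat.cast_zero]

private theorem QSer_sB0 : coeff 0 sB = 0 := by
  rw [sB, coeff_mk, ArithmeticFunction.map_zero, Nat.cast_zero]

private theorem QSer_mul0 {A B : PowerSeries ℤ} (hA : coeff 0 A = 0) : coeff 0 (A * B) = 0 := by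
  rw [coeff_mul]
  simp [hA]

private theorem QSer_mul1 {A B : PowerSeries ℤ} (hA : coeff 0 A = 0) (hB : coeff 0 B = 0) :
    coeff 1 (A * B) = 0 := by
  rw [coeff_mul]
  rw [show Finset.HasAntidiagonal.antidiagonal (1 : ℕ) = {(0, 1), (1, 0)} from rfl]
  rw [Finset.sum_pair (by decide), hA, hB, zero_mul, mul_zero, add_zero]

private theorem QSer_Ds0 : coeff 0 Ds = 0 := by
  have h1 : coeff 0 (PowerSeries.mk (fun n => (5 * (ArithmeticFunction.sigma 3 n : ℤ) +
      7 * (ArithmeticFunction.sigma 5 n : ℤ)) / 12)) = 0 := by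
    rw [coeff_mk, ArithmeticFunction.map_zero, ArithmeticFunction.map_zero]
    norm_num
  rw [Ds, map_sub, map_add, map_add, h1, coeff_C_mul, coeff_C_mul, coeff_C_mul, pow_succ, pow_succ,
    pow_zero, one_mul, QSer_mul0 QSer_sA0, pow_succ, QSer_mul0 (by
      rw [pow_succ, pow_succ, pow_zero, one_mul]; exact QSer_mul0 QSer_sA0), pow_succ, pow_succ,
    pow_zero, one_mul, QSer_mul0 QSer_sB0]
  norm_num

private theorem QSer_Ds1 : coeff 1 Ds = 1 := by
  have h1 : coeff 1 (PowerSeries.mk (fun n => (5 * (ArithmeticFunction.sigma 3 n : ℤ) +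
      7 * (ArithmeticFunction.sigma 5 n : ℤ)) / 12)) = 1 := by
    rw [coeff_mk, ArithmeticFunction.sigma_one, ArithmeticFunction.sigma_one]
    norm_num
  rw [Ds, map_sub, map_add, map_add, h1, coeff_C_mul, coeff_C_mul, coeff_C_mul, pow_succ, pow_succ,
    pow_zero, one_mul, QSer_mul1 QSer_sA0 QSer_sA0, pow_succ, QSer_mul1 (by
      rw [pow_succ, pow_succ, pow_zero, one_mul]; exact QSer_mul0 QSer_sA0) QSer_sA0, pow_succ,
    pow_succ, pow_zero, one_mul, QSer_mul1 QSer_sB0 QSer_sB0]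
  norm_num

private theorem QSer_E40 : coeff 0 E4s = 1 := by
  rw [E4s, map_add, coeff_C_mul, QSer_sA0, mul_zero, add_zero, coeff_zero_one]

private theorem QSer_E43 : coeff 0 (E4s ^ 3) = 1 := by
  rw [coeff_zero_eq_constantCoeff_apply, map_pow, ← coeff_zero_eq_constantCoeff_apply, QSer_E40,
    one_pow]

private theorem QSer_I0 : coeff 0 (invOfUnit (E4s ^ 3) 1) = 1 := by
  rw [coeff_zero_eq_constantCoeff_apply, PowerSeries.constantCoeff_invOfUnit, inv_one, Units.val_one]

private theorem QSer_inv : E4s ^ 3 * invOfUnit (E4s ^ 3) 1 = 1 := by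
  refine PowerSeries.mul_invOfUnit (E4s ^ 3) 1 ?_
  rw [← coeff_zero_eq_constantCoeff_apply, QSer_E43, Units.val_one]

/-- `1 / j` as an integral series -/
noncomputable def Rs : PowerSeries ℤ := Ds * invOfUnit (E4s ^ 3) 1

theorem Rs_mul : Rs * E4s ^ 3 = Ds := by
  rw [Rs, mul_assoc, mul_comm (invOfUnit (E4s ^ 3) 1), QSer_inv, mul_one]

theorem Rs_coeff : coeff 0 Rs = 0 ∧ coeff 1 Rs = 1 := by
  refine ⟨QSer_mul0 QSer_Ds0, ?_⟩
  rw [Rs, coeff_mul]
  rw [show Finset.HasAntidiagonal.antidiagonal (1 : ℕ) = {(0, 1), (1, 0)} from rfl]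
  rw [Finset.sum_pair (by decide), QSer_Ds0, QSer_Ds1, QSer_I0, zero_mul, one_mul, zero_add]

/-- growth of a series whose coefficients grow polynomially -/
private theorem QSer_G_of {A : PowerSeries ℤ} {c : ℕ} (hc : 1 ≤ c) (h0 : |coeff 0 A| ≤ 1)
    (h : ∀ n : ℕ, ((|coeff n A| : ℤ) : ℝ) ≤ ((c : ℝ) * (n + 1)) ^ (c * (1 + 1))) :
    QSer_G ((c * 2) ^ (c * 2)) A := by
  intro n
  rcases Nat.eq_zero_or_pos n with hn | hn
  · subst hn
    simpa using h0
  · have h1 : ((|coeff n A| : ℤ) : ℝ) ≤ (((c * 2) ^ (c * 2) : ℕ) : ℝ) ^ n := by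
      refine (h n).trans ?_
      have h2 : ((c : ℝ) * (n + 1)) ≤ ((c : ℝ) * 2) ^ n := by
        rw [mul_pow]
        have h3 : (c : ℝ) ≤ (c : ℝ) ^ n := by
          have : (1 : ℝ) ≤ c := by exact_mod_cast hc
          calc (c : ℝ) = (c : ℝ) ^ 1 := (pow_one _).symm
            _ ≤ (c : ℝ) ^ n := pow_le_pow_right₀ this hn
        have h4 : ((n : ℝ) + 1) ≤ 2 ^ n := by
          exact_mod_cast (Nat.lt_two_pow_self (n := n))
        exact mul_le_mul h3 h4 (by positivity) (by positivity)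
      calc ((c : ℝ) * (n + 1)) ^ (c * (1 + 1)) ≤ (((c : ℝ) * 2) ^ n) ^ (c * (1 + 1)) :=
            pow_le_pow_left₀ (by positivity) h2 _
        _ = (((c * 2) ^ (c * 2) : ℕ) : ℝ) ^ n := by
            push_cast
            rw [← pow_mul, ← pow_mul]
            congr 1
            ring
    exact_mod_cast h1

private theorem QSer_Rs_G : ∃ K : ℕ, 0 < K ∧ QSer_G K Rs := by
  obtain ⟨c, hc, h⟩ := coef_le
  have h1 : QSer_G ((c * 2) ^ (c * 2)) (E4s ^ 3) := by
    refine QSer_G_of hc (by rw [QSer_E43]; simp) fun n => ?_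
    have h2 := h 1 1 0 n le_rfl (by norm_num)
    rw [mul_one, pow_zero, mul_one] at h2
    exact h2
  have h2 : QSer_G ((c * 2) ^ (c * 2)) Ds := by
    refine QSer_G_of hc (by rw [QSer_Ds0]; simp) fun n => ?_
    have h2 := h 1 0 1 n (by norm_num) le_rfl
    rw [mul_zero, pow_zero, one_mul, pow_one] at h2
    exact h2
  have h3 := QSer_G_inv h1 QSer_E43 QSer_inv
  have h4 := QSer_G_mul h2 h3
  refine ⟨_, ?_, h4⟩
  have : 0 < (c * 2) ^ (c * 2) := pow_pos (by omega) _
  omega

theorem Rs_growth : ∃ K : ℕ, 0 < K ∧ ∀ n, ((|coeff n Rs| : ℤ) : ℝ) ≤ (K : ℝ) ^ n := by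
  obtain ⟨K, hK, h⟩ := QSer_Rs_G
  exact ⟨K, hK, fun n => by exact_mod_cast h n⟩

/-- the coefficients of the compositional inverse -/
private noncomputable def QSer_c (N : ℕ) : ℤ :=
  (if N = 1 then 1 else 0) - ∑ n : Fin N, QSer_c n.1 * coeff N (Rs ^ n.1)
termination_by N
decreasing_by exact n.2

private theorem QSer_c_eq (N : ℕ) :
    QSer_c N = (if N = 1 then 1 else 0) - ∑ n ∈ Finset.range N, QSer_c n * coeff N (Rs ^ n) := by
  rw [QSer_c, Finset.sum_range]

private theorem QSer_c0 : QSer_c 0 = 0 := by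
  rw [QSer_c_eq]
  simp

private theorem QSer_c1 : QSer_c 1 = 1 := by
  rw [QSer_c_eq]
  simp [QSer_c0]

/-- Lagrange: the coefficient `k ≥ 1` of `V ^ (k + 1) (X U)'` vanishes, `V U = 1` -/
private theorem QSer_lag {U V : PowerSeries ℤ} (hUV : V * U = 1) {k : ℕ} (hk : 1 ≤ k) :
    coeff k (V ^ (k + 1) * derivative ℤ (X * U)) = 0 := by
  have hd : derivative ℤ V = -(V ^ 2 * derivative ℤ U) := by
    have h1 := congrArg (derivative ℤ) hUV
    rw [Derivation.leibniz, Derivation.map_one_eq_zero] at h1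
    simp only [smul_eq_mul] at h1
    have h2 : derivative ℤ V * (V * U) = -(V ^ 2 * derivative ℤ U) := by
      linear_combination V * h1
    rwa [hUV, mul_one] at h2
  have hX : derivative ℤ (X * U) = U + X * derivative ℤ U := by
    rw [Derivation.leibniz]
    simp only [smul_eq_mul]
    rw [derivative_X]
    ring
  have hdk : derivative ℤ (V ^ k) = -((k : PowerSeries ℤ) * (V ^ (k + 1) * derivative ℤ U)) := by
    rw [Derivation.leibniz_pow, hd]
    simp only [nsmul_eq_mul, smul_eq_mul]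
    obtain ⟨j, rfl⟩ : ∃ j, k = j + 1 := ⟨k - 1, by omega⟩
    rw [Nat.add_sub_cancel]
    ring
  have hmain : (k : PowerSeries ℤ) * (V ^ (k + 1) * derivative ℤ (X * U)) =
      (k : PowerSeries ℤ) * V ^ k - X * derivative ℤ (V ^ k) := by
    rw [hdk, hX]
    have : V ^ (k + 1) * U = V ^ k := by rw [pow_succ, mul_assoc, hUV, mul_one]
    linear_combination (k : PowerSeries ℤ) * this
  obtain ⟨j, rfl⟩ : ∃ j, k = j + 1 := ⟨k - 1, by omega⟩
  have h3 := congrArg (coeff (j + 1)) hmain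
  rw [map_sub, coeff_succ_X_mul, coeff_derivative] at h3
  have hc : ((j + 1 : ℕ) : PowerSeries ℤ) = C ((j + 1 : ℕ) : ℤ) := by simp
  rw [hc, coeff_C_mul, coeff_C_mul] at h3
  have h4 : ((j + 1 : ℕ) : ℤ) * coeff (j + 1) (V ^ (j + 1 + 1) * derivative ℤ (X * U)) = 0 := by
    rw [h3]
    push_cast
    ring
  rcases mul_eq_zero.1 h4 with h5 | h5
  · exfalso
    have : ((j + 1 : ℕ) : ℤ) ≠ 0 := by exact_mod_cast Nat.succ_ne_zero j
    exact this h5
  · exact h5

/-- the compositional inverse of `Rs` -/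
theorem exists_Qs : ∃ (Qs : PowerSeries ℤ) (K : ℕ), 0 < K ∧ coeff 0 Qs = 0 ∧ coeff 1 Qs = 1 ∧
    (∀ n, ((|coeff n Qs| : ℤ) : ℝ) ≤ (K : ℝ) ^ n) ∧
    ∀ N, ∑ n ∈ Finset.range (N + 1), coeff n Qs * coeff N (Rs ^ n) = if N = 1 then 1 else 0 := by
  obtain ⟨K, hK, hG⟩ := QSer_Rs_G
  obtain ⟨U, hU⟩ : X ∣ Rs := by
    rw [X_dvd_iff, ← coeff_zero_eq_constantCoeff_apply]
    exact Rs_coeff.1
  have hUc : ∀ n, coeff n U = coeff (n + 1) Rs := fun n => by rw [hU, coeff_succ_X_mul]
  have hU0 : coeff 0 U = 1 := by rw [hUc]; exact Rs_coeff.2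
  have hUG : QSer_G (K ^ 2) U := by
    intro n
    rcases Nat.eq_zero_or_pos n with hn | hn
    · subst hn
      rw [hU0]
      simp
    · rw [hUc]
      refine (hG (n + 1)).trans ?_
      have hK1 : (1 : ℤ) ≤ K := by exact_mod_cast hK
      push_cast
      rw [← pow_mul]
      exact pow_le_pow_right₀ hK1 (by omega)
  obtain ⟨V, hV⟩ : ∃ V : PowerSeries ℤ, U * V = 1 := by
    refine ⟨invOfUnit U 1, PowerSeries.mul_invOfUnit U 1 ?_⟩
    rw [← coeff_zero_eq_constantCoeff_apply, hU0, Units.val_one]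
  have hVU : V * U = 1 := by rw [mul_comm]; exact hV
  have hVG := QSer_G_inv hUG hU0 hV
  have hV0 : coeff 0 V = 1 := by
    have h1 := congrArg (coeff 0) hV
    rw [coeff_mul, Finset.Nat.antidiagonal_zero, Finset.sum_singleton, hU0, one_mul] at h1
    rw [h1]
    simp
  have hpow : ∀ n, Rs ^ n = X ^ n * U ^ n := fun n => by rw [hU, mul_pow]
  have hdiag : ∀ N, coeff N (Rs ^ N) = 1 := by
    intro N
    rw [hpow]
    have h1 := coeff_X_pow_mul (U ^ N) N 0
    rw [zero_add] at h1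
    rw [h1, coeff_zero_eq_constantCoeff_apply, map_pow, ← coeff_zero_eq_constantCoeff_apply, hU0,
      one_pow]
  have hbig : ∀ n N, N < n → coeff N (Rs ^ n) = 0 := by
    intro n N hnN
    rw [hpow, coeff_X_pow_mul', if_neg (by omega)]
  have hrec : ∀ N, ∑ n ∈ Finset.range (N + 1), QSer_c n * coeff N (Rs ^ n) =
      if N = 1 then 1 else 0 := by
    intro N
    rw [Finset.sum_range_succ, hdiag, mul_one, QSer_c_eq N]
    ring
  -- Lagrange
  have hlag : ∀ m : ℕ, 1 ≤ m → (m : ℤ) * QSer_c m = coeff (m - 1) (V ^ m) := by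
    intro m hm
    set P : PowerSeries ℤ := ∑ n ∈ Finset.range (m + 1), C (QSer_c n) * Rs ^ n with hP
    have hPc : ∀ N ≤ m, coeff N P = if N = 1 then 1 else 0 := by
      intro N hN
      rw [hP, map_sum, ← hrec N]
      simp only [coeff_C_mul]
      symm
      refine Finset.sum_subset (Finset.range_subset_range.2 (by omega)) ?_
      intro n _ hn
      rw [Finset.mem_range, not_lt] at hn
      rw [hbig n N (by omega), mul_zero]
    have hPd : ∀ j < m, coeff j (derivative ℤ P) = if j = 0 then 1 else 0 := by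
      intro j hj
      rw [coeff_derivative, hPc (j + 1) (by omega)]
      by_cases h0 : j = 0
      · subst h0
        simp
      · rw [if_neg (by omega), if_neg h0, zero_mul]
    -- first computation
    have e1 : coeff (m - 1) (V ^ m * derivative ℤ P) = coeff (m - 1) (V ^ m) := by
      rw [coeff_mul]
      rw [Finset.sum_eq_single (m - 1, 0)]
      · rw [hPd 0 (by omega), if_pos rfl, mul_one]
      · intro p hp hne
        rw [Finset.HasAntidiagonal.mem_antidiagonal] at hp
        rw [hPd p.2 (by omega), if_neg, mul_zero]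
        intro h0
        apply hne
        ext
        · simp only; omega
        · exact h0
      · intro h
        exfalso
        apply h
        rw [Finset.HasAntidiagonal.mem_antidiagonal]
        omega
    -- second computation
    have e2 : derivative ℤ P = ∑ n ∈ Finset.range (m + 1),
        C (QSer_c n * n) * (Rs ^ (n - 1) * derivative ℤ Rs) := by
      rw [hP, map_sum]
      refine Finset.sum_congr rfl fun n _ => ?_
      rw [Derivation.leibniz, Derivation.leibniz_pow]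
      simp only [smul_eq_mul, nsmul_eq_mul]
      rw [show derivative ℤ (C (QSer_c n)) = 0 from derivative_C, mul_zero, add_zero]
      rw [map_mul]
      have hc : (C ((n : ℕ) : ℤ) : PowerSeries ℤ) = (n : PowerSeries ℤ) := by simp
      rw [hc]
      ring
    have e3 : coeff (m - 1) (V ^ m * derivative ℤ P) = (m : ℤ) * QSer_c m := by
      rw [e2, Finset.mul_sum, map_sum, Finset.sum_range_succ]
      have e4 : ∀ n ∈ Finset.range m, coeff (m - 1)
          (V ^ m * (C (QSer_c n * n) * (Rs ^ (n - 1) * derivative ℤ Rs))) = 0 := by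
        intro n hn
        rw [Finset.mem_range] at hn
        rcases Nat.eq_zero_or_pos n with h0 | h0
        · subst h0
          simp
        · have e5 : V ^ m * (C (QSer_c n * n) * (Rs ^ (n - 1) * derivative ℤ Rs)) =
              C (QSer_c n * n) * (X ^ (n - 1) * (V ^ (m - n + 1) * derivative ℤ (X * U))) := by
            rw [hpow (n - 1), ← hU]
            have e6 : V ^ m = V ^ (m - n + 1) * V ^ (n - 1) := by
              rw [← pow_add]
              congr 1
              omega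
            have e7 : V ^ (n - 1) * U ^ (n - 1) = 1 := by rw [← mul_pow, hVU, one_pow]
            rw [e6]
            linear_combination (C (QSer_c n * n) * X ^ (n - 1) * V ^ (m - n + 1) *
              derivative ℤ Rs) * e7
          rw [e5, coeff_C_mul]
          have e8 : m - 1 = (m - n) + (n - 1) := by omega
          rw [e8, coeff_X_pow_mul, QSer_lag hVU (by omega), mul_zero]
      rw [Finset.sum_eq_zero e4, zero_add]
      have e5 : V ^ m * (C (QSer_c m * m) * (Rs ^ (m - 1) * derivative ℤ Rs)) =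
          C (QSer_c m * m) * (X ^ (m - 1) * (V * derivative ℤ Rs)) := by
        rw [hpow (m - 1)]
        have e6 : V ^ m = V * V ^ (m - 1) := by
          rw [← pow_succ']
          congr 1
          omega
        have e7 : V ^ (m - 1) * U ^ (m - 1) = 1 := by rw [← mul_pow, hVU, one_pow]
        rw [e6]
        linear_combination (C (QSer_c m * m) * X ^ (m - 1) * V * derivative ℤ Rs) * e7
      rw [e5, coeff_C_mul]
      have e8 := coeff_X_pow_mul (V * derivative ℤ Rs) (m - 1) 0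
      rw [zero_add] at e8
      rw [e8, coeff_mul, Finset.Nat.antidiagonal_zero, Finset.sum_singleton, hV0, coeff_derivative,
        Rs_coeff.2]
      ring
    rw [← e3, e1]
  refine ⟨PowerSeries.mk QSer_c, 4 * K ^ 2 * 2, by positivity, ?_, ?_, ?_, ?_⟩
  · rw [coeff_mk, QSer_c0]
  · rw [coeff_mk, QSer_c1]
  · intro n
    rw [coeff_mk]
    rcases Nat.eq_zero_or_pos n with hn | hn
    · subst hn
      rw [QSer_c0]
      simp
    · have h1 : |QSer_c n| ≤ ((4 * K ^ 2 * 2 : ℕ) : ℤ) ^ n := by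
        have h2 : |QSer_c n| ≤ |(n : ℤ) * QSer_c n| := by
          rw [abs_mul]
          have h3 : (1 : ℤ) ≤ |(n : ℤ)| := by
            rw [abs_of_nonneg (by positivity)]
            exact_mod_cast hn
          nlinarith [abs_nonneg (QSer_c n)]
        refine h2.trans ?_
        rw [hlag n hn]
        refine (QSer_G_pow hVG n (n - 1)).trans ?_
        have hK1 : (1 : ℤ) ≤ K := by exact_mod_cast hK
        have hb : (1 : ℤ) ≤ 2 * ((2 * K ^ 2 : ℕ) : ℤ) := by
          push_cast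
          nlinarith
        calc (2 * ((2 * K ^ 2 : ℕ) : ℤ)) ^ (n - 1) * 2 ^ n
            ≤ (2 * ((2 * K ^ 2 : ℕ) : ℤ)) ^ n * 2 ^ n :=
              mul_le_mul_of_nonneg_right (pow_le_pow_right₀ hb (by omega)) (by positivity)
          _ = ((4 * K ^ 2 * 2 : ℕ) : ℤ) ^ n := by
              rw [← mul_pow]
              congr 1
              push_cast
              ring
      exact_mod_cast h1
  · intro N
    simp only [coeff_mk]
    exact hrec N

end Pool.Agent.LGO.RU
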