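import Mathlib
import Pool.Agent.LGO.RU.Ev
import Pool.Agent.LGO.RU.QSer
import Pool.Agent.LGO.H.JSize
import Pool.Agent.Hhelper14.ZPL.Hecke2

/-!
# LGO/RU: the `q`-series of the coordinates at the pole

`Qs ∈ ℤ⟦X⟧` the compositional inverse of `1 / j = Δ / E₄ ^ 3 = X - ...`; `qa = Qs(X ^ m Wa)`.  `Qs(1 / j(q)) = q`, `p`-adically and for small complex `q`.
-/

namespace Pool.Agent.LGO.RU

open PowerSeries Pool.Agent.Hhelper14.ZP Pool.Agent.Hhelper14.ZPL Pool.Agent.LGO Pool.Agent.LGO.PA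
  UpperHalfPlane

variable {n : ℕ} {V : Set (Fin n → ℂ)} {a b : Fin n}

theorem coeff_toS (c : PowerSeries ℤ) (N : ℕ) : coeff N (toS c) = ((coeff N c : ℤ) : OO) := by
  rw [toS, coeff_map, eq_intCast]

theorem toS_pow (c : PowerSeries ℤ) (N : ℕ) : toS c ^ N = toS (c ^ N) := by
  rw [toS, toS, map_pow]

theorem toS_mul (c c' : PowerSeries ℤ) : toS c * toS c' = toS (c * c') := by
  rw [toS, toS, toS, map_mul]

private theorem QEx_comp {Qs : PowerSeries ℤ}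
    (h : ∀ N, ∑ n ∈ Finset.range (N + 1), coeff n Qs * coeff N (Rs ^ n) = if N = 1 then 1 else 0) :
    sp Qs 1 0 (toS Rs) = X := by
  ext N
  have h1 : coeff N (sp Qs 1 0 (toS Rs)) = coeff N (X : Ser) := by
    rw [coeff_sp, coeff_X]
    have h2 := congrArg (fun z : ℤ => (z : OO)) (h N)
    simp only [Int.cast_sum, Int.cast_mul, Int.cast_ite, Int.cast_one, Int.cast_zero] at h2
    rw [← h2]
    refine Finset.sum_congr rfl fun n _ => ?_
    rw [one_mul, add_zero, toS_pow, coeff_toS]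
  exact congrArg _ h1

private theorem QEx_coeff0 {Qs : PowerSeries ℤ} (h : coeff 0 Qs = 0) (Q : Ser) :
    coeff 0 (sp Qs 1 0 Q) = 0 := by
  rw [coeff_sp]
  simp [h]

section P

variable {p : ℕ} [Fact p.Prime]

theorem ev_toS (φ : ℂ →+* ℂ_[p]) (c : PowerSeries ℤ) (q : ℂ_[p]) :
    ev (sO φ) (toS c) q = ev (Int.castRingHom ℂ_[p]) c q := by
  unfold ev
  refine tsum_congr fun N => ?_
  rw [coeff_toS, map_intCast, eq_intCast]

theorem ev_Rs {q : ℂ_[p]} (h0 : 0 < ‖q‖) (h1 : ‖q‖ < 1) :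
    ev (Int.castRingHom ℂ_[p]) Rs q * jP q = 1 := by
  have e1 : ev (Int.castRingHom ℂ_[p]) Rs q * E4P q ^ 3 = DP q := by
    rw [E4P, ← ev_pow castHom_norm_le h1, ← ev_mul castHom_norm_le h1, Rs_mul]
    rfl
  have e2 := DP_ne h0 h1
  rw [jP, mul_div_assoc', e1, div_self e2]

private theorem QEx_p {Qs : PowerSeries ℤ}
    (h : ∀ N, ∑ n ∈ Finset.range (N + 1), coeff n Qs * coeff N (Rs ^ n) = if N = 1 then 1 else 0)
    (φ : ℂ →+* ℂ_[p]) (Wa : Ser) {m : ℕ} (hm : 0 < m) {t : ℂ_[p]} (ht : ‖t‖ < 1)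
    {x : ℂ_[p]} (hx : x * (t ^ m * ev (sO φ) Wa t) = 1) {n₀ : ℕ}
    (hn : ‖(n₀ : ℂ_[p])‖ ≤ ‖ev (sO φ) Wa t‖) :
    ‖(n₀ : ℂ_[p])‖ * ‖t‖ ^ m ≤ ‖ev (sO φ) (sp Qs 1 0 (X ^ m * Wa)) t‖ ∧
      ‖ev (sO φ) (sp Qs 1 0 (X ^ m * Wa)) t‖ < 1 ∧ jP (ev (sO φ) (sp Qs 1 0 (X ^ m * Wa)) t) = x := by
  have hf := sO_norm_le φ
  set w : ℂ_[p] := t ^ m * ev (sO φ) Wa t with hw
  have hw1 : ‖w‖ < 1 := by
    rw [hw, norm_mul, norm_pow]
    calc ‖t‖ ^ m * ‖ev (sO φ) Wa t‖ ≤ ‖t‖ ^ m * 1 :=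
          mul_le_mul_of_nonneg_left (ev_norm_le hf ht Wa) (pow_nonneg (norm_nonneg t) m)
      _ < 1 := by
          rw [mul_one]
          exact pow_lt_one₀ (norm_nonneg t) ht hm.ne'
  have hxw : ‖x‖ * ‖w‖ = 1 := by rw [← norm_mul, hx, norm_one]
  have hw0 : 0 < ‖w‖ := by
    rcases (norm_nonneg w).lt_or_eq with h0 | h0
    · exact h0
    · rw [← h0, mul_zero] at hxw
      exact absurd hxw (by norm_num)
  have hx1 : 1 < ‖x‖ := by
    by_contra hc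
    rw [not_lt] at hc
    have := mul_lt_mul' hc hw1 hw0.le one_pos
    rw [hxw, mul_one] at this
    exact lt_irrefl _ this
  obtain ⟨q, hq0, hq1, hq⟩ := jP_surj hx1
  have e1 : ev (sO φ) (toS Rs) q = w := by
    rw [ev_toS]
    have e2 := ev_Rs hq0 hq1
    rw [hq] at e2
    have hx0 : x ≠ 0 := by
      intro h0
      rw [h0, zero_mul] at hx
      exact zero_ne_one hx
    have e3 : ev (Int.castRingHom ℂ_[p]) Rs q * x = w * x := by rw [e2, mul_comm w, hx]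
    exact mul_right_cancel₀ hx0 e3
  have c0R : coeff 0 (toS Rs) = 0 := by rw [coeff_toS, Rs_coeff.1, Int.cast_zero]
  have e4 : ev (Int.castRingHom ℂ_[p]) Qs w = q := by
    rw [ev_sp hf one_pos hq1 c0R hw1 (by rw [pow_one, e1]) Qs, Finset.sum_range_one, pow_zero,
      one_mul, QEx_comp h, ev_X]
  have c0Q : coeff 0 (X ^ m * Wa) = 0 := by
    rw [coeff_zero_eq_constantCoeff_apply, map_mul, map_pow, constantCoeff_X, zero_pow hm.ne',
      zero_mul]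
  have e5 : ev (sO φ) (X ^ m * Wa) t = w := by
    rw [ev_mul hf ht, ev_pow hf ht, ev_X]
  have e6 : ev (Int.castRingHom ℂ_[p]) Qs w = ev (sO φ) (sp Qs 1 0 (X ^ m * Wa)) t := by
    rw [ev_sp hf one_pos ht c0Q hw1 (by rw [pow_one, e5]) Qs, Finset.sum_range_one, pow_zero,
      one_mul]
  rw [← e6, e4]
  refine ⟨?_, hq1, hq⟩
  have e7 := jP_norm hq0 hq1
  rw [hq] at e7
  have e8 : ‖q‖ = ‖w‖ := by
    rw [e7] at hxw
    field_simp at hxw
    exact hxw.symm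
  rw [e8, hw, norm_mul, norm_pow, mul_comm]
  exact mul_le_mul_of_nonneg_left hn (pow_nonneg (norm_nonneg t) m)

end P

private theorem QEx_geo {g : ℕ → ℝ} {y : ℝ} (h0 : g 0 ≤ 0) (h : ∀ n, g n ≤ y ^ n) (hy0 : 0 ≤ y)
    (hy : y ≤ 1 / 2) (k : ℕ) : ∑ n ∈ Finset.range k, g n ≤ 2 * y := by
  rcases k with _ | k
  · simpa using hy0
  · rw [Finset.sum_range_succ']
    have h1 : ∑ n ∈ Finset.range k, g (n + 1) ≤ ∑ n ∈ Finset.range k, y * (1 / 2) ^ n := by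
      refine Finset.sum_le_sum fun n _ => (h (n + 1)).trans ?_
      rw [pow_succ, mul_comm]
      exact mul_le_mul_of_nonneg_left (pow_le_pow_left₀ hy0 hy n) hy0
    have h2 : ∑ n ∈ Finset.range k, y * (1 / 2 : ℝ) ^ n ≤ y * 2 := by
      rw [← Finset.mul_sum]
      exact mul_le_mul_of_nonneg_left (sum_geometric_two_le k) hy0
    linarith

private theorem QEx_sum {c : PowerSeries ℤ} {K : ℕ} (h0 : coeff 0 c = 0)
    (h : ∀ n, ((|coeff n c| : ℤ) : ℝ) ≤ (K : ℝ) ^ n) {r : ℝ} (hr : 0 ≤ r) (hr1 : K * r ≤ 1 / 2)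
    (k : ℕ) : ∑ n ∈ Finset.range k, ((|coeff n c| : ℤ) : ℝ) * r ^ n ≤ 2 * (K * r) := by
  refine QEx_geo ?_ (fun n => ?_) (by positivity) hr1 k
  · rw [h0]
    simp
  · rw [mul_pow]
    exact mul_le_mul_of_nonneg_right (h n) (pow_nonneg hr n)

theorem gr_toS {c : PowerSeries ℤ} {K : ℕ} (h0 : coeff 0 c = 0)
    (h : ∀ n, ((|coeff n c| : ℤ) : ℝ) ≤ (K : ℝ) ^ n) {r : ℝ} (hr : 0 ≤ r) (hr1 : K * r ≤ 1 / 2) :
    Gr r (2 * (K * r)) (toS c) := by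
  intro s k
  refine le_trans (le_of_eq ?_) (QEx_sum h0 h hr hr1 k)
  refine Finset.sum_congr rfl fun n _ => ?_
  congr 1
  show ‖sC s (coeff n (toS c))‖ = _
  rw [coeff_toS, map_intCast, Complex.norm_intCast, Int.cast_abs]

theorem evc_toS (s : ℂ ≃+* ℂ) (c : PowerSeries ℤ) (z : ℂ) :
    evc s (toS c) z = ∑' n, ((coeff n c : ℤ) : ℂ) * z ^ n := by
  unfold evc
  refine tsum_congr fun N => ?_
  rw [coeff_toS, map_intCast]

private theorem QEx_grPE (R k : ℕ) (hk : k ≤ R) {r : ℝ} (hr : 0 ≤ r) (hr1 : r < 1) :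
    ∃ B : ℝ, Gr r B (toS (PE R k)) := by
  obtain ⟨c, _, hc⟩ := coef_le
  have h1 := summable_of_poly (c := PE R k) (b := c) (k := c * (R + 1))
    (fun n => hc R k (R - k) n hk (Nat.sub_le R k)) hr hr1 1 0
  refine ⟨∑' n, ((|coeff (1 * n + 0) (PE R k)| : ℤ) : ℝ) * r ^ n, gr_of_summable hr (fun s => ?_)
    fun s => ?_⟩
  · refine h1.congr fun n => ?_
    rw [coeff_toS, map_intCast, Complex.norm_intCast, Int.cast_abs, one_mul, add_zero]
  · refine le_of_eq (tsum_congr fun n => ?_)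
    rw [coeff_toS, map_intCast, Complex.norm_intCast, Int.cast_abs, one_mul, add_zero]

private theorem QEx_Rs_c {r B : ℝ} (hB : Gr r B (toS Rs)) (hr1 : r < 1) (τ : ℍ)
    (hq : ‖Complex.exp (2 * Real.pi * Complex.I * τ)‖ ≤ r) (s : ℂ ≃+* ℂ) :
    evc s (toS Rs) (Complex.exp (2 * Real.pi * Complex.I * τ)) * jInv τ = 1 := by
  have hr : 0 ≤ r := (norm_nonneg _).trans hq
  have hD : ModularForm.discriminant τ ≠ 0 := ModularForm.discriminant_ne_zero τ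
  obtain ⟨B1, hB1⟩ := QEx_grPE 1 1 le_rfl hr hr1
  have h1 : toS Rs * toS (PE 1 1) = toS (PE 1 0) := by
    rw [toS_mul]
    congr 1
    rw [PE, PE, Nat.mul_one, Nat.mul_zero, Nat.sub_self, Nat.sub_zero, pow_zero, pow_zero, mul_one,
      one_mul, pow_one, Rs_mul]
  have h2 := evc_mul hB hB1 hq s
  have h3 : evc s (toS (PE 1 1)) (Complex.exp (2 * Real.pi * Complex.I * τ)) =
      jInv τ * ModularForm.discriminant τ := by
    rw [evc_toS, (pe_c τ (le_refl 1)).tsum_eq, pow_one, pow_one]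
  have h4 : evc s (toS (PE 1 0)) (Complex.exp (2 * Real.pi * Complex.I * τ)) =
      ModularForm.discriminant τ := by
    rw [evc_toS, (pe_c τ (Nat.zero_le 1)).tsum_eq, pow_zero, pow_one, one_mul]
  rw [h1, h3, h4] at h2
  have h5 : (1 : ℂ) * ModularForm.discriminant τ =
      (evc s (toS Rs) (Complex.exp (2 * Real.pi * Complex.I * τ)) * jInv τ) *
        ModularForm.discriminant τ := by
    rw [one_mul, mul_assoc]
    exact h2
  exact (mul_right_cancel₀ hD h5).symm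

theorem norm_exp_τ (τ : ℍ) : ‖Complex.exp (2 * Real.pi * Complex.I * τ)‖ =
    Real.exp (-(2 * Real.pi * τ.im)) := by
  have h4 : Function.Periodic.qParam 1 (τ : ℂ) = Complex.exp (2 * Real.pi * Complex.I * τ) := by
    rw [Function.Periodic.qParam]
    simp
  rw [← h4]
  exact JSize_norm_q τ

theorem exists_red_j (x : ℂ) : ∃ τ : ℍ, Red (τ : ℂ) ∧ jInv τ = x := by
  obtain ⟨τ, hτ⟩ := j_surj x
  obtain ⟨γ, hγ⟩ := ModularGroup.exists_smul_mem_fd τ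
  refine ⟨γ • τ, ⟨(γ • τ).im_pos, hγ.2, ?_⟩, by rw [jInv_smul, hτ]⟩
  have h1 := hγ.1
  rw [Complex.normSq_eq_norm_sq] at h1
  nlinarith [norm_nonneg ((γ • τ : ℍ) : ℂ)]

private theorem QEx_c {Qs : PowerSeries ℤ} {K : ℕ} (hK : 0 < K) (h0 : coeff 0 Qs = 0)
    (hg : ∀ n, ((|coeff n Qs| : ℤ) : ℝ) ≤ (K : ℝ) ^ n)
    (h : ∀ N, ∑ n ∈ Finset.range (N + 1), coeff n Qs * coeff N (Rs ^ n) = if N = 1 then 1 else 0) :
    ∃ δ C₀ : ℝ, 0 < δ ∧ 0 < C₀ ∧ ∀ (Wa : Ser) (m : ℕ) (ρ B : ℝ), 0 < m → 0 < ρ → ρ ≤ 1 → 0 ≤ B →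
      Gr ρ B Wa → ρ * B ≤ δ → Gr ρ (1 / 2) (sp Qs 1 0 (X ^ m * Wa)) ∧
        ∀ (s : ℂ ≃+* ℂ) (t x : ℂ), ‖t‖ ≤ ρ → x * (t ^ m * evc s Wa t) = 1 →
          ∃ τ : ℍ, 1 < τ.im ∧ jInv τ = x ∧
            Complex.exp (2 * Real.pi * Complex.I * τ) = evc s (sp Qs 1 0 (X ^ m * Wa)) t ∧
            ‖t ^ m * evc s Wa t‖ ≤ C₀ * ‖evc s (sp Qs 1 0 (X ^ m * Wa)) t‖ := by
  obtain ⟨KR, hKR, hR⟩ := Rs_growth
  obtain ⟨CJ, hCJ, hJ⟩ := norm_j_le
  obtain ⟨CE, hCE, hE⟩ := exp_im_le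
  have hK' : (1 : ℝ) ≤ K := by exact_mod_cast hK
  have hKR' : (1 : ℝ) ≤ KR := by exact_mod_cast hKR
  -- the radius for `1 / j`
  set r₁ : ℝ := 1 / (8 * K * KR) with hr₁
  have hr₁0 : 0 < r₁ := by positivity
  have hr₁K : (KR : ℝ) * r₁ = 1 / (8 * K) := by
    rw [hr₁]
    field_simp
  have hKi : 1 / (8 * (K : ℝ)) ≤ 1 / 8 := by
    apply one_div_le_one_div_of_le <;> linarith
  have hr₁1 : r₁ < 1 := by
    have : r₁ ≤ KR * r₁ := le_mul_of_one_le_left hr₁0.le hKR'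
    linarith
  have hGR : Gr r₁ (2 * (KR * r₁)) (toS Rs) := gr_toS Rs_coeff.1 hR hr₁0.le (by rw [hr₁K]; linarith)
  have hKe : (K : ℝ) * (2 * (KR * r₁)) = 1 / 4 := by
    rw [hr₁K]
    field_simp
    norm_num
  set δ : ℝ := min (1 / (4 * K)) (min (r₁ / CJ) (1 / (2 * CJ * Real.exp (2 * Real.pi)))) with hδ
  have hδ1 : δ ≤ 1 / (4 * K) := min_le_left _ _
  have hδ2 : δ ≤ r₁ / CJ := (min_le_right _ _).trans (min_le_left _ _)
  have hδ3 : δ ≤ 1 / (2 * CJ * Real.exp (2 * Real.pi)) := (min_le_right _ _).trans (min_le_right _ _)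
  have hδ0 : 0 < δ := by
    rw [hδ]
    refine lt_min ?_ (lt_min ?_ ?_) <;> positivity
  have hδ4 : δ ≤ 1 := by
    refine hδ1.trans ?_
    rw [div_le_one (by positivity)]
    linarith
  refine ⟨δ, 2 * CE, hδ0, by positivity, ?_⟩
  intro Wa m ρ B hm hρ0 hρ1 hB0 hW hρB
  have hQ : Gr ρ (ρ * B) (X ^ m * Wa) := by
    refine gr_mono (gr_mul (gr_Xpow hρ0.le m) hW hρ0.le) ?_
    refine mul_le_mul_of_nonneg_right ?_ hB0
    calc ρ ^ m ≤ ρ ^ 1 := pow_le_pow_of_le_one hρ0.le hρ1 hm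
      _ = ρ := pow_one ρ
  have hε0 : 0 ≤ ρ * B := mul_nonneg hρ0.le hB0
  have hεK : (K : ℝ) * (ρ * B) ≤ 1 / 4 := by
    have e1 : ρ * B ≤ 1 / (4 * K) := hρB.trans hδ1
    calc (K : ℝ) * (ρ * B) ≤ K * (1 / (4 * K)) := mul_le_mul_of_nonneg_left e1 (by positivity)
      _ = 1 / 4 := by field_simp
  have c0Q : coeff 0 (X ^ m * Wa) = 0 := by
    rw [coeff_zero_eq_constantCoeff_apply, map_mul, map_pow, constantCoeff_X, zero_pow hm.ne',
      zero_mul]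
  have hsm : ∀ {e : ℝ}, 0 ≤ e → K * e ≤ 1 / 2 → ∀ i < 1,
      Summable fun n => ((|coeff (1 * n + i) Qs| : ℤ) : ℝ) * e ^ n := by
    intro e he0 he i hi
    have hi0 : i = 0 := by omega
    subst hi0
    refine summable_of_sum_range_le (c := 2 * (K * e)) (fun n => ?_) fun k => ?_
    · exact mul_nonneg (by exact_mod_cast abs_nonneg _) (pow_nonneg he0 n)
    · refine le_trans (le_of_eq ?_) (QEx_sum h0 hg he0 he k)
      refine Finset.sum_congr rfl fun n _ => ?_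
      rw [one_mul, add_zero]
  refine ⟨?_, ?_⟩
  · refine gr_sp hQ hρ0.le fun k => ?_
    have e1 := QEx_sum h0 hg hε0 (by linarith) k
    refine le_trans (le_of_eq ?_) (e1.trans (by linarith))
    refine Finset.sum_congr rfl fun n _ => ?_
    rw [one_mul, add_zero]
  · intro s t x ht hx
    set w : ℂ := t ^ m * evc s Wa t with hw
    have hwQ : evc s (X ^ m * Wa) t = w := by
      rw [evc_mul (gr_Xpow hρ0.le m) hW ht s, evc_Xpow]
    have hw1 : ‖w‖ ≤ δ := by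
      rw [← hwQ]
      exact (evc_norm_le hQ ht s).trans hρB
    have hxw : ‖x‖ * ‖w‖ = 1 := by rw [← norm_mul, hx, norm_one]
    have hw0 : 0 < ‖w‖ := by
      rcases (norm_nonneg w).lt_or_eq with e | e
      · exact e
      · rw [← e, mul_zero] at hxw
        exact absurd hxw (by norm_num)
    have hxi : ‖x‖ = 1 / ‖w‖ := by
      field_simp
      exact hxw
    have hx1 : 1 ≤ ‖x‖ := by
      rw [hxi, le_div_iff₀ hw0]
      linarith
    obtain ⟨τ, hred, hτ⟩ := exists_red_j x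
    have hJ' := hJ τ hred
    have hE' := hE τ hred
    rw [hτ] at hJ' hE'
    set q : ℂ := Complex.exp (2 * Real.pi * Complex.I * τ) with hq
    have hqn : ‖q‖ = Real.exp (-(2 * Real.pi * τ.im)) := norm_exp_τ τ
    have hqe : ‖q‖ * Real.exp (2 * Real.pi * τ.im) = 1 := by
      rw [hqn, ← Real.exp_add]
      simp
    have hq0 : 0 < ‖q‖ := by
      rw [hqn]
      exact Real.exp_pos _
    -- the imaginary part
    have him : 1 < τ.im := by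
      by_contra hc
      rw [not_lt] at hc
      have e1 : ‖x‖ ≤ CJ * Real.exp (2 * Real.pi) := by
        refine hJ'.trans (mul_le_mul_of_nonneg_left (Real.exp_le_exp.2 ?_) hCJ.le)
        nlinarith [Real.pi_pos]
      have e2 : 1 / δ ≤ ‖x‖ := by
        rw [hxi]
        exact one_div_le_one_div_of_le hw0 hw1
      have e3 : 2 * CJ * Real.exp (2 * Real.pi) ≤ 1 / δ := by
        rw [le_div_iff₀ hδ0]
        have := mul_le_mul_of_nonneg_left hδ3 (by positivity : 0 ≤ 2 * CJ * Real.exp (2 * Real.pi))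
        rwa [mul_one_div_cancel (by positivity)] at this
      have e4 : 0 < CJ * Real.exp (2 * Real.pi) := by positivity
      linarith
    have hqr : ‖q‖ ≤ r₁ := by
      have e1 : ‖x‖ * ‖q‖ ≤ CJ := by
        calc ‖x‖ * ‖q‖ ≤ (CJ * Real.exp (2 * Real.pi * τ.im)) * ‖q‖ :=
              mul_le_mul_of_nonneg_right hJ' hq0.le
          _ = CJ * (‖q‖ * Real.exp (2 * Real.pi * τ.im)) := by ring
          _ = CJ := by rw [hqe, mul_one]
      have e2 : ‖q‖ ≤ CJ * ‖w‖ := by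
        calc ‖q‖ = ‖x‖ * ‖q‖ * ‖w‖ := by
              rw [mul_comm ‖x‖ ‖q‖, mul_assoc, hxw, mul_one]
          _ ≤ CJ * ‖w‖ := mul_le_mul_of_nonneg_right e1 hw0.le
      calc ‖q‖ ≤ CJ * ‖w‖ := e2
        _ ≤ CJ * (r₁ / CJ) := mul_le_mul_of_nonneg_left (hw1.trans hδ2) hCJ.le
        _ = r₁ := by field_simp
    have hRq := QEx_Rs_c hGR hr₁1 τ hqr s
    rw [hτ] at hRq
    have hRw : evc s (toS Rs) q = w := by
      have hx0 : x ≠ 0 := by
        intro e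
        rw [e, zero_mul] at hx
        exact zero_ne_one hx
      have e3 : evc s (toS Rs) q * x = w * x := by rw [hRq, mul_comm w, hx]
      exact mul_right_cancel₀ hx0 e3
    have c0R : coeff 0 (toS Rs) = 0 := by rw [coeff_toS, Rs_coeff.1, Int.cast_zero]
    have s1 := evc_sp one_pos c0R hGR hqr (hsm (gr_nonneg hGR) (by linarith)) s (A := w)
      (by rw [pow_one, hRw])
    have s2 := evc_sp one_pos c0Q hQ ht (hsm hε0 (by linarith)) s (A := w) (by rw [pow_one, hwQ])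
    have s3 := s1.unique s2
    rw [Finset.sum_range_one, Finset.sum_range_one, pow_zero, one_mul, one_mul, QEx_comp h,
      evc_X] at s3
    refine ⟨τ, him, hτ, s3, ?_⟩
    rw [← s3]
    have e1 : Real.exp (2 * Real.pi * τ.im) ≤ 2 * CE * ‖x‖ := by
      refine hE'.trans ?_
      nlinarith
    have e2 : 1 ≤ 2 * CE * ‖x‖ * ‖q‖ := by
      calc (1 : ℝ) = ‖q‖ * Real.exp (2 * Real.pi * τ.im) := hqe.symm
        _ ≤ ‖q‖ * (2 * CE * ‖x‖) := mul_le_mul_of_nonneg_left e1 hq0.le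
        _ = 2 * CE * ‖x‖ * ‖q‖ := by ring
    calc ‖w‖ = 1 * ‖w‖ := (one_mul _).symm
      _ ≤ (2 * CE * ‖x‖ * ‖q‖) * ‖w‖ := mul_le_mul_of_nonneg_right e2 hw0.le
      _ = 2 * CE * ‖q‖ * (‖x‖ * ‖w‖) := by ring
      _ = 2 * CE * ‖q‖ := by rw [hxw, mul_one]

theorem exists_qd (D : Loc V a b) : Nonempty (QD D) := by
  obtain ⟨Qs, K, hK, h0, _, hg, h⟩ := exists_Qs
  obtain ⟨δ, C₀, hδ, hC₀, hc⟩ := QEx_c hK h0 hg h
  obtain ⟨hpe, hpm, hpl, hpn, hpC, hpr, hpr1⟩ := D.pos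
  have hC' : (1 : ℝ) ≤ (D.C : ℝ) := by exact_mod_cast hpC
  set ρ : ℝ := min D.r (δ / D.C) with hρ
  have hρ0 : 0 < ρ := lt_min hpr (by positivity)
  have hρr : ρ ≤ D.r := min_le_left _ _
  have hρ1 : ρ ≤ 1 := hρr.trans hpr1
  have hρC : ρ * D.C ≤ δ := by
    calc ρ * D.C ≤ (δ / D.C) * D.C := mul_le_mul_of_nonneg_right (min_le_right _ _) (by positivity)
      _ = δ := by field_simp
  have gW : Gr ρ D.C D.W := gr_le D.gr.1 hρ0.le hρr
  have gA : Gr ρ D.C D.Wa := gr_le D.gr.2.1 hρ0.le hρr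
  have gB : Gr ρ D.C D.Wb := gr_le D.gr.2.2 hρ0.le hρr
  obtain ⟨ga, ca⟩ := hc D.Wa D.m ρ D.C hpm hρ0 hρ1 (by positivity) gA hρC
  obtain ⟨gb, cb⟩ := hc D.Wb D.l ρ D.C hpl hρ0 hρ1 (by positivity) gB hρC
  obtain ⟨C, hC⟩ := exists_nat_ge (max (D.C : ℝ) (max ((1 / ρ) ^ D.e) (D.C * C₀)))
  have hC1 : (D.C : ℝ) ≤ C := (le_max_left _ _).trans hC
  have hC2 : (1 / ρ) ^ D.e ≤ (C : ℝ) := ((le_max_left _ _).trans (le_max_right _ _)).trans hC
  have hC3 : D.C * C₀ ≤ (C : ℝ) := ((le_max_right _ _).trans (le_max_right _ _)).trans hC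
  have hC0 : 0 < C := by
    have : (0 : ℝ) < C := by linarith
    exact_mod_cast this
  refine ⟨⟨sp Qs 1 0 (X ^ D.m * D.Wa), sp Qs 1 0 (X ^ D.l * D.Wb), ρ, C, ⟨hρ0, hρ1, hC0⟩,
    ⟨QEx_coeff0 h0 _, QEx_coeff0 h0 _⟩,
    ⟨InK.sp _ _ _ ((InK.X.pow _).mul D.inK.2.1), InK.sp _ _ _ ((InK.X.pow _).mul D.inK.2.2)⟩,
    ⟨ga, gb, gr_mono gW hC1⟩, ?_, ?_⟩⟩
  · intro p _ φ x hx hxE hξ
    obtain ⟨t, ht0, ht1, h1, h2, h3, h4, h5, h6⟩ := D.near_p p φ x hx hxE hξ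
    obtain ⟨a1, a2, a3⟩ := QEx_p h φ D.Wa hpm ht1 h3 h5
    obtain ⟨b1, b2, b3⟩ := QEx_p h φ D.Wb hpl ht1 h4 h6
    exact ⟨t, ht0, ht1, h1, h2, a1, a2, a3, b1, b2, b3⟩
  · intro s x hx hxE hξ
    obtain ⟨t, ht0, _, h1, h2, h3, h4, h5, h6⟩ := D.near_c s x hx hxE (hC1.trans hξ)
    have htρ : ‖t‖ ≤ ρ := by
      have e1 : ‖t‖ ^ D.e * ‖s (D.ξ x)‖ = 1 := by
        rw [← norm_pow, ← norm_mul]
        show ‖t ^ D.e * s (MvPolynomial.aeval x D.Xi)‖ = 1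
        rw [h1, norm_one]
      have e2 : ‖t‖ ^ D.e * (1 / ρ) ^ D.e ≤ 1 :=
        (mul_le_mul_of_nonneg_left (hC2.trans hξ) (pow_nonneg (norm_nonneg t) _)).trans e1.le
      have e3 : ‖t‖ ^ D.e ≤ ρ ^ D.e := by
        have e4 : (0 : ℝ) < ρ ^ D.e := pow_pos hρ0 _
        rw [one_div, inv_pow, ← div_eq_mul_inv, div_le_one e4] at e2
        exact e2
      exact le_of_pow_le_pow_left₀ hpe.ne' hρ0.le e3
    obtain ⟨τ, t1, t2, t3, t4⟩ := ca s t (s (x a)) htρ h3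
    obtain ⟨τ', u1, u2, u3, u4⟩ := cb s t (s (x b)) htρ h4
    have key : ∀ {m : ℕ} {w q : ℂ}, 1 ≤ D.C * ‖w‖ → ‖t ^ m * w‖ ≤ C₀ * ‖q‖ →
        ‖t‖ ^ m ≤ C * ‖q‖ := by
      intro m w q k1 k2
      rw [norm_mul, norm_pow] at k2
      have k3 : (0 : ℝ) ≤ ‖t‖ ^ m := pow_nonneg (norm_nonneg t) m
      calc ‖t‖ ^ m = ‖t‖ ^ m * 1 := (mul_one _).symm
        _ ≤ ‖t‖ ^ m * (D.C * ‖w‖) := mul_le_mul_of_nonneg_left k1 k3
        _ = D.C * (‖t‖ ^ m * ‖w‖) := by ring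
        _ ≤ D.C * (C₀ * ‖q‖) := mul_le_mul_of_nonneg_left k2 (by positivity)
        _ = D.C * C₀ * ‖q‖ := by ring
        _ ≤ C * ‖q‖ := mul_le_mul_of_nonneg_right hC3 (norm_nonneg q)
    exact ⟨t, ht0, htρ, h1, h2, key h5 t4, key h6 u4, τ, τ', t1, u1, t2, u2, t3, u3⟩

end Pool.Agent.LGO.RU
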