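import Mathlib
import Pool.Agent.LGO.RU.Defs
import Pool.Agent.LGO.RU.CSDef

/-!
# LGO/RU: the type `(L, M)` does not occur at the complex places, note 3151, section (2)

PROOF.  `L = M₀ M`.  `isogDeg_map`: `IsogDeg L (s x) (s ya)`, `s x = j(τ)`, `Gal.isogDeg_iff_act`, `exists_rep` (see `LGO/CP/LinkX.lean`, `rep_shape'` in `Hhelper14/ZPL/Hecke.lean`): an
upper triangular matrix `A = (a, b; 0, d)`, `a, d > 0`, `a d = L`, with `s ya = j(A τ)`; `τ₁ = A τ = (a τ + b) / d`: `exp (2 π i τ₁) ^ d = exp (2 π i τ) ^ a`.  The same for `y`, `yb`: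
`A' = (a', b'; 0, d')`, `τ₁' = A' τ'`.  Let `a = L` (`d = 1`), `a' = M` (`d' = M₀`).  `mdeg (s y) (s x) = mdeg x y =: N` (`mdeg_map`, `mdeg_symm`), `mdeg (s yb) (s ya) = N`; `exists_prim_mdeg`:
primitive matrices `g`, `g'` of determinant `N`, `Maps g τ' τ`, `Maps g' τ₁' τ₁`.  So `A g` and `g' A'` (of the same determinant `L N > 0`) both map `τ'` to `τ₁` (`Maps.mul`), and `τ'` is not CM, so
`A g = g' A'` or `A g = - g' A'` (the proof of `NonCM.prim_unique` in `Gal/CM.lean`: two matrices with the same value at `τ'` are proportional; or divide both by their content).  Lower left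
entries: `g 1 0 = ± M (g' 1 0)`.  So `M ∣ g 1 0`, `CSP (s x) (s y) |g 1 0|` holds, `hC`: `g 1 0 = 0`, `g' 1 0 = 0`.  Upper left entries: `L (g 0 0) = ± M (g' 0 0)`, `M₀ (g 0 0) = ± g' 0 0`, and
`N = (g' 0 0) (g' 1 1)`: `M₀ ∣ N`, a contradiction.
-/

namespace Pool.Agent.LGO.RU

open UpperHalfPlane Pool.Agent.Hhelper14.ZP Pool.Agent.Hhelper14.ZPL Pool.Agent.LGO

private theorem TypC_rep {L : ℕ} (hL : 0 < L) {z w : ℂ} {τ : ℍ} (hz : jInv τ = z) (h : IsogDeg L z w) :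
    ∃ (a d : ℕ) (b : ℤ) (τ₁ : ℍ), 0 < a ∧ 0 < d ∧ a * d = L ∧ jInv τ₁ = w ∧
      Complex.exp (2 * Real.pi * Complex.I * τ₁) ^ d = Complex.exp (2 * Real.pi * Complex.I * τ) ^ a ∧
      Maps !![(a : ℤ), b; 0, (d : ℤ)] (τ : ℂ) (τ₁ : ℂ) := by
  subst hz
  obtain ⟨A, hA⟩ := (Gal.isogDeg_iff_act hL τ w).mp h
  obtain ⟨B, hB, γ, rfl⟩ := exists_rep hL A
  rw [act_smul, jInv_smul] at hA
  obtain ⟨a, d, b, ha, hd, had, h00, h11, hact⟩ := rep_shape' hL hB
  have hd' : (d : ℂ) ≠ 0 := by exact_mod_cast hd.ne'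
  refine ⟨a, d, b, act hL B τ, ha, hd, had, hA.symm, ?_, ?_⟩
  · rw [← Complex.exp_nat_mul, ← Complex.exp_nat_mul, Complex.exp_eq_exp_iff_exists_int]
    refine ⟨b, ?_⟩
    rw [hact τ]
    field_simp
  · rw [Maps, hact τ]
    simp only [Matrix.of_apply, Matrix.cons_val', Matrix.cons_val_zero, Matrix.cons_val_one,
      Matrix.cons_val_fin_one, Int.cast_zero, zero_mul, zero_add, Int.cast_natCast]
    field_simp

theorem typ_c (s : ℂ ≃+* ℂ) {x y ya yb : ℂ} {M₀ M : ℕ} (hM₀ : M₀.Prime) (hM : M.Prime)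
    (hx : NCM x) (h : HeckeRel x y) (hN : ¬ M₀ ∣ mdeg x y) (hab : mdeg ya yb = mdeg x y)
    (ha : IsogDeg (M₀ * M) x ya) (hb : IsogDeg (M₀ * M) y yb)
    (hC : ∀ c : ℕ, CSP (s x) (s y) c → M ∣ c → c = 0) {τ τ' : ℍ} (h1 : 1 < τ.im) (h2 : 1 < τ'.im)
    (e1 : jInv τ = s x) (e2 : jInv τ' = s y) :
    TyC s (M₀ * M) M (Complex.exp (2 * Real.pi * Complex.I * τ))
      (Complex.exp (2 * Real.pi * Complex.I * τ')) ya yb := by
  have hL : 0 < M₀ * M := Nat.mul_pos hM₀.pos hM.pos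
  obtain ⟨a, d, b, τ₁, ha0, hd0, had, hj, hexp, hmap⟩ := TypC_rep hL e1 (isogDeg_map s hL ha)
  obtain ⟨a', d', b', τ₁', ha0', hd0', had', hj', hexp', hmap'⟩ := TypC_rep hL e2 (isogDeg_map s hL hb)
  refine ⟨a, d, a', d', τ₁, τ₁', had, had', ?_, hexp, hexp', hj, hj'⟩
  rintro ⟨haL, haM⟩
  have hd1 : d = 1 := by
    rw [haL] at had
    exact Nat.eq_of_mul_eq_mul_left hL (by rw [had, mul_one])
  -- the point is not CM
  obtain ⟨N₀, hN₀, hI⟩ := heckeRel_iff.mp h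
  have hy : NCM (s y) := by
    have h3 : NCM y := by
      rw [ncm_iff] at hx ⊢
      rwa [← hI.isCMVal_iff hN₀]
    exact (ncm_map_iff s).mpr h3
  have hτ' : NonCM (τ' : ℂ) := by
    rw [← ncm_jInv, e2]
    exact hy
  -- the two primitive matrices
  have hsI : IsogDeg N₀ (jInv τ') (jInv τ) := by
    rw [e1, e2]
    exact (isogDeg_map s hN₀ hI).symm
  obtain ⟨g, hg, hg0, hgp, hgm⟩ := exists_prim_mdeg ⟨N₀, hN₀, hsI⟩
  have hgN : g.det = mdeg x y := by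
    rw [hg, e1, e2, mdeg_map, mdeg_symm]
  have hIb : IsogDeg (M₀ * M * N₀ * (M₀ * M)) yb ya := (hb.symm.trans hN₀ hI.symm).trans hL ha
  have hpos : 0 < M₀ * M * N₀ * (M₀ * M) := Nat.mul_pos (Nat.mul_pos hL hN₀) hL
  have hsIb : IsogDeg (M₀ * M * N₀ * (M₀ * M)) (jInv τ₁') (jInv τ₁) := by
    rw [hj, hj']
    exact isogDeg_map s hpos hIb
  obtain ⟨g', hg', hg0', hgp', hgm'⟩ := exists_prim_mdeg ⟨_, hpos, hsIb⟩
  have hgN' : g'.det = mdeg x y := by
    rw [hg', hj, hj', mdeg_map, mdeg_symm, hab]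
  -- the two products
  set P := !![(a : ℤ), b; 0, (d : ℤ)] * g with hP
  set Q := g' * !![(a' : ℤ), b'; 0, (d' : ℤ)] with hQ
  have hPm : Maps P (τ' : ℂ) (τ₁ : ℂ) := hgm.mul hmap
  have hQm : Maps Q (τ' : ℂ) (τ₁ : ℂ) := hmap'.mul hgm'
  have hdA : (!![(a : ℤ), b; 0, (d : ℤ)]).det = (M₀ * M : ℕ) := by
    rw [Matrix.det_fin_two_of, ← had]
    push_cast
    ring
  have hdA' : (!![(a' : ℤ), b'; 0, (d' : ℤ)]).det = (M₀ * M : ℕ) := by
    rw [Matrix.det_fin_two_of, ← had']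
    push_cast
    ring
  have hPd : P.det = (M₀ * M : ℕ) * (mdeg x y : ℤ) := by rw [hP, Matrix.det_mul, hdA, hgN]
  have hQd : Q.det = (M₀ * M : ℕ) * (mdeg x y : ℤ) := by
    rw [hQ, Matrix.det_mul, hdA', hgN', mul_comm]
  have hN1 : 0 < (mdeg x y : ℤ) := by rw [← hgN]; exact hg0
  have hΔ : 0 < P.det := by
    rw [hPd]
    have : (0 : ℤ) < (M₀ * M : ℕ) := by exact_mod_cast hL
    positivity
  obtain ⟨c, hc⟩ := hτ'.prop hPm hQm
  have hc2 : c = P.det ∨ c = -P.det := by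
    have h3 := congrArg Matrix.det hc
    rw [Matrix.det_smul, Matrix.det_smul, hQd, ← hPd] at h3
    simp only [Fintype.card_fin] at h3
    have h4 : c ^ 2 = P.det ^ 2 := by
      apply mul_right_cancel₀ hΔ.ne'
      linear_combination -h3
    exact sq_eq_sq_iff_eq_or_eq_neg.mp h4
  have hij : ∀ i j, Q i j = P i j ∨ Q i j = -P i j := by
    intro i j
    have h3 := congrFun (congrFun hc i) j
    simp only [Matrix.smul_apply, smul_eq_mul] at h3
    rcases hc2 with h4 | h4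
    · left
      rw [h4] at h3
      exact mul_left_cancel₀ hΔ.ne' h3
    · right
      rw [h4] at h3
      apply mul_left_cancel₀ hΔ.ne'
      linear_combination h3
  have hP10 : P 1 0 = g 1 0 := by
    rw [hP, Matrix.mul_apply, Fin.sum_univ_two, hd1]
    simp
  have hQ10 : Q 1 0 = M * g' 1 0 := by
    rw [hQ, Matrix.mul_apply, Fin.sum_univ_two, haM]
    simp [mul_comm]
  have hP00 : P 0 0 = (M₀ * M : ℕ) * g 0 0 + b * g 1 0 := by
    rw [hP, Matrix.mul_apply, Fin.sum_univ_two, haL]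
    simp
  have hQ00 : Q 0 0 = M * g' 0 0 := by
    rw [hQ, Matrix.mul_apply, Fin.sum_univ_two, haM]
    simp [mul_comm]
  -- the lower left entry
  have hdvd : (M : ℤ) ∣ g 1 0 := by
    rcases hij 1 0 with h3 | h3
    · exact ⟨g' 1 0, by rw [← hP10, ← h3, hQ10]⟩
    · exact ⟨-g' 1 0, by rw [← hP10, mul_neg, ← hQ10, h3, neg_neg]⟩
  have hz : g 1 0 = 0 := by
    have h3 := hC (g 1 0).natAbs ⟨τ, τ', g, h1, h2, e1, e2, hg0, hgp, hgm, rfl⟩
      (Int.natCast_dvd.mp hdvd)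
    exact Int.natAbs_eq_zero.mp h3
  have hMz : (M : ℤ) ≠ 0 := by exact_mod_cast hM.ne_zero
  have hz' : g' 1 0 = 0 := by
    rcases hij 1 0 with h3 | h3
    · rw [hQ10, hP10, hz] at h3
      exact (mul_eq_zero.mp h3).resolve_left hMz
    · rw [hQ10, hP10, hz, neg_zero] at h3
      exact (mul_eq_zero.mp h3).resolve_left hMz
  have h00 : (M₀ : ℤ) ∣ g' 0 0 := by
    rcases hij 0 0 with h3 | h3
    · refine ⟨g 0 0, mul_left_cancel₀ hMz ?_⟩
      rw [hQ00, hP00, hz] at h3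
      push_cast at h3
      linear_combination h3
    · refine ⟨-g 0 0, mul_left_cancel₀ hMz ?_⟩
      rw [hQ00, hP00, hz] at h3
      push_cast at h3
      linear_combination h3
  apply hN
  have h3 : (M₀ : ℤ) ∣ (mdeg x y : ℤ) := by
    rw [← hgN', Matrix.det_fin_two, hz', mul_zero, sub_zero]
    exact h00.mul_right _
  exact_mod_cast h3

end Pool.Agent.LGO.RU
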