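import Mathlib
import Pool.Agent.LGO.RU.Defs
import Pool.Agent.LGO.CP.TateP
import Pool.Agent.LGO.Gal.NCM

/-!
# LGO/RU: the type `(L, M)` does not occur at the `p`-adic places, note 3151, section (2)

PROOF.  `L = M₀ M`.  `x = j(τ₀)` (`exists_red` in `Gal/Basic.lean` or `j_surj`), `IsogDeg L x ya`: `ya = jA hL A τ₀` (`Gal.isogDeg_iff_act`), `CP.link_x`: `a`, `d`, `A` with
`a d = L`, `A ^ d = qa ^ a`, `φ ya = jP A`.  The same for `y`, `yb`: `a'`, `d'`, `B`.  Let `a = L` (`d = 1`) and `a' = M` (`d' = M₀`).  `CP.tate_pair` for `x, y`: `q'`, `w`, `u`,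
`w u = mdeg x y`, `q' ^ u = qa ^ w`, `φ y = jP q'`, so `‖q'‖ = ‖qb‖` (`jP_norm`), `‖qb‖ ^ u = ‖qa‖ ^ w`.  `CP.tate_pair` for `ya, yb`: `‖B‖ ^ u' = ‖A‖ ^ w'`, `w' u' = mdeg ya yb`.
With the logarithms `α = - log ‖qa‖ > 0`, `β = - log ‖qb‖ > 0`: `u β = w α`, `- log ‖A‖ = L α`, `- M₀ log ‖B‖ = M β`, `u' M β = w' L α M₀ = w' α M M₀ ^ 2`, `u' β = w' α M₀ ^ 2`,
`u' w = u w' M₀ ^ 2` (all natural numbers), so `M₀ ∣ u'` or `M₀ ∣ w`, and `M₀` divides `mdeg ya yb` or `mdeg x y`, a contradiction.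
-/

namespace Pool.Agent.LGO.RU

open UpperHalfPlane Pool.Agent.Hhelper14.ZP Pool.Agent.Hhelper14.ZPL Pool.Agent.LGO
  Pool.Agent.LGO.PA

private theorem TypP_link {p : ℕ} [Fact p.Prime] (φ : ℂ →+* ℂ_[p]) {x y : ℂ} {L : ℕ} (hL : 0 < L)
    (h : IsogDeg L x y) {q : ℂ_[p]} (h1 : 0 < ‖q‖) (h2 : ‖q‖ < 1) (e : jP q = φ x) :
    ∃ (a d : ℕ) (A : ℂ_[p]), a * d = L ∧ 0 < ‖A‖ ∧ ‖A‖ < 1 ∧ A ^ d = q ^ a ∧ jP A = φ y := by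
  obtain ⟨τ₀, -, hτ⟩ := exists_red x
  rw [← hτ] at h
  obtain ⟨A0, hA0⟩ := (Gal.isogDeg_iff_act hL τ₀ y).mp h
  obtain ⟨a, d, q', -, -, had, hq'0, hq', hpow, hj⟩ :=
    CP.link_x hL φ h1 h2 τ₀ (by rw [hτ]; exact e.symm) A0
  have hy : jA hL A0 τ₀ = y := by rw [jA, hA0]
  rw [hy] at hj
  exact ⟨a, d, q', had, hq'0, hq', hpow, hj.symm⟩

private theorem TypP_norm {p : ℕ} [Fact p.Prime] {q q' : ℂ_[p]} (h1 : 0 < ‖q‖) (h2 : ‖q‖ < 1)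
    (h3 : 0 < ‖q'‖) (h4 : ‖q'‖ < 1) (h : jP q = jP q') : ‖q‖ = ‖q'‖ := by
  have h5 := congrArg norm h
  rw [jP_norm h1 h2, jP_norm h3 h4] at h5
  exact inv_injective h5

theorem typ_p {p : ℕ} [Fact p.Prime] (φ : ℂ →+* ℂ_[p]) {x y ya yb : ℂ} {M₀ M : ℕ} (hM₀ : M₀.Prime)
    (hM : M.Prime) (h : HeckeRel x y) (hN : ¬ M₀ ∣ mdeg x y) (hab : mdeg ya yb = mdeg x y)
    (ha : IsogDeg (M₀ * M) x ya) (hb : IsogDeg (M₀ * M) y yb) {qa qb : ℂ_[p]} (h1 : 0 < ‖qa‖)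
    (h2 : ‖qa‖ < 1) (h3 : 0 < ‖qb‖) (h4 : ‖qb‖ < 1) (e1 : jP qa = φ x) (e2 : jP qb = φ y) :
    TyP φ (M₀ * M) M qa qb ya yb := by
  have hL : 0 < M₀ * M := Nat.mul_pos hM₀.pos hM.pos
  obtain ⟨a, d, A, had, hA0, hA1, hA, hjA⟩ := TypP_link φ hL ha h1 h2 e1
  obtain ⟨a', d', B, had', hB0, hB1, hB, hjB⟩ := TypP_link φ hL hb h3 h4 e2
  refine ⟨a, d, a', d', A, B, had, had', ?_, hA0, hA1, hB0, hB1, hA, hB, hjA, hjB⟩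
  rintro ⟨hc, hc'⟩
  have hd : d = 1 := by
    rw [hc] at had
    exact Nat.eq_of_mul_eq_mul_left hL (by rw [had, mul_one])
  have hd' : d' = M₀ := by
    rw [hc', mul_comm M₀ M] at had'
    exact Nat.eq_of_mul_eq_mul_left hM.pos had'
  have hxa : HeckeRel x ya := heckeRel_iff.mpr ⟨_, hL, ha⟩
  have hyb : HeckeRel y yb := heckeRel_iff.mpr ⟨_, hL, hb⟩
  have hyy : HeckeRel ya yb := HeckeRel.trans' (HeckeRel.symm' hxa) (HeckeRel.trans' h hyb)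
  obtain ⟨w, u, q', hw, hu, hwu, hq0, hq1, hq, hjq⟩ :=
    CP.tate_pair φ (heckeRel_iff.mp h) h1 h2 e1.symm
  obtain ⟨w', u', B', hw', hu', hwu', hB'0, hB'1, hB', hjB'⟩ :=
    CP.tate_pair φ (heckeRel_iff.mp hyy) hA0 hA1 hjA.symm
  have n1 : ‖q'‖ = ‖qb‖ := TypP_norm hq0 hq1 h3 h4 (by rw [e2, hjq])
  have n2 : ‖B'‖ = ‖B‖ := TypP_norm hB'0 hB'1 hB0 hB1 (by rw [hjB, hjB'])
  have m1 : ‖qb‖ ^ u = ‖qa‖ ^ w := by rw [← n1, ← norm_pow, ← norm_pow, hq]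
  have m2 : ‖B‖ ^ u' = ‖A‖ ^ w' := by rw [← n2, ← norm_pow, ← norm_pow, hB']
  have m3 : ‖A‖ = ‖qa‖ ^ (M₀ * M) := by
    rw [hd, pow_one, hc] at hA
    rw [← norm_pow, ← hA]
  have m4 : ‖B‖ ^ M₀ = ‖qb‖ ^ M := by
    rw [hd', hc'] at hB
    rw [← norm_pow, ← norm_pow, hB]
  have k1 : ‖B‖ ^ (M₀ * u' * u) = ‖qa‖ ^ (M₀ * M * (w' * (M₀ * u))) := by
    calc ‖B‖ ^ (M₀ * u' * u) = (‖B‖ ^ u') ^ (M₀ * u) := by
          rw [← pow_mul]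
          congr 1
          ring
      _ = ‖qa‖ ^ (M₀ * M * (w' * (M₀ * u))) := by
          rw [m2, m3, ← pow_mul, ← pow_mul]
  have k2 : ‖B‖ ^ (M₀ * u' * u) = ‖qa‖ ^ (w * (M * u')) := by
    calc ‖B‖ ^ (M₀ * u' * u) = (‖B‖ ^ M₀) ^ (u' * u) := by
          rw [← pow_mul]
          congr 1
          ring
      _ = (‖qb‖ ^ u) ^ (M * u') := by
          rw [m4, ← pow_mul, ← pow_mul]
          congr 1
          ring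
      _ = ‖qa‖ ^ (w * (M * u')) := by rw [m1, ← pow_mul]
  have k3 : M₀ * M * (w' * (M₀ * u)) = w * (M * u') :=
    pow_right_injective₀ h1 h2.ne (k1.symm.trans k2)
  have k4 : M₀ * (w' * (M₀ * u)) = w * u' := by
    refine Nat.eq_of_mul_eq_mul_left hM.pos ?_
    calc M * (M₀ * (w' * (M₀ * u))) = M₀ * M * (w' * (M₀ * u)) := by ring
      _ = w * (M * u') := k3
      _ = M * (w * u') := by ring
  rcases (hM₀.dvd_mul).mp (Dvd.intro _ k4) with h5 | h5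
  · exact hN (hwu ▸ Dvd.dvd.mul_right h5 u)
  · apply hN
    rw [← hab, ← hwu']
    exact Dvd.dvd.mul_left h5 w'

end Pool.Agent.LGO.RU
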