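import Mathlib
import Pool.Agent.LGO.RU.Sys

/-!
# LGO/RU: the second linear system, note 3151, section (6)

Unknowns `p_j` (`j < I`) and `g i j k k'` (`i < e`, `n₁ ≤ j < I`, `k, k' < R`), `n₁ = 4 L R`, equations: all coefficients of index `< T₂`,
`T₂ = e (I + n₂) + 2 h e + 2 (m + l) L R + 1`, of the expansion of `(F G - p(ξ)) t ^ (e (I + n₂) + 2 h e) (Δ(A) Δ(B)) ^ (2 R)` at all types.
`I = R ^ 2 (2 h e + e (n₁ + n₂) + 2 (m + l) L R + 1) + 1`.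
-/

namespace Pool.Agent.LGO.RU

open PowerSeries Pool.Agent.Hhelper14.ZP Pool.Agent.LGO

variable {n : ℕ} {V : Set (Fin n → ℂ)} {a b : Fin n}

/-- the array of the expansion of `F G - p(ξ)` -/
noncomputable def Gfg (e h n₂ I R : ℕ) (W : Ser) (c g : ℕ → ℕ → ℕ → ℕ → OO) (p : ℕ → OO)
    (k k' : ℕ) : Ser :=
  (∑ l ∈ Finset.range R, ∑ l' ∈ Finset.range R, if l ≤ k ∧ l' ≤ k' then
    Gar e h n₂ W c (k - l) (k' - l') * Gar e h I W g l l' else 0) -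
  (if k = 0 ∧ k' = 0 then ∑ j ∈ Finset.range I,
    PowerSeries.C (p j) * X ^ (e * (I + n₂ - j) + 2 * (h * e)) else 0)

private theorem Sys2_count {t R e A n₁ n₂ I : ℕ} (h : t ≤ R ^ 2) (he : 0 < e)
    (hI : I = R ^ 2 * (A + e * (n₁ + n₂)) + 1) (hn : n₁ = 0 ∨ 0 < R) :
    n₁ ≤ I ∧ t * (e * (I + n₂) + A) < I + e * (I - n₁) * R ^ 2 := by
  have h1 : n₁ ≤ I := by
    rcases hn with h0 | h0
    · omega
    · have h2 : 1 ≤ R ^ 2 := Nat.one_le_pow _ _ h0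
      have h3 : n₁ ≤ A + e * (n₁ + n₂) := by nlinarith
      have h4 : A + e * (n₁ + n₂) ≤ R ^ 2 * (A + e * (n₁ + n₂)) := Nat.le_mul_of_pos_left _ h2
      omega
  refine ⟨h1, ?_⟩
  obtain ⟨δ, hδ⟩ := Nat.exists_eq_add_of_le h1
  have e2 : I - n₁ = δ := by omega
  rw [e2]
  have e3 : t * (e * (I + n₂) + A) ≤ R ^ 2 * (e * (I + n₂) + A) := Nat.mul_le_mul_right _ h
  have e4 : R ^ 2 * (e * (I + n₂) + A) + 1 = I + e * δ * R ^ 2 := by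
    have e5 : R ^ 2 * (e * (I + n₂) + A) = R ^ 2 * (A + e * (n₁ + n₂)) + e * δ * R ^ 2 := by
      rw [hδ]
      ring
    rw [e5]
    omega
  omega

/-- the growth of `Gar` -/
theorem gar_gr2 {K : IntermediateField ℚ ℂ} {e h n₁ J R QC : ℕ} {W : Ser} {c : ℕ → ℕ → ℕ → ℕ → OO}
    {r B : ℝ} (hr : 0 ≤ r) (hr1 : r ≤ 1) (hc : CB K c e n₁ J R B) (hW : Gr r QC W) (k k' : ℕ) :
    Gr r (Real.exp (B + e + J + e * QC)) (Gar e h J W c k k') := by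
  have hW' : Gr r (Real.exp QC) W := hW.mono (by
    have := Real.add_one_le_exp (QC : ℝ)
    linarith)
  have hexp : (1 : ℝ) ≤ Real.exp QC := Real.one_le_exp (Nat.cast_nonneg _)
  have h1 : Gr r (∑ i ∈ Finset.range e, ∑ j ∈ Finset.range J, Real.exp B * Real.exp (e * QC) * 1)
      (Gar e h J W c k k') := by
    unfold Gar
    refine Gr.sum hr fun i hi => Gr.sum hr fun j _ => ?_
    refine ((Gr.C (hc.bd i j k k')).mul hr ((hW'.pow hr i).mono ?_)).mul hr (Gr.X_pow hr hr1 _)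
    rw [Real.exp_nat_mul]
    exact pow_le_pow_right₀ hexp (Finset.mem_range.1 hi).le
  refine h1.mono ?_
  rw [Finset.sum_const, Finset.sum_const, Finset.card_range, Finset.card_range, nsmul_eq_mul,
    nsmul_eq_mul, mul_one, ← Real.exp_add]
  have h2 : (e : ℝ) ≤ Real.exp e := by
    have := Real.add_one_le_exp (e : ℝ)
    linarith
  have h3 : (J : ℝ) ≤ Real.exp J := by
    have := Real.add_one_le_exp (J : ℝ)
    linarith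
  calc (e : ℝ) * (J * Real.exp (B + e * QC)) ≤
      Real.exp e * (Real.exp J * Real.exp (B + e * QC)) := by gcongr
    _ = Real.exp (B + e + J + e * QC) := by
        rw [← Real.exp_add, ← Real.exp_add]
        congr 1
        ring

theorem gar_inK {K : IntermediateField ℚ ℂ} {e h n₁ J R : ℕ} {W : Ser}
    {c : ℕ → ℕ → ℕ → ℕ → OO} {B : ℝ} (hc : CB K c e n₁ J R B) (hW : InK K W) (k k' : ℕ) :
    InK K (Gar e h J W c k k') := by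
  unfold Gar
  exact InK.sum fun i _ => InK.sum fun j _ => ((InK.C (hc.mem i j k k')).mul (hW.pow i)).mul
    (InK.X.pow _)

private theorem Sys2_gar {e h n₁ I R : ℕ} (hn : n₁ ≤ I) (W : Ser)
    (c : Fin e × Fin (I - n₁) × Fin R × Fin R → OO) (c' : ℕ → ℕ → ℕ → ℕ → OO)
    (hu : ∀ u : Fin e × Fin (I - n₁) × Fin R × Fin R,
      c' u.1 (n₁ + u.2.1) u.2.2.1 u.2.2.2 = c u)
    (hs : ∀ i j k k', c' i j k k' ≠ 0 → i < e ∧ n₁ ≤ j ∧ j < I ∧ k < R ∧ k' < R)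
    (P : ℕ → ℕ → Ser) :
    ∑ l ∈ Finset.range R, ∑ l' ∈ Finset.range R, P l l' * Gar e h I W c' l l' =
      ∑ u : Fin e × Fin (I - n₁) × Fin R × Fin R,
      PowerSeries.C (c u) * (P u.2.2.1 u.2.2.2 *
        (W ^ (u.1 : ℕ) * X ^ (e * (I - (n₁ + u.2.1)) + h * (e - u.1)))) := by
  have hG : ∀ l l', Gar e h I W c' l l' = ∑ i : Fin e, ∑ j : Fin (I - n₁),
      PowerSeries.C (c' i (n₁ + j) l l') * W ^ (i : ℕ) *
        X ^ (e * (I - (n₁ + j)) + h * (e - i)) := by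
    intro l l'
    unfold Gar
    rw [Finset.sum_range]
    refine Finset.sum_congr rfl fun i _ => ?_
    rw [← Finset.sum_range (fun j => PowerSeries.C (c' i (n₁ + j) l l') * W ^ (i : ℕ) *
        X ^ (e * (I - (n₁ + j)) + h * (e - i))),
      ← Finset.sum_Ico_eq_sum_range (fun j => PowerSeries.C (c' i j l l') * W ^ (i : ℕ) *
      X ^ (e * (I - j) + h * (e - i))) n₁ I, ← Finset.sum_range_add_sum_Ico _ hn]
    rw [Finset.sum_eq_zero, zero_add]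
    intro j hj
    have hz : c' i j l l' = 0 := by
      by_contra hne
      have := (hs _ _ _ _ hne).2.1
      have := Finset.mem_range.1 hj
      omega
    rw [hz, map_zero, zero_mul, zero_mul]
  simp_rw [hG, Finset.mul_sum]
  rw [Fintype.sum_prod_type]
  simp_rw [Fintype.sum_prod_type]
  rw [Finset.sum_range]
  simp_rw [Finset.sum_range]
  -- both sides are sums over `l, l', i, j`
  have hr : ∀ (f : Fin R → Fin R → Fin e → Fin (I - n₁) → Ser),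
      ∑ l, ∑ l', ∑ i, ∑ j, f l l' i j = ∑ i, ∑ j, ∑ l, ∑ l', f l l' i j := by
    intro f
    calc ∑ l, ∑ l', ∑ i, ∑ j, f l l' i j = ∑ l, ∑ i, ∑ l', ∑ j, f l l' i j :=
          Finset.sum_congr rfl fun l _ => Finset.sum_comm
      _ = ∑ i, ∑ l, ∑ l', ∑ j, f l l' i j := Finset.sum_comm
      _ = ∑ i, ∑ l, ∑ j, ∑ l', f l l' i j :=
          Finset.sum_congr rfl fun i _ => Finset.sum_congr rfl fun l _ => Finset.sum_comm
      _ = ∑ i, ∑ j, ∑ l, ∑ l', f l l' i j :=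
          Finset.sum_congr rfl fun i _ => Finset.sum_comm
  rw [hr]
  refine Finset.sum_congr rfl fun i _ => Finset.sum_congr rfl fun j _ =>
    Finset.sum_congr rfl fun l _ => Finset.sum_congr rfl fun l' _ => ?_
  rw [← hu (i, j, l, l')]
  ring

private theorem Sys2_size {L R e h ml n₁ n₂ I Z c₅ c₆ A : ℕ} (hL : 1 ≤ L) (hR : R ≤ 4 * L)
    (hZ : L ≤ Z) (hn₂ : n₂ ≤ Z) (hA : A = 2 * (h * e) + 2 * (ml * L * R) + 1)
    (hn₁ : n₁ = 4 * L * R) (hI : I = R ^ 2 * (A + e * (n₁ + n₂)) + 1)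
    (hc₅ : c₅ = 16 * (2 * (h * e) + 8 * ml + 17 * e + 1) + 1)
    (hc₆ : c₆ = e * (c₅ + 1) + 2 * (h * e) + 8 * ml + 1) :
    I ≤ c₅ * Z ^ 4 ∧ e * (I + n₂) + A ≤ c₆ * Z ^ 4 ∧
      I + e * (I - n₁) * R ^ 2 ≤ c₅ * (1 + 16 * e) * Z ^ 6 := by
  have hZ1 : 1 ≤ Z := hL.trans hZ
  have hLR : L * R ≤ 4 * Z ^ 2 := by
    calc L * R ≤ Z * (4 * Z) := Nat.mul_le_mul hZ (hR.trans (Nat.mul_le_mul_left 4 hZ))
      _ = 4 * Z ^ 2 := by ring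
  have hZ2 : 1 ≤ Z ^ 2 := Nat.one_le_pow _ _ hZ1
  have hZZ2 : Z ≤ Z ^ 2 := Nat.le_self_pow (by norm_num) Z
  have hR2 : R ^ 2 ≤ 16 * Z ^ 2 := by
    calc R ^ 2 ≤ (4 * Z) ^ 2 := Nat.pow_le_pow_left (hR.trans (Nat.mul_le_mul_left 4 hZ)) 2
      _ = 16 * Z ^ 2 := by ring
  have hA' : A ≤ (2 * (h * e) + 8 * ml + 1) * Z ^ 2 := by
    rw [hA]
    have e1 : ml * L * R ≤ 4 * ml * Z ^ 2 := by
      rw [mul_assoc]
      calc ml * (L * R) ≤ ml * (4 * Z ^ 2) := Nat.mul_le_mul_left _ hLR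
        _ = 4 * ml * Z ^ 2 := by ring
    have e2 : 2 * (h * e) ≤ 2 * (h * e) * Z ^ 2 := Nat.le_mul_of_pos_right _ hZ2
    calc 2 * (h * e) + 2 * (ml * L * R) + 1 ≤ 2 * (h * e) * Z ^ 2 + 2 * (4 * ml * Z ^ 2) + Z ^ 2 := by
          omega
      _ = (2 * (h * e) + 8 * ml + 1) * Z ^ 2 := by ring
  have hn : e * (n₁ + n₂) ≤ 17 * e * Z ^ 2 := by
    have e1 : n₁ + n₂ ≤ 17 * Z ^ 2 := by
      rw [hn₁]
      have : 4 * L * R = 4 * (L * R) := by ring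
      omega
    calc e * (n₁ + n₂) ≤ e * (17 * Z ^ 2) := Nat.mul_le_mul_left _ e1
      _ = 17 * e * Z ^ 2 := by ring
  have hZ4 : 1 ≤ Z ^ 4 := Nat.one_le_pow _ _ hZ1
  have h1 : I ≤ c₅ * Z ^ 4 := by
    rw [hI, hc₅]
    calc R ^ 2 * (A + e * (n₁ + n₂)) + 1 ≤
        16 * Z ^ 2 * ((2 * (h * e) + 8 * ml + 1) * Z ^ 2 + 17 * e * Z ^ 2) + Z ^ 4 :=
          Nat.add_le_add (Nat.mul_le_mul hR2 (Nat.add_le_add hA' hn)) hZ4
      _ = _ := by ring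
  have hZ24 : Z ^ 2 ≤ Z ^ 4 := Nat.pow_le_pow_right hZ1 (by norm_num)
  refine ⟨h1, ?_, ?_⟩
  · rw [hc₆]
    have e1 : I + n₂ ≤ (c₅ + 1) * Z ^ 4 := by
      have : n₂ ≤ Z ^ 4 := hn₂.trans (hZZ2.trans hZ24)
      calc I + n₂ ≤ c₅ * Z ^ 4 + Z ^ 4 := Nat.add_le_add h1 this
        _ = _ := by ring
    calc e * (I + n₂) + A ≤ e * ((c₅ + 1) * Z ^ 4) + (2 * (h * e) + 8 * ml + 1) * Z ^ 4 :=
          Nat.add_le_add (Nat.mul_le_mul_left _ e1) (hA'.trans (Nat.mul_le_mul_left _ hZ24))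
      _ = _ := by ring
  · have hZ46 : Z ^ 4 ≤ Z ^ 6 := Nat.pow_le_pow_right hZ1 (by norm_num)
    calc I + e * (I - n₁) * R ^ 2 ≤ c₅ * Z ^ 6 + e * (c₅ * Z ^ 4) * (16 * Z ^ 2) :=
          Nat.add_le_add (h1.trans (Nat.mul_le_mul_left _ hZ46))
            (Nat.mul_le_mul (Nat.mul_le_mul_left _ ((Nat.sub_le _ _).trans h1)) hR2)
      _ = _ := by ring

theorem sys2 (D : Loc V a b) (Q : QD D) : ∃ C : ℕ, 0 < C ∧ ∀ L R : ℕ, 1 ≤ L → 1 ≤ R → R ≤ 4 * L →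
    tcount L 0 ≤ R ^ 2 → ∀ (n₂ : ℕ) (c : ℕ → ℕ → ℕ → ℕ → OO) (B : ℝ), 1 ≤ B → (n₂ : ℝ) ≤ B →
    CB D.K₀ c D.e (4 * L * R) n₂ R B →
    ∃ (I : ℕ) (p : ℕ → OO) (g : ℕ → ℕ → ℕ → ℕ → OO), (I : ℝ) ≤ ((C : ℝ) * L * B) ^ C ∧
      ((∃ j < I, p j ≠ 0) ∨ ∃ i j k k', g i j k k' ≠ 0) ∧ (∀ j, ((p j : OO) : ℂ) ∈ D.K₀) ∧
      (∀ j (s : ℂ ≃+* ℂ), ‖s ((p j : OO) : ℂ)‖ ≤ Real.exp (((C : ℝ) * L * B) ^ C)) ∧
      CB D.K₀ g D.e (4 * L * R) I R (((C : ℝ) * L * B) ^ C) ∧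
      VAll L 0 (2 * R) (Gfg D.e D.h n₂ I R D.W c g p) Q.qa Q.qb
        (D.e * (I + n₂) + (2 * (D.h * D.e) + 2 * ((D.m + D.l) * L * R) + 1)) := by
  classical
  have := D.fd
  obtain ⟨Cs, hCs, hsys⟩ := sys D.K₀ Q.pos.1 Q.pos.2.1 Q.inK.1 Q.inK.2 Q.gr.1 Q.gr.2.1
  obtain ⟨c₅, hc₅⟩ : ∃ c₅ : ℕ, c₅ = 16 * (2 * (D.h * D.e) + 8 * (D.m + D.l) + 17 * D.e + 1) + 1 :=
    ⟨_, rfl⟩
  obtain ⟨c₆, hc₆⟩ : ∃ c₆ : ℕ, c₆ = D.e * (c₅ + 1) + 2 * (D.h * D.e) + 8 * (D.m + D.l) + 1 :=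
    ⟨_, rfl⟩
  obtain ⟨c₇, hc₇⟩ : ∃ c₇ : ℕ, c₇ = 12 + c₆ + 2 * (D.e * Q.C) + D.e := ⟨_, rfl⟩
  obtain ⟨c₈, hc₈⟩ : ∃ c₈ : ℕ, c₈ = Cs * (c₅ * (1 + 16 * D.e)) * c₇ + c₅ + 1 := ⟨_, rfl⟩
  refine ⟨2 * c₈ + 10 * Cs, by omega, ?_⟩
  intro L R hL hR1 hR ht n₂ c B hB hn₂B hc
  have he : 0 < D.e := D.pos.1
  obtain ⟨N, hN⟩ : ∃ N : ℕ, N = ⌈B⌉₊ := ⟨_, rfl⟩
  have hBN : B ≤ N := by rw [hN]; exact Nat.le_ceil B
  have hN2 : (N : ℝ) ≤ 2 * B := by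
    rw [hN]
    have := (Nat.ceil_lt_add_one (by linarith : (0 : ℝ) ≤ B)).le
    linarith
  have hN1 : 1 ≤ N := by exact_mod_cast hB.trans hBN
  have hn₂N : n₂ ≤ N := by exact_mod_cast hn₂B.trans hBN
  obtain ⟨Z, hZ⟩ : ∃ Z : ℕ, Z = L * N := ⟨_, rfl⟩
  have hLZ : L ≤ Z := by rw [hZ]; exact Nat.le_mul_of_pos_right _ hN1
  have hNZ : N ≤ Z := by rw [hZ]; exact Nat.le_mul_of_pos_left _ hL
  obtain ⟨A, hA⟩ : ∃ A : ℕ, A = 2 * (D.h * D.e) + 2 * ((D.m + D.l) * L * R) + 1 := ⟨_, rfl⟩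
  obtain ⟨n₁, hn₁⟩ : ∃ n₁ : ℕ, n₁ = 4 * L * R := ⟨_, rfl⟩
  obtain ⟨I, hI⟩ : ∃ I : ℕ, I = R ^ 2 * (A + D.e * (n₁ + n₂)) + 1 := ⟨_, rfl⟩
  obtain ⟨hn1I, hcount⟩ := Sys2_count ht he hI (Or.inr hR1)
  obtain ⟨hIs, hTs, hcs⟩ := Sys2_size hL hR hLZ (hn₂N.trans hNZ) hA hn₁ hI hc₅ hc₆
  rw [← hn₁, ← hA]
  rw [← hn₁] at hc
  -- the unknowns
  let κ : Type := Fin I ⊕ (Fin D.e × Fin (I - n₁) × Fin R × Fin R)
  have hcard : Fintype.card κ = I + D.e * (I - n₁) * R ^ 2 := by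
    rw [Fintype.card_sum, Fintype.card_prod, Fintype.card_prod, Fintype.card_prod,
      Fintype.card_fin, Fintype.card_fin, Fintype.card_fin, Fintype.card_fin]
    ring
  let P : ℕ → ℕ → ℕ → ℕ → Ser := fun k k' l l' =>
    if l ≤ k ∧ l' ≤ k' then Gar D.e D.h n₂ D.W c (k - l) (k' - l') else 0
  let Gs : κ → ℕ → ℕ → Ser := fun u k k' => match u with
    | Sum.inl j => if k = 0 ∧ k' = 0 then X ^ (D.e * (I + n₂ - j) + 2 * (D.h * D.e)) else 0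
    | Sum.inr u => P k k' u.2.2.1 u.2.2.2 *
        (D.W ^ (u.1 : ℕ) * X ^ (D.e * (I - (n₁ + u.2.1)) + D.h * (D.e - u.1)))
  have hρ := Q.pos.1.le
  have hρ1 := Q.pos.2.1
  obtain ⟨B₁, hB₁⟩ : ∃ B₁ : ℝ, B₁ = B + D.e + n₂ + 2 * (D.e * Q.C) := ⟨_, rfl⟩
  have hB₁0 : 0 ≤ B₁ := by rw [hB₁]; positivity
  have hW : Gr Q.ρ (Real.exp Q.C) D.W := Q.gr.2.2.mono (by
    have := Real.add_one_le_exp (Q.C : ℝ)
    linarith)
  have hexp : (1 : ℝ) ≤ Real.exp Q.C := Real.one_le_exp (Nat.cast_nonneg _)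
  have hGsK : ∀ u, ∀ k < 2 * R, ∀ k' < 2 * R, InK D.K₀ (Gs u k k') := by
    rintro (j | u) k _ k' _
    · exact InK.ite (InK.X.pow _)
    · exact (InK.ite (gar_inK hc D.inK.1 _ _)).mul ((D.inK.1.pow _).mul (InK.X.pow _))
  have hGsG : ∀ u, ∀ k < 2 * R, ∀ k' < 2 * R, Gr Q.ρ (Real.exp B₁) (Gs u k k') := by
    rintro (j | u) k _ k' _
    · exact Gr.ite ((Gr.X_pow hρ hρ1 _).mono (Real.one_le_exp hB₁0))
    · refine ((Gr.ite (gar_gr2 hρ hρ1 hc Q.gr.2.2 _ _)).mul hρ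
        (((hW.pow hρ (u.1 : ℕ)).mul hρ (Gr.X_pow hρ hρ1 _)))).mono ?_
      have h1 : Real.exp Q.C ^ (u.1 : ℕ) ≤ Real.exp (D.e * Q.C) := by
        rw [Real.exp_nat_mul]
        exact pow_le_pow_right₀ hexp u.1.2.le
      calc Real.exp (B + D.e + n₂ + D.e * Q.C) * (Real.exp Q.C ^ (u.1 : ℕ) * 1)
          ≤ Real.exp (B + D.e + n₂ + D.e * Q.C) * Real.exp (D.e * Q.C) := by
            rw [mul_one]
            exact mul_le_mul_of_nonneg_left h1 (Real.exp_pos _).le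
        _ = Real.exp B₁ := by
            rw [← Real.exp_add, hB₁]
            congr 1
            ring
  obtain ⟨x, ⟨u₀, hu₀⟩, hxK, hxb, hV⟩ := hsys κ L 0 (2 * R) (D.e * (I + n₂) + A) Gs B₁ hL hB₁0
    hGsK hGsG (by rw [hcard]; exact hcount)
  -- the sizes
  have hLR : (1 : ℝ) ≤ L := by exact_mod_cast hL
  have hZ2 : (Z : ℝ) ≤ 2 * (L * B) := by
    rw [hZ]
    push_cast
    nlinarith
  have hZ1 : (1 : ℝ) ≤ Z := by exact_mod_cast hL.trans hLZ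
  have hcard' : (Fintype.card κ : ℝ) ≤ ((c₅ * (1 + 16 * D.e) : ℕ) : ℝ) * (Z : ℝ) ^ 6 := by
    rw [hcard]
    exact_mod_cast hcs
  have hY : (L : ℝ) + (2 * R : ℕ) + ((D.e * (I + n₂) + A : ℕ) : ℝ) + 1 + B₁ ≤
      (c₇ : ℝ) * (Z : ℝ) ^ 4 := by
    have h1 : L + 2 * R + (D.e * (I + n₂) + A) + 1 + (N + D.e + n₂ + 2 * (D.e * Q.C)) ≤
        c₇ * Z ^ 4 := by
      have hZn : 1 ≤ Z := hL.trans hLZ
      have hZ4 : 1 ≤ Z ^ 4 := Nat.one_le_pow _ _ hZn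
      have e1 : Z ≤ Z ^ 4 := Nat.le_self_pow (by norm_num) Z
      have e4 : D.e * Q.C ≤ D.e * Q.C * Z ^ 4 := Nat.le_mul_of_pos_right _ hZ4
      have e5 : D.e ≤ D.e * Z ^ 4 := Nat.le_mul_of_pos_right _ hZ4
      rw [hc₇]
      calc L + 2 * R + (D.e * (I + n₂) + A) + 1 + (N + D.e + n₂ + 2 * (D.e * Q.C))
          ≤ Z ^ 4 + 8 * Z ^ 4 + c₆ * Z ^ 4 + Z ^ 4 + (Z ^ 4 + D.e * Z ^ 4 + Z ^ 4 +
            2 * (D.e * Q.C * Z ^ 4)) := by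
            omega
        _ = (12 + c₆ + 2 * (D.e * Q.C) + D.e) * Z ^ 4 := by ring
    have h2 : (L : ℝ) + (2 * R : ℕ) + ((D.e * (I + n₂) + A : ℕ) : ℝ) + 1 +
        (N + D.e + n₂ + 2 * (D.e * Q.C)) ≤ (c₇ : ℝ) * (Z : ℝ) ^ 4 := by exact_mod_cast h1
    rw [hB₁]
    linarith
  have hc₈1 : (1 : ℝ) ≤ c₈ := by
    rw [hc₈]
    push_cast
    have : (0 : ℝ) ≤ Cs * (c₅ * (1 + 16 * D.e)) * c₇ + c₅ := by positivity
    linarith
  have hCZ : (c₈ : ℝ) * Z ≤ ((2 * c₈ + 10 * Cs : ℕ) : ℝ) * L * B := by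
    have hLB : 0 ≤ (L : ℝ) * B := by positivity
    have e1 : (c₈ : ℝ) * Z ≤ c₈ * (2 * (L * B)) := mul_le_mul_of_nonneg_left hZ2 (by linarith)
    refine e1.trans ?_
    push_cast
    have e2 : (0 : ℝ) ≤ 10 * Cs * (L * B) := by positivity
    linarith
  have hCZ1 : (1 : ℝ) ≤ c₈ * Z := one_le_mul_of_one_le_of_one_le hc₈1 hZ1
  have hfin : ∀ k ≤ 10 * Cs, ((c₈ : ℝ) * Z) ^ k ≤
      (((2 * c₈ + 10 * Cs : ℕ) : ℝ) * L * B) ^ (2 * c₈ + 10 * Cs) := by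
    intro k hk
    refine (pow_le_pow_left₀ (by linarith) hCZ k).trans ?_
    exact pow_le_pow_right₀ (hCZ1.trans hCZ) (by omega)
  have hbd : ((Cs : ℝ) * (Fintype.card κ) *
      (L + (2 * R : ℕ) + ((D.e * (I + n₂) + A : ℕ) : ℝ) + 1 + B₁)) ^ Cs ≤
      (((2 * c₈ + 10 * Cs : ℕ) : ℝ) * L * B) ^ (2 * c₈ + 10 * Cs) := by
    have h1 : (Cs : ℝ) * (Fintype.card κ) *
        (L + (2 * R : ℕ) + ((D.e * (I + n₂) + A : ℕ) : ℝ) + 1 + B₁) ≤ ((c₈ : ℝ) * Z) ^ 10 := by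
      calc (Cs : ℝ) * (Fintype.card κ) *
          (L + (2 * R : ℕ) + ((D.e * (I + n₂) + A : ℕ) : ℝ) + 1 + B₁)
          ≤ (Cs : ℝ) * (((c₅ * (1 + 16 * D.e) : ℕ) : ℝ) * (Z : ℝ) ^ 6) *
            ((c₇ : ℝ) * (Z : ℝ) ^ 4) := by
            gcongr
        _ = (Cs * (c₅ * (1 + 16 * D.e)) * c₇ : ℝ) * (Z : ℝ) ^ 10 := by
            push_cast
            ring
        _ ≤ (c₈ : ℝ) ^ 10 * (Z : ℝ) ^ 10 := by
            have e1 : (Cs * (c₅ * (1 + 16 * D.e)) * c₇ : ℝ) ≤ c₈ := by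
              rw [hc₈]
              push_cast
              have : (0 : ℝ) ≤ (c₅ : ℝ) := Nat.cast_nonneg _
              linarith
            have e2 : (c₈ : ℝ) ≤ (c₈ : ℝ) ^ 10 := le_self_pow₀ hc₈1 (by norm_num)
            gcongr
            exact e1.trans e2
        _ = _ := by rw [mul_pow]
    calc _ ≤ (((c₈ : ℝ) * Z) ^ 10) ^ Cs := pow_le_pow_left₀ (by positivity) h1 Cs
      _ = ((c₈ : ℝ) * Z) ^ (10 * Cs) := by rw [← pow_mul]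
      _ ≤ _ := hfin _ le_rfl
  -- the coefficients
  let p : ℕ → OO := fun j => if hj : j < I then - x (Sum.inl ⟨j, hj⟩) else 0
  let g : ℕ → ℕ → ℕ → ℕ → OO := fun i j k k' =>
    if hh : i < D.e ∧ (n₁ ≤ j ∧ j < I) ∧ k < R ∧ k' < R then
      x (Sum.inr (⟨i, hh.1⟩, ⟨j - n₁, by omega⟩, ⟨k, hh.2.2.1⟩, ⟨k', hh.2.2.2⟩)) else 0
  have hgu : ∀ u : Fin D.e × Fin (I - n₁) × Fin R × Fin R,
      g u.1 (n₁ + u.2.1) u.2.2.1 u.2.2.2 = x (Sum.inr u) := by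
    intro u
    have hh : (u.1 : ℕ) < D.e ∧ (n₁ ≤ n₁ + (u.2.1 : ℕ) ∧ n₁ + (u.2.1 : ℕ) < I) ∧
        (u.2.2.1 : ℕ) < R ∧ (u.2.2.2 : ℕ) < R :=
      ⟨u.1.2, ⟨by omega, by have := u.2.1.2; omega⟩, u.2.2.1.2, u.2.2.2.2⟩
    simp only [g, dif_pos hh]
    congr 2
    ext <;> simp
  have hgs : ∀ i j k k', g i j k k' ≠ 0 → i < D.e ∧ n₁ ≤ j ∧ j < I ∧ k < R ∧ k' < R := by
    intro i j k k' hne
    by_contra hcon
    apply hne
    simp only [g]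
    rw [dif_neg]
    rintro ⟨h1, ⟨h2, h3⟩, h4, h5⟩
    exact hcon ⟨h1, h2, h3, h4, h5⟩
  have hz0 : ∀ s : ℂ ≃+* ℂ, ‖s ((0 : OO) : ℂ)‖ = 0 := by
    intro s
    simp
  refine ⟨I, p, g, ?_, ?_, ?_, ?_, ⟨hgs, ?_, ?_⟩, ?_⟩
  · calc (I : ℝ) ≤ (c₅ : ℝ) * (Z : ℝ) ^ 4 := by exact_mod_cast hIs
      _ ≤ (c₈ : ℝ) ^ 4 * (Z : ℝ) ^ 4 := by
          have e1 : (c₅ : ℝ) ≤ c₈ := by
            rw [hc₈]
            push_cast
            have : (0 : ℝ) ≤ Cs * (c₅ * (1 + 16 * D.e)) * c₇ := by positivity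
            linarith
          have e2 : (c₈ : ℝ) ≤ (c₈ : ℝ) ^ 4 := le_self_pow₀ hc₈1 (by norm_num)
          gcongr
          exact e1.trans e2
      _ = ((c₈ : ℝ) * Z) ^ 4 := by rw [mul_pow]
      _ ≤ _ := hfin _ (by omega)
  · rcases u₀ with j | u
    · refine Or.inl ⟨j, j.2, ?_⟩
      simp only [p, dif_pos j.2]
      exact neg_ne_zero.2 hu₀
    · exact Or.inr ⟨_, _, _, _, by rw [hgu u]; exact hu₀⟩
  · intro j
    simp only [p]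
    split_ifs with hj
    · push_cast
      exact D.K₀.neg_mem (hxK _)
    · exact D.K₀.zero_mem
  · intro j s
    simp only [p]
    split_ifs with hj
    · rw [show ((- x (Sum.inl ⟨j, hj⟩) : OO) : ℂ) = - ((x (Sum.inl ⟨j, hj⟩) : OO) : ℂ) from rfl,
        map_neg, norm_neg]
      exact (hxb _ s).trans (Real.exp_le_exp.2 hbd)
    · rw [hz0]
      exact (Real.exp_pos _).le
  · intro i j k k'
    simp only [g]
    split_ifs with hh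
    · exact hxK _
    · exact D.K₀.zero_mem
  · intro i j k k' s
    simp only [g]
    split_ifs with hh
    · exact (hxb _ s).trans (Real.exp_le_exp.2 hbd)
    · rw [hz0]
      exact (Real.exp_pos _).le
  · have hG : (Gfg D.e D.h n₂ I R D.W c g p) = fun k k' => ∑ u, PowerSeries.C (x u) * Gs u k k' := by
      funext k k'
      rw [Fintype.sum_sum_type]
      have h1 := Sys2_gar (h := D.h) hn1I D.W (fun u => x (Sum.inr u)) g hgu hgs (P k k')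
      have h2 : ∑ l ∈ Finset.range R, ∑ l' ∈ Finset.range R, (if l ≤ k ∧ l' ≤ k' then
          Gar D.e D.h n₂ D.W c (k - l) (k' - l') * Gar D.e D.h I D.W g l l' else 0) =
          ∑ l ∈ Finset.range R, ∑ l' ∈ Finset.range R, P k k' l l' * Gar D.e D.h I D.W g l l' := by
        refine Finset.sum_congr rfl fun l _ => Finset.sum_congr rfl fun l' _ => ?_
        simp only [P]
        rw [ite_mul, zero_mul]
      rw [Gfg, h2, h1, sub_eq_neg_add]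
      congr 1
      by_cases hk : k = 0 ∧ k' = 0
      · rw [if_pos hk, ← Finset.sum_neg_distrib, Finset.sum_range]
        refine Finset.sum_congr rfl fun j _ => ?_
        simp only [Gs, p, dif_pos j.2]
        rw [if_pos hk, map_neg, neg_mul, neg_neg]
      · rw [if_neg hk, neg_zero]
        symm
        refine Finset.sum_eq_zero fun j _ => ?_
        simp only [Gs]
        rw [if_neg hk, mul_zero]
    rw [hG]
    exact hV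

end Pool.Agent.LGO.RU
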