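import Mathlib
import Pool.Agent.LGO.RU.Defs
import Pool.Agent.LGO.RU.Sys2
import Pool.Agent.LGO.RU.Ev
import Pool.Agent.LGO.RU.DelL
import Pool.Agent.Hhelper14.ZPL.Hecke
import Pool.Agent.LGO.Gal.JInj

/-!
# LGO/RU: the second linear system, note 3151, section (6)

`L = M₀ M`, `R = (M₀ + 1) (M + 1)`, `n₁ = 4 L R`, `F` the function with the coefficients `c`.  There are `p_j` (`j < I`) and `g i j k k'` (`i < e`, `n₁ ≤ j < I`,
`k, k' < R`), not all zero, such that `H_κ = p(ξ) - F_κ G_κ` tends to `0` for `ξ → ∞`, for all `κ`.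

PROOF.  `sys2` gives the `p_j` and `g i j k k'`: the expansions of `F G - p(ξ)` at all types vanish up to a high order.  Near the pole, `x a = j(τ₀)`, `Im τ₀ > 1`, and
`Y_a = j(A τ₀)` for an upper triangular matrix `A` of determinant `L` (`Aux2_rep`); `vc_c` bounds the value times a power of the discriminants, `delta_lower'` bounds the
discriminants from below.
-/

namespace Pool.Agent.LGO.RU

open PowerSeries UpperHalfPlane Pool.Agent.Hhelper14.ZP Pool.Agent.Hhelper14.ZPL Pool.Agent.LGO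

variable {n : ℕ} {V : Set (Fin n → ℂ)} {a b : Fin n}

private theorem Aux2_shift {M : Type} [AddCommMonoid M] {R l : ℕ} (hl : l < R) (f : ℕ → M)
    (hf : ∀ m, R ≤ m → f m = 0) :
    ∑ k ∈ Finset.range (2 * R), (if l ≤ k then f (k - l) else 0) =
      ∑ m ∈ Finset.range R, f m := by
  have h1 : 2 * R = l + (2 * R - l) := by omega
  rw [h1, Finset.sum_range_add]
  have h2 : ∑ x ∈ Finset.range l, (if l ≤ x then f (x - l) else 0) = 0 := by
    refine Finset.sum_eq_zero fun x hx => ?_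
    rw [Finset.mem_range] at hx
    rw [if_neg (by omega)]
  have h3 : ∑ x ∈ Finset.range (2 * R - l), (if l ≤ l + x then f (l + x - l) else 0) =
      ∑ x ∈ Finset.range (2 * R - l), f x := by
    refine Finset.sum_congr rfl fun x _ => ?_
    rw [if_pos (by omega), Nat.add_sub_cancel_left]
  rw [h2, h3, zero_add]
  exact Finset.eventually_constant_sum hf (by omega)

private theorem Aux2_conv {R : ℕ} (A B : ℕ → ℕ → ℂ) (hA : ∀ k k', R ≤ k ∨ R ≤ k' → A k k' = 0)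
    (y y' : ℂ) :
    ∑ k ∈ Finset.range (2 * R), ∑ k' ∈ Finset.range (2 * R),
      (∑ l ∈ Finset.range R, ∑ l' ∈ Finset.range R,
        if l ≤ k ∧ l' ≤ k' then A (k - l) (k' - l') * B l l' else 0) * y ^ k * y' ^ k' =
    (∑ k ∈ Finset.range R, ∑ k' ∈ Finset.range R, A k k' * y ^ k * y' ^ k') *
      ∑ k ∈ Finset.range R, ∑ k' ∈ Finset.range R, B k k' * y ^ k * y' ^ k' := by
  have h1 : ∀ k k' : ℕ, (∑ l ∈ Finset.range R, ∑ l' ∈ Finset.range R,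
        if l ≤ k ∧ l' ≤ k' then A (k - l) (k' - l') * B l l' else 0) * y ^ k * y' ^ k' =
      ∑ l ∈ Finset.range R, ∑ l' ∈ Finset.range R, (if l ≤ k then
        (if l' ≤ k' then A (k - l) (k' - l') * y ^ (k - l) * y' ^ (k' - l') else 0) else 0) *
        (B l l' * y ^ l * y' ^ l') := by
    intro k k'
    rw [Finset.sum_mul, Finset.sum_mul]
    refine Finset.sum_congr rfl fun l _ => ?_
    rw [Finset.sum_mul, Finset.sum_mul]
    refine Finset.sum_congr rfl fun l' _ => ?_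
    by_cases h2 : l ≤ k
    · by_cases h3 : l' ≤ k'
      · rw [if_pos ⟨h2, h3⟩, if_pos h2, if_pos h3]
        have e1 : y ^ k = y ^ (k - l) * y ^ l := by rw [← pow_add, Nat.sub_add_cancel h2]
        have e2 : y' ^ k' = y' ^ (k' - l') * y' ^ l' := by
          rw [← pow_add, Nat.sub_add_cancel h3]
        rw [e1, e2]
        ring
      · rw [if_neg (fun h => h3 h.2), if_pos h2, if_neg h3]
        ring
    · rw [if_neg (fun h => h2 h.1), if_neg h2]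
      ring
  have h2 : ∑ k ∈ Finset.range (2 * R), ∑ k' ∈ Finset.range (2 * R),
      (∑ l ∈ Finset.range R, ∑ l' ∈ Finset.range R,
        if l ≤ k ∧ l' ≤ k' then A (k - l) (k' - l') * B l l' else 0) * y ^ k * y' ^ k' =
      ∑ l ∈ Finset.range R, ∑ l' ∈ Finset.range R,
        (∑ k ∈ Finset.range (2 * R), if l ≤ k then ∑ k' ∈ Finset.range (2 * R),
        (if l' ≤ k' then A (k - l) (k' - l') * y ^ (k - l) * y' ^ (k' - l') else 0) else 0) *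
        (B l l' * y ^ l * y' ^ l') := by
    rw [Finset.sum_congr rfl fun k _ => Finset.sum_congr rfl fun k' _ => h1 k k']
    rw [Finset.sum_congr rfl fun k _ => Finset.sum_comm]
    rw [Finset.sum_comm]
    refine Finset.sum_congr rfl fun l _ => ?_
    rw [Finset.sum_congr rfl fun k _ => Finset.sum_comm]
    rw [Finset.sum_comm]
    refine Finset.sum_congr rfl fun l' _ => ?_
    rw [Finset.sum_mul]
    refine Finset.sum_congr rfl fun k _ => ?_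
    by_cases h3 : l ≤ k
    · simp only [if_pos h3]
      rw [Finset.sum_mul]
    · simp only [if_neg h3, zero_mul, Finset.sum_const_zero]
  rw [h2, Finset.mul_sum]
  refine Finset.sum_congr rfl fun l hl => ?_
  rw [Finset.mul_sum]
  refine Finset.sum_congr rfl fun l' hl' => ?_
  rw [Finset.mem_range] at hl hl'
  congr 1
  have h3 := Aux2_shift hl (fun m => ∑ k' ∈ Finset.range (2 * R),
    (if l' ≤ k' then A m (k' - l') * y ^ m * y' ^ (k' - l') else 0)) (by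
      intro m hm
      refine Finset.sum_eq_zero fun k' _ => ?_
      split_ifs
      · rw [hA m _ (Or.inl hm)]
        ring
      · rfl)
  refine h3.trans (Finset.sum_congr rfl fun m _ => ?_)
  exact Aux2_shift hl' (fun m' => A m m' * y ^ m * y' ^ m') (by
    intro m' hm'
    rw [hA m m' (Or.inr hm')]
    ring)

variable {ρ : ℝ} {W : Ser} {t ξ η : ℂ} {s : ℂ ≃+* ℂ} {e h : ℕ}

private theorem Aux2_gar {K : IntermediateField ℚ ℂ} {n₁ J R QC : ℕ}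
    {c : ℕ → ℕ → ℕ → ℕ → OO} {B : ℝ} (hρ0 : 0 ≤ ρ) (hc : CB K c e n₁ J R B)
    (hW : Gr ρ QC W)
    (ht : ‖t‖ ≤ ρ) (h1 : t ^ e * ξ = 1) (h2 : t ^ h * η = evc s W t) (k k' : ℕ) :
    evc s (Gar e h J W c k k') t = t ^ (e * J + h * e) *
      ∑ i ∈ Finset.range e, ∑ j ∈ Finset.range J, sC s (c i j k k') * η ^ i * ξ ^ j := by
  have g1 : ∀ i j, Gr ρ (Real.exp B) (PowerSeries.C (c i j k k')) := fun i j =>
    gr_C (Real.exp_pos B).le (fun s => hc.bd i j k k' s)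
  have g2 : ∀ i, Gr ρ ((QC : ℝ) ^ i) (W ^ i) := fun i => gr_pow hW hρ0 i
  have g3 : ∀ i j, Gr ρ (Real.exp B * (QC : ℝ) ^ i * ρ ^ (e * (J - j) + h * (e - i)))
      (PowerSeries.C (c i j k k') * W ^ i * X ^ (e * (J - j) + h * (e - i))) := fun i j =>
    gr_mul (gr_mul (g1 i j) (g2 i) hρ0) (gr_Xpow hρ0 _) hρ0
  unfold Gar
  rw [evc_sum _ _ _ (fun i _ => gr_sum _ _ _ hρ0 fun j _ => g3 i j) ht s, Finset.mul_sum]
  refine Finset.sum_congr rfl fun i hi => ?_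
  rw [evc_sum _ _ _ (fun j _ => g3 i j) ht s, Finset.mul_sum]
  refine Finset.sum_congr rfl fun j hj => ?_
  rw [Finset.mem_range] at hi hj
  rw [evc_mul (gr_mul (g1 i j) (g2 i) hρ0) (gr_Xpow hρ0 _) ht s, evc_mul (g1 i j) (g2 i) ht s,
    evc_C, evc_pow hW ht, evc_Xpow, ← h2, sC_apply]
  have e1 : e * J = e * (J - j) + e * j := by rw [← mul_add, Nat.sub_add_cancel hj.le]
  have e2 : h * e = h * (e - i) + h * i := by rw [← mul_add, Nat.sub_add_cancel hi.le]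
  have e3 : t ^ (e * j) * ξ ^ j = 1 := by rw [pow_mul, ← mul_pow, h1, one_pow]
  calc s (c i j k k' : ℂ) * (t ^ h * η) ^ i * t ^ (e * (J - j) + h * (e - i))
      = s (c i j k k' : ℂ) * (t ^ h * η) ^ i * t ^ (e * (J - j) + h * (e - i)) *
        (t ^ (e * j) * ξ ^ j) := by rw [e3, mul_one]
    _ = t ^ (e * J + h * e) * (s (c i j k k' : ℂ) * η ^ i * ξ ^ j) := by
        rw [e1, e2, mul_pow, ← pow_mul]
        simp only [pow_add]
        ring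

private theorem Aux2_S {K : IntermediateField ℚ ℂ} {n₁ n₂ I R QC : ℕ}
    {c g : ℕ → ℕ → ℕ → ℕ → OO} {p : ℕ → OO} {B B' B₁ B₂ : ℝ} (hρ0 : 0 ≤ ρ)
    (hc : CB K c e n₁ n₂ R B) (hg : CB K g e n₁ I R B') (hp : ∀ j (s : ℂ ≃+* ℂ), ‖s ((p j : OO) : ℂ)‖ ≤ Real.exp B')
    (hW : Gr ρ QC W) (hRp : 0 < R)
    (hGc : ∀ k k', Gr ρ (Real.exp B₁) (Gar e h n₂ W c k k'))
    (hGg : ∀ k k', Gr ρ (Real.exp B₂) (Gar e h I W g k k'))
    (ht : ‖t‖ ≤ ρ) (h1 : t ^ e * ξ = 1) (h2 : t ^ h * η = evc s W t) (y y' : ℂ) :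
    ∑ k ∈ Finset.range (2 * R), ∑ k' ∈ Finset.range (2 * R),
      evc s (Gfg e h n₂ I R W c g p k k') t * y ^ k * y' ^ k' =
    t ^ (e * (I + n₂) + 2 * (h * e)) * (vE (sC s) c e n₂ R ξ η y y' * vE (sC s) g e I R ξ η y y' -
      ∑ j ∈ Finset.range I, s ((p j : OO) : ℂ) * ξ ^ j) := by
  classical
  have e1 : ∀ k k', evc s (Gfg e h n₂ I R W c g p k k') t =
      (∑ l ∈ Finset.range R, ∑ l' ∈ Finset.range R, if l ≤ k ∧ l' ≤ k' then
        evc s (Gar e h n₂ W c (k - l) (k' - l')) t * evc s (Gar e h I W g l l') t else 0) -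
      (if k = 0 ∧ k' = 0 then ∑ j ∈ Finset.range I,
        s ((p j : OO) : ℂ) * t ^ (e * (I + n₂ - j) + 2 * (h * e)) else 0) := by
    intro k k'
    have g1 : ∀ l l', Gr ρ (Real.exp B₁ * Real.exp B₂) (if l ≤ k ∧ l' ≤ k' then
        Gar e h n₂ W c (k - l) (k' - l') * Gar e h I W g l l' else 0) := by
      intro l l'
      split_ifs
      · exact gr_mul (hGc _ _) (hGg _ _) hρ0
      · exact gr_mono gr_zero (by positivity)
    have g2 : ∀ j, Gr ρ (Real.exp B' * ρ ^ (e * (I + n₂ - j) + 2 * (h * e)))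
        (PowerSeries.C (p j) * X ^ (e * (I + n₂ - j) + 2 * (h * e))) := fun j =>
      gr_mul (gr_C (Real.exp_pos B').le (hp j)) (gr_Xpow hρ0 _) hρ0
    have g3 : Gr ρ (∑ j ∈ Finset.range I, Real.exp B' * ρ ^ (e * (I + n₂ - j) + 2 * (h * e)))
        (if k = 0 ∧ k' = 0 then ∑ j ∈ Finset.range I,
          PowerSeries.C (p j) * X ^ (e * (I + n₂ - j) + 2 * (h * e)) else 0) := by
      split_ifs
      · exact gr_sum _ _ _ hρ0 fun j _ => g2 j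
      · exact gr_mono gr_zero (Finset.sum_nonneg fun j _ => by positivity)
    unfold Gfg
    rw [evc_sub (gr_sum _ _ _ hρ0 fun l _ => gr_sum _ _ _ hρ0 fun l' _ => g1 l l') g3 ht s]
    congr 1
    · rw [evc_sum _ _ _ (fun l _ => gr_sum _ _ _ hρ0 fun l' _ => g1 l l') ht s]
      refine Finset.sum_congr rfl fun l _ => ?_
      rw [evc_sum _ _ _ (fun l' _ => g1 l l') ht s]
      refine Finset.sum_congr rfl fun l' _ => ?_
      split_ifs
      · exact evc_mul (hGc _ _) (hGg _ _) ht s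
      · exact evc_zero s t
    · split_ifs
      · rw [evc_sum _ _ _ (fun j _ => g2 j) ht s]
        refine Finset.sum_congr rfl fun j _ => ?_
        rw [evc_mul (gr_C (Real.exp_pos B').le (hp j)) (gr_Xpow hρ0 _) ht s, evc_C, evc_Xpow]
      · exact evc_zero s t
  have e2 : ∀ k k', R ≤ k ∨ R ≤ k' → evc s (Gar e h n₂ W c k k') t = 0 := by
    intro k k' hk
    rw [Aux2_gar hρ0 hc hW ht h1 h2]
    have h3 : ∀ i j, c i j k k' = 0 := by
      intro i j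
      by_contra hcon
      obtain ⟨-, -, -, h4, h5⟩ := hc.supp i j k k' hcon
      omega
    simp [h3]
  have e3 : ∀ {n₃ J : ℕ} {c : ℕ → ℕ → ℕ → ℕ → OO} {B : ℝ}, CB K c e n₃ J R B →
      ∑ k ∈ Finset.range R, ∑ k' ∈ Finset.range R, evc s (Gar e h J W c k k') t * y ^ k * y' ^ k' =
      t ^ (e * J + h * e) * vE (sC s) c e J R ξ η y y' := by
    intro n₃ J c B hc
    have f1 : vE (sC s) c e J R ξ η y y' = ∑ k ∈ Finset.range R, ∑ k' ∈ Finset.range R,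
        (∑ i ∈ Finset.range e, ∑ j ∈ Finset.range J, sC s (c i j k k') * η ^ i * ξ ^ j) *
          y ^ k * y' ^ k' := by
      unfold vE
      rw [Finset.sum_congr rfl fun i _ => Finset.sum_comm, Finset.sum_comm]
      refine Finset.sum_congr rfl fun k _ => ?_
      rw [Finset.sum_congr rfl fun i _ => Finset.sum_congr rfl fun j _ => rfl]
      rw [Finset.sum_congr rfl fun i _ => Finset.sum_comm, Finset.sum_comm]
      refine Finset.sum_congr rfl fun k' _ => ?_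
      rw [Finset.sum_mul, Finset.sum_mul]
      refine Finset.sum_congr rfl fun i _ => ?_
      rw [Finset.sum_mul, Finset.sum_mul]
    rw [f1, Finset.mul_sum]
    refine Finset.sum_congr rfl fun k _ => ?_
    rw [Finset.mul_sum]
    refine Finset.sum_congr rfl fun k' _ => ?_
    rw [Aux2_gar hρ0 hc hW ht h1 h2]
    ring
  have e4 : ∑ k ∈ Finset.range (2 * R), ∑ k' ∈ Finset.range (2 * R),
      (if k = 0 ∧ k' = 0 then ∑ j ∈ Finset.range I,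
        s ((p j : OO) : ℂ) * t ^ (e * (I + n₂ - j) + 2 * (h * e)) else 0) * y ^ k * y' ^ k' =
      t ^ (e * (I + n₂) + 2 * (h * e)) * ∑ j ∈ Finset.range I, s ((p j : OO) : ℂ) * ξ ^ j := by
    rw [Finset.sum_eq_single 0, Finset.sum_eq_single 0]
    · rw [if_pos ⟨rfl, rfl⟩, pow_zero, pow_zero, mul_one, mul_one, Finset.mul_sum]
      refine Finset.sum_congr rfl fun j hj => ?_
      rw [Finset.mem_range] at hj
      have f1 : e * (I + n₂) = e * (I + n₂ - j) + e * j := by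
        rw [← mul_add, Nat.sub_add_cancel (by omega)]
      have f2 : t ^ (e * j) * ξ ^ j = 1 := by rw [pow_mul, ← mul_pow, h1, one_pow]
      calc s (p j : ℂ) * t ^ (e * (I + n₂ - j) + 2 * (h * e))
          = s (p j : ℂ) * t ^ (e * (I + n₂ - j) + 2 * (h * e)) * (t ^ (e * j) * ξ ^ j) := by
            rw [f2, mul_one]
        _ = t ^ (e * (I + n₂) + 2 * (h * e)) * (s (p j : ℂ) * ξ ^ j) := by
            rw [f1]
            simp only [pow_add]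
            ring
    · intro k' _ hk'
      rw [if_neg (fun h => hk' h.2)]
      ring
    · intro h3
      exact absurd (Finset.mem_range.2 (by omega)) h3
    · intro k _ hk
      refine Finset.sum_eq_zero fun k' _ => ?_
      rw [if_neg (fun h => hk h.1)]
      ring
    · intro h3
      exact absurd (Finset.mem_range.2 (by omega)) h3
  have e5 : ∑ k ∈ Finset.range (2 * R), ∑ k' ∈ Finset.range (2 * R),
      evc s (Gfg e h n₂ I R W c g p k k') t * y ^ k * y' ^ k' =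
      (∑ k ∈ Finset.range (2 * R), ∑ k' ∈ Finset.range (2 * R),
      (∑ l ∈ Finset.range R, ∑ l' ∈ Finset.range R, if l ≤ k ∧ l' ≤ k' then
        evc s (Gar e h n₂ W c (k - l) (k' - l')) t * evc s (Gar e h I W g l l') t else 0) *
        y ^ k * y' ^ k') -
      ∑ k ∈ Finset.range (2 * R), ∑ k' ∈ Finset.range (2 * R),
      (if k = 0 ∧ k' = 0 then ∑ j ∈ Finset.range I,
        s ((p j : OO) : ℂ) * t ^ (e * (I + n₂ - j) + 2 * (h * e)) else 0) * y ^ k * y' ^ k' := by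
    rw [← Finset.sum_sub_distrib]
    refine Finset.sum_congr rfl fun k _ => ?_
    rw [← Finset.sum_sub_distrib]
    refine Finset.sum_congr rfl fun k' _ => ?_
    rw [e1]
    ring
  rw [e5, e4, Aux2_conv (fun k k' => evc s (Gar e h n₂ W c k k') t)
    (fun k k' => evc s (Gar e h I W g k k') t) e2 y y', e3 hc, e3 hg, mul_sub]
  congr 1
  have f1 : t ^ (e * (I + n₂) + 2 * (h * e)) = t ^ (e * n₂ + h * e) * t ^ (e * I + h * e) := by
    rw [← pow_add]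
    congr 1
    ring
  rw [f1]
  ring

/-- the growth of the array -/
private theorem Aux2_gr {n₂ I R : ℕ} {c g : ℕ → ℕ → ℕ → ℕ → OO} {p : ℕ → OO} {B' B₁ B₂ : ℝ}
    (hρ0 : 0 ≤ ρ) (hp : ∀ j (s : ℂ ≃+* ℂ), ‖s ((p j : OO) : ℂ)‖ ≤ Real.exp B')
    (hGc : ∀ k k', Gr ρ (Real.exp B₁) (Gar e h n₂ W c k k'))
    (hGg : ∀ k k', Gr ρ (Real.exp B₂) (Gar e h I W g k k')) :
    ∃ P : ℝ, ∀ k k', Gr ρ (Real.exp P) (Gfg e h n₂ I R W c g p k k') := by
  refine ⟨(∑ l ∈ Finset.range R, ∑ l' ∈ Finset.range R, Real.exp B₁ * Real.exp B₂) +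
    ∑ j ∈ Finset.range I, Real.exp B' * ρ ^ (e * (I + n₂ - j) + 2 * (h * e)), fun k k' => ?_⟩
  have g1 : ∀ l l', Gr ρ (Real.exp B₁ * Real.exp B₂) (if l ≤ k ∧ l' ≤ k' then
      Gar e h n₂ W c (k - l) (k' - l') * Gar e h I W g l l' else 0) := by
    intro l l'
    split_ifs
    · exact gr_mul (hGc _ _) (hGg _ _) hρ0
    · exact gr_mono gr_zero (by positivity)
  have g2 : ∀ j, Gr ρ (Real.exp B' * ρ ^ (e * (I + n₂ - j) + 2 * (h * e)))
      (PowerSeries.C (p j) * X ^ (e * (I + n₂ - j) + 2 * (h * e))) := fun j =>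
    gr_mul (gr_C (Real.exp_pos B').le (hp j)) (gr_Xpow hρ0 _) hρ0
  have g3 : Gr ρ (∑ j ∈ Finset.range I, Real.exp B' * ρ ^ (e * (I + n₂ - j) + 2 * (h * e)))
      (if k = 0 ∧ k' = 0 then ∑ j ∈ Finset.range I,
        PowerSeries.C (p j) * X ^ (e * (I + n₂ - j) + 2 * (h * e)) else 0) := by
    split_ifs
    · exact gr_sum _ _ _ hρ0 fun j _ => g2 j
    · exact gr_mono gr_zero (Finset.sum_nonneg fun j _ => by positivity)
  refine gr_mono (gr_sub (gr_sum _ _ _ hρ0 fun l _ => gr_sum _ _ _ hρ0 fun l' _ => g1 l l') g3 hρ0) ?_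
  have := Real.add_one_le_exp ((∑ l ∈ Finset.range R, ∑ l' ∈ Finset.range R,
    Real.exp B₁ * Real.exp B₂) +
    ∑ j ∈ Finset.range I, Real.exp B' * ρ ^ (e * (I + n₂ - j) + 2 * (h * e)))
  linarith

/-- the representative of a class -/
private theorem Aux2_rep {L : ℕ} (hL : 0 < L) (κ : QQ L) {τ τ₀ : ℍ} (h : jInv τ = jInv τ₀)
    (h1 : 1 < τ₀.im) :
    ∃ (a d : ℕ) (τ₁ : ℍ), 0 < a ∧ 0 < d ∧ a * d = L ∧ jQ hL κ τ = jInv τ₁ ∧
      Complex.exp (2 * Real.pi * Complex.I * τ₁) ^ d =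
        Complex.exp (2 * Real.pi * Complex.I * τ₀) ^ a ∧ 1 ≤ (L : ℝ) * τ₁.im := by
  obtain ⟨γ, hγ⟩ := Gal.j_inj h
  have h2 : jQ hL κ τ = jQ hL (rQ γ κ) τ₀ := by
    rw [jQ_rQ, hγ]
  rw [h2]
  generalize rQ γ κ = κ'
  induction κ' using Quotient.inductionOn' with
  | h A =>
    obtain ⟨A', hA', δ, rfl⟩ := exists_rep hL A
    obtain ⟨a, d, b, ha, hd, had, h00, h11, hact⟩ := rep_shape' hL hA'
    have hd' : (d : ℂ) ≠ 0 := by exact_mod_cast hd.ne'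
    refine ⟨a, d, act hL A' τ₀, ha, hd, had, ?_, ?_, ?_⟩
    · rw [jQ_mk, jA_smul]
      rfl
    · rw [← Complex.exp_nat_mul, ← Complex.exp_nat_mul, Complex.exp_eq_exp_iff_exists_int]
      refine ⟨b, ?_⟩
      rw [hact τ₀]
      field_simp
    · have e1 : (act hL A' τ₀).im = a * τ₀.im / d := by
        have e2 : (act hL A' τ₀).im = ((act hL A' τ₀ : ℍ) : ℂ).im := rfl
        rw [e2, hact τ₀]
        have e3 : ((a : ℂ) * τ₀ + b) / d = ((a / d : ℝ) : ℂ) * τ₀ + ((b / d : ℝ) : ℂ) := by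
          push_cast
          field_simp
        rw [e3, Complex.add_im, Complex.ofReal_im, add_zero, Complex.im_ofReal_mul]
        change (a / d : ℝ) * τ₀.im = a * τ₀.im / d
        ring
      rw [e1, ← had]
      push_cast
      have ha1 : (1 : ℝ) ≤ a := by exact_mod_cast ha
      have hd1 : (d : ℝ) ≠ 0 := by exact_mod_cast hd.ne'
      have e4 : (a : ℝ) * d * (a * τ₀.im / d) = a * a * τ₀.im := by
        field_simp
      rw [e4]
      nlinarith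

/-- lower bound for the discriminant at the representative -/
private theorem Aux2_low {L a d m C : ℕ} {τ₁ : ℍ} {u q : ℝ} (hL : 0 < L) (hC : 0 < C)
    (hd : 0 < d) (had : a * d = L) (h1 : 1 ≤ (L : ℝ) * τ₁.im)
    (h2 : ‖Complex.exp (2 * Real.pi * Complex.I * τ₁)‖ ^ d = q ^ a) (hu0 : 0 ≤ u) (hu1 : u ≤ 1)
    (hq : u ^ m ≤ C * q) :
    Real.exp (-(24 * (L : ℝ) ^ 2)) / (C : ℝ) ^ L * u ^ (m * L) ≤
      ‖ModularForm.discriminant τ₁‖ := by
  have h3 := delta_lower' L τ₁ hL h1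
  refine le_trans ?_ h3
  have hC1 : (1 : ℝ) ≤ C := by exact_mod_cast hC
  have hC0 : (0 : ℝ) < C := by linarith
  have hn : ‖Complex.exp (2 * Real.pi * Complex.I * τ₁)‖ ≤ 1 := by
    have h4 : Function.Periodic.qParam 1 (τ₁ : ℂ) = Complex.exp (2 * Real.pi * Complex.I * τ₁) := by
      rw [Function.Periodic.qParam]
      simp
    rw [← h4]
    exact (norm_qParam_lt τ₁).le
  have h5 : u ^ m / C ≤ q := by rw [div_le_iff₀' hC0]; exact hq
  have h6 : 0 ≤ u ^ m / C := by positivity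
  have h7 : u ^ m / C ≤ 1 := by
    rw [div_le_one hC0]
    exact (pow_le_one₀ hu0 hu1).trans hC1
  have h8 : (u ^ m / C) ^ L ≤ ‖Complex.exp (2 * Real.pi * Complex.I * τ₁)‖ := by
    calc (u ^ m / C) ^ L ≤ (u ^ m / C) ^ a := by
          refine pow_le_pow_of_le_one h6 h7 ?_
          rw [← had]
          exact Nat.le_mul_of_pos_right a hd
      _ ≤ q ^ a := pow_le_pow_left₀ h6 h5 a
      _ = ‖Complex.exp (2 * Real.pi * Complex.I * τ₁)‖ ^ d := h2.symm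
      _ ≤ ‖Complex.exp (2 * Real.pi * Complex.I * τ₁)‖ := pow_le_of_le_one (norm_nonneg _) hn hd.ne'
  have h9 : Real.exp (-(24 * (L : ℝ) ^ 2)) / (C : ℝ) ^ L * u ^ (m * L) =
      Real.exp (-(24 * (L : ℝ) ^ 2)) * (u ^ m / C) ^ L := by
    rw [div_pow, ← pow_mul]
    ring
  rw [h9]
  exact mul_le_mul_of_nonneg_left h8 (Real.exp_pos _).le

private theorem Aux2_main (D : Loc V a b) (Q : QD D) {L R : ℕ} (hL : 0 < L) (hR : 0 < R)
    {n₁ n₂ I : ℕ} {c g : ℕ → ℕ → ℕ → ℕ → OO} {p : ℕ → OO} {B B' : ℝ}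
    (hc : CB D.K₀ c D.e n₁ n₂ R B) (hg : CB D.K₀ g D.e n₁ I R B')
    (hp : ∀ j (s : ℂ ≃+* ℂ), ‖s ((p j : OO) : ℂ)‖ ≤ Real.exp B')
    (hv : VAll L 0 (2 * R) (Gfg D.e D.h n₂ I R D.W c g p) Q.qa Q.qb
        (D.e * (I + n₂) + (2 * (D.h * D.e) + 2 * ((D.m + D.l) * L * R) + 1))) :
    ∃ C' : ℝ, ∀ x ∈ V, x ∉ D.E → C' ≤ ‖D.ξ x‖ → ∀ (κa κb : QQ L) (τ τ' : UpperHalfPlane),
      jInv τ = x a → jInv τ' = x b →
      ‖∑ j ∈ Finset.range I, ((p j : OO) : ℂ) * D.ξ x ^ j -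
        vE OO.subtype c D.e n₂ R (D.ξ x) (D.η x) (jQ hL κa τ) (jQ hL κb τ') *
        vE OO.subtype g D.e I R (D.ξ x) (D.η x) (jQ hL κa τ) (jQ hL κb τ')‖ ^ D.e *
          ‖D.ξ x‖ ≤ C' := by
  obtain ⟨hρ0, hρ1, hQC⟩ := Q.pos
  have hGc := gar_gr2 hρ0.le hρ1 hc (h := D.h) Q.gr.2.2
  have hGg := gar_gr2 hρ0.le hρ1 hg (h := D.h) Q.gr.2.2
  obtain ⟨P, hP⟩ := Aux2_gr (n₂ := n₂) (I := I) (R := R) hρ0.le hp hGc hGg
  obtain ⟨C₀, hC₀, hvc⟩ := vc_c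
  obtain ⟨E, hE⟩ : ∃ E : ℝ, E = Real.exp (-(24 * (L : ℝ) ^ 2)) / (Q.C : ℝ) ^ L := ⟨_, rfl⟩
  have hE0 : 0 < E := by
    rw [hE]
    have : (0 : ℝ) < Q.C := by exact_mod_cast hQC
    positivity
  obtain ⟨T₀, hT₀⟩ : ∃ T₀ : ℕ, T₀ = D.e * (I + n₂) + 2 * (D.h * D.e) := ⟨_, rfl⟩
  obtain ⟨T₁, hT₁⟩ : ∃ T₁ : ℕ, T₁ = 2 * ((D.m + D.l) * L * R) := ⟨_, rfl⟩
  have hT : D.e * (I + n₂) + (2 * (D.h * D.e) + 2 * ((D.m + D.l) * L * R) + 1) = T₀ + T₁ + 1 := by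
    rw [hT₀, hT₁]
    ring
  rw [hT] at hv
  obtain ⟨K₂, hK₂⟩ : ∃ K₂ : ℝ, K₂ = Real.exp (P + C₀ * (((2 * R : ℕ) : ℝ) + 1) ^ 2 * L) /
    Q.ρ ^ (T₀ + T₁ + 1) := ⟨_, rfl⟩
  obtain ⟨K₁, hK₁⟩ : ∃ K₁ : ℝ, K₁ = (E * E) ^ (2 * R) := ⟨_, rfl⟩
  have hK₁0 : 0 < K₁ := by rw [hK₁]; positivity
  have hK₂0 : 0 < K₂ := by rw [hK₂]; positivity
  refine ⟨max Q.C ((K₂ / K₁) ^ D.e), ?_⟩
  intro x hx hxE hxi κa κb τ τ' hτ hτ'
  obtain ⟨t, ht0, ht, h1, h2, hla, hlb, τ₀, τ₀', hi, hi', hj, hj', hq, hq'⟩ :=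
    Q.near_c (RingEquiv.refl ℂ) x hx hxE ((le_max_left _ _).trans hxi)
  change t ^ D.e * D.ξ x = 1 at h1
  change t ^ D.h * D.η x = evc (RingEquiv.refl ℂ) D.W t at h2
  change jInv τ₀ = x a at hj
  change jInv τ₀' = x b at hj'
  obtain ⟨aa, dd, τ₁, haa, hdd, had, hJ, hA, hIm⟩ := Aux2_rep hL κa (hτ.trans hj.symm) hi
  obtain ⟨aa', dd', τ₁', haa', hdd', had', hJ', hA', hIm'⟩ :=
    Aux2_rep hL κb (hτ'.trans hj'.symm) hi'
  rw [hq] at hA
  rw [hq'] at hA'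
  have hu1 : ‖t‖ ≤ 1 := ht.trans hρ1
  have hl := Aux2_low (m := D.m) hL hQC hdd had hIm (by rw [← norm_pow, hA, norm_pow])
    ht0.le hu1 hla
  have hl' := Aux2_low (m := D.l) hL hQC hdd' had' hIm' (by rw [← norm_pow, hA', norm_pow])
    ht0.le hu1 hlb
  rw [← hE] at hl hl'
  have hS := Aux2_S (s := RingEquiv.refl ℂ) hρ0.le hc hg hp Q.gr.2.2 hR hGc hGg ht h1 h2
    (jQ hL κa τ) (jQ hL κb τ')
  have hvv := hvc L (2 * R) (Gfg D.e D.h n₂ I R D.W c g p) Q.qa Q.qb Q.ρ P aa dd aa' dd'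
    (T₀ + T₁ + 1) (RingEquiv.refl ℂ) t τ₁ τ₁' hρ0 hL had had' Q.c0.1 Q.c0.2 Q.gr.1 Q.gr.2.1
    (fun k _ k' _ => hP k k') (hv aa dd aa' dd' had had' (fun h => by omega)) ht hA hA'
  rw [← hJ, ← hJ', hS, ← hT₀] at hvv
  have hsub : sC (RingEquiv.refl ℂ) = OO.subtype := by
    ext x
    rfl
  rw [hsub] at hvv
  have hpp : ∑ j ∈ Finset.range I, (RingEquiv.refl ℂ) ((p j : OO) : ℂ) * D.ξ x ^ j =
      ∑ j ∈ Finset.range I, ((p j : OO) : ℂ) * D.ξ x ^ j := rfl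
  rw [hpp] at hvv
  obtain ⟨H, hH⟩ : ∃ H : ℂ, H = ∑ j ∈ Finset.range I, ((p j : OO) : ℂ) * D.ξ x ^ j -
        vE OO.subtype c D.e n₂ R (D.ξ x) (D.η x) (jQ hL κa τ) (jQ hL κb τ') *
        vE OO.subtype g D.e I R (D.ξ x) (D.η x) (jQ hL κa τ) (jQ hL κb τ') := ⟨_, rfl⟩
  rw [← hH]
  have hH' : vE OO.subtype c D.e n₂ R (D.ξ x) (D.η x) (jQ hL κa τ) (jQ hL κb τ') *
        vE OO.subtype g D.e I R (D.ξ x) (D.η x) (jQ hL κa τ) (jQ hL κb τ') -
        ∑ j ∈ Finset.range I, ((p j : OO) : ℂ) * D.ξ x ^ j = -H := by rw [hH]; ring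
  rw [hH', norm_mul, norm_neg, norm_pow] at hvv
  -- lower bound
  have hlow : K₁ * ‖t‖ ^ T₁ ≤
      (‖ModularForm.discriminant τ₁‖ * ‖ModularForm.discriminant τ₁'‖) ^ (2 * R) := by
    have e1 : K₁ * ‖t‖ ^ T₁ = ((E * ‖t‖ ^ (D.m * L)) * (E * ‖t‖ ^ (D.l * L))) ^ (2 * R) := by
      have e2 : ‖t‖ ^ T₁ = (‖t‖ ^ (D.m * L) * ‖t‖ ^ (D.l * L)) ^ (2 * R) := by
        rw [← pow_add, ← pow_mul, hT₁]
        congr 1
        ring
      rw [e2, hK₁, ← mul_pow]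
      congr 1
      ring
    rw [e1]
    refine pow_le_pow_left₀ (by positivity) (mul_le_mul hl hl' (by positivity) (norm_nonneg _)) _
  have h3 : ‖t‖ ^ T₀ * ‖H‖ * (K₁ * ‖t‖ ^ T₁) ≤ K₂ * ‖t‖ ^ (T₀ + T₁ + 1) := by
    refine (mul_le_mul_of_nonneg_left hlow (by positivity)).trans (hvv.trans (le_of_eq ?_))
    rw [hK₂, div_pow]
    ring
  have h4 : ‖H‖ ≤ K₂ / K₁ * ‖t‖ := by
    have e1 : (‖t‖ ^ (T₀ + T₁) * K₁) * ‖H‖ ≤ (‖t‖ ^ (T₀ + T₁) * K₁) * (K₂ / K₁ * ‖t‖) := by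
      have e2 : (‖t‖ ^ (T₀ + T₁) * K₁) * (K₂ / K₁ * ‖t‖) = K₂ * ‖t‖ ^ (T₀ + T₁ + 1) := by
        rw [pow_succ]
        field_simp
      rw [e2]
      refine le_trans (le_of_eq ?_) h3
      rw [pow_add]
      ring
    exact le_of_mul_le_mul_left e1 (by positivity)
  refine le_trans ?_ (le_max_right _ _)
  have h5 : ‖t‖ ^ D.e * ‖D.ξ x‖ = 1 := by rw [← norm_pow, ← norm_mul, h1, norm_one]
  calc ‖H‖ ^ D.e * ‖D.ξ x‖ ≤ (K₂ / K₁ * ‖t‖) ^ D.e * ‖D.ξ x‖ :=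
        mul_le_mul_of_nonneg_right (pow_le_pow_left₀ (norm_nonneg _) h4 _) (norm_nonneg _)
    _ = (K₂ / K₁) ^ D.e := by rw [mul_pow, mul_assoc, h5, mul_one]

private theorem Aux2_tcount {M₀ M : ℕ} (h₀ : M₀.Prime) (h : M.Prime) (hne : M₀ ≠ M) :
    tcount (M₀ * M) 0 ≤ ((M₀ + 1) * (M + 1)) ^ 2 := by
  have hsum : ∑ a ∈ (M₀ * M).divisors, M₀ * M / a = (M₀ + 1) * (M + 1) := by
    rw [Nat.sum_div_divisors (M₀ * M) (fun d => d),
      Nat.Coprime.sum_divisors_mul ((Nat.coprime_primes h₀ h).2 hne), h₀.sum_divisors,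
      h.sum_divisors]
  rw [sq, ← hsum, Finset.sum_mul_sum, ← Finset.sum_product']
  unfold tcount
  exact Finset.sum_le_sum_of_subset_of_nonneg (Finset.filter_subset _ _) fun _ _ _ => Nat.zero_le _

theorem aux2 (D : Loc V a b) (Q : QD D) : ∃ C : ℕ, 0 < C ∧ ∀ (M₀ M : ℕ) (hL : 0 < M₀ * M),
    M₀.Prime → M.Prime → M₀ ≠ M → ∀ (n₂ : ℕ) (c : ℕ → ℕ → ℕ → ℕ → OO) (B : ℝ), 1 ≤ B → (n₂ : ℝ) ≤ B →
      CB D.K₀ c D.e (4 * (M₀ * M) * ((M₀ + 1) * (M + 1))) n₂ ((M₀ + 1) * (M + 1)) B →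
      ∃ (I : ℕ) (p : ℕ → OO) (g : ℕ → ℕ → ℕ → ℕ → OO), (I : ℝ) ≤ ((C : ℝ) * (M₀ * M) * B) ^ C ∧
        ((∃ j < I, p j ≠ 0) ∨ ∃ i j k k', g i j k k' ≠ 0) ∧ (∀ j, ((p j : OO) : ℂ) ∈ D.K₀) ∧
        (∀ j (s : ℂ ≃+* ℂ), ‖s ((p j : OO) : ℂ)‖ ≤ Real.exp (((C : ℝ) * (M₀ * M) * B) ^ C)) ∧
        CB D.K₀ g D.e (4 * (M₀ * M) * ((M₀ + 1) * (M + 1))) I ((M₀ + 1) * (M + 1))
          (((C : ℝ) * (M₀ * M) * B) ^ C) ∧
        ∃ C' : ℝ, ∀ x ∈ V, x ∉ D.E → C' ≤ ‖D.ξ x‖ → ∀ (κa κb : QQ (M₀ * M))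
          (τ τ' : UpperHalfPlane), jInv τ = x a → jInv τ' = x b →
          ‖∑ j ∈ Finset.range I, ((p j : OO) : ℂ) * D.ξ x ^ j -
            vE OO.subtype c D.e n₂ ((M₀ + 1) * (M + 1)) (D.ξ x) (D.η x) (jQ hL κa τ) (jQ hL κb τ') *
            vE OO.subtype g D.e I ((M₀ + 1) * (M + 1)) (D.ξ x) (D.η x) (jQ hL κa τ)
              (jQ hL κb τ')‖ ^ D.e * ‖D.ξ x‖ ≤ C' := by
  obtain ⟨C, hC, h⟩ := sys2 D Q
  refine ⟨C, hC, ?_⟩
  intro M₀ M hL h₀ h₁ hne n₂ c B hB hn₂ hc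
  have hR : 1 ≤ (M₀ + 1) * (M + 1) := Nat.mul_pos (Nat.succ_pos _) (Nat.succ_pos _)
  obtain ⟨I, p, g, r1, r2, r3, r4, r5, r6⟩ := h (M₀ * M) ((M₀ + 1) * (M + 1)) hL hR
    (by nlinarith [h₀.pos, h₁.pos, Nat.mul_pos h₀.pos h₁.pos]) (Aux2_tcount h₀ h₁ hne) n₂ c B hB hn₂ hc
  push_cast at r1 r4 r5
  exact ⟨I, p, g, r1, r2, r3, r4, r5, Aux2_main D Q hL hR hc r5 r4 r6⟩

end Pool.Agent.LGO.RU
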