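import Mathlib
import Pool.Agent.Hhelper14.ZP.Orbit

/-!
# LGO/RU: at least `(M₀ + 1) (M + 1)` classes of matrices of determinant `M₀ M`
-/

namespace Pool.Agent.LGO.RU

open Pool.Agent.Hhelper14.ZP
open scoped MatrixGroups

/-- upper triangular matrices in standard form in the same class are equal -/
theorem tri_inj {L : ℕ} {A A' : DD L} (h : (Quotient.mk'' A : QQ L) = Quotient.mk'' A')
    (h0 : A.1 1 0 = 0) (h0' : A'.1 1 0 = 0) (ha : 0 < A.1 0 0) (ha' : 0 < A'.1 0 0)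
    (hb : 0 ≤ A.1 0 1) (hb' : 0 ≤ A'.1 0 1) (hd : A.1 0 1 < A.1 1 1) (hd' : A'.1 0 1 < A'.1 1 1) :
    A.1 0 1 = A'.1 0 1 ∧ A.1 1 1 = A'.1 1 1 := by
  obtain ⟨γ, hγ⟩ := Quotient.exact' h
  have e : ∀ i j, A.1 i j = γ.1 i 0 * A'.1 0 j + γ.1 i 1 * A'.1 1 j := by
    intro i j
    have h1 : A.1 = γ.1 * A'.1 := by
      have := congrArg Subtype.val hγ
      exact this.symm
    rw [h1, Matrix.mul_apply, Fin.sum_univ_two]
  have e10 := e 1 0
  have e00 := e 0 0
  have e11 := e 1 1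
  have e01 := e 0 1
  rw [h0, h0', mul_zero, add_zero] at e10
  rw [h0', mul_zero, add_zero] at e00
  have hr : γ.1 1 0 = 0 := by
    rcases mul_eq_zero.mp e10.symm with h2 | h2
    · exact h2
    · omega
  have hdet := γ.2
  rw [Matrix.det_fin_two, hr, mul_zero, sub_zero] at hdet
  have hp : γ.1 0 0 = 1 ∧ γ.1 1 1 = 1 := by
    rcases Int.mul_eq_one_iff_eq_one_or_neg_one.mp hdet with h2 | h2
    · exact h2
    · exfalso
      rw [h2.1] at e00
      omega
  rw [hr, hp.2, zero_mul, zero_add, one_mul] at e11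
  rw [hp.1, one_mul] at e01
  refine ⟨?_, e11⟩
  have h3 : (A.1 0 1 - A'.1 0 1) = γ.1 0 1 * A'.1 1 1 := by rw [e01]; ring
  have h4 : γ.1 0 1 = 0 := by
    by_contra hne
    have h5 : 1 ≤ |γ.1 0 1| := Int.one_le_abs hne
    have h6 : |A.1 0 1 - A'.1 0 1| < A'.1 1 1 := by
      rw [abs_lt]
      constructor <;> omega
    rw [h3, abs_mul, abs_of_pos (by omega : 0 < A'.1 1 1)] at h6
    nlinarith
  rw [h4, zero_mul] at h3
  omega

theorem card_QQ {M₀ M : ℕ} (h₀ : M₀.Prime) (h : M.Prime) (hne : M₀ ≠ M) :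
    (M₀ + 1) * (M + 1) ≤ Nat.card (QQ (M₀ * M)) := by
  classical
  have hL : 0 < M₀ * M := Nat.mul_pos h₀.pos h.pos
  have := finite_QQ hL
  set T : Finset ℕ := {1, M₀, M, M₀ * M} with hT
  have hdvd : ∀ d ∈ T, d ∣ M₀ * M := by
    intro d hd
    rw [hT] at hd
    simp only [Finset.mem_insert, Finset.mem_singleton] at hd
    rcases hd with rfl | rfl | rfl | rfl
    · exact one_dvd _
    · exact dvd_mul_right _ _
    · exact dvd_mul_left _ _
    · exact dvd_rfl
  set S : Finset (Σ _ : ℕ, ℕ) := T.sigma fun d => Finset.range d with hS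
  let f : S → QQ (M₀ * M) := fun x =>
    Quotient.mk'' (⟨!![((M₀ * M / x.1.1 : ℕ) : ℤ), (x.1.2 : ℤ); 0, (x.1.1 : ℤ)], by
      have hd := hdvd x.1.1 (Finset.mem_sigma.mp x.2).1
      rw [Matrix.det_fin_two_of, mul_zero, sub_zero]
      exact_mod_cast Nat.div_mul_cancel hd⟩ : DD ((M₀ * M : ℕ) : ℤ))
  have hf : Function.Injective f := by
    intro x y hxy
    have hx := Finset.mem_sigma.mp x.2
    have hy := Finset.mem_sigma.mp y.2
    have hx2 := Finset.mem_range.mp hx.2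
    have hy2 := Finset.mem_range.mp hy.2
    have hpx : 0 < M₀ * M / x.1.1 := Nat.div_pos (Nat.le_of_dvd hL (hdvd _ hx.1)) (by omega)
    have hpy : 0 < M₀ * M / y.1.1 := Nat.div_pos (Nat.le_of_dvd hL (hdvd _ hy.1)) (by omega)
    obtain ⟨e1, e2⟩ := tri_inj hxy (by simp) (by simp)
      (show (0 : ℤ) < ((M₀ * M / x.1.1 : ℕ) : ℤ) by exact_mod_cast hpx)
      (show (0 : ℤ) < ((M₀ * M / y.1.1 : ℕ) : ℤ) by exact_mod_cast hpy)
      (by simp) (by simp) (by simpa using hx2) (by simpa using hy2)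
    simp only [Matrix.of_apply, Matrix.cons_val', Matrix.cons_val_zero, Matrix.cons_val_one,
      Matrix.cons_val_fin_one, Nat.cast_inj] at e1 e2
    exact Subtype.ext (Sigma.ext e2 (heq_of_eq e1))
  have hcard : Nat.card S = (M₀ + 1) * (M + 1) := by
    rw [Nat.card_eq_fintype_card, Fintype.card_coe, hS, Finset.card_sigma]
    simp only [Finset.card_range]
    have h1 : (1 : ℕ) ∉ ({M₀, M, M₀ * M} : Finset ℕ) := by
      simp only [Finset.mem_insert, Finset.mem_singleton, not_or]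
      refine ⟨h₀.one_lt.ne, h.one_lt.ne, ?_⟩
      nlinarith [h₀.one_lt, h.one_lt]
    have h2 : M₀ ∉ ({M, M₀ * M} : Finset ℕ) := by
      simp only [Finset.mem_insert, Finset.mem_singleton, not_or]
      refine ⟨hne, ?_⟩
      nlinarith [h₀.one_lt, h.one_lt]
    have h3 : M ∉ ({M₀ * M} : Finset ℕ) := by
      simp only [Finset.mem_singleton]
      nlinarith [h₀.one_lt, h.one_lt]
    rw [hT, Finset.sum_insert h1, Finset.sum_insert h2, Finset.sum_insert h3, Finset.sum_singleton]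
    ring
  rw [← hcard]
  exact Nat.card_le_card_of_injective f hf

end Pool.Agent.LGO.RU
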