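import Mathlib
import Pool.Agent.LGO.RU.MonA
import Pool.Agent.LGO.AXG.DiscR

/-!
# LGO/RU: Liouville's theorem for a finite family of functions of the lifts (abstract part of note 3151, section (6))

`sym_zero`: `H k`, `k ∈ K` finite, are analytic functions of the lifts and of the point, permuted by the group `SL₂(ℤ) ^ d`.  If they are
bounded and tend to `0` at infinity, then they are all zero.  The power sums `∑ k, H k ^ r` are bounded holomorphic functions on the
curve: they have finitely many values (`AX.liouville`), so they are constant (`AX.connected`), so they are zero.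
-/

namespace Pool.Agent.LGO.RU

open Polynomial Pool.Agent.LGO Pool.Agent.LGO.AX Pool.Agent.LGO.AXG Filter Topology
open scoped MatrixGroups

/-- power sums -/
theorem pow_sum_zero {K : Type*} [Fintype K] (u : K → ℂ) (h : ∀ r, 0 < r → ∑ k, u k ^ r = 0) (k : K) : u k = 0 := by
  classical
  by_contra hk
  set f : ℂ[X] := X * ∏ v ∈ (Finset.univ.image u).erase (u k), (X - C v) with hf
  have hf0 : f.coeff 0 = 0 := by rw [hf, mul_coeff_zero, coeff_X_zero, zero_mul]
  have h1 : ∑ l, f.eval (u l) = 0 := by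
    have h2 : ∀ l, f.eval (u l) = ∑ n ∈ Finset.range (f.natDegree + 1), f.coeff n * u l ^ n := fun l =>
      eval_eq_sum_range _
    simp only [h2]
    rw [Finset.sum_comm]
    refine Finset.sum_eq_zero fun n _ => ?_
    rw [← Finset.mul_sum]
    rcases Nat.eq_zero_or_pos n with hn | hn
    · rw [hn, hf0, zero_mul]
    · rw [h n hn, mul_zero]
  have h3 : ∀ l, u l ≠ u k → f.eval (u l) = 0 := by
    intro l hl
    rw [hf, eval_mul, eval_prod]
    have : ∏ v ∈ (Finset.univ.image u).erase (u k), eval (u l) (X - C v) = 0 := by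
      refine Finset.prod_eq_zero (i := u l) ?_ (by simp)
      rw [Finset.mem_erase]
      exact ⟨hl, Finset.mem_image_of_mem _ (Finset.mem_univ _)⟩
    rw [this, mul_zero]
  have h4 : f.eval (u k) ≠ 0 := by
    rw [hf, eval_mul, eval_X, eval_prod]
    refine mul_ne_zero hk (Finset.prod_ne_zero_iff.mpr fun v hv => ?_)
    rw [Finset.mem_erase] at hv
    rw [eval_sub, eval_X, eval_C, sub_ne_zero]
    exact hv.1.symm
  have h5 : ∑ l, f.eval (u l) = ((Finset.univ.filter fun l => u l = u k).card : ℂ) * f.eval (u k) := by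
    rw [← Finset.sum_filter_add_sum_filter_not Finset.univ (fun l => u l = u k)]
    have e1 : ∑ l ∈ Finset.univ.filter (fun l => u l = u k), f.eval (u l) =
        ∑ l ∈ Finset.univ.filter (fun l => u l = u k), f.eval (u k) := by
      refine Finset.sum_congr rfl fun l hl => ?_
      rw [Finset.mem_filter] at hl
      rw [hl.2]
    have e2 : ∑ l ∈ Finset.univ.filter (fun l => ¬ u l = u k), f.eval (u l) = 0 := by
      refine Finset.sum_eq_zero fun l hl => ?_
      rw [Finset.mem_filter] at hl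
      exact h3 l hl.2
    rw [e1, e2, add_zero, Finset.sum_const, nsmul_eq_mul]
  rw [h1] at h5
  have h6 : ((Finset.univ.filter fun l => u l = u k).card : ℂ) ≠ 0 := by
    rw [Nat.cast_ne_zero, Finset.card_ne_zero]
    exact ⟨k, by rw [Finset.mem_filter]; exact ⟨Finset.mem_univ _, rfl⟩⟩
  exact mul_ne_zero h6 h4 h5.symm

/-- a continuous function with finitely many values -/
theorem const_of_finite {U : Set ℂ} (hU : IsPreconnected U) {g : ℂ → ℂ} (hg : ContinuousOn g U) {V : Set ℂ}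
    (hV : V.Finite) (h : ∀ w ∈ U, g w ∈ V) {w w' : ℂ} (hw : w ∈ U) (hw' : w' ∈ U) : g w = g w' := by
  have h1 : (g '' U).Subsingleton := by
    have h2 : IsTotallyDisconnected V := hV.countable.isTotallyDisconnected
    exact h2 _ (by rintro _ ⟨v, hv, rfl⟩; exact h v hv) (hU.image g hg)
  exact h1 ⟨w, hw, rfl⟩ ⟨w', hw', rfl⟩

/-- points over almost all `T` -/
theorem exists_pt {d : ℕ} (S : Cur d) {T : ℂ} (hT : S.D.eval T ≠ 0) : ∃ Y, (T, Y) ∈ S.pt := by
  have h1 : (S.F.map (evalRingHom T)).natDegree = S.F.natDegree :=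
    natDegree_map_of_leadingCoeff_ne_zero _ (S.lead T hT)
  have h2 : (S.F.map (evalRingHom T)).degree ≠ 0 := by
    intro h
    have h3 : (S.F.map (evalRingHom T)).natDegree = 0 := natDegree_eq_of_degree_eq_some (n := 0) h
    rw [h1] at h3
    exact S.deg.ne' h3
  obtain ⟨Y, hY⟩ := IsAlgClosed.exists_root _ h2
  refine ⟨Y, hT, ?_⟩
  change S.F.evalEval T Y = 0
  rw [IsRoot.def, map_evalRingHom_eval] at hY
  exact hY

variable {d : ℕ} {S : Cur d}

/-- **a bounded finite family which tends to zero at infinity is zero** -/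
theorem sym_zero (a₀ : Fin d) (A : Atl S) {K : Type} [Fintype K]
    (H : K → (Fin d → ℂ) → ℂ × ℂ → ℂ) (hAn : ∀ k, AnR S (H k))
    (hEq : ∀ δ : Fin d → SL(2, ℤ), ∃ σ : Equiv.Perm K, ∀ k ζ q, (∀ a, 0 < (ζ a).im) →
      H k (fun a => mz (δ a).1 (ζ a)) q = H (σ k) ζ q) (E : Finset ℂ)
    (hbd : ∃ C : ℝ, ∀ (β : Br S), ∀ w ∈ β.U, (β.pt w).1 ∉ E → ∀ k,
      ‖H k (fun a => β.z a w) (β.pt w)‖ ≤ C)
    (hlim : ∀ ε : ℝ, 0 < ε → ∃ C : ℝ, ∀ (β : Br S), ∀ w ∈ β.U, (β.pt w).1 ∉ E → C ≤ ‖(β.pt w).1‖ →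
      ∀ k, ‖H k (fun a => β.z a w) (β.pt w)‖ ≤ ε) :
    ∀ (β : Br S) (γ : Fin d → SL(2, ℤ)) (k : K), RR (H k) β γ := by
  classical
  -- analytic on the lifts
  have hAn1 : ∀ (k : K) (β : Br S), AnalyticOnNhd ℂ (fun v => H k (fun a => β.z a v) (β.pt v)) β.U := by
    intro k β
    refine (hAn k β 1).congr β.isOpen fun v _ => ?_
    simp only [Pi.one_apply, mz_one]
  -- the power sums as functions on the curve
  have hex : ∀ r : ℕ, ∃ h : ℂ × ℂ → ℂ, ∀ (β : Br S), ∀ w ∈ β.U,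
      h (β.pt w) = ∑ k, H k (fun a => β.z a w) (β.pt w) ^ r := by
    intro r
    have hex' : ∀ p : ℂ × ℂ, ∃ x : ℂ, ∀ (β : Br S), ∀ w ∈ β.U, β.pt w = p →
        x = ∑ k, H k (fun a => β.z a w) p ^ r := by
      intro p
      by_cases hp : ∃ (β : Br S) (w : ℂ), w ∈ β.U ∧ β.pt w = p
      · obtain ⟨β', w', hw', hp'⟩ := hp
        refine ⟨∑ k, H k (fun a => β'.z a w') p ^ r, fun β w hw hpw => ?_⟩
        obtain ⟨κ, hκ, -⟩ := eq_ovl a₀ β β' hw hw' (hpw.trans hp'.symm)
        obtain ⟨σ, hσ⟩ := hEq κ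
        have h1 : ∀ k, H k (fun a => β'.z a w') p = H (σ k) (fun a => β.z a w) p := by
          intro k
          have h2 : (fun a => β'.z a w') = fun a => mz (κ a).1 (β.z a w) := funext fun a => hκ a
          rw [h2]
          exact hσ k (fun a => β.z a w) p fun a => β.zim a hw
        simp only [h1]
        exact Equiv.sum_comp σ fun k => H k (fun a => β.z a w) p ^ r
      · exact ⟨0, fun β w hw hpw => absurd ⟨β, w, hw, hpw⟩ hp⟩
    choose h hh using hex'
    exact ⟨h, fun β w hw => hh _ β w hw rfl⟩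
  choose h hh using hex
  set E' : Finset ℂ := A.cen ∪ E with hE'
  let S' : AX.Cur := (S.ax a₀).rem E'
  have hS' : ∀ p, p ∈ S'.pt ↔ p ∈ S.pt ∧ p.1 ∉ E' := fun p => AX.Cur.mem_rem (S.ax a₀) E' p
  have hcE : ∀ T : ℂ, T ∉ E' → T ∉ A.cen ∧ T ∉ E := by
    intro T hT
    rw [hE', Finset.mem_union, not_or] at hT
    exact hT
  -- analytic along the branches
  have hanh : ∀ (r : ℕ) (β : Br S), AnalyticOnNhd ℂ (fun w => h r (β.pt w)) β.U := by
    intro r β
    have h1 : AnalyticOnNhd ℂ (fun w => ∑ k, H k (fun a => β.z a w) (β.pt w) ^ r) β.U :=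
      Finset.analyticOnNhd_fun_sum _ fun k _ => (hAn1 k β).fun_pow r
    exact h1.congr β.isOpen fun w hw => (hh r β w hw).symm
  have hhol : ∀ r, Hol S' (h r) := by
    intro r Ω y hΩ hy hp T₀ hT₀
    have hp' : ∀ T ∈ Ω, (T, y T) ∈ S.pt := fun T hT => ((hS' _).mp (hp T hT)).1
    have hc : T₀ ∉ A.cen := (hcE _ ((hS' _).mp (hp T₀ hT₀)).2).1
    obtain ⟨i, w, hw, h2⟩ := cover_mem A (hp' T₀ hT₀) hc
    obtain ⟨v, ε, hε, hsub, hvd, hvT, hv'⟩ := sec_param ((A.br i).ax a₀) hw hΩ hy hp' hT₀ h2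
    have hv : ∀ T ∈ Metric.ball T₀ ε, v T ∈ (A.br i).U ∧ (A.br i).pt (v T) = (T, y T) := hv'
    have hT₀b : T₀ ∈ Metric.ball T₀ ε := Metric.mem_ball_self hε
    have d3 : DifferentiableOn ℂ (fun T => h r ((A.br i).pt (v T))) (Metric.ball T₀ ε) :=
      (hanh r (A.br i)).differentiableOn.comp hvd (fun T hT => (hv T hT).1)
    have d4 : DifferentiableAt ℂ (fun T => h r ((A.br i).pt (v T))) T₀ :=
      d3.differentiableAt (Metric.isOpen_ball.mem_nhds hT₀b)
    have hev : (fun T => h r (T, y T)) =ᶠ[nhds T₀] fun T => h r ((A.br i).pt (v T)) := by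
      filter_upwards [Metric.isOpen_ball.mem_nhds hT₀b] with T hT
      rw [(hv T hT).2]
    exact (hev.differentiableAt_iff.mpr d4).differentiableWithinAt
  obtain ⟨C, hC⟩ := hbd
  have hbdr : ∀ r, ∃ C' : ℝ, ∀ p ∈ S'.pt, ‖h r p‖ ≤ C' := by
    intro r
    refine ⟨∑ _k : K, |C| ^ r, fun p hp => ?_⟩
    rw [hS'] at hp
    obtain ⟨i, w, hw, rfl⟩ := cover_mem A hp.1 (hcE _ hp.2).1
    rw [hh r (A.br i) w hw]
    refine (norm_sum_le _ _).trans (Finset.sum_le_sum fun k _ => ?_)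
    rw [norm_pow]
    exact pow_le_pow_left₀ (norm_nonneg _) ((hC _ w hw (hcE _ hp.2).2 k).trans (le_abs_self C)) r
  have hfin : ∀ r, {z : ℂ | ∃ p ∈ S'.pt, z = h r p}.Finite := fun r => liouville S' (hbdr r) (hhol r)
  -- constant
  have hconst : ∀ r, ∀ p ∈ S'.pt, ∀ p' ∈ S'.pt, h r p' = h r p := by
    intro r p₀ hp₀
    refine connected S' (P := fun p => h r p = h r p₀) ?_ hp₀ rfl
    intro p hp
    rw [hS'] at hp
    obtain ⟨i, w₁, hw₁, rfl⟩ := cover_mem A hp.1 (hcE _ hp.2).1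
    have hTc : ContinuousAt (fun w => ((A.br i).pt w).1) w₁ :=
      (br_dT (A.br i)).continuousOn.continuousAt ((A.br i).isOpen.mem_nhds hw₁)
    have e0 : ∀ᶠ w in 𝓝 w₁, w ∈ (A.br i).U := (A.br i).isOpen.mem_nhds hw₁
    have e1 : ∀ᶠ w in 𝓝 w₁, w ∈ (A.br i).U ∧ ((A.br i).pt w).1 ∉ E' :=
      e0.and (hTc.eventually_mem (E'.finite_toSet.isClosed.isOpen_compl.mem_nhds hp.2))
    obtain ⟨ε, hε, hall⟩ := Metric.eventually_nhds_iff_ball.mp e1
    have hcst : ∀ w ∈ Metric.ball w₁ ε, h r ((A.br i).pt w) = h r ((A.br i).pt w₁) := by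
      intro w hw
      refine const_of_finite (convex_ball w₁ ε).isPreconnected (g := fun w => h r ((A.br i).pt w)) ?_ (hfin r)
        ?_ hw (Metric.mem_ball_self hε)
      · exact ((hanh r (A.br i)).continuousOn).mono fun w hw => (hall w hw).1
      · intro v hv
        exact ⟨_, (hS' _).mpr ⟨(A.br i).ptm (hall v hv).1, (hall v hv).2⟩, rfl⟩
    have hall' : ∀ v ∈ (A.br i).U, h r ((A.br i).pt v) = h r ((A.br i).pt w₁) := by
      have h1 : AnalyticOnNhd ℂ (fun w => h r ((A.br i).pt w) - h r ((A.br i).pt w₁)) (A.br i).U :=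
        (hanh r (A.br i)).sub analyticOnNhd_const
      have h2 : (fun w => h r ((A.br i).pt w) - h r ((A.br i).pt w₁)) =ᶠ[𝓝 w₁] 0 := by
        filter_upwards [Metric.ball_mem_nhds w₁ hε] with w hw
        simp only [Pi.zero_apply]
        rw [hcst w hw, sub_self]
      intro v hv
      have h3 := h1.eqOn_zero_of_preconnected_of_eventuallyEq_zero (A.br i).convex.isPreconnected hw₁ h2 hv
      exact sub_eq_zero.mp h3
    have h2 := br_nhds ((A.br i).ax a₀) hw₁
    have h3 : 𝓝[S'.pt] ((A.br i).pt w₁) ≤ 𝓝[S.pt] ((A.br i).pt w₁) := by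
      refine nhdsWithin_mono _ ?_
      intro q hq
      exact ((hS' _).mp hq).1
    filter_upwards [h3 h2] with p' hp'
    obtain ⟨v, hv, hvp⟩ := hp'
    have hv' : v ∈ (A.br i).U := hv
    have hvp' : (A.br i).pt v = p' := hvp
    rw [← hvp', hall' v hv']
  -- points far away
  have hfar : ∀ B : ℝ, ∃ p ∈ S'.pt, B ≤ ‖p.1‖ := by
    intro B
    have h1 : {T : ℂ | S.D.eval T = 0 ∨ T ∈ E'}.Finite := by
      refine Set.Finite.union ?_ E'.finite_toSet
      exact (Polynomial.finite_setOfPred_isRoot S.D_ne)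
    have h2 : ∃ T : ℂ, T ∉ {T : ℂ | S.D.eval T = 0 ∨ T ∈ E'} ∧ B ≤ ‖T‖ := by
      by_contra hcon
      push Not at hcon
      have h3 : (Set.range fun n : ℕ => ((n : ℂ) + (⌈|B|⌉₊ : ℂ))) ⊆ {T : ℂ | S.D.eval T = 0 ∨ T ∈ E'} := by
        rintro _ ⟨n, rfl⟩
        by_contra hn
        have h4 := hcon _ hn
        have h5 : ‖(n : ℂ) + (⌈|B|⌉₊ : ℂ)‖ = (n : ℝ) + ⌈|B|⌉₊ := by
          rw [← Nat.cast_add, Complex.norm_natCast]
          push_cast
          ring
        rw [h5] at h4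
        have h6 : |B| ≤ ⌈|B|⌉₊ := Nat.le_ceil _
        have h7 : (0 : ℝ) ≤ n := Nat.cast_nonneg _
        have h8 := le_abs_self B
        linarith
      have h9 : (Set.range fun n : ℕ => ((n : ℂ) + (⌈|B|⌉₊ : ℂ))).Infinite := by
        refine Set.infinite_range_of_injective ?_
        intro n m hnm
        have := add_right_cancel hnm
        exact_mod_cast this
      exact h9 (h1.subset h3)
    obtain ⟨T, hT, hTB⟩ := h2
    rw [Set.mem_ofPred_eq, not_or] at hT
    obtain ⟨Y, hY⟩ := exists_pt S hT.1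
    exact ⟨(T, Y), (hS' _).mpr ⟨hY, hT.2⟩, hTB⟩
  have hzero : ∀ r, 0 < r → ∀ p ∈ S'.pt, h r p = 0 := by
    intro r hr p hp
    have h1 : ∀ ε : ℝ, 0 < ε → ‖h r p‖ ≤ Fintype.card K * ε := by
      intro ε hε
      have hε1 : 0 < min ε 1 := lt_min hε one_pos
      obtain ⟨B, hB⟩ := hlim (min ε 1) hε1
      obtain ⟨p', hp', hBp⟩ := hfar B
      rw [hconst r p' hp' p hp]
      have hp'' := (hS' _).mp hp'
      obtain ⟨i, w, hw, rfl⟩ := cover_mem A hp''.1 (hcE _ hp''.2).1
      rw [hh r (A.br i) w hw]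
      refine (norm_sum_le _ _).trans ?_
      have h2 : ∀ k ∈ (Finset.univ : Finset K), ‖H k (fun a => (A.br i).z a w) ((A.br i).pt w) ^ r‖ ≤ ε := by
        intro k _
        rw [norm_pow]
        have h3 := hB _ w hw (hcE _ hp''.2).2 hBp k
        calc ‖H k (fun a => (A.br i).z a w) ((A.br i).pt w)‖ ^ r ≤ (min ε 1) ^ r :=
              pow_le_pow_left₀ (norm_nonneg _) h3 r
          _ ≤ (min ε 1) ^ 1 := pow_le_pow_of_le_one hε1.le (min_le_right _ _) hr
          _ ≤ ε := by rw [pow_one]; exact min_le_left _ _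
      refine (Finset.sum_le_card_nsmul _ _ _ h2).trans ?_
      rw [nsmul_eq_mul, Finset.card_univ]
    by_contra hne
    have hpos := norm_pos_iff.mpr hne
    have h2 := h1 (‖h r p‖ / (2 * (Fintype.card K + 1))) (by positivity)
    have h3 : (Fintype.card K : ℝ) * (‖h r p‖ / (2 * (Fintype.card K + 1))) < ‖h r p‖ := by
      rw [← mul_div_assoc, div_lt_iff₀ (by positivity)]
      have h4 : (0 : ℝ) ≤ Fintype.card K := Nat.cast_nonneg _
      nlinarith
    linarith
  -- conclusion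
  have hone : ∀ (k : K) (β : Br S), ∀ w ∈ β.U, H k (fun a => β.z a w) (β.pt w) = 0 := by
    intro k β
    obtain ⟨w₀, hw₀, hw₀E⟩ := br_avoid (β.ax a₀) E'
    change w₀ ∈ β.U at hw₀
    change (β.pt w₀).1 ∉ E' at hw₀E
    have hTc : ContinuousAt (fun w => (β.pt w).1) w₀ :=
      (br_dT β).continuousOn.continuousAt (β.isOpen.mem_nhds hw₀)
    have e0 : ∀ᶠ w in 𝓝 w₀, w ∈ β.U := β.isOpen.mem_nhds hw₀
    have e1 := hTc.eventually_mem (E'.finite_toSet.isClosed.isOpen_compl.mem_nhds hw₀E)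
    have h1 : (fun w => H k (fun a => β.z a w) (β.pt w)) =ᶠ[𝓝 w₀] 0 := by
      filter_upwards [e0, e1] with w hw hwE
      refine pow_sum_zero (fun k => H k (fun a => β.z a w) (β.pt w)) (fun r hr => ?_) k
      rw [← hh r β w hw]
      exact hzero r hr _ ((hS' _).mpr ⟨β.ptm hw, hwE⟩)
    exact fun w hw => (hAn1 k β).eqOn_zero_of_preconnected_of_eventuallyEq_zero β.convex.isPreconnected
      hw₀ h1 hw
  intro β γ k v hv
  obtain ⟨σ, hσ⟩ := hEq γ
  rw [hσ k (fun a => β.z a v) (β.pt v) fun a => β.zim a hv]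
  exact hone (σ k) β v hv

end Pool.Agent.LGO.RU
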