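import Mathlib
import Pool.Agent.LGO.RU.Aux1
import Pool.Agent.LGO.RU.Bnd
import Pool.Agent.LGO.RU.CSProd
import Pool.Agent.LGO.RU.Lev
import Pool.Agent.LGO.RU.LevB
import Pool.Agent.LGO.RU.MainA
import Pool.Agent.LGO.RU.MainN
import Pool.Agent.LGO.RU.NV
import Pool.Agent.LGO.RU.Prim2
import Pool.Agent.LGO.RU.QEx
import Pool.Agent.LGO.RU.TypC
import Pool.Agent.LGO.RU.TypP
import Pool.Agent.LGO.RU.Zero
import Pool.Agent.LGO.PA.FldI
import Pool.Agent.LGO.PA.QCard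
import Pool.Agent.LGO.TG.PairC

/-!
# LGO/RU: the pair theorem at a common pole, from the local data (note 3151)
-/

namespace Pool.Agent.LGO.RU

open Pool.Agent.Hhelper14.ZP Pool.Agent.Hhelper14.ZPL Pool.Agent.LGO Pool.Agent.LGO.PA
  Pool.Agent.LGO.ZV Pool.Agent.LGO.TG

variable {n : ℕ} {V : Set (Fin n → ℂ)} {a b : Fin n}

theorem vE_mem {K : IntermediateField ℚ ℂ} {c : ℕ → ℕ → ℕ → ℕ → OO}
    (hc : ∀ i j k k', ((c i j k k' : OO) : ℂ) ∈ K) {e J R : ℕ} {ξ η y y' : ℂ} (h1 : ξ ∈ K)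
    (h2 : η ∈ K) (h3 : y ∈ K) (h4 : y' ∈ K) : vE OO.subtype c e J R ξ η y y' ∈ K := by
  unfold vE
  refine sum_mem fun i _ => sum_mem fun j _ => sum_mem fun k _ => sum_mem fun k' _ => ?_
  exact K.mul_mem (K.mul_mem (K.mul_mem (K.mul_mem (hc i j k k') (pow_mem h2 _)) (pow_mem h1 _))
    (pow_mem h3 _)) (pow_mem h4 _)

/-- the number of classes -/
theorem card_QQ_le {L : ℕ} (hL : 0 < L) : (Nat.card (QQ L) : ℝ) ≤ 2 * (L : ℝ) ^ 2 := by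
  have h1 := Pool.Agent.LGO.PA.card_QQ hL
  have h2 : (1 : ℝ) ≤ L := by exact_mod_cast hL
  have h3 : (Nat.card (QQ L) : ℝ) ^ 2 ≤ (2 * (L : ℝ) ^ 2) ^ 2 := by
    refine h1.trans ?_
    have h4 : (L : ℝ) ^ 3 ≤ (L : ℝ) ^ 4 := pow_le_pow_right₀ h2 (by norm_num)
    nlinarith
  exact (sq_le_sq₀ (Nat.cast_nonneg _) (by positivity)).1 h3

/-- the height of `ξ` -/
theorem xi_ht (D : Loc V a b) (Md : Mdl D) : ∃ (C : ℕ) (E' : Set (Fin n → ℂ)), 1 ≤ C ∧ E'.Finite ∧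
    ∀ x ∈ V, x ∉ E' → NCM (x a) → NCM (x b) → HeckeRel (x a) (x b) →
    ∀ (K : IntermediateField ℚ ℂ) [FiniteDimensional ℚ K], x a ∈ K → x b ∈ K → D.ξ x ∈ K →
      D.η x ∈ K → Bd K (((C : ℝ) * (Module.finrank ℚ K * (1 + Real.log (mdeg (x a) (x b))))) ^ C)
        (D.ξ x) := by
  classical
  obtain ⟨Q⟩ := exists_qd D
  obtain ⟨c₀, hc₀, hnv⟩ := nv D Md
  obtain ⟨CA, hCA, haux⟩ := aux1 D Q
  obtain ⟨C₁, hC₁, hlevc⟩ := lev_c
  obtain ⟨CB, hCB, hbnd⟩ := bnd D Q C₁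
  obtain ⟨CZ, E', hCZ, hE', hzero⟩ := zero_ht D Q Md
  obtain ⟨C₂, hC₂, hprim⟩ := prim2
  have hfd₀ := D.fd
  set d₀ : ℕ := Module.finrank ℚ D.K₀ with hd₀
  obtain ⟨C, hC, hnum⟩ := main_num CA CB CZ C₂ D.n₀ d₀ c₀
  refine ⟨C, D.E ∪ E', hC, D.fin.union hE', ?_⟩
  intro x hx hxE hna hnb hab K _ hKa hKb hKξ hKη
  have hxE1 : x ∉ D.E := fun h => hxE (Or.inl h)
  have hxE2 : x ∉ E' := fun h => hxE (Or.inr h)
  set N : ℕ := mdeg (x a) (x b) with hN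
  have hiso := heckeRel_iff.1 hab
  have hN0 : 0 < N := mdeg_pos hiso
  -- the primes
  obtain ⟨P₁, hP₁, hP₁N, hcs⟩ := cs_prod K hKa hKb hna hab
  obtain ⟨M₀, M, hM₀, hM, hne, hM₀P, hMP, hM₀le, hMle⟩ := hprim (N * c₀ * P₁)
    (Nat.mul_pos (Nat.mul_pos hN0 hc₀) hP₁)
  have hL : 0 < M₀ * M := Nat.mul_pos hM₀.pos hM.pos
  have hdvdN : ∀ q : ℕ, ¬ q ∣ N * c₀ * P₁ → ¬ q ∣ N := fun q h h' =>
    h (Dvd.dvd.mul_right (Dvd.dvd.mul_right h' _) _)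
  have hdvdc : ∀ q : ℕ, ¬ q ∣ N * c₀ * P₁ → ¬ q ∣ c₀ := fun q h h' =>
    h (Dvd.dvd.mul_right (Dvd.dvd.mul_left h' _) _)
  have hcopN : (M₀ * M).Coprime N := Nat.Coprime.mul_left
    ((Nat.Prime.coprime_iff_not_dvd hM₀).2 (hdvdN _ hM₀P))
    ((Nat.Prime.coprime_iff_not_dvd hM).2 (hdvdN _ hMP))
  have hcopc : (M₀ * M).Coprime c₀ := Nat.Coprime.mul_left
    ((Nat.Prime.coprime_iff_not_dvd hM₀).2 (hdvdc _ hM₀P))
    ((Nat.Prime.coprime_iff_not_dvd hM).2 (hdvdc _ hMP))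
  -- the level pair
  obtain ⟨ya, yb, hya, hyb, hyab⟩ := lev hL hna hab hcopN
  -- the fields
  have hfd₁ : FiniteDimensional ℚ (K ⊔ D.K₀ : IntermediateField ℚ ℂ) :=
    IntermediateField.finiteDimensional_sup K D.K₀
  obtain ⟨K₂, hK₁₂, hfd₂, hyaK, hr₂⟩ := fld_isog (K ⊔ D.K₀) hL
    ((le_sup_left : K ≤ K ⊔ D.K₀) hKa) hya
  obtain ⟨K₃, hK₂₃, hfd₃, hybK, hr₃⟩ := fld_isog K₂ hL
    (hK₁₂ ((le_sup_left : K ≤ K ⊔ D.K₀) hKb)) hyb
  have hKK₃ : K ≤ K₃ := (le_sup_left.trans hK₁₂).trans hK₂₃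
  have hK₀₃ : D.K₀ ≤ K₃ := (le_sup_right.trans hK₁₂).trans hK₂₃
  have hr₁ : Module.finrank ℚ (K ⊔ D.K₀ : IntermediateField ℚ ℂ) ≤ Module.finrank ℚ K * d₀ :=
    IntermediateField.finrank_sup_le K D.K₀
  have hq := card_QQ_le hL
  have hD1 : (1 : ℝ) ≤ Module.finrank ℚ K := by
    exact_mod_cast (Module.finrank_pos : 0 < Module.finrank ℚ K)
  have hD₃ : (Module.finrank ℚ K₃ : ℝ) ≤ 4 * ((M₀ : ℝ) * M) ^ 4 * (d₀ * Module.finrank ℚ K) := by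
    have h1 : (Module.finrank ℚ K₃ : ℝ) ≤ Nat.card (QQ (M₀ * M)) * Module.finrank ℚ K₂ := by
      exact_mod_cast hr₃
    have h2 : (Module.finrank ℚ K₂ : ℝ) ≤ Nat.card (QQ (M₀ * M)) *
        Module.finrank ℚ (K ⊔ D.K₀ : IntermediateField ℚ ℂ) := by exact_mod_cast hr₂
    have h3 : (Module.finrank ℚ (K ⊔ D.K₀ : IntermediateField ℚ ℂ) : ℝ) ≤
        Module.finrank ℚ K * d₀ := by exact_mod_cast hr₁
    have h4 : (0 : ℝ) ≤ Nat.card (QQ (M₀ * M)) := Nat.cast_nonneg _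
    push_cast at hq
    calc (Module.finrank ℚ K₃ : ℝ) ≤ Nat.card (QQ (M₀ * M)) * (Nat.card (QQ (M₀ * M)) *
          (Module.finrank ℚ K * d₀)) :=
          h1.trans (mul_le_mul_of_nonneg_left (h2.trans (mul_le_mul_of_nonneg_left h3 h4)) h4)
      _ ≤ (2 * ((M₀ : ℝ) * M) ^ 2) * ((2 * ((M₀ : ℝ) * M) ^ 2) * (Module.finrank ℚ K * d₀)) := by
          refine mul_le_mul hq (mul_le_mul_of_nonneg_right hq (by positivity)) (by positivity)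
            (by positivity)
      _ = _ := by ring
  -- the numbers
  have hlN : 0 ≤ Real.log N := Real.log_natCast_nonneg _
  have hlP : Real.log ((N * c₀ * P₁ : ℕ) : ℝ) ≤ (Module.finrank ℚ K + 1) * Real.log N + c₀ := by
    have h1 : (0 : ℝ) < N := by exact_mod_cast hN0
    have h2 : (0 : ℝ) < c₀ := by exact_mod_cast hc₀
    have h3 : (0 : ℝ) < P₁ := by exact_mod_cast hP₁
    push_cast
    rw [Real.log_mul (by positivity) h3.ne', Real.log_mul h1.ne' h2.ne']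
    have h4 : Real.log P₁ ≤ Module.finrank ℚ K * Real.log N := by
      have h5 : (P₁ : ℝ) ≤ (N : ℝ) ^ Module.finrank ℚ K := by exact_mod_cast hP₁N
      calc Real.log P₁ ≤ Real.log ((N : ℝ) ^ Module.finrank ℚ K) := Real.log_le_log h3 h5
        _ = _ := Real.log_pow _ _
    have h6 : Real.log c₀ ≤ c₀ := (Real.log_le_sub_one_of_pos h2).trans (by linarith)
    linarith
  let X : Ctx C₂ c₀ d₀ :=
    { D := Module.finrank ℚ K
      l := Real.log N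
      m₀ := M₀
      m := M
      P := Real.log ((N * c₀ * P₁ : ℕ) : ℝ)
      D₃ := Module.finrank ℚ K₃
      hD := hD1
      hl := hlN
      hm₀ := by exact_mod_cast hM₀.one_le
      hm := by exact_mod_cast hM.one_le
      hP0 := Real.log_natCast_nonneg _
      hP := hlP
      hM₀ := hM₀le
      hM := hMle
      hD0 := Nat.cast_nonneg _
      hD₃ := hD₃ }
  obtain ⟨hnum1, hnum2⟩ := hnum X
  -- the auxiliary function
  obtain ⟨n₂, c, hn₂, hcne, hCB1, hVA⟩ := haux M₀ M hM₀ hM hne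
  set B : ℝ := ((CA : ℝ) * (M₀ * M)) ^ CA with hB
  have hLR : (1 : ℝ) ≤ (M₀ : ℝ) * M := by exact_mod_cast hL
  have hB1 : 1 ≤ B := by
    rw [hB]
    refine one_le_pow₀ (one_le_mul_of_one_le_of_one_le (by exact_mod_cast hCA) hLR)
  obtain ⟨⟨k, hk, hfin⟩, hinf⟩ := hbnd M₀ M hM₀ hM hne n₂ c B hB1 hn₂ hCB1 hVA x hx hxE1 ya yb
    (by
      intro p _ φ _ qa qb h1 h2 h3 h4 e1 e2
      exact typ_p φ hM₀ hM hab (hdvdN _ hM₀P) hyab hya hyb h1 h2 h3 h4 e1 e2)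
    (by
      intro s τ τ' h1 h2 e1 e2
      refine typ_c s hM₀ hM hna hab (hdvdN _ hM₀P) hyab hya hyb ?_ h1 h2 e1 e2
      intro c' hc' hMc'
      by_contra hc0
      exact hMP (Dvd.dvd.mul_left (hMc'.trans (hcs s c' hc' hc0)) _))
    (fun p _ φ => ⟨lev_p φ hL hya, lev_p φ hL hyb⟩)
    (fun s => ⟨hlevc s _ _ _ hL hya, hlevc s _ _ _ hL hyb⟩)
  set F : ℂ := vE OO.subtype c D.e n₂ ((M₀ + 1) * (M + 1)) (D.ξ x) (D.η x) ya yb with hF
  have hFK : F ∈ K₃ := vE_mem (fun i j k k' => hK₀₃ (hCB1.mem i j k k')) (hKK₃ hKξ) (hKK₃ hKη)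
    (hK₂₃ hyaK) hybK
  by_cases hF0 : F = 0
  · -- the second system
    have hnvc := hnv M₀ M hL hM₀ hM hne hcopc n₂ c hcne (fun i j k k' h => by
      obtain ⟨h1, -, h3, h4, h5⟩ := hCB1.supp i j k k' h
      exact ⟨h1, h3, h4, h5⟩)
    obtain ⟨I, p, hI, hpne, hpK, hpb, hroot⟩ := hzero M₀ M hL hM₀ hM hne n₂ c B hB1 hn₂ hCB1 hnvc
    obtain ⟨τ, hτ⟩ := j_surj (x a)
    obtain ⟨τ', hτ'⟩ := j_surj (x b)
    obtain ⟨κa, hκa⟩ := (Gal.isogDeg_iff_jQ hL τ ya).1 (by rw [hτ]; exact hya)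
    obtain ⟨κb, hκb⟩ := (Gal.isogDeg_iff_jQ hL τ' yb).1 (by rw [hτ']; exact hyb)
    have halg : IsAlgebraic ℚ (D.ξ x) := by
      have h4 : IsIntegral ℚ (⟨D.ξ x, hKξ⟩ : K) := Algebra.IsIntegral.isIntegral _
      exact (h4.map K.val).isAlgebraic
    have hz := hroot x hx hxE1 hxE2 halg κa κb τ τ' hτ hτ' (by rw [← hκa, ← hκb]; exact hF0)
    have hT0 : (0 : ℝ) ≤ ((CZ : ℝ) * (M₀ * M) * B) ^ CZ := by positivity
    have h1 := case_zero hK₀₃ (hKK₃ hKξ) p I hT0 hpne hpK hpb hz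
    refine bd_down (h1.mono (le_trans ?_ hnum2)) hKξ
    refine mul_le_mul_of_nonneg_right hI ?_
    positivity
  · have h1 := case_ne K₃ (hKK₃ hKξ) hFK hF0 D.pos.2.2.2.1 (k := k) (fun p _ φ => hfin p φ)
      (fun s => hinf s)
    refine bd_down (h1.mono (le_trans ?_ hnum1)) hKξ
    refine mul_le_mul_of_nonneg_left ?_ (Nat.cast_nonneg _)
    have hn₀ : (0 : ℝ) < D.n₀ := by exact_mod_cast D.pos.2.2.2.1
    have hln : Real.log D.n₀ ≤ D.n₀ := (Real.log_le_sub_one_of_pos hn₀).trans (by linarith)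
    have hln0 : 0 ≤ Real.log D.n₀ := Real.log_natCast_nonneg _
    refine add_le_add le_rfl ?_
    exact mul_le_mul hk hln hln0 (by positivity)

/-- **the pair theorem from the local data** -/
theorem pair_loc (h : Pool.Agent.LGO.ZV.Crv V) (D : Loc V a b) (Md : Mdl D) : PairHt V a b ∧ PairHt V b a := by
  obtain ⟨C, E', hC, hE', hξ⟩ := xi_ht D Md
  refine pair_core h.irr h.kcl h.dim h.nc D.Et D.Et D.Xi D.nc hE' C hC ?_
  intro x hx hxE hnb hiso K _ hKa hKb hKη _ hKξ H hH _ _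
  have hr : HeckeRel (x a) (x b) := HeckeRel.symm' (heckeRel_iff.2 hiso)
  have hna : NCM (x a) := by
    obtain ⟨m, hm, hm'⟩ := hiso
    exact NCM.of_isog hm hm' hnb
  refine (hξ x hx hxE hna hnb hr K hKa hKb hKξ hKη).mono ?_
  rw [mdeg_symm (x a) (x b)]
  have hlH : 0 ≤ Real.log H := Real.log_nonneg hH
  have hlN : 0 ≤ Real.log (mdeg (x b) (x a) : ℝ) := Real.log_natCast_nonneg _
  refine pow_le_pow_left₀ (by positivity) ?_ _
  refine mul_le_mul_of_nonneg_left ?_ (Nat.cast_nonneg _)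
  refine mul_le_mul_of_nonneg_left ?_ (Nat.cast_nonneg _)
  linarith

end Pool.Agent.LGO.RU
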