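import Mathlib
import Pool.Agent.LGO.RU.Main
import Pool.Agent.LGO.RU.GeoEx

/-!
# LGO/RU: Theorem RU, the pair theorem at a common pole
-/

namespace Pool.Agent.LGO.RU

open Filter Pool.Agent.LGO Pool.Agent.LGO.ZV

variable {n : ℕ} {V : Set (Fin n → ℂ)} {a b : Fin n}

/-- **Theorem RU**: the pair theorem for two coordinates of a curve of any genus with a common pole -/
theorem pair_pole (h : Pool.Agent.LGO.ZV.Crv V) (hab : a ≠ b) (P : ℕ → Fin n → ℂ)
    (hP : ∀ k, P k ∈ V) (ha : Tendsto (fun k => ‖P k a‖) atTop atTop)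
    (hb : Tendsto (fun k => ‖P k b‖) atTop atTop) : PairHt V a b ∧ PairHt V b a := by
  obtain ⟨D, ⟨Md⟩⟩ := exists_loc h hab P hP ha hb
  exact pair_loc h D Md

end Pool.Agent.LGO.RU
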