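import Mathlib
import Pool.Agent.LGO.RU.GeoV

/-!
# LGO/RU, the bridge: the coordinates `a`, `b` are large where `ξ` is large

PROOF.  Apply `G.locc` to `σ = RingHom.id ℂ`: for `‖ξ x‖ > G.C` there is `τ`, `τ ^ e * ξ x = 1`, so `‖τ‖ = ‖ξ x‖ ^ (-1/e)` is small if `‖ξ x‖` is large, `x a ≠ 0` and `(x a * τ ^ ma)⁻¹ = ∑ c_n τ ^ n` (`ValC`, `HasSum`) with
`‖c_n‖ ≤ G.C ^ (n + 1)` (`G.Sa.gro`): for `‖τ‖ ≤ 1 / (2 G.C)` the sum has norm at most `2 G.C` (geometric series, `tsum_of_norm_bounded` or `norm_tsum_le_tsum_norm`).  So `‖x a‖ ≥ 1 / (2 G.C ‖τ‖ ^ ma) ≥ 1 / (2 G.C ‖τ‖)`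
(`ma ≥ 1`, `‖τ‖ ≤ 1`).  Choose `R` so large that `‖ξ x‖ ≥ R` implies `‖ξ x‖ > G.C` and `‖τ‖ ≤ min (1 / (2 G.C)) (1 / (2 G.C (|B| + 1)))` (`R ≥ (2 G.C (|B| + 1)) ^ e + G.C + 1`: if `‖τ‖ > 1/(2 G.C (|B| + 1))` then `1 = ‖τ‖ ^ e ‖ξ x‖ > 1`).
The same for `b`.
-/

namespace Pool.Agent.LGO.RU

open Polynomial Pool.Agent.LGO Pool.Agent.Hhelper14.ZPL Pool.Agent.Hhelper14.ZP

variable {n : ℕ} {V : Set (Fin n → ℂ)} {a b : Fin n}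

private theorem GexBig_one {K : IntermediateField ℚ ℂ} {C B : ℝ} (hC : 1 ≤ C) {S : PowerSeries OO}
    (hS : SrK K C S) {τ y : ℂ} {m : ℕ} (hm : 0 < m) (hy : y ≠ 0) (hτ : τ ≠ 0)
    (hv : ValC (RingHom.id ℂ) S τ ((y * τ ^ m)⁻¹)) (hτD : ‖τ‖ * (2 * C * (|B| + 1)) ≤ 1) :
    B ≤ ‖y‖ := by
  have hC0 : 0 < C := by linarith
  have hτ0 : 0 < ‖τ‖ := norm_pos_iff.2 hτ
  have hy0 : 0 < ‖y‖ := norm_pos_iff.2 hy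
  have hB0 : 0 ≤ |B| := abs_nonneg B
  have hCB : 0 ≤ C * |B| := mul_nonneg hC0.le hB0
  have h1 : C * ‖τ‖ ≤ 1 / 2 := by
    nlinarith [mul_nonneg hτ0.le hCB]
  have h2 : ‖τ‖ ≤ 1 := by nlinarith
  have h3 : ‖(y * τ ^ m)⁻¹‖ ≤ C * 2 := by
    refine HasSum.norm_le_of_bounded hv (hasSum_geometric_two.mul_left C) fun n => ?_
    have h4 := hS.gro (RingHom.id ℂ) n
    rw [norm_mul, norm_pow]
    calc ‖(RingHom.id ℂ) ((PowerSeries.coeff n S : OO) : ℂ)‖ * ‖(RingHom.id ℂ) τ‖ ^ n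
        ≤ C ^ (n + 1) * ‖τ‖ ^ n := mul_le_mul_of_nonneg_right h4 (by positivity)
      _ = C * (C * ‖τ‖) ^ n := by ring
      _ ≤ C * (1 / 2) ^ n := mul_le_mul_of_nonneg_left
          (pow_le_pow_left₀ (by positivity) h1 n) hC0.le
  rw [norm_inv, norm_mul, norm_pow] at h3
  have h5 : ‖τ‖ ^ m ≤ ‖τ‖ := pow_le_of_le_one hτ0.le h2 hm.ne'
  have h6 : 0 < ‖y‖ * ‖τ‖ ^ m := by positivity
  have h7 : 1 ≤ C * 2 * (‖y‖ * ‖τ‖ ^ m) := by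
    rw [inv_le_iff_one_le_mul₀ h6] at h3
    exact h3
  have h8 : 1 ≤ C * 2 * (‖y‖ * ‖τ‖) := by
    refine h7.trans ?_
    exact mul_le_mul_of_nonneg_left (mul_le_mul_of_nonneg_left h5 hy0.le) (by positivity)
  have h9 : ‖τ‖ * (2 * C * (|B| + 1)) ≤ ‖τ‖ * (2 * C * ‖y‖) := by
    calc ‖τ‖ * (2 * C * (|B| + 1)) ≤ 1 := hτD
      _ ≤ C * 2 * (‖y‖ * ‖τ‖) := h8
      _ = ‖τ‖ * (2 * C * ‖y‖) := by ring
  have h10 : 2 * C * (|B| + 1) ≤ 2 * C * ‖y‖ := le_of_mul_le_mul_left h9 hτ0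
  have h11 : |B| + 1 ≤ ‖y‖ := le_of_mul_le_mul_left h10 (by positivity)
  linarith [le_abs_self B]

theorem gex_big (G : Geo V a b) (B : ℝ) : ∃ R : ℝ, ∀ x ∈ V, R ≤ ‖vl G.Fx x‖ → B ≤ ‖x a‖ ∧ B ≤ ‖x b‖ := by
  have hC := G.C1
  have hB0 : 0 ≤ |B| := abs_nonneg B
  have hD : 0 < 2 * G.C * (|B| + 1) := by positivity
  refine ⟨(2 * G.C * (|B| + 1)) ^ G.e + G.C + 1, fun x hx hR => ?_⟩
  have hDe : 0 < (2 * G.C * (|B| + 1)) ^ G.e := pow_pos hD _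
  have hCx : G.C < ‖(RingHom.id ℂ) (vl G.Fx x)‖ := by
    rw [RingHom.id_apply]
    linarith
  obtain ⟨τ, h1, -, ⟨ha0, hav, -⟩, ⟨hb0, hbv, -⟩⟩ := G.locc (RingHom.id ℂ) x hx hCx
  have hτ : τ ≠ 0 := by
    rintro rfl
    rw [zero_pow G.e0.ne', zero_mul] at h1
    exact zero_ne_one h1
  have hτ0 : 0 < ‖τ‖ := norm_pos_iff.2 hτ
  have h2 : ‖τ‖ ^ G.e * ‖vl G.Fx x‖ = 1 := by
    rw [← norm_pow, ← norm_mul, h1, norm_one]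
  have h3 : ‖τ‖ * (2 * G.C * (|B| + 1)) ≤ 1 := by
    by_contra hcon
    rw [not_le] at hcon
    have h4 : 1 < (‖τ‖ * (2 * G.C * (|B| + 1))) ^ G.e := one_lt_pow₀ hcon G.e0.ne'
    rw [mul_pow] at h4
    have h5 : (2 * G.C * (|B| + 1)) ^ G.e ≤ ‖vl G.Fx x‖ := by linarith
    have h6 : ‖τ‖ ^ G.e * (2 * G.C * (|B| + 1)) ^ G.e ≤ ‖τ‖ ^ G.e * ‖vl G.Fx x‖ :=
      mul_le_mul_of_nonneg_left h5 (by positivity)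
    linarith
  exact ⟨GexBig_one hC G.Sa G.ma0 ha0 hτ hav h3, GexBig_one hC G.Sb G.mb0 hb0 hτ hbv h3⟩

end Pool.Agent.LGO.RU
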