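import Mathlib
import Pool.Agent.LGO.RU.GeoSc
import Pool.Agent.LGO.RU.GeoTr
import Pool.Agent.LGO.RU.GeoCur
import Pool.Agent.LGO.TG.HtsY

/-!
# LGO/RU, geometric input: the final statements

`ComInf V a b`: a point at infinity of `V` where `x_a` and `x_b` are infinite.  `exists_geo`.  `Geo.hts`: the heights of the coordinates
(`TG.hts_y` for `ξ`).
-/

namespace Pool.Agent.LGO.RU

open Polynomial Pool.Agent.LGO Filter Topology Pool.Agent.Hhelper14.ZPL

variable {n : ℕ} {V : Set (Fin n → ℂ)} {a b : Fin n}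

/-- a point at infinity where `x_a` and `x_b` are infinite -/
def ComInf (V : Set (Fin n → ℂ)) (a b : Fin n) : Prop :=
  ∃ P : ℕ → Fin n → ℂ, (∀ m, P m ∈ V) ∧ Tendsto (fun m => ‖P m a‖) atTop atTop ∧
    Tendsto (fun m => ‖P m b‖) atTop atTop

theorem exists_geo (hV : Pool.Agent.Hhelper14.ZPL.IsIrredClosed V) (hVk : KClosed V)
    (hdim : Pool.Agent.Hhelper14.ZPL.dim V = 1) (h : ComInf V a b) : Nonempty (Geo V a b) := by
  obtain ⟨P, hP, ha, hb⟩ := h
  obtain ⟨Fx, Fy, e, h, P', M, N, h1, h2, h3⟩ := exists_planeV hV hVk hdim P hP a b ha hb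
  exact geo_of_plane h1 h2 h3

theorem Geo.hts (G : Geo V a b) (hV : Pool.Agent.Hhelper14.ZPL.IsIrredClosed V) (hVk : KClosed V)
    (hdim : Pool.Agent.Hhelper14.ZPL.dim V = 1) :
    ∃ (C : ℕ) (E : Set (Fin n → ℂ)), E.Finite ∧ ∀ x ∈ V, x ∉ E →
      ∀ (K : IntermediateField ℚ ℂ) [FiniteDimensional ℚ K] (M : ℝ),
        Bd K M (vl G.Fx x) →
        ∃ K' : IntermediateField ℚ ℂ, K ≤ K' ∧ FiniteDimensional ℚ K' ∧
          (Module.finrank ℚ K' : ℝ) ≤ C * Module.finrank ℚ K ∧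
          ∀ k, Bd K' ((C : ℝ) * Module.finrank ℚ K * (1 + M)) (x k) :=
  TG.hts_y hV hVk hdim G.ncx

end Pool.Agent.LGO.RU
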