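import Mathlib
import Pool.Agent.LGO.AXG.ChB

/-!
# LGO/RU, the bridge: a branch where all functions are infinite

PROOF of `gex_cusp`.  `AXG.exists_br S none` gives `ρ > 0` and finitely many branches `br i` which cover all points `(Tp none s, y) = (s⁻¹, y) ∈ S.pt` with `0 < ‖s‖ < ρ`.  For every small `s ≠ 0` with `S.D.eval s⁻¹ ≠ 0`
there is a `y` with `(s⁻¹, y) ∈ S.pt` (`S.F` has positive degree in `Y` and its leading coefficient does not vanish at `s⁻¹` (`S.lead`), `ℂ` is algebraically closed: `Polynomial.exists_root`, `IsAlgClosed.exists_root` for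
`S.F.map (evalRingHom s⁻¹)`); `S.D ≠ 0` has finitely many roots, so all large `T = s⁻¹` are allowed.  Take `s_k → 0` and the points `p_k = (s_k⁻¹, y_k)`; by the pigeonhole principle one branch `β = br i` contains infinitely many of them:
`β.pt w_k = p_k`, `Real.exp w_k.re ≤ β.r * Real.exp (-5)`.  CLAIM: `0 < β.e a` for all `a`.  Suppose `β.e a = 0`.  Then `zz 0 (β.ψ a) w = β.ψ a (exp w)`, and `β.jz a w : jF (β.ψ a (exp w)) = S.x a (β.pt w)` (`Tp`, `pt` as in
`Br.pt`).  On the compact disc `K = closedBall 0 (β.r * exp (-5)) ⊆ ball 0 β.r` the function `β.ψ a` is continuous (`β.dψ`) with positive imaginary part (at `t ≠ 0` by `β.im_pos a (log t)`, at `0` by `β.cen a`), and `jF` is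
continuous on the upper half plane (`jF` is `jInv` of `ofComplex`; see `LGO/AX`, `jF_coe`, differentiability lemmas for `jF` in `LGO/AX/*.lean`), so `‖jF (β.ψ a t)‖ ≤ B` on `K` (`IsCompact.exists_bound_of_continuousOn`).
So `‖S.x a p_k‖ ≤ B` for infinitely many `k`; but `hbig` for `B + 1` says that `‖S.x a p_k‖ ≥ B + 1` as soon as `‖p_k.1‖ = ‖s_k‖⁻¹ ≥ R`.  Contradiction (for one large `k` already).
-/

namespace Pool.Agent.LGO.RU

open Polynomial Pool.Agent.LGO

/-- a function which is finite at the centre of the branch is bounded near the centre -/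
private theorem GexCusp_bd {d : ℕ} {S : AXG.Cur d} (β : AXG.Br S) (a : Fin d) :
    ∃ B : ℝ, β.e a = 0 → ∀ w : ℂ, Real.exp w.re ≤ β.r * Real.exp (-5) → ‖S.x a (β.pt w)‖ ≤ B := by
  by_cases he : β.e a = 0
  swap
  · exact ⟨0, fun h => absurd h he⟩
  have hz : ∀ w, AX.zz (β.e a) (β.ψ a) w = β.ψ a (Complex.exp w) := by
    intro w
    rw [AX.zz, he, Nat.cast_zero, zero_mul, zero_div, zero_add]
  have hr : β.r * Real.exp (-5) < β.r := by
    have h1 : Real.exp (-5) < 1 := by rw [← Real.exp_zero]; exact Real.exp_lt_exp.mpr (by norm_num)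
    have h2 := β.r_pos
    nlinarith
  have him : ∀ t ∈ Metric.ball (0 : ℂ) β.r, 0 < (β.ψ a t).im := by
    intro t ht
    rw [mem_ball_zero_iff] at ht
    by_cases h0 : t = 0
    · rw [h0]
      exact β.cen a he
    · have h1 := β.im_pos a (Complex.log t) (by
        rw [← Complex.norm_exp, Complex.exp_log h0]
        exact ht)
      rw [hz, Complex.exp_log h0] at h1
      exact h1
  have hcont : ContinuousOn (fun t => jF (β.ψ a t)) (Metric.closedBall (0 : ℂ) (β.r * Real.exp (-5))) := by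
    have h1 : DifferentiableOn ℂ (fun t => jF (β.ψ a t)) (Metric.ball 0 β.r) :=
      jF_analytic.differentiableOn.comp (β.dψ a) him
    exact h1.continuousOn.mono (Metric.closedBall_subset_ball hr)
  obtain ⟨C, hC⟩ := (isCompact_closedBall _ _).exists_bound_of_continuousOn hcont
  refine ⟨C, fun _ w hw => ?_⟩
  have h2 := β.jz a w (lt_of_le_of_lt hw hr)
  rw [hz] at h2
  have h3 := hC (Complex.exp w) (by
    rw [mem_closedBall_zero_iff, Complex.norm_exp]
    exact hw)
  change ‖S.x a (AX.Tp β.o (Complex.exp w ^ β.m), β.Y (Complex.exp w))‖ ≤ C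
  rw [← h2]
  exact h3

theorem gex_cusp {d : ℕ} (S : AXG.Cur d)
    (hbig : ∀ B : ℝ, ∃ R : ℝ, ∀ p ∈ S.pt, R ≤ ‖p.1‖ → ∀ a, B ≤ ‖S.x a p‖) :
    ∃ β : AXG.Br S, ∀ a, 0 < β.e a := by
  obtain ⟨ρ, n, br, hρ, hbr⟩ := AXG.exists_br S none
  choose B hB using fun p : Fin n × Fin d => GexCusp_bd (br p.1) p.2
  obtain ⟨M, hM⟩ := (Set.finite_range B).bddAbove
  obtain ⟨R, hR⟩ := hbig (M + 1)
  obtain ⟨k₀, hk₀⟩ := exists_nat_gt (max R ρ⁻¹)
  obtain ⟨k, hk, hD⟩ : ∃ k : ℕ, k₀ ≤ k ∧ S.D.eval (k : ℂ) ≠ 0 := by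
    by_contra h
    push Not at h
    refine S.D_ne (Polynomial.eq_zero_of_infinite_isRoot _ (Set.infinite_of_injective_forall_mem
      (f := fun j : ℕ => ((k₀ + j : ℕ) : ℂ)) (fun i j hij => ?_) fun j => ?_))
    · have h0 : ((k₀ + i : ℕ) : ℂ) = ((k₀ + j : ℕ) : ℂ) := hij
      have h1 : k₀ + i = k₀ + j := Nat.cast_injective h0
      omega
    · exact h (k₀ + j) (Nat.le_add_right _ _)
  have hk1 : max R ρ⁻¹ < k := hk₀.trans_le (by exact_mod_cast hk)
  have hρ0 : 0 < ρ⁻¹ := inv_pos.2 hρ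
  have hkpos : (0 : ℝ) < k := hρ0.trans ((le_max_right _ _).trans_lt hk1)
  have hdeg : (S.F.map (evalRingHom (k : ℂ))).degree ≠ 0 := by
    have h1 : (S.F.map (evalRingHom (k : ℂ))).natDegree = S.F.natDegree := by
      refine Polynomial.natDegree_map_of_leadingCoeff_ne_zero _ ?_
      exact S.lead _ hD
    intro h2
    have h3 := Polynomial.natDegree_eq_of_degree_eq_some h2
    rw [h1] at h3
    exact S.deg.ne' h3
  obtain ⟨y, hy⟩ := IsAlgClosed.exists_root _ hdeg
  have hp : ((k : ℂ), y) ∈ S.pt := by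
    refine ⟨hD, ?_⟩
    have h1 : (S.F.map (evalRingHom (k : ℂ))).eval y = 0 := hy
    rw [Polynomial.map_evalRingHom_eval] at h1
    exact h1
  have hT : AX.Tp none ((k : ℂ)⁻¹) = k := by
    change ((k : ℂ)⁻¹)⁻¹ = k
    rw [inv_inv]
  have hn : ‖((k : ℂ)⁻¹)‖ = (k : ℝ)⁻¹ := by rw [norm_inv, Complex.norm_natCast]
  obtain ⟨i, w, hw, -, hpt⟩ := hbr ((k : ℂ)⁻¹) y (by rw [hn]; exact inv_pos.2 hkpos)
    (by rw [hn, inv_lt_comm₀ hkpos hρ]; exact (le_max_right _ _).trans_lt hk1) (by rw [hT]; exact hp)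
  rw [hT] at hpt
  refine ⟨br i, fun a => Nat.pos_of_ne_zero fun h0 => ?_⟩
  have h1 := hB (i, a) h0 w hw
  rw [hpt] at h1
  have h2 := hR _ hp (by
    show R ≤ ‖(k : ℂ)‖
    rw [Complex.norm_natCast]
    exact ((le_max_left _ _).trans_lt hk1).le) a
  have h3 := hM (Set.mem_range_self (i, a))
  linarith

end Pool.Agent.LGO.RU
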